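import Pool.Agent.Lib.NT.Rows
import Pool.Agent.Lib.MF.Meas
import Pool.Agent.Lib.MF.Bas
import Pool.Agent.Lib.MF.Int

/-!
# Decay of covariances from coercivity
-/

set_option autoImplicit false

namespace Pool.Agent.HdGas

open MeasureTheory Filter Topology

section
variable {S : Type} [MeasurableSpace S]

theorem DecayAux.meas_chi2 {C : S → S → Prop} (hC : MeasurableSet {p : S × S | C p.1 p.2}) :
    Measurable fun q : S × Om S => chi C (Al S) q.1 q.2 := by
  have h := meas_fr hC (K := Al S) (by simp [Al])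
  classical
  have e : (fun q : S × Om S => chi C (Al S) q.1 q.2) =
      fun q => if q ∈ {q : S × Om S | fr C (Al S) q.1 q.2} then (1 : ℝ) else 0 := by
    funext q
    unfold chi
    simp only [Set.mem_ofPred_eq]
  rw [e]
  exact Measurable.ite h measurable_const measurable_const

omit [MeasurableSpace S] in
theorem DecayAux.chi_cases (C : S → S → Prop) (p : S) (ω : Om S) :
    chi C (Al S) p ω = 0 ∨ chi C (Al S) p ω = 1 := by
  unfold chi
  split_ifs
  · exact Or.inr rfl
  · exact Or.inl rfl

/-- Product functions are admissible. -/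
theorem DecayAux.fn_prod (hO : OKB) (m : Measure S) [SigmaFinite m] (C : S → S → Prop) (L : Set S)
    (lam b : ℝ) (K : ℕ) (hS : Sys m C L lam b K) {F G : Om S → ℝ} (hF : Fn C L F)
    (hG : Fn C L G) : ∃ B : ℝ, 0 ≤ B ∧ ∀ p, p ∈ L →
      Fn C L (fun ω => chi C (Al S) p ω * D F p ω * D G p ω) ∧
      ∀ ω, ok C L ω → |chi C (Al S) p ω * D F p ω * D G p ω| ≤ B := by
  obtain ⟨-, -, -, h4, -, h6, -, h8⟩ := hO S m C L lam b K hS
  obtain ⟨-, -, hmF, hsF⟩ := h6 F hF
  obtain ⟨-, -, hmG, hsG⟩ := h6 G hG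
  obtain ⟨B1, hB1⟩ := hF.bdd
  obtain ⟨B2, hB2⟩ := hG.bdd
  have key : ∀ p, p ∈ L → ∀ ω, ok C L ω →
      |chi C (Al S) p ω * D F p ω * D G p ω| ≤ (2 * |B1|) * (2 * |B2|) := by
    intro p hp ω hω
    rcases DecayAux.chi_cases C p ω with h | h
    · rw [h]; simp; positivity
    · rw [h, one_mul, abs_mul]
      have hi := h4 ω hω p hp h
      have a1 : |D F p ω| ≤ 2 * |B1| := by
        unfold D
        have := abs_sub (F (ins p ω)) (F ω)
        have := hB1 _ hi
        have := hB1 _ hω
        have := le_abs_self B1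
        linarith
      have a2 : |D G p ω| ≤ 2 * |B2| := by
        unfold D
        have := abs_sub (G (ins p ω)) (G ω)
        have := hB2 _ hi
        have := hB2 _ hω
        have := le_abs_self B2
        linarith
      exact mul_le_mul a1 a2 (abs_nonneg _) (by positivity)
  refine ⟨(2 * |B1|) * (2 * |B2|), by positivity, fun p hp => ⟨⟨?_, ?_, ⟨_, key p hp⟩⟩, key p hp⟩⟩
  · have c1 := (h8 p).meas
    have c2 : Measurable (D F p) := hmF.comp (measurable_const.prodMk measurable_id)
    have c3 : Measurable (D G p) := hmG.comp (measurable_const.prodMk measurable_id)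
    exact (c1.mul c2).mul c3
  · intro n x σ
    have := (h8 p).sym n x σ
    have := hsF p n x σ
    have := hsG p n x σ
    simp only [*]

/-- Integrability in the place of the new point. -/
theorem DecayAux.integrable_q (hO : OKB) (m : Measure S) [SigmaFinite m] (C : S → S → Prop)
    (L : Set S) (lam b : ℝ) (K : ℕ) (hS : Sys m C L lam b K) {F G : Om S → ℝ} (hF : Fn C L F)
    (hG : Fn C L G) {w : S → ℝ} (hw : Measurable w) (hwb : ∃ B, ∀ x, |w x| ≤ B) :
    Integrable (fun p => w p * ex m C lam L (fun ω => chi C (Al S) p ω * D F p ω * D G p ω))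
      (m.restrict L) := by
  obtain ⟨B, hB0, hB⟩ := DecayAux.fn_prod hO m C L lam b K hS hF hG
  obtain ⟨W, hW⟩ := hwb
  obtain ⟨-, hok, -, h4, -, h6, -, h8⟩ := hO S m C L lam b K hS
  have hfin : IsFiniteMeasure (gib m C lam L) :=
    (bas S m C L lam hS.meas hS.measL hS.fin hS.lam_nonneg).2.2.1
  have hfr : IsFiniteMeasure (m.restrict L) := ⟨by
    rw [Measure.restrict_apply_univ]; exact lt_top_iff_ne_top.2 hS.fin⟩
  have hmeas : Measurable
      (fun p => ex m C lam L (fun ω => chi C (Al S) p ω * D F p ω * D G p ω)) := by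
    unfold ex
    refine Measurable.div_const (StronglyMeasurable.measurable ?_) _
    exact StronglyMeasurable.integral_prod_right
      (f := fun p ω => chi C (Al S) p ω * D F p ω * D G p ω)
      (((DecayAux.meas_chi2 hS.meas).mul (h6 F hF).2.2.1).mul (h6 G hG).2.2.1).stronglyMeasurable
  refine Integrable.mono' (g := fun _ => |W| * |B * (gib m C lam L).real Set.univ / Xi m C lam L|)
    (integrable_const _) (hw.aestronglyMeasurable.mul hmeas.aestronglyMeasurable) ?_
  filter_upwards [ae_restrict_mem hS.measL] with p hp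
  rw [norm_mul]
  refine mul_le_mul ((hW p).trans (le_abs_self W)) ?_ (norm_nonneg _) (abs_nonneg _)
  unfold ex
  rw [norm_div, abs_div]
  have hX : ‖Xi m C lam L‖ = |Xi m C lam L| := rfl
  rw [hX]
  refine div_le_div_of_nonneg_right ?_ (abs_nonneg _)
  refine (norm_integral_le_of_norm_le_const (C := B) ?_).trans (le_abs_self _)
  filter_upwards [hok] with ω hω
  exact (hB p hp).2 ω hω

/-- Cauchy-Schwarz inequality for the energy. -/
theorem DecayAux.cs (hO : OKB) (m : Measure S) [SigmaFinite m] (C : S → S → Prop)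
    (L : Set S) (lam b : ℝ) (K : ℕ) (hS : Sys m C L lam b K) {F G : Om S → ℝ} (hF : Fn C L F)
    (hG : Fn C L G) {u v : S → ℝ} (hu : Measurable u) (hub : ∃ B, ∀ x, |u x| ≤ B)
    (hv : Measurable v) (hvb : ∃ B, ∀ x, |v x| ≤ B) :
    0 ≤ en m C lam L (fun x => u x ^ 2) F F ∧ 0 ≤ en m C lam L (fun x => v x ^ 2) G G ∧
    |en m C lam L (fun x => u x * v x) F G| ≤
      √(en m C lam L (fun x => u x ^ 2) F F) * √(en m C lam L (fun x => v x ^ 2) G G) := by
  have hXi : 0 ≤ Xi m C lam L := ENNReal.toReal_nonneg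
  have hu2 : ∃ B, ∀ x, |u x ^ 2| ≤ B := by
    obtain ⟨B, hB⟩ := hub
    exact ⟨B ^ 2, fun x => by rw [abs_pow]; exact pow_le_pow_left₀ (abs_nonneg _) (hB x) 2⟩
  have hv2 : ∃ B, ∀ x, |v x ^ 2| ≤ B := by
    obtain ⟨B, hB⟩ := hvb
    exact ⟨B ^ 2, fun x => by rw [abs_pow]; exact pow_le_pow_left₀ (abs_nonneg _) (hB x) 2⟩
  have huv : ∃ B, ∀ x, |u x * v x| ≤ B := by
    obtain ⟨B, hB⟩ := hub
    obtain ⟨B', hB'⟩ := hvb
    refine ⟨B * B', fun x => ?_⟩
    rw [abs_mul]
    exact mul_le_mul (hB x) (hB' x) (abs_nonneg _) ((abs_nonneg _).trans (hB x))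
  have I1 := DecayAux.integrable_q hO m C L lam b K hS hF hF (hu.pow_const 2) hu2
  have I2 := DecayAux.integrable_q hO m C L lam b K hS hF hG (hu.mul hv) huv
  have I3 := DecayAux.integrable_q hO m C L lam b K hS hG hG (hv.pow_const 2) hv2
  obtain ⟨B1, -, hB1⟩ := DecayAux.fn_prod hO m C L lam b K hS hF hF
  obtain ⟨B2, -, hB2⟩ := DecayAux.fn_prod hO m C L lam b K hS hF hG
  obtain ⟨B3, -, hB3⟩ := DecayAux.fn_prod hO m C L lam b K hS hG hG
  obtain ⟨-, -, -, -, -, h6, -, -⟩ := hO S m C L lam b K hS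
  have quad : ∀ t : ℝ, 0 ≤ en m C lam L (fun x => u x ^ 2) F F * (t * t) +
      (2 * en m C lam L (fun x => u x * v x) F G) * t +
      en m C lam L (fun x => v x ^ 2) G G := by
    intro t
    have e : en m C lam L (fun x => u x ^ 2) F F * (t * t) +
        (2 * en m C lam L (fun x => u x * v x) F G) * t +
        en m C lam L (fun x => v x ^ 2) G G = lam * ∫ p in L,
          ex m C lam L (fun ω => chi C (Al S) p ω * (t * u p * D F p ω + v p * D G p ω) ^ 2) ∂m := by
      have e1 : ∫ p in L,
          ex m C lam L (fun ω => chi C (Al S) p ω * (t * u p * D F p ω + v p * D G p ω) ^ 2) ∂m =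
          ∫ p in L, ((t * t) * (u p ^ 2 *
            ex m C lam L (fun ω => chi C (Al S) p ω * D F p ω * D F p ω)) +
            (2 * t) * (u p * v p *
            ex m C lam L (fun ω => chi C (Al S) p ω * D F p ω * D G p ω)) + (v p ^ 2 *
            ex m C lam L (fun ω => chi C (Al S) p ω * D G p ω * D G p ω))) ∂m := by
        refine setIntegral_congr_fun hS.measL fun p hp => ?_
        have i1 := (h6 _ (hB1 p hp).1).1
        have i2 := (h6 _ (hB2 p hp).1).1
        have i3 := (h6 _ (hB3 p hp).1).1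
        have e2 : ∫ ω, chi C (Al S) p ω * (t * u p * D F p ω + v p * D G p ω) ^ 2
              ∂gib m C lam L =
            (t * t * u p ^ 2) * ∫ ω, chi C (Al S) p ω * D F p ω * D F p ω ∂gib m C lam L +
            (2 * t * (u p * v p)) * ∫ ω, chi C (Al S) p ω * D F p ω * D G p ω ∂gib m C lam L +
            v p ^ 2 * ∫ ω, chi C (Al S) p ω * D G p ω * D G p ω ∂gib m C lam L := by
          have E := integral_add ((i1.const_mul (t * t * u p ^ 2)).add
            (i2.const_mul (2 * t * (u p * v p)))) (i3.const_mul (v p ^ 2))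
          have E' := integral_add (i1.const_mul (t * t * u p ^ 2))
            (i2.const_mul (2 * t * (u p * v p)))
          simp only [Pi.add_apply] at E
          rw [E', integral_const_mul, integral_const_mul, integral_const_mul] at E
          rw [← E]
          refine integral_congr_ae (Filter.Eventually.of_forall fun ω => ?_)
          simp only []
          ring
        simp only [ex]
        rw [e2]
        ring
      have E := integral_add ((I1.const_mul (t * t)).add (I2.const_mul (2 * t))) I3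
      have E' := integral_add (I1.const_mul (t * t)) (I2.const_mul (2 * t))
      simp only [Pi.add_apply, Pi.mul_apply] at E E'
      rw [E', integral_const_mul, integral_const_mul] at E
      rw [e1, E]
      simp only [en]
      ring
    rw [e]
    refine mul_nonneg hS.lam_nonneg (integral_nonneg fun p => ?_)
    unfold ex
    refine div_nonneg (integral_nonneg fun ω => ?_) hXi
    exact mul_nonneg (chi_nonneg _ _ _ _) (sq_nonneg _)
  have n1 : 0 ≤ en m C lam L (fun x => u x ^ 2) F F := by
    unfold en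
    refine mul_nonneg hS.lam_nonneg (integral_nonneg fun p => ?_)
    refine mul_nonneg (sq_nonneg _) ?_
    unfold ex
    refine div_nonneg (integral_nonneg fun ω => ?_) hXi
    show 0 ≤ chi C (Al S) p ω * D F p ω * D F p ω
    rw [mul_assoc]
    exact mul_nonneg (chi_nonneg _ _ _ _) (mul_self_nonneg _)
  have n2 : 0 ≤ en m C lam L (fun x => v x ^ 2) G G := by
    unfold en
    refine mul_nonneg hS.lam_nonneg (integral_nonneg fun p => ?_)
    refine mul_nonneg (sq_nonneg _) ?_
    unfold ex
    refine div_nonneg (integral_nonneg fun ω => ?_) hXi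
    show 0 ≤ chi C (Al S) p ω * D G p ω * D G p ω
    rw [mul_assoc]
    exact mul_nonneg (chi_nonneg _ _ _ _) (mul_self_nonneg _)
  refine ⟨n1, n2, ?_⟩
  have hd := discrim_le_zero quad
  unfold discrim at hd
  rw [← Real.sqrt_mul n1]
  refine Real.le_sqrt_of_sq_le ?_
  rw [sq_abs]
  nlinarith

end

/-- Row DECAY. -/
theorem decay_of (hO : OKB) (hD : DIR) (hC : COERW) (hP : POIS) : DECAY := by
  intro S _ m _ C L lam b ε K hS hε hpos φ s hφ hφb hφC hc F G hF hG
  obtain ⟨ψ, hψ, hψe⟩ := hP S m C L lam b K hS F hF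
  obtain ⟨-, hok, -, h4, -, h6, -, h8⟩ := hO S m C L lam b K hS
  set c := 1 - lam * b * (ε + (Real.cosh s - 1)) with hcdef
  -- the covariance is an energy
  have e1 : ex m C lam L (fun ω => F ω * G ω) - ex m C lam L F * ex m C lam L G =
      en m C lam L (fun _ => 1) G ψ := by
    have h := hD S m C L lam b K hS ψ G hψ hG
    have iG := (h6 G hG).1
    have hFG : Fn C L (fun ω => F ω * G ω) := by
      obtain ⟨B1, hB1⟩ := hF.bdd
      obtain ⟨B2, hB2⟩ := hG.bdd
      refine ⟨hF.meas.mul hG.meas, fun n x σ => by simp only [hF.sym n x σ, hG.sym n x σ],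
        ⟨B1 * B2, fun ω hω => ?_⟩⟩
      rw [abs_mul]
      exact mul_le_mul (hB1 ω hω) (hB2 ω hω) (abs_nonneg _) ((abs_nonneg _).trans (hB1 ω hω))
    have iFG := (h6 _ hFG).1
    have e2 : ∫ ω, G ω * gen m C lam L ψ ω ∂gib m C lam L =
        ex m C lam L F * ∫ ω, G ω ∂gib m C lam L - ∫ ω, F ω * G ω ∂gib m C lam L := by
      rw [← integral_const_mul, ← integral_sub (iG.const_mul _) iFG]
      refine integral_congr_ae ?_
      filter_upwards [hok] with ω hω
      rw [hψe ω hω]
      ring
    have e3 : ex m C lam L (fun ω => G ω * gen m C lam L ψ ω) =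
        ex m C lam L F * ex m C lam L G - ex m C lam L (fun ω => F ω * G ω) := by
      simp only [ex] at e2 ⊢
      rw [e2]
      ring
    linarith
  -- coercivity
  obtain ⟨Bφ, hBφ⟩ := hφb
  have hm1 : Measurable fun x => Real.exp (φ x) := hφ.exp
  have hm2 : Measurable fun x => Real.exp (-φ x) := hφ.neg.exp
  have hb1 : ∃ B, ∀ x, |Real.exp (φ x)| ≤ B := ⟨Real.exp Bφ, fun x => by
    rw [abs_of_pos (Real.exp_pos _)]
    exact Real.exp_le_exp.2 ((le_abs_self _).trans (hBφ x))⟩
  have hb2 : ∃ B, ∀ x, |Real.exp (-φ x)| ≤ B := ⟨Real.exp Bφ, fun x => by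
    rw [abs_of_pos (Real.exp_pos _)]
    exact Real.exp_le_exp.2 ((neg_le_abs _).trans (hBφ x))⟩
  have w1 : (fun x => Real.exp (φ x) ^ 2) = fun x => Real.exp (2 * φ x) := by
    funext x; rw [← Real.exp_nat_mul]; norm_num
  have w2 : (fun x => Real.exp (-φ x) ^ 2) = fun x => Real.exp (-(2 * φ x)) := by
    funext x; rw [← Real.exp_nat_mul]; congr 1; push_cast; ring
  have w3 : (fun x => Real.exp (-φ x) * Real.exp (φ x)) = fun _ => 1 := by
    funext x; rw [← Real.exp_add]; simp
  have w4 : (fun x => Real.exp (φ x) * Real.exp (φ x)) = fun x => Real.exp (2 * φ x) := by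
    funext x; rw [← Real.exp_add]; congr 1; ring
  have CS1 := DecayAux.cs hO m C L lam b K hS hG hψ hm2 hb2 hm1 hb1
  have CS2 := DecayAux.cs hO m C L lam b K hS hψ hF hm1 hb1 hm1 hb1
  rw [w1, w2, w3] at CS1
  rw [w1, w4] at CS2
  obtain ⟨p1, p2, p3⟩ := CS1
  obtain ⟨-, q2, q3⟩ := CS2
  have co := hC S m C L lam b ε K hS hε hpos φ s hφ ⟨Bφ, hBφ⟩ hφC ψ hψ
  rw [← hcdef] at co
  have e4 : en m C lam L (fun x => Real.exp (2 * φ x)) ψ (gen m C lam L ψ) =
      -en m C lam L (fun x => Real.exp (2 * φ x)) ψ F := by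
    simp only [en]
    rw [← mul_neg, ← integral_neg]
    congr 1
    refine setIntegral_congr_fun hS.measL fun p hp => ?_
    simp only [ex]
    rw [← mul_neg, ← neg_div, ← integral_neg]
    congr 2
    refine integral_congr_ae ?_
    filter_upwards [hok] with ω hω
    rcases DecayAux.chi_cases C p ω with h | h
    · rw [h]; ring
    · have hi := h4 ω hω p hp h
      have : D (gen m C lam L ψ) p ω = -D F p ω := by
        unfold D
        rw [hψe _ hi, hψe _ hω]
        ring
      rw [this]
      ring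
  rw [e4, neg_neg] at co
  set A := en m C lam L (fun x => Real.exp (2 * φ x)) ψ ψ with hA
  have s1 : √A ≤ c⁻¹ * √(en m C lam L (fun x => Real.exp (2 * φ x)) F F) := by
    rcases eq_or_lt_of_le (Real.sqrt_nonneg A) with h0 | h0
    · rw [← h0]; positivity
    · have h1 : c * A ≤ √A * √(en m C lam L (fun x => Real.exp (2 * φ x)) F F) :=
        co.trans ((le_abs_self _).trans q3)
      have h2 : A = √A * √A := (Real.mul_self_sqrt p2).symm
      rw [inv_mul_eq_div, le_div_iff₀ hc]
      have h3 : √A * (√A * c) ≤ √A * √(en m C lam L (fun x => Real.exp (2 * φ x)) F F) := by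
        calc √A * (√A * c) = c * (√A * √A) := by ring
          _ = c * A := by rw [← h2]
          _ ≤ _ := h1
      exact le_of_mul_le_mul_left h3 h0
  rw [e1]
  calc |en m C lam L (fun _ => 1) G ψ| ≤ _ := p3
    _ ≤ √(en m C lam L (fun x => Real.exp (-(2 * φ x))) G G) *
        (c⁻¹ * √(en m C lam L (fun x => Real.exp (2 * φ x)) F F)) :=
        mul_le_mul_of_nonneg_left s1 (Real.sqrt_nonneg _)
    _ = _ := by ring

end Pool.Agent.HdGas
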