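import Pool.Agent.Lib.NT.Defs

/-!
# Hard-core gases: the rows (A), (B) of the proof
-/

set_option autoImplicit false

namespace Pool.Agent.HdGas

open MeasureTheory Filter Topology

/-! ## (A) Dynamics and decay of covariances -/

/-- Basic facts. -/
def OKB : Prop := ∀ (S : Type) [MeasurableSpace S] (m : Measure S) [SigmaFinite m]
  (C : S → S → Prop) (L : Set S) (lam b : ℝ) (K : ℕ), Sys m C L lam b K →
    MeasurableSet {ω : Om S | ok C L ω} ∧ (∀ᵐ ω ∂gib m C lam L, ok C L ω) ∧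
    (∀ ω, ok C L ω → ω.1 ≤ K) ∧
    (∀ ω, ok C L ω → ∀ p, p ∈ L → chi C (Al S) p ω = 1 → ok C L (ins p ω)) ∧
    (∀ ω, ok C L ω → ∀ i, ok C L (del ω i)) ∧
    (∀ F : Om S → ℝ, Fn C L F → Integrable F (gib m C lam L) ∧ Fn C L (gen m C lam L F) ∧
      Measurable (fun q : S × Om S => D F q.1 q.2) ∧ ∀ p, Sym (D F p)) ∧
    Fn C L (fun ω => (ω.1 : ℝ)) ∧ ∀ p, Fn C L (chi C (Al S) p)

/-- The formula of Georgii, Nguyen and Zessin. -/
def GNZ : Prop := ∀ (S : Type) [MeasurableSpace S] (m : Measure S) [SigmaFinite m]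
  (C : S → S → Prop) (L : Set S) (lam b : ℝ) (K : ℕ), Sys m C L lam b K →
  ∀ G : S → Om S → ℝ, Measurable (fun q : S × Om S => G q.1 q.2) → (∀ p, Sym (G p)) →
    (∃ B, ∀ p ω, p ∈ L → ok C L ω → chi C (Al S) p ω = 1 → |G p ω| ≤ B) →
    ex m C lam L (fun ω => ∑ i, G (ω.2 i) (del ω i)) =
      lam * ∫ p in L, ex m C lam L (fun ω => chi C (Al S) p ω * G p ω) ∂m

/-- The generator is symmetric. -/
def DIR : Prop := ∀ (S : Type) [MeasurableSpace S] (m : Measure S) [SigmaFinite m]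
  (C : S → S → Prop) (L : Set S) (lam b : ℝ) (K : ℕ), Sys m C L lam b K →
  ∀ F G : Om S → ℝ, Fn C L F → Fn C L G →
    ex m C lam L (fun ω => G ω * gen m C lam L F ω) = -en m C lam L (fun _ => 1) G F

/-- Coercivity with weights (Bochner identity). -/
def COERW : Prop := ∀ (S : Type) [MeasurableSpace S] (m : Measure S) [SigmaFinite m]
  (C : S → S → Prop) (L : Set S) (lam b ε : ℝ) (K : ℕ), Sys m C L lam b K → 0 ≤ ε →
  Posi m C L b ε → ∀ (φ : S → ℝ) (s : ℝ), Measurable φ → (∃ B, ∀ x, |φ x| ≤ B) →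
  (∀ x y, C x y → |φ x - φ y| ≤ s) → ∀ F : Om S → ℝ, Fn C L F →
    (1 - lam * b * (ε + (Real.cosh s - 1))) * en m C lam L (fun x => Real.exp (2 * φ x)) F F ≤
      -en m C lam L (fun x => Real.exp (2 * φ x)) F (gen m C lam L F)

/-- Poisson equation. -/
def POIS : Prop := ∀ (S : Type) [MeasurableSpace S] (m : Measure S) [SigmaFinite m]
  (C : S → S → Prop) (L : Set S) (lam b : ℝ) (K : ℕ), Sys m C L lam b K →
  ∀ F : Om S → ℝ, Fn C L F → ∃ ψ : Om S → ℝ, Fn C L ψ ∧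
    ∀ ω, ok C L ω → gen m C lam L ψ ω = ex m C lam L F - F ω

/-- Decay of covariances. -/
def DECAY : Prop := ∀ (S : Type) [MeasurableSpace S] (m : Measure S) [SigmaFinite m]
  (C : S → S → Prop) (L : Set S) (lam b ε : ℝ) (K : ℕ), Sys m C L lam b K → 0 ≤ ε →
  Posi m C L b ε → ∀ (φ : S → ℝ) (s : ℝ), Measurable φ → (∃ B, ∀ x, |φ x| ≤ B) →
  (∀ x y, C x y → |φ x - φ y| ≤ s) → 0 < 1 - lam * b * (ε + (Real.cosh s - 1)) →
  ∀ F G : Om S → ℝ, Fn C L F → Fn C L G →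
    |ex m C lam L (fun ω => F ω * G ω) - ex m C lam L F * ex m C lam L G| ≤
      (1 - lam * b * (ε + (Real.cosh s - 1)))⁻¹ *
        (√(en m C lam L (fun x => Real.exp (2 * φ x)) F F) *
          √(en m C lam L (fun x => Real.exp (-(2 * φ x))) G G))

/-- Ginibre's bound on the fluctuations, and a bound on the density. -/
def GINI : Prop := ∀ (S : Type) [MeasurableSpace S] (m : Measure S) [SigmaFinite m]
  (C : S → S → Prop) (L : Set S) (lam b : ℝ) (K : ℕ), Sys m C L lam b K →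
    ex m C lam L (fun ω => (ω.1 : ℝ)) ≤ (1 + lam * b) *
      (ex m C lam L (fun ω => (ω.1 : ℝ) ^ 2) - ex m C lam L (fun ω => (ω.1 : ℝ)) ^ 2) ∧
    lam * (m L).toReal ≤ (1 + lam * b) * ex m C lam L (fun ω => (ω.1 : ℝ))

/-! ## (B) Complex activities -/

/-- Activity functions between `0` and `1` do not change the hypotheses. -/
def SYSA : Prop := ∀ (S : Type) [MeasurableSpace S] (m : Measure S) [SigmaFinite m]
  (C : S → S → Prop) (L : Set S) (lam b : ℝ) (K : ℕ), Sys m C L lam b K →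
  ∀ α : S → ℝ, U01 α → SigmaFinite (md m α) ∧ Sys (md m α) C L lam b K ∧
    ∀ ε : ℝ, 0 ≤ ε → Posi m C L b ε → Posi (md m α) C L b ε

/-- Complex partition functions: the real ones, and the configurations without points in `A`. -/
def XOFF : Prop := ∀ (S : Type) [MeasurableSpace S] (m : Measure S) [SigmaFinite m]
  (C : S → S → Prop) (L : Set S) (lam b : ℝ) (K : ℕ), Sys m C L lam b K →
  ∀ (θ : ℝ) (α : S → ℝ), U01 α →
    Xa m C lam L 0 α = (Xi (md m α) C lam L : ℂ) ∧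
    ‖Xa m C lam L θ α‖ ≤ Xi (md m α) C lam L ∧
    (∀ A : Set S, MeasurableSet A → U01 (off A α) ∧
      Xa m C lam L θ (off A α) = ∫ ω in {ω : Om S | ∀ i, ω.2 i ∉ A},
        Complex.exp (Complex.I * θ * ω.1) ∂gib (md m α) C lam L) ∧
    ∀ x, Ra m C lam L 0 α x = (ex (md m α) C lam L (chi C (Al S) x) : ℂ) ∧
      ‖Ra m C lam L 0 α x‖ ≤ 1

/-- Change of the activity in a set `A`, and a lower bound. -/
def RATIO : Prop := ∀ (S : Type) [MeasurableSpace S] (m : Measure S) [SigmaFinite m]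
  (C : S → S → Prop) (L : Set S) (lam b : ℝ) (K : ℕ), Sys m C L lam b K →
  ∀ θ v : ℝ, 0 ≤ v → ZF m C lam L θ v → ∀ α : S → ℝ, U01 α →
    Real.exp (-(lam * (m L).toReal * (1 + v))) ≤ ‖Xa m C lam L θ α‖ ∧
    ∀ A : Set S, MeasurableSet A →
      ‖Xa m C lam L θ (off A α) / Xa m C lam L 0 (off A α) /
        (Xa m C lam L θ α / Xa m C lam L 0 α) - 1‖ ≤
        Real.exp (lam * (m (L ∩ A)).toReal * (|θ| * (1 + v) + v)) - 1

/-- Logarithmic derivative in the activity. -/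
def LOGD : Prop := ∀ (S : Type) [MeasurableSpace S] (m : Measure S) [SigmaFinite m]
  (C : S → S → Prop) (L : Set S) (lam b : ℝ) (K : ℕ), Sys m C L lam b K →
  ∀ θ v : ℝ, 0 ≤ v → ZF m C lam L θ v → ∀ α : S → ℝ, U01 α →
    ‖∫ ω, (ω.1 : ℂ) * Complex.exp (Complex.I * θ * ω.1) ∂gib (md m α) C lam L‖ ≤
      (1 + v) * lam * (m L).toReal * ‖Xa m C lam L θ α‖

/-- The quotient of the complex and of the real partition function. -/
noncomputable def qa {S : Type} [MeasurableSpace S] (m : Measure S) (C : S → S → Prop) (lam : ℝ)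
    (L : Set S) (θ : ℝ) (α : S → ℝ) : ℂ := Xa m C lam L θ α / Xa m C lam L 0 α

/-- Places in `V` or excluded by the points of `ω` in `V`. -/
def Vc {S : Type} (C : S → S → Prop) (V : Set S) (ω : Om S) : Set S :=
  V ∪ {z | ∃ i, ω.2 i ∈ V ∧ C (ω.2 i) z}

open Classical in
/-- Number of points in `V`. -/
noncomputable def nV {S : Type} (V : Set S) (ω : Om S) : ℕ :=
  (Finset.univ.filter fun i => ω.2 i ∈ V).card

/-- The complex gas in a block `V`. -/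
noncomputable def h0 {S : Type} [MeasurableSpace S] (m : Measure S) (C : S → S → Prop) (lam : ℝ)
    (L : Set S) (θ : ℝ) (α : S → ℝ) (V : Set S) (ω : Om S) : ℂ :=
  qa m C lam L θ (off (Vc C V ω) α) / qa m C lam L θ (off V α)

/-- Integration over the configuration outside a block `V`. -/
def BLOCK : Prop := ∀ (S : Type) [MeasurableSpace S] (m : Measure S) [SigmaFinite m]
  (C : S → S → Prop) (L : Set S) (lam b : ℝ) (K : ℕ), Sys m C L lam b K →
  ∀ θ v : ℝ, 0 ≤ v → ZF m C lam L θ v → ∀ α : S → ℝ, U01 α → ∀ V : Set S, MeasurableSet V →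
    Measurable (h0 m C lam L θ α V) ∧ Sym (h0 m C lam L θ α V) ∧
    ∀ f : Om S → ℝ, Fn C L f → (∀ ω η, (∀ j, η.2 j ∉ V) → f (app ω η) = f ω) →
      ∫ ω, (f ω : ℂ) * Complex.exp (Complex.I * θ * ω.1) ∂gib (md m α) C lam L =
        qa m C lam L θ (off V α) * ∫ ω, (f ω : ℂ) * (Complex.exp (Complex.I * θ * nV V ω) *
          h0 m C lam L θ α V ω) ∂gib (md m α) C lam L

/-- Block argument: the ratio at a place `x` in terms of the error far away. `φ x` is a distance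
from the places near `x`. -/
def GAIN : Prop := ∀ (S : Type) [MeasurableSpace S] (m : Measure S) [SigmaFinite m]
  (C : S → S → Prop) (L : Set S) (lam b ε : ℝ) (K : ℕ), Sys m C L lam b K → 0 ≤ ε →
  Posi m C L b ε → ∀ (φ : S → S → ℝ) (s T w θ v G : ℝ), (∀ x, Measurable (φ x)) →
  (∀ x y, 0 ≤ φ x y) → (∀ x y, C x y → φ x y = 0) →
  (∀ x y z, C y z → |φ x y - φ x z| ≤ s) → 0 ≤ w →
  (∀ x, m {y | φ x y ≤ T + s} ≤ ENNReal.ofReal w) → 0 ≤ T → 0 ≤ s →
  0 < 1 - lam * b * (ε + (Real.cosh s - 1)) → 0 ≤ v → ZF m C lam L θ v →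
  G = lam * w * (|θ| * (1 + v) + v) → ∀ α : S → ℝ, U01 α → ∀ x,
    ‖Ra m C lam L θ α x - Ra m C lam L 0 α x‖ *
      (1 - (|θ| * (lam * w) * Real.exp G + (Real.exp G - 1))) ≤
    4 * (1 - lam * b * (ε + (Real.cosh s - 1)))⁻¹ * Real.exp (-(T - s)) *
      (√(lam * b) * √(lam * w)) * (Real.exp G - 1) + |θ| * (lam * w) * Real.exp G

/-- Choice of the parameters. -/
def NUMG : Prop := ∀ (lam b c s : ℝ) (w : ℝ → ℝ), 0 ≤ lam → 0 < b → 0 < c → (∀ T, 0 ≤ w T) →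
  Tendsto (fun T : ℝ => Real.exp (-T) * (w T * √(w T))) atTop (𝓝 0) →
    ∃ T v θ0 : ℝ, 0 ≤ T ∧ 0 < v ∧ v ≤ 1 ∧ 0 < θ0 ∧ ∀ θ : ℝ, |θ| ≤ θ0 → ∀ G u : ℝ,
      G = lam * w T * (|θ| * (1 + v) + v) → 0 ≤ u →
      u * (1 - (|θ| * (lam * w T) * Real.exp G + (Real.exp G - 1))) ≤
        4 * c⁻¹ * Real.exp (-(T - s)) * (√(lam * b) * √(lam * w T)) * (Real.exp G - 1) +
          |θ| * (lam * w T) * Real.exp G → u ≤ v / 2

/-- A small change of the angle. -/
def STEP : Prop := ∀ (S : Type) [MeasurableSpace S] (m : Measure S) [SigmaFinite m]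
  (C : S → S → Prop) (L : Set S) (lam b : ℝ) (K : ℕ), Sys m C L lam b K →
  ∀ v : ℝ, 0 < v → v ≤ 1 → ∃ δ : ℝ, 0 < δ ∧ ∀ θ θ' : ℝ, ZF m C lam L θ (v / 2) →
    |θ' - θ| ≤ δ → ZF m C lam L θ' v

/-- No zeros in a sector, uniformly in the region. -/
def ZFALL : Prop := ∀ (S : Type) [MeasurableSpace S] (m : Measure S) [SigmaFinite m]
  (C : S → S → Prop) (lam b ε : ℝ), 0 ≤ ε → ∀ (φ : S → S → ℝ) (s : ℝ) (w : ℝ → ℝ),
  (∀ x, Measurable (φ x)) → (∀ x y, 0 ≤ φ x y) → (∀ x y, C x y → φ x y = 0) →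
  (∀ x y z, C y z → |φ x y - φ x z| ≤ s) → (∀ T, 0 ≤ w T) →
  (∀ T x, m {y | φ x y ≤ T + s} ≤ ENNReal.ofReal (w T)) → 0 ≤ s →
  Tendsto (fun T : ℝ => Real.exp (-T) * (w T * √(w T))) atTop (𝓝 0) → 0 ≤ lam → 0 < b →
  0 < 1 - lam * b * (ε + (Real.cosh s - 1)) →
    ∃ θ0 : ℝ, 0 < θ0 ∧ ∀ (L : Set S) (K : ℕ), Sys m C L lam b K → Posi m C L b ε →
      ∀ θ : ℝ, |θ| ≤ θ0 → ZF m C lam L θ 1

end Pool.Agent.HdGas
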