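import Mathlib
import Pool.Agent.Lib.NT.Rows
import Pool.Agent.Lib.MF.Mecke

/-! NT, helper lemmas: change of the activity by a factor `w`: the gas measure gets the density
`∏ w`.  helper33. -/

set_option autoImplicit false

namespace Pool.Agent.HdGas

open MeasureTheory

namespace Wd

variable {S : Type} [MeasurableSpace S]

/-- the density -/
noncomputable def W (w : S → ENNReal) (ω : Om S) : ENNReal := ∏ i, w (ω.2 i)

lemma measurable_W {w : S → ENNReal} (hw : Measurable w) : Measurable (W w) := by
  refine measurable_om fun n => ?_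
  have h : Measurable fun x : Fin n → S => ∏ i, w (x i) :=
    Finset.measurable_prod _ fun i _ => hw.comp (measurable_pi_apply i)
  exact h

theorem lint_pi_wd (μ : Measure S) [SigmaFinite μ] {w : S → ENNReal} (hw : Measurable w)
    [SigmaFinite (μ.withDensity w)] (n : ℕ) {f : (Fin n → S) → ENNReal} (hf : Measurable f) :
    ∫⁻ x, f x ∂(Measure.pi fun _ : Fin n => μ.withDensity w) =
      ∫⁻ x, (∏ i, w (x i)) * f x ∂(Measure.pi fun _ : Fin n => μ) := by
  induction n with
  | zero =>
    rw [Measure.pi_of_empty, Measure.pi_of_empty]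
    simp
  | succ n ih =>
    have hcons : Measurable fun q : S × (Fin n → S) => f (Fin.cons q.1 q.2) :=
      hf.comp (measurable_cons n)
    have hprod : Measurable fun x : Fin n → S => ∏ i, w (x i) :=
      Finset.measurable_prod _ fun i _ => hw.comp (measurable_pi_apply i)
    have hprod1 : Measurable fun x : Fin (n + 1) → S => ∏ i, w (x i) :=
      Finset.measurable_prod _ fun i _ => hw.comp (measurable_pi_apply i)
    rw [lint_cons _ n hf, lint_cons _ n (f := fun x => (∏ i, w (x i)) * f x) (hprod1.mul hf)]
    have e1 : ∀ p, ∫⁻ x, f (Fin.cons p x) ∂(Measure.pi fun _ : Fin n => μ.withDensity w) =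
        ∫⁻ x, (∏ i, w (x i)) * f (Fin.cons p x) ∂(Measure.pi fun _ : Fin n => μ) := fun p =>
      ih (hcons.comp (measurable_const.prodMk measurable_id))
    simp only [e1]
    have hm : Measurable fun p => ∫⁻ x, (∏ i, w (x i)) * f (Fin.cons p x)
        ∂(Measure.pi fun _ : Fin n => μ) :=
      Measurable.lintegral_prod_right' (f := fun q : S × (Fin n → S) =>
        (∏ i, w (q.2 i)) * f (Fin.cons q.1 q.2)) ((hprod.comp measurable_snd).mul hcons)
    rw [lintegral_withDensity_eq_lintegral_mul μ hw hm]
    refine lintegral_congr fun p => ?_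
    have hq : Measurable fun x : Fin n → S => (∏ i, w (x i)) * f (Fin.cons p x) :=
      hprod.mul (hcons.comp (measurable_const.prodMk measurable_id))
    rw [Pi.mul_apply, ← lintegral_const_mul _ hq]
    refine lintegral_congr fun x => ?_
    rw [Fin.prod_univ_succ]
    simp only [Fin.cons_zero, Fin.cons_succ]
    ring

theorem lint_pois_wd (μ : Measure S) [SigmaFinite μ] {w : S → ENNReal} (hw : Measurable w)
    (hw1 : ∀ x, w x ≤ 1) (lam : ℝ) {L : Set S} (hL : MeasurableSet L) {F : Om S → ENNReal}
    (hF : Measurable F) :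
    ∫⁻ ω, F ω ∂pois (μ.withDensity w) lam L = ∫⁻ ω, W w ω * F ω ∂pois μ lam L := by
  have hne : ∀ᵐ x ∂(μ.restrict L), w x ≠ ⊤ :=
    Filter.Eventually.of_forall fun x => ((hw1 x).trans_lt ENNReal.one_lt_top).ne
  have hsf : SigmaFinite ((μ.restrict L).withDensity w) := SigmaFinite.withDensity_of_ne_top hne
  rw [lint_pois _ lam L hF, lint_pois _ lam L (F := fun ω => W w ω * F ω)
    ((measurable_W hw).mul hF)]
  refine tsum_congr fun n => ?_
  have h := lint_pi_wd (μ.restrict L) hw n (f := fun x => F ⟨n, x⟩) (hF.comp (measurable_mk n))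
  rw [restrict_withDensity hL, h]
  rfl

theorem gib_wd (μ : Measure S) [SigmaFinite μ] {w : S → ENNReal} (hw : Measurable w)
    (hw1 : ∀ x, w x ≤ 1) (C : S → S → Prop) (hh : MeasurableSet {ω : Om S | hc C ω}) (lam : ℝ)
    {L : Set S} (hL : MeasurableSet L) :
    gib (μ.withDensity w) C lam L = (gib μ C lam L).withDensity (W w) := by
  have h1 : pois (μ.withDensity w) lam L = (pois μ lam L).withDensity (W w) := by
    refine Measure.ext fun s hs => ?_
    rw [← lintegral_indicator_one hs, lint_pois_wd μ hw hw1 lam hL (measurable_one.indicator hs),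
      withDensity_apply _ hs, ← lintegral_indicator hs]
    refine lintegral_congr fun ω => ?_
    by_cases h : ω ∈ s <;> simp [h]
  unfold gib
  rw [h1, restrict_withDensity hh]

end Wd

end Pool.Agent.HdGas
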