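import Mathlib
import Pool.Agent.Lib.NT.Rows
import Pool.Agent.Lib.NT.Wd
import Pool.Agent.Lib.MF.Rows
import Pool.Agent.Lib.MF.Mecke

/-! NT, row RATIO: derivative of the complex partition function in the activity.
helper33. -/

set_option autoImplicit false

namespace Pool.Agent.HdGas

open MeasureTheory

namespace Rt33

variable {S : Type} [MeasurableSpace S]

/-- the factor -/
noncomputable def fac (A : Set S) (τ : ℝ) : S → ℝ := by
  classical exact fun x => if x ∈ A then τ else 1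

lemma fac_mem {A : Set S} {τ : ℝ} {x : S} (h : x ∈ A) : fac A τ x = τ := by
  simp [fac, h]

lemma fac_not {A : Set S} {τ : ℝ} {x : S} (h : x ∉ A) : fac A τ x = 1 := by
  simp [fac, h]

lemma measurable_fac {A : Set S} (hA : MeasurableSet A) (τ : ℝ) : Measurable (fac A τ) := by
  classical
  have : fac A τ = fun x => if x ∈ A then τ else 1 := by
    funext x
    by_cases h : x ∈ A
    · simp [fac_mem h, h]
    · simp [fac_not h, h]
  rw [this]
  exact Measurable.ite hA measurable_const measurable_const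

lemma fac_nonneg {A : Set S} {τ : ℝ} (h0 : 0 ≤ τ) (x : S) : 0 ≤ fac A τ x := by
  by_cases h : x ∈ A
  · rw [fac_mem h]; exact h0
  · rw [fac_not h]; exact zero_le_one

lemma fac_le {A : Set S} {τ : ℝ} (h1 : τ ≤ 1) (x : S) : fac A τ x ≤ 1 := by
  by_cases h : x ∈ A
  · rw [fac_mem h]; exact h1
  · rw [fac_not h]

/-- the activity with the factor `τ` on `A` -/
noncomputable def act (A : Set S) (τ : ℝ) (α : S → ℝ) : S → ℝ := fun x => fac A τ x * α x

lemma act_U01 {A : Set S} (hA : MeasurableSet A) {τ : ℝ} (h0 : 0 ≤ τ) (h1 : τ ≤ 1) {α : S → ℝ}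
    (hα : U01 α) : U01 (act A τ α) := by
  refine ⟨(measurable_fac hA τ).mul hα.1, fun x => ⟨mul_nonneg (fac_nonneg h0 x) (hα.2 x).1, ?_⟩⟩
  calc fac A τ x * α x ≤ 1 * 1 := mul_le_mul (fac_le h1 x) (hα.2 x).2 (hα.2 x).1 zero_le_one
    _ = 1 := by ring

lemma act_one (A : Set S) (α : S → ℝ) : act A 1 α = α := by
  funext x
  unfold act
  by_cases h : x ∈ A
  · rw [fac_mem h, one_mul]
  · rw [fac_not h, one_mul]

lemma act_zero (A : Set S) (α : S → ℝ) : act A 0 α = off A α := by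
  funext x
  unfold act off
  by_cases h : x ∈ A
  · rw [fac_mem h, zero_mul, if_pos h]
  · rw [fac_not h, one_mul, if_neg h]

lemma md_act (m : Measure S) {A : Set S} (hA : MeasurableSet A) {τ : ℝ} (h0 : 0 ≤ τ) {α : S → ℝ}
    (hα : U01 α) : md m (act A τ α) = (md m α).withDensity fun x => ENNReal.ofReal (fac A τ x) := by
  unfold md
  have h : (fun x => ENNReal.ofReal (act A τ α x)) =
      (fun x => ENNReal.ofReal (α x)) * fun x => ENNReal.ofReal (fac A τ x) := by
    funext x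
    rw [Pi.mul_apply, act, mul_comm, ENNReal.ofReal_mul (hα.2 x).1]
  rw [h, withDensity_mul _ hα.1.ennreal_ofReal (measurable_fac hA τ).ennreal_ofReal]

lemma nV_eq (V : Set S) (n : ℕ) (x : Fin n → S) :
    nV V (⟨n, x⟩ : Om S) = ∑ i, (V.indicator (fun _ => 1) (x i) : ℕ) := by
  classical
  unfold nV
  rw [Finset.card_filter]
  refine Finset.sum_congr rfl fun i _ => ?_
  by_cases h : x i ∈ V <;> simp [h]

lemma measurable_nV {V : Set S} (hV : MeasurableSet V) : Measurable (nV V : Om S → ℕ) := by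
  refine measurable_om fun n => ?_
  have h : Measurable fun x : Fin n → S => ∑ i, (V.indicator (fun _ => 1) (x i) : ℕ) :=
    Finset.measurable_sum _ fun i _ => ((measurable_const.indicator hV).comp (measurable_pi_apply i))
  have e : (fun x : Fin n → S => nV V (⟨n, x⟩ : Om S)) =
      fun x => ∑ i, (V.indicator (fun _ => 1) (x i) : ℕ) := by
    funext x
    exact nV_eq V n x
  rw [e]
  exact h

lemma nV_le (V : Set S) (ω : Om S) : nV V ω ≤ ω.1 := by
  classical
  unfold nV
  exact (Finset.card_filter_le _ _).trans (by simp)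

lemma nV_sym (V : Set S) : Sym (nV V) := by
  intro n x σ
  rw [nV_eq, nV_eq]
  exact Equiv.sum_comp σ (fun i => (V.indicator (fun _ => 1) (x i) : ℕ))

lemma nV_univ (ω : Om S) : nV Set.univ ω = ω.1 := by
  classical
  unfold nV
  simp

lemma W_fac {A : Set S} {τ : ℝ} (h0 : 0 ≤ τ) (ω : Om S) :
    (Wd.W (fun x => ENNReal.ofReal (fac A τ x)) ω).toReal = τ ^ nV A ω := by
  classical
  unfold Wd.W
  rw [ENNReal.toReal_prod]
  have e : ∀ i, (ENNReal.ofReal (fac A τ (ω.2 i))).toReal = if ω.2 i ∈ A then τ else 1 := by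
    intro i
    rw [ENNReal.toReal_ofReal (fac_nonneg h0 _)]
    by_cases h : ω.2 i ∈ A
    · rw [fac_mem h, if_pos h]
    · rw [fac_not h, if_neg h]
  simp only [e]
  rw [Finset.prod_ite, Finset.prod_const, Finset.prod_const_one, mul_one]
  unfold nV
  congr

lemma expc (θ : ℝ) (n : ℕ) : Complex.exp (Complex.I * θ * n) =
    (Real.cos (θ * n) : ℂ) + (Real.sin (θ * n) : ℂ) * Complex.I := by
  have : Complex.I * θ * n = ((θ * n : ℝ) : ℂ) * Complex.I := by push_cast; ring
  rw [this, Complex.exp_mul_I, Complex.ofReal_cos, Complex.ofReal_sin]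

lemma norm_exp (θ : ℝ) (n : ℕ) : ‖Complex.exp (Complex.I * θ * n)‖ = 1 := by
  have : Complex.I * θ * n = ((θ * n : ℝ) : ℂ) * Complex.I := by push_cast; ring
  rw [this, Complex.norm_exp_ofReal_mul_I]

lemma meas_exp (θ : ℝ) : Measurable fun ω : Om S => Complex.exp (Complex.I * θ * ω.1) := by
  refine measurable_om fun n => ?_
  have h : Measurable fun _ : Fin n → S => Complex.exp (Complex.I * θ * (n : ℂ)) :=
    measurable_const
  exact h

lemma del_fst (ω : Om S) (i : Fin ω.1) : (del ω i).1 + 1 = ω.1 := by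
  obtain ⟨n, x⟩ := ω
  cases n with
  | zero => exact i.elim0
  | succ n => rfl

lemma del_nV (A : Set S) (ω : Om S) (i : Fin ω.1) :
    nV A (del ω i) + A.indicator (fun _ => 1) (ω.2 i) = nV A ω := by
  obtain ⟨n, x⟩ := ω
  cases n with
  | zero => exact i.elim0
  | succ n =>
    have e : nV A (del ⟨n + 1, x⟩ i) =
        ∑ j, (A.indicator (fun _ => 1) (x (Fin.succAbove i j)) : ℕ) :=
      nV_eq A n (Fin.removeNth i x)
    rw [e, nV_eq, Fin.sum_univ_succAbove _ i, add_comm]

lemma sum_del (A : Set S) (τ : ℝ) (f : ℕ → ℝ) (ω : Om S) :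
    ∑ i, (A.indicator (fun _ => (1 : ℝ)) (ω.2 i) * (τ ^ nV A (del ω i) *
      f ((del ω i).1 + 1))) = nV A ω * (τ ^ (nV A ω - 1) * f ω.1) := by
  have e : ∀ i, A.indicator (fun _ => (1 : ℝ)) (ω.2 i) * (τ ^ nV A (del ω i) *
      f ((del ω i).1 + 1)) = (A.indicator (fun _ => 1) (ω.2 i) : ℕ) *
        (τ ^ (nV A ω - 1) * f ω.1) := by
    intro i
    rw [del_fst]
    have h := del_nV A ω i
    by_cases hi : ω.2 i ∈ A
    · rw [Set.indicator_of_mem hi, Set.indicator_of_mem hi]
      rw [Set.indicator_of_mem hi] at h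
      have : nV A (del ω i) = nV A ω - 1 := by omega
      rw [this]
      norm_num
    · rw [Set.indicator_of_notMem hi, Set.indicator_of_notMem hi]
      norm_num
  simp only [e]
  rw [← Finset.sum_mul]
  congr 1
  obtain ⟨n, x⟩ := ω
  rw [nV_eq]
  push_cast
  rfl

section main

variable {m : Measure S} [SigmaFinite m] {C : S → S → Prop} {L : Set S} {lam b : ℝ} {K : ℕ}

/-- `Xa` for the activity `act A τ α` -/
lemma Xa_act (hh : MeasurableSet {ω : Om S | hc C ω}) (hL : MeasurableSet L)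
    {A : Set S} (hA : MeasurableSet A) {τ : ℝ} (h0 : 0 ≤ τ) (h1 : τ ≤ 1) {α : S → ℝ}
    (hα : U01 α) [SigmaFinite (md m α)] (θ : ℝ) (B : Set (Om S)) (hB : MeasurableSet B) :
    ∫ ω in B, Complex.exp (Complex.I * θ * ω.1) ∂gib (md m (act A τ α)) C lam L =
      ∫ ω in B, ((τ : ℂ) ^ nV A ω * Complex.exp (Complex.I * θ * ω.1))
        ∂gib (md m α) C lam L := by
  have hw1 : ∀ x : S, ENNReal.ofReal (fac A τ x) ≤ 1 := fun x => by
    rw [← ENNReal.ofReal_one]
    exact ENNReal.ofReal_le_ofReal (fac_le h1 x)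
  have hw := (measurable_fac hA τ).ennreal_ofReal
  rw [md_act m hA h0 hα, Wd.gib_wd (md m α) hw hw1 C hh lam hL, restrict_withDensity hB,
    integral_withDensity_eq_integral_toReal_smul (Wd.measurable_W hw)]
  · refine integral_congr_ae (Filter.Eventually.of_forall fun ω => ?_)
    simp only [W_fac h0 ω, Complex.real_smul]
    push_cast
    rfl
  · refine Filter.Eventually.of_forall fun ω => ?_
    unfold Wd.W
    exact ENNReal.prod_lt_top fun i _ => (hw1 _).trans_lt ENNReal.one_lt_top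

/-- derivative under the integral -/
lemma hasDeriv {μ : Measure (Om S)} [IsFiniteMeasure μ] (hK : ∀ᵐ ω ∂μ, ω.1 ≤ K)
    {A : Set S} (hA : MeasurableSet A) (θ t : ℝ) :
    Integrable (fun ω : Om S => ((nV A ω : ℂ) * (t : ℂ) ^ (nV A ω - 1) *
      Complex.exp (Complex.I * θ * ω.1))) μ ∧
    HasDerivAt (fun τ : ℝ => ∫ ω, ((τ : ℂ) ^ nV A ω * Complex.exp (Complex.I * θ * ω.1)) ∂μ)
      (∫ ω, ((nV A ω : ℂ) * (t : ℂ) ^ (nV A ω - 1) * Complex.exp (Complex.I * θ * ω.1)) ∂μ) t := by
  have hnV : Measurable fun ω : Om S => nV A ω := measurable_nV hA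
  have hpow : ∀ τ : ℝ, Measurable fun ω : Om S => (τ : ℂ) ^ nV A ω := fun τ =>
    (measurable_of_countable (f := fun k : ℕ => (τ : ℂ) ^ k)).comp hnV
  have hpow' : ∀ τ : ℝ, Measurable fun ω : Om S => (nV A ω : ℂ) * (τ : ℂ) ^ (nV A ω - 1) :=
    fun τ => (measurable_of_countable (f := fun k : ℕ => (k : ℂ) * (τ : ℂ) ^ (k - 1))).comp hnV
  have hbase : (1 : ℝ) ≤ |t| + 1 := by linarith [abs_nonneg t]
  refine hasDerivAt_integral_of_dominated_loc_of_deriv_le (𝕜 := ℝ) (s := Metric.ball t 1)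
    (F := fun τ ω => ((τ : ℂ) ^ nV A ω * Complex.exp (Complex.I * θ * ω.1)))
    (F' := fun τ ω => ((nV A ω : ℂ) * (τ : ℂ) ^ (nV A ω - 1) *
      Complex.exp (Complex.I * θ * ω.1)))
    (bound := fun _ => (K : ℝ) * (|t| + 1) ^ K) (Metric.ball_mem_nhds t one_pos)
    (Filter.Eventually.of_forall fun τ => ((hpow τ).mul (meas_exp θ)).aestronglyMeasurable)
    ?_ ((hpow' t).mul (meas_exp θ)).aestronglyMeasurable ?_ (integrable_const _) ?_
  · refine Integrable.of_bound (((hpow t).mul (meas_exp θ)).aestronglyMeasurable)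
      ((|t| + 1) ^ K) ?_
    filter_upwards [hK] with ω hω
    rw [norm_mul, norm_exp, mul_one, norm_pow, Complex.norm_real, Real.norm_eq_abs]
    calc |t| ^ nV A ω ≤ (|t| + 1) ^ nV A ω :=
          pow_le_pow_left₀ (abs_nonneg t) (by linarith) _
      _ ≤ (|t| + 1) ^ K := pow_le_pow_right₀ hbase ((nV_le A ω).trans hω)
  · filter_upwards [hK] with ω hω
    intro τ hτ
    have hτ' : |τ| ≤ |t| + 1 := by
      rw [Metric.mem_ball, Real.dist_eq] at hτ
      have := abs_sub_abs_le_abs_sub τ t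
      linarith
    rw [norm_mul, norm_exp, mul_one, norm_mul, norm_pow, Complex.norm_real, Real.norm_eq_abs,
      Complex.norm_natCast]
    have h1 : (nV A ω : ℝ) ≤ K := by exact_mod_cast (nV_le A ω).trans hω
    have h2 : |τ| ^ (nV A ω - 1) ≤ (|t| + 1) ^ K :=
      (pow_le_pow_left₀ (abs_nonneg τ) hτ' _).trans
        (pow_le_pow_right₀ hbase ((Nat.sub_le _ _).trans ((nV_le A ω).trans hω)))
    exact mul_le_mul h1 h2 (by positivity) (by positivity)
  · refine Filter.Eventually.of_forall fun ω τ _ => ?_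
    have h1 : HasDerivAt (fun τ : ℝ => (τ : ℂ) ^ nV A ω)
        ((nV A ω : ℂ) * (τ : ℂ) ^ (nV A ω - 1) * 1) τ :=
      (Complex.ofRealCLM.hasDerivAt (x := τ)).pow (nV A ω)
    rw [mul_one] at h1
    exact h1.mul_const _

/-- the formula of Georgii, Nguyen and Zessin for `τ ^ nV` times a function of the number -/
lemma gnz_real (hgnz : GNZ) {μ : Measure S} [SigmaFinite μ] (hS : Sys μ C L lam b K)
    (hX : Xi μ C lam L ≠ 0)
    {A : Set S} (hA : MeasurableSet A) {τ : ℝ} (h0 : 0 ≤ τ) (h1 : τ ≤ 1) (f : ℕ → ℝ)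
    (hf : ∀ n, |f n| ≤ 1) :
    ∫ ω, (nV A ω * (τ ^ (nV A ω - 1) * f ω.1)) ∂gib μ C lam L =
      lam * ∫ p in L, (∫ ω, chi C (Al S) p ω * (A.indicator (fun _ => (1 : ℝ)) p *
        (τ ^ nV A ω * f (ω.1 + 1))) ∂gib μ C lam L) ∂μ := by
  have hnV : Measurable fun ω : Om S => nV A ω := measurable_nV hA
  have hN : Measurable fun ω : Om S => ω.1 := measurable_om fun n => measurable_const
  have hg : Measurable fun ω : Om S => τ ^ nV A ω * f (ω.1 + 1) :=
    ((measurable_of_countable (f := fun k : ℕ => τ ^ k)).comp hnV).mul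
      ((measurable_of_countable (f := fun k : ℕ => f (k + 1))).comp hN)
  have h := hgnz S μ C L lam b K hS (fun p ω => A.indicator (fun _ => (1 : ℝ)) p *
    (τ ^ nV A ω * f (ω.1 + 1)))
    (((measurable_const.indicator hA).comp measurable_fst).mul (hg.comp measurable_snd))
    (fun p n x σ => by
      have := nV_sym A n x σ
      simp only [this]) ⟨1, fun p ω _ _ _ => by
      rw [abs_mul, abs_mul]
      have h2 : |A.indicator (fun _ => (1 : ℝ)) p| ≤ 1 := by
        by_cases hp : p ∈ A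
        · rw [Set.indicator_of_mem hp]; simp
        · rw [Set.indicator_of_notMem hp]; simp
      have h3 : |τ ^ nV A ω| ≤ 1 := by
        rw [abs_of_nonneg (pow_nonneg h0 _)]
        exact pow_le_one₀ h0 h1
      calc _ ≤ 1 * (1 * 1) := mul_le_mul h2 (mul_le_mul h3 (hf _) (abs_nonneg _) zero_le_one)
            (by positivity) zero_le_one
        _ = 1 := by ring⟩
  simp only [sum_del] at h
  unfold ex at h
  rw [integral_div, div_eq_iff hX] at h
  rw [h, mul_div_assoc', div_mul_cancel₀ _ hX]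

lemma u_meas (hchi : Measurable fun q : S × Om S => chi C (Al S) q.1 q.2) {μ : Measure (Om S)}
    [IsFiniteMeasure μ] {A : Set S} (hA : MeasurableSet A) (τ : ℝ) (f : ℕ → ℝ) :
    StronglyMeasurable fun p => ∫ ω, chi C (Al S) p ω * (A.indicator (fun _ => (1 : ℝ)) p *
        (τ ^ nV A ω * f (ω.1 + 1))) ∂μ := by
  have hnV : Measurable fun ω : Om S => nV A ω := measurable_nV hA
  have hN : Measurable fun ω : Om S => ω.1 := measurable_om fun n => measurable_const
  have hg : Measurable fun ω : Om S => τ ^ nV A ω * f (ω.1 + 1) :=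
    ((measurable_of_countable (f := fun k : ℕ => τ ^ k)).comp hnV).mul
      ((measurable_of_countable (f := fun k : ℕ => f (k + 1))).comp hN)
  have h : Measurable fun q : S × Om S => chi C (Al S) q.1 q.2 *
      (A.indicator (fun _ => (1 : ℝ)) q.1 * (τ ^ nV A q.2 * f (q.2.1 + 1))) :=
    hchi.mul (((measurable_const.indicator hA).comp measurable_fst).mul (hg.comp measurable_snd))
  exact h.stronglyMeasurable.integral_prod_right'

lemma abs_chi (p : S) (ω : Om S) : |chi C (Al S) p ω| ≤ 1 := by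
  unfold chi
  split_ifs <;> simp

lemma abs_ind (A : Set S) (p : S) : |A.indicator (fun _ => (1 : ℝ)) p| ≤ 1 := by
  by_cases hp : p ∈ A
  · rw [Set.indicator_of_mem hp]; simp
  · rw [Set.indicator_of_notMem hp]; simp

lemma u_int (hchi : Measurable fun q : S × Om S => chi C (Al S) q.1 q.2) {μ : Measure (Om S)}
    [IsFiniteMeasure μ] {ν : Measure S} [IsFiniteMeasure ν] {A : Set S} (hA : MeasurableSet A)
    {τ : ℝ} (h0 : 0 ≤ τ) (h1 : τ ≤ 1) (f : ℕ → ℝ) (hf : ∀ n, |f n| ≤ 1) :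
    Integrable (fun p => ∫ ω, chi C (Al S) p ω * (A.indicator (fun _ => (1 : ℝ)) p *
        (τ ^ nV A ω * f (ω.1 + 1))) ∂μ) ν := by
  refine Integrable.of_bound (u_meas hchi hA τ f).aestronglyMeasurable (1 * μ.real Set.univ)
    (Filter.Eventually.of_forall fun p => ?_)
  refine norm_integral_le_of_norm_le_const (Filter.Eventually.of_forall fun ω => ?_)
  rw [Real.norm_eq_abs, abs_mul, abs_mul, abs_mul]
  have h3 : |τ ^ nV A ω| ≤ 1 := by
    rw [abs_of_nonneg (pow_nonneg h0 _)]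
    exact pow_le_one₀ h0 h1
  calc _ ≤ 1 * (1 * (1 * 1)) := mul_le_mul (abs_chi p ω) (mul_le_mul (abs_ind A p)
        (mul_le_mul h3 (hf _) (abs_nonneg _) zero_le_one) (by positivity) zero_le_one)
        (by positivity) zero_le_one
    _ = 1 := by ring

/-- integrals of `u + v I` -/
lemma int_add_I {X : Type*} [MeasurableSpace X] {μ : Measure X} {u v : X → ℝ}
    (hu : Integrable u μ) (hv : Integrable v μ) :
    ∫ x, ((u x : ℂ) + (v x : ℂ) * Complex.I) ∂μ =
      ((∫ x, u x ∂μ : ℝ) : ℂ) + ((∫ x, v x ∂μ : ℝ) : ℂ) * Complex.I := by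
  have h1 : ∫ x, (u x : ℂ) ∂μ = ((∫ x, u x ∂μ : ℝ) : ℂ) := integral_ofReal
  have h2 : ∫ x, (v x : ℂ) ∂μ = ((∫ x, v x ∂μ : ℝ) : ℂ) := integral_ofReal
  rw [integral_add hu.ofReal (hv.ofReal.mul_const _), integral_mul_const]
  exact congrArg₂ _ h1 (congrArg₂ _ h2 rfl)

/-- splitting of the inner integral into real and imaginary parts -/
lemma cx_split (hchi : Measurable fun q : S × Om S => chi C (Al S) q.1 q.2)
    (μ : Measure (Om S)) [IsFiniteMeasure μ]
    {A : Set S} (hA : MeasurableSet A) {τ : ℝ} (h0 : 0 ≤ τ) (h1 : τ ≤ 1) (θ : ℝ) (p : S) :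
    A.indicator (fun _ => (1 : ℂ)) p * ∫ ω, (chi C (Al S) p ω : ℂ) *
        ((τ : ℂ) ^ nV A ω * Complex.exp (Complex.I * θ * (ω.1 + 1 : ℕ))) ∂μ =
      ((∫ ω, chi C (Al S) p ω * (A.indicator (fun _ => (1 : ℝ)) p *
        (τ ^ nV A ω * Real.cos (θ * (ω.1 + 1 : ℕ)))) ∂μ : ℝ) : ℂ) +
      ((∫ ω, chi C (Al S) p ω * (A.indicator (fun _ => (1 : ℝ)) p *
        (τ ^ nV A ω * Real.sin (θ * (ω.1 + 1 : ℕ)))) ∂μ : ℝ) : ℂ) * Complex.I := by
  have hnV : Measurable fun ω : Om S => nV A ω := measurable_nV hA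
  have hN : Measurable fun ω : Om S => ω.1 := measurable_om fun n => measurable_const
  have hτ : ∀ k : ℕ, |τ ^ k| ≤ 1 := fun k => by
    rw [abs_of_nonneg (pow_nonneg h0 _)]
    exact pow_le_one₀ h0 h1
  have hintR : ∀ f : ℕ → ℝ, (∀ n, |f n| ≤ 1) →
      Integrable (fun ω : Om S => chi C (Al S) p ω * (A.indicator (fun _ => (1 : ℝ)) p *
        (τ ^ nV A ω * f (ω.1 + 1)))) μ := by
    intro f hf
    have hm : Measurable fun ω : Om S => chi C (Al S) p ω * (A.indicator (fun _ => (1 : ℝ)) p *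
        (τ ^ nV A ω * f (ω.1 + 1))) :=
      (hchi.comp (measurable_const.prodMk measurable_id)).mul (measurable_const.mul
        (((measurable_of_countable (f := fun k : ℕ => τ ^ k)).comp hnV).mul
          ((measurable_of_countable (f := fun k : ℕ => f (k + 1))).comp hN)))
    refine Integrable.of_bound hm.aestronglyMeasurable 1
      (Filter.Eventually.of_forall fun ω => ?_)
    rw [Real.norm_eq_abs, abs_mul, abs_mul, abs_mul]
    calc _ ≤ 1 * (1 * (1 * 1)) := mul_le_mul (abs_chi p ω) (mul_le_mul (abs_ind A p)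
          (mul_le_mul (hτ _) (hf _) (abs_nonneg _) zero_le_one) (by positivity) zero_le_one)
          (by positivity) zero_le_one
      _ = 1 := by ring
  rw [← int_add_I (hintR (fun n => Real.cos (θ * n)) fun n => Real.abs_cos_le_one _)
    (hintR (fun n => Real.sin (θ * n)) fun n => Real.abs_sin_le_one _), ← integral_const_mul]
  refine integral_congr_ae (Filter.Eventually.of_forall fun ω => ?_)
  show A.indicator (fun _ => (1 : ℂ)) p * ((chi C (Al S) p ω : ℂ) * ((τ : ℂ) ^ nV A ω *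
    Complex.exp (Complex.I * θ * (ω.1 + 1 : ℕ)))) = _
  rw [expc]
  by_cases hp : p ∈ A
  · rw [Set.indicator_of_mem hp, Set.indicator_of_mem hp]
    push_cast
    ring
  · rw [Set.indicator_of_notMem hp, Set.indicator_of_notMem hp]
    push_cast
    ring

/-- complex form -/
lemma gnz_cx (hgnz : GNZ) (hchi : Measurable fun q : S × Om S => chi C (Al S) q.1 q.2)
    {μ : Measure S} [SigmaFinite μ] (hS : Sys μ C L lam b K)
    (hX : Xi μ C lam L ≠ 0) [IsFiniteMeasure (gib μ C lam L)]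
    (hK : ∀ᵐ ω ∂gib μ C lam L, ω.1 ≤ K)
    {A : Set S} (hA : MeasurableSet A) {τ : ℝ} (h0 : 0 ≤ τ) (h1 : τ ≤ 1) (θ : ℝ) :
    ∫ ω, ((nV A ω : ℂ) * (τ : ℂ) ^ (nV A ω - 1) * Complex.exp (Complex.I * θ * ω.1))
      ∂gib μ C lam L =
      lam * ∫ p in L, (A.indicator (fun _ => (1 : ℂ)) p * ∫ ω, (chi C (Al S) p ω : ℂ) *
        ((τ : ℂ) ^ nV A ω * Complex.exp (Complex.I * θ * (ω.1 + 1 : ℕ))) ∂gib μ C lam L) ∂μ := by
  have hnV : Measurable fun ω : Om S => nV A ω := measurable_nV hA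
  have hN : Measurable fun ω : Om S => ω.1 := measurable_om fun n => measurable_const
  have hfin : IsFiniteMeasure (μ.restrict L) := ⟨by
    rw [Measure.restrict_apply_univ]; exact hS.fin.lt_top⟩
  have hcos : ∀ n : ℕ, |Real.cos (θ * n)| ≤ 1 := fun n => Real.abs_cos_le_one _
  have hsin : ∀ n : ℕ, |Real.sin (θ * n)| ≤ 1 := fun n => Real.abs_sin_le_one _
  have hτ : ∀ k : ℕ, |τ ^ k| ≤ 1 := fun k => by
    rw [abs_of_nonneg (pow_nonneg h0 _)]
    exact pow_le_one₀ h0 h1
  have hintL : ∀ f : ℕ → ℝ, (∀ n, |f n| ≤ 1) →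
      Integrable (fun ω : Om S => (nV A ω * (τ ^ (nV A ω - 1) * f ω.1) : ℝ))
        (gib μ C lam L) := by
    intro f hf
    have hm : Measurable fun ω : Om S => (nV A ω * (τ ^ (nV A ω - 1) * f ω.1) : ℝ) :=
      ((measurable_of_countable (f := fun k : ℕ => (k : ℝ))).comp hnV).mul
        (((measurable_of_countable (f := fun k : ℕ => τ ^ (k - 1))).comp hnV).mul
          ((measurable_of_countable (f := fun k : ℕ => f k)).comp hN))
    refine Integrable.of_bound hm.aestronglyMeasurable (K : ℝ) ?_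
    filter_upwards [hK] with ω hω
    rw [Real.norm_eq_abs, abs_mul, abs_mul, Nat.abs_cast]
    have h4 : (nV A ω : ℝ) ≤ K := by exact_mod_cast (nV_le A ω).trans hω
    calc _ ≤ (K : ℝ) * (1 * 1) := mul_le_mul h4 (mul_le_mul (hτ _) (hf _) (abs_nonneg _)
          zero_le_one) (by positivity) (by positivity)
      _ = K := by ring
  have hc := gnz_real hgnz hS hX hA h0 h1 (fun n => Real.cos (θ * n)) hcos
  have hs := gnz_real hgnz hS hX hA h0 h1 (fun n => Real.sin (θ * n)) hsin
  have e1 : (fun ω : Om S => (nV A ω : ℂ) * (τ : ℂ) ^ (nV A ω - 1) *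
      Complex.exp (Complex.I * θ * ω.1)) = fun ω =>
      ((nV A ω * (τ ^ (nV A ω - 1) * Real.cos (θ * ω.1)) : ℝ) : ℂ) +
        ((nV A ω * (τ ^ (nV A ω - 1) * Real.sin (θ * ω.1)) : ℝ) : ℂ) * Complex.I := by
    funext ω
    rw [expc]
    push_cast
    ring
  rw [e1, int_add_I (hintL _ hcos) (hintL _ hsin), hc, hs]
  simp only [cx_split hchi (gib μ C lam L) hA h0 h1 θ]
  rw [int_add_I (u_int hchi hA h0 h1 (fun n => Real.cos (θ * n)) hcos)
    (u_int hchi hA h0 h1 (fun n => Real.sin (θ * n)) hsin)]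
  push_cast
  ring

/-- free places as a restriction -/
lemma int_chi (hC : MeasurableSet {p : S × S | C p.1 p.2}) (μ : Measure (Om S)) (p : S)
    (f : Om S → ℂ) : MeasurableSet {ω : Om S | ∀ i, ω.2 i ∉ {z | C p z}} ∧
    ∫ ω, (chi C (Al S) p ω : ℂ) * f ω ∂μ =
      ∫ ω in {ω : Om S | ∀ i, ω.2 i ∉ {z | C p z}}, f ω ∂μ := by
  have hCp : MeasurableSet {z | C p z} := measurable_prodMk_left hC
  have hB : MeasurableSet {ω : Om S | ∀ i, ω.2 i ∉ {z | C p z}} := by
    rw [MeasurableSpace.measurableSet_iInf]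
    intro n
    have e : (fun x : Fin n → S => (⟨n, x⟩ : Om S)) ⁻¹' {ω : Om S | ∀ i, ω.2 i ∉ {z | C p z}} =
        ⋂ i, (fun x : Fin n → S => x i) ⁻¹' {z | C p z}ᶜ := by
      ext x
      simp
    have h : MeasurableSet (⋂ i, (fun x : Fin n → S => x i) ⁻¹' {z | C p z}ᶜ) :=
      MeasurableSet.iInter fun i => measurable_pi_apply i hCp.compl
    rw [← e] at h
    exact h
  refine ⟨hB, ?_⟩
  rw [← integral_indicator hB]
  refine integral_congr_ae (Filter.Eventually.of_forall fun ω => ?_)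
  show (chi C (Al S) p ω : ℂ) * f ω = _
  by_cases h : ω ∈ {ω : Om S | ∀ i, ω.2 i ∉ {z | C p z}}
  · have hf : fr C (Al S) p ω := fun i _ => h i
    rw [Set.indicator_of_mem h]
    unfold chi
    rw [if_pos hf]
    simp
  · have hf : ¬ fr C (Al S) p ω := fun hf => h fun i => hf i trivial
    rw [Set.indicator_of_notMem h]
    unfold chi
    rw [if_neg hf]
    simp

/-- everything about the derivative in one statement -/
theorem main (hbas : BAS) (hmeas : MEAS) (hgnz : GNZ) (hsys : SYSA) (hoff : XOFF) (hokb : OKB)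
    (hS : Sys m C L lam b K) {α : S → ℝ} (hα : U01 α) {A : Set S} (hA : MeasurableSet A)
    (θ : ℝ) {τ : ℝ} (h0 : 0 ≤ τ) (h1 : τ ≤ 1) :
    Xa m C lam L θ (act A τ α) =
      ∫ ω, ((τ : ℂ) ^ nV A ω * Complex.exp (Complex.I * θ * ω.1)) ∂gib (md m α) C lam L ∧
    (∫ ω, ((nV A ω : ℂ) * (τ : ℂ) ^ (nV A ω - 1) * Complex.exp (Complex.I * θ * ω.1))
      ∂gib (md m α) C lam L) = lam * ∫ p in L, (A.indicator (fun _ => (1 : ℂ)) p *
        (Complex.exp (Complex.I * θ) * Xa m C lam L θ (off {z | C p z} (act A τ α)))) ∂md m α ∧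
    HasDerivAt (fun t : ℝ => ∫ ω, ((t : ℂ) ^ nV A ω * Complex.exp (Complex.I * θ * ω.1))
      ∂gib (md m α) C lam L) (lam * ∫ p in L, (A.indicator (fun _ => (1 : ℂ)) p *
        (Complex.exp (Complex.I * θ) * Xa m C lam L θ (off {z | C p z} (act A τ α)))) ∂md m α) τ ∧
    IntegrableOn (fun p => A.indicator (fun _ => (1 : ℂ)) p *
        (Complex.exp (Complex.I * θ) * Xa m C lam L θ (off {z | C p z} (act A τ α)))) L
        (md m α) := by
  obtain ⟨hsf, hS', -⟩ := hsys S m C L lam b K hS α hα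
  obtain ⟨hh, -, hfin, hXi, -, -⟩ := hbas S (md m α) C L lam hS'.meas hS'.measL hS'.fin
    hS'.lam_nonneg
  have hchi : Measurable fun q : S × Om S => chi C (Al S) q.1 q.2 :=
    ((hmeas S (md m α) C L lam hS'.meas hS'.measL hS'.fin hS'.lam_nonneg).1 (Al S) (by
      have : {x : S | Al S x} = Set.univ := by ext; simp [Al]
      rw [this]; exact MeasurableSet.univ)).1
  have hX0 : Xi (md m α) C lam L ≠ 0 := by linarith
  have hKae : ∀ᵐ ω ∂gib (md m α) C lam L, ω.1 ≤ K := by
    filter_upwards [(hokb S (md m α) C L lam b K hS').2.1] with ω hω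
    exact hS'.card ω hω.1 hω.2
  have hU := act_U01 hA h0 h1 hα
  have hcx := gnz_cx hgnz hchi hS' hX0 hKae hA h0 h1 θ
  have hin : ∀ p, ∫ ω, (chi C (Al S) p ω : ℂ) * ((τ : ℂ) ^ nV A ω *
      Complex.exp (Complex.I * θ * (ω.1 + 1 : ℕ))) ∂gib (md m α) C lam L =
      Complex.exp (Complex.I * θ) * Xa m C lam L θ (off {z | C p z} (act A τ α)) := by
    intro p
    have hCp : MeasurableSet {z | C p z} := measurable_prodMk_left hS.meas
    obtain ⟨hB, hi⟩ := int_chi hS.meas (gib (md m α) C lam L) p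
      (fun ω => (τ : ℂ) ^ nV A ω * Complex.exp (Complex.I * θ * (ω.1 + 1 : ℕ)))
    rw [hi, ((hoff S m C L lam b K hS θ (act A τ α) hU).2.2.1 _ hCp).2,
      Xa_act hh hS.measL hA h0 h1 hα θ _ hB, ← integral_const_mul]
    refine integral_congr_ae (Filter.Eventually.of_forall fun ω => ?_)
    show (τ : ℂ) ^ nV A ω * Complex.exp (Complex.I * θ * (ω.1 + 1 : ℕ)) = _
    have : Complex.exp (Complex.I * θ * (ω.1 + 1 : ℕ)) =
        Complex.exp (Complex.I * θ) * Complex.exp (Complex.I * θ * ω.1) := by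
      rw [← Complex.exp_add]
      congr 1
      push_cast
      ring
    rw [this]
    ring
  simp only [hin] at hcx
  have hfin' : IsFiniteMeasure ((md m α).restrict L) := ⟨by
    rw [Measure.restrict_apply_univ]; exact hS'.fin.lt_top⟩
  refine ⟨?_, hcx, ?_, ?_⟩
  · have h := Xa_act (m := m) (C := C) (L := L) (lam := lam) hh hS.measL hA h0 h1 hα θ
      Set.univ MeasurableSet.univ
    rw [Measure.restrict_univ, Measure.restrict_univ] at h
    exact h
  · rw [← hcx]
    exact (hasDeriv hKae hA θ τ).2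
  · have hcos : ∀ n : ℕ, |Real.cos (θ * n)| ≤ 1 := fun n => Real.abs_cos_le_one _
    have hsin : ∀ n : ℕ, |Real.sin (θ * n)| ≤ 1 := fun n => Real.abs_sin_le_one _
    have hu := u_int (μ := gib (md m α) C lam L) (ν := (md m α).restrict L) hchi hA h0 h1
      (fun n => Real.cos (θ * n)) hcos
    have hv := u_int (μ := gib (md m α) C lam L) (ν := (md m α).restrict L) hchi hA h0 h1
      (fun n => Real.sin (θ * n)) hsin
    have h := (hu.ofReal (𝕜 := ℂ)).add ((hv.ofReal (𝕜 := ℂ)).mul_const Complex.I)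
    refine h.congr (Filter.Eventually.of_forall fun p => ?_)
    have e := cx_split hchi (gib (md m α) C lam L) hA h0 h1 θ p
    rw [hin p] at e
    exact e.symm

lemma md_le (m : Measure S) {α : S → ℝ} (hα : U01 α) {s : Set S} (hs : MeasurableSet s) :
    md m α s ≤ m s := by
  unfold md
  rw [withDensity_apply _ hs]
  calc ∫⁻ x in s, ENNReal.ofReal (α x) ∂m ≤ ∫⁻ _ in s, 1 ∂m := by
        refine lintegral_mono fun x => ?_
        rw [← ENNReal.ofReal_one]
        exact ENNReal.ofReal_le_ofReal (hα.2 x).2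
    _ = m s := by simp

lemma norm_int_ind {α : S → ℝ} (hα : U01 α) {A : Set S} (hA : MeasurableSet A)
    (hL : MeasurableSet L) (hfin : m L ≠ ⊤) {g : S → ℂ} {c : ℝ} (hc : 0 ≤ c)
    (hg : ∀ p, ‖g p‖ ≤ c) :
    ‖∫ p in L, (A.indicator (fun _ => (1 : ℂ)) p * g p) ∂md m α‖ ≤ c * (m (L ∩ A)).toReal := by
  have e : (fun p => A.indicator (fun _ => (1 : ℂ)) p * g p) = A.indicator g := by
    funext p
    by_cases hp : p ∈ A
    · rw [Set.indicator_of_mem hp, Set.indicator_of_mem hp, one_mul]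
    · rw [Set.indicator_of_notMem hp, Set.indicator_of_notMem hp, zero_mul]
  rw [e, setIntegral_indicator hA]
  have hLA : m (L ∩ A) ≠ ⊤ := ((measure_mono Set.inter_subset_left).trans_lt hfin.lt_top).ne
  have hle := md_le m hα (hL.inter hA)
  have hlt : md m α (L ∩ A) < ⊤ := hle.trans_lt hLA.lt_top
  refine (norm_setIntegral_le_of_norm_le_const hlt fun x _ => hg x).trans ?_
  exact mul_le_mul_of_nonneg_left (ENNReal.toReal_mono hLA hle) hc

end main

end Rt33

namespace Rt33

section two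

variable {S : Type} [MeasurableSpace S]

variable {m : Measure S} [SigmaFinite m] {C : S → S → Prop} {L : Set S} {lam b : ℝ} {K : ℕ}

/-- logarithmic derivative -/
noncomputable def ld (m : Measure S) (C : S → S → Prop) (lam : ℝ) (L A : Set S) (θ : ℝ)
    (α : S → ℝ) (τ : ℝ) : ℂ :=
  lam * ∫ p in L, (A.indicator (fun _ => (1 : ℂ)) p *
    (Complex.exp (Complex.I * θ) * Ra m C lam L θ (act A τ α) p)) ∂md m α

theorem main2 (hbas : BAS) (hmeas : MEAS) (hgnz : GNZ) (hsys : SYSA) (hoff : XOFF) (hokb : OKB)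
    (hS : Sys m C L lam b K) {α : S → ℝ} (hα : U01 α) {A : Set S} (hA : MeasurableSet A)
    (θ : ℝ) {τ : ℝ} (h0 : 0 ≤ τ) (h1 : τ ≤ 1) (hX : Xa m C lam L θ (act A τ α) ≠ 0) :
    HasDerivAt (fun t : ℝ => ∫ ω, ((t : ℂ) ^ nV A ω * Complex.exp (Complex.I * θ * ω.1))
      ∂gib (md m α) C lam L) (ld m C lam L A θ α τ * Xa m C lam L θ (act A τ α)) τ ∧
    IntegrableOn (fun p => A.indicator (fun _ => (1 : ℂ)) p *
        (Complex.exp (Complex.I * θ) * Ra m C lam L θ (act A τ α) p)) L (md m α) := by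
  obtain ⟨-, -, h3, h4⟩ := main hbas hmeas hgnz hsys hoff hokb hS hα hA θ h0 h1
  have e : ∀ p, A.indicator (fun _ => (1 : ℂ)) p *
        (Complex.exp (Complex.I * θ) * Xa m C lam L θ (off {z | C p z} (act A τ α))) =
      A.indicator (fun _ => (1 : ℂ)) p *
        (Complex.exp (Complex.I * θ) * Ra m C lam L θ (act A τ α) p) *
          Xa m C lam L θ (act A τ α) := by
    intro p
    have h5 : Xa m C lam L θ (off {z | C p z} (act A τ α)) =
        Ra m C lam L θ (act A τ α) p * Xa m C lam L θ (act A τ α) := by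
      unfold Ra
      rw [div_mul_cancel₀ _ hX]
    rw [h5]
    ring
  simp only [e] at h3 h4
  constructor
  · rw [integral_mul_const] at h3
    have : ld m C lam L A θ α τ * Xa m C lam L θ (act A τ α) =
        lam * ((∫ p in L, (A.indicator (fun _ => (1 : ℂ)) p *
        (Complex.exp (Complex.I * θ) * Ra m C lam L θ (act A τ α) p)) ∂md m α) *
          Xa m C lam L θ (act A τ α)) := by
      unfold ld
      ring
    rw [this]
    exact h3
  · have h6 := h4.mul_const ((Xa m C lam L θ (act A τ α))⁻¹)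
    refine h6.congr (Filter.Eventually.of_forall fun p => ?_)
    show _ * _ * (Xa m C lam L θ (act A τ α))⁻¹ = _
    rw [mul_assoc, mul_inv_cancel₀ hX, mul_one]

lemma Rle (hoff : XOFF) (hS : Sys m C L lam b K) {θ v : ℝ} (hZ : ZF m C lam L θ v) {α : S → ℝ}
    (hα : U01 α) (p : S) : ‖Ra m C lam L θ α p‖ ≤ 1 + v := by
  have h4 := ((hoff S m C L lam b K hS θ α hα).2.2.2 p).2
  calc ‖Ra m C lam L θ α p‖ = ‖(Ra m C lam L θ α p - Ra m C lam L 0 α p) +
        Ra m C lam L 0 α p‖ := by rw [sub_add_cancel]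
    _ ≤ v + 1 := (norm_add_le _ _).trans (add_le_add ((hZ α hα).2 p) h4)
    _ = 1 + v := add_comm _ _

lemma ne1 (θ : ℝ) : ‖Complex.exp (Complex.I * θ)‖ = 1 := by
  simpa using norm_exp θ 1

lemma ld_le (hoff : XOFF) (hS : Sys m C L lam b K) {θ v : ℝ} (hv : 0 ≤ v)
    (hZ : ZF m C lam L θ v) {α : S → ℝ} (hα : U01 α) {A : Set S} (hA : MeasurableSet A)
    {τ : ℝ} (h0 : 0 ≤ τ) (h1 : τ ≤ 1) :
    ‖ld m C lam L A θ α τ‖ ≤ lam * ((1 + v) * (m (L ∩ A)).toReal) := by
  unfold ld
  rw [norm_mul, Complex.norm_real, Real.norm_eq_abs, abs_of_nonneg hS.lam_nonneg]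
  refine mul_le_mul_of_nonneg_left (norm_int_ind hα hA hS.measL hS.fin (by positivity)
    fun p => ?_) hS.lam_nonneg
  rw [norm_mul, ne1, one_mul]
  exact Rle hoff hS hZ (act_U01 hA h0 h1 hα) p

lemma ld_sub (hbas : BAS) (hmeas : MEAS) (hgnz : GNZ) (hsys : SYSA) (hoff : XOFF) (hokb : OKB)
    (hS : Sys m C L lam b K) {θ v : ℝ} (hv : 0 ≤ v)
    (hZ : ZF m C lam L θ v) {α : S → ℝ} (hα : U01 α) {A : Set S} (hA : MeasurableSet A)
    {τ : ℝ} (h0 : 0 ≤ τ) (h1 : τ ≤ 1) (hX0 : Xa m C lam L 0 (act A τ α) ≠ 0) :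
    ‖ld m C lam L A θ α τ - ld m C lam L A 0 α τ‖ ≤
      lam * (m (L ∩ A)).toReal * (|θ| * (1 + v) + v) := by
  have hU := act_U01 hA h0 h1 hα
  have hi := (main2 hbas hmeas hgnz hsys hoff hokb hS hα hA θ h0 h1 (hZ _ hU).1).2
  have hi0 := (main2 hbas hmeas hgnz hsys hoff hokb hS hα hA 0 h0 h1 hX0).2
  unfold ld
  rw [← mul_sub, ← integral_sub hi hi0, norm_mul, Complex.norm_real, Real.norm_eq_abs,
    abs_of_nonneg hS.lam_nonneg]
  have e : ∀ p, A.indicator (fun _ => (1 : ℂ)) p *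
        (Complex.exp (Complex.I * θ) * Ra m C lam L θ (act A τ α) p) -
      A.indicator (fun _ => (1 : ℂ)) p *
        (Complex.exp (Complex.I * (0 : ℝ)) * Ra m C lam L 0 (act A τ α) p) =
      A.indicator (fun _ => (1 : ℂ)) p *
        ((Complex.exp (Complex.I * θ) - 1) * Ra m C lam L θ (act A τ α) p +
          (Ra m C lam L θ (act A τ α) p - Ra m C lam L 0 (act A τ α) p)) := by
    intro p
    rw [Complex.ofReal_zero, mul_zero, Complex.exp_zero]
    ring
  simp only [e]
  have h2 := norm_int_ind (L := L) (m := m) hα hA hS.measL hS.fin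
    (g := fun p => (Complex.exp (Complex.I * θ) - 1) * Ra m C lam L θ (act A τ α) p +
          (Ra m C lam L θ (act A τ α) p - Ra m C lam L 0 (act A τ α) p))
    (c := |θ| * (1 + v) + v) (by positivity) (fun p => by
      refine (norm_add_le _ _).trans (add_le_add ?_ ((hZ _ hU).2 p))
      rw [norm_mul]
      refine mul_le_mul ?_ (Rle hoff hS hZ hU p) (norm_nonneg _) (abs_nonneg _)
      exact Real.norm_exp_I_mul_ofReal_sub_one_le)
  calc _ ≤ lam * ((|θ| * (1 + v) + v) * (m (L ∩ A)).toReal) :=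
        mul_le_mul_of_nonneg_left h2 hS.lam_nonneg
    _ = _ := by ring

end two

end Rt33

open Rt33 in
theorem ratio_of (hbas : BAS) (hmeas : MEAS) (hgnz : GNZ) (hsys : SYSA) (hoff : XOFF)
    (hokb : OKB) : RATIO := by
  intro S _ m _ C L lam b K hS θ v hv hZ α hα
  -- facts on the real partition function
  have hXi : ∀ β : S → ℝ, U01 β → 1 ≤ Xi (md m β) C lam L := by
    intro β hβ
    obtain ⟨hsf, hS', -⟩ := hsys S m C L lam b K hS β hβ
    exact (hbas S (md m β) C L lam hS'.meas hS'.measL hS'.fin hS'.lam_nonneg).2.2.2.1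
  have hX0 : ∀ β : S → ℝ, U01 β → Xa m C lam L 0 β ≠ 0 := by
    intro β hβ h
    have h1 := (hoff S m C L lam b K hS 0 β hβ).1
    rw [h] at h1
    have h2 := hXi β hβ
    have h3 : (Xi (md m β) C lam L : ℂ) ≠ 0 := by
      exact_mod_cast (by linarith : Xi (md m β) C lam L ≠ 0)
    exact h3 h1.symm
  have hval : ∀ (A : Set S), MeasurableSet A → ∀ (ϑ : ℝ) {τ : ℝ}, 0 ≤ τ → τ ≤ 1 →
      ∫ ω, ((τ : ℂ) ^ nV A ω * Complex.exp (Complex.I * ϑ * ω.1)) ∂gib (md m α) C lam L =
        Xa m C lam L ϑ (act A τ α) := fun A hA ϑ τ h0 h1 =>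
    (main hbas hmeas hgnz hsys hoff hokb hS hα hA ϑ h0 h1).1.symm
  constructor
  · set X : ℝ → ℂ := fun t => ∫ ω, ((t : ℂ) ^ nV Set.univ ω *
      Complex.exp (Complex.I * θ * ω.1)) ∂gib (md m α) C lam L with hXdef
    set c : ℝ := lam * ((1 + v) * (m (L ∩ Set.univ)).toReal) with hc
    have hd : ∀ t, 0 ≤ t → t ≤ 1 → HasDerivAt X (ld m C lam L Set.univ θ α t * X t) t := by
      intro t h0 h1
      have := (main2 hbas hmeas hgnz hsys hoff hokb hS hα MeasurableSet.univ θ h0 h1
        (hZ _ (act_U01 MeasurableSet.univ h0 h1 hα)).1).1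
      rw [hXdef]
      show HasDerivAt _ (_ * ∫ ω, ((t : ℂ) ^ nV Set.univ ω *
        Complex.exp (Complex.I * θ * ω.1)) ∂gib (md m α) C lam L) t
      rw [hval _ MeasurableSet.univ θ h0 h1]
      exact this
    have hd' : ∀ s, 0 ≤ s → s ≤ 1 → HasDerivAt (fun s => X (1 - s))
        (-(ld m C lam L Set.univ θ α (1 - s) * X (1 - s))) s := by
      intro s h0 h1
      exact (hd (1 - s) (by linarith) (by linarith)).comp_const_sub 1 s
    have hg := norm_le_gronwallBound_of_norm_deriv_right_le (f := fun s => X (1 - s))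
      (f' := fun s => -(ld m C lam L Set.univ θ α (1 - s) * X (1 - s)))
      (δ := ‖X 1‖) (K := c) (ε := 0) (a := 0) (b := 1)
      (fun s hs => (hd' s hs.1 hs.2).continuousAt.continuousWithinAt)
      (fun s hs => (hd' s hs.1 hs.2.le).hasDerivWithinAt) (by simp)
      (fun s hs => by
        rw [norm_neg, norm_mul, add_zero]
        exact mul_le_mul_of_nonneg_right (ld_le hoff hS hv hZ hα MeasurableSet.univ
          (by linarith [hs.2.le]) (by linarith [hs.1])) (norm_nonneg _)) 1 ⟨by norm_num, le_rfl⟩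
    rw [gronwallBound_ε0] at hg
    simp only [sub_self, sub_zero, mul_one] at hg
    have hone : 1 ≤ ‖X 0‖ := by
      have hU0 := act_U01 (A := Set.univ) MeasurableSet.univ le_rfl zero_le_one hα
      have h1 : X 0 = Xa m C lam L θ (act Set.univ 0 α) := hval _ MeasurableSet.univ θ le_rfl
        zero_le_one
      have h2 : ∀ ϑ : ℝ, Xa m C lam L ϑ (act Set.univ 0 α) =
          ∫ ω in {ω : Om S | ∀ i, ω.2 i ∉ (Set.univ : Set S)}, 1 ∂gib (md m α) C lam L := by
        intro ϑ
        rw [act_zero, ((hoff S m C L lam b K hS ϑ α hα).2.2.1 _ MeasurableSet.univ).2]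
        have hset : {ω : Om S | ∀ i, ω.2 i ∉ (Set.univ : Set S)} =
            (fun ω : Om S => ω.1) ⁻¹' {0} := by
          ext ω
          constructor
          · intro hω
            show ω.1 = 0
            by_contra hne
            exact hω ⟨0, Nat.pos_of_ne_zero hne⟩ trivial
          · intro hω i
            have hi := i.isLt
            have h0 : ω.1 = 0 := hω
            omega
        have hN : Measurable fun ω : Om S => ω.1 := measurable_om fun n => measurable_const
        refine setIntegral_congr_fun ?_ ?_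
        · rw [hset]
          exact hN (measurableSet_singleton 0)
        · intro ω hω
          rw [hset] at hω
          have h0 : ω.1 = 0 := hω
          simp [h0]
      have h3 := (hoff S m C L lam b K hS 0 _ hU0).1
      rw [h1, h2 θ, ← h2 0, h3, Complex.norm_real, Real.norm_eq_abs]
      exact (hXi _ hU0).trans (le_abs_self _)
    have hX1 : X 1 = Xa m C lam L θ α := by
      have := hval _ MeasurableSet.univ θ zero_le_one le_rfl
      rw [act_one] at this
      exact this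
    have e1 : Real.exp (-(lam * (m L).toReal * (1 + v))) = (Real.exp c)⁻¹ := by
      rw [← Real.exp_neg, hc, Set.inter_univ]
      congr 1
      ring
    rw [← hX1, e1, inv_le_iff_one_le_mul₀ (Real.exp_pos _)]
    exact hone.trans hg
  · intro A hA
    set X : ℝ → ℂ := fun t => ∫ ω, ((t : ℂ) ^ nV A ω *
      Complex.exp (Complex.I * θ * ω.1)) ∂gib (md m α) C lam L with hXdef
    set Y : ℝ → ℂ := fun t => ∫ ω, ((t : ℂ) ^ nV A ω *
      Complex.exp (Complex.I * (0 : ℝ) * ω.1)) ∂gib (md m α) C lam L with hYdef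
    set G : ℝ := lam * (m (L ∩ A)).toReal * (|θ| * (1 + v) + v) with hG
    have hXv : ∀ t, 0 ≤ t → t ≤ 1 → X t = Xa m C lam L θ (act A t α) := fun t h0 h1 =>
      hval A hA θ h0 h1
    have hYv : ∀ t, 0 ≤ t → t ≤ 1 → Y t = Xa m C lam L 0 (act A t α) := fun t h0 h1 =>
      hval A hA 0 h0 h1
    have hXne : ∀ t, 0 ≤ t → t ≤ 1 → X t ≠ 0 := fun t h0 h1 => by
      rw [hXv t h0 h1]
      exact (hZ _ (act_U01 hA h0 h1 hα)).1
    have hYne : ∀ t, 0 ≤ t → t ≤ 1 → Y t ≠ 0 := fun t h0 h1 => by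
      rw [hYv t h0 h1]
      exact hX0 _ (act_U01 hA h0 h1 hα)
    have hdX : ∀ t, 0 ≤ t → t ≤ 1 → HasDerivAt X (ld m C lam L A θ α t * X t) t := by
      intro t h0 h1
      rw [hXv t h0 h1]
      exact (main2 hbas hmeas hgnz hsys hoff hokb hS hα hA θ h0 h1
        (hZ _ (act_U01 hA h0 h1 hα)).1).1
    have hdY : ∀ t, 0 ≤ t → t ≤ 1 → HasDerivAt Y (ld m C lam L A 0 α t * Y t) t := by
      intro t h0 h1
      rw [hYv t h0 h1]
      exact (main2 hbas hmeas hgnz hsys hoff hokb hS hα hA 0 h0 h1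
        (hX0 _ (act_U01 hA h0 h1 hα))).1
    have hdq : ∀ t, 0 ≤ t → t ≤ 1 → HasDerivAt (fun t => X t / Y t / (X 1 / Y 1) - 1)
        ((ld m C lam L A θ α t - ld m C lam L A 0 α t) * (X t / Y t / (X 1 / Y 1))) t := by
      intro t h0 h1
      have h2 := (((hdX t h0 h1).div (hdY t h0 h1) (hYne t h0 h1)).div_const
        (X 1 / Y 1)).sub_const 1
      have h3 : (ld m C lam L A θ α t - ld m C lam L A 0 α t) * (X t / Y t / (X 1 / Y 1)) =
          (ld m C lam L A θ α t * X t * Y t - X t * (ld m C lam L A 0 α t * Y t)) / Y t ^ 2 /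
            (X 1 / Y 1) := by
        have h4 := hYne t h0 h1
        have h5 := hYne 1 zero_le_one le_rfl
        have h6 := hXne 1 zero_le_one le_rfl
        field_simp
      rw [h3]
      exact h2
    have hdq' : ∀ s, 0 ≤ s → s ≤ 1 → HasDerivAt
        (fun s => X (1 - s) / Y (1 - s) / (X 1 / Y 1) - 1)
        (-((ld m C lam L A θ α (1 - s) - ld m C lam L A 0 α (1 - s)) *
          (X (1 - s) / Y (1 - s) / (X 1 / Y 1)))) s := by
      intro s h0 h1
      exact (hdq (1 - s) (by linarith) (by linarith)).comp_const_sub 1 s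
    have hG0 : 0 ≤ G := mul_nonneg (mul_nonneg hS.lam_nonneg ENNReal.toReal_nonneg)
      (by positivity)
    have hg := norm_le_gronwallBound_of_norm_deriv_right_le
      (f := fun s => X (1 - s) / Y (1 - s) / (X 1 / Y 1) - 1)
      (f' := fun s => -((ld m C lam L A θ α (1 - s) - ld m C lam L A 0 α (1 - s)) *
          (X (1 - s) / Y (1 - s) / (X 1 / Y 1))))
      (δ := 0) (K := G) (ε := G) (a := 0) (b := 1)
      (fun s hs => (hdq' s hs.1 hs.2).continuousAt.continuousWithinAt)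
      (fun s hs => (hdq' s hs.1 hs.2.le).hasDerivWithinAt) (by
        rw [sub_zero, div_self (div_ne_zero (hXne 1 zero_le_one le_rfl)
          (hYne 1 zero_le_one le_rfl)), sub_self, norm_zero])
      (fun s hs => by
        have h0 : 0 ≤ 1 - s := by linarith [hs.2.le]
        have h1 : 1 - s ≤ 1 := by linarith [hs.1]
        rw [norm_neg, norm_mul]
        have h2 := ld_sub hbas hmeas hgnz hsys hoff hokb hS hv hZ hα hA h0 h1
          (hX0 _ (act_U01 hA h0 h1 hα))
        have h3 : ‖X (1 - s) / Y (1 - s) / (X 1 / Y 1)‖ ≤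
            ‖X (1 - s) / Y (1 - s) / (X 1 / Y 1) - 1‖ + 1 := by
          have := norm_add_le (X (1 - s) / Y (1 - s) / (X 1 / Y 1) - 1) 1
          rw [sub_add_cancel, norm_one] at this
          exact this
        calc _ ≤ G * (‖X (1 - s) / Y (1 - s) / (X 1 / Y 1) - 1‖ + 1) :=
              mul_le_mul h2 h3 (norm_nonneg _) hG0
          _ = _ := by ring) 1 ⟨by norm_num, le_rfl⟩
    have hgb : gronwallBound 0 G G (1 - 0) = Real.exp G - 1 := by
      by_cases h : G = 0
      · rw [h, gronwallBound_K0]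
        simp
      · rw [gronwallBound_of_K_ne_0 h, sub_zero]
        show 0 * Real.exp (G * 1) + G / G * (Real.exp (G * 1) - 1) = _
        rw [mul_one, div_self h]
        ring
    rw [hgb] at hg
    have e0 := hXv 0 le_rfl zero_le_one
    have e1 := hXv 1 zero_le_one le_rfl
    have f0 := hYv 0 le_rfl zero_le_one
    have f1 := hYv 1 zero_le_one le_rfl
    rw [act_zero] at e0 f0
    rw [act_one] at e1 f1
    rw [← e0, ← e1, ← f0, ← f1]
    simpa only [sub_self] using hg

end Pool.Agent.HdGas
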