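import Pool.Agent.Lib.NT.Rows3
import Pool.Agent.Lib.NT.Ratio

/-!
# Probability that a set is empty
-/

set_option autoImplicit false

namespace Pool.Agent.HdGas

open MeasureTheory Filter Topology

namespace Emp

/-- The statement for polynomials with nonnegative coefficients. -/
theorem poly (K : ℕ) (g : ℕ → ℝ) (hg : ∀ k, 0 ≤ g k) (γ : ℝ)
    (h : ∀ τ : ℝ, 0 < τ → τ < 1 →
      γ * ((∑ k ∈ Finset.range (K + 1), (k : ℝ) ^ 2 * (g k * τ ^ k)) /
          (∑ k ∈ Finset.range (K + 1), g k * τ ^ k) -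
        ((∑ k ∈ Finset.range (K + 1), (k : ℝ) * (g k * τ ^ k)) /
          (∑ k ∈ Finset.range (K + 1), g k * τ ^ k)) ^ 2) ≤
        (∑ k ∈ Finset.range (K + 1), (k : ℝ) * (g k * τ ^ k)) /
          (∑ k ∈ Finset.range (K + 1), g k * τ ^ k)) :
    g 0 / (∑ k ∈ Finset.range (K + 1), g k) ≤ Real.exp (-(γ *
      ((∑ k ∈ Finset.range (K + 1), (k : ℝ) * g k) / (∑ k ∈ Finset.range (K + 1), g k)))) := by
  rcases (hg 0).eq_or_lt with h0 | h0
  · rw [← h0, zero_div]
    exact (Real.exp_pos _).le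
  set ξ : ℝ → ℝ := fun τ => ∑ k ∈ Finset.range (K + 1), g k * τ ^ k with hξ
  set η : ℝ → ℝ := fun τ => ∑ k ∈ Finset.range (K + 1), (k : ℝ) * (g k * τ ^ k) with hη
  set ζ : ℝ → ℝ := fun τ => ∑ k ∈ Finset.range (K + 1), (k : ℝ) ^ 2 * (g k * τ ^ k) with hζ
  have hξ0 : ξ 0 = g 0 := by
    simp only [hξ]
    rw [Finset.sum_eq_single 0]
    · simp
    · intro k _ hk
      rw [zero_pow hk, mul_zero]
    · intro hk
      simp at hk
  have hη0 : η 0 = 0 := by
    simp only [hη]
    refine Finset.sum_eq_zero fun k _ => ?_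
    rcases Nat.eq_zero_or_pos k with rfl | hk
    · simp
    · rw [zero_pow hk.ne', mul_zero, mul_zero]
  have hpos : ∀ τ, 0 ≤ τ → 0 < ξ τ := by
    intro τ hτ
    refine lt_of_lt_of_le h0 ?_
    have : g 0 * τ ^ 0 ≤ ξ τ := Finset.single_le_sum (f := fun k => g k * τ ^ k)
      (fun k _ => mul_nonneg (hg k) (pow_nonneg hτ k)) (Finset.mem_range.2 (Nat.succ_pos K))
    simpa using this
  have dξ : ∀ τ, HasDerivAt ξ (∑ k ∈ Finset.range (K + 1), g k * (k * τ ^ (k - 1))) τ := by
    intro τ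
    exact HasDerivAt.fun_sum fun k _ => (hasDerivAt_pow k τ).const_mul (g k)
  have dη : ∀ τ, HasDerivAt η
      (∑ k ∈ Finset.range (K + 1), (k : ℝ) * (g k * (k * τ ^ (k - 1)))) τ := by
    intro τ
    exact HasDerivAt.fun_sum fun k _ => ((hasDerivAt_pow k τ).const_mul (g k)).const_mul (k : ℝ)
  have e : ∀ (τ : ℝ) (k : ℕ), τ * ((k : ℝ) * τ ^ (k - 1)) = k * τ ^ k := by
    intro τ k
    rcases Nat.eq_zero_or_pos k with rfl | hk
    · simp
    · obtain ⟨j, rfl⟩ := Nat.exists_eq_add_of_le' hk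
      simp only [Nat.add_sub_cancel]
      rw [pow_succ]
      ring
  have e1 : ∀ τ, τ * (∑ k ∈ Finset.range (K + 1), g k * (k * τ ^ (k - 1))) = η τ := by
    intro τ
    rw [Finset.mul_sum]
    refine Finset.sum_congr rfl fun k _ => ?_
    have := e τ k
    linear_combination (g k) * this
  have e2 : ∀ τ, τ * (∑ k ∈ Finset.range (K + 1), (k : ℝ) * (g k * (k * τ ^ (k - 1)))) = ζ τ := by
    intro τ
    rw [Finset.mul_sum]
    refine Finset.sum_congr rfl fun k _ => ?_
    have := e τ k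
    linear_combination (k * g k) * this
  set F : ℝ → ℝ := fun τ => Real.log (ξ τ) - γ * (η τ / ξ τ) with hF
  have dF : ∀ τ, 0 ≤ τ → HasDerivAt F
      ((∑ k ∈ Finset.range (K + 1), g k * (k * τ ^ (k - 1))) / ξ τ - γ *
        (((∑ k ∈ Finset.range (K + 1), (k : ℝ) * (g k * (k * τ ^ (k - 1)))) * ξ τ -
          η τ * (∑ k ∈ Finset.range (K + 1), g k * (k * τ ^ (k - 1)))) / ξ τ ^ 2)) τ := by
    intro τ hτ
    exact ((dξ τ).log (hpos τ hτ).ne').sub
      (((dη τ).div (dξ τ) (hpos τ hτ).ne').const_mul γ)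
  have hmono : MonotoneOn F (Set.Icc 0 1) := by
    refine monotoneOn_of_deriv_nonneg (convex_Icc 0 1) ?_ ?_ ?_
    · intro τ hτ
      exact (dF τ hτ.1).continuousAt.continuousWithinAt
    · intro τ hτ
      rw [interior_Icc] at hτ
      exact (dF τ hτ.1.le).differentiableAt.differentiableWithinAt
    · intro τ hτ
      rw [interior_Icc] at hτ
      rw [(dF τ hτ.1.le).deriv]
      have hx := hpos τ hτ.1.le
      have h1 := h τ hτ.1 hτ.2
      have h2 : τ * ((∑ k ∈ Finset.range (K + 1), g k * (k * τ ^ (k - 1))) / ξ τ - γ *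
        (((∑ k ∈ Finset.range (K + 1), (k : ℝ) * (g k * (k * τ ^ (k - 1)))) * ξ τ -
          η τ * (∑ k ∈ Finset.range (K + 1), g k * (k * τ ^ (k - 1)))) / ξ τ ^ 2)) =
          η τ / ξ τ - γ * (ζ τ / ξ τ - (η τ / ξ τ) ^ 2) := by
        rw [← e1 τ, ← e2 τ]
        have hx' := hx.ne'
        field_simp
      have h3 : 0 ≤ η τ / ξ τ - γ * (ζ τ / ξ τ - (η τ / ξ τ) ^ 2) := by
        have : γ * (ζ τ / ξ τ - (η τ / ξ τ) ^ 2) ≤ η τ / ξ τ := h1
        linarith
      rw [← h2] at h3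
      exact nonneg_of_mul_nonneg_right h3 hτ.1
  have hle := hmono (Set.left_mem_Icc.2 zero_le_one) (Set.right_mem_Icc.2 zero_le_one) zero_le_one
  have hF0 : F 0 = Real.log (g 0) := by
    simp only [hF]
    rw [hξ0, hη0]
    simp
  have hξ1 : ξ 1 = ∑ k ∈ Finset.range (K + 1), g k := by simp [hξ]
  have hη1 : η 1 = ∑ k ∈ Finset.range (K + 1), (k : ℝ) * g k := by simp [hη]
  have hF1 : F 1 = Real.log (∑ k ∈ Finset.range (K + 1), g k) - γ *
      ((∑ k ∈ Finset.range (K + 1), (k : ℝ) * g k) / (∑ k ∈ Finset.range (K + 1), g k)) := by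
    simp only [hF]
    rw [hξ1, hη1]
  rw [hF0, hF1] at hle
  have hX : 0 < ∑ k ∈ Finset.range (K + 1), g k := hξ1 ▸ hpos 1 zero_le_one
  rw [← Real.log_le_iff_le_exp (div_pos h0 hX), Real.log_div h0.ne' hX.ne']
  linarith

section main

variable {S : Type} [MeasurableSpace S]

theorem sum_num {G : Measure (Om S)} [IsFiniteMeasure G] {A : Set S} (hA : MeasurableSet A)
    {K : ℕ} (hK : ∀ᵐ ω ∂G, nV A ω ≤ K) (F : ℕ → ℝ) :
    ∫ ω, F (nV A ω) ∂G =
      ∑ k ∈ Finset.range (K + 1), F k * G.real {ω | nV A ω = k} := by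
  have hm : ∀ k, MeasurableSet {ω : Om S | nV A ω = k} := fun k =>
    Rt33.measurable_nV hA (measurableSet_singleton k)
  have h1 : ∫ ω, F (nV A ω) ∂G = ∫ ω, ∑ k ∈ Finset.range (K + 1),
      F k * {ω | nV A ω = k}.indicator (fun _ => (1 : ℝ)) ω ∂G := by
    refine integral_congr_ae ?_
    filter_upwards [hK] with ω hω
    rw [Finset.sum_eq_single (nV A ω)]
    · simp
    · intro k _ hk
      rw [Set.indicator_of_notMem (by simpa using hk.symm), mul_zero]
    · intro hk
      exact absurd (Finset.mem_range.2 (Nat.lt_succ_of_le hω)) hk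
  rw [h1, integral_finsetSum]
  · refine Finset.sum_congr rfl fun k _ => ?_
    rw [integral_const_mul, integral_indicator_const _ (hm k)]
    simp
  · intro k _
    exact ((integrable_const (1 : ℝ)).indicator (hm k)).const_mul _

theorem emp_of (hV : VARN) (hA : SYSA) (hO : OKB) (hB : BAS) : EMP := by
  intro S _ m _ C L b ε lam K hS hε hP hlt A hAm
  obtain ⟨hh, -, hfin, hXi, -, -⟩ := hB S m C L lam hS.meas hS.measL hS.fin hS.lam_nonneg
  set G := gib m C lam L with hG
  have hK : ∀ᵐ ω ∂G, nV A ω ≤ K := by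
    filter_upwards [(hO S m C L lam b K hS).2.1] with ω hω
    exact (Rt33.nV_le A ω).trans (hS.card ω hω.1 hω.2)
  set g : ℕ → ℝ := fun k => G.real {ω | nV A ω = k} with hg
  have hsum : ∀ F : ℕ → ℝ, ∫ ω, F (nV A ω) ∂G = ∑ k ∈ Finset.range (K + 1), F k * g k :=
    fun F => sum_num hAm hK F
  have hX : Xi m C lam L = ∑ k ∈ Finset.range (K + 1), g k := by
    have h := hsum fun _ => 1
    simp only [one_mul, integral_const, smul_eq_mul, mul_one] at h
    rw [← h]
    rfl
  have hex : ∀ F : ℕ → ℝ, ex m C lam L (fun ω => F (nV A ω)) =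
      (∑ k ∈ Finset.range (K + 1), F k * g k) / ∑ k ∈ Finset.range (K + 1), g k := by
    intro F
    unfold ex
    rw [← hG, hsum F, hX]
  have key := poly K g (fun k => measureReal_nonneg) (1 - lam * b * ε) ?_
  · have e0 : ex m C lam L (fun ω => if nV A ω = 0 then 1 else 0) =
        g 0 / ∑ k ∈ Finset.range (K + 1), g k := by
      have := hex fun k => if k = 0 then 1 else 0
      rw [this]
      congr 1
      rw [Finset.sum_eq_single 0]
      · simp
      · intro k _ hk
        simp [hk]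
      · intro h
        simp at h
    have e1 : ex m C lam L (fun ω => (nV A ω : ℝ)) =
        (∑ k ∈ Finset.range (K + 1), (k : ℝ) * g k) / ∑ k ∈ Finset.range (K + 1), g k :=
      hex fun k => (k : ℝ)
    rw [e0, e1]
    exact key
  · intro τ h0 h1
    have hU : U01 (Rt33.fac A τ) := ⟨Rt33.measurable_fac hAm τ, fun x =>
      ⟨Rt33.fac_nonneg h0.le x, Rt33.fac_le h1.le x⟩⟩
    obtain ⟨hsf, hS', hP'⟩ := hA S m C L lam b K hS (Rt33.fac A τ) hU
    have := hsf
    have hv := hV S (md m (Rt33.fac A τ)) C L b ε lam K hS' hε (hP' ε hε hP) hlt A hAm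
    have hw1 : ∀ x : S, ENNReal.ofReal (Rt33.fac A τ x) ≤ 1 := fun x => by
      rw [← ENNReal.ofReal_one]
      exact ENNReal.ofReal_le_ofReal (Rt33.fac_le h1.le x)
    have hw := (Rt33.measurable_fac hAm τ).ennreal_ofReal
    have hgib : gib (md m (Rt33.fac A τ)) C lam L =
        G.withDensity (Wd.W fun x => ENNReal.ofReal (Rt33.fac A τ x)) :=
      Wd.gib_wd m hw hw1 C hh lam hS.measL
    have hint : ∀ F : ℕ → ℝ, ∫ ω, F (nV A ω) ∂gib (md m (Rt33.fac A τ)) C lam L =
        ∑ k ∈ Finset.range (K + 1), F k * (g k * τ ^ k) := by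
      intro F
      rw [hgib, integral_withDensity_eq_integral_toReal_smul (Wd.measurable_W hw)]
      · have := hsum fun k => τ ^ k * F k
        simp only [Rt33.W_fac h0.le, smul_eq_mul]
        rw [this]
        exact Finset.sum_congr rfl fun k _ => by ring
      · refine Filter.Eventually.of_forall fun ω => ?_
        unfold Wd.W
        exact ENNReal.prod_lt_top fun i _ => (hw1 _).trans_lt ENNReal.one_lt_top
    have hX' : Xi (md m (Rt33.fac A τ)) C lam L = ∑ k ∈ Finset.range (K + 1), g k * τ ^ k := by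
      have h := hint fun _ => 1
      simp only [one_mul, integral_const, smul_eq_mul, mul_one] at h
      rw [← h]
      rfl
    have hex' : ∀ F : ℕ → ℝ, ex (md m (Rt33.fac A τ)) C lam L (fun ω => F (nV A ω)) =
        (∑ k ∈ Finset.range (K + 1), F k * (g k * τ ^ k)) /
          ∑ k ∈ Finset.range (K + 1), g k * τ ^ k := by
      intro F
      unfold ex
      rw [hint F, hX']
    have v1 := hex' fun k => (k : ℝ)
    have v2 := hex' fun k => (k : ℝ) ^ 2
    rw [v1, v2] at hv
    exact hv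

end main

end Emp

theorem emp_of (hV : VARN) (hA : SYSA) (hO : OKB) (hB : BAS) : EMP := Emp.emp_of hV hA hO hB

end Pool.Agent.HdGas
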