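import Pool.Agent.Lib.NT.Rows

/-!
# Activity functions between `0` and `1` do not change the hypotheses
-/

set_option autoImplicit false

namespace Pool.Agent.HdGas

open MeasureTheory

namespace SysAx

variable {S : Type} [MeasurableSpace S]

theorem le (m : Measure S) {α : S → ℝ} (h : U01 α) : md m α ≤ m := by
  unfold md
  conv_rhs => rw [← withDensity_one (μ := m)]
  refine withDensity_mono (Filter.Eventually.of_forall fun x => ?_)
  simpa using ENNReal.ofReal_le_ofReal (h.2 x).2

theorem int_md (m : Measure S) {α : S → ℝ} (h : U01 α) (f : S → ℝ) :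
    ∫ x, f x ∂md m α = ∫ x, α x * f x ∂m := by
  unfold md
  rw [integral_withDensity_eq_integral_toReal_smul (h.1.ennreal_ofReal)
    (Filter.Eventually.of_forall fun x => ENNReal.ofReal_lt_top)]
  refine integral_congr_ae (Filter.Eventually.of_forall fun x => ?_)
  simp only [smul_eq_mul, ENNReal.toReal_ofReal (h.2 x).1]

theorem int_md_restrict (m : Measure S) {α : S → ℝ} (h : U01 α) {s : Set S}
    (hs : MeasurableSet s) (f : S → ℝ) :
    ∫ x in s, f x ∂md m α = ∫ x in s, α x * f x ∂m := by
  have : (md m α).restrict s = md (m.restrict s) α := by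
    unfold md
    rw [restrict_withDensity hs]
  rw [this, int_md _ h]

end SysAx

open SysAx

theorem sysa_of : SYSA := by
  intro S _ m _ C L lam b K hs α hα
  have hle := SysAx.le m hα
  refine ⟨?_, ?_, ?_⟩
  · exact Measure.sigmaFinite_of_le m hle
  · exact
      { meas := hs.meas
        refl := hs.refl
        symm := hs.symm
        measL := hs.measL
        fin := ne_top_of_le_ne_top hs.fin (hle L)
        lam_nonneg := hs.lam_nonneg
        b_pos := hs.b_pos
        ball := fun u => (hle _).trans (hs.ball u)
        card := hs.card }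
  · intro ε hε hp g hg hb h0
    have hsec : ∀ x, MeasurableSet {y | C x y} := fun x => measurable_prodMk_left hs.meas
    have h := hp (fun x => α x * g x) (hα.1.mul hg)
      (fun x => by
        rw [abs_mul, abs_of_nonneg (hα.2 x).1]
        exact (mul_le_mul (hα.2 x).2 (hb x) (abs_nonneg _) zero_le_one).trans (by norm_num))
      (fun x hx => by simp [h0 x hx])
    rw [int_md m hα]
    have e1 : ∫ x, g x * ∫ y in {y | C x y}, g y ∂md m α ∂md m α =
        ∫ x, (α x * g x) * ∫ y in {y | C x y}, (α y * g y) ∂m ∂m := by
      rw [int_md m hα]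
      refine integral_congr_ae (Filter.Eventually.of_forall fun x => ?_)
      simp only [int_md_restrict m hα (hsec x)]
      ring
    rw [e1]
    refine le_trans ?_ h
    have hI : ∀ f : S → ℝ, Measurable f → (∀ x, |f x| ≤ 1) → (∀ x, x ∉ L → f x = 0) →
        Integrable f m := by
      intro f hf hb h0
      have : IntegrableOn f L m := by
        refine Measure.integrableOn_of_bounded (M := 1) hs.fin hf.aestronglyMeasurable ?_
        exact Filter.Eventually.of_forall fun x => by simpa using hb x
      exact (integrableOn_iff_integrable_of_support_subset (fun x hx => by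
        by_contra hxL
        exact hx (h0 x hxL))).1 this
    have key : ∫ x, (α x * g x) ^ 2 ∂m ≤ ∫ x, α x * g x ^ 2 ∂m := by
      refine integral_mono ?_ ?_ ?_
      · refine hI _ ((hα.1.mul hg).pow_const 2) (fun x => ?_) (fun x hx => by simp [h0 x hx])
        rw [abs_of_nonneg (sq_nonneg _)]
        have h1 : (α x * g x) ^ 2 = α x ^ 2 * g x ^ 2 := by ring
        have h2 : g x ^ 2 ≤ 1 := by
          rw [← sq_abs]
          exact pow_le_one₀ (abs_nonneg _) (hb x)
        have h3 : α x ^ 2 ≤ 1 := pow_le_one₀ (hα.2 x).1 (hα.2 x).2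
        rw [h1]
        exact mul_le_one₀ h3 (sq_nonneg _) h2
      · refine hI _ (hα.1.mul (hg.pow_const 2)) (fun x => ?_) (fun x hx => by simp [h0 x hx])
        rw [abs_of_nonneg (mul_nonneg (hα.2 x).1 (sq_nonneg _))]
        have h2 : g x ^ 2 ≤ 1 := by
          rw [← sq_abs]
          exact pow_le_one₀ (abs_nonneg _) (hb x)
        exact mul_le_one₀ (hα.2 x).2 (sq_nonneg _) h2
      · intro x
        show (α x * g x) ^ 2 ≤ α x * g x ^ 2
        have : (α x * g x) ^ 2 = α x * (α x * g x ^ 2) := by ring
        rw [this]
        refine mul_le_mul_of_nonneg_left ?_ (hα.2 x).1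
        exact mul_le_of_le_one_left (sq_nonneg _) (hα.2 x).2
    have := mul_le_mul_of_nonneg_left key (mul_nonneg hε hs.b_pos.le)
    linarith

end Pool.Agent.HdGas
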