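import Pool.Agent.Lib.NT.Rows3
import Pool.Agent.Lib.NT.Ratio

/-!
# Project NT (MP_09cbbd_mp), row VARN (helper59)
-/

set_option autoImplicit false

namespace Pool.Agent.HdGas

open MeasureTheory Filter Topology

namespace Vn

variable {S : Type}

/-- The indicator of `A`. -/
noncomputable def iA (A : Set S) (p : S) : ℝ := by
  classical exact if p ∈ A then 1 else 0

theorem iA_mem {A : Set S} {p : S} (h : p ∈ A) : iA A p = 1 := by simp [iA, h]

theorem iA_not {A : Set S} {p : S} (h : p ∉ A) : iA A p = 0 := by simp [iA, h]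

theorem iA_abs (A : Set S) (p : S) : |iA A p| ≤ 1 := by
  by_cases h : p ∈ A
  · rw [iA_mem h, abs_one]
  · rw [iA_not h, abs_zero]
    exact zero_le_one

theorem iA_sq (A : Set S) (p : S) : iA A p * iA A p = iA A p := by
  by_cases h : p ∈ A
  · rw [iA_mem h, one_mul]
  · rw [iA_not h, zero_mul]

variable [MeasurableSpace S]

theorem nV_real (A : Set S) (ω : Om S) : (nV A ω : ℝ) = ∑ i, iA A (ω.2 i) := by
  obtain ⟨n, x⟩ := ω
  rw [Rt33.nV_eq, Nat.cast_sum]
  refine Finset.sum_congr rfl fun i _ => ?_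
  by_cases h : x i ∈ A
  · rw [iA_mem h]
    simp [h]
  · rw [iA_not h]
    simp [h]

theorem nV_ins (A : Set S) (p : S) (ω : Om S) :
    (nV A (ins p ω) : ℝ) = iA A p + nV A ω := by
  rw [nV_real, nV_real]
  have h := Fin.sum_univ_succ (fun i : Fin (ω.1 + 1) => iA A ((ins p ω).2 i))
  have e : ∑ i, iA A ((ins p ω).2 i) =
      ∑ i : Fin (ω.1 + 1), iA A ((Fin.cons p ω.2 : Fin (ω.1 + 1) → S) i) := rfl
  rw [e, Fin.sum_univ_succ]
  simp

theorem meas_iA {A : Set S} (hA : MeasurableSet A) : Measurable (iA A) := by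
  classical
  have : iA A = fun p => if p ∈ A then 1 else 0 := by
    funext p
    by_cases h : p ∈ A
    · rw [iA_mem h, if_pos h]
    · rw [iA_not h, if_neg h]
  rw [this]
  exact Measurable.ite hA measurable_const measurable_const

theorem fn_nV {m : Measure S} {C : S → S → Prop} {L : Set S} {lam b : ℝ} {K : ℕ}
    (hS : Sys m C L lam b K) {A : Set S} (hA : MeasurableSet A) :
    Fn C L (fun ω => (nV A ω : ℝ)) := by
  refine ⟨?_, ?_, K, fun ω hω => ?_⟩
  · exact measurable_from_nat.comp (Rt33.measurable_nV hA)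
  · intro n x σ
    show (nV A (⟨n, x ∘ σ⟩ : Om S) : ℝ) = (nV A (⟨n, x⟩ : Om S) : ℝ)
    rw [Rt33.nV_sym A n x σ]
  · rw [abs_of_nonneg (Nat.cast_nonneg _)]
    exact_mod_cast (Rt33.nV_le A ω).trans (hS.card ω hω.1 hω.2)

theorem D_nV (A : Set S) (p : S) (ω : Om S) :
    D (fun ω : Om S => (nV A ω : ℝ)) p ω = iA A p := by
  unfold D
  simp only
  rw [nV_ins]
  ring

/-- The mean number of points in `A`. -/
theorem ex_nV (hG : GNZ) {m : Measure S} [SigmaFinite m] {C : S → S → Prop} {L : Set S}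
    {lam b : ℝ} {K : ℕ} (hS : Sys m C L lam b K) {A : Set S} (hA : MeasurableSet A) :
    ex m C lam L (fun ω => (nV A ω : ℝ)) =
      lam * ∫ p in L, ex m C lam L (fun ω => chi C (Al S) p ω * iA A p) ∂m := by
  have h := hG S m C L lam b K hS (fun p _ => iA A p) ((meas_iA hA).comp measurable_fst)
    (fun p n x σ => rfl) ⟨1, fun p ω _ _ _ => iA_abs A p⟩
  rw [← h]
  congr 1
  funext ω
  exact nV_real A ω

theorem en_nV (hG : GNZ) {m : Measure S} [SigmaFinite m] {C : S → S → Prop} {L : Set S}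
    {lam b : ℝ} {K : ℕ} (hS : Sys m C L lam b K) {A : Set S} (hA : MeasurableSet A)
    {w : S → ℝ} (hw : ∀ p, w p = 1) :
    en m C lam L w (fun ω => (nV A ω : ℝ)) (fun ω => (nV A ω : ℝ)) =
      ex m C lam L (fun ω => (nV A ω : ℝ)) := by
  rw [ex_nV hG hS hA]
  unfold en
  congr 1
  refine integral_congr_ae (Filter.Eventually.of_forall fun p => ?_)
  simp only [hw, one_mul]
  congr 1
  funext ω
  rw [D_nV, mul_assoc, iA_sq]

end Vn

theorem varn_of (hD : DECAY) (hG : GNZ) : VARN := by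
  intro S _ m _ C L b ε lam K hS hε hP hlt A hA
  have hγ : 0 < 1 - lam * b * (ε + (Real.cosh 0 - 1)) := by
    rw [Real.cosh_zero, sub_self, add_zero]
    linarith
  have h := hD S m C L lam b ε K hS hε hP (fun _ => 0) 0 measurable_const ⟨0, fun x => by simp⟩
    (fun x y _ => by simp) hγ _ _ (Vn.fn_nV hS hA) (Vn.fn_nV hS hA)
  rw [Vn.en_nV hG hS hA (by simp), Vn.en_nV hG hS hA (by simp)] at h
  have hn : 0 ≤ ex m C lam L (fun ω => (nV A ω : ℝ)) := by
    unfold ex
    exact div_nonneg (integral_nonneg fun ω => Nat.cast_nonneg _) ENNReal.toReal_nonneg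
  rw [Real.mul_self_sqrt hn, Real.cosh_zero, sub_self, add_zero] at h
  have hγ' : 0 < 1 - lam * b * ε := by linarith
  have h1 := (le_abs_self _).trans h
  have h2 := mul_le_mul_of_nonneg_left h1 hγ'.le
  rw [mul_inv_cancel_left₀ hγ'.ne'] at h2
  have e1 : ex m C lam L (fun ω => (nV A ω : ℝ) ^ 2) =
      ex m C lam L (fun ω => (nV A ω : ℝ) * (nV A ω : ℝ)) := by
    congr 1
    funext ω
    ring
  rw [e1, sq]
  exact h2

end Pool.Agent.HdGas
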