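import Pool.Agent.Lib.NT.Rows
import Pool.Agent.Lib.MF.Markov
import Pool.Agent.Lib.MF.Bas

/-!
# Complex partition functions: changing the activity to zero in a set
-/

set_option autoImplicit false

namespace Pool.Agent.HdGas

open MeasureTheory Filter Topology

namespace Xof

variable {S : Type} [MeasurableSpace S]

theorem pois_sub (m : Measure S) [SigmaFinite m] (lam : ℝ) {T B : Set S} (hT : MeasurableSet T)
    (hTB : T ⊆ B) :
    (pois m lam B).restrict {ω : Om S | ∀ i, ω.2 i ∈ T} = pois m lam T := by
  refine Measure.ext_of_lintegral _ fun F hF => ?_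
  rw [← lintegral_indicator (Mark.meas_all hT)]
  exact Mark.lint_sub m lam hT hTB hF

theorem U01_off {α : S → ℝ} (hα : U01 α) {A : Set S} (hA : MeasurableSet A) : U01 (off A α) := by
  classical
  refine ⟨?_, fun x => ?_⟩
  · exact Measurable.ite hA measurable_const hα.1
  · unfold off
    split_ifs
    · exact ⟨le_rfl, zero_le_one⟩
    · exact hα.2 x

theorem md_off (m : Measure S) (α : S → ℝ) {A : Set S} (hA : MeasurableSet A) :
    md m (off A α) = (md m α).restrict Aᶜ := by
  classical
  unfold md
  rw [restrict_withDensity hA.compl, ← withDensity_indicator hA.compl]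
  congr 1
  ext x
  by_cases hx : x ∈ A
  · rw [Set.indicator_of_notMem (by simpa using hx)]
    simp [off, hx]
  · rw [Set.indicator_of_mem (by simpa using hx)]
    simp [off, hx]

theorem pois_restrict (m : Measure S) (lam : ℝ) (L A : Set S) (hL : MeasurableSet L) :
    pois (m.restrict A) lam L = pois m lam (L ∩ A) := by
  unfold pois
  rw [Measure.restrict_restrict hL]

theorem gib_off (m : Measure S) [SigmaFinite m] {C : S → S → Prop} {lam : ℝ} {L : Set S}
    (hhc : MeasurableSet {ω : Om S | hc C ω}) (hL : MeasurableSet L) {A : Set S}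
    (hA : MeasurableSet A) :
    gib (m.restrict Aᶜ) C lam L = (gib m C lam L).restrict {ω : Om S | ∀ i, ω.2 i ∉ A} := by
  have hSA : MeasurableSet {ω : Om S | ∀ i, ω.2 i ∉ A} := Mark.meas_all hA.compl
  unfold gib
  rw [pois_restrict m lam L Aᶜ hL, Measure.restrict_restrict hSA,
    Set.inter_comm {ω : Om S | ∀ i, ω.2 i ∉ A}, ← Measure.restrict_restrict hhc]
  congr 1
  rw [← pois_sub m lam (hL.inter hA.compl) Set.inter_subset_left]
  refine Measure.restrict_congr_set ?_
  filter_upwards [Mark.ae_mem m lam hL] with ω hω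
  refine propext ⟨fun h i => (h i).2, fun h i => ⟨hω i, h i⟩⟩

end Xof

open Xof in
theorem xoff_of (hS : SYSA) : XOFF := by
  classical
  intro S _ m _ C L lam b K hSys θ α hα
  obtain ⟨hsf, hSa, -⟩ := hS S m C L lam b K hSys α hα
  obtain ⟨hmhc, hfp, hfg, hXi1, -, -⟩ := bas S (md m α) C L lam hSa.meas hSa.measL hSa.fin
    hSa.lam_nonneg
  have h0 : ∀ β : S → ℝ, Xa m C lam L 0 β = ((gib (md m β) C lam L).real Set.univ : ℂ) := by
    intro β
    unfold Xa
    simp
  have hone : Xa m C lam L 0 α = (Xi (md m α) C lam L : ℂ) := h0 α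
  have hoff : ∀ A : Set S, MeasurableSet A → U01 (off A α) ∧
      Xa m C lam L θ (off A α) = ∫ ω in {ω : Om S | ∀ i, ω.2 i ∉ A},
        Complex.exp (Complex.I * θ * ω.1) ∂gib (md m α) C lam L := by
    intro A hA
    refine ⟨U01_off hα hA, ?_⟩
    unfold Xa
    rw [md_off m α hA, gib_off (md m α) hmhc hSa.measL hA]
  refine ⟨hone, ?_, hoff, fun x => ?_⟩
  · unfold Xa
    refine (norm_integral_le_of_norm_le_const (C := 1) (ae_of_all _ fun ω => ?_)).trans ?_
    · rw [Complex.norm_exp]
      simp
    · rw [one_mul]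
      exact le_rfl
  · have hV : MeasurableSet {z | C x z} := (measurable_prodMk_left (x := x)) hSa.meas
    have hSV : MeasurableSet {ω : Om S | ∀ i, ω.2 i ∉ {z | C x z}} := Mark.meas_all hV.compl
    have hchi : chi C (Al S) x = {ω : Om S | ∀ i, ω.2 i ∉ {z | C x z}}.indicator 1 := by
      ext ω
      unfold chi
      by_cases h : fr C (Al S) x ω
      · have h1 : ω ∈ {ω : Om S | ∀ i, ω.2 i ∉ {z | C x z}} := fun i => h i trivial
        rw [if_pos h, Set.indicator_of_mem h1]
        rfl
      · have h1 : ω ∉ {ω : Om S | ∀ i, ω.2 i ∉ {z | C x z}} := fun h' => h fun i _ => h' i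
        rw [if_neg h, Set.indicator_of_notMem h1]
    have hex : ex (md m α) C lam L (chi C (Al S) x) =
        (gib (md m α) C lam L).real {ω : Om S | ∀ i, ω.2 i ∉ {z | C x z}} /
          Xi (md m α) C lam L := by
      unfold ex
      rw [hchi, integral_indicator_one hSV]
    have hRa : Ra m C lam L 0 α x = (ex (md m α) C lam L (chi C (Al S) x) : ℂ) := by
      unfold Ra
      rw [hone, h0, md_off m α hV, gib_off (md m α) hmhc hSa.measL hV, hex,
        Measure.real, Measure.restrict_apply_univ, Measure.real]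
      push_cast
      rfl
    refine ⟨hRa, ?_⟩
    rw [hRa, hex, Complex.norm_real, Real.norm_eq_abs, abs_of_nonneg (by positivity),
      div_le_one (by linarith)]
    exact measureReal_mono (Set.subset_univ _)

end Pool.Agent.HdGas
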