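import Pool.Agent.Lib.NT.Rows4
import Pool.Agent.Lib.NT.Emp
import Pool.Agent.Lib.NT.Varn
import Pool.Agent.Lib.NT.SysA
import Pool.Agent.Lib.NT.Xoff
import Pool.Agent.Lib.NT.Decay

/-!
# Project NT (MP_09cbbd_mp), row ABULK (helper59)
-/

set_option autoImplicit false

namespace Pool.Agent.HdGas

open MeasureTheory Filter Topology

namespace Ab59

/-- The quotient of two polynomials along `a = s ^ 2`. -/
theorem path (K : ℕ) (g h : ℕ → ℝ) (hg : ∀ k, 0 ≤ g k) (hg0 : 0 < g 0) (K0 : ℝ) (hK0 : 0 ≤ K0)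
    (hb : ∀ s : ℝ, 0 < s → s < 1 →
      |(∑ k ∈ Finset.range (K + 1), (k : ℝ) * (h k * (s ^ 2) ^ k)) /
          (∑ k ∈ Finset.range (K + 1), g k * (s ^ 2) ^ k) -
        (∑ k ∈ Finset.range (K + 1), h k * (s ^ 2) ^ k) /
          (∑ k ∈ Finset.range (K + 1), g k * (s ^ 2) ^ k) *
        ((∑ k ∈ Finset.range (K + 1), (k : ℝ) * (g k * (s ^ 2) ^ k)) /
          (∑ k ∈ Finset.range (K + 1), g k * (s ^ 2) ^ k))| ≤ K0 * s) :
    |(∑ k ∈ Finset.range (K + 1), h k) / (∑ k ∈ Finset.range (K + 1), g k) - h 0 / g 0| ≤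
      2 * K0 := by
  set ξ : ℝ → ℝ := fun s => ∑ k ∈ Finset.range (K + 1), g k * (s ^ 2) ^ k with hξ
  set χ : ℝ → ℝ := fun s => ∑ k ∈ Finset.range (K + 1), h k * (s ^ 2) ^ k with hχ
  have e0 : ∀ c : ℕ → ℝ, ∑ k ∈ Finset.range (K + 1), c k * ((0 : ℝ) ^ 2) ^ k = c 0 := by
    intro c
    rw [Finset.sum_eq_single 0]
    · simp
    · intro k _ hk
      simp [hk]
    · intro hk
      simp at hk
  have hpos : ∀ s : ℝ, 0 < ξ s := by
    intro s
    refine lt_of_lt_of_le hg0 ?_
    have : g 0 * (s ^ 2) ^ 0 ≤ ξ s := Finset.single_le_sum (f := fun k => g k * (s ^ 2) ^ k)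
      (fun k _ => mul_nonneg (hg k) (pow_nonneg (sq_nonneg s) k))
      (Finset.mem_range.2 (Nat.succ_pos K))
    simpa using this
  have dd : ∀ (c : ℕ → ℝ) (s : ℝ), HasDerivAt
      (fun s : ℝ => ∑ k ∈ Finset.range (K + 1), c k * (s ^ 2) ^ k)
      (∑ k ∈ Finset.range (K + 1), c k * (((2 * k : ℕ) : ℝ) * s ^ (2 * k - 1))) s := by
    intro c s
    refine HasDerivAt.fun_sum fun k _ => ?_
    have h := (hasDerivAt_pow (2 * k) s).const_mul (c k)
    have e : (fun s : ℝ => c k * (s ^ 2) ^ k) = fun s => c k * s ^ (2 * k) := by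
      funext s
      rw [pow_mul]
    rw [e]
    exact h
  have ds : ∀ (c : ℕ → ℝ) (s : ℝ),
      s * (∑ k ∈ Finset.range (K + 1), c k * (((2 * k : ℕ) : ℝ) * s ^ (2 * k - 1))) =
        2 * ∑ k ∈ Finset.range (K + 1), (k : ℝ) * (c k * (s ^ 2) ^ k) := by
    intro c s
    rw [Finset.mul_sum, Finset.mul_sum]
    refine Finset.sum_congr rfl fun k _ => ?_
    rcases Nat.eq_zero_or_pos k with rfl | hk
    · simp
    · obtain ⟨j, rfl⟩ := Nat.exists_eq_add_of_le' hk
      have e : 2 * (j + 1) - 1 = 2 * j + 1 := by omega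
      rw [e, ← pow_mul]
      push_cast
      ring
  set Q : ℝ → ℝ := fun s => χ s / ξ s with hQ
  set Q' : ℝ → ℝ := fun s =>
    ((∑ k ∈ Finset.range (K + 1), h k * (((2 * k : ℕ) : ℝ) * s ^ (2 * k - 1))) * ξ s -
      χ s * (∑ k ∈ Finset.range (K + 1), g k * (((2 * k : ℕ) : ℝ) * s ^ (2 * k - 1)))) /
        ξ s ^ 2 with hQ'
  have dQ : ∀ s, HasDerivAt Q (Q' s) s := fun s => (dd h s).div (dd g s) (hpos s).ne'
  have hbd : ∀ s ∈ Set.Ico (0 : ℝ) 1, ‖Q' s‖ ≤ 2 * K0 := by
    intro s hs
    rcases hs.1.eq_or_lt with h0 | h0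
    · have e : ∀ c : ℕ → ℝ,
          ∑ k ∈ Finset.range (K + 1), c k * (((2 * k : ℕ) : ℝ) * s ^ (2 * k - 1)) = 0 := by
        intro c
        refine Finset.sum_eq_zero fun k _ => ?_
        rcases Nat.eq_zero_or_pos k with rfl | hk
        · simp
        · rw [← h0, zero_pow (by omega), mul_zero, mul_zero]
      simp only [hQ']
      rw [e, e]
      simp only [zero_mul, mul_zero, sub_zero, zero_div, norm_zero]
      positivity
    · have h1 := hb s h0 hs.2
      have h2 : s * Q' s = 2 * ((∑ k ∈ Finset.range (K + 1), (k : ℝ) * (h k * (s ^ 2) ^ k)) /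
          (∑ k ∈ Finset.range (K + 1), g k * (s ^ 2) ^ k) -
        (∑ k ∈ Finset.range (K + 1), h k * (s ^ 2) ^ k) /
          (∑ k ∈ Finset.range (K + 1), g k * (s ^ 2) ^ k) *
        ((∑ k ∈ Finset.range (K + 1), (k : ℝ) * (g k * (s ^ 2) ^ k)) /
          (∑ k ∈ Finset.range (K + 1), g k * (s ^ 2) ^ k))) := by
        have a1 := ds h s
        have a2 := ds g s
        have hx := (hpos s).ne'
        simp only [hξ] at hx
        simp only [hQ', hξ, hχ]
        generalize (∑ k ∈ Finset.range (K + 1), h k * (((2 * k : ℕ) : ℝ) * s ^ (2 * k - 1))) = X1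
          at a1 ⊢
        generalize (∑ k ∈ Finset.range (K + 1), g k * (((2 * k : ℕ) : ℝ) * s ^ (2 * k - 1))) = X2
          at a2 ⊢
        generalize (∑ k ∈ Finset.range (K + 1), (k : ℝ) * (h k * (s ^ 2) ^ k)) = X3 at a1 ⊢
        generalize (∑ k ∈ Finset.range (K + 1), (k : ℝ) * (g k * (s ^ 2) ^ k)) = X4 at a2 ⊢
        generalize (∑ k ∈ Finset.range (K + 1), g k * (s ^ 2) ^ k) = X5 at hx ⊢
        generalize (∑ k ∈ Finset.range (K + 1), h k * (s ^ 2) ^ k) = X6
        field_simp
        linear_combination X5 * a1 - X6 * a2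
      rw [Real.norm_eq_abs]
      have h3 : s * |Q' s| ≤ s * (2 * K0) := by
        rw [← abs_of_pos h0, ← abs_mul, abs_of_pos h0, h2, abs_mul, abs_two]
        calc _ ≤ 2 * (K0 * s) := mul_le_mul_of_nonneg_left h1 zero_le_two
          _ = s * (2 * K0) := by ring
      exact le_of_mul_le_mul_left h3 h0
  have hn := norm_image_sub_le_of_norm_deriv_le_segment_01'
    (fun s _ => (dQ s).hasDerivWithinAt) hbd
  rw [Real.norm_eq_abs] at hn
  have eQ1 : Q 1 = (∑ k ∈ Finset.range (K + 1), h k) / (∑ k ∈ Finset.range (K + 1), g k) := by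
    simp [hQ, hξ, hχ]
  have eQ0 : Q 0 = h 0 / g 0 := by
    simp only [hQ, hξ, hχ]
    rw [e0, e0]
  rw [eQ1, eQ0] at hn
  exact hn

variable {S : Type} [MeasurableSpace S]

theorem sum_num2 {G : Measure (Om S)} {A : Set S} (hA : MeasurableSet A)
    {K : ℕ} (hK : ∀ᵐ ω ∂G, nV A ω ≤ K) {f : Om S → ℝ} (hf : Integrable f G) (F : ℕ → ℝ) :
    ∫ ω, F (nV A ω) * f ω ∂G =
      ∑ k ∈ Finset.range (K + 1), F k * ∫ ω in {ω | nV A ω = k}, f ω ∂G := by
  have hm : ∀ k, MeasurableSet {ω : Om S | nV A ω = k} := fun k =>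
    Rt33.measurable_nV hA (measurableSet_singleton k)
  have h1 : ∫ ω, F (nV A ω) * f ω ∂G = ∫ ω, ∑ k ∈ Finset.range (K + 1),
      F k * {ω | nV A ω = k}.indicator f ω ∂G := by
    refine integral_congr_ae ?_
    filter_upwards [hK] with ω hω
    rw [Finset.sum_eq_single (nV A ω)]
    · simp
    · intro k _ hk
      rw [Set.indicator_of_notMem (by simpa using hk.symm), mul_zero]
    · intro hk
      exact absurd (Finset.mem_range.2 (Nat.lt_succ_of_le hω)) hk
  rw [h1, integral_finsetSum]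
  · refine Finset.sum_congr rfl fun k _ => ?_
    rw [integral_const_mul, integral_indicator (hm k)]
  · intro k _
    exact (hf.indicator (hm k)).const_mul _

/-- Expectations of functions between `0` and `1`. -/
theorem ex_mem {m : Measure S} {C : S → S → Prop} {lam : ℝ} {L : Set S}
    [IsFiniteMeasure (gib m C lam L)] {f : Om S → ℝ}
    (h0 : ∀ ω, 0 ≤ f ω) (h1 : ∀ ω, f ω ≤ 1) : 0 ≤ ex m C lam L f ∧ ex m C lam L f ≤ 1 := by
  unfold ex
  have hX : 0 ≤ Xi m C lam L := ENNReal.toReal_nonneg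
  refine ⟨div_nonneg (integral_nonneg h0) hX, div_le_one_of_le₀ ?_ hX⟩
  have := integral_mono_of_nonneg (μ := gib m C lam L) (Eventually.of_forall h0)
    (integrable_const (1 : ℝ)) (Eventually.of_forall h1)
  refine this.trans (le_of_eq ?_)
  simp [Xi, Measure.real]

omit [MeasurableSpace S] in
theorem fr_ins (C : S → S → Prop) (v p : S) (ω : Om S) :
    fr C (Al S) v (ins p ω) ↔ ¬ C v p ∧ fr C (Al S) v ω := by
  obtain ⟨n, x⟩ := ω
  unfold fr ins
  simp only [Al, forall_const]
  rw [Fin.forall_fin_succ]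
  simp

omit [MeasurableSpace S] in
theorem chi_ins (C : S → S → Prop) (v p : S) (ω : Om S) (h : C v p) :
    chi C (Al S) v (ins p ω) = 0 := by
  unfold chi
  rw [if_neg]
  rw [fr_ins]
  exact fun h' => h'.1 h

omit [MeasurableSpace S] in
theorem chi_ins' (C : S → S → Prop) (v p : S) (ω : Om S) (h : ¬ C v p) :
    chi C (Al S) v (ins p ω) = chi C (Al S) v ω := by
  unfold chi
  by_cases h2 : fr C (Al S) v ω
  · rw [if_pos ((fr_ins C v p ω).2 ⟨h, h2⟩), if_pos h2]
  · rw [if_neg (fun h' => h2 ((fr_ins C v p ω).1 h').2), if_neg h2]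

omit [MeasurableSpace S] in
theorem nV_zero (A : Set S) (ω : Om S) : nV A ω = 0 ↔ ∀ i, ω.2 i ∉ A := by
  classical
  unfold nV
  rw [Finset.card_eq_zero, Finset.filter_eq_empty_iff]
  simp

end Ab59

open Ab59 in
theorem abulk_of (hD : DECAY) (hA : SYSA) (hO : OKB) : ABULK := by
  classical
  intro S _ m _ C L M lam b ε K hS hε hP hM hML φ s hφ hφb hφL hγ v hv J hJ
  obtain ⟨hh, -, hfin, hXi, -, -⟩ := bas S m C L lam hS.meas hS.measL hS.fin hS.lam_nonneg
  set γ := 1 - lam * b * (ε + (Real.cosh s - 1)) with hγd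
  set A : Set S := L \ M with hAd
  have hAm : MeasurableSet A := hS.measL.diff hM
  set G := gib m C lam L with hG
  have hK : ∀ᵐ ω ∂G, nV A ω ≤ K := by
    filter_upwards [(hO S m C L lam b K hS).2.1] with ω hω
    exact (Rt33.nV_le A ω).trans (hS.card ω hω.1 hω.2)
  obtain ⟨-, -, -, -, -, h6, -, h8⟩ := hO S m C L lam b K hS
  have hFv := h8 v
  have hFi : Integrable (chi C (Al S) v) G := (h6 _ hFv).1
  set g : ℕ → ℝ := fun k => G.real {ω | nV A ω = k} with hg
  set h : ℕ → ℝ := fun k => ∫ ω in {ω | nV A ω = k}, chi C (Al S) v ω ∂G with hh'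
  have hsum1 : ∀ F : ℕ → ℝ, ∫ ω, F (nV A ω) ∂G = ∑ k ∈ Finset.range (K + 1), F k * g k :=
    fun F => Emp.sum_num hAm hK F
  have hsum2 : ∀ F : ℕ → ℝ, ∫ ω, F (nV A ω) * chi C (Al S) v ω ∂G =
      ∑ k ∈ Finset.range (K + 1), F k * h k := fun F => sum_num2 hAm hK hFi F
  have hX : Xi m C lam L = ∑ k ∈ Finset.range (K + 1), g k := by
    have h := hsum1 fun _ => 1
    simp only [one_mul, integral_const, smul_eq_mul, mul_one] at h
    rw [← h]
    rfl
  have e1 : ex m C lam L (chi C (Al S) v) =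
      (∑ k ∈ Finset.range (K + 1), h k) / ∑ k ∈ Finset.range (K + 1), g k := by
    have := hsum2 fun _ => 1
    simp only [one_mul] at this
    unfold ex
    rw [← hG, this, hX]
  -- the region `M`
  have hgM : gib m C lam M = G.restrict {ω : Om S | nV A ω = 0} := by
    have hT : MeasurableSet {ω : Om S | ∀ i, ω.2 i ∈ M} := Mark.meas_all hM
    have a1 : gib m C lam M = G.restrict {ω : Om S | ∀ i, ω.2 i ∈ M} := by
      rw [hG]
      unfold gib
      rw [Measure.restrict_restrict hT, Set.inter_comm, ← Measure.restrict_restrict hh,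
        Xof.pois_sub m lam hM hML]
    rw [a1]
    refine Measure.restrict_congr_set ?_
    filter_upwards [(hO S m C L lam b K hS).2.1] with ω hω
    refine propext ⟨fun h1 => ?_, fun h1 i => ?_⟩
    · exact (nV_zero A ω).2 fun i hi => hi.2 (h1 i)
    · have h2 := (nV_zero A ω).1 h1
      by_contra h3
      exact h2 i ⟨hω.2 i, h3⟩
  have hXM : Xi m C lam M = g 0 := by
    unfold Xi
    rw [hgM, Measure.restrict_apply_univ]
    rfl
  have hMfin : m M ≠ ⊤ := ne_top_of_le_ne_top hS.fin (measure_mono hML)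
  have hg0 : 0 < g 0 := by
    rw [← hXM]
    exact lt_of_lt_of_le one_pos (bas S m C M lam hS.meas hM hMfin hS.lam_nonneg).2.2.2.1
  have e2 : ex m C lam M (chi C (Al S) v) = h 0 / g 0 := by
    unfold ex
    rw [hXM, hgM]
  -- the constant
  have hJ0 : 0 ≤ J := le_trans (mul_nonneg hS.lam_nonneg
    (integral_nonneg fun x => (Real.exp_pos _).le)) hJ
  have hK0 : 0 ≤ γ⁻¹ * (√(lam * b) * √J) := by positivity
  rw [e1, e2]
  refine path K g h (fun k => measureReal_nonneg) hg0 _ hK0 ?_
  intro t ht0 ht1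
  have ha0 : 0 < t ^ 2 := by positivity
  have ha1 : t ^ 2 ≤ 1 := by nlinarith
  set a := t ^ 2 with had
  have hU : U01 (Rt33.fac A a) := ⟨Rt33.measurable_fac hAm a, fun x =>
    ⟨Rt33.fac_nonneg ha0.le x, Rt33.fac_le ha1 x⟩⟩
  obtain ⟨hsf, hS', hP'⟩ := hA S m C L lam b K hS (Rt33.fac A a) hU
  have := hsf
  obtain ⟨-, -, hfin', -, -, -⟩ := bas S (md m (Rt33.fac A a)) C L lam hS'.meas hS'.measL
    hS'.fin hS'.lam_nonneg
  have hw1 : ∀ x : S, ENNReal.ofReal (Rt33.fac A a x) ≤ 1 := fun x => by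
    rw [← ENNReal.ofReal_one]
    exact ENNReal.ofReal_le_ofReal (Rt33.fac_le ha1 x)
  have hw := (Rt33.measurable_fac hAm a).ennreal_ofReal
  have hgib : gib (md m (Rt33.fac A a)) C lam L =
      G.withDensity (Wd.W fun x => ENNReal.ofReal (Rt33.fac A a x)) :=
    Wd.gib_wd m hw hw1 C hh lam hS.measL
  have hgen : ∀ f : Om S → ℝ, ∫ ω, f ω ∂gib (md m (Rt33.fac A a)) C lam L =
      ∫ ω, a ^ nV A ω * f ω ∂G := by
    intro f
    rw [hgib, integral_withDensity_eq_integral_toReal_smul (Wd.measurable_W hw)]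
    · simp only [Rt33.W_fac ha0.le, smul_eq_mul]
    · refine Filter.Eventually.of_forall fun ω => ?_
      unfold Wd.W
      exact ENNReal.prod_lt_top fun i _ => (hw1 _).trans_lt ENNReal.one_lt_top
  have hX' : Xi (md m (Rt33.fac A a)) C lam L = ∑ k ∈ Finset.range (K + 1), g k * a ^ k := by
    have q := hgen fun _ => 1
    simp only [integral_const, smul_eq_mul, mul_one] at q
    have q2 := hsum1 fun k => a ^ k
    have q3 : Xi (md m (Rt33.fac A a)) C lam L = ∫ ω, a ^ nV A ω ∂G := by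
      rw [← q]
      rfl
    rw [q3, q2]
    exact Finset.sum_congr rfl fun k _ => mul_comm _ _
  have c1 : ex (md m (Rt33.fac A a)) C lam L (chi C (Al S) v) =
      (∑ k ∈ Finset.range (K + 1), h k * a ^ k) / ∑ k ∈ Finset.range (K + 1), g k * a ^ k := by
    unfold ex
    rw [hX', hgen]
    have q := hsum2 fun k => a ^ k
    rw [q]
    congr 1
    exact Finset.sum_congr rfl fun k _ => mul_comm _ _
  have c2 : ex (md m (Rt33.fac A a)) C lam L (fun ω => (nV A ω : ℝ)) =
      (∑ k ∈ Finset.range (K + 1), (k : ℝ) * (g k * a ^ k)) /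
        ∑ k ∈ Finset.range (K + 1), g k * a ^ k := by
    unfold ex
    rw [hX', hgen]
    have q := hsum1 fun k => a ^ k * (k : ℝ)
    rw [q]
    congr 1
    exact Finset.sum_congr rfl fun k _ => by ring
  have c3 : ex (md m (Rt33.fac A a)) C lam L (fun ω => chi C (Al S) v ω * (nV A ω : ℝ)) =
      (∑ k ∈ Finset.range (K + 1), (k : ℝ) * (h k * a ^ k)) /
        ∑ k ∈ Finset.range (K + 1), g k * a ^ k := by
    unfold ex
    rw [hX', hgen]
    have q := hsum2 fun k => a ^ k * (k : ℝ)
    have q1 : ∫ ω, a ^ nV A ω * (chi C (Al S) v ω * (nV A ω : ℝ)) ∂G =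
        ∫ ω, a ^ nV A ω * (nV A ω : ℝ) * chi C (Al S) v ω ∂G := by
      congr 1
      funext ω
      ring
    rw [q1, q]
    congr 1
    exact Finset.sum_congr rfl fun k _ => by ring
  obtain ⟨-, -, -, -, -, -, -, h8'⟩ := hO S (md m (Rt33.fac A a)) C L lam b K hS'
  have hdec := hD S (md m (Rt33.fac A a)) C L lam b ε K hS' hε (hP' ε hε hP) φ s hφ hφb hφL hγ
    (chi C (Al S) v) (fun ω => (nV A ω : ℝ)) (h8' v) (Vn.fn_nV hS' hAm)
  rw [c1, c2, c3] at hdec
  refine hdec.trans ?_
  have hSv : MeasurableSet {p | C v p} := measurable_prodMk_left hS.meas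
  -- energy of `chi`
  have en1 : en (md m (Rt33.fac A a)) C lam L (fun x => Real.exp (2 * φ x)) (chi C (Al S) v)
      (chi C (Al S) v) ≤ lam * b := by
    unfold en
    refine mul_le_mul_of_nonneg_left ?_ hS.lam_nonneg
    have hLf : (md m (Rt33.fac A a)) L ≠ ⊤ := hS'.fin
    have hfl : IsFiniteMeasure ((md m (Rt33.fac A a)).restrict L) :=
      ⟨by rw [Measure.restrict_apply_univ]; exact lt_top_iff_ne_top.2 hLf⟩
    have key : ∀ p, 0 ≤ Real.exp (2 * φ p) * ex (md m (Rt33.fac A a)) C lam L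
        (fun ω => chi C (Al S) p ω * D (chi C (Al S) v) p ω * D (chi C (Al S) v) p ω) ∧
        Real.exp (2 * φ p) * ex (md m (Rt33.fac A a)) C lam L
        (fun ω => chi C (Al S) p ω * D (chi C (Al S) v) p ω * D (chi C (Al S) v) p ω) ≤
        {p | C v p}.indicator (fun _ => (1 : ℝ)) p := by
      intro p
      by_cases hp : C v p
      · have e : (fun ω => chi C (Al S) p ω * D (chi C (Al S) v) p ω * D (chi C (Al S) v) p ω) =
            fun ω => chi C (Al S) p ω * chi C (Al S) v ω := by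
          funext ω
          unfold D
          rw [chi_ins C v p ω hp]
          rcases DecayAux.chi_cases C v ω with q | q
          · rw [q]; ring
          · rw [q]; ring
        have hm := ex_mem (m := md m (Rt33.fac A a)) (C := C) (lam := lam) (L := L)
          (f := fun ω => chi C (Al S) p ω * chi C (Al S) v ω)
          (fun ω => by
            rcases DecayAux.chi_cases C v ω with q | q <;>
            rcases DecayAux.chi_cases C p ω with q' | q' <;> rw [q, q'] <;> norm_num)
          (fun ω => by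
            rcases DecayAux.chi_cases C v ω with q | q <;>
            rcases DecayAux.chi_cases C p ω with q' | q' <;> rw [q, q'] <;> norm_num)
        rw [e, hv p hp, mul_zero, Real.exp_zero, one_mul, Set.indicator_of_mem (by exact hp)]
        exact hm
      · have e : (fun ω => chi C (Al S) p ω * D (chi C (Al S) v) p ω * D (chi C (Al S) v) p ω) =
            fun _ => 0 := by
          funext ω
          unfold D
          rw [chi_ins' C v p ω hp]
          ring
        rw [e, Set.indicator_of_notMem (by exact hp)]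
        have : ex (md m (Rt33.fac A a)) C lam L (fun _ => 0) = 0 := by
          unfold ex
          simp
        rw [this, mul_zero]
        exact ⟨le_rfl, le_rfl⟩
    have hi := integral_mono_of_nonneg (μ := (md m (Rt33.fac A a)).restrict L)
      (Eventually.of_forall fun p => (key p).1)
      ((integrable_const (1 : ℝ)).indicator hSv) (Eventually.of_forall fun p => (key p).2)
    refine hi.trans ?_
    rw [integral_indicator_const _ hSv, smul_eq_mul, mul_one]
    have h1 : ((md m (Rt33.fac A a)).restrict L) {p | C v p} ≤ ENNReal.ofReal b :=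
      (Measure.restrict_apply_le _ _).trans (hS'.ball v)
    exact ENNReal.toReal_le_of_le_ofReal hS.b_pos.le h1
  -- energy of the number of points
  have en2 : en (md m (Rt33.fac A a)) C lam L (fun x => Real.exp (-(2 * φ x)))
      (fun ω => (nV A ω : ℝ)) (fun ω => (nV A ω : ℝ)) ≤ a * J := by
    unfold en
    rw [SysAx.int_md_restrict m hU hS.measL]
    have hfl : IsFiniteMeasure (m.restrict L) :=
      ⟨by rw [Measure.restrict_apply_univ]; exact lt_top_iff_ne_top.2 hS.fin⟩
    obtain ⟨B, hB⟩ := hφb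
    have hex : Integrable (fun x => Real.exp (-(2 * φ x))) (m.restrict L) := by
      refine Integrable.of_bound (C := Real.exp (2 * B))
        ((hφ.const_mul 2).neg.exp).aestronglyMeasurable (Eventually.of_forall fun x => ?_)
      rw [Real.norm_eq_abs, abs_of_pos (Real.exp_pos _)]
      refine Real.exp_le_exp.2 ?_
      have := neg_abs_le (φ x)
      have := hB x
      linarith
    have key : ∀ p, 0 ≤ Rt33.fac A a p * (Real.exp (-(2 * φ p)) *
        ex (md m (Rt33.fac A a)) C lam L (fun ω => chi C (Al S) p ω *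
          D (fun ω => (nV A ω : ℝ)) p ω * D (fun ω => (nV A ω : ℝ)) p ω)) ∧
        Rt33.fac A a p * (Real.exp (-(2 * φ p)) *
        ex (md m (Rt33.fac A a)) C lam L (fun ω => chi C (Al S) p ω *
          D (fun ω => (nV A ω : ℝ)) p ω * D (fun ω => (nV A ω : ℝ)) p ω)) ≤
        A.indicator (fun p => a * Real.exp (-(2 * φ p))) p := by
      intro p
      have e : (fun ω => chi C (Al S) p ω *
          D (fun ω => (nV A ω : ℝ)) p ω * D (fun ω => (nV A ω : ℝ)) p ω) =
          fun ω => chi C (Al S) p ω * (Vn.iA A p * Vn.iA A p) := by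
        funext ω
        rw [Vn.D_nV]
        ring
      rw [e]
      by_cases hp : p ∈ A
      · have hm := ex_mem (m := md m (Rt33.fac A a)) (C := C) (lam := lam) (L := L)
          (f := fun ω => chi C (Al S) p ω * (Vn.iA A p * Vn.iA A p))
          (fun ω => by
            rw [Vn.iA_mem hp]
            rcases DecayAux.chi_cases C p ω with q' | q' <;> rw [q'] <;> norm_num)
          (fun ω => by
            rw [Vn.iA_mem hp]
            rcases DecayAux.chi_cases C p ω with q' | q' <;> rw [q'] <;> norm_num)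
        rw [Rt33.fac_mem hp, Set.indicator_of_mem hp]
        refine ⟨mul_nonneg ha0.le (mul_nonneg (Real.exp_pos _).le hm.1), ?_⟩
        refine mul_le_mul_of_nonneg_left ?_ ha0.le
        calc _ ≤ Real.exp (-(2 * φ p)) * 1 :=
              mul_le_mul_of_nonneg_left hm.2 (Real.exp_pos _).le
          _ = _ := mul_one _
      · rw [Vn.iA_not hp, Set.indicator_of_notMem hp]
        have : ex (md m (Rt33.fac A a)) C lam L
            (fun ω => chi C (Al S) p ω * ((0 : ℝ) * 0)) = 0 := by
          unfold ex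
          simp
        rw [this, mul_zero, mul_zero]
        exact ⟨le_rfl, le_rfl⟩
    have hi := integral_mono_of_nonneg (μ := m.restrict L)
      (Eventually.of_forall fun p => (key p).1)
      ((hex.const_mul a).indicator hAm) (Eventually.of_forall fun p => (key p).2)
    have e3 : ∫ p in L, A.indicator (fun p => a * Real.exp (-(2 * φ p))) p ∂m =
        a * ∫ x in L \ M, Real.exp (-(2 * φ x)) ∂m := by
      rw [integral_indicator hAm, Measure.restrict_restrict hAm, integral_const_mul]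
      congr 2
      congr 1
      rw [hAd]
      exact Set.inter_eq_left.2 Set.sdiff_subset
    rw [e3] at hi
    calc _ ≤ lam * (a * ∫ x in L \ M, Real.exp (-(2 * φ x)) ∂m) :=
          mul_le_mul_of_nonneg_left hi hS.lam_nonneg
      _ = a * (lam * ∫ x in L \ M, Real.exp (-(2 * φ x)) ∂m) := by ring
      _ ≤ a * J := mul_le_mul_of_nonneg_left hJ ha0.le
  have s1 := Real.sqrt_le_sqrt en1
  have s2 := Real.sqrt_le_sqrt en2
  have s3 : √(a * J) = t * √J := by
    rw [Real.sqrt_mul ha0.le, had, Real.sqrt_sq ht0.le]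
  rw [s3] at s2
  have hγi : 0 ≤ γ⁻¹ := (inv_pos.2 hγ).le
  calc _ ≤ γ⁻¹ * (√(lam * b) * (t * √J)) :=
        mul_le_mul_of_nonneg_left (mul_le_mul s1 s2 (Real.sqrt_nonneg _) (Real.sqrt_nonneg _)) hγi
    _ = γ⁻¹ * (√(lam * b) * √J) * t := by ring

end Pool.Agent.HdGas
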