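import Pool.Agent.Lib.NT.Top
import Pool.Agent.Lib.NT.Xoff
import Pool.Agent.Lib.MF.Xiz

/-!
# The logarithmic derivative of the partition function in a strip
-/

set_option autoImplicit false

namespace Pool.Agent.HdGas

open MeasureTheory Filter Topology Pool.Agent.SquareWellGas Pool.Agent.KacGas Pool.Agent.VdwGas

namespace An

variable {S : Type} [MeasurableSpace S]

theorem pi_smul (m : Measure S) (c : ENNReal) [SigmaFinite m] [SigmaFinite (c • m)] (n : ℕ) :
    (Measure.pi fun _ : Fin n => c • m) = c ^ n • Measure.pi fun _ : Fin n => m := by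
  refine Measure.pi_eq fun s hs => ?_
  rw [Measure.smul_apply, Measure.pi_pi, smul_eq_mul]
  simp only [Measure.smul_apply, smul_eq_mul]
  rw [Finset.prod_mul_distrib]
  simp

theorem pois_const (m : Measure S) [SigmaFinite m] {lam a : ℝ} (hlam : 0 ≤ lam) (ha : 0 ≤ a)
    (L : Set S) (hs : SigmaFinite (md m fun _ => a)) :
    pois (md m fun _ => a) lam L = pois m (lam * a) L := by
  have h1 : (md m fun _ => a).restrict L = ENNReal.ofReal a • m.restrict L := by
    unfold md
    rw [withDensity_const, Measure.restrict_smul]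
  unfold pois
  congr 1
  funext n
  rw [h1]
  have h2 : SigmaFinite (ENNReal.ofReal a • m.restrict L) := by
    rw [← h1]
    infer_instance
  rw [pi_smul (m.restrict L) (ENNReal.ofReal a) n, Measure.map_smul, smul_smul, mul_pow,
    mul_div_right_comm, ENNReal.ofReal_mul (by positivity), ENNReal.ofReal_pow ha]

/-- number of configurations -/
noncomputable def cn (m : Measure S) (C : S → S → Prop) (L : Set S) (n : ℕ) : ℝ :=
  ((Measure.pi fun _ : Fin n => m.restrict L) {x | hc C ⟨n, x⟩}).toReal / n.factorial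

theorem meas_num (n : ℕ) : MeasurableSet {ω : Om S | ω.1 = n} := by
  have h1 : Measurable fun ω : Om S => ω.1 := measurable_om fun k => measurable_const
  exact h1 (measurableSet_singleton n)

theorem gib_num (m : Measure S) [SigmaFinite m] {C : S → S → Prop} {lam : ℝ} {L : Set S}
    (hhc : MeasurableSet {ω : Om S | hc C ω}) (hlam : 0 ≤ lam) (n : ℕ) :
    (gib m C lam L).real {ω | ω.1 = n} = lam ^ n * cn m C L n := by
  have h1 : gib m C lam L {ω | ω.1 = n} = ENNReal.ofReal (lam ^ n / n.factorial) *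
      (Measure.pi fun _ : Fin n => m.restrict L) {x | hc C ⟨n, x⟩} := by
    unfold gib
    rw [Measure.restrict_apply (meas_num n), pois_apply m lam L ((meas_num n).inter hhc),
      tsum_eq_single n]
    · congr 2
      ext x
      simp
    · intro k hk
      have : {x : Fin k → S | (⟨k, x⟩ : Om S) ∈ {ω : Om S | ω.1 = n} ∩ {ω | hc C ω}} = ∅ := by
        ext x
        simp [hk]
      rw [this, measure_empty, mul_zero]
  rw [Measure.real, h1, ENNReal.toReal_mul, ENNReal.toReal_ofReal (by positivity)]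
  unfold cn
  ring

theorem int_num (m : Measure S) [SigmaFinite m] {C : S → S → Prop} {lam : ℝ} {L : Set S}
    (hhc : MeasurableSet {ω : Om S | hc C ω}) (hlam : 0 ≤ lam)
    [IsFiniteMeasure (gib m C lam L)] {K : ℕ} (hK : ∀ᵐ ω ∂gib m C lam L, ω.1 ≤ K) (h : ℕ → ℂ) :
    ∫ ω, h ω.1 ∂gib m C lam L
      = ∑ n ∈ Finset.range (K + 1), h n * ((lam ^ n * cn m C L n : ℝ) : ℂ) := by
  have h1 : (fun ω : Om S => h ω.1) =ᵐ[gib m C lam L] fun ω =>
      ∑ n ∈ Finset.range (K + 1), ({ω : Om S | ω.1 = n}.indicator fun _ => h n) ω := by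
    filter_upwards [hK] with ω hω
    rw [Finset.sum_eq_single_of_mem ω.1 (Finset.mem_range.mpr (by omega))]
    · rw [Set.indicator_of_mem (show ω ∈ {ω' : Om S | ω'.1 = ω.1} from rfl)]
    · intro n _ hn
      rw [Set.indicator_of_notMem]
      exact fun h' => hn h'.symm
  rw [integral_congr_ae h1, integral_finsetSum]
  · refine Finset.sum_congr rfl fun n _ => ?_
    rw [integral_indicator_const _ (meas_num n), gib_num m hhc hlam n, Complex.real_smul,
      mul_comm]
  · intro n _
    exact (integrable_const _).indicator (meas_num n)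

end An

open An in
theorem anh_of (hLd : LOGD) (hA : SYSA) (hB : SYSB) : ANH := by
  intro d hd lam θ0 ℓ hlam _ hℓ hZ
  obtain ⟨K, hS⟩ := hB d hd lam ℓ hlam.le hℓ.le
  have hbas : ∀ x : ℝ, 0 ≤ x → IsFiniteMeasure (gib volume (Cb d) x (Box d ℓ)) := fun x hx =>
    (bas (Fin d → ℝ) volume (Cb d) (Box d ℓ) x hS.meas hS.measL hS.fin hx).2.2.1
  have hhc : MeasurableSet {ω : Om (Fin d → ℝ) | hc (Cb d) ω} :=
    (bas (Fin d → ℝ) volume (Cb d) (Box d ℓ) lam hS.meas hS.measL hS.fin hlam.le).1
  have hK : ∀ x : ℝ, ∀ᵐ ω ∂gib volume (Cb d) x (Box d ℓ), ω.1 ≤ K := by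
    intro x
    unfold gib
    filter_upwards [ae_restrict_of_ae (Mark.ae_mem volume x hS.measL),
      ae_restrict_mem hhc] with ω h1 h2
    exact hS.card ω h2 h1
  set c : ℕ → ℝ := cn volume (Cb d) (Box d ℓ) with hc
  -- sums
  have hint : ∀ (x : ℝ), 0 ≤ x → ∀ h : ℕ → ℂ, ∫ ω, h ω.1 ∂gib volume (Cb d) x (Box d ℓ)
      = ∑ n ∈ Finset.range (K + 1), h n * ((x ^ n * c n : ℝ) : ℂ) := by
    intro x hx h
    have := hbas x hx
    exact int_num volume hhc hx (hK x) h
  let Zc : ℂ → ℂ := fun w => ∑ n ∈ Finset.range (K + 1), (c n : ℂ) * Complex.exp (n * w)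
  let Zd : ℂ → ℂ := fun w => ∑ n ∈ Finset.range (K + 1), (c n : ℂ) * (n * Complex.exp (n * w))
  have hder : ∀ w, HasDerivAt Zc (Zd w) w := by
    intro w
    refine HasDerivAt.fun_sum fun n _ => ?_
    have h1 : HasDerivAt (fun w : ℂ => Complex.exp (n * w)) (Complex.exp (n * w) * (n * 1)) w :=
      (((hasDerivAt_id w).const_mul (n : ℂ))).cexp
    refine (h1.const_mul (c n : ℂ)).congr_deriv ?_
    ring
  have hderd : Differentiable ℂ Zd := by
    intro w
    refine DifferentiableAt.fun_sum fun n _ => ?_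
    fun_prop
  -- the constant activity function
  have hkey : ∀ w : ℂ, w.re < Real.log lam → |w.im| < θ0 →
      Zc w ≠ 0 ∧ ‖Zd w‖ ≤ 2 * lam * ℓ ^ d * ‖Zc w‖ := by
    intro w hw hwi
    set a : ℝ := Real.exp w.re / lam with ha
    have ha0 : 0 < a := by positivity
    have ha1 : a ≤ 1 := by
      rw [ha, div_le_one hlam]
      exact ((Real.lt_log_iff_exp_lt hlam).mp hw).le
    have hla : lam * a = Real.exp w.re := by
      rw [ha]
      field_simp
    have hU : U01 (fun _ : Fin d → ℝ => a) := ⟨measurable_const, fun _ => ⟨ha0.le, ha1⟩⟩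
    obtain ⟨hsf, -, -⟩ := hA _ volume (Cb d) (Box d ℓ) lam (bv d) K hS _ hU
    have hg : gib (md volume fun _ : Fin d → ℝ => a) (Cb d) lam (Box d ℓ)
        = gib volume (Cb d) (Real.exp w.re) (Box d ℓ) := by
      unfold gib
      rw [pois_const volume hlam.le ha0.le (Box d ℓ) hsf, hla]
    have hterm : ∀ n : ℕ, Complex.exp (Complex.I * w.im * n)
        * ((Real.exp w.re ^ n * c n : ℝ) : ℂ) = (c n : ℂ) * Complex.exp (n * w) := by
      intro n
      have e1 : (n : ℂ) * w = Complex.I * w.im * n + n * (w.re : ℂ) := by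
        conv_lhs => rw [← Complex.re_add_im w]
        ring
      rw [e1, Complex.exp_add, Complex.exp_nat_mul]
      push_cast
      ring
    have hXa : Xa volume (Cb d) lam (Box d ℓ) w.im (fun _ => a) = Zc w := by
      unfold Xa
      rw [hg, hint _ (Real.exp_pos _).le fun n => Complex.exp (Complex.I * w.im * n)]
      exact Finset.sum_congr rfl fun n _ => hterm n
    have hXd : ∫ ω, (ω.1 : ℂ) * Complex.exp (Complex.I * w.im * ω.1)
        ∂gib (md volume fun _ : Fin d → ℝ => a) (Cb d) lam (Box d ℓ) = Zd w := by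
      rw [hg, hint _ (Real.exp_pos _).le fun n => (n : ℂ) * Complex.exp (Complex.I * w.im * n)]
      refine Finset.sum_congr rfl fun n _ => ?_
      rw [mul_assoc, hterm n]
      ring
    have h1 := hZ w.im hwi.le
    refine ⟨?_, ?_⟩
    · rw [← hXa]
      exact (h1 _ hU).1
    · have h2 := hLd _ volume (Cb d) (Box d ℓ) lam (bv d) K hS w.im 1 zero_le_one h1 _ hU
      rw [hXd, hXa, Bdr.vol_Box hℓ.le] at h2
      linarith
  refine ⟨fun w => Zd w / Zc w, ?_, ?_, ?_⟩
  · intro w hw
    refine DifferentiableAt.differentiableWithinAt ?_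
    exact (hderd w).div (hder w).differentiableAt (hkey w hw.1 hw.2).1
  · intro w hw hwi
    obtain ⟨h1, h2⟩ := hkey w hw hwi
    rw [norm_div, div_le_iff₀ (norm_pos_iff.mpr h1)]
    exact h2
  · intro μ hμ
    -- the real partition function
    have hXi : ∀ x : ℝ, Xi volume (Cb d) (Real.exp x) (Box d ℓ)
        = ∑ n ∈ Finset.range (K + 1), c n * Real.exp (n * x) := by
      intro x
      have h1 := hint (Real.exp x) (Real.exp_pos x).le fun _ => 1
      rw [integral_const, Complex.real_smul, mul_one] at h1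
      have h2 : ((Xi volume (Cb d) (Real.exp x) (Box d ℓ) : ℝ) : ℂ)
          = ((∑ n ∈ Finset.range (K + 1), c n * Real.exp (n * x) : ℝ) : ℂ) := by
        rw [Complex.ofReal_sum]
        refine Eq.trans ?_ (h1.trans (Finset.sum_congr rfl fun n _ => ?_))
        · rfl
        · rw [one_mul, Real.exp_nat_mul, mul_comm]
      exact_mod_cast h2
    have hreal : ∀ x : ℝ, Zc x = ((∑ n ∈ Finset.range (K + 1), c n * Real.exp (n * x) : ℝ) : ℂ) := by
      intro x
      push_cast
      rfl
    have hreald : ∀ x : ℝ, Zd x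
        = ((∑ n ∈ Finset.range (K + 1), c n * (n * Real.exp (n * x)) : ℝ) : ℂ) := by
      intro x
      push_cast
      rfl
    have hpos : ∑ n ∈ Finset.range (K + 1), c n * Real.exp (n * μ) ≠ 0 := by
      have h1 := (bas (Fin d → ℝ) volume (Cb d) (Box d ℓ) (Real.exp μ) hS.meas hS.measL hS.fin
        (Real.exp_pos μ).le).2.2.2.1
      rw [hXi μ] at h1
      linarith
    have h3 : (Zd (μ : ℂ) / Zc (μ : ℂ)).re = (∑ n ∈ Finset.range (K + 1),
        c n * (n * Real.exp (n * μ))) / ∑ n ∈ Finset.range (K + 1), c n * Real.exp (n * μ) := by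
      rw [hreal, hreald, ← Complex.ofReal_div, Complex.ofReal_re]
    show HasDerivAt _ (Zd (μ : ℂ) / Zc (μ : ℂ)).re μ
    rw [h3]
    simp only [hXi]
    refine HasDerivAt.log ?_ hpos
    refine HasDerivAt.fun_sum fun n _ => ?_
    have h4 : HasDerivAt (fun x : ℝ => Real.exp (n * x)) (Real.exp (n * μ) * (n * 1)) μ :=
      ((hasDerivAt_id μ).const_mul (n : ℝ)).exp
    refine (h4.const_mul (c n)).congr_deriv ?_
    ring

end Pool.Agent.HdGas
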