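import Pool.Agent.Lib.NT.Top

/-!
# Hard spheres: row ANP, the pressure is analytic (helper70)
-/

set_option autoImplicit false

namespace Pool.Agent.HdGas

open MeasureTheory Filter Topology Pool.Agent.SquareWellGas Pool.Agent.KacGas Pool.Agent.VdwGas

theorem anp_of (hZ : ZFB) (hA : ANH) (hL : LIMAN) : ANP := by
  intro d hd ε hε hF P hP μ hμ
  -- a slightly larger activity
  obtain ⟨lam, hlam, hlam2⟩ : ∃ lam : ℝ, Real.exp μ < lam ∧ lam * bv d * ε < 1 := by
    have hc : Continuous fun x : ℝ => x * bv d * ε :=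
      (continuous_id.mul continuous_const).mul continuous_const
    have h1 : ∀ᶠ x in 𝓝 (Real.exp μ), x * bv d * ε < 1 :=
      hc.continuousAt.eventually_lt continuousAt_const hμ
    have h2 : ∀ᶠ x in 𝓝[>] (Real.exp μ), x * bv d * ε < 1 := h1.filter_mono nhdsWithin_le_nhds
    obtain ⟨x, hx, hx2⟩ := (h2.and self_mem_nhdsWithin).exists
    exact ⟨x, hx2, hx⟩
  have hlam0 : 0 < lam := (Real.exp_pos μ).trans hlam
  have hlog : μ < Real.log lam := by
    rw [Real.lt_log_iff_exp_lt hlam0]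
    exact hlam
  obtain ⟨θ0, hθ0, hZF⟩ := hZ d hd ε lam hε hF hlam0.le hlam2
  have hr : 0 < min θ0 (Real.log lam - μ) := lt_min hθ0 (sub_pos.2 hlog)
  refine hL (fun k x => Real.log (Xi volume (Cb d) (Real.exp x) (Box d ((k : ℝ) + 1))) /
    ((k : ℝ) + 1) ^ d) P μ (min θ0 (Real.log lam - μ)) (2 * lam) hr ?_ ?_
  · intro x _
    exact (hP x).comp (tendsto_atTop_add_const_right _ _ tendsto_natCast_atTop_atTop)
  · intro k
    have hℓ : (0 : ℝ) < (k : ℝ) + 1 := by positivity
    have hℓd : (0 : ℝ) < ((k : ℝ) + 1) ^ d := by positivity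
    obtain ⟨g, hg1, hg2, hg3⟩ := hA d hd lam θ0 ((k : ℝ) + 1) hlam0 hθ0 hℓ
      fun θ hθ => hZF _ hℓ.le θ hθ
    have hball : ∀ w ∈ Metric.ball (μ : ℂ) (min θ0 (Real.log lam - μ)),
        w.re < Real.log lam ∧ |w.im| < θ0 := by
      intro w hw
      rw [mem_ball_iff_norm] at hw
      have h1 := (Complex.abs_re_le_norm (w - μ)).trans_lt hw
      have h2 := (Complex.abs_im_le_norm (w - μ)).trans_lt hw
      rw [Complex.sub_re, Complex.ofReal_re] at h1
      rw [Complex.sub_im, Complex.ofReal_im, sub_zero] at h2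
      refine ⟨?_, h2.trans_le (min_le_left _ _)⟩
      have h3 := (le_abs_self _).trans_lt (h1.trans_le (min_le_right _ _))
      linarith
    refine ⟨fun w => g w / (((k : ℝ) + 1 : ℝ) : ℂ) ^ d, ?_, ?_, ?_⟩
    · refine (hg1.mono fun w hw => ?_).div_const _
      exact hball w hw
    · intro w hw
      obtain ⟨h1, h2⟩ := hball w hw
      rw [norm_div, norm_pow, Complex.norm_real, Real.norm_of_nonneg hℓ.le, div_le_iff₀ hℓd]
      exact hg2 w h1 h2
    · intro x hx
      have h1 : x < Real.log lam := by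
        have := (le_abs_self _).trans_lt (hx.trans_le (min_le_right _ _))
        linarith
      have h2 := (hg3 x h1).div_const (((k : ℝ) + 1) ^ d)
      have h3 : (g x / (((k : ℝ) + 1 : ℝ) : ℂ) ^ d).re = (g x).re / ((k : ℝ) + 1) ^ d := by
        rw [← Complex.ofReal_pow, Complex.div_ofReal_re]
      rw [h3]
      exact h2

end Pool.Agent.HdGas
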