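import Pool.Agent.Lib.NT.Xoff
import Pool.Agent.Lib.MF.Split
import Pool.Agent.Lib.MF.Meas
import Pool.Agent.Lib.MF.Bas

/-!
# Hard-core gases, complex activities: row BLOCK
-/

set_option autoImplicit false

namespace Pool.Agent.HdGas

open MeasureTheory Filter Topology

namespace Blk

variable {S : Type} [MeasurableSpace S]

theorem meas_app : Measurable fun q : Om S × Om S => app q.1 q.2 := by
  refine measurable_prod_om fun k => ?_
  have h : Measurable fun q : (Fin k → S) × Om S => app q.2 ⟨k, q.1⟩ := by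
    refine measurable_prod_om fun j => ?_
    exact (measurable_mk (j + k)).comp ((measurable_append j k).comp measurable_swap)
  exact h.comp measurable_swap

theorem pois_restrict (m : Measure S) [SigmaFinite m] (lam : ℝ) {T B : Set S}
    (hT : MeasurableSet T) (hTB : T ⊆ B) :
    (pois m lam B).restrict {ω : Om S | ∀ i, ω.2 i ∈ T} = pois m lam T := by
  ext s hs
  rw [Measure.restrict_apply hs, ← lintegral_indicator_one (hs.inter (Mark.meas_all hT)),
    ← lintegral_indicator_one hs,
    ← Mark.lint_sub m lam hT hTB (measurable_one.indicator hs)]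
  apply lintegral_congr
  intro ω
  rw [Set.indicator_indicator, Set.inter_comm]

/-- Real version of SPLIT for bounded functions. -/
theorem rsplit {m : Measure S} [SigmaFinite m] {lam : ℝ} (hlam : 0 ≤ lam) {A B : Set S}
    (hA : MeasurableSet A) (hB : MeasurableSet B) (hAB : Disjoint A B) (fA : m A ≠ ⊤)
    (fB : m B ≠ ⊤) {F : Om S → ℝ} (hF : Measurable F) (hS : Sym F) {M : ℝ}
    (hM : ∀ ω, |F ω| ≤ M) :
    ∫ ω, F ω ∂pois m lam (A ∪ B) = ∫ ω, ∫ η, F (app ω η) ∂pois m lam B ∂pois m lam A := by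
  have i1 : IsFiniteMeasure (pois m lam A) :=
    ⟨by rw [pois_univ m hlam fA]; exact ENNReal.ofReal_lt_top⟩
  have i2 : IsFiniteMeasure (pois m lam B) :=
    ⟨by rw [pois_univ m hlam fB]; exact ENNReal.ofReal_lt_top⟩
  have fAB : m (A ∪ B) ≠ ⊤ := ((measure_union_le A B).trans_lt
    (ENNReal.add_lt_top.2 ⟨fA.lt_top, fB.lt_top⟩)).ne
  have i3 : IsFiniteMeasure (pois m lam (A ∪ B)) :=
    ⟨by rw [pois_univ m hlam fAB]; exact ENNReal.ofReal_lt_top⟩
  -- the nonnegative case
  have key : ∀ G : Om S → ℝ, Measurable G → Sym G → (∀ ω, 0 ≤ G ω) → (∃ N, ∀ ω, G ω ≤ N) →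
      ∫ ω, G ω ∂pois m lam (A ∪ B) = ∫ ω, ∫ η, G (app ω η) ∂pois m lam B ∂pois m lam A := by
    intro G hG hGS h0 ⟨N, hN⟩
    have hE : Measurable fun ω => ENNReal.ofReal (G ω) := hG.ennreal_ofReal
    have hs : Sym fun ω => ENNReal.ofReal (G ω) := fun n x σ => by
      show ENNReal.ofReal _ = ENNReal.ofReal _
      rw [hGS n x σ]
    have hinner : ∀ ω, ∫ η, G (app ω η) ∂pois m lam B =
        (∫⁻ η, ENNReal.ofReal (G (app ω η)) ∂pois m lam B).toReal := by
      intro ω
      rw [integral_eq_lintegral_of_nonneg_ae (ae_of_all _ fun _ => h0 _)]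
      exact (hG.comp (meas_app.comp measurable_prodMk_left)).aestronglyMeasurable
    have hmi : Measurable fun ω => ∫⁻ η, ENNReal.ofReal (G (app ω η)) ∂pois m lam B :=
      Measurable.lintegral_prod_right (hE.comp meas_app)
    rw [integral_eq_lintegral_of_nonneg_ae (ae_of_all _ h0) hG.aestronglyMeasurable,
      split S m lam hlam A B hA hB hAB _ hE hs]
    simp only [hinner]
    rw [integral_toReal hmi.aemeasurable]
    refine ae_of_all _ fun ω => ?_
    calc ∫⁻ η, ENNReal.ofReal (G (app ω η)) ∂pois m lam B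
        ≤ ∫⁻ η, ENNReal.ofReal N ∂pois m lam B :=
          lintegral_mono fun η => ENNReal.ofReal_le_ofReal (hN _)
      _ < ⊤ := by
          rw [lintegral_const]
          exact ENNReal.mul_lt_top ENNReal.ofReal_lt_top (measure_lt_top _ _)
  have hM' : 0 ≤ M := (abs_nonneg _).trans (hM ⟨0, Fin.elim0⟩)
  have k1 := key (fun ω => F ω + M) (hF.add_const M)
    (fun n x σ => by show _ + _ = _ + _; rw [hS n x σ])
    (fun ω => by have := abs_le.1 (hM ω); linarith [this.1])
    ⟨M + M, fun ω => by have := abs_le.1 (hM ω); linarith [this.2]⟩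
  have k2 := key (fun _ => M) measurable_const (fun _ _ _ => rfl) (fun _ => hM') ⟨M, fun _ => le_rfl⟩
  have j1 : Integrable F (pois m lam (A ∪ B)) :=
    Integrable.of_bound hF.aestronglyMeasurable M (ae_of_all _ hM)
  have j2 : ∀ ω, Integrable (fun η => F (app ω η)) (pois m lam B) := fun ω =>
    Integrable.of_bound (hF.comp (meas_app.comp measurable_prodMk_left)).aestronglyMeasurable M
      (ae_of_all _ fun _ => hM _)
  have j3 : Integrable (fun ω => ∫ η, F (app ω η) ∂pois m lam B) (pois m lam A) := by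
    refine Integrable.of_bound ?_ (M * (pois m lam B).real Set.univ) (ae_of_all _ fun ω => ?_)
    · exact ((hF.comp meas_app).stronglyMeasurable.integral_prod_right
        (f := fun ω η => F (app ω η))).aestronglyMeasurable
    · exact norm_integral_le_of_norm_le_const (ae_of_all _ fun η => hM _)
  rw [integral_add j1 (integrable_const M)] at k1
  have k3 : ∀ ω, ∫ η, (F (app ω η) + M) ∂pois m lam B =
      (∫ η, F (app ω η) ∂pois m lam B) + ∫ _η, M ∂pois m lam B := fun ω =>
    integral_add (j2 ω) (integrable_const M)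
  simp only [k3] at k1
  rw [integral_add j3 (integrable_const _)] at k1
  linarith

/-- Complex version of SPLIT for bounded functions. -/
theorem csplit {m : Measure S} [SigmaFinite m] {lam : ℝ} (hlam : 0 ≤ lam) {A B : Set S}
    (hA : MeasurableSet A) (hB : MeasurableSet B) (hAB : Disjoint A B) (fA : m A ≠ ⊤)
    (fB : m B ≠ ⊤) {F : Om S → ℂ} (hF : Measurable F) (hS : Sym F) {M : ℝ}
    (hM : ∀ ω, ‖F ω‖ ≤ M) :
    ∫ ω, F ω ∂pois m lam (A ∪ B) = ∫ ω, ∫ η, F (app ω η) ∂pois m lam B ∂pois m lam A := by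
  have i1 : IsFiniteMeasure (pois m lam A) :=
    ⟨by rw [pois_univ m hlam fA]; exact ENNReal.ofReal_lt_top⟩
  have i2 : IsFiniteMeasure (pois m lam B) :=
    ⟨by rw [pois_univ m hlam fB]; exact ENNReal.ofReal_lt_top⟩
  have fAB : m (A ∪ B) ≠ ⊤ := ((measure_union_le A B).trans_lt
    (ENNReal.add_lt_top.2 ⟨fA.lt_top, fB.lt_top⟩)).ne
  have i3 : IsFiniteMeasure (pois m lam (A ∪ B)) :=
    ⟨by rw [pois_univ m hlam fAB]; exact ENNReal.ofReal_lt_top⟩
  have j1 : Integrable F (pois m lam (A ∪ B)) :=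
    Integrable.of_bound hF.aestronglyMeasurable M (ae_of_all _ hM)
  have j2 : ∀ ω, Integrable (fun η => F (app ω η)) (pois m lam B) := fun ω =>
    Integrable.of_bound (hF.comp (meas_app.comp measurable_prodMk_left)).aestronglyMeasurable M
      (ae_of_all _ fun _ => hM _)
  have j3 : Integrable (fun ω => ∫ η, F (app ω η) ∂pois m lam B) (pois m lam A) := by
    refine Integrable.of_bound ?_ (M * (pois m lam B).real Set.univ) (ae_of_all _ fun ω => ?_)
    · exact ((hF.comp meas_app).stronglyMeasurable.integral_prod_right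
        (f := fun ω η => F (app ω η))).aestronglyMeasurable
    · exact norm_integral_le_of_norm_le_const (ae_of_all _ fun η => hM _)
  have hre := rsplit hlam hA hB hAB fA fB (Complex.measurable_re.comp hF)
    (fun n x σ => by show (F _).re = (F _).re; rw [hS n x σ])
    (fun ω => (Complex.abs_re_le_norm _).trans (hM ω))
  have him := rsplit hlam hA hB hAB fA fB (Complex.measurable_im.comp hF)
    (fun n x σ => by show (F _).im = (F _).im; rw [hS n x σ])
    (fun ω => (Complex.abs_im_le_norm _).trans (hM ω))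
  apply Complex.ext
  · have a1 := integral_re j1
    have a2 := integral_re j3
    have a3 : ∀ ω, ∫ η, (F (app ω η)).re ∂pois m lam B =
        (∫ η, F (app ω η) ∂pois m lam B).re := fun ω => integral_re (j2 ω)
    simp only [Function.comp] at hre
    simp only [a3] at hre
    exact a1.symm.trans (hre.trans a2)
  · have a1 := integral_im j1
    have a2 := integral_im j3
    have a3 : ∀ ω, ∫ η, (F (app ω η)).im ∂pois m lam B =
        (∫ η, F (app ω η) ∂pois m lam B).im := fun ω => integral_im (j2 ω)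
    simp only [Function.comp] at him
    simp only [a3] at him
    exact a1.symm.trans (him.trans a2)

/-! ## The places excluded by the points in `V` -/

section vc

variable {C : S → S → Prop} {V : Set S}

omit [MeasurableSpace S] in
theorem mem_Vc {ω : Om S} {z : S} : z ∈ Vc C V ω ↔ z ∈ V ∨ ∃ i, ω.2 i ∈ V ∧ C (ω.2 i) z :=
  Iff.rfl

omit [MeasurableSpace S] in
theorem Vc_sym : Sym (Vc C V) := by
  intro n x σ
  ext z
  simp only [mem_Vc]
  refine or_congr_right ?_
  constructor
  · rintro ⟨i, h⟩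
    exact ⟨σ i, h⟩
  · rintro ⟨i, h⟩
    exact ⟨σ.symm i, by simpa [Function.comp] using h⟩

omit [MeasurableSpace S] in
theorem nV_sym : Sym (nV V) := by
  classical
  intro n x σ
  unfold nV
  refine Finset.card_bij (fun i _ => σ i) ?_ ?_ ?_
  · intro i hi
    simpa using hi
  · intro i _ j _ h
    exact σ.injective h
  · intro i hi
    exact ⟨σ.symm i, by simpa [Function.comp] using hi, by simp⟩

omit [MeasurableSpace S] in
theorem Vc_app {ω η : Om S} (hη : ∀ j, η.2 j ∉ V) : Vc C V (app ω η) = Vc C V ω := by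
  ext z
  simp only [mem_Vc]
  refine or_congr_right ?_
  constructor
  · rintro ⟨i, h⟩
    revert h
    show (app ω η).2 i ∈ V ∧ C ((app ω η).2 i) z → _
    unfold app
    refine Fin.addCases (fun i => ?_) (fun j => ?_) i
    · simp only [Fin.append_left]
      exact fun h => ⟨i, h⟩
    · simp only [Fin.append_right]
      exact fun h => absurd h.1 (hη j)
  · rintro ⟨i, h⟩
    refine ⟨Fin.castAdd η.1 i, ?_⟩
    simpa only [app, Fin.append_left] using h

omit [MeasurableSpace S] in
theorem nV_eq_sum (ω : Om S) : nV V ω = ∑ i, V.indicator (fun _ => (1 : ℕ)) (ω.2 i) := by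
  classical
  unfold nV
  rw [Finset.card_filter]
  rfl

omit [MeasurableSpace S] in
theorem nV_app (ω η : Om S) : nV V (app ω η) = nV V ω + nV V η := by
  rw [nV_eq_sum, nV_eq_sum, nV_eq_sum]
  show ∑ i : Fin (ω.1 + η.1), V.indicator (fun _ => (1 : ℕ)) (Fin.append ω.2 η.2 i) = _
  rw [Fin.sum_univ_add]
  simp only [Fin.append_left, Fin.append_right]

omit [MeasurableSpace S] in
theorem nV_out {η : Om S} (hη : ∀ j, η.2 j ∉ V) : nV V η = 0 := by
  rw [nV_eq_sum]
  exact Finset.sum_eq_zero fun i _ => Set.indicator_of_notMem (hη i) _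

omit [MeasurableSpace S] in
theorem nV_in {ω : Om S} (hω : ∀ j, ω.2 j ∈ V) : nV V ω = ω.1 := by
  rw [nV_eq_sum, Finset.sum_congr rfl fun i _ => Set.indicator_of_mem (hω i) _]
  simp

theorem meas_nV (hV : MeasurableSet V) : Measurable (nV V : Om S → ℕ) := by
  refine measurable_om fun n => ?_
  simp only [nV_eq_sum]
  show Measurable fun x : Fin n → S => ∑ i : Fin n, V.indicator (fun _ => (1 : ℕ)) (x i)
  refine Finset.measurable_fun_sum _ fun i _ => ?_
  have h : Measurable (V.indicator (fun _ : S => (1 : ℕ))) := measurable_const.indicator hV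
  exact h.comp (measurable_pi_apply i)

theorem meas_fst : Measurable (fun ω : Om S => ω.1) := by
  refine measurable_om fun n => ?_
  exact measurable_const

theorem meas_Vc2 (hC : MeasurableSet {p : S × S | C p.1 p.2}) (hV : MeasurableSet V) :
    MeasurableSet {q : S × Om S | q.1 ∈ Vc C V q.2} := by
  refine measurableSet_prod_om fun n => ?_
  have e : {q : S × (Fin n → S) | (q.1, (⟨n, q.2⟩ : Om S)) ∈
      {q : S × Om S | q.1 ∈ Vc C V q.2}} =
      {q | q.1 ∈ V} ∪ ⋃ i : Fin n, ({q | q.2 i ∈ V} ∩ {q | C (q.2 i) q.1}) := by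
    ext q
    simp only [Set.mem_ofPred_eq, mem_Vc, Set.mem_union, Set.mem_iUnion, Set.mem_inter_iff]
  rw [e]
  refine MeasurableSet.union (hV.preimage measurable_fst) (MeasurableSet.iUnion fun i => ?_)
  have hm : Measurable fun q : S × (Fin n → S) => (q.2 i, q.1) :=
    ((measurable_pi_apply i).comp measurable_snd).prodMk measurable_fst
  exact (hV.preimage ((measurable_pi_apply i).comp measurable_snd)).inter (hC.preimage hm)

theorem meas_Vc (hC : MeasurableSet {p : S × S | C p.1 p.2}) (hV : MeasurableSet V) (ω : Om S) :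
    MeasurableSet (Vc C V ω) :=
  (meas_Vc2 hC hV).preimage (measurable_prodMk_right (y := ω))

/-- Joint measurability of `no point of η is in Vc ω`. -/
theorem meas_noVc (hC : MeasurableSet {p : S × S | C p.1 p.2}) (hV : MeasurableSet V) :
    MeasurableSet {q : Om S × Om S | ∀ j, q.2.2 j ∉ Vc C V q.1} := by
  refine measurableSet_prod_om fun n => ?_
  have e : {q : Om S × (Fin n → S) | (q.1, (⟨n, q.2⟩ : Om S)) ∈
      {q : Om S × Om S | ∀ j, q.2.2 j ∉ Vc C V q.1}} =
      ⋂ j : Fin n, ((fun q : Om S × (Fin n → S) => (q.2 j, q.1)) ⁻¹'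
        {q : S × Om S | q.1 ∈ Vc C V q.2})ᶜ := by
    ext q
    simp only [Set.mem_ofPred_eq, Set.mem_iInter, Set.mem_compl_iff, Set.mem_preimage]
  rw [e]
  exact MeasurableSet.iInter fun j => ((meas_Vc2 hC hV).preimage
    (((measurable_pi_apply j).comp measurable_snd).prodMk measurable_fst)).compl

omit [MeasurableSpace S] in
theorem ok_app {L : Set S} {ω η : Om S} (hs : ∀ x y, C x y → C y x)
    (hω : ∀ i, ω.2 i ∈ L ∩ V) (hη : ∀ j, η.2 j ∈ L \ V) :
    ok C L (app ω η) ↔ hc C ω ∧ hc C η ∧ ∀ j, η.2 j ∉ Vc C V ω := by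
  unfold ok hc app
  constructor
  · rintro ⟨H, -⟩
    refine ⟨fun i j hij => ?_, fun i j hij => ?_, fun j => ?_⟩
    · have := H (Fin.castAdd η.1 i) (Fin.castAdd η.1 j)
        (fun e => hij (Fin.castAdd_injective _ _ e))
      simpa only [Fin.append_left] using this
    · have := H (Fin.natAdd ω.1 i) (Fin.natAdd ω.1 j)
        (fun e => hij (Fin.natAdd_injective _ _ e))
      simpa only [Fin.append_right] using this
    · rw [mem_Vc]
      rintro (h | ⟨i, -, h⟩)
      · exact (hη j).2 h
      · have := H (Fin.castAdd η.1 i) (Fin.natAdd ω.1 j) (by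
          intro e
          have := congrArg Fin.val e
          simp at this
          omega)
        simp only [Fin.append_right, Fin.append_left] at this
        exact this h
  · rintro ⟨h1, h2, h3⟩
    have h4 : ∀ i j, ¬ C (ω.2 i) (η.2 j) := fun i j h =>
      h3 j (mem_Vc.2 (Or.inr ⟨i, (hω i).2, h⟩))
    constructor
    · intro i j
      refine Fin.addCases (fun i => ?_) (fun i => ?_) i <;>
        refine Fin.addCases (fun j => ?_) (fun j => ?_) j
      · intro hij
        simp only [Fin.append_left]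
        exact h1 i j fun e => hij (by rw [e])
      · intro _
        simp only [Fin.append_left, Fin.append_right]
        exact h4 i j
      · intro _
        simp only [Fin.append_left, Fin.append_right]
        exact fun h => h4 j i (hs _ _ h)
      · intro hij
        simp only [Fin.append_right]
        exact h2 i j fun e => hij (by rw [e])
    · intro i
      refine Fin.addCases (fun i => ?_) (fun i => ?_) i
      · simp only [Fin.append_left]
        exact (hω i).1
      · simp only [Fin.append_right]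
        exact (hη i).1

end vc

section main

variable {C : S → S → Prop} {V L : Set S} {μ : Measure S} [SigmaFinite μ] {lam b : ℝ} {K : ℕ}

theorem meas_ok (hC : MeasurableSet {p : S × S | C p.1 p.2}) (hL : MeasurableSet L) :
    MeasurableSet {ω : Om S | ok C L ω} :=
  (meas_hc hC).inter (Mark.meas_all hL)

omit [MeasurableSpace S] in
theorem hc_sym : Sym (hc C) := by
  intro n x σ
  apply propext
  constructor
  · intro H i j hij
    have := H (σ.symm i) (σ.symm j) (fun e => hij (σ.symm.injective e))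
    simpa only [Function.comp, Equiv.apply_symm_apply] using this
  · intro H i j hij
    exact H (σ i) (σ j) fun e => hij (σ.injective e)

omit [MeasurableSpace S] in
theorem ok_sym : Sym (ok C L) := by
  intro n x σ
  apply propext
  unfold ok
  rw [hc_sym n x σ]
  refine and_congr_right fun _ => ?_
  constructor
  · intro H i
    have := H (σ.symm i)
    simpa only [Function.comp, Equiv.apply_symm_apply] using this
  · intro H i
    exact H (σ i)

open Classical in
/-- The gas outside `V`, given the points in `V`. -/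
theorem outer (hL : MeasurableSet L) (hC : MeasurableSet {p : S × S | C p.1 p.2})
    (hV : MeasurableSet V) (θ : ℝ) (ω : Om S) :
    ∫ η in {η : Om S | ∀ i, η.2 i ∉ Vc C V ω}, Complex.exp (Complex.I * θ * η.1) ∂gib μ C lam L =
      ∫ η, (if hc C η ∧ ∀ j, η.2 j ∉ Vc C V ω then Complex.exp (Complex.I * θ * η.1) else 0)
        ∂pois μ lam (L \ V) := by
  have hE : MeasurableSet {η : Om S | ∀ i, η.2 i ∉ Vc C V ω} :=
    Mark.meas_all (meas_Vc hC hV ω).compl
  have hH : MeasurableSet {η : Om S | hc C η} := meas_hc hC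
  have hD : MeasurableSet {η : Om S | ∀ i, η.2 i ∈ L \ V} := Mark.meas_all (hL.diff hV)
  rw [← pois_restrict μ lam (hL.diff hV) Set.sdiff_subset]
  unfold gib
  rw [Measure.restrict_restrict hE, ← integral_indicator (hE.inter hH),
    ← integral_indicator hD]
  apply integral_congr_ae
  filter_upwards [Mark.ae_mem μ lam hL] with η hη
  by_cases h1 : hc C η ∧ ∀ j, η.2 j ∉ Vc C V ω
  · have h2 : η ∈ {η : Om S | ∀ i, η.2 i ∈ L \ V} := fun i =>
      ⟨hη i, fun h => h1.2 i (Or.inl h)⟩
    have h3 : η ∈ {η : Om S | ∀ i, η.2 i ∉ Vc C V ω} ∩ {η : Om S | hc C η} := ⟨h1.2, h1.1⟩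
    rw [Set.indicator_of_mem h2, Set.indicator_of_mem h3, if_pos h1]
  · rw [Set.indicator_of_notMem (fun h => h1 ⟨h.2, h.1⟩)]
    by_cases h2 : η ∈ {η : Om S | ∀ i, η.2 i ∈ L \ V}
    · rw [Set.indicator_of_mem h2, if_neg h1]
    · rw [Set.indicator_of_notMem h2]

open Classical in
theorem jform (hSys : Sys μ C L lam b K) (hV : MeasurableSet V) (θ : ℝ) {G : Om S → ℂ}
    (hG : Measurable G) (hS : Sym G) {B : ℝ} (hB : ∀ ω, ok C L ω → ‖G ω‖ ≤ B)
    (hloc : ∀ ω η, (∀ j, η.2 j ∉ V) → G (app ω η) = G ω) :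
    ∫ ω, G ω * Complex.exp (Complex.I * θ * ((ω.1 : ℂ) - nV V ω)) ∂gib μ C lam L =
      ∫ ω, (if hc C ω then G ω * ∫ η in {η : Om S | ∀ i, η.2 i ∉ Vc C V ω},
        Complex.exp (Complex.I * θ * η.1) ∂gib μ C lam L else 0) ∂pois μ lam (L ∩ V) := by
  have hL := hSys.measL
  have hfin := hSys.fin
  set F : Om S → ℂ := fun ω =>
    if ok C L ω then G ω * Complex.exp (Complex.I * θ * ((ω.1 : ℂ) - nV V ω)) else 0 with hF
  have mexp : Measurable fun ω : Om S => Complex.exp (Complex.I * θ * ((ω.1 : ℂ) - nV V ω)) := by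
    apply Complex.measurable_exp.comp
    apply Measurable.const_mul
    exact ((measurable_from_nat (f := fun n : ℕ => (n : ℂ))).comp meas_fst).sub
      ((measurable_from_nat (f := fun n : ℕ => (n : ℂ))).comp (meas_nV hV))
  have mF : Measurable F := Measurable.ite (meas_ok hSys.meas hL) (hG.mul mexp) measurable_const
  have sF : Sym F := by
    intro n x σ
    simp only [hF]
    rw [ok_sym n x σ, hS n x σ, nV_sym n x σ]
  have bF : ∀ ω, ‖F ω‖ ≤ |B| := by
    intro ω
    simp only [hF]
    split_ifs with h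
    · rw [norm_mul, Complex.norm_exp]
      have : (Complex.I * θ * ((ω.1 : ℂ) - nV V ω)).re = 0 := by simp
      rw [this, Real.exp_zero, mul_one]
      exact (hB ω h).trans (le_abs_self B)
    · rw [norm_zero]
      exact abs_nonneg B
  have h1 : ∫ ω, G ω * Complex.exp (Complex.I * θ * ((ω.1 : ℂ) - nV V ω)) ∂gib μ C lam L =
      ∫ ω, F ω ∂pois μ lam L := by
    unfold gib
    rw [← integral_indicator (meas_hc hSys.meas)]
    apply integral_congr_ae
    filter_upwards [Mark.ae_mem μ lam hL] with ω hω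
    by_cases h : hc C ω
    · rw [Set.indicator_of_mem (by exact h)]
      simp only [hF]
      rw [if_pos ⟨h, hω⟩]
    · rw [Set.indicator_of_notMem (by exact h)]
      simp only [hF]
      rw [if_neg fun h' => h h'.1]
  have fA : μ (L ∩ V) ≠ ⊤ := ((measure_mono Set.inter_subset_left).trans_lt hfin.lt_top).ne
  have fB : μ (L \ V) ≠ ⊤ := ((measure_mono Set.sdiff_subset).trans_lt hfin.lt_top).ne
  have h2 := csplit hSys.lam_nonneg (hL.inter hV) (hL.diff hV)
    (Set.disjoint_sdiff_inter.symm) fA fB mF sF bF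
  rw [Set.inter_union_sdiff] at h2
  rw [h1, h2]
  apply integral_congr_ae
  filter_upwards [Mark.ae_mem μ lam (hL.inter hV)] with ω hω
  by_cases h : hc C ω
  · rw [if_pos h, outer hL hSys.meas hV θ ω, ← integral_const_mul]
    apply integral_congr_ae
    filter_upwards [Mark.ae_mem μ lam (hL.diff hV)] with η hη
    have hη' : ∀ j, η.2 j ∉ V := fun j => (hη j).2
    simp only [hF]
    by_cases h3 : hc C η ∧ ∀ j, η.2 j ∉ Vc C V ω
    · rw [if_pos h3, if_pos ((ok_app hSys.symm hω hη).2 ⟨h, h3⟩), hloc ω η hη', nV_app,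
        nV_out hη', nV_in fun j => (hω j).2]
      congr 3
      simp only [app]
      push_cast
      ring
    · rw [if_neg h3, mul_zero, if_neg fun h' => h3 ((ok_app hSys.symm hω hη).1 h').2]
  · rw [if_neg h]
    apply integral_eq_zero_of_ae
    filter_upwards [Mark.ae_mem μ lam (hL.diff hV)] with η hη
    simp only [hF]
    rw [if_neg fun h' => h ((ok_app hSys.symm hω hη).1 h').1]
    rfl

end main

end Blk

open Blk in
theorem block_of (hS : SYSA) (hX : XOFF) : BLOCK := by
  intro S _ m _ C L lam b K hSys θ v hv hZF α hα V hV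
  obtain ⟨hsf, hSa, -⟩ := hS S m C L lam b K hSys α hα
  obtain ⟨hmhc, hfp, hfg, hXi1, -, -⟩ := bas S (md m α) C L lam hSa.meas hSa.measL hSa.fin
    hSa.lam_nonneg
  have hVc : ∀ ω : Om S, MeasurableSet (Vc C V ω) := meas_Vc hSys.meas hV
  -- the partition function outside
  have hXa : ∀ (θ' : ℝ) (ω : Om S), Xa m C lam L θ' (off (Vc C V ω) α) =
      ∫ η in {η : Om S | ∀ i, η.2 i ∉ Vc C V ω},
        Complex.exp (Complex.I * θ' * η.1) ∂gib (md m α) C lam L := fun θ' ω =>
    ((hX S m C L lam b K hSys θ' α hα).2.2.1 (Vc C V ω) (hVc ω)).2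
  have hU : ∀ ω : Om S, U01 (off (Vc C V ω) α) := fun ω =>
    ((hX S m C L lam b K hSys θ α hα).2.2.1 (Vc C V ω) (hVc ω)).1
  have hUV : U01 (off V α) := ((hX S m C L lam b K hSys θ α hα).2.2.1 V hV).1
  have hX0 : ∀ β : S → ℝ, U01 β → Xa m C lam L 0 β ≠ 0 ∧
      ‖Xa m C lam L θ β‖ ≤ ‖Xa m C lam L 0 β‖ := by
    intro β hβ
    obtain ⟨hsf', hSb, -⟩ := hS S m C L lam b K hSys β hβ
    obtain ⟨-, -, -, h1, -, -⟩ := bas S (md m β) C L lam hSb.meas hSb.measL hSb.fin
      hSb.lam_nonneg
    obtain ⟨-, h2, -, -⟩ := hX S m C L lam b K hSys θ β hβ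
    obtain ⟨h3, -, -, -⟩ := hX S m C L lam b K hSys 0 β hβ
    have h4 : Xa m C lam L 0 β = (Xi (md m β) C lam L : ℂ) := h3
    rw [h4]
    constructor
    · exact_mod_cast (by linarith : Xi (md m β) C lam L ≠ 0)
    · rw [Complex.norm_real, Real.norm_eq_abs, abs_of_nonneg (by linarith)]
      exact h2
  have hmX : ∀ θ' : ℝ, Measurable fun ω : Om S => Xa m C lam L θ' (off (Vc C V ω) α) := by
    classical
    intro θ'
    have h1 : (fun ω : Om S => Xa m C lam L θ' (off (Vc C V ω) α)) = fun ω =>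
        ∫ η, (if ∀ i, η.2 i ∉ Vc C V ω then Complex.exp (Complex.I * θ' * η.1) else 0)
          ∂gib (md m α) C lam L := by
      funext ω
      have hE : MeasurableSet {η : Om S | ∀ i, η.2 i ∉ Vc C V ω} :=
        Mark.meas_all (hVc ω).compl
      rw [hXa, ← integral_indicator hE]
      congr 1
      funext η
      by_cases h : ∀ i, η.2 i ∉ Vc C V ω
      · rw [if_pos h, Set.indicator_of_mem (by exact h)]
      · rw [if_neg h, Set.indicator_of_notMem (by exact h)]
    rw [h1]
    have h2 : Measurable fun q : Om S × Om S =>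
        (if ∀ i, q.2.2 i ∉ Vc C V q.1 then Complex.exp (Complex.I * θ' * q.2.1) else 0) := by
      refine Measurable.ite (meas_noVc hSys.meas hV) ?_ measurable_const
      apply Complex.measurable_exp.comp
      apply Measurable.const_mul
      exact ((measurable_from_nat (f := fun n : ℕ => (n : ℂ))).comp meas_fst).comp measurable_snd
    exact (h2.stronglyMeasurable.integral_prod_right (f := fun (ω η : Om S) =>
      (if ∀ i, η.2 i ∉ Vc C V ω then Complex.exp (Complex.I * θ' * η.1) else 0))).measurable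
  have hsX : ∀ θ' : ℝ, Sym fun ω : Om S => Xa m C lam L θ' (off (Vc C V ω) α) := by
    intro θ' n x σ
    show Xa m C lam L θ' (off (Vc C V ⟨n, x ∘ σ⟩) α) = _
    rw [Vc_sym n x σ]
  refine ⟨((hmX θ).div (hmX 0)).div_const _, fun n x σ => ?_, fun f hf hloc => ?_⟩
  · unfold h0
    rw [Vc_sym n x σ]
  obtain ⟨B, hB⟩ := hf.bdd
  have mexp : Measurable fun ω : Om S => Complex.exp (Complex.I * θ * nV V ω) := by
    apply Complex.measurable_exp.comp
    apply Measurable.const_mul
    exact (measurable_from_nat (f := fun n : ℕ => (n : ℂ))).comp (meas_nV hV)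
  have nexp : ∀ ω : Om S, ‖Complex.exp (Complex.I * θ * nV V ω)‖ = 1 := by
    intro ω
    rw [Complex.norm_exp]
    have : (Complex.I * θ * nV V ω).re = 0 := by simp
    rw [this, Real.exp_zero]
  have hfm : Measurable fun ω : Om S => (f ω : ℂ) := Complex.measurable_ofReal.comp hf.meas
  set G1 : Om S → ℂ := fun ω => (f ω : ℂ) * Complex.exp (Complex.I * θ * nV V ω) with hG1
  set G2 : Om S → ℂ := fun ω => G1 ω * (Xa m C lam L θ (off (Vc C V ω) α) /
    Xa m C lam L 0 (off (Vc C V ω) α)) with hG2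
  have mG1 : Measurable G1 := hfm.mul mexp
  have mG2 : Measurable G2 := mG1.mul ((hmX θ).div (hmX 0))
  have sG1 : Sym G1 := by
    intro n x σ
    simp only [hG1]
    rw [hf.sym n x σ, nV_sym n x σ]
  have sG2 : Sym G2 := by
    intro n x σ
    simp only [hG2]
    rw [sG1 n x σ, Vc_sym n x σ]
  have bG1 : ∀ ω, ok C L ω → ‖G1 ω‖ ≤ B := by
    intro ω h
    simp only [hG1]
    rw [norm_mul, nexp, mul_one, Complex.norm_real]
    exact hB ω h
  have bG2 : ∀ ω, ok C L ω → ‖G2 ω‖ ≤ B := by
    intro ω h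
    simp only [hG2]
    rw [norm_mul, norm_div]
    obtain ⟨h1, h2⟩ := hX0 _ (hU ω)
    have h3 : ‖Xa m C lam L θ (off (Vc C V ω) α)‖ / ‖Xa m C lam L 0 (off (Vc C V ω) α)‖ ≤ 1 :=
      div_le_one_of_le₀ h2 (norm_nonneg _)
    calc ‖G1 ω‖ * _ ≤ ‖G1 ω‖ * 1 := mul_le_mul_of_nonneg_left h3 (norm_nonneg _)
      _ ≤ B := by rw [mul_one]; exact bG1 ω h
  have lG1 : ∀ ω η : Om S, (∀ j, η.2 j ∉ V) → G1 (app ω η) = G1 ω := by
    intro ω η hη
    simp only [hG1]
    rw [hloc ω η hη, nV_app, nV_out hη, add_zero]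
  have lG2 : ∀ ω η : Om S, (∀ j, η.2 j ∉ V) → G2 (app ω η) = G2 ω := by
    intro ω η hη
    simp only [hG2]
    rw [lG1 ω η hη, Vc_app hη]
  have j1 := jform hSa hV θ mG1 sG1 bG1 lG1
  have j2 := jform hSa hV 0 mG2 sG2 bG2 lG2
  have e1 : ∀ ω : Om S, G1 ω * Complex.exp (Complex.I * θ * ((ω.1 : ℂ) - nV V ω)) =
      (f ω : ℂ) * Complex.exp (Complex.I * θ * ω.1) := by
    intro ω
    simp only [hG1]
    rw [mul_assoc, ← Complex.exp_add]
    congr 2
    ring
  have e2 : ∀ ω : Om S, G2 ω * Complex.exp (Complex.I * ((0 : ℝ) : ℂ) * ((ω.1 : ℂ) - nV V ω)) =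
      G2 ω := by
    intro ω
    simp
  simp only [e1] at j1
  simp only [e2] at j2
  have e3 : ∫ ω, (f ω : ℂ) * Complex.exp (Complex.I * θ * ω.1) ∂gib (md m α) C lam L =
      ∫ ω, G2 ω ∂gib (md m α) C lam L := by
    rw [j1, j2]
    apply integral_congr_ae
    refine ae_of_all _ fun ω => ?_
    by_cases h : hc C ω
    · simp only [h, if_true]
      rw [← hXa θ ω, ← hXa 0 ω]
      have h5 : G2 ω * Xa m C lam L 0 (off (Vc C V ω) α) =
          G1 ω * Xa m C lam L θ (off (Vc C V ω) α) := by
        simp only [hG2]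
        rw [mul_assoc, div_mul_cancel₀ _ (hX0 _ (hU ω)).1]
      exact h5.symm
    · simp only [h, if_false]
  have hqV : qa m C lam L θ (off V α) ≠ 0 :=
    div_ne_zero (hZF _ hUV).1 (hX0 _ hUV).1
  rw [e3, ← integral_const_mul]
  apply integral_congr_ae
  refine ae_of_all _ fun ω => ?_
  show G2 ω = qa m C lam L θ (off V α) * ((f ω : ℂ) * (Complex.exp (Complex.I * θ * nV V ω) *
    h0 m C lam L θ α V ω))
  simp only [hG2, hG1, h0]
  have : qa m C lam L θ (off (Vc C V ω) α) = Xa m C lam L θ (off (Vc C V ω) α) /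
    Xa m C lam L 0 (off (Vc C V ω) α) := rfl
  rw [← this]
  field_simp

end Pool.Agent.HdGas
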