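import Pool.Agent.Lib.NT.Rows4

/-!
# Row BOOT4: from the bounds for `D` to the density (continuity argument)
-/

set_option autoImplicit false

namespace Pool.Agent.HdGas

noncomputable section

/-- For every `t` in range: a bound for `y` and for `t ε y`. -/
theorem b4_y (c0 ε η : ℝ) (p : ℝ → ℝ) (h0 : 0 ≤ c0) (hε : 0 ≤ ε) (hη : 0 ≤ η)
    (hη1 : η ≤ 1 / 100) (hs : c0 * Real.exp c0 * ε * (c0 + 1) ≤ 1 / 100)
    (hp : ∀ t, 0 ≤ t → t ≤ c0 * Real.exp c0 → 0 < p t ∧ p t ≤ 1 ∧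
      -(t * ε * (t * p t) + η) ≤ -Real.log (p t) - t * p t)
    (c : ℝ) (hc : 0 ≤ c) (hcc : c ≤ c0) (t : ℝ) (ht : c * Real.exp c = t) :
    t ≤ c0 * Real.exp c0 ∧ 0 ≤ t ∧ 0 ≤ t * p t ∧ t * p t ≤ c0 + 1 ∧
      t * ε * (t * p t) ≤ 1 / 100 ∧ t * p t - c ≤ t * ε * (t * p t) + η := by
  have e1 : Real.exp c ≤ Real.exp c0 := Real.exp_le_exp.2 hcc
  have ht0 : t ≤ c0 * Real.exp c0 := by
    rw [← ht]; exact mul_le_mul hcc e1 (Real.exp_pos _).le h0
  have htn : 0 ≤ t := by rw [← ht]; exact mul_nonneg hc (Real.exp_pos _).le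
  obtain ⟨hp0, hp1, hD⟩ := hp t htn ht0
  have hy0 : 0 ≤ t * p t := mul_nonneg htn hp0.le
  have hte : t * ε ≤ c0 * Real.exp c0 * ε := mul_le_mul_of_nonneg_right ht0 hε
  have hten : 0 ≤ t * ε := mul_nonneg htn hε
  have hted : 0 ≤ c0 * Real.exp c0 * ε := le_trans hten hte
  have hmain : t * p t - c ≤ t * ε * (t * p t) + η := by
    by_cases hyc : t * p t ≤ c
    · have := mul_nonneg hten hy0
      linarith
    · push Not at hyc
      have hyp : 0 < t * p t := lt_of_le_of_lt hc hyc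
      have htp : 0 < t := by
        rcases htn.lt_or_eq with h | h
        · exact h
        · rw [← h] at hyp; simp at hyp
      have hcp : 0 < c := by
        rcases hc.lt_or_eq with h | h
        · exact h
        · rw [← h] at ht; simp at ht; linarith
      have hlog : Real.log (t * p t) = Real.log c + c + Real.log (p t) := by
        rw [Real.log_mul htp.ne' hp0.ne', ← ht, Real.log_mul hcp.ne' (Real.exp_pos _).ne',
          Real.log_exp]
      have hl2 : Real.log c ≤ Real.log (t * p t) := Real.log_le_log hcp hyc.le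
      linarith
  have hyb : t * p t ≤ c0 + 1 := by
    by_contra hcon
    push Not at hcon
    have h1 : t * ε * (t * p t) ≤ c0 * Real.exp c0 * ε * (t * p t) :=
      mul_le_mul_of_nonneg_right hte hy0
    -- y (1 - a) ≤ c0 + 1/100 with a (c0+1) ≤ 1/100
    set a := c0 * Real.exp c0 * ε with ha
    set y := t * p t with hy
    have h2 : a ≤ 1 / 100 := by nlinarith
    nlinarith
  refine ⟨ht0, htn, hy0, hyb, ?_, hmain⟩
  calc t * ε * (t * p t) ≤ c0 * Real.exp c0 * ε * (c0 + 1) := mul_le_mul hte hyb hy0 hted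
    _ ≤ 1 / 100 := hs

/-- `y` for arbitrary `t` in the range (the map `c ↦ c e^c` is onto). -/
theorem b4_onto (c0 t : ℝ) (h0 : 0 ≤ c0) (ht : 0 ≤ t) (ht0 : t ≤ c0 * Real.exp c0) :
    ∃ c, 0 ≤ c ∧ c ≤ c0 ∧ c * Real.exp c = t := by
  have hc : ContinuousOn (fun c : ℝ => c * Real.exp c) (Set.Icc 0 c0) := by fun_prop
  have := intermediate_value_Icc h0 hc
  have hm : t ∈ Set.Icc ((fun c : ℝ => c * Real.exp c) 0) ((fun c : ℝ => c * Real.exp c) c0) := by
    constructor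
    · simpa using ht
    · exact ht0
  obtain ⟨c, hc1, hc2⟩ := this hm
  exact ⟨c, hc1.1, hc1.2, hc2⟩

theorem b4_exp : Real.exp (26 / 25) < 2.83 := by
  have h1 : Real.exp (1 : ℝ) < 2.7182818286 := Real.exp_one_lt_d9
  have h2 : Real.exp (1 / 25 : ℝ) < 1.041 := by
    have h3 : Real.exp (1 / 25 : ℝ) ^ 25 = Real.exp 1 := by
      rw [← Real.exp_nat_mul]; norm_num
    by_contra hcon
    push Not at hcon
    have h4 : (1.041 : ℝ) ^ 25 ≤ Real.exp (1 / 25) ^ 25 := pow_le_pow_left₀ (by norm_num) hcon 25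
    rw [h3] at h4
    have h5 : (2.7182818286 : ℝ) < 1.041 ^ 25 := by norm_num
    linarith
  have h3 : Real.exp (26 / 25 : ℝ) = Real.exp 1 * Real.exp (1 / 25) := by
    rw [← Real.exp_add]; norm_num
  rw [h3]
  calc Real.exp 1 * Real.exp (1 / 25) ≤ 2.7182818286 * 1.041 :=
        mul_le_mul h1.le h2.le (Real.exp_pos _).le (by norm_num)
    _ < 2.83 := by norm_num

/-- Value of the right side when `D ≤ 1/2`. -/
theorem b4_rhs (c0 k y D η s KK : ℝ) (h0 : 0 ≤ c0) (hk : 0 ≤ k) (hy : 0 ≤ y) (hy1 : y ≤ c0 + 1)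
    (hη1 : η ≤ 1 / 100) (hs : s ≤ 1 / 100) (hD : D ≤ 1 / 2) (hK0 : 0 ≤ KK) (hK : KK ≤ 3 * k) :
    y ^ 2 * Real.exp (2 * D + 2 * s + 2 * η) * KK ≤ 8.5 * (y ^ 2 * k) := by
  have h1 : Real.exp (2 * D + 2 * s + 2 * η) ≤ Real.exp (26 / 25) :=
    Real.exp_le_exp.2 (by linarith)
  have h2 : Real.exp (2 * D + 2 * s + 2 * η) ≤ 2.83 := le_trans h1 b4_exp.le
  have hy2 : 0 ≤ y ^ 2 := sq_nonneg y
  calc y ^ 2 * Real.exp (2 * D + 2 * s + 2 * η) * KK ≤ y ^ 2 * 2.83 * (3 * k) :=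
        mul_le_mul (mul_le_mul_of_nonneg_left h2 hy2) hK hK0 (by positivity)
    _ ≤ 8.5 * (y ^ 2 * k) := by
        have : 0 ≤ y ^ 2 * k := mul_nonneg hy2 hk
        nlinarith

theorem boot4_of : BOOT4 := by
  intro c0 k ε η p KK h0 hk hε hη hη1 hs hck hKK hcont hp0 hyp
  have hyp' : ∀ t, 0 ≤ t → t ≤ c0 * Real.exp c0 → 0 < p t ∧ p t ≤ 1 ∧
      -(t * ε * (t * p t) + η) ≤ -Real.log (p t) - t * p t := by
    intro t ht ht0
    obtain ⟨a, b, c⟩ := hyp t ht ht0
    exact ⟨a, b, (c _ _ rfl rfl).1⟩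
  have hk2 : (c0 + 1) ^ 2 * k ≤ 1 / 1000 := by
    have : (c0 + 1) ^ 2 * k ≤ (c0 + 1) ^ 3 * k := by
      apply mul_le_mul_of_nonneg_right _ hk
      exact pow_le_pow_right₀ (by linarith) (by norm_num)
    linarith
  -- D never reaches 1/2
  have hDlt : ∀ t, 0 ≤ t → t ≤ c0 * Real.exp c0 → -Real.log (p t) - t * p t < 1 / 2 := by
    intro t1 ht1 ht10
    by_contra hcon
    push Not at hcon
    have hct : ContinuousOn (fun t => -Real.log (p t) - t * p t) (Set.Icc 0 t1) := by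
      have hsub : Set.Icc 0 t1 ⊆ Set.Icc 0 (c0 * Real.exp c0) := Set.Icc_subset_Icc_right ht10
      have hpc := hcont.mono hsub
      refine ContinuousOn.sub (ContinuousOn.neg (ContinuousOn.log hpc ?_)) (continuousOn_id.mul hpc)
      intro x hx
      exact (hyp x hx.1 (le_trans hx.2 ht10)).1.ne'
    have hiv := intermediate_value_Icc ht1 hct
    have hm : (1 / 2 : ℝ) ∈ Set.Icc ((fun t => -Real.log (p t) - t * p t) 0)
        ((fun t => -Real.log (p t) - t * p t) t1) := by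
      constructor
      · simp [hp0]
      · exact hcon
    obtain ⟨t, ht, hDt⟩ := hiv hm
    have htt : t ≤ c0 * Real.exp c0 := le_trans ht.2 ht10
    obtain ⟨c, hc1, hc2, hc3⟩ := b4_onto c0 t h0 ht.1 htt
    obtain ⟨_, _, hy0, hy1, hy2, _⟩ := b4_y c0 ε η p h0 hε hη hη1 hs hyp' c hc1 hc2 t hc3
    obtain ⟨_, _, hq⟩ := hyp t ht.1 htt
    have hq2 := (hq _ _ rfl rfl).2
    simp only at hDt
    obtain ⟨hK0, hK1⟩ := hKK (t * p t) hy0 hy1
    have hr := b4_rhs c0 k (t * p t) (-Real.log (p t) - t * p t) η (t * ε * (t * p t))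
      (KK (t * p t)) h0 hk hy0 hy1 hη1 hy2 hDt.le hK0 hK1
    have hyy : (t * p t) ^ 2 * k ≤ (c0 + 1) ^ 2 * k := by
      apply mul_le_mul_of_nonneg_right _ hk
      exact pow_le_pow_left₀ hy0 hy1 2
    rw [hDt] at hq2 hr
    linarith
  intro t c hc hcc htc
  obtain ⟨ht0, htn, hy0, hy1, hy2, hy3⟩ := b4_y c0 ε η p h0 hε hη hη1 hs hyp' c hc hcc t htc
  refine ⟨hy1, hDlt t htn ht0, ?_, hy3⟩
  by_cases hyc : c ≤ t * p t
  · have : 0 ≤ c ^ 3 * k := by positivity
    linarith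
  · push Not at hyc
    have hcp : 0 < c := lt_of_le_of_lt hy0 hyc
    have htp : 0 < t := by rw [← htc]; positivity
    obtain ⟨hp1, _, hq⟩ := hyp t htn ht0
    have hq2 := (hq _ _ rfl rfl).2
    obtain ⟨hK0, hK1⟩ := hKK (t * p t) hy0 hy1
    have hr := b4_rhs c0 k (t * p t) (-Real.log (p t) - t * p t) η (t * ε * (t * p t))
      (KK (t * p t)) h0 hk hy0 hy1 hη1 hy2 (hDlt t htn ht0).le hK0 hK1
    have hyp1 : 0 < t * p t := mul_pos htp hp1
    have hlog : Real.log (t * p t) = Real.log c + c + Real.log (p t) := by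
      rw [Real.log_mul htp.ne' hp1.ne', ← htc, Real.log_mul hcp.ne' (Real.exp_pos _).ne',
        Real.log_exp]
    -- log (y/c) ≤ y/c - 1
    have hl2 : Real.log (t * p t / c) ≤ t * p t / c - 1 :=
      Real.log_le_sub_one_of_pos (div_pos hyp1 hcp)
    rw [Real.log_div hyp1.ne' hcp.ne'] at hl2
    set y := t * p t with hy
    set D := -Real.log (p t) - y with hD
    have hDl : (c - y) + (1 - y / c) ≤ D := by linarith
    have hDu : D ≤ η + 8.5 * (y ^ 2 * k) := by linarith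
    have h5 : c * (1 - y / c) = c - y := by field_simp
    have h6 : (c - y) * (c + 1) ≤ c * (η + 8.5 * (y ^ 2 * k)) := by
      have : c * ((c - y) + (1 - y / c)) ≤ c * (η + 8.5 * (y ^ 2 * k)) :=
        mul_le_mul_of_nonneg_left (le_trans hDl hDu) hc
      nlinarith
    have h7 : y ^ 2 * k ≤ c ^ 2 * k :=
      mul_le_mul_of_nonneg_right (pow_le_pow_left₀ hy0 hyc.le 2) hk
    have h8 : c * (η + 8.5 * (y ^ 2 * k)) ≤ (c + 1) * (9 * (c ^ 3 * k) + η) := by
      have e1 : c * (8.5 * (y ^ 2 * k)) ≤ c * (8.5 * (c ^ 2 * k)) := by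
        apply mul_le_mul_of_nonneg_left _ hc; linarith
      have e2 : 0 ≤ c ^ 3 * k := by positivity
      have e3 : 0 ≤ c * (c ^ 3 * k) := by positivity
      nlinarith
    have h9 : (c - y) * (c + 1) ≤ (9 * (c ^ 3 * k) + η) * (c + 1) := by linarith
    exact le_of_mul_le_mul_right h9 (by linarith)

end

end Pool.Agent.HdGas
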