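import Pool.Agent.Lib.NT.Rows
import Pool.Agent.Lib.MF.Top

/-!
# Hard spheres: no transition; the concrete rows (C) - (F) and the theorem
-/

set_option autoImplicit false

namespace Pool.Agent.HdGas

open MeasureTheory Filter Topology Pool.Agent.SquareWellGas Pool.Agent.KacGas Pool.Agent.VdwGas

noncomputable section

/-- Spheres of diameter one in a box form a finite system. -/
def SYSB : Prop := ∀ d : ℕ, 1 ≤ d → ∀ lam ℓ : ℝ, 0 ≤ lam → 0 ≤ ℓ →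
  ∃ K : ℕ, Sys volume (Cb d) (Box d ℓ) lam (bv d) K

/-- The Fourier transform of the unit ball is at least `-ε` times the volume. -/
def FT (d : ℕ) (ε : ℝ) : Prop := ∀ ξ : Fin d → ℝ,
  -(ε * bv d) ≤ ∫ x in {x : Fin d → ℝ | ∑ k, x k ^ 2 < 1}, Real.cos (∑ k, x k * ξ k)

/-- No zeros in a sector, uniformly in the box. -/
def ZFB : Prop := ∀ d : ℕ, 1 ≤ d → ∀ ε lam : ℝ, 0 ≤ ε → FT d ε → 0 ≤ lam →
  lam * bv d * ε < 1 → ∃ θ0 : ℝ, 0 < θ0 ∧ ∀ ℓ : ℝ, 0 ≤ ℓ → ∀ θ : ℝ, |θ| ≤ θ0 →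
    ZF volume (Cb d) lam (Box d ℓ) θ 1

/-- The logarithmic derivative of the partition function is analytic and bounded in a strip. -/
def ANH : Prop := ∀ d : ℕ, 1 ≤ d → ∀ lam θ0 ℓ : ℝ, 0 < lam → 0 < θ0 → 0 < ℓ →
  (∀ θ : ℝ, |θ| ≤ θ0 → ZF volume (Cb d) lam (Box d ℓ) θ 1) →
    ∃ g : ℂ → ℂ, DifferentiableOn ℂ g {w | w.re < Real.log lam ∧ |w.im| < θ0} ∧
      (∀ w : ℂ, w.re < Real.log lam → |w.im| < θ0 → ‖g w‖ ≤ 2 * lam * ℓ ^ d) ∧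
      ∀ μ : ℝ, μ < Real.log lam → HasDerivAt (fun x : ℝ =>
        Real.log (Xi volume (Cb d) (Real.exp x) (Box d ℓ))) (g μ).re μ

/-- Limits of analytic functions with a bound. -/
def LIMAN : Prop := ∀ (p : ℕ → ℝ → ℝ) (P : ℝ → ℝ) (μ r B : ℝ), 0 < r →
  (∀ x : ℝ, |x - μ| < r → Tendsto (fun k => p k x) atTop (𝓝 (P x))) →
  (∀ k : ℕ, ∃ g : ℂ → ℂ, DifferentiableOn ℂ g (Metric.ball (μ : ℂ) r) ∧
    (∀ w ∈ Metric.ball (μ : ℂ) r, ‖g w‖ ≤ B) ∧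
    ∀ x : ℝ, |x - μ| < r → HasDerivAt (p k) (g x).re x) → AnalyticAt ℝ P μ

/-- The pressure is analytic. -/
def ANP : Prop := ∀ d : ℕ, 1 ≤ d → ∀ ε : ℝ, 0 ≤ ε → FT d ε → ∀ P : ℝ → ℝ, IsPr d P →
  ∀ μ : ℝ, Real.exp μ * bv d * ε < 1 → AnalyticAt ℝ P μ

/-- Strict convexity of the pressure. -/
def SEC : Prop := ∀ d : ℕ, 1 ≤ d → ∀ P : ℝ → ℝ, IsPr d P → ∀ μ h : ℝ, 0 < h →
  h ^ 2 * (Real.exp (μ - h) / (1 + Real.exp (μ + h) * bv d) ^ 2) ≤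
    P (μ + h) - 2 * P μ + P (μ - h)

/-- A lower bound on the density. -/
def SLO : Prop := ∀ d : ℕ, 1 ≤ d → ∀ P : ℝ → ℝ, IsPr d P → ∀ μ h : ℝ, 0 ≤ h →
  h * (Real.exp μ / (1 + Real.exp μ * bv d)) ≤ P (μ + h) - P μ

/-- The free volume near a place, with a relative error. -/
def YCHI2 : Prop := ∀ (S : Type) [MeasurableSpace S] (m : Measure S) [SigmaFinite m]
  (C : S → S → Prop) (L : Set S) (b κ lam : ℝ), Geo m C L b κ → 0 ≤ lam → ∀ u : S,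
    ex m C lam L (fun ω => Yk m C lam L (Al S) u ω -
      lam * ∫ v in {v | v ∈ L ∧ C u v}, chi C (Al S) v ω ∂m) ≤
      2 * (lam * b * κ) * ex m C lam L (Yk m C lam L (Al S) u)

/-- The bound of Jenssen, Joos and Perkins in a finite system. -/
def JJPF : Prop := ∀ (S : Type) [MeasurableSpace S] (m : Measure S) [SigmaFinite m]
  (C : S → S → Prop) (L : Set S) (b κ lam c : ℝ), Geo m C L b κ → 0 ≤ lam → 0 ≤ c →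
  c * Real.exp c = lam * b →
    (1 - 2 * (lam * b * κ)) * c * (m L).toReal ≤ b * ex m C lam L (fun ω => (ω.1 : ℝ))

/-- The bound of Jenssen, Joos and Perkins for the pressure. -/
def JJP : Prop := ∀ d : ℕ, 1 ≤ d → ∀ P : ℝ → ℝ, IsPr d P → ∀ μ c : ℝ, 0 ≤ c →
  c * Real.exp c = Real.exp μ * bv d → ∀ h : ℝ, 0 ≤ h →
    h * ((1 - 2 * (Real.exp μ * bv d * kap d)) * c) ≤ bv d * (P (μ + h) - P μ)

/-- Legendre transform of an analytic function. -/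
def LEG : Prop := ∀ (f P : ℝ → ℝ) (r : ℝ), ConcaveOn ℝ (Set.Ioo 0 r) f →
  (∀ μ : ℝ, (∀ x ∈ Set.Ioo 0 r, f x + μ * x ≤ P μ) ∧
    ∀ δ : ℝ, 0 < δ → ∃ x ∈ Set.Ioo 0 r, P μ - δ ≤ f x + μ * x) →
  ∀ μ ρ : ℝ, ρ ∈ Set.Ioo 0 r → (∀ x ∈ Set.Ioo 0 r, f x + μ * x ≤ f ρ + μ * ρ) →
    AnalyticAt ℝ P μ → (∃ c : ℝ, 0 < c ∧ ∀ h : ℝ, 0 < h → h ≤ 1 →
      c * h ^ 2 ≤ P (μ + h) - 2 * P μ + P (μ - h)) → AnalyticAt ℝ f ρ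

/-- No transition, diameter one, in terms of the chemical potential. -/
def UNIT : Prop := ∀ d : ℕ, 1 ≤ d → ∀ ε : ℝ, 0 ≤ ε → FT d ε → ∀ (f : ℝ → ℝ) (r : ℝ),
  IsF d (1 / 2) (fun _ => 0) f r → ConcaveOn ℝ (Set.Ioo 0 r) f → ∀ μ ρ : ℝ,
    ρ ∈ Set.Ioo 0 r → (∀ x ∈ Set.Ioo 0 r, f x + μ * x ≤ f ρ + μ * ρ) →
      Real.exp μ * bv d * ε < 1 → AnalyticAt ℝ f ρ

/-- No transition, diameter one, in terms of the density. -/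
def LOWD : Prop := ∀ d : ℕ, 1 ≤ d → ∀ ε : ℝ, 0 ≤ ε → FT d ε → ∀ (f : ℝ → ℝ) (r : ℝ),
  IsF d (1 / 2) (fun _ => 0) f r → ConcaveOn ℝ (Set.Ioo 0 r) f → ∀ ρ : ℝ, 0 < ρ →
    ρ * bv d * (1 + ε) < 1 → ρ < r ∧ AnalyticAt ℝ f ρ

/-- No transition, diameter one, in high dimension. -/
def HIGHD : Prop := ∃ d0 : ℕ, ∀ d : ℕ, d0 ≤ d → ∀ (f : ℝ → ℝ) (r : ℝ),
  IsF d (1 / 2) (fun _ => 0) f r → ConcaveOn ℝ (Set.Ioo 0 r) f →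
    (d : ℝ) / 9 < r * bv d ∧ ∀ ρ : ℝ, 0 < ρ → ρ * bv d ≤ d / 9 → AnalyticAt ℝ f ρ

/-- The Fourier transform of the disk. -/
def FT2 : Prop := FT 2 (2 / 15)

/-- The Fourier transform of the three-dimensional ball. -/
def FT3 : Prop := FT 3 (1 / 11)

/-- Monotonicity in the dimension. -/
def MONO : Prop := ∀ (d : ℕ) (ε : ℝ), 1 ≤ d → 0 ≤ ε → FT d ε → FT (d + 1) ε

/-- The Fourier transform of the ball of radius `2 a` is at least `-ε` times the volume. -/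
def FTa (d : ℕ) (a ε : ℝ) : Prop := ∀ ξ : Fin d → ℝ, -(ε * ball d a) ≤
  ∫ x in {x : Fin d → ℝ | ∑ k, x k ^ 2 < (2 * a) ^ 2}, Real.cos (∑ k, x k * ξ k)

/-- Scaling of the Fourier transform. -/
def FTS : Prop := ∀ (d : ℕ) (a ε : ℝ), 1 ≤ d → 0 < a → (FTa d a ε ↔ FT d ε)

/-- The theorem: no phase transition. -/
def NTHM : Prop := ∃ d0 : ℕ, ∀ d : ℕ, 2 ≤ d → ∀ a : ℝ, 0 < a → ∃ (f : ℝ → ℝ) (ρ₀ : ℝ),
  IsF d a (fun _ => 0) f ρ₀ ∧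
  (∀ ε : ℝ, 0 ≤ ε → FTa d a ε →
    (∀ μ ρ : ℝ, ρ ∈ Set.Ioo 0 ρ₀ → (∀ x ∈ Set.Ioo 0 ρ₀, f x + μ * x ≤ f ρ + μ * ρ) →
      Real.exp μ * ball d a * ε < 1 → AnalyticAt ℝ f ρ) ∧
    ∀ ρ : ℝ, 0 < ρ → ρ * ball d a * (1 + ε) < 1 → ρ < ρ₀ ∧ AnalyticAt ℝ f ρ) ∧
  FTa d a (2 / 15) ∧ (3 ≤ d → FTa d a (1 / 11)) ∧
  FTa d a (√2 * Real.exp (-(d : ℝ) / 8)) ∧
  (d0 ≤ d → (d : ℝ) / 9 < ρ₀ * ball d a ∧
    ∀ ρ : ℝ, 0 < ρ → ρ * ball d a ≤ d / 9 → AnalyticAt ℝ f ρ)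

/-- Scaling and assembly. -/
def FINN : Prop := UNIT → LOWD → HIGHD → FT2 → FT3 → MONO → FTS → NTHM

end

end Pool.Agent.HdGas
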