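import Pool.Agent.Lib.NT.RowsM
import Pool.Agent.Lib.NT.Top
import Pool.Agent.Lib.MF.Local

/-!
# Row LOCAL2: the local density of hard spheres in a region of any shape (helper39)
-/

set_option autoImplicit false

namespace Pool.Agent.HdGas

open MeasureTheory Filter Topology Pointwise Pool.Agent.SquareWellGas Pool.Agent.KacGas
  Pool.Agent.VdwGas

namespace LocalM

/-- Spheres of diameter one in a bounded region form a finite system. -/
theorem sysL (hB : SYSB) {d : ℕ} (hd : 1 ≤ d) {lam : ℝ} (hlam : 0 ≤ lam) {L : Set (Fin d → ℝ)}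
    (hL : MeasurableSet L) (hf : volume L ≠ ⊤) {ℓ : ℝ} (hb : ∀ x ∈ L, ∀ k, |x k| ≤ ℓ) :
    ∃ K : ℕ, Sys volume (Cb d) L lam (bv d) K := by
  obtain ⟨K, h⟩ := hB d hd lam (2 * |ℓ| + 1) hlam (by positivity)
  refine ⟨K, ⟨h.meas, h.refl, h.symm, hL, hf, hlam, h.b_pos, h.ball, fun ω h1 h2 => ?_⟩⟩
  refine h.card ⟨ω.1, fun i k => ω.2 i k + |ℓ|⟩ (fun i j hij hc => ?_) fun i k => ?_
  · refine h1 i j hij ?_
    unfold Cb at hc ⊢
    simpa using hc
  · have h3 := abs_le.1 ((hb _ (h2 i) k).trans (le_abs_self ℓ))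
    simp only [Set.mem_Ico]
    constructor <;> linarith

theorem vol_bd {d : ℕ} {L : Set (Fin d → ℝ)} {ℓ : ℝ} (hb : ∀ x ∈ L, ∀ k, |x k| ≤ ℓ) :
    volume L ≠ ⊤ := by
  have h : L ⊆ Metric.closedBall (0 : Fin d → ℝ) |ℓ| := by
    intro x hx
    rw [mem_closedBall_zero_iff, pi_norm_le_iff_of_nonneg (abs_nonneg _)]
    intro k
    exact (hb x hx k).trans (le_abs_self ℓ)
  exact ((measure_mono h).trans_lt measure_closedBall_lt_top).ne

end LocalM

open LocalR LocalM in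
/-- Row LOCAL2. -/
theorem local2_of (hG : GEOL) (hP : POSL) (hE : EXCHI) (hF : PROF2) (hX : SCL) (hB : SYSB) :
    LOCAL2 := by
  intro d hd a lam c ha hlam hc hct hs1 hs2 L hL ⟨ℓ, hℓ⟩ B hBB
  have hLf := vol_bd hℓ
  obtain ⟨R, hR⟩ : ∃ R : ℝ, R = 2 * a := ⟨_, rfl⟩
  have hR0 : 0 < R := by rw [hR]; positivity
  have hb := ball_eq (d := d) ha
  obtain ⟨t, ht⟩ : ∃ t : ℝ, t = lam * ball d a := ⟨_, rfl⟩
  have hbv : 0 < bv d := GeobR.bv_pos d
  have ht0 : 0 ≤ t := by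
    rw [ht, hb]
    positivity
  have ht' : lam * R ^ d * bv d = t := by
    rw [ht, hb, hR]
    ring
  have hkap : (√3 / 2 : ℝ) ^ d = kap d := rfl
  have heps : √2 * Real.exp (-(d : ℝ) / 8) = epd d := rfl
  rw [hkap] at hs1
  rw [heps] at hs2
  rw [hkap]
  rw [← ht] at hct hs1 hs2 ⊢
  obtain ⟨L', hL'⟩ : ∃ L' : Set (Fin d → ℝ), L' = R⁻¹ • L := ⟨_, rfl⟩
  have hL'm : MeasurableSet L' := by
    rw [hL']
    exact hL.const_smul₀ _
  have hL'f : volume L' ≠ ⊤ := by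
    rw [hL']
    exact vol_fin L hLf
  have hL'b : ∀ x ∈ L', ∀ k, |x k| ≤ ℓ / R := by
    intro x hx k
    rw [hL', smul_mem hR0] at hx
    have h := hℓ _ hx k
    rw [Pi.smul_apply, smul_eq_mul, abs_mul, abs_of_pos hR0] at h
    rw [le_div_iff₀ hR0]
    linarith
  have hlam' : 0 ≤ lam * R ^ d := by positivity
  have hGeo := hG d hd L' hL'm hL'f
  obtain ⟨K, hSys⟩ := sysL hB hd hlam' hL'm hL'f hL'b
  have key := hF (Fin d → ℝ) volume (Cb d) L' (bv d) (kap d) (epd d) (lam * R ^ d) c K hGeo hSys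
    (by unfold epd; positivity) (hP d hd L' hL'm hL'f) (by rw [ht']; linarith)
    (by rw [ht']; linarith) hc (by rw [ht']; exact hct)
  rw [ht'] at key
  -- the integrand
  have hint : ∀ v : Fin d → ℝ, |ball d a * (lam * XiR d a lam {z | z ∈ L ∧ (2 * a) ^ 2 ≤
      ∑ k, ((R • v) k - z k) ^ 2} / XiR d a lam L) - c| =
      |t * ex volume (Cb d) (lam * R ^ d) L' (chi (Cb d) (Al _) v) - c| := by
    intro v
    have hm : MeasurableSet {z : Fin d → ℝ | z ∈ L ∧ (2 * a) ^ 2 ≤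
        ∑ k, ((R • v) k - z k) ^ 2} := by
      have h1 : MeasurableSet {z : Fin d → ℝ | (2 * a) ^ 2 ≤ ∑ k, ((R • v) k - z k) ^ 2} :=
        measurableSet_le measurable_const (by fun_prop)
      exact hL.inter h1
    have hmf : volume {z : Fin d → ℝ | z ∈ L ∧ (2 * a) ^ 2 ≤
        ∑ k, ((R • v) k - z k) ^ 2} ≠ ⊤ := by
      refine ne_top_of_le_ne_top hLf (measure_mono fun z hz => hz.1)
    rw [hX d hd a lam ha hlam _ hm hmf, hX d hd a lam ha hlam L hL hLf,
      hE (Fin d → ℝ) volume (Cb d) L' (bv d) (kap d) (lam * R ^ d) hGeo hlam' v, ← hR,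
      out_eq hR0, ← hL', ht]
    congr 2
    ring
  rw [int_smul hR0 L, ← hL']
  simp only [hint]
  have hBd : B = R ^ d * Bd volume (Cb d) L' (bv d) c := by
    rw [hBB, int_smul hR0 L, ← hL']
    congr 1
    unfold Bd
    refine integral_congr_ae (Eventually.of_forall fun v => ?_)
    simp only
    rw [← hR, vol_smul hR0 {z | z ∈ L ∧ ∑ k, ((R • v) k - z k) ^ 2 < R ^ 2}, ← in_eq hR0, ← hL',
      hb, ← hR]
    congr 2
    field_simp
  rw [hBd, vol_smul hR0 L, ← hL']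
  have h := mul_le_mul_of_nonneg_left key (show 0 ≤ R ^ d by positivity)
  refine h.trans (le_of_eq ?_)
  have hsq : √(3 * c * t * (R ^ d * Bd volume (Cb d) L' (bv d) c) *
      (R ^ d * (volume L').toReal)) = R ^ d * √(3 * c * t * Bd volume (Cb d) L' (bv d) c *
      (volume L').toReal) := by
    rw [show 3 * c * t * (R ^ d * Bd volume (Cb d) L' (bv d) c) * (R ^ d * (volume L').toReal) =
      (R ^ d) ^ 2 * (3 * c * t * Bd volume (Cb d) L' (bv d) c * (volume L').toReal) by ring,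
      Real.sqrt_mul (by positivity), Real.sqrt_sq (by positivity)]
  rw [hsq]
  ring

end Pool.Agent.HdGas
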