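import Pool.Agent.Lib.NT.Top
import Pool.Agent.Lib.MF.Geob
import Pool.Agent.Lib.MP_09cbbd_sw.Pack

/-!
# Hard spheres, row SYSB: spheres in a box form a finite system (helper63)
-/

set_option autoImplicit false

namespace Pool.Agent.HdGas

open MeasureTheory Filter Topology Pool.Agent.SquareWellGas Pool.Agent.KacGas Pool.Agent.VdwGas

/-- Row SYSB. -/
theorem sysb : SYSB := by
  intro d hd lam ℓ hlam hℓ
  have g := geob_of d hd ℓ
  refine ⟨∏ _k : Fin d, (⌊(d + 1 : ℝ) * ℓ⌋₊ + 1), g.meas, g.refl, g.symm, g.measL, g.fin, hlam,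
    g.b_pos, g.ball, fun ω h1 h2 => ?_⟩
  have hx : ω.2 ∈ SquareWell.Cn (Fin ω.1) (Box d ℓ) :=
    ⟨h2, fun i j hij => not_lt.1 (h1 i j hij)⟩
  have h := SquareWell.Pack.card_le_rect hx (fun _ => 0) (fun _ => ℓ) (fun y hy k => by
    have := hy k
    exact ⟨this.1, by simpa using this.2.le⟩)
  simpa using h

end Pool.Agent.HdGas
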