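import Pool.Agent.Lib.NT.Rows4
import Pool.Agent.Lib.NT.LocalM
import Pool.Agent.Lib.NT.SysB
import Pool.Agent.Lib.MF.PosL

/-!
# Rows REG4 and OVL: bounded regions, overlaps of balls (helper40)
-/

set_option autoImplicit false

namespace Pool.Agent.HdGas

open MeasureTheory Metric

/-- Row REG4. -/
theorem reg4_of : REG4 := by
  intro d hd L hL
  obtain ⟨hm, ℓ, hℓ⟩ := hL
  have hf := LocalM.vol_bd hℓ
  exact ⟨geol_of d hd L hm hf, fun lam hlam => LocalM.sysL sysb hd hlam hm hf hℓ,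
    fun ε hε hF => posi_of hd hε hF hm hf⟩

namespace Ovl

open MF.Geo GeobR

theorem ph_pos (d : ℕ) : 0 < ph d := by
  unfold ph
  positivity

theorem ph_le_one (d : ℕ) : ph d ≤ 1 := by
  unfold ph
  refine pow_le_one₀ (by positivity) ?_
  have : √15 ≤ 4 := by
    rw [Real.sqrt_le_left (by norm_num)]
    norm_num
  linarith

theorem dist_sq (d : ℕ) (x y : Fin d → ℝ) :
    dist (e d x) (e d y) ^ 2 = ∑ k, (x k - y k) ^ 2 := by
  rw [dist_e, Real.sq_sqrt (Finset.sum_nonneg fun k _ => sq_nonneg _)]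

theorem vol_ball_scale {d : ℕ} (u : EuclideanSpace ℝ (Fin d)) {r : ℝ} (hr : 0 < r) :
    volume (Metric.ball u r) = ENNReal.ofReal (r ^ d * bv d) := by
  rw [ENNReal.ofReal_mul (by positivity), ofReal_bv, MF.Geo.b]
  have h := Measure.addHaar_ball_mul_of_pos
    (volume : Measure (EuclideanSpace ℝ (Fin d))) u hr 1
  rw [mul_one, finrank_euclideanSpace_fin] at h
  exact h

theorem small {d : ℕ} (x : Fin d → ℝ) :
    volume {z : Fin d → ℝ | ∑ k, (x k - z k) ^ 2 < 1 / 4} ≤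
      ENNReal.ofReal ((1 / 2) ^ d * bv d) := by
  rw [← vol_ball_scale (e d x) (by norm_num : (0 : ℝ) < 1 / 2), ← vol_pre]
  refine measure_mono fun z hz => ?_
  rw [Set.mem_setOf_eq] at hz ⊢
  rw [mem_ball, dist_comm]
  rw [← dist_sq] at hz
  refine lt_of_pow_lt_pow_left₀ 2 (by norm_num) ?_
  linarith

theorem ovr {d : ℕ} (x y : Fin d → ℝ) (h : 1 / 4 ≤ ∑ k, (x k - y k) ^ 2) :
    volume {z | Cb d x z ∧ Cb d y z} ≤ ENNReal.ofReal (ph d * bv d) := by
  have h1 : volume {z | Cb d x z ∧ Cb d y z} ≤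
      volume (Metric.ball (midpoint ℝ (e d x) (e d y)) (√15 / 4)) := by
    rw [← vol_pre]
    refine measure_mono fun z hz => ?_
    obtain ⟨hx, hy⟩ := hz
    rw [Cb_iff, dist_comm] at hx hy
    rw [← dist_sq] at h
    rw [Set.mem_setOf_eq, mem_ball]
    have h2 := mid_sq (e d z) (e d x) (e d y)
    have e1 : dist (e d z) (e d x) ^ 2 < 1 := pow_lt_one₀ dist_nonneg hx (by norm_num)
    have e2 : dist (e d z) (e d y) ^ 2 < 1 := pow_lt_one₀ dist_nonneg hy (by norm_num)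
    have e3 : (√15 / 4) ^ 2 = 15 / 16 := by
      rw [div_pow, Real.sq_sqrt (by norm_num)]
      norm_num
    refine lt_of_pow_lt_pow_left₀ 2 (by positivity) ?_
    rw [e3]
    linarith
  refine h1.trans_eq ?_
  rw [vol_ball_scale _ (by positivity)]
  rfl

end Ovl

/-- Row OVL. -/
theorem ovl_of : OVL := fun d _ => ⟨GeobR.bv_pos d, Ovl.ph_pos d, Ovl.ph_le_one d,
  GeobR.vol_ball, Ovl.small, Ovl.ovr⟩

end Pool.Agent.HdGas
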