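import Pool.Agent.Lib.NT.Rows4
import Pool.Agent.Lib.NT.Reg4
import Mathlib.Analysis.SpecialFunctions.JapaneseBracket

/-!
# Row BULK: the local density far from the complement of the region (helper63)
-/

set_option autoImplicit false

namespace Pool.Agent.HdGas

open MeasureTheory Filter Topology

namespace Blk4

/-- Integrability of the exponential. -/
theorem exp_int {d : ℕ} {a : ℝ} (ha : 0 < a) :
    Integrable (fun x : Fin d → ℝ => Real.exp (-(a * ‖x‖))) := by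
  have h1 : Integrable (fun x : Fin d → ℝ => (1 + ‖x‖) ^ (-((d : ℝ) + 1))) := by
    refine integrable_one_add_norm ?_
    rw [Module.finrank_fin_fun]
    linarith
  refine (h1.const_mul ((Nat.factorial (d + 1) : ℝ) * Real.exp a / a ^ (d + 1))).mono'
    (by fun_prop) (ae_of_all _ fun x => ?_)
  rw [Real.norm_eq_abs, abs_of_pos (Real.exp_pos _)]
  have h2 := Real.pow_div_factorial_le_exp (a * (1 + ‖x‖)) (by positivity) (d + 1)
  have h3 : (1 + ‖x‖) ^ (-((d : ℝ) + 1)) = ((1 + ‖x‖) ^ (d + 1))⁻¹ := by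
    rw [Real.rpow_neg (by positivity)]
    congr 1
    exact_mod_cast Real.rpow_natCast (1 + ‖x‖) (d + 1)
  have h4 : 0 < (1 + ‖x‖) ^ (d + 1) := by positivity
  have h5 : (0 : ℝ) < (Nat.factorial (d + 1) : ℝ) := by positivity
  rw [h3, Real.exp_neg, ← div_eq_mul_inv, div_div, le_div_iff₀ (by positivity),
    inv_mul_le_iff₀ (Real.exp_pos _)]
  rw [mul_pow, div_le_iff₀ h5, mul_add, mul_one, Real.exp_add] at h2
  nlinarith [h2]

/-- The integral outside of a large cube. -/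
noncomputable def Tl (d : ℕ) (s R : ℝ) : ℝ :=
  ∫ x in {x : Fin d → ℝ | R < ‖x‖}, Real.exp (-(2 * (s * (‖x‖ - 1))))

theorem ms (d : ℕ) (R : ℝ) : MeasurableSet {x : Fin d → ℝ | R < ‖x‖} :=
  measurableSet_lt measurable_const measurable_norm

theorem exp_int' {d : ℕ} {s : ℝ} (hs : 0 < s) :
    Integrable (fun x : Fin d → ℝ => Real.exp (-(2 * (s * (‖x‖ - 1))))) := by
  have h := (exp_int (d := d) (by positivity : 0 < 2 * s)).const_mul (Real.exp (2 * s))
  refine h.congr (ae_of_all _ fun x => ?_)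
  simp only []
  rw [← Real.exp_add]
  congr 1
  ring

theorem tail {d : ℕ} {s : ℝ} (hs : 0 < s) :
    Tendsto (fun n : ℕ => Tl d s n) atTop (𝓝 0) := by
  have h := tendsto_setIntegral_of_antitone (μ := (volume : Measure (Fin d → ℝ)))
    (s := fun n : ℕ => {x : Fin d → ℝ | (n : ℝ) < ‖x‖})
    (f := fun x : Fin d → ℝ => Real.exp (-(2 * (s * (‖x‖ - 1)))))
    (fun n => ms d n) (fun m n hmn x hx => by
      rw [Set.mem_setOf_eq] at hx ⊢
      have : (m : ℝ) ≤ n := by exact_mod_cast hmn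
      linarith) ⟨0, (exp_int' hs).integrableOn⟩
  have e : (⋂ n : ℕ, {x : Fin d → ℝ | (n : ℝ) < ‖x‖}) = ∅ := by
    rw [Set.eq_empty_iff_forall_notMem]
    intro x hx
    rw [Set.mem_iInter] at hx
    obtain ⟨n, hn⟩ := exists_nat_gt ‖x‖
    have := hx n
    rw [Set.mem_setOf_eq] at this
    linarith
  rw [e, setIntegral_empty] at h
  exact h

/-- The weight. -/
noncomputable def ps {d : ℕ} (s B : ℝ) (u : Fin d → ℝ) (x : Fin d → ℝ) : ℝ :=
  s * min (max (‖x - u‖ - 1) 0) B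

theorem norm_lt {d : ℕ} {x y : Fin d → ℝ} (h : Cb d x y) : ‖x - y‖ < 1 := by
  rw [pi_norm_lt_iff one_pos]
  intro k
  rw [Pi.sub_apply, Real.norm_eq_abs]
  have h1 : (x k - y k) ^ 2 ≤ ∑ k, (x k - y k) ^ 2 :=
    Finset.single_le_sum (f := fun k => (x k - y k) ^ 2) (fun k _ => sq_nonneg _)
      (Finset.mem_univ k)
  have h2 : (x k - y k) ^ 2 < 1 := lt_of_le_of_lt h1 h
  exact abs_lt_of_sq_lt_sq (by linarith) zero_le_one

theorem ps_lip {d : ℕ} {s B : ℝ} (hs : 0 ≤ s) (u : Fin d → ℝ) (x y : Fin d → ℝ)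
    (h : Cb d x y) : |ps s B u x - ps s B u y| ≤ s := by
  unfold ps
  rw [← mul_sub, abs_mul, abs_of_nonneg hs]
  have h1 := abs_min_sub_min_le_max (max (‖x - u‖ - 1) 0) B (max (‖y - u‖ - 1) 0) B
  have h2 := abs_max_sub_max_le_max (‖x - u‖ - 1) 0 (‖y - u‖ - 1) 0
  have h3 : |(‖x - u‖ - 1) - (‖y - u‖ - 1)| ≤ 1 := by
    have h4 := abs_norm_sub_norm_le (x - u) (y - u)
    rw [sub_sub_sub_cancel_right] at h4
    have h5 := norm_lt h
    have e : (‖x - u‖ - 1) - (‖y - u‖ - 1) = ‖x - u‖ - ‖y - u‖ := by ring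
    rw [e]
    linarith
  rw [sub_self, abs_zero] at h1 h2
  have h6 : |max (‖x - u‖ - 1) 0 - max (‖y - u‖ - 1) 0| ≤ 1 :=
    h2.trans (max_le h3 zero_le_one)
  have h7 := h1.trans (max_le h6 zero_le_one)
  nlinarith

theorem ps_zero {d : ℕ} {s B : ℝ} (hB : 0 ≤ B) (u : Fin d → ℝ) (x : Fin d → ℝ)
    (h : Cb d u x) : ps s B u x = 0 := by
  have h1 := norm_lt h
  rw [norm_sub_rev] at h1
  unfold ps
  rw [max_eq_right (by linarith), min_eq_left hB, mul_zero]

theorem ps_bd {d : ℕ} {s B : ℝ} (hs : 0 ≤ s) (hB : 0 ≤ B) (u : Fin d → ℝ) (x : Fin d → ℝ) :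
    |ps s B u x| ≤ s * B := by
  unfold ps
  have h0 : 0 ≤ min (max (‖x - u‖ - 1) 0) B := le_min (le_max_right _ _) hB
  rw [abs_of_nonneg (by positivity)]
  exact mul_le_mul_of_nonneg_left (min_le_right _ _) hs

theorem ps_meas {d : ℕ} (s B : ℝ) (u : Fin d → ℝ) : Measurable (ps s B u) := by
  unfold ps
  fun_prop

/-- The integral of the weight outside of a cube. -/
theorem J_le {d : ℕ} {s R : ℝ} (hs : 0 < s) {L : Set (Fin d → ℝ)} (hL : MeasurableSet L)
    {ℓ : ℝ} (hℓ : ∀ x ∈ L, ∀ k, |x k| ≤ ℓ) (u : Fin d → ℝ) :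
    ∃ B : ℝ, 0 ≤ B ∧ ∫ x in L \ Cube d R u, Real.exp (-(2 * ps s B u x)) ≤ Tl d s R := by
  have hC : MeasurableSet (Cube d R u) := by
    have : Cube d R u = ⋂ k, {x : Fin d → ℝ | |x k - u k| ≤ R} := by
      ext x
      simp [Cube]
    rw [this]
    exact MeasurableSet.iInter fun k => measurableSet_le (by fun_prop) measurable_const
  refine ⟨max ℓ 0 + ‖u‖, by positivity, ?_⟩
  have hint : Integrable (fun x : Fin d → ℝ => Real.exp (-(2 * (s * (‖x - u‖ - 1))))) :=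
    (exp_int' (d := d) hs).comp_sub_right u
  have h1 : ∫ x in L \ Cube d R u, Real.exp (-(2 * ps s (max ℓ 0 + ‖u‖) u x)) ≤
      ∫ x in L \ Cube d R u, Real.exp (-(2 * (s * (‖x - u‖ - 1)))) := by
    refine integral_mono_of_nonneg (ae_of_all _ fun x => (Real.exp_pos _).le)
      hint.integrableOn ?_
    refine (ae_restrict_iff' (hL.diff hC)).2 (ae_of_all _ fun x hx => ?_)
    have hxn : ‖x‖ ≤ max ℓ 0 := by
      rw [pi_norm_le_iff_of_nonneg (le_max_right _ _)]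
      intro k
      exact (hℓ x hx.1 k).trans (le_max_left _ _)
    have hxu : ‖x - u‖ ≤ max ℓ 0 + ‖u‖ := (norm_sub_le _ _).trans (by linarith)
    have h0 : ‖x - u‖ - 1 ≤ min (max (‖x - u‖ - 1) 0) (max ℓ 0 + ‖u‖) :=
      le_min (le_max_left _ _) (by linarith)
    have h2 : s * (‖x - u‖ - 1) ≤ ps s (max ℓ 0 + ‖u‖) u x := by
      unfold ps
      exact mul_le_mul_of_nonneg_left h0 hs.le
    simp only []
    refine Real.exp_le_exp.2 (by linarith)
  have h3 : ∫ x in L \ Cube d R u, Real.exp (-(2 * (s * (‖x - u‖ - 1)))) ≤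
      ∫ x in {x : Fin d → ℝ | R < ‖x - u‖}, Real.exp (-(2 * (s * (‖x - u‖ - 1)))) := by
    refine setIntegral_mono_set hint.integrableOn
      (ae_of_all _ fun x => (Real.exp_pos _).le) (Eventually.of_forall fun x hx => ?_)
    have hx2 : x ∉ Cube d R u := hx.2
    unfold Cube at hx2
    rw [Set.mem_setOf_eq] at hx2
    push Not at hx2
    obtain ⟨k, hk⟩ := hx2
    refine lt_of_lt_of_le hk ?_
    have := norm_le_pi_norm (x - u) k
    rwa [Pi.sub_apply, Real.norm_eq_abs] at this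
  have h4 : ∫ x in {x : Fin d → ℝ | R < ‖x - u‖}, Real.exp (-(2 * (s * (‖x - u‖ - 1)))) =
      Tl d s R := by
    unfold Tl
    have hm : MeasurableSet {x : Fin d → ℝ | R < ‖x - u‖} :=
      measurableSet_lt measurable_const (by fun_prop)
    rw [← integral_indicator hm, ← integral_indicator (ms d R),
      ← integral_sub_right_eq_self ({x : Fin d → ℝ | R < ‖x‖}.indicator
        fun x => Real.exp (-(2 * (s * (‖x‖ - 1))))) u]
    rfl
  linarith

end Blk4

open Blk4 in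
/-- Row BULK. -/
theorem bulk_of (hA : ABULK) (hT : TRANS4) : BULK := by
  intro d hd ε lam0 hε hF hlam0 hsm η hη
  have hb : 0 ≤ bv d := ENNReal.toReal_nonneg
  -- the exponent
  obtain ⟨s, hs0, hs⟩ : ∃ s : ℝ, 0 < s ∧ 0 < 1 - lam0 * bv d * (ε + (Real.cosh s - 1)) := by
    have hc : Continuous fun s : ℝ => 1 - lam0 * bv d * (ε + (Real.cosh s - 1)) := by
      fun_prop
    have h0 : (0 : ℝ) < 1 - lam0 * bv d * (ε + (Real.cosh 0 - 1)) := by
      rw [Real.cosh_zero, sub_self, add_zero]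
      linarith
    have h1 : ∀ᶠ s in 𝓝[>] (0 : ℝ), 0 < 1 - lam0 * bv d * (ε + (Real.cosh s - 1)) :=
      (hc.continuousAt.eventually (lt_mem_nhds h0)).filter_mono nhdsWithin_le_nhds
    obtain ⟨s, h2, h3⟩ := (h1.and self_mem_nhdsWithin).exists
    exact ⟨s, h3, h2⟩
  set γ : ℝ := 1 - lam0 * bv d * (ε + (Real.cosh s - 1)) with hγ
  set A : ℝ := 2 * (γ⁻¹ * √(lam0 * bv d)) with hAd
  have hA0 : 0 ≤ A := by positivity
  -- the size of the cube
  have htl : Tendsto (fun n : ℕ => A * √(lam0 * Tl d s n)) atTop (𝓝 0) := by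
    have h1 := ((tail (d := d) hs0).const_mul lam0).sqrt.const_mul A
    rwa [mul_zero, Real.sqrt_zero, mul_zero] at h1
  obtain ⟨n, hn, hn1⟩ := ((htl.eventually (gt_mem_nhds hη)).and (eventually_ge_atTop 1)).exists
  refine ⟨n, by exact_mod_cast hn1, ?_⟩
  intro lam hlam hle L hL u hu
  obtain ⟨hLm, ℓ, hℓ⟩ := hL
  obtain ⟨-, hS, hP⟩ := reg4_of d hd L ⟨hLm, ℓ, hℓ⟩
  obtain ⟨K, hK⟩ := hS lam hlam
  obtain ⟨B, hB, hJ⟩ := J_le (R := (n : ℝ)) hs0 hLm hℓ u
  obtain ⟨⟨hCm, -⟩, hTr⟩ := hT d hd lam n hlam (Nat.cast_nonneg n) u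
  have hcs : 0 ≤ ε + (Real.cosh s - 1) := by
    have := Real.one_le_cosh s
    linarith
  have hge : γ ≤ 1 - lam * bv d * (ε + (Real.cosh s - 1)) := by
    rw [hγ]
    have : lam * bv d * (ε + (Real.cosh s - 1)) ≤ lam0 * bv d * (ε + (Real.cosh s - 1)) :=
      mul_le_mul_of_nonneg_right (mul_le_mul_of_nonneg_right hle hb) hcs
    linarith
  have hTl0 : 0 ≤ Tl d s n := by
    unfold Tl
    exact integral_nonneg fun x => (Real.exp_pos _).le
  have hJ2 : lam * ∫ x in L \ Cube d n u, Real.exp (-(2 * ps s B u x)) ≤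
      lam0 * Tl d s n := mul_le_mul hle hJ (integral_nonneg fun x => (Real.exp_pos _).le) hlam0
  have h := hA (Fin d → ℝ) volume (Cb d) L (Cube d n u) lam (bv d) ε K hK hε (hP ε hε hF)
    hCm hu (ps s B u) s (ps_meas s B u) ⟨s * B, ps_bd hs0.le hB u⟩
    (fun x y => ps_lip hs0.le u x y) (lt_of_lt_of_le hs hge) u (fun x => ps_zero hB u x)
    (lam0 * Tl d s n) hJ2
  rw [← hTr]
  refine h.trans (le_trans ?_ hn.le)
  have h1 : (1 - lam * bv d * (ε + (Real.cosh s - 1)))⁻¹ ≤ γ⁻¹ := inv_anti₀ hs hge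
  have h2 : √(lam * bv d) ≤ √(lam0 * bv d) :=
    Real.sqrt_le_sqrt (mul_le_mul_of_nonneg_right hle hb)
  have h3 : (1 - lam * bv d * (ε + (Real.cosh s - 1)))⁻¹ *
      (√(lam * bv d) * √(lam0 * Tl d s n)) ≤ γ⁻¹ * (√(lam0 * bv d) * √(lam0 * Tl d s n)) := by
    refine mul_le_mul h1 (mul_le_mul_of_nonneg_right h2 (Real.sqrt_nonneg _)) (by positivity)
      (by positivity)
  rw [hAd]
  calc 2 * ((1 - lam * bv d * (ε + (Real.cosh s - 1)))⁻¹ *
      (√(lam * bv d) * √(lam0 * Tl d s n)))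
      ≤ 2 * (γ⁻¹ * (√(lam0 * bv d) * √(lam0 * Tl d s n))) := by linarith
    _ = 2 * (γ⁻¹ * √(lam0 * bv d)) * √(lam0 * Tl d s n) := by ring

end Pool.Agent.HdGas
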