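import Pool.Agent.Lib.NT.Pois

/-!
# The commutation of the generator and the difference operator
-/

set_option autoImplicit false

namespace Pool.Agent.HdGas

open MeasureTheory Filter Topology

namespace Coe

section
variable {S : Type}

theorem sym_eq {α : Type} {F : Om S → α} (hF : Sym F) {n k : ℕ} {x : Fin n → S}
    {y : Fin k → S} (e : Fin n ≃ Fin k) (h : ∀ i, x i = y (e i)) :
    F ⟨n, x⟩ = F ⟨k, y⟩ := by
  have hnk : n = k := by simpa using Fintype.card_congr e
  subst hnk
  have hx : x = y ∘ e := funext h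
  rw [hx]
  exact hF n y e

theorem ins_ins {α : Type} {F : Om S → α} (hF : Sym F) (x y : S) (ω : Om S) :
    F (ins x (ins y ω)) = F (ins y (ins x ω)) := by
  obtain ⟨n, v⟩ := ω
  refine sym_eq hF (Equiv.swap 0 1) fun i => ?_
  refine Fin.cases ?_ (fun j => ?_) i
  · rfl
  · refine Fin.cases ?_ (fun k => ?_) j
    · rfl
    · have h1 : (Equiv.swap (0 : Fin (n + 1 + 1)) 1) k.succ.succ = k.succ.succ :=
        Equiv.swap_apply_of_ne_of_ne (Fin.succ_ne_zero _) (by
          intro h
          have := congrArg Fin.val h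
          simp at this)
      show _ = (Fin.cons y (Fin.cons x v : Fin (n + 1) → S) : Fin (n + 1 + 1) → S)
        ((Equiv.swap (0 : Fin (n + 1 + 1)) 1) k.succ.succ)
      rw [h1]
      rfl

theorem del_zero (x : S) (ω : Om S) : del (ins x ω) (0 : Fin (ω.1 + 1)) = ω := by
  obtain ⟨n, v⟩ := ω
  show (⟨n, Fin.removeNth 0 (Fin.cons x v : Fin (n + 1) → S)⟩ : Om S) = ⟨n, v⟩
  congr 1

theorem del_succ (x : S) (ω : Om S) (i : Fin ω.1) :
    del (ins x ω) i.succ = ins x (del ω i) := by
  obtain ⟨n, v⟩ := ω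
  cases n with
  | zero => exact i.elim0
  | succ n =>
    show (⟨n + 1, Fin.removeNth i.succ (Fin.cons x v : Fin (n + 1 + 1) → S)⟩ : Om S) =
      ⟨n + 1, Fin.cons x (Fin.removeNth i v)⟩
    congr 1
    funext j
    refine Fin.cases ?_ (fun k => ?_) j
    · simp [Fin.removeNth]
    · simp [Fin.removeNth]

/-- A point put back. -/
theorem ins_del {α : Type} {F : Om S → α} (hF : Sym F) (ω : Om S) (i : Fin ω.1) :
    F (ins (ω.2 i) (del ω i)) = F ω := by
  obtain ⟨n, v⟩ := ω
  cases n with
  | zero => exact i.elim0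
  | succ n =>
    show F ⟨n + 1, Fin.cons (v i) (Fin.removeNth i v)⟩ = F ⟨n + 1, v⟩
    refine sym_eq hF (finSuccEquiv' i |>.trans (finSuccEquiv' (0 : Fin (n + 1))).symm).symm
      fun j => ?_
    refine Fin.cases ?_ (fun k => ?_) j
    · simp
    · have h := finSuccEquiv'_succAbove (0 : Fin (n + 1)) k
      rw [Fin.succAbove_zero] at h
      simp [Fin.removeNth, h]

end

open Classical in
theorem chi_ins {S : Type} (C : S → S → Prop) (x y : S) (ω : Om S) :
    chi C (Al S) y (ins x ω) = if C y x then 0 else chi C (Al S) y ω := by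
  have h1 : fr C (Al S) y (ins x ω) ↔ ¬ C y x ∧ fr C (Al S) y ω := by
    constructor
    · intro h
      exact ⟨h (0 : Fin (ω.1 + 1)) trivial, fun i _ => h (Fin.succ i : Fin (ω.1 + 1)) trivial⟩
    · rintro ⟨h, h'⟩ i _
      refine Fin.cases (motive := fun i : Fin (ω.1 + 1) =>
        ¬ C y ((Fin.cons x ω.2 : Fin (ω.1 + 1) → S) i)) ?_ (fun j => ?_) i
      · simpa using h
      · simpa using h' j trivial
  unfold chi
  by_cases h2 : C y x
  · have : ¬ fr C (Al S) y (ins x ω) := fun h => (h1.1 h).1 h2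
    simp [this, h2]
  · by_cases h3 : fr C (Al S) y ω
    · have : fr C (Al S) y (ins x ω) := h1.2 ⟨h2, h3⟩
      simp [this, h2, h3]
    · have : ¬ fr C (Al S) y (ins x ω) := fun h => h3 (h1.1 h).2
      simp [this, h2, h3]

theorem dgen {S : Type} [MeasurableSpace S] {m : Measure S} {C : S → S → Prop} {L : Set S}
    {lam : ℝ} {K : ℕ} (h : Poi.Ctx m C L lam K) (hsym : ∀ x y, C x y → C y x)
    {F : Om S → ℝ} (hF : Fn C L F) {ω : Om S} (hω : ok C L ω) {x : S} (hx : x ∈ L)
    (hc : chi C (Al S) x ω = 1) :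
    D (gen m C lam L F) x ω = ∑ i, (D F x (del ω i) - D F x ω) +
      lam * ∫ y in L, chi C (Al S) y (ins x ω) * D (D F x) y ω ∂m - D F x ω -
      lam * ∫ y in {y | C x y} ∩ L, chi C (Al S) y ω * D F y ω ∂m := by
  have hok := h.ins ω hω x hx hc
  have hsec : MeasurableSet {y | C x y} := measurable_prodMk_left h.measC
  have h1 : ∑ i, (F (del (ins x ω) i) - F (ins x ω)) =
      (F ω - F (ins x ω)) + ∑ i, (F (ins x (del ω i)) - F (ins x ω)) := by
    have e := Fin.sum_univ_succ (fun i : Fin (ω.1 + 1) => F (del (ins x ω) i) - F (ins x ω))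
    refine e.trans ?_
    exact congrArg₂ (· + ·) (congrArg (fun z => F z - F (ins x ω)) (del_zero x ω))
      (Finset.sum_congr rfl fun i _ =>
        congrArg (fun z => F z - F (ins x ω)) (del_succ x ω i))
  have hi1 := Poi.intg h hF hok
  have hi2 := Poi.intg h hF hω
  have e1 : ∀ y, chi C (Al S) y (ins x ω) * D F y (ins x ω) - chi C (Al S) y ω * D F y ω =
      chi C (Al S) y (ins x ω) * D (D F x) y ω -
        Set.indicator {y | C x y} (fun y => chi C (Al S) y ω * D F y ω) y := by
    intro y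
    have e2 : F (ins x (ins y ω)) = F (ins y (ins x ω)) := ins_ins hF.sym x y ω
    rw [chi_ins]
    by_cases hC : C y x
    · have : y ∈ {y | C x y} := hsym _ _ hC
      rw [Set.indicator_of_mem this, if_pos hC]
      ring
    · have : y ∉ {y | C x y} := fun h' => hC (hsym _ _ h')
      rw [Set.indicator_of_notMem this, if_neg hC]
      unfold D
      rw [e2]
      ring
  have hind : IntegrableOn (fun y => Set.indicator {y | C x y}
      (fun y => chi C (Al S) y ω * D F y ω) y) L m := hi2.indicator hsec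
  have hdd : IntegrableOn (fun y => chi C (Al S) y (ins x ω) * D (D F x) y ω) L m := by
    have h3 := (hi1.sub hi2).add hind
    refine h3.congr (Eventually.of_forall fun y => ?_)
    show chi C (Al S) y (ins x ω) * D F y (ins x ω) - chi C (Al S) y ω * D F y ω +
      Set.indicator {y | C x y} (fun y => chi C (Al S) y ω * D F y ω) y = _
    rw [e1 y]
    ring
  have h2 : ∫ y in L, chi C (Al S) y (ins x ω) * D F y (ins x ω) ∂m -
      ∫ y in L, chi C (Al S) y ω * D F y ω ∂m =
      ∫ y in L, chi C (Al S) y (ins x ω) * D (D F x) y ω ∂m -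
        ∫ y in {y | C x y} ∩ L, chi C (Al S) y ω * D F y ω ∂m := by
    rw [← integral_sub hi1 hi2]
    simp only [e1]
    rw [integral_sub hdd hind]
    congr 1
    rw [integral_indicator hsec, Measure.restrict_restrict hsec]
  have h3 : D (gen m C lam L F) x ω = (∑ i, (F (del (ins x ω) i) - F (ins x ω)) +
      lam * ∫ y in L, chi C (Al S) y (ins x ω) * D F y (ins x ω) ∂m) -
      (∑ i, (F (del ω i) - F ω) + lam * ∫ y in L, chi C (Al S) y ω * D F y ω ∂m) := rfl
  have h4 : ∑ i, (D F x (del ω i) - D F x ω) = ∑ i, (F (ins x (del ω i)) - F (ins x ω)) -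
      ∑ i, (F (del ω i) - F ω) := by
    rw [← Finset.sum_sub_distrib]
    refine Finset.sum_congr rfl fun i _ => ?_
    unfold D
    ring
  rw [h3, h1, h4]
  have h5 : D F x ω = F (ins x ω) - F ω := rfl
  rw [h5]
  linear_combination lam * h2

end Coe

end Pool.Agent.HdGas
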