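import Pool.Agent.Lib.NT.CwQuad

/-!
# Row COERW: the Bochner identity with weights (helper39)
-/

set_option autoImplicit false

namespace Pool.Agent.HdGas

open MeasureTheory Filter Topology

variable {S : Type} [MeasurableSpace S] {m : Measure S} [SigmaFinite m] {C : S → S → Prop}
  {L : Set S} {lam b : ℝ} {K : ℕ}

theorem cw_meas_ins : Measurable fun q : S × Om S => ins q.1 q.2 := by
  refine measurable_prod_om fun n => ?_
  exact (measurable_mk (n + 1)).comp (measurable_cons n)

theorem cw_meas_ins' (x : S) : Measurable fun ω : Om S => ins x ω :=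
  cw_meas_ins.comp (measurable_const.prodMk measurable_id)

theorem cw_meas_sum_del {G : S → Om S → ℝ} (hG : Measurable fun q : S × Om S => G q.1 q.2) :
    Measurable fun ω : Om S => ∑ i, G (ω.2 i) (del ω i) := by
  refine measurable_om fun n => ?_
  cases n with
  | zero =>
    have : (fun x : Fin 0 → S => ∑ i, G ((⟨0, x⟩ : Om S).2 i) (del ⟨0, x⟩ i)) = fun _ => 0 := by
      funext x
      exact Finset.sum_of_isEmpty _
    rw [this]
    exact measurable_const
  | succ n =>
    have e : (fun x : Fin (n + 1) → S => ∑ i, G ((⟨n + 1, x⟩ : Om S).2 i) (del ⟨n + 1, x⟩ i)) =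
        fun x : Fin (n + 1) → S => ∑ i : Fin (n + 1), G (x i) ⟨n, i.removeNth x⟩ := rfl
    rw [e]
    refine Finset.measurable_sum _ fun i _ => ?_
    have h1 : Measurable fun x : Fin (n + 1) → S => i.removeNth x :=
      measurable_pi_lambda _ fun j => measurable_pi_apply (i.succAbove j)
    have h2 : Measurable fun x : Fin (n + 1) → S => (x i, (⟨n, i.removeNth x⟩ : Om S)) :=
      (measurable_pi_apply i).prodMk ((measurable_mk n).comp h1)
    exact hG.comp h2

omit [MeasurableSpace S] in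
theorem Sym.D' {F : Om S → ℝ} (hF : Sym F) (x : S) : Sym (D F x) := by
  intro n y σ
  unfold D
  have h1 := hF.ins x n y σ
  simp only at h1
  rw [h1, hF n y σ]

theorem cw_meas_D {F : Om S → ℝ} (hF : Measurable F) :
    Measurable fun q : S × Om S => D F q.1 q.2 :=
  (hF.comp cw_meas_ins).sub (hF.comp measurable_snd)

omit [MeasurableSpace S] in
theorem cw_D_bd {F : Om S → ℝ} {B : ℝ} (hB : ∀ ω, |F ω| ≤ B) (x : S) (ω : Om S) :
    |D F x ω| ≤ 2 * B := by
  unfold D
  have h1 := abs_le.1 (hB ω)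
  have h2 := abs_le.1 (hB (ins x ω))
  rw [abs_le]
  constructor <;> linarith

omit [SigmaFinite m] in
theorem Sys.chi_ins (_ : Sys m C L lam b K) (x p : S) (ω : Om S) :
    chi C (Al S) x (ins p ω) = (1 - kc C x p) * chi C (Al S) x ω := by
  rw [cw_chi_ins]
  by_cases h : C x p
  · rw [if_pos h, kc_pos h]
    ring
  · rw [if_neg h, kc_neg h]
    ring

/-- Change of the generator when a point is added. -/
theorem Sys.D_gen (hS : Sys m C L lam b K) {F : Om S → ℝ} (hF : Measurable F) (hs : Sym F)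
    {B : ℝ} (hB : ∀ ω, |F ω| ≤ B) (x : S) (ω : Om S) :
    D (gen m C lam L F) x ω = -D F x ω + ∑ i, (D F x (del ω i) - D F x ω) +
      lam * ∫ p in L, (1 - kc C x p) * (chi C (Al S) p ω * D (D F x) p ω) ∂m -
      lam * ∫ p in L, kc C x p * (chi C (Al S) p ω * D F p ω) ∂m := by
  have hfin := hS.finR
  have hB0 : 0 ≤ B := (abs_nonneg _).trans (hB ω)
  have hmc : ∀ η : Om S, Measurable fun p => chi C (Al S) p η := fun η =>
    hS.meas_chi.comp (measurable_id.prodMk measurable_const)
  have hmD : ∀ {G : Om S → ℝ}, Measurable G → ∀ η : Om S, Measurable fun p => D G p η :=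
    fun {G} hG η => (cw_meas_D hG).comp (measurable_id.prodMk measurable_const)
  have hk : Measurable fun p => kc C x p :=
    hS.meas_kc.comp (measurable_const.prodMk measurable_id)
  have hDm : Measurable (D F x) := (hF.comp (cw_meas_ins' x)).sub hF
  have hic : ∀ (G : Om S → ℝ) (M : ℝ), Measurable G → (∀ ω, |G ω| ≤ M) → ∀ η : Om S,
      Integrable (fun p => chi C (Al S) p η * D G p η) (m.restrict L) := by
    intro G M hG hM η
    refine Integrable.of_bound ((hmc η).mul (hmD hG η)).aestronglyMeasurable (1 * (2 * M))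
      (ae_of_all _ fun p => ?_)
    rw [Real.norm_eq_abs, abs_mul, abs_of_nonneg (chi_nonneg _ _ _ _)]
    exact mul_le_mul (chi_le_one _ _ _ _) (cw_D_bd hM p η) (abs_nonneg _) (by norm_num)
  have hik : ∀ (f : S → ℝ) (g : S → ℝ), Integrable f (m.restrict L) → Measurable g →
      (∀ p, |g p| ≤ 1) → Integrable (fun p => g p * f p) (m.restrict L) := by
    intro f g hf hg hb
    refine hf.bdd_mul hg.aestronglyMeasurable (c := 1) (ae_of_all _ fun p => ?_)
    exact hb p
  have i1 := hic F B hF hB (ins x ω)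
  have i2 := hic F B hF hB ω
  have i3 := hik _ (fun p => 1 - kc C x p) (hic (D F x) (2 * B) hDm (cw_D_bd hB x) ω)
    (measurable_const.sub hk) (fun p => by
      have := kc_nonneg C x p
      have := kc_le_one C x p
      rw [abs_le]; constructor <;> linarith)
  have i4 := hik _ (fun p => kc C x p) i2 hk (fun p => by
      rw [abs_of_nonneg (kc_nonneg C x p)]; exact kc_le_one C x p)
  have e : (∫ p in L, chi C (Al S) p (ins x ω) * D F p (ins x ω) ∂m) -
      ∫ p in L, chi C (Al S) p ω * D F p ω ∂m =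
      (∫ p in L, (1 - kc C x p) * (chi C (Al S) p ω * D (D F x) p ω) ∂m) -
      ∫ p in L, kc C x p * (chi C (Al S) p ω * D F p ω) ∂m := by
    rw [← integral_sub i1 i2, ← integral_sub i3 i4]
    refine integral_congr_ae (ae_of_all _ fun p => ?_)
    simp only
    rw [hS.chi_ins p x ω, hS.kc_symm p x]
    unfold D
    rw [cw_sym_ins_ins hs x p ω]
    ring
  have e2 : gen m C lam L F (ins x ω) = (F ω - F (ins x ω)) +
      ∑ i, (F (ins x (del ω i)) - F (ins x ω)) +
      lam * ∫ p in L, chi C (Al S) p (ins x ω) * D F p (ins x ω) ∂m := by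
    unfold gen
    rw [cw_sum_ins (fun η => F η - F (ins x ω))]
  have e3 : gen m C lam L F ω = ∑ i, (F (del ω i) - F ω) +
      lam * ∫ p in L, chi C (Al S) p ω * D F p ω ∂m := rfl
  have e4 : ∑ i, (D F x (del ω i) - D F x ω) = ∑ i, (F (ins x (del ω i)) - F (ins x ω)) -
      ∑ i, (F (del ω i) - F ω) := by
    rw [← Finset.sum_sub_distrib]
    refine Finset.sum_congr rfl fun i _ => ?_
    unfold D
    ring
  have e5 : D (gen m C lam L F) x ω = gen m C lam L F (ins x ω) - gen m C lam L F ω := rfl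
  rw [e5, e2, e3, e4]
  have e6 : D F x ω = F (ins x ω) - F ω := rfl
  rw [e6]
  linear_combination lam * e

/-- `GNZ` without normalisation, for bounded functions. -/
theorem Sys.gnz (hG : GNZ) (hS : Sys m C L lam b K) {G : S → Om S → ℝ}
    (hm : Measurable fun q : S × Om S => G q.1 q.2) (hs : ∀ p, Sym (G p)) {B : ℝ}
    (hB : ∀ p ω, |G p ω| ≤ B) :
    ∫ ω, ∑ i, G (ω.2 i) (del ω i) ∂gib m C lam L =
      lam * ∫ p in L, ∫ ω, chi C (Al S) p ω * G p ω ∂gib m C lam L ∂m := by
  have h := hG S m C L lam b K hS G hm hs ⟨B, fun p ω _ _ _ => hB p ω⟩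
  have hX := hS.xi_pos
  unfold ex at h
  rw [integral_div, div_eq_iff hX.ne', mul_assoc, div_mul_cancel₀ _ hX.ne'] at h
  exact h

/-- The expectation at a place `x`. -/
theorem Sys.coer_pt (hG : GNZ) (hO : OKB) (hS : Sys m C L lam b K) {F : Om S → ℝ}
    (hF : Measurable F) (hs : Sym F) {B : ℝ} (hB : ∀ ω, |F ω| ≤ B) (x : S) :
    ∫ ω, chi C (Al S) x ω * D F x ω * D (gen m C lam L F) x ω ∂gib m C lam L ≤
      -(∫ ω, chi C (Al S) x ω * D F x ω * D F x ω ∂gib m C lam L) -
        lam * ∫ ω, chi C (Al S) x ω * D F x ω *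
          ∫ p in L, kc C x p * (chi C (Al S) p ω * D F p ω) ∂m ∂gib m C lam L := by
  have hfin := hS.finR
  have hfinG := hS.finG
  obtain ⟨h1, h2, h3, h4, h5, -⟩ := hO S m C L lam b K hS
  have hDm : Measurable (D F x) := (hF.comp (cw_meas_ins' x)).sub hF
  have hDs : Sym (D F x) := hs.D' x
  have hB0 : 0 ≤ B := (abs_nonneg _).trans (hB ⟨0, Fin.elim0⟩)
  have hcm : Measurable (chi C (Al S) x) :=
    hS.meas_chi.comp (measurable_const.prodMk measurable_id)
  have hcs : Sym (chi C (Al S) x) :=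
    ((_root_.Pool.Agent.HdGas.meas S m C L lam hS.meas hS.measL hS.fin hS.lam_nonneg).1 (Al S)
      (by
        have : {x : S | Al S x} = Set.univ := by
          ext x
          simp [Al]
        rw [this]
        exact MeasurableSet.univ)).2.2.2.2 x |>.1
  have hD1 : ∀ ω, |D F x ω| ≤ 2 * B := cw_D_bd hB x
  have hD2 : ∀ p ω, |D (D F x) p ω| ≤ 2 * (2 * B) := cw_D_bd hD1
  have hca : ∀ p ω, |chi C (Al S) p ω| ≤ 1 := fun p ω => by
    rw [abs_of_nonneg (chi_nonneg _ _ _ _)]
    exact chi_le_one _ _ _ _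
  have hka : ∀ p, |1 - kc C x p| ≤ 1 := fun p => by
      have := kc_nonneg C x p
      have := kc_le_one C x p
      rw [abs_le]; constructor <;> linarith
  have hka' : ∀ p, |kc C x p| ≤ 1 := fun p => by
      rw [abs_of_nonneg (kc_nonneg C x p)]; exact kc_le_one C x p
  have hkm : Measurable fun q : S × Om S => kc C x q.1 :=
    (hS.meas_kc.comp (measurable_const.prodMk measurable_id)).comp measurable_fst
  -- measurability in `(p, ω)`
  have m1 : Measurable fun q : S × Om S => chi C (Al S) x q.2 * D F x q.2 :=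
    (hcm.comp measurable_snd).mul (hDm.comp measurable_snd)
  have m3 : Measurable fun q : S × Om S => (chi C (Al S) x q.2 * D F x q.2) *
      ((1 - kc C x q.1) * (chi C (Al S) q.1 q.2 * D (D F x) q.1 q.2)) :=
    m1.mul ((measurable_const.sub hkm).mul (hS.meas_chi.mul (cw_meas_D hDm)))
  have m4 : Measurable fun q : S × Om S => (chi C (Al S) x q.2 * D F x q.2) *
      (kc C x q.1 * (chi C (Al S) q.1 q.2 * D F q.1 q.2)) :=
    m1.mul (hkm.mul (hS.meas_chi.mul (cw_meas_D hF)))
  have bmul : ∀ {a c A E : ℝ}, |a| ≤ A → |c| ≤ E → |a * c| ≤ A * E := by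
    intro a c A E ha hc
    rw [abs_mul]
    exact mul_le_mul ha hc (abs_nonneg _) ((abs_nonneg _).trans ha)
  have b3 : ∀ p ω, |(chi C (Al S) x ω * D F x ω) *
      ((1 - kc C x p) * (chi C (Al S) p ω * D (D F x) p ω))| ≤
      (1 * (2 * B)) * (1 * (1 * (2 * (2 * B)))) := fun p ω =>
    bmul (bmul (hca _ _) (hD1 ω)) (bmul (hka p) (bmul (hca _ _) (hD2 p ω)))
  have b4 : ∀ p ω, |(chi C (Al S) x ω * D F x ω) *
      (kc C x p * (chi C (Al S) p ω * D F p ω))| ≤
      (1 * (2 * B)) * (1 * (1 * (2 * B))) := fun p ω =>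
    bmul (bmul (hca _ _) (hD1 ω)) (bmul (hka' p) (bmul (hca _ _) (cw_D_bd hB p ω)))
  -- the four terms
  have t1 : Integrable (fun ω => chi C (Al S) x ω * D F x ω * D F x ω) (gib m C lam L) :=
    hS.int_one hO ((hcm.mul hDm).mul hDm) (M := 1 * (2 * B) * (2 * B))
      fun ω _ => bmul (bmul (hca _ _) (hD1 ω)) (hD1 ω)
  -- GNZ
  set G : S → Om S → ℝ := fun p ω => chi C (Al S) x (ins p ω) * D F x (ins p ω) *
    (D F x ω - D F x (ins p ω)) with hGdef
  have hGm : Measurable fun q : S × Om S => G q.1 q.2 :=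
    ((hcm.comp cw_meas_ins).mul (hDm.comp cw_meas_ins)).mul
      ((hDm.comp measurable_snd).sub (hDm.comp cw_meas_ins))
  have hGs : ∀ p, Sym (G p) := by
    intro p n y σ
    have a1 := hcs.ins p n y σ
    have a2 := hDs.ins p n y σ
    simp only at a1 a2
    simp only [hGdef]
    rw [a1, a2, hDs n y σ]
  have hGb : ∀ p ω, |G p ω| ≤ 1 * (2 * B) * (2 * (2 * B)) := by
    intro p ω
    refine bmul (bmul (hca _ _) (hD1 _)) ?_
    rw [abs_sub_comm]
    exact hD2 p ω
  have hg := hS.gnz hG hGm hGs hGb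
  have hsum : ∀ ω : Om S, ∑ i, G (ω.2 i) (del ω i) =
      chi C (Al S) x ω * D F x ω * ∑ i, (D F x (del ω i) - D F x ω) := by
    intro ω
    rw [Finset.mul_sum]
    refine Finset.sum_congr rfl fun i _ => ?_
    simp only [hGdef]
    rw [cw_sym_ins_del hcs ω i, cw_sym_ins_del hDs ω i]
  have t2 : Integrable (fun ω : Om S => ∑ i, G (ω.2 i) (del ω i)) (gib m C lam L) := by
    refine hS.int_one hO (cw_meas_sum_del hGm) (M := K * (1 * (2 * B) * (2 * (2 * B))))
      fun ω hω => ?_
    refine (Finset.abs_sum_le_sum_abs _ _).trans ?_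
    refine (Finset.sum_le_card_nsmul _ _ _ fun i _ => hGb _ _).trans ?_
    rw [Finset.card_univ, Fintype.card_fin, nsmul_eq_mul]
    exact mul_le_mul_of_nonneg_right (by exact_mod_cast h3 ω hω) (by positivity)
  have t3 := hS.int_right hO m3 fun p _ ω _ => b3 p ω
  have t4 := hS.int_right hO m4 fun p _ ω _ => b4 p ω
  have e0 : ∀ ω, chi C (Al S) x ω * D F x ω * D (gen m C lam L F) x ω =
      -(chi C (Al S) x ω * D F x ω * D F x ω) + ∑ i, G (ω.2 i) (del ω i) +
      lam * (∫ p in L, (chi C (Al S) x ω * D F x ω) *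
        ((1 - kc C x p) * (chi C (Al S) p ω * D (D F x) p ω)) ∂m) -
      lam * (∫ p in L, (chi C (Al S) x ω * D F x ω) *
        (kc C x p * (chi C (Al S) p ω * D F p ω)) ∂m) := by
    intro ω
    rw [hsum, integral_const_mul, integral_const_mul, hS.D_gen hF hs hB x ω]
    ring
  have e1 : ∫ ω, chi C (Al S) x ω * D F x ω * D (gen m C lam L F) x ω ∂gib m C lam L =
      -(∫ ω, chi C (Al S) x ω * D F x ω * D F x ω ∂gib m C lam L) +
      (∫ ω, ∑ i, G (ω.2 i) (del ω i) ∂gib m C lam L) +
      lam * (∫ ω, ∫ p in L, (chi C (Al S) x ω * D F x ω) *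
        ((1 - kc C x p) * (chi C (Al S) p ω * D (D F x) p ω)) ∂m ∂gib m C lam L) -
      lam * (∫ ω, ∫ p in L, (chi C (Al S) x ω * D F x ω) *
        (kc C x p * (chi C (Al S) p ω * D F p ω)) ∂m ∂gib m C lam L) := by
    simp_rw [e0]
    rw [integral_sub, integral_add, integral_add, integral_neg, integral_const_mul,
      integral_const_mul]
    · exact t1.neg
    · exact t2
    · exact t1.neg.add t2
    · exact t3.const_mul lam
    · exact (t1.neg.add t2).add (t3.const_mul lam)
    · exact t4.const_mul lam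
  have e4 : ∫ ω, ∫ p in L, (chi C (Al S) x ω * D F x ω) *
        (kc C x p * (chi C (Al S) p ω * D F p ω)) ∂m ∂gib m C lam L =
      ∫ ω, chi C (Al S) x ω * D F x ω *
          ∫ p in L, kc C x p * (chi C (Al S) p ω * D F p ω) ∂m ∂gib m C lam L := by
    simp_rw [integral_const_mul]
  -- the sum of the second and of the third term
  have m5 : Measurable fun q : S × Om S => chi C (Al S) q.1 q.2 * G q.1 q.2 :=
    hS.meas_chi.mul hGm
  have i5 := hS.int_left hO m5 fun p _ ω _ => bmul (hca p ω) (hGb p ω)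
  have i3 := hS.int_left hO m3 fun p _ ω _ => b3 p ω
  have e3 : (∫ ω, ∑ i, G (ω.2 i) (del ω i) ∂gib m C lam L) +
      lam * (∫ ω, ∫ p in L, (chi C (Al S) x ω * D F x ω) *
        ((1 - kc C x p) * (chi C (Al S) p ω * D (D F x) p ω)) ∂m ∂gib m C lam L) ≤ 0 := by
    rw [hg, ← hS.swap hO m3 fun p _ ω _ => b3 p ω, ← mul_add, ← integral_add i5 i3]
    refine mul_nonpos_of_nonneg_of_nonpos hS.lam_nonneg ?_
    refine integral_nonpos fun p => ?_
    simp only [Pi.zero_apply]
    have j5 : Integrable (fun ω => chi C (Al S) p ω * G p ω) (gib m C lam L) :=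
      hS.int_one hO (m5.comp (measurable_const.prodMk measurable_id))
        fun ω _ => bmul (hca p ω) (hGb p ω)
    have j3 : Integrable (fun ω => (chi C (Al S) x ω * D F x ω) *
        ((1 - kc C x p) * (chi C (Al S) p ω * D (D F x) p ω))) (gib m C lam L) :=
      hS.int_one hO (m3.comp (measurable_const.prodMk measurable_id)) fun ω _ => b3 p ω
    rw [← integral_add j5 j3]
    refine integral_nonpos fun ω => ?_
    simp only [Pi.zero_apply, hGdef]
    rw [hS.chi_ins x p ω]
    have e6 : D F x (ins p ω) = D F x ω + D (D F x) p ω := by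
      unfold D
      ring
    rw [e6]
    have : chi C (Al S) p ω * ((1 - kc C x p) * chi C (Al S) x ω * (D F x ω + D (D F x) p ω) *
        (D F x ω - (D F x ω + D (D F x) p ω))) + chi C (Al S) x ω * D F x ω *
        ((1 - kc C x p) * (chi C (Al S) p ω * D (D F x) p ω)) =
        -(chi C (Al S) p ω * ((1 - kc C x p) * chi C (Al S) x ω) * D (D F x) p ω ^ 2) := by ring
    rw [this]
    have h7 : 0 ≤ 1 - kc C x p := by linarith [kc_le_one C x p]
    have := chi_nonneg C (Al S) p ω
    have := chi_nonneg C (Al S) x ω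
    have : 0 ≤ chi C (Al S) p ω * ((1 - kc C x p) * chi C (Al S) x ω) * D (D F x) p ω ^ 2 := by
      positivity
    linarith
  rw [e1, e4]
  linarith

/-- Row COERW. -/
theorem coerw_of (hG : GNZ) (hO : OKB) : COERW := by
  intro S _ m _ C L lam b ε K hS hε hP φ s hφ ⟨Bφ, hBφ⟩ hs F₀ hF₀
  have hfin := hS.finR
  have hfinG := hS.finG
  obtain ⟨F, hF, hsy, ⟨B, hB0, hB⟩, hFF⟩ := hS.ext_fn hO hF₀
  have hFn : Fn C L F := ⟨hF, hsy, B, fun ω _ => hB ω⟩
  rw [hS.en_congr hO _ hFF hFF, hS.en_congr hO _ hFF fun ω hω => hS.gen_congr hO hFF hω]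
  set w : S → ℝ := fun x => Real.exp (2 * φ x) with hw
  obtain ⟨h1, h2, h3, h4, h5, h6, -⟩ := hO S m C L lam b K hS
  obtain ⟨-, hgF, -⟩ := h6 F hFn
  obtain ⟨-, -, hDg, -⟩ := h6 _ hgF
  obtain ⟨B', hB'⟩ := hgF.bdd
  have hX := hS.xi_pos
  have bmul : ∀ {a c A E : ℝ}, |a| ≤ A → |c| ≤ E → |a * c| ≤ A * E := by
    intro a c A E ha hc
    rw [abs_mul]
    exact mul_le_mul ha hc (abs_nonneg _) ((abs_nonneg _).trans ha)
  have hca : ∀ p ω, |chi C (Al S) p ω| ≤ 1 := fun p ω => by
    rw [abs_of_nonneg (chi_nonneg _ _ _ _)]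
    exact chi_le_one _ _ _ _
  have hwm : Measurable w := (hφ.const_mul 2).exp
  have hwb : ∀ p, |w p| ≤ Real.exp (2 * Bφ) := by
    intro p
    rw [hw]
    simp only
    rw [abs_of_pos (Real.exp_pos _)]
    exact Real.exp_le_exp.2 (by linarith [(le_abs_self _).trans (hBφ p)])
  have hw0 : ∀ p, 0 ≤ w p := fun p => (Real.exp_pos _).le
  have hDb : ∀ p ω, |D F p ω| ≤ 2 * B := fun p ω => cw_D_bd hB p ω
  -- first function
  have ma : Measurable fun q : S × Om S =>
      chi C (Al S) q.1 q.2 * D F q.1 q.2 * D (gen m C lam L F) q.1 q.2 :=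
    (hS.meas_chi.mul (cw_meas_D hF)).mul hDg
  have ba : ∀ p ∈ L, ∀ ω, ok C L ω →
      |chi C (Al S) p ω * D F p ω * D (gen m C lam L F) p ω| ≤ 2 * B * (2 * B') := by
    intro p hp ω hω
    have hB'0 : 0 ≤ B' := (abs_nonneg _).trans (hB' ω hω)
    rcases cw_chi01 C p ω with h0 | h1
    · rw [h0]
      simp only [zero_mul, abs_zero]
      positivity
    · rw [h1, one_mul]
      refine bmul (hDb p ω) ?_
      have e1 := abs_le.1 (hB' ω hω)
      have e2 := abs_le.1 (hB' _ (h4 ω hω p hp h1))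
      unfold D
      rw [abs_le]
      constructor <;> linarith
  have ia := hS.int_left hO ma ba
  -- second function
  have mb : Measurable fun q : S × Om S =>
      chi C (Al S) q.1 q.2 * D F q.1 q.2 * D F q.1 q.2 :=
    (hS.meas_chi.mul (cw_meas_D hF)).mul (cw_meas_D hF)
  have bb : ∀ p ∈ L, ∀ ω, ok C L ω →
      |chi C (Al S) p ω * D F p ω * D F p ω| ≤ 1 * (2 * B) * (2 * B) :=
    fun p _ ω _ => bmul (bmul (hca p ω) (hDb p ω)) (hDb p ω)
  have ib := hS.int_left hO mb bb
  -- third function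
  have mr : Measurable fun q : S × Om S =>
      ∫ y in L, kc C q.1 y * (chi C (Al S) y q.2 * D F y q.2) ∂m := by
    have m0 : Measurable fun r : (S × Om S) × S =>
        kc C r.1.1 r.2 * (chi C (Al S) r.2 r.1.2 * D F r.2 r.1.2) := by
      have m1 : Measurable fun r : (S × Om S) × S => ((r.2, r.1.2) : S × Om S) :=
        measurable_snd.prodMk (measurable_snd.comp measurable_fst)
      have m2 : Measurable fun r : (S × Om S) × S => chi C (Al S) r.2 r.1.2 :=
        hS.meas_chi.comp m1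
      have m3 : Measurable fun r : (S × Om S) × S => D F r.2 r.1.2 := (cw_meas_D hF).comp m1
      exact (hS.meas_kc.comp
        ((measurable_fst.comp measurable_fst).prodMk measurable_snd)).mul (m2.mul m3)
    exact m0.stronglyMeasurable.integral_prod_right'.measurable
  have br : ∀ p ω, |∫ y in L, kc C p y * (chi C (Al S) y ω * D F y ω) ∂m| ≤
      1 * (1 * (2 * B)) * (m.restrict L).real Set.univ := by
    intro p ω
    rw [← Real.norm_eq_abs]
    refine norm_integral_le_of_norm_le_const (ae_of_all _ fun y => ?_)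
    rw [Real.norm_eq_abs]
    refine bmul ?_ (bmul (hca y ω) (hDb y ω))
    rw [abs_of_nonneg (kc_nonneg C p y)]
    exact kc_le_one C p y
  have mc : Measurable fun q : S × Om S => chi C (Al S) q.1 q.2 * D F q.1 q.2 *
      ∫ y in L, kc C q.1 y * (chi C (Al S) y q.2 * D F y q.2) ∂m :=
    (hS.meas_chi.mul (cw_meas_D hF)).mul mr
  have bc : ∀ p ∈ L, ∀ ω, ok C L ω → |chi C (Al S) p ω * D F p ω *
      ∫ y in L, kc C p y * (chi C (Al S) y ω * D F y ω) ∂m| ≤
      1 * (2 * B) * (1 * (1 * (2 * B)) * (m.restrict L).real Set.univ) :=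
    fun p _ ω _ => bmul (bmul (hca p ω) (hDb p ω)) (br p ω)
  have ic := hS.int_left hO mc bc
  have wint : ∀ {f : S → ℝ}, Integrable f (m.restrict L) →
      Integrable (fun p => w p * f p) (m.restrict L) := by
    intro f hf
    exact hf.bdd_mul hwm.aestronglyMeasurable (ae_of_all _ fun p => by
      rw [Real.norm_eq_abs]; exact hwb p)
  -- the inequality at each place
  have hpt : ∫ p in L, w p * ∫ ω, chi C (Al S) p ω * D F p ω * D (gen m C lam L F) p ω
        ∂gib m C lam L ∂m ≤
      ∫ p in L, (-(w p * ∫ ω, chi C (Al S) p ω * D F p ω * D F p ω ∂gib m C lam L) -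
        lam * (w p * ∫ ω, chi C (Al S) p ω * D F p ω *
          ∫ y in L, kc C p y * (chi C (Al S) y ω * D F y ω) ∂m ∂gib m C lam L)) ∂m := by
    refine integral_mono (wint ia) ((wint ib).neg.sub ((wint ic).const_mul lam)) fun p => ?_
    have h := mul_le_mul_of_nonneg_left (hS.coer_pt hG hO hF hsy hB p) (hw0 p)
    simp only
    calc _ ≤ _ := h
      _ = _ := by ring
  have ibn : Integrable (fun p => -(w p * ∫ ω, chi C (Al S) p ω * D F p ω * D F p ω
      ∂gib m C lam L)) (m.restrict L) := (wint ib).neg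
  rw [integral_sub ibn ((wint ic).const_mul lam), integral_neg, integral_const_mul] at hpt
  -- the quadratic form
  have mq : Measurable fun q : S × Om S => w q.1 * (chi C (Al S) q.1 q.2 * D F q.1 q.2 *
      ∫ y in L, kc C q.1 y * (chi C (Al S) y q.2 * D F y q.2) ∂m) :=
    (hwm.comp measurable_fst).mul mc
  have bq : ∀ p ∈ L, ∀ ω, ok C L ω → |w p * (chi C (Al S) p ω * D F p ω *
      ∫ y in L, kc C p y * (chi C (Al S) y ω * D F y ω) ∂m)| ≤ Real.exp (2 * Bφ) *
      (1 * (2 * B) * (1 * (1 * (2 * B)) * (m.restrict L).real Set.univ)) :=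
    fun p hp ω hω => bmul (hwb p) (bc p hp ω hω)
  have ms : Measurable fun q : S × Om S => w q.1 *
      (chi C (Al S) q.1 q.2 * D F q.1 q.2 * D F q.1 q.2) :=
    (hwm.comp measurable_fst).mul mb
  have bs : ∀ p ∈ L, ∀ ω, ok C L ω → |w p * (chi C (Al S) p ω * D F p ω * D F p ω)| ≤
      Real.exp (2 * Bφ) * (1 * (2 * B) * (2 * B)) :=
    fun p hp ω hω => bmul (hwb p) (bb p hp ω hω)
  have hquad : ∀ ω, -(b * (ε + (Real.cosh s - 1)) *
      ∫ p in L, w p * (chi C (Al S) p ω * D F p ω * D F p ω) ∂m) ≤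
      ∫ p in L, w p * (chi C (Al S) p ω * D F p ω *
        ∫ y in L, kc C p y * (chi C (Al S) y ω * D F y ω) ∂m) ∂m := by
    intro ω
    have hgm : Measurable fun p => chi C (Al S) p ω * D F p ω :=
      (hS.meas_chi.mul (cw_meas_D hF)).comp (measurable_id.prodMk measurable_const)
    have h := hS.quad hP hφ hBφ hs hgm (M := 2 * B + 1) (by linarith) (fun p => by
      have := bmul (hca p ω) (hDb p ω)
      linarith)
    have e : ∫ p in L, Real.exp (2 * φ p) * (chi C (Al S) p ω * D F p ω) ^ 2 ∂m =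
        ∫ p in L, w p * (chi C (Al S) p ω * D F p ω * D F p ω) ∂m := by
      refine integral_congr_ae (ae_of_all _ fun p => ?_)
      simp only [hw]
      rcases cw_chi01 C p ω with h0 | h1
      · rw [h0]; ring
      · rw [h1]; ring
    rw [e] at h
    exact h
  have hint : -(b * (ε + (Real.cosh s - 1)) *
      ∫ p in L, w p * ∫ ω, chi C (Al S) p ω * D F p ω * D F p ω ∂gib m C lam L ∂m) ≤
      ∫ p in L, w p * ∫ ω, chi C (Al S) p ω * D F p ω *
        ∫ y in L, kc C p y * (chi C (Al S) y ω * D F y ω) ∂m ∂gib m C lam L ∂m := by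
    have e1 : ∫ p in L, w p * ∫ ω, chi C (Al S) p ω * D F p ω * D F p ω ∂gib m C lam L ∂m =
        ∫ ω, ∫ p in L, w p * (chi C (Al S) p ω * D F p ω * D F p ω) ∂m ∂gib m C lam L := by
      rw [← hS.swap hO ms bs]
      refine integral_congr_ae (ae_of_all _ fun p => ?_)
      simp only
      rw [integral_const_mul]
    have e2 : ∫ p in L, w p * ∫ ω, chi C (Al S) p ω * D F p ω *
        ∫ y in L, kc C p y * (chi C (Al S) y ω * D F y ω) ∂m ∂gib m C lam L ∂m =
        ∫ ω, ∫ p in L, w p * (chi C (Al S) p ω * D F p ω *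
          ∫ y in L, kc C p y * (chi C (Al S) y ω * D F y ω) ∂m) ∂m ∂gib m C lam L := by
      rw [← hS.swap hO mq bq]
      refine integral_congr_ae (ae_of_all _ fun p => ?_)
      simp only
      rw [integral_const_mul]
    rw [e1, e2, ← integral_const_mul, ← integral_neg]
    exact integral_mono ((hS.int_right hO ms bs).const_mul _).neg (hS.int_right hO mq bq) hquad
  -- conclusion
  have E1 := hS.xi_en w F (gen m C lam L F)
  have E2 := hS.xi_en w F F
  have hl := hS.lam_nonneg
  set X := Xi m C lam L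
  set e₁ := en m C lam L w F (gen m C lam L F)
  set e₂ := en m C lam L w F F
  have h7 := mul_le_mul_of_nonneg_left hpt hl
  have h8 := mul_le_mul_of_nonneg_left hint (mul_nonneg hl hl)
  refine le_of_mul_le_mul_right ?_ hX
  rw [← E1] at h7
  have h9 : -(b * (ε + (Real.cosh s - 1)) * (lam * (e₂ * X))) =
      lam * lam * -(b * (ε + (Real.cosh s - 1)) *
      ∫ p in L, w p * ∫ ω, chi C (Al S) p ω * D F p ω * D F p ω ∂gib m C lam L ∂m) := by
    rw [E2]
    ring
  rw [← h9] at h8
  have h10 : lam * ((-∫ p in L, w p * ∫ ω, chi C (Al S) p ω * D F p ω * D F p ω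
      ∂gib m C lam L ∂m) - lam * ∫ p in L, w p * ∫ ω, chi C (Al S) p ω * D F p ω *
        ∫ y in L, kc C p y * (chi C (Al S) y ω * D F y ω) ∂m ∂gib m C lam L ∂m) =
      -(e₂ * X) - lam * lam * ∫ p in L, w p * ∫ ω, chi C (Al S) p ω * D F p ω *
        ∫ y in L, kc C p y * (chi C (Al S) y ω * D F y ω) ∂m ∂gib m C lam L ∂m := by
    rw [E2]
    ring
  rw [h10] at h7
  linarith

end Pool.Agent.HdGas
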