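import Pool.Agent.Lib.NT.Rows
import Pool.Agent.Lib.MF.Bas
import Pool.Agent.Lib.MF.Meas
import Pool.Agent.Lib.MF.Int
import Pool.Agent.Lib.MF.Split

/-!
# Tools: points added and removed, Fubini for the gas (helper39)
-/

set_option autoImplicit false

namespace Pool.Agent.HdGas

open MeasureTheory Filter Topology

section comb

variable {S : Type}

theorem cw_del_zero (x : S) (ω : Om S) : del (ins x ω) (0 : Fin (ω.1 + 1)) = ω := by
  obtain ⟨n, y⟩ := ω
  simp only [ins, del]
  rw [Fin.removeNth_zero, Fin.tail_cons]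

theorem cw_del_succ (x : S) (ω : Om S) (i : Fin ω.1) :
    del (ins x ω) (i.succ : Fin (ω.1 + 1)) = ins x (del ω i) := by
  obtain ⟨n, y⟩ := ω
  cases n with
  | zero => exact i.elim0
  | succ n =>
    simp only [ins, del]
    congr 1
    funext j
    refine Fin.cases ?_ (fun k => ?_) j
    · simp [Fin.removeNth_apply]
    · simp [Fin.removeNth_apply, Fin.succ_succAbove_succ]

theorem cw_sum_ins (f : Om S → ℝ) (x : S) (ω : Om S) :
    ∑ i, f (del (ins x ω) i) = f ω + ∑ i, f (ins x (del ω i)) := by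
  have h : ∑ i, f (del (ins x ω) i) = ∑ i : Fin (ω.1 + 1), f (del (ins x ω) i) := rfl
  rw [h, Fin.sum_univ_succ, cw_del_zero]
  congr 1
  refine Finset.sum_congr rfl fun i _ => ?_
  rw [cw_del_succ]

theorem cw_sym_ins_del {α : Type} {F : Om S → α} (hF : Sym F) (ω : Om S) (i : Fin ω.1) :
    F (ins (ω.2 i) (del ω i)) = F ω := by
  obtain ⟨n, y⟩ := ω
  cases n with
  | zero => exact i.elim0
  | succ n =>
    simp only [ins, del]
    rw [Fin.cons_removeNth_eq_comp_cycleRange_symm]
    exact hF _ _ _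

theorem cw_sym_ins_ins {α : Type} {F : Om S → α} (hF : Sym F) (p q : S) (ω : Om S) :
    F (ins p (ins q ω)) = F (ins q (ins p ω)) := by
  obtain ⟨n, y⟩ := ω
  simp only [ins]
  refine hF.eq_mk (Equiv.swap 0 1) fun j => ?_
  refine Fin.cases ?_ (fun k => ?_) j
  · rw [Equiv.swap_apply_left]
    rfl
  · refine Fin.cases ?_ (fun l => ?_) k
    · have : (Fin.succ (0 : Fin (n + 1))) = (1 : Fin (n + 2)) := rfl
      rw [this, Equiv.swap_apply_right]
      rfl
    · have e : (Equiv.swap (0 : Fin (n + 2)) 1) l.succ.succ = l.succ.succ :=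
        Equiv.swap_apply_of_ne_of_ne (Fin.succ_ne_zero _)
          (by intro h; exact Fin.succ_ne_zero l (Fin.succ_injective _ h))
      show _ = (Fin.cons q (Fin.cons p y : Fin (n + 1) → S) : Fin (n + 2) → S)
        ((Equiv.swap (0 : Fin (n + 2)) 1) l.succ.succ)
      rw [e]
      simp

open Classical in
theorem cw_chi_ins (C : S → S → Prop) (x p : S) (ω : Om S) :
    chi C (Al S) x (ins p ω) = (if C x p then 0 else 1) * chi C (Al S) x ω := by
  have h : fr C (Al S) x (ins p ω) ↔ ¬ C x p ∧ fr C (Al S) x ω := by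
    constructor
    · intro h
      refine ⟨?_, fun i _ => ?_⟩
      · have := h (0 : Fin (ω.1 + 1)) trivial
        simpa [ins] using this
      · have := h (i.succ : Fin (ω.1 + 1)) trivial
        simpa [ins] using this
    · rintro ⟨h1, h2⟩ i _
      refine Fin.cases ?_ (fun k => ?_) i
      · simpa [ins] using h1
      · simpa [ins] using h2 k trivial
  unfold chi
  by_cases h1 : C x p
  · rw [if_neg (fun h2 => (h.1 h2).1 h1), if_pos h1, zero_mul]
  · by_cases h2 : fr C (Al S) x ω
    · rw [if_pos (h.2 ⟨h1, h2⟩), if_neg h1, if_pos h2, one_mul]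
    · rw [if_neg (fun h3 => h2 (h.1 h3).2), if_neg h2, mul_zero]

theorem cw_chi01 (C : S → S → Prop) (x : S) (ω : Om S) :
    chi C (Al S) x ω = 0 ∨ chi C (Al S) x ω = 1 := by
  unfold chi
  split_ifs
  · exact Or.inr rfl
  · exact Or.inl rfl

end comb

section an

variable {S : Type} [MeasurableSpace S] {m : Measure S} [SigmaFinite m] {C : S → S → Prop}
  {L : Set S} {lam b : ℝ} {K : ℕ}

omit [SigmaFinite m] in
theorem Sys.finR (hS : Sys m C L lam b K) : IsFiniteMeasure (m.restrict L) :=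
  ⟨by rw [Measure.restrict_apply_univ]; exact lt_top_iff_ne_top.2 hS.fin⟩

theorem Sys.finG (hS : Sys m C L lam b K) : IsFiniteMeasure (gib m C lam L) :=
  (bas S m C L lam hS.meas hS.measL hS.fin hS.lam_nonneg).2.2.1

theorem Sys.xi_pos (hS : Sys m C L lam b K) : 0 < Xi m C lam L :=
  lt_of_lt_of_le one_pos (bas S m C L lam hS.meas hS.measL hS.fin hS.lam_nonneg).2.2.2.1

theorem Sys.meas_chi (hS : Sys m C L lam b K) :
    Measurable fun q : S × Om S => chi C (Al S) q.1 q.2 := by
  have hK : MeasurableSet {x : S | Al S x} := by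
    have : {x : S | Al S x} = Set.univ := by
      ext x
      simp [Al]
    rw [this]
    exact MeasurableSet.univ
  exact ((_root_.Pool.Agent.HdGas.meas S m C L lam hS.meas hS.measL hS.fin hS.lam_nonneg).1 (Al S) hK).1

/-- The product of the volume in `L` and the gas: bounded functions are integrable. -/
theorem Sys.prod_int (hO : OKB) (hS : Sys m C L lam b K) {G : S → Om S → ℝ}
    (hG : Measurable fun q : S × Om S => G q.1 q.2) {M : ℝ}
    (hM : ∀ x ∈ L, ∀ ω, ok C L ω → |G x ω| ≤ M) :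
    Integrable (fun q : S × Om S => G q.1 q.2) ((m.restrict L).prod (gib m C lam L)) := by
  have := hS.finR
  have := hS.finG
  obtain ⟨h1, h2, -⟩ := hO S m C L lam b K hS
  refine Integrable.of_bound hG.aestronglyMeasurable M ?_
  have hs : MeasurableSet {q : S × Om S | q.1 ∈ L ∧ ok C L q.2} :=
    (hS.measL.preimage measurable_fst).inter (h1.preimage measurable_snd)
  have h3 : ∀ᵐ q ∂(m.restrict L).prod (gib m C lam L), q.1 ∈ L ∧ ok C L q.2 := by
    rw [Measure.ae_prod_iff_ae_ae (by exact hs)]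
    filter_upwards [ae_restrict_mem hS.measL] with x hx
    filter_upwards [h2] with ω hω
    exact ⟨hx, hω⟩
  filter_upwards [h3] with q hq
  exact hM q.1 hq.1 q.2 hq.2

theorem Sys.int_one (hO : OKB) (hS : Sys m C L lam b K) {G : Om S → ℝ}
    (hG : Measurable G) {M : ℝ} (hM : ∀ ω, ok C L ω → |G ω| ≤ M) :
    Integrable G (gib m C lam L) := by
  have := hS.finG
  obtain ⟨-, h2, -⟩ := hO S m C L lam b K hS
  refine Integrable.of_bound hG.aestronglyMeasurable M ?_
  filter_upwards [h2] with ω hω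
  exact hM ω hω

theorem Sys.swap (hO : OKB) (hS : Sys m C L lam b K) {G : S → Om S → ℝ}
    (hG : Measurable fun q : S × Om S => G q.1 q.2) {M : ℝ}
    (hM : ∀ x ∈ L, ∀ ω, ok C L ω → |G x ω| ≤ M) :
    ∫ x in L, ∫ ω, G x ω ∂gib m C lam L ∂m = ∫ ω, ∫ x in L, G x ω ∂m ∂gib m C lam L := by
  have := hS.finR
  have := hS.finG
  exact integral_integral_swap (hS.prod_int hO hG hM)

theorem Sys.int_left (hO : OKB) (hS : Sys m C L lam b K) {G : S → Om S → ℝ}
    (hG : Measurable fun q : S × Om S => G q.1 q.2) {M : ℝ}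
    (hM : ∀ x ∈ L, ∀ ω, ok C L ω → |G x ω| ≤ M) :
    Integrable (fun x => ∫ ω, G x ω ∂gib m C lam L) (m.restrict L) := by
  have := hS.finR
  have := hS.finG
  exact (hS.prod_int hO hG hM).integral_prod_left

theorem Sys.int_right (hO : OKB) (hS : Sys m C L lam b K) {G : S → Om S → ℝ}
    (hG : Measurable fun q : S × Om S => G q.1 q.2) {M : ℝ}
    (hM : ∀ x ∈ L, ∀ ω, ok C L ω → |G x ω| ≤ M) :
    Integrable (fun ω => ∫ x in L, G x ω ∂m) (gib m C lam L) := by
  have := hS.finR
  have := hS.finG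
  exact (hS.prod_int hO hG hM).integral_prod_right

/-- `Xi` times the energy. -/
theorem Sys.xi_en (hS : Sys m C L lam b K) (w : S → ℝ) (F G : Om S → ℝ) :
    en m C lam L w F G * Xi m C lam L = lam * ∫ p in L, w p *
      ∫ ω, chi C (Al S) p ω * D F p ω * D G p ω ∂gib m C lam L ∂m := by
  have h : ∀ p, w p * ex m C lam L (fun ω => chi C (Al S) p ω * D F p ω * D G p ω) =
      (w p * ∫ ω, chi C (Al S) p ω * D F p ω * D G p ω ∂gib m C lam L) * (Xi m C lam L)⁻¹ := by
    intro p
    unfold ex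
    rw [div_eq_mul_inv, mul_assoc]
  unfold en
  simp_rw [h]
  rw [integral_mul_const, mul_assoc, mul_assoc, inv_mul_cancel₀ hS.xi_pos.ne', mul_one]

/-- The generator only sees the allowed configurations. -/
theorem Sys.gen_congr (hO : OKB) (hS : Sys m C L lam b K) {F F' : Om S → ℝ}
    (h : ∀ ω, ok C L ω → F ω = F' ω) {ω : Om S} (hω : ok C L ω) :
    gen m C lam L F ω = gen m C lam L F' ω := by
  obtain ⟨-, -, -, h4, h5, -⟩ := hO S m C L lam b K hS
  unfold gen
  congr 1
  · refine Finset.sum_congr rfl fun i _ => ?_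
    rw [h _ hω, h _ (h5 ω hω i)]
  · congr 1
    refine setIntegral_congr_fun hS.measL fun p hp => ?_
    rcases cw_chi01 C p ω with h0 | h1
    · simp only [h0, zero_mul]
    · simp only [D]
      rw [h _ hω, h _ (h4 ω hω p hp h1)]

theorem Sys.en_congr (hO : OKB) (hS : Sys m C L lam b K) {F F' G G' : Om S → ℝ} (w : S → ℝ)
    (h : ∀ ω, ok C L ω → F ω = F' ω) (h' : ∀ ω, ok C L ω → G ω = G' ω) :
    en m C lam L w F G = en m C lam L w F' G' := by
  obtain ⟨-, h2, -, h4, -⟩ := hO S m C L lam b K hS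
  unfold en
  congr 1
  refine setIntegral_congr_fun hS.measL fun p hp => ?_
  congr 1
  unfold ex
  congr 1
  refine integral_congr_ae ?_
  filter_upwards [h2] with ω hω
  rcases cw_chi01 C p ω with h0 | h1
  · simp only [h0, zero_mul]
  · simp only [D]
    rw [h _ hω, h _ (h4 ω hω p hp h1), h' _ hω, h' _ (h4 ω hω p hp h1)]

open Classical in
/-- A function of the allowed configurations may be extended to a bounded function. -/
theorem Sys.ext_fn (hO : OKB) (hS : Sys m C L lam b K) {F : Om S → ℝ} (hF : Fn C L F) :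
    ∃ F' : Om S → ℝ, Measurable F' ∧ Sym F' ∧ (∃ B, 0 ≤ B ∧ ∀ ω, |F' ω| ≤ B) ∧
      ∀ ω, ok C L ω → F ω = F' ω := by
  obtain ⟨h1, -⟩ := hO S m C L lam b K hS
  obtain ⟨B, hB⟩ := hF.bdd
  refine ⟨fun ω => if ok C L ω then F ω else 0, hF.meas.ite h1 measurable_const, ?_,
    ⟨|B|, abs_nonneg _, fun ω => ?_⟩, fun ω hω => (if_pos hω).symm⟩
  · intro n x σ
    have h2 : ok C L ⟨n, x ∘ σ⟩ ↔ ok C L ⟨n, x⟩ := by
      unfold ok
      have h3 : hc C ⟨n, x ∘ σ⟩ = hc C ⟨n, x⟩ := sym_hc C n x σ
      rw [h3]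
      exact and_congr Iff.rfl (σ.forall_congr fun i => Iff.rfl)
    by_cases h : ok C L ⟨n, x⟩
    · simp only [if_pos h, if_pos (h2.2 h), hF.sym n x σ]
    · simp only [if_neg h, if_neg (fun h' => h (h2.1 h'))]
  · by_cases h : ok C L ω
    · simp only [if_pos h]
      exact (hB ω h).trans (le_abs_self B)
    · simp only [if_neg h, abs_zero]
      exact abs_nonneg _

end an

end Pool.Agent.HdGas
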