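import Pool.Agent.Lib.NT.RowsM
import Pool.Agent.Lib.NT.CwTool
import Pool.Agent.Lib.NT.Decay

/-!
# Mean field theory with the sharp error, row CONC: exponential concentration of the free volume
(helper27)
-/

set_option autoImplicit false

namespace Pool.Agent.HdGas

open MeasureTheory Filter Topology

namespace Cnc

section geom

variable {S : Type}

theorem mem_Tk {C : S → S → Prop} {L : Set S} {v z : S} {ω : Om S} :
    z ∈ Tk C L (Al S) v ω ↔ z ∈ L ∧ C v z ∧ ∀ i, ¬ C v (ω.2 i) → ¬ C z (ω.2 i) := by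
  constructor
  · rintro ⟨h1, h2, h3⟩
    exact ⟨h1, h2, fun i hi => h3 i trivial hi⟩
  · rintro ⟨h1, h2, h3⟩
    exact ⟨h1, h2, fun i _ hi => h3 i hi⟩

theorem Tk_ins_near {C : S → S → Prop} {L : Set S} {v x : S} (h : C v x) (ω : Om S) :
    Tk C L (Al S) v (ins x ω) = Tk C L (Al S) v ω := by
  ext z
  rw [mem_Tk, mem_Tk]
  refine and_congr Iff.rfl (and_congr Iff.rfl ?_)
  constructor
  · intro H i hi
    have := H (i.succ : Fin (ω.1 + 1))
    simp only [ins, Fin.cons_succ] at this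
    exact this hi
  · intro H i
    refine Fin.cases ?_ (fun k => ?_) i
    · intro h1
      simp only [ins, Fin.cons_zero] at h1
      exact absurd h h1
    · simp only [ins, Fin.cons_succ]
      exact H k

theorem Tk_ins_far {C : S → S → Prop} {L : Set S} {v x : S} (h : ¬ C v x) (ω : Om S) :
    Tk C L (Al S) v (ins x ω) = Tk C L (Al S) v ω \ {z | C z x} := by
  ext z
  rw [Set.mem_sdiff, mem_Tk, mem_Tk]
  constructor
  · rintro ⟨h1, h2, H⟩
    refine ⟨⟨h1, h2, fun i hi => ?_⟩, ?_⟩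
    · have := H (i.succ : Fin (ω.1 + 1))
      simp only [ins, Fin.cons_succ] at this
      exact this hi
    · have := H (0 : Fin (ω.1 + 1))
      simp only [ins, Fin.cons_zero] at this
      exact this h
  · rintro ⟨⟨h1, h2, H⟩, h3⟩
    refine ⟨h1, h2, fun i => ?_⟩
    refine Fin.cases ?_ (fun k => ?_) i
    · simp only [ins, Fin.cons_zero]
      exact fun _ => h3
    · simp only [ins, Fin.cons_succ]
      exact H k

theorem mem_Tk_del {C : S → S → Prop} {L : Set S} {v z : S} (ω : Om S) (i : Fin ω.1) :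
    z ∈ Tk C L (Al S) v (del ω i) ↔
      z ∈ L ∧ C v z ∧ ∀ j, j ≠ i → ¬ C v (ω.2 j) → ¬ C z (ω.2 j) := by
  obtain ⟨n, y⟩ := ω
  cases n with
  | zero => exact i.elim0
  | succ n =>
    rw [mem_Tk]
    refine and_congr Iff.rfl (and_congr Iff.rfl ?_)
    constructor
    · intro H j hj
      obtain ⟨k, hk⟩ := Fin.exists_succAbove_eq hj
      have := H k
      simp only [del, Fin.removeNth_apply] at this
      rw [hk] at this
      exact this
    · intro H k
      simp only [del]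
      exact H _ (Fin.succAbove_ne _ _)

end geom

section vol

variable {S : Type} [MeasurableSpace S] {m : Measure S} {C : S → S → Prop}
  {L : Set S} {b κ ε lam : ℝ} {K : ℕ}

theorem Tk_fin (hS : Sys m C L lam b K) (v : S) (ω : Om S) : m (Tk C L (Al S) v ω) ≠ ⊤ :=
  ((measure_mono fun _ hz => hz.2.1).trans_lt
    ((hS.ball v).trans_lt ENNReal.ofReal_lt_top)).ne

theorem Tk_le (hS : Sys m C L lam b K) (v : S) (ω : Om S) :
    (m (Tk C L (Al S) v ω)).toReal ≤ b :=
  ENNReal.toReal_le_of_le_ofReal hS.b_pos.le ((measure_mono fun _ hz => hz.2.1).trans (hS.ball v))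

theorem Y_nonneg (hS : Sys m C L lam b K) (v : S) (ω : Om S) :
    0 ≤ Yk m C lam L (Al S) v ω := mul_nonneg hS.lam_nonneg ENNReal.toReal_nonneg

theorem Y_le (hS : Sys m C L lam b K) (v : S) (ω : Om S) :
    Yk m C lam L (Al S) v ω ≤ lam * b :=
  mul_le_mul_of_nonneg_left (Tk_le hS v ω) hS.lam_nonneg

theorem meas_Tk [SigmaFinite m] (hS : Sys m C L lam b K) (v : S) (ω : Om S) :
    MeasurableSet (Tk C L (Al S) v ω) := by
  have hK : MeasurableSet {x : S | Al S x} := by
    have : {x : S | Al S x} = Set.univ := by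
      ext x
      simp [Al]
    rw [this]
    exact MeasurableSet.univ
  exact ((_root_.Pool.Agent.HdGas.meas S m C L lam hS.meas hS.measL hS.fin hS.lam_nonneg).1
    (Al S) hK).2.2.2.1 v ω

theorem Y_fn [SigmaFinite m] (hS : Sys m C L lam b K) (v : S) :
    Fn C L (Yk m C lam L (Al S) v) := by
  have hK : MeasurableSet {x : S | Al S x} := by
    have : {x : S | Al S x} = Set.univ := by
      ext x
      simp [Al]
    rw [this]
    exact MeasurableSet.univ
  obtain ⟨-, h2, -, -, h5⟩ := (_root_.Pool.Agent.HdGas.meas S m C L lam hS.meas hS.measL hS.fin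
    hS.lam_nonneg).1 (Al S) hK
  refine ⟨h2.comp (measurable_const.prodMk measurable_id), (h5 v).2.1, lam * b, fun ω _ => ?_⟩
  rw [abs_of_nonneg (Y_nonneg hS v ω)]
  exact Y_le hS v ω

/-- A new point decreases the free volume, and by at most `θ`. -/
theorem Y_ins [SigmaFinite m] (hS : Sys m C L lam b K) (hG : Geo m C L b κ) (v x : S)
    (ω : Om S) : 0 ≤ Yk m C lam L (Al S) v ω - Yk m C lam L (Al S) v (ins x ω) ∧
      Yk m C lam L (Al S) v ω - Yk m C lam L (Al S) v (ins x ω) ≤ lam * b * κ := by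
  have hk0 : 0 ≤ lam * b * κ := mul_nonneg (mul_nonneg hS.lam_nonneg hS.b_pos.le) hG.kap_pos.le
  by_cases h : C v x
  · unfold Yk
    rw [Tk_ins_near h, sub_self]
    exact ⟨le_rfl, hk0⟩
  · have hm : MeasurableSet {z | C z x} := measurable_prodMk_right hS.meas
    have e1 := measure_sdiff_add_inter (μ := m) (Tk C L (Al S) v ω) hm
    have f1 : m (Tk C L (Al S) v ω \ {z | C z x}) ≠ ⊤ :=
      ne_top_of_le_ne_top (Tk_fin hS v ω) (measure_mono Set.sdiff_subset)
    have f2 : m (Tk C L (Al S) v ω ∩ {z | C z x}) ≠ ⊤ :=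
      ne_top_of_le_ne_top (Tk_fin hS v ω) (measure_mono Set.inter_subset_left)
    have e2 : (m (Tk C L (Al S) v ω \ {z | C z x})).toReal +
        (m (Tk C L (Al S) v ω ∩ {z | C z x})).toReal = (m (Tk C L (Al S) v ω)).toReal := by
      rw [← ENNReal.toReal_add f1 f2, e1]
    have e3 : (m (Tk C L (Al S) v ω ∩ {z | C z x})).toReal ≤ κ * b := by
      refine ENNReal.toReal_le_of_le_ofReal (mul_nonneg hG.kap_pos.le hS.b_pos.le)
        ((measure_mono fun z hz => ?_).trans (hG.far v x h))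
      exact ⟨hz.1.2.1, hG.symm _ _ hz.2⟩
    have e4 : Yk m C lam L (Al S) v ω - Yk m C lam L (Al S) v (ins x ω) =
        lam * (m (Tk C L (Al S) v ω ∩ {z | C z x})).toReal := by
      unfold Yk
      rw [Tk_ins_far h, ← e2]
      ring
    rw [e4]
    refine ⟨mul_nonneg hS.lam_nonneg ENNReal.toReal_nonneg, ?_⟩
    have := mul_le_mul_of_nonneg_left e3 hS.lam_nonneg
    linarith

/-- Every place near `v` becomes free by the removal of at most one point. -/
theorem Y_del [SigmaFinite m] (hS : Sys m C L lam b K) (v : S) (ω : Om S) :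
    (∀ i, Yk m C lam L (Al S) v ω ≤ Yk m C lam L (Al S) v (del ω i)) ∧
    ∑ i, (Yk m C lam L (Al S) v (del ω i) - Yk m C lam L (Al S) v ω) ≤ lam * b := by
  have hsub : ∀ i, Tk C L (Al S) v ω ⊆ Tk C L (Al S) v (del ω i) := by
    intro i z hz
    rw [mem_Tk_del]
    rw [mem_Tk] at hz
    exact ⟨hz.1, hz.2.1, fun j _ => hz.2.2 j⟩
  have hd : ∀ i, (m (Tk C L (Al S) v (del ω i))).toReal - (m (Tk C L (Al S) v ω)).toReal =
      (m (Tk C L (Al S) v (del ω i) \ Tk C L (Al S) v ω)).toReal := by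
    intro i
    rw [measure_sdiff (hsub i) (meas_Tk hS v ω).nullMeasurableSet (Tk_fin hS v ω),
      ENNReal.toReal_sub_of_le (measure_mono (hsub i)) (Tk_fin hS v _)]
  refine ⟨fun i => mul_le_mul_of_nonneg_left
    (ENNReal.toReal_mono (Tk_fin hS v _) (measure_mono (hsub i))) hS.lam_nonneg, ?_⟩
  have e1 : ∑ i, (Yk m C lam L (Al S) v (del ω i) - Yk m C lam L (Al S) v ω) =
      lam * ∑ i, (m (Tk C L (Al S) v (del ω i) \ Tk C L (Al S) v ω)).toReal := by
    rw [Finset.mul_sum]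
    refine Finset.sum_congr rfl fun i _ => ?_
    unfold Yk
    rw [← hd i]
    ring
  rw [e1]
  refine mul_le_mul_of_nonneg_left ?_ hS.lam_nonneg
  have hdis : Pairwise (Function.onFun Disjoint
      fun i => Tk C L (Al S) v (del ω i) \ Tk C L (Al S) v ω) := by
    intro i j hij
    refine Set.disjoint_left.2 fun z hi hj => ?_
    have h1 := (mem_Tk_del ω i).1 hi.1
    have h2 := (mem_Tk_del ω j).1 hj.1
    refine hi.2 (mem_Tk.2 ⟨h1.1, h1.2.1, fun k => ?_⟩)
    by_cases hk : k = i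
    · exact h2.2.2 k (by rw [hk]; exact hij)
    · exact h1.2.2 k hk
  have hf : ∀ i, m (Tk C L (Al S) v (del ω i) \ Tk C L (Al S) v ω) ≠ ⊤ := fun i =>
    ne_top_of_le_ne_top (Tk_fin hS v _) (measure_mono Set.sdiff_subset)
  rw [← ENNReal.toReal_sum fun i _ => hf i]
  refine ENNReal.toReal_le_of_le_ofReal hS.b_pos.le ?_
  have e2 : ∑ i, m (Tk C L (Al S) v (del ω i) \ Tk C L (Al S) v ω) =
      m (⋃ i, Tk C L (Al S) v (del ω i) \ Tk C L (Al S) v ω) := by
    rw [measure_iUnion hdis fun i => (meas_Tk hS v _).diff (meas_Tk hS v ω), tsum_fintype]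
  rw [e2]
  refine (measure_mono ?_).trans (hS.ball v)
  intro z hz
  obtain ⟨i, hi⟩ := Set.mem_iUnion.1 hz
  exact hi.1.2.1

end vol

section expect

variable {S : Type} [MeasurableSpace S] {m : Measure S} [SigmaFinite m] {C : S → S → Prop}
  {L : Set S} {b κ ε lam : ℝ} {K : ℕ}

theorem ex_mono (hO : OKB) (hS : Sys m C L lam b K) {F G : Om S → ℝ} (hF : Fn C L F)
    (hG : Fn C L G) (h : ∀ ω, ok C L ω → F ω ≤ G ω) : ex m C lam L F ≤ ex m C lam L G := by
  obtain ⟨-, hok, -, -, -, h6, -, -⟩ := hO S m C L lam b K hS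
  unfold ex
  refine div_le_div_of_nonneg_right ?_ hS.xi_pos.le
  refine integral_mono_ae (h6 F hF).1 (h6 G hG).1 ?_
  filter_upwards [hok] with ω hω
  exact h ω hω

theorem ex_const (hS : Sys m C L lam b K) (c : ℝ) : ex m C lam L (fun _ => c) = c := by
  have := hS.xi_pos
  unfold ex
  rw [integral_const, smul_eq_mul]
  have : (gib m C lam L).real Set.univ = Xi m C lam L := rfl
  rw [this, mul_comm, mul_div_assoc, div_self hS.xi_pos.ne', mul_one]

theorem ex_lin (hO : OKB) (hS : Sys m C L lam b K) {F G : Om S → ℝ} (hF : Fn C L F)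
    (hG : Fn C L G) (a c : ℝ) : ex m C lam L (fun ω => a * F ω + c * G ω) =
      a * ex m C lam L F + c * ex m C lam L G := by
  obtain ⟨-, -, -, -, -, h6, -, -⟩ := hO S m C L lam b K hS
  unfold ex
  rw [integral_add ((h6 F hF).1.const_mul a) ((h6 G hG).1.const_mul c), integral_const_mul,
    integral_const_mul]
  ring

omit [SigmaFinite m] in
theorem ex_smul (a : ℝ) (F : Om S → ℝ) :
    ex m C lam L (fun ω => a * F ω) = a * ex m C lam L F := by
  unfold ex
  rw [integral_const_mul]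
  ring

/-- `exp (-r Y)` is admissible. -/
theorem E_fn (hS : Sys m C L lam b K) (v : S) {r : ℝ} (hr : 0 ≤ r) :
    Fn C L (fun ω => Real.exp (-(r * Yk m C lam L (Al S) v ω))) := by
  have h := Y_fn hS v
  refine ⟨(h.meas.const_mul r).neg.exp, fun n x σ => ?_, 1, fun ω _ => ?_⟩
  · show Real.exp _ = Real.exp _
    rw [h.sym n x σ]
  · rw [abs_of_pos (Real.exp_pos _), Real.exp_le_one_iff, neg_nonpos]
    exact mul_nonneg hr (Y_nonneg hS v ω)

/-- The exponential moment. -/
noncomputable def Hs (m : Measure S) (C : S → S → Prop) (lam : ℝ) (L : Set S) (v : S)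
    (r : ℝ) : ℝ := ex m C lam L (fun ω => Real.exp (-(r * Yk m C lam L (Al S) v ω)))

/-- The weighted sum over the places excluded by one point. -/
theorem gnz_bound (hO : OKB) (hN : GNZ) (hS : Sys m C L lam b K) (hG : Geo m C L b κ) (v : S)
    {r : ℝ} (hr : 0 ≤ r) :
    lam * ∫ p in L, ex m C lam L (fun ω => chi C (Al S) p ω *
      (Real.exp (-(r * Yk m C lam L (Al S) v ω)) *
        (Yk m C lam L (Al S) v ω - Yk m C lam L (Al S) v (ins p ω)))) ∂m ≤
      lam * b * Hs m C lam L v r := by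
  obtain ⟨-, -, hcard, -, hdel, h6, -, -⟩ := hO S m C L lam b K hS
  have hY := Y_fn hS v
  have hE := E_fn hS v hr
  obtain ⟨-, -, hmD, hsD⟩ := h6 _ hY
  set G : S → Om S → ℝ := fun p ω => Real.exp (-(r * Yk m C lam L (Al S) v ω)) *
        (Yk m C lam L (Al S) v ω - Yk m C lam L (Al S) v (ins p ω)) with hGd
  have hGD : ∀ p ω, G p ω = Real.exp (-(r * Yk m C lam L (Al S) v ω)) *
      (-D (Yk m C lam L (Al S) v) p ω) := by
    intro p ω
    simp only [hGd, D]
    ring
  have hGm : Measurable (fun q : S × Om S => G q.1 q.2) := by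
    have : (fun q : S × Om S => G q.1 q.2) = fun q => Real.exp (-(r * Yk m C lam L (Al S) v q.2)) *
      (-D (Yk m C lam L (Al S) v) q.1 q.2) := by
      funext q
      exact hGD _ _
    rw [this]
    exact (hE.meas.comp measurable_snd).mul hmD.neg
  have hGs : ∀ p, Sym (G p) := by
    intro p n x σ
    rw [hGD, hGD, hsD p n x σ, hY.sym n x σ]
  have hGb : ∃ B, ∀ p ω, p ∈ L → ok C L ω → chi C (Al S) p ω = 1 → |G p ω| ≤ B := by
    refine ⟨lam * b * κ, fun p ω _ _ _ => ?_⟩
    have h1 := Y_ins hS hG v p ω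
    simp only [hGd]
    rw [abs_of_nonneg (mul_nonneg (Real.exp_pos _).le h1.1)]
    have h2 : Real.exp (-(r * Yk m C lam L (Al S) v ω)) ≤ 1 := by
      rw [Real.exp_le_one_iff, neg_nonpos]
      exact mul_nonneg hr (Y_nonneg hS v ω)
    calc _ ≤ 1 * (Yk m C lam L (Al S) v ω - Yk m C lam L (Al S) v (ins p ω)) :=
          mul_le_mul_of_nonneg_right h2 h1.1
      _ ≤ _ := by rw [one_mul]; exact h1.2
  rw [← hN S m C L lam b K hS G hGm hGs hGb]
  -- the pointwise bound
  have hpt : ∀ ω, ∑ i, G (ω.2 i) (del ω i) ≤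
      lam * b * Real.exp (-(r * Yk m C lam L (Al S) v ω)) := by
    intro ω
    obtain ⟨h1, h2⟩ := Y_del hS v ω
    calc ∑ i, G (ω.2 i) (del ω i) ≤ ∑ i, Real.exp (-(r * Yk m C lam L (Al S) v ω)) *
          (Yk m C lam L (Al S) v (del ω i) - Yk m C lam L (Al S) v ω) := by
          refine Finset.sum_le_sum fun i _ => ?_
          simp only [hGd]
          rw [cw_sym_ins_del hY.sym]
          refine mul_le_mul_of_nonneg_right ?_ (sub_nonneg.2 (h1 i))
          rw [Real.exp_le_exp, neg_le_neg_iff]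
          exact mul_le_mul_of_nonneg_left (h1 i) hr
      _ = Real.exp (-(r * Yk m C lam L (Al S) v ω)) *
          ∑ i, (Yk m C lam L (Al S) v (del ω i) - Yk m C lam L (Al S) v ω) := by
          rw [Finset.mul_sum]
      _ ≤ Real.exp (-(r * Yk m C lam L (Al S) v ω)) * (lam * b) :=
          mul_le_mul_of_nonneg_left h2 (Real.exp_pos _).le
      _ = _ := by ring
  have hpos : ∀ ω, 0 ≤ ∑ i, G (ω.2 i) (del ω i) := by
    intro ω
    refine Finset.sum_nonneg fun i _ => ?_
    simp only [hGd]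
    rw [cw_sym_ins_del hY.sym]
    exact mul_nonneg (Real.exp_pos _).le (sub_nonneg.2 ((Y_del hS v ω).1 i))
  have hI : Integrable (fun ω => lam * b * Real.exp (-(r * Yk m C lam L (Al S) v ω)))
      (gib m C lam L) := ((h6 _ hE).1).const_mul _
  have e : lam * b * Hs m C lam L v r =
      ex m C lam L (fun ω => lam * b * Real.exp (-(r * Yk m C lam L (Al S) v ω))) := by
    rw [ex_smul]
    rfl
  rw [e]
  unfold ex
  refine div_le_div_of_nonneg_right ?_ hS.xi_pos.le
  exact integral_mono_of_nonneg (ae_of_all _ hpos) hI (ae_of_all _ hpt)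

/-- Elementary inequality. -/
theorem sq_exp {y : ℝ} (hy : 0 ≤ y) : (Real.exp y - 1) ^ 2 ≤ y ^ 2 * Real.exp (2 * y) := by
  have h1 : Real.exp y - 1 ≤ y * Real.exp y := by
    have h2 := Real.add_one_le_exp (-y)
    have h3 := Real.exp_pos y
    have h4 : Real.exp (-y) * Real.exp y = 1 := by rw [← Real.exp_add]; simp
    nlinarith
  have h0 : 0 ≤ Real.exp y - 1 := by
    have := Real.add_one_le_exp y
    linarith
  calc (Real.exp y - 1) ^ 2 ≤ (y * Real.exp y) ^ 2 := pow_le_pow_left₀ h0 h1 2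
    _ = _ := by
      rw [mul_pow, ← Real.exp_nat_mul]
      norm_num

theorem exp_half_le : Real.exp (1 / 2) ≤ 2 := by
  have h1 : Real.exp (1 / 2) ^ 2 = Real.exp 1 := by
    rw [← Real.exp_nat_mul]
    norm_num
  have h2 := Real.exp_one_lt_d9
  nlinarith [Real.exp_pos (1 / 2)]

/-- The basic inequality for the exponential moments. -/
theorem step (hO : OKB) (hN : GNZ) (hD : DECAY) (hS : Sys m C L lam b K) (hG : Geo m C L b κ)
    (h0 : 0 ≤ ε) (hP : Posi m C L b ε) (h1 : lam * b * ε ≤ 1 / 2) (h3 : lam * b * κ ≤ 1 / 2)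
    (v : S) {c s : ℝ} (hc0 : 0 ≤ c) (hc1 : c ≤ 1) (hs0 : 0 ≤ s) (hs1 : s ≤ 1) :
    Hs m C lam L v (s * c) ≤ Hs m C lam L v (s / 2 * c) ^ 2 +
      s ^ 2 * ((lam * b) ^ 2 * κ) * Hs m C lam L v (s * c) := by
  have hr : 0 ≤ s * c := mul_nonneg hs0 hc0
  have hr2 : 0 ≤ s / 2 * c := mul_nonneg (by linarith) hc0
  have hlb : 0 ≤ lam * b := mul_nonneg hS.lam_nonneg hS.b_pos.le
  have hk0 : 0 ≤ lam * b * κ := mul_nonneg hlb hG.kap_pos.le
  obtain ⟨-, -, -, hins, -, h6, -, h8⟩ := hO S m C L lam b K hS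
  set F : Om S → ℝ := fun ω => Real.exp (-(s / 2 * c * Yk m C lam L (Al S) v ω)) with hF
  have hFn : Fn C L F := E_fn hS v hr2
  -- the variance
  have hd := hD S m C L lam b ε K hS h0 hP (fun _ => 0) 0 measurable_const ⟨0, by simp⟩ (by simp)
    (by simp only [Real.cosh_zero, sub_self, add_zero]; linarith) F F hFn hFn
  simp only [Real.cosh_zero, sub_self, add_zero, mul_zero, neg_zero, Real.exp_zero] at hd
  have hen : 0 ≤ en m C lam L (fun _ => 1) F F := by
    unfold en
    refine mul_nonneg hS.lam_nonneg (integral_nonneg fun p => mul_nonneg zero_le_one ?_)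
    unfold ex
    refine div_nonneg (integral_nonneg fun ω => ?_) hS.xi_pos.le
    show 0 ≤ chi C (Al S) p ω * D F p ω * D F p ω
    rw [mul_assoc]
    refine mul_nonneg ?_ (mul_self_nonneg _)
    rcases cw_chi01 C p ω with h | h <;> rw [h]
    exact zero_le_one
  rw [Real.mul_self_sqrt hen] at hd
  have hinv : (1 - lam * b * ε)⁻¹ ≤ 2 := by
    rw [inv_le_comm₀ (by linarith) (by norm_num)]
    linarith
  have hFF : (fun ω => F ω * F ω) = fun ω => Real.exp (-(s * c * Yk m C lam L (Al S) v ω)) := by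
    funext ω
    simp only [hF]
    rw [← Real.exp_add]
    congr 1
    ring
  have e1 : Hs m C lam L v (s * c) - Hs m C lam L v (s / 2 * c) ^ 2 ≤
      2 * en m C lam L (fun _ => 1) F F := by
    have := le_abs_self (ex m C lam L (fun ω => F ω * F ω) - ex m C lam L F * ex m C lam L F)
    rw [hFF] at this hd
    have h4 : (1 - lam * b * ε)⁻¹ * en m C lam L (fun _ => 1) F F ≤
        2 * en m C lam L (fun _ => 1) F F := mul_le_mul_of_nonneg_right hinv hen
    have h5 : Hs m C lam L v (s / 2 * c) ^ 2 = ex m C lam L F * ex m C lam L F := by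
      unfold Hs
      rw [sq]
    rw [h5]
    unfold Hs
    linarith
  -- the energy
  have e2 : en m C lam L (fun _ => 1) F F ≤ s ^ 2 / 2 * (lam * b * κ) *
      (lam * b * Hs m C lam L v (s * c)) := by
    have hY := Y_fn hS v
    have hE := E_fn hS v hr
    obtain ⟨-, -, hmD, hsD⟩ := h6 _ hY
    refine le_trans ?_ (mul_le_mul_of_nonneg_left (gnz_bound hO hN hS hG v hr)
      (by positivity : 0 ≤ s ^ 2 / 2 * (lam * b * κ)))
    unfold en
    rw [show s ^ 2 / 2 * (lam * b * κ) * (lam * ∫ p in L, ex m C lam L (fun ω =>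
        chi C (Al S) p ω * (Real.exp (-(s * c * Yk m C lam L (Al S) v ω)) *
        (Yk m C lam L (Al S) v ω - Yk m C lam L (Al S) v (ins p ω)))) ∂m) =
        lam * ∫ p in L, s ^ 2 / 2 * (lam * b * κ) * ex m C lam L (fun ω =>
        chi C (Al S) p ω * (Real.exp (-(s * c * Yk m C lam L (Al S) v ω)) *
        (Yk m C lam L (Al S) v ω - Yk m C lam L (Al S) v (ins p ω)))) ∂m by
      rw [integral_const_mul]; ring]
    refine mul_le_mul_of_nonneg_left ?_ hS.lam_nonneg
    set G : S → Om S → ℝ := fun p ω => chi C (Al S) p ω *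
        (Real.exp (-(s * c * Yk m C lam L (Al S) v ω)) *
        (Yk m C lam L (Al S) v ω - Yk m C lam L (Al S) v (ins p ω))) with hGd
    have hGm : Measurable (fun q : S × Om S => G q.1 q.2) := by
      have : (fun q : S × Om S => G q.1 q.2) = fun q => chi C (Al S) q.1 q.2 *
          (Real.exp (-(s * c * Yk m C lam L (Al S) v q.2)) *
          (-D (Yk m C lam L (Al S) v) q.1 q.2)) := by
        funext q
        simp only [hGd, D]
        ring
      rw [this]
      exact hS.meas_chi.mul ((hE.meas.comp measurable_snd).mul hmD.neg)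
    have hGb : ∀ p ω, 0 ≤ G p ω ∧ G p ω ≤ lam * b * κ := by
      intro p ω
      have h1 := Y_ins hS hG v p ω
      have h2 : Real.exp (-(s * c * Yk m C lam L (Al S) v ω)) ≤ 1 := by
        rw [Real.exp_le_one_iff, neg_nonpos]
        exact mul_nonneg hr (Y_nonneg hS v ω)
      simp only [hGd]
      rcases cw_chi01 C p ω with h | h <;> rw [h]
      · rw [zero_mul]
        exact ⟨le_rfl, hk0⟩
      · rw [one_mul]
        refine ⟨mul_nonneg (Real.exp_pos _).le h1.1, ?_⟩
        calc _ ≤ 1 * (Yk m C lam L (Al S) v ω - Yk m C lam L (Al S) v (ins p ω)) :=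
              mul_le_mul_of_nonneg_right h2 h1.1
          _ ≤ _ := by rw [one_mul]; exact h1.2
    have hGi : Integrable (fun p => ex m C lam L (G p)) (m.restrict L) := by
      have h := hS.int_left hO hGm (M := lam * b * κ) fun p _ ω _ => by
        rw [abs_of_nonneg (hGb p ω).1]
        exact (hGb p ω).2
      exact h.div_const _
    have hGf : ∀ p, Fn C L (G p) := by
      intro p
      refine ⟨hGm.comp (measurable_const.prodMk measurable_id), fun n x σ => ?_, lam * b * κ,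
        fun ω _ => ?_⟩
      · have a1 := (h8 p).sym n x σ
        have a2 := hsD p n x σ
        have a3 := hY.sym n x σ
        have e : ∀ ω, G p ω = chi C (Al S) p ω *
            (Real.exp (-(s * c * Yk m C lam L (Al S) v ω)) *
            (-D (Yk m C lam L (Al S) v) p ω)) := by
          intro ω
          simp only [hGd, D]
          ring
        rw [e, e, a1, a2, a3]
      · rw [abs_of_nonneg (hGb p ω).1]
        exact (hGb p ω).2
    have hcF : 0 ≤ s ^ 2 / 2 * (lam * b * κ) := by positivity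
    -- pointwise comparison
    have hpt : ∀ p ω, chi C (Al S) p ω * D F p ω * D F p ω ≤
        s ^ 2 / 2 * (lam * b * κ) * G p ω := by
      intro p ω
      obtain ⟨u0, u1⟩ := Y_ins hS hG v p ω
      set u : ℝ := Yk m C lam L (Al S) v ω - Yk m C lam L (Al S) v (ins p ω) with hu
      have hDF : D F p ω = F ω * (Real.exp (s / 2 * c * u) - 1) := by
        simp only [D, hF, hu]
        rw [mul_sub, mul_one, ← Real.exp_add]
        congr 2
        ring
      have hy0 : 0 ≤ s / 2 * c * u := mul_nonneg hr2 u0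
      have hs2 : s / 2 * c ≤ 1 / 2 := by nlinarith
      have h5 : (Real.exp (s / 2 * c * u) - 1) ^ 2 ≤ s ^ 2 / 2 * (lam * b * κ) * u := by
        have a1 := sq_exp hy0
        have a2 : Real.exp (2 * (s / 2 * c * u)) ≤ 2 := by
          refine le_trans (Real.exp_le_exp.2 ?_) exp_half_le
          have : s / 2 * c * u ≤ 1 / 2 * (1 / 2) :=
            mul_le_mul hs2 (u1.trans h3) u0 (by norm_num)
          linarith
        have a3 : (s / 2 * c * u) ^ 2 ≤ s ^ 2 / 4 * ((lam * b * κ) * u) := by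
          have b1 : (s / 2 * c * u) ^ 2 = s ^ 2 / 4 * (c ^ 2 * (u * u)) := by ring
          rw [b1]
          refine mul_le_mul_of_nonneg_left ?_ (by positivity)
          have b2 : c ^ 2 ≤ 1 := pow_le_one₀ hc0 hc1
          calc c ^ 2 * (u * u) ≤ 1 * (u * u) :=
                mul_le_mul_of_nonneg_right b2 (mul_nonneg u0 u0)
            _ ≤ _ := by
              rw [one_mul]
              exact mul_le_mul_of_nonneg_right u1 u0
        calc (Real.exp (s / 2 * c * u) - 1) ^ 2 ≤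
              (s / 2 * c * u) ^ 2 * Real.exp (2 * (s / 2 * c * u)) := a1
          _ ≤ s ^ 2 / 4 * ((lam * b * κ) * u) * 2 :=
              mul_le_mul a3 a2 (Real.exp_pos _).le (by positivity)
          _ = _ := by ring
      have hF2 : F ω * F ω = Real.exp (-(s * c * Yk m C lam L (Al S) v ω)) := by
        simp only [hF]
        rw [← Real.exp_add]
        congr 1
        ring
      have hchi : 0 ≤ chi C (Al S) p ω := by
        rcases cw_chi01 C p ω with h | h <;> rw [h]
        exact zero_le_one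
      calc chi C (Al S) p ω * D F p ω * D F p ω =
            chi C (Al S) p ω * (F ω * F ω * (Real.exp (s / 2 * c * u) - 1) ^ 2) := by
            rw [hDF]; ring
        _ ≤ chi C (Al S) p ω * (F ω * F ω * (s ^ 2 / 2 * (lam * b * κ) * u)) := by
            refine mul_le_mul_of_nonneg_left ?_ hchi
            exact mul_le_mul_of_nonneg_left h5 (mul_self_nonneg _)
        _ = _ := by
            rw [hF2]
            simp only [hGd]
            ring
    obtain ⟨B, -, hB⟩ := DecayAux.fn_prod hO m C L lam b K hS hFn hFn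
    have hle : ∀ p ∈ L, (1 : ℝ) * ex m C lam L (fun ω => chi C (Al S) p ω * D F p ω * D F p ω) ≤
        s ^ 2 / 2 * (lam * b * κ) * ex m C lam L (G p) := by
      intro p hp
      rw [one_mul, ← ex_smul]
      refine ex_mono hO hS (hB p hp).1 ?_ fun ω _ => hpt p ω
      refine ⟨(hGf p).meas.const_mul _, fun n x σ => ?_, ?_⟩
      · show _ * _ = _ * _
        rw [(hGf p).sym n x σ]
      · obtain ⟨B', hB'⟩ := (hGf p).bdd
        refine ⟨|s ^ 2 / 2 * (lam * b * κ)| * B', fun ω hω => ?_⟩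
        rw [abs_mul]
        exact mul_le_mul_of_nonneg_left (hB' ω hω) (abs_nonneg _)
    refine integral_mono_of_nonneg (ae_of_all _ fun p => ?_) (hGi.const_mul _) ?_
    · show (0 : ℝ) ≤ 1 * ex m C lam L _
      refine mul_nonneg zero_le_one ?_
      unfold ex
      refine div_nonneg (integral_nonneg fun ω => ?_) hS.xi_pos.le
      show 0 ≤ chi C (Al S) p ω * D F p ω * D F p ω
      rw [mul_assoc]
      refine mul_nonneg ?_ (mul_self_nonneg _)
      rcases cw_chi01 C p ω with h | h <;> rw [h]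
      exact zero_le_one
    · filter_upwards [ae_restrict_mem hS.measL] with p hp
      exact hle p hp
  have e3 : s ^ 2 * ((lam * b) ^ 2 * κ) * Hs m C lam L v (s * c) =
      2 * (s ^ 2 / 2 * (lam * b * κ) * (lam * b * Hs m C lam L v (s * c))) := by ring
  rw [e3]
  linarith

/-- Small exponents. -/
theorem small (hO : OKB) (hS : Sys m C L lam b K) (v : S) {r : ℝ} (hr : 0 ≤ r)
    (hrt : r * (lam * b) ≤ 1) : Hs m C lam L v r ≤
      Real.exp (-(r * ex m C lam L (Yk m C lam L (Al S) v)) + r ^ 2 * (lam * b) ^ 2) := by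
  have hlb : 0 ≤ lam * b := mul_nonneg hS.lam_nonneg hS.b_pos.le
  have hY := Y_fn hS v
  have hc : Fn C L (fun _ : Om S => (1 : ℝ)) :=
    ⟨measurable_const, fun _ _ _ => rfl, |1|, fun _ _ => le_rfl⟩
  have h1 : Hs m C lam L v r ≤ ex m C lam L (fun ω =>
      (1 + r ^ 2 * (lam * b) ^ 2) * (fun _ : Om S => (1 : ℝ)) ω +
        (-r) * Yk m C lam L (Al S) v ω) := by
    refine ex_mono hO hS (E_fn hS v hr) ?_ fun ω _ => ?_
    · refine ⟨(measurable_const.mul measurable_const).add (hY.meas.const_mul _),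
        fun n x σ => ?_, ?_⟩
      · show _ + _ = _ + _
        rw [hY.sym n x σ]
      · refine ⟨|1 + r ^ 2 * (lam * b) ^ 2| + r * (lam * b), fun ω _ => ?_⟩
        refine (abs_add_le _ _).trans (add_le_add ?_ ?_)
        · rw [mul_one]
        · rw [abs_mul, abs_neg, abs_of_nonneg hr, abs_of_nonneg (Y_nonneg hS v ω)]
          exact mul_le_mul_of_nonneg_left (Y_le hS v ω) hr
    · have y0 := Y_nonneg hS v ω
      have y1 := Y_le hS v ω
      have a0 : 0 ≤ r * Yk m C lam L (Al S) v ω := mul_nonneg hr y0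
      have a1 : r * Yk m C lam L (Al S) v ω ≤ r * (lam * b) := mul_le_mul_of_nonneg_left y1 hr
      have a2 : |-(r * Yk m C lam L (Al S) v ω)| ≤ 1 := by
        rw [abs_neg, abs_of_nonneg a0]
        exact a1.trans hrt
      have a3 := (abs_le.1 (Real.abs_exp_sub_one_sub_id_le a2)).2
      have a4 : (-(r * Yk m C lam L (Al S) v ω)) ^ 2 ≤ r ^ 2 * (lam * b) ^ 2 := by
        rw [neg_sq, ← mul_pow]
        exact pow_le_pow_left₀ a0 a1 2
      linarith
  rw [ex_lin hO hS hc hY, ex_const hS] at h1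
  refine h1.trans ?_
  have h2 := Real.add_one_le_exp
    (-(r * ex m C lam L (Yk m C lam L (Al S) v)) + r ^ 2 * (lam * b) ^ 2)
  linarith

theorem one_sub_ge {y : ℝ} (h0 : 0 ≤ y) (h1 : y ≤ 1 / 2) : Real.exp (-(2 * y)) ≤ 1 - y := by
  have h2 := Real.add_one_le_exp (2 * y)
  have h3 := Real.exp_pos (2 * y)
  rw [Real.exp_neg, inv_le_iff_one_le_mul₀ h3]
  nlinarith

theorem Hs_nonneg (hS : Sys m C L lam b K) (v : S) (r : ℝ) : 0 ≤ Hs m C lam L v r := by
  unfold Hs ex
  exact div_nonneg (integral_nonneg fun ω => (Real.exp_pos _).le) hS.xi_pos.le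

/-- One halving. -/
theorem half (hO : OKB) (hN : GNZ) (hD : DECAY) (hS : Sys m C L lam b K) (hG : Geo m C L b κ)
    (h0 : 0 ≤ ε) (hP : Posi m C L b ε) (h1 : lam * b * ε ≤ 1 / 2)
    (h2 : (lam * b) ^ 2 * κ ≤ 1 / 2) (h3 : lam * b * κ ≤ 1 / 2)
    (v : S) {c s : ℝ} (hc0 : 0 ≤ c) (hc1 : c ≤ 1) (hs0 : 0 ≤ s) (hs1 : s ≤ 1) :
    Hs m C lam L v (s * c) ≤ Real.exp (2 * (s ^ 2 * ((lam * b) ^ 2 * κ))) *
      Hs m C lam L v (s / 2 * c) ^ 2 := by
  have h := step hO hN hD hS hG h0 hP h1 h3 v hc0 hc1 hs0 hs1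
  have ht0 : 0 ≤ (lam * b) ^ 2 * κ := mul_nonneg (sq_nonneg _) hG.kap_pos.le
  have hs2 : s ^ 2 ≤ 1 := pow_le_one₀ hs0 hs1
  have hy0 : 0 ≤ s ^ 2 * ((lam * b) ^ 2 * κ) := mul_nonneg (sq_nonneg _) ht0
  have hy1 : s ^ 2 * ((lam * b) ^ 2 * κ) ≤ 1 / 2 := by nlinarith
  have h4 := one_sub_ge hy0 hy1
  have h5 := Hs_nonneg hS v (s * c)
  have h6 : Real.exp (-(2 * (s ^ 2 * ((lam * b) ^ 2 * κ)))) * Hs m C lam L v (s * c) ≤
      Hs m C lam L v (s / 2 * c) ^ 2 := by
    have := mul_le_mul_of_nonneg_right h4 h5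
    linarith
  have h7 := mul_le_mul_of_nonneg_left h6
    (Real.exp_pos (2 * (s ^ 2 * ((lam * b) ^ 2 * κ)))).le
  rwa [← mul_assoc, ← Real.exp_add, add_neg_cancel, Real.exp_zero, one_mul] at h7

theorem exp_sq_pow (a y h : ℝ) (k : ℕ) :
    Real.exp a * (Real.exp y * h ^ 2) ^ 2 ^ k = Real.exp (a + 2 ^ k * y) * h ^ 2 ^ (k + 1) := by
  rw [mul_pow, ← pow_mul h, ← pow_succ', ← mul_assoc, ← Real.exp_nat_mul, ← Real.exp_add]
  push_cast
  rfl

/-- All halvings. -/
theorem iter (hO : OKB) (hN : GNZ) (hD : DECAY) (hS : Sys m C L lam b K) (hG : Geo m C L b κ)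
    (h0 : 0 ≤ ε) (hP : Posi m C L b ε) (h1 : lam * b * ε ≤ 1 / 2)
    (h2 : (lam * b) ^ 2 * κ ≤ 1 / 2) (h3 : lam * b * κ ≤ 1 / 2)
    (v : S) {c : ℝ} (hc0 : 0 ≤ c) (hc1 : c ≤ 1) (k : ℕ) :
    Hs m C lam L v c ≤ Real.exp (4 * (1 - (1 / 2) ^ k) * ((lam * b) ^ 2 * κ)) *
      Hs m C lam L v ((1 / 2) ^ k * c) ^ (2 ^ k) := by
  induction k with
  | zero => simp
  | succ k ih =>
    refine ih.trans ?_
    have hq0 : (0 : ℝ) ≤ (1 / 2) ^ k := by positivity
    have hq1 : ((1 : ℝ) / 2) ^ k ≤ 1 := pow_le_one₀ (by norm_num) (by norm_num)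
    have h := half hO hN hD hS hG h0 hP h1 h2 h3 v hc0 hc1 hq0 hq1
    have h4 := pow_le_pow_left₀ (Hs_nonneg hS v _) h (2 ^ k)
    have e1 : ((1 : ℝ) / 2) ^ (k + 1) * c = (1 / 2) ^ k / 2 * c := by rw [pow_succ]; ring
    rw [e1]
    refine (mul_le_mul_of_nonneg_left h4 (Real.exp_pos _).le).trans (le_of_eq ?_)
    rw [exp_sq_pow]
    congr 2
    have e2 : ((1 : ℝ) / 2) ^ k * 2 ^ k = 1 := by
      rw [← mul_pow]
      norm_num
    rw [pow_succ ((1 : ℝ) / 2) k]
    have e3 : (2 : ℝ) ^ k * (2 * ((((1 : ℝ) / 2) ^ k) ^ 2 * ((lam * b) ^ 2 * κ))) =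
        2 * (((1 : ℝ) / 2) ^ k * 2 ^ k) * ((1 / 2) ^ k * ((lam * b) ^ 2 * κ)) := by ring
    rw [e3, e2]
    ring

end expect

end Cnc

/-- Row CONC. -/
theorem conc_of (hO : OKB) (hN : GNZ) (hD : DECAY) : CONC := by
  intro S _ m _ C L b κ ε lam K hG hS h0 hP h1 h2 h3 v
  have hlb : 0 ≤ lam * b := mul_nonneg hS.lam_nonneg hS.b_pos.le
  have hc0 : 0 ≤ 1 - 2 * (lam * b * κ) := by linarith
  have hc1 : 1 - 2 * (lam * b * κ) ≤ 1 := by
    have := mul_nonneg hlb hG.kap_pos.le
    linarith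
  set c : ℝ := 1 - 2 * (lam * b * κ) with hc
  set E : ℝ := ex m C lam L (Yk m C lam L (Al S) v) with hE
  have ht0 : 0 ≤ (lam * b) ^ 2 * κ := mul_nonneg (sq_nonneg _) hG.kap_pos.le
  have hk : ∀ k : ℕ, (1 / 2 : ℝ) ^ k * (lam * b) ≤ 1 →
      Cnc.Hs m C lam L v c ≤
        Real.exp (4 * ((lam * b) ^ 2 * κ) - c * E + (1 / 2) ^ k * (lam * b) ^ 2) := by
    intro k hk
    have hq0 : (0 : ℝ) ≤ (1 / 2) ^ k := by positivity
    have a1 := Cnc.iter hO hN hD hS hG h0 hP h1 h2 h3 v hc0 hc1 k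
    have a2 := Cnc.small hO hS v (mul_nonneg hq0 hc0) (r := (1 / 2) ^ k * c) (by
      refine le_trans ?_ hk
      have := mul_le_mul_of_nonneg_right (mul_le_mul_of_nonneg_left hc1 hq0) hlb
      rwa [mul_one] at this)
    have a3 := pow_le_pow_left₀ (Cnc.Hs_nonneg hS v _) a2 (2 ^ k)
    refine a1.trans ((mul_le_mul_of_nonneg_left a3 (Real.exp_pos _).le).trans ?_)
    rw [← Real.exp_nat_mul, ← Real.exp_add, Real.exp_le_exp]
    push_cast
    have e2 : ((1 : ℝ) / 2) ^ k * 2 ^ k = 1 := by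
      rw [← mul_pow]
      norm_num
    have e3 : (2 : ℝ) ^ k * (-((1 / 2) ^ k * c * E) + ((1 / 2) ^ k * c) ^ 2 * (lam * b) ^ 2) =
        ((1 / 2) ^ k * 2 ^ k) * (-(c * E) + (1 / 2) ^ k * (c ^ 2 * (lam * b) ^ 2)) := by ring
    rw [e3, e2, one_mul]
    have e4 : (1 / 2 : ℝ) ^ k * (c ^ 2 * (lam * b) ^ 2) ≤ (1 / 2) ^ k * (lam * b) ^ 2 := by
      refine mul_le_mul_of_nonneg_left ?_ hq0
      have : c ^ 2 ≤ 1 := pow_le_one₀ hc0 hc1
      have := mul_le_mul_of_nonneg_right this (sq_nonneg (lam * b))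
      linarith
    have e5 : 4 * (1 - (1 / 2 : ℝ) ^ k) * ((lam * b) ^ 2 * κ) ≤ 4 * ((lam * b) ^ 2 * κ) := by
      have := mul_nonneg hq0 ht0
      nlinarith
    linarith
  have hlim0 : Tendsto (fun k : ℕ => (1 / 2 : ℝ) ^ k) atTop (𝓝 0) :=
    tendsto_pow_atTop_nhds_zero_of_lt_one (by norm_num) (by norm_num)
  have hev : ∀ᶠ k : ℕ in atTop, (1 / 2 : ℝ) ^ k * (lam * b) ≤ 1 := by
    have : Tendsto (fun k : ℕ => (1 / 2 : ℝ) ^ k * (lam * b)) atTop (𝓝 (0 * (lam * b))) :=
      hlim0.mul_const _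
    rw [zero_mul] at this
    exact this.eventually (ge_mem_nhds one_pos)
  have hlim : Tendsto (fun k : ℕ => Real.exp (4 * ((lam * b) ^ 2 * κ) - c * E +
      (1 / 2) ^ k * (lam * b) ^ 2)) atTop (𝓝 (Real.exp (4 * ((lam * b) ^ 2 * κ) - c * E))) := by
    have h4 : Tendsto (fun k : ℕ => 4 * ((lam * b) ^ 2 * κ) - c * E +
        (1 / 2 : ℝ) ^ k * (lam * b) ^ 2) atTop
        (𝓝 (4 * ((lam * b) ^ 2 * κ) - c * E + 0 * (lam * b) ^ 2)) :=
      tendsto_const_nhds.add (hlim0.mul_const _)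
    rw [zero_mul, add_zero] at h4
    exact (Real.continuous_exp.tendsto _).comp h4
  exact ge_of_tendsto hlim (hev.mono hk)

end Pool.Agent.HdGas
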