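import Pool.Agent.Lib.NT.Rows4
import Pool.Agent.Lib.MF.Bas
import Pool.Agent.Lib.MF.Meas
import Pool.Agent.Lib.MF.Geob

/-! # Row CONT4: continuity of the free probability in the activity. -/

set_option autoImplicit false

namespace Pool.Agent.HdGas

open MeasureTheory Filter Topology

namespace Cont4

section
variable {S : Type} [MeasurableSpace S] {m : Measure S} [SigmaFinite m] {L : Set S}

/-- Coefficients of the power series in the activity. -/
noncomputable def co (m : Measure S) (L : Set S) (B : Set (Om S)) (n : ℕ) : ℝ :=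
  ((Measure.pi fun _ : Fin n => m.restrict L) {x | (⟨n, x⟩ : Om S) ∈ B}).toReal

theorem co_nonneg (B : Set (Om S)) (n : ℕ) : 0 ≤ co m L B n := ENNReal.toReal_nonneg

theorem co_le (hL : m L ≠ ⊤) (B : Set (Om S)) (n : ℕ) : co m L B n ≤ (m L).toReal ^ n := by
  unfold co
  rw [← ENNReal.toReal_pow]
  refine ENNReal.toReal_mono (ENNReal.pow_ne_top hL) ?_
  refine (measure_mono (Set.subset_univ _)).trans (le_of_eq ?_)
  rw [Measure.pi_univ]
  simp

theorem co_zero {B : Set (Om S)} (h : ∀ x : Fin 0 → S, (⟨0, x⟩ : Om S) ∈ B) :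
    co m L B 0 = 1 := by
  unfold co
  have : {x : Fin 0 → S | (⟨0, x⟩ : Om S) ∈ B} = Set.univ := by
    ext x
    simp [h x]
  rw [this, Measure.pi_univ]
  simp

theorem hasSum_pois {lam : ℝ} (hlam : 0 ≤ lam) (hL : m L ≠ ⊤) {B : Set (Om S)}
    (hB : MeasurableSet B) :
    HasSum (fun n : ℕ => lam ^ n / n.factorial * co m L B n) (pois m lam L B).toReal := by
  have h3 := pois_apply m lam L hB
  have hne : ∑' n : ℕ, ENNReal.ofReal (lam ^ n / n.factorial) *
      (Measure.pi fun _ : Fin n => m.restrict L) {x | (⟨n, x⟩ : Om S) ∈ B} ≠ ⊤ := by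
    rw [← h3]
    refine ((measure_mono (Set.subset_univ B)).trans_lt ?_).ne
    rw [pois_univ m hlam hL]
    exact ENNReal.ofReal_lt_top
  have h5 := ENNReal.hasSum_toReal hne
  rw [← ENNReal.tsum_toReal_eq (fun n => ENNReal.ne_top_of_tsum_ne_top hne n), ← h3] at h5
  convert h5 using 2 with n
  rw [ENNReal.toReal_mul, ENNReal.toReal_ofReal (by positivity)]
  rfl

theorem cont_pois (hL : m L ≠ ⊤) {B : Set (Om S)} (hB : MeasurableSet B) :
    ContinuousOn (fun lam : ℝ => (pois m lam L B).toReal) (Set.Ici 0) := by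
  have h1 : ∀ M : ℝ, 0 ≤ M → ContinuousOn
      (fun lam : ℝ => ∑' n : ℕ, lam ^ n / n.factorial * co m L B n) (Set.Icc 0 M) := by
    intro M hM
    refine continuousOn_tsum (u := fun n : ℕ => (M * (m L).toReal) ^ n / n.factorial) ?_
      (hasSum_exp' _).summable ?_
    · intro n
      exact Continuous.continuousOn (by fun_prop)
    · intro n lam hlam
      have hl := hlam.1
      rw [Real.norm_eq_abs, abs_of_nonneg (mul_nonneg (by positivity) (co_nonneg B n)), mul_pow,
        mul_div_right_comm]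
      refine mul_le_mul ?_ (co_le hL B n) (co_nonneg B n) (by positivity)
      exact div_le_div_of_nonneg_right (pow_le_pow_left₀ hl hlam.2 n) (by positivity)
  intro x hx
  have hx0 : (0 : ℝ) ≤ x := hx
  have h2 := (h1 (x + 1) (by linarith)) x ⟨hx0, by linarith⟩
  have h3 : ContinuousWithinAt
      (fun lam : ℝ => ∑' n : ℕ, lam ^ n / n.factorial * co m L B n) (Set.Ici 0) x := by
    refine h2.mono_of_mem_nhdsWithin ?_
    have : Set.Iio (x + 1) ∈ 𝓝 x := Iio_mem_nhds (by linarith)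
    refine mem_nhdsWithin.2 ⟨Set.Iio (x + 1), isOpen_Iio, Set.mem_Iio.2 (by linarith), ?_⟩
    rintro y ⟨hy1, hy2⟩
    exact ⟨hy2, (Set.mem_Iio.1 hy1).le⟩
  refine h3.congr (fun y hy => ?_) ?_
  · exact (hasSum_pois hy hL hB).tsum_eq.symm
  · exact (hasSum_pois hx0 hL hB).tsum_eq.symm

theorem pois_zero (hL : m L ≠ ⊤) {B : Set (Om S)} (hB : MeasurableSet B)
    (h : ∀ x : Fin 0 → S, (⟨0, x⟩ : Om S) ∈ B) : (pois m 0 L B).toReal = 1 := by
  have h1 := (hasSum_pois (m := m) (L := L) le_rfl hL hB).tsum_eq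
  rw [← h1, tsum_eq_single 0]
  · rw [co_zero h]
    simp
  · intro n hn
    rw [zero_pow hn]
    simp

theorem one_le_pois {lam : ℝ} (hlam : 0 ≤ lam) (hL : m L ≠ ⊤) {B : Set (Om S)}
    (hB : MeasurableSet B) (h : ∀ x : Fin 0 → S, (⟨0, x⟩ : Om S) ∈ B) :
    1 ≤ (pois m lam L B).toReal := by
  have h1 := le_hasSum (hasSum_pois hlam hL hB) 0
    fun n _ => mul_nonneg (by positivity) (co_nonneg B n)
  rw [co_zero h] at h1
  simpa using h1

/-- The probability that the place `v` is free as a quotient. -/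
theorem ex_chi {C : S → S → Prop} (hC : MeasurableSet {p : S × S | C p.1 p.2}) (v : S)
    (lam : ℝ) : ex m C lam L (chi C (Al S) v) =
      (pois m lam L ({ω | fr C (Al S) v ω} ∩ {ω | hc C ω})).toReal /
        (pois m lam L {ω | hc C ω}).toReal := by
  classical
  have hfr : MeasurableSet {ω : Om S | fr C (Al S) v ω} := by
    have h := meas_fr hC (K := Al S) (by simp [Al])
    exact measurable_prodMk_left h
  have h1 : chi C (Al S) v = Set.indicator {ω : Om S | fr C (Al S) v ω} 1 := by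
    funext ω
    unfold chi
    by_cases h : fr C (Al S) v ω
    · rw [if_pos h, Set.indicator_of_mem (show ω ∈ {ω : Om S | fr C (Al S) v ω} from h)]
      rfl
    · rw [if_neg h, Set.indicator_of_notMem (show ω ∉ {ω : Om S | fr C (Al S) v ω} from h)]
  unfold ex Xi gib
  rw [h1, integral_indicator_one hfr, Measure.restrict_apply_univ, Measure.real,
    Measure.restrict_apply hfr]

end

theorem vol_bd' {d : ℕ} {L : Set (Fin d → ℝ)} {ℓ : ℝ} (hb : ∀ x ∈ L, ∀ k, |x k| ≤ ℓ) :
    volume L ≠ ⊤ := by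
  have h : L ⊆ Metric.closedBall (0 : Fin d → ℝ) |ℓ| := by
    intro x hx
    rw [mem_closedBall_zero_iff, pi_norm_le_iff_of_nonneg (abs_nonneg _)]
    intro k
    exact (hb x hx k).trans (le_abs_self ℓ)
  exact ((measure_mono h).trans_lt measure_closedBall_lt_top).ne

end Cont4

open Cont4 in
/-- Row CONT4. -/
theorem cont4_of : CONT4 := by
  intro d _ L hL u
  obtain ⟨_, ℓ, hℓ⟩ := hL
  have hLf : volume L ≠ ⊤ := vol_bd' hℓ
  have hC := GeobR.measurable_Cb d
  have hh : MeasurableSet {ω : Om (Fin d → ℝ) | hc (Cb d) ω} := meas_hc hC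
  have hfr : MeasurableSet {ω : Om (Fin d → ℝ) | fr (Cb d) (Al (Fin d → ℝ)) u ω} := by
    have h := meas_fr hC (K := Al (Fin d → ℝ)) (by simp [Al])
    exact measurable_prodMk_left h
  have hB := hfr.inter hh
  have e : ∀ lam : ℝ, fp d lam L u =
      (pois volume lam L ({ω | fr (Cb d) (Al (Fin d → ℝ)) u ω} ∩ {ω | hc (Cb d) ω})).toReal /
        (pois volume lam L {ω | hc (Cb d) ω}).toReal := fun lam => ex_chi hC u lam
  have z1 : ∀ x : Fin 0 → (Fin d → ℝ), (⟨0, x⟩ : Om (Fin d → ℝ)) ∈ {ω | hc (Cb d) ω} :=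
    fun x i => i.elim0
  have z2 : ∀ x : Fin 0 → (Fin d → ℝ), (⟨0, x⟩ : Om (Fin d → ℝ)) ∈
      {ω | fr (Cb d) (Al (Fin d → ℝ)) u ω} ∩ {ω | hc (Cb d) ω} :=
    fun x => ⟨fun i => i.elim0, z1 x⟩
  refine ⟨?_, ?_, fun lam hlam => ?_⟩
  · simp only [e]
    refine (cont_pois hLf hB).div (cont_pois hLf hh) fun lam hlam => ?_
    have := one_le_pois hlam hLf hh z1
    linarith
  · rw [e, pois_zero hLf hB z2, pois_zero hLf hh z1, div_one]
  · have h1 := one_le_pois hlam hLf hh z1
    have h2 := one_le_pois hlam hLf hB z2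
    rw [e]
    refine ⟨div_pos (by linarith) (by linarith), ?_⟩
    rw [div_le_one (by linarith)]
    refine ENNReal.toReal_mono ?_ (measure_mono Set.inter_subset_right)
    refine ((measure_mono (Set.subset_univ _)).trans_lt ?_).ne
    rw [pois_univ volume hlam hLf]
    exact ENNReal.ofReal_lt_top

end Pool.Agent.HdGas
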