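import Pool.Agent.Lib.NT.Rows4
import Pool.Agent.Lib.MF.RowConv
import Pool.Agent.Lib.MF.YChi
import Pool.Agent.Lib.MF.Meas
import Pool.Agent.Lib.MF.Bas

/-!
# Row CORE4: the self-consistency inequalities at a place (helper26)
-/

set_option autoImplicit false

namespace Pool.Agent.HdGas

open MeasureTheory Real Set Cv

noncomputable section

namespace Core4

/-- The free probability is a bounded measurable function of the place. -/
theorem fp_meas {S : Type} [MeasurableSpace S] {m : Measure S} [SigmaFinite m]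
    {C : S → S → Prop} {L : Set S} {b κ lam : ℝ} (hG : Geo m C L b κ) (hlam : 0 ≤ lam) :
    (Measurable fun v => ex m C lam L (chi C (Al S) v)) ∧
      ∀ v, 0 ≤ ex m C lam L (chi C (Al S) v) ∧ ex m C lam L (chi C (Al S) v) ≤ 1 := by
  obtain ⟨-, -, -, hX1, -, -⟩ := bas S m C L lam hG.meas hG.measL hG.fin hlam
  obtain ⟨hmeas, -⟩ := meas S m C L lam hG.meas hG.measL hG.fin hlam
  obtain ⟨hχm, -, -, -, -⟩ := hmeas (Al S) (by
    have : {x : S | Al S x} = univ := by ext; simp [Al]
    rw [this]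
    exact MeasurableSet.univ)
  have hX0 : 0 < Xi m C lam L := lt_of_lt_of_le one_pos hX1
  have : IsFiniteMeasure (gib m C lam L) :=
    (bas S m C L lam hG.meas hG.measL hG.fin hlam).2.2.1
  refine ⟨?_, ?_⟩
  · unfold ex
    refine Measurable.div_const ?_ _
    exact (hχm.stronglyMeasurable.integral_prod_right').measurable
  · have hχ1 : ∀ v ω, |chi C (Al S) v ω| ≤ 1 := fun v ω => by
      unfold chi
      split <;> simp
    intro v
    unfold ex
    refine ⟨div_nonneg (integral_nonneg fun ω => ?_) hX0.le, ?_⟩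
    · unfold chi
      split <;> simp
    rw [div_le_one hX0]
    refine (le_abs_self _).trans ?_
    have e1 := norm_integral_le_of_norm_le_const (μ := gib m C lam L)
      (f := fun ω => chi C (Al S) v ω) (C := 1)
      (Filter.Eventually.of_forall fun ω => by rw [Real.norm_eq_abs]; exact hχ1 v ω)
    rw [one_mul, Real.norm_eq_abs] at e1
    exact e1

theorem KH_mono {d : ℕ} (hph : 0 < ph d) {x y : ℝ} (h : x ≤ y) : KH d x ≤ KH d y := by
  unfold KH
  have h1 : 0 ≤ kap d := by unfold kap; positivity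
  have h2 : Real.exp (2 * (x * ph d)) ≤ Real.exp (2 * (y * ph d)) :=
    Real.exp_le_exp.2 (by nlinarith)
  have h3 : Real.exp x ≤ Real.exp y := Real.exp_le_exp.2 h
  have h4 : (0 : ℝ) ≤ 2 * (1 / 2) ^ d := by positivity
  nlinarith [mul_le_mul_of_nonneg_left h2 (by positivity : 0 ≤ 2 * kap d),
    mul_le_mul_of_nonneg_left h3 h4]

theorem KH_nonneg (d : ℕ) (y : ℝ) : 0 ≤ KH d y := by
  unfold KH
  have h1 : 0 ≤ kap d := by unfold kap; positivity
  positivity

end Core4

open Core4

/-- Row CORE4. -/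
theorem core4_of (hF : FREEV) (hQ : PAIRQ) (hP : PUP) (hR : REG4) (hO : OVL) : CORE4 := by
  intro d hd ε lam hε hFT hlam hsm L hL u η y D hη hy hD hloc
  obtain ⟨hG, hSys, hPosi⟩ := hR d hd L hL
  obtain ⟨K, hS⟩ := hSys lam hlam
  have hPo := hPosi ε hε hFT
  obtain ⟨hb, hph, -, hvol, -, -⟩ := hO d hd
  obtain ⟨hm, hb1⟩ := fp_meas hG hlam
  -- the ball
  set A : Set (Fin d → ℝ) := {z | z ∈ L ∧ Cb d u z} with hA
  have hCb : ∀ z, Cb d u z → ∑ k, (u k - z k) ^ 2 < 4 := fun z hz => by
    have h1 : ∑ k, (u k - z k) ^ 2 < 1 := hz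
    linarith
  have hAe : A = {z | Cb d u z} := by
    ext z
    exact ⟨fun h => h.2, fun h => ⟨(hloc z (hCb z h)).1, h⟩⟩
  have hAv : volume A = ENNReal.ofReal (bv d) := by rw [hAe]; exact hvol u
  have hAr : volume.real A = bv d := by
    unfold Measure.real
    rw [hAv, ENNReal.toReal_ofReal hb.le]
  have hAf : volume A ≠ ⊤ := by rw [hAv]; exact ENNReal.ofReal_ne_top
  have hAm : MeasurableSet A := hG.meas_near u
  -- the mean number of points in the ball
  set n : ℝ := lam * ∫ z in A, ex volume (Cb d) lam L (chi (Cb d) (Al (Fin d → ℝ)) z) with hn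
  have hfi : IntegrableOn (fun z => ex volume (Cb d) lam L (chi (Cb d) (Al (Fin d → ℝ)) z)) A :=
    bdd (M := 1) hAm hAf hm fun v _ => abs_le.2 ⟨by linarith [(hb1 v).1], (hb1 v).2⟩
  have hbn : bv d * n = ∫ z in A, lam * bv d * fp d lam L z := by
    rw [integral_const_mul, hn]
    unfold fp
    ring
  have hfi2 : IntegrableOn (fun z => lam * bv d * fp d lam L z) A := hfi.const_mul _
  have hn1 : y - η ≤ n := by
    have h1 : ∫ _z in A, (y - η) ≤ ∫ z in A, lam * bv d * fp d lam L z := by
      refine setIntegral_mono_on (integrableOn_const hAf) hfi2 hAm fun z hz => ?_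
      have := (abs_le.1 (hloc z (hCb z hz.2)).2).1
      linarith
    rw [setIntegral_const, smul_eq_mul, hAr, ← hbn] at h1
    exact le_of_mul_le_mul_left h1 hb
  have hn2 : n ≤ y + η := by
    have h1 : ∫ z in A, lam * bv d * fp d lam L z ≤ ∫ _z in A, (y + η) := by
      refine setIntegral_mono_on hfi2 (integrableOn_const hAf) hAm fun z hz => ?_
      have := (abs_le.1 (hloc z (hCb z hz.2)).2).2
      linarith
    rw [setIntegral_const, smul_eq_mul, hAr, ← hbn] at h1
    exact le_of_mul_le_mul_left h1 hb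
  -- the pairs
  set c1 : ℝ := max (y - η) 0 with hc1
  have hc10 : 0 ≤ c1 := le_max_right _ _
  set q : ℝ := bv d ^ 2 * (Real.exp (-(2 * ((1 - lam * bv d * ε) * c1))) * KH d c1) with hq
  have hq0 : 0 ≤ q := by
    have := KH_nonneg d c1
    positivity
  have hpos : 0 ≤ lam * bv d := by positivity
  have hpq := hQ d hd ε lam hε hFT hlam hsm L hL u c1 hc10 (fun x hx => by
    obtain ⟨h1, h2⟩ := hloc x hx
    refine ⟨h1, max_le (by linarith [(abs_le.1 h2).1]) ?_⟩
    exact mul_nonneg hpos (hb1 x).1)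
  have hlow := hF _ volume (Cb d) L (bv d) (kap d) lam hG hlam u q hq0 hpq
  have hup := hP _ volume (Cb d) L (bv d) ε lam K hS hε hPo hsm u
  rw [← hA, ← hn] at hlow hup
  set p : ℝ := fp d lam L u with hp
  have hp0 : 0 < p := (Real.exp_pos _).trans_le hlow
  have hlow' : -(n + lam ^ 2 * q) ≤ Real.log p := by
    rw [Real.le_log_iff_exp_le hp0]
    exact hlow
  have hup' : Real.log p ≤ -((1 - lam * bv d * ε) * n) := by
    rw [Real.log_le_iff_le_exp hp0]
    exact hup
  have hy0 : 0 ≤ y := by rw [hy]; positivity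
  have hsm0 : 0 ≤ 1 - lam * bv d * ε := by linarith
  have hte : 0 ≤ lam * bv d * ε := by positivity
  refine ⟨?_, ?_⟩
  · rw [hD]
    have h1 : (1 - lam * bv d * ε) * (y - η) ≤ (1 - lam * bv d * ε) * n :=
      mul_le_mul_of_nonneg_left hn1 hsm0
    nlinarith [mul_nonneg hte hη]
  · have hcy : c1 ≤ y := max_le (by linarith) hy0
    have hK : KH d c1 ≤ KH d y := KH_mono hph hcy
    have hlq : lam ^ 2 * q = y ^ 2 * Real.exp (2 * (D + y) - 2 * ((1 - lam * bv d * ε) * c1)) *
        KH d c1 := by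
      have h1 : Real.exp (D + y) = p⁻¹ := by
        rw [hD, show -Real.log p - y + y = -Real.log p by ring, Real.exp_neg, Real.exp_log hp0]
      have h2 : Real.exp (2 * (D + y) - 2 * ((1 - lam * bv d * ε) * c1)) =
          p⁻¹ ^ 2 * Real.exp (-(2 * ((1 - lam * bv d * ε) * c1))) := by
        rw [sub_eq_add_neg, Real.exp_add, ← h1, ← Real.exp_nat_mul]
        norm_num
      rw [h2, hq, hy]
      field_simp
    have he : Real.exp (2 * (D + y) - 2 * ((1 - lam * bv d * ε) * c1)) ≤
        Real.exp (2 * D + 2 * (lam * bv d * ε * y) + 2 * η) := by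
      refine Real.exp_le_exp.2 ?_
      have h1 : (1 - lam * bv d * ε) * (y - η) ≤ (1 - lam * bv d * ε) * c1 :=
        mul_le_mul_of_nonneg_left (le_max_left _ _) hsm0
      nlinarith [mul_nonneg hte hη]
    have h3 : lam ^ 2 * q ≤ y ^ 2 * Real.exp (2 * D + 2 * (lam * bv d * ε * y) + 2 * η) *
        KH d y := by
      rw [hlq]
      exact mul_le_mul (mul_le_mul_of_nonneg_left he (sq_nonneg y)) hK (KH_nonneg d c1)
        (by positivity)
    have h4 : D = -Real.log p - y := hD
    linarith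

end

end Pool.Agent.HdGas
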