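import Pool.Agent.Lib.NT.CwTool

/-!
# The exclusion relation with exponential weights (helper39)
-/

set_option autoImplicit false

namespace Pool.Agent.HdGas

open MeasureTheory Filter Topology

variable {S : Type} [MeasurableSpace S] {m : Measure S} [SigmaFinite m] {C : S → S → Prop}
  {L : Set S} {lam b : ℝ} {K : ℕ}

open Classical in
/-- Indicator of the exclusion relation. -/
noncomputable def kc (C : S → S → Prop) (x y : S) : ℝ := if C x y then 1 else 0

omit [MeasurableSpace S] in
theorem kc_nonneg (C : S → S → Prop) (x y : S) : 0 ≤ kc C x y := by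
  unfold kc; split_ifs <;> norm_num

omit [MeasurableSpace S] in
theorem kc_le_one (C : S → S → Prop) (x y : S) : kc C x y ≤ 1 := by
  unfold kc; split_ifs <;> norm_num

omit [MeasurableSpace S] in
theorem kc_pos {x y : S} (h : C x y) : kc C x y = 1 := by
  unfold kc; rw [if_pos h]

omit [MeasurableSpace S] in
theorem kc_neg {x y : S} (h : ¬ C x y) : kc C x y = 0 := by
  unfold kc; rw [if_neg h]

omit [SigmaFinite m] in
theorem Sys.kc_symm (hS : Sys m C L lam b K) (x y : S) : kc C x y = kc C y x := by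
  by_cases h : C x y
  · rw [kc_pos h, kc_pos (hS.symm x y h)]
  · rw [kc_neg h, kc_neg fun h' => h (hS.symm y x h')]

omit [SigmaFinite m] in
theorem Sys.meas_kc (hS : Sys m C L lam b K) : Measurable fun q : S × S => kc C q.1 q.2 := by
  unfold kc
  exact Measurable.ite hS.meas measurable_const measurable_const

omit [SigmaFinite m] in
theorem Sys.int_kc (hS : Sys m C L lam b K) (x : S) : ∫ y in L, kc C x y ∂m ≤ b := by
  have hm : MeasurableSet {y | C x y} := hS.meas.preimage (measurable_const.prodMk measurable_id)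
  have e : ∀ y, kc C x y = {y | C x y}.indicator (fun _ => (1 : ℝ)) y := by
    intro y
    unfold kc
    by_cases h : C x y
    · rw [if_pos h, Set.indicator_of_mem (by exact h)]
    · rw [if_neg h, Set.indicator_of_notMem (by exact h)]
  simp_rw [e]
  rw [integral_indicator hm, setIntegral_const, smul_eq_mul, mul_one, measureReal_def,
    Measure.restrict_apply hm]
  refine ENNReal.toReal_le_of_le_ofReal hS.b_pos.le ?_
  exact (measure_mono Set.inter_subset_left).trans (hS.ball x)

omit [SigmaFinite m] in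
theorem Sys.prod2 (hS : Sys m C L lam b K) {G : S → S → ℝ}
    (hG : Measurable fun q : S × S => G q.1 q.2) {M : ℝ} (hM : ∀ x y, |G x y| ≤ M) :
    Integrable (fun q : S × S => G q.1 q.2) ((m.restrict L).prod (m.restrict L)) := by
  have := hS.finR
  exact Integrable.of_bound hG.aestronglyMeasurable M (ae_of_all _ fun q => hM q.1 q.2)

omit [SigmaFinite m] in
/-- `Posi` for functions which are not bounded by one. -/
theorem Sys.posi_scale (hS : Sys m C L lam b K) {ε : ℝ} (hP : Posi m C L b ε) {h : S → ℝ}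
    (hm : Measurable h) {H : ℝ} (hH : 0 < H) (hb : ∀ x, |h x| ≤ H) :
    -(ε * b * ∫ x in L, h x ^ 2 ∂m) ≤
      ∫ x in L, h x * ∫ y in L, kc C x y * h y ∂m ∂m := by
  have hL := hS.measL
  have h1 := hP (L.indicator fun x => H⁻¹ * h x) ((hm.const_mul _).indicator hL)
    (fun x => ?_) (fun x hx => Set.indicator_of_notMem hx _)
  · have e1 : ∫ x, (L.indicator (fun x => H⁻¹ * h x) x) ^ 2 ∂m =
        H⁻¹ ^ 2 * ∫ x in L, h x ^ 2 ∂m := by
      rw [← integral_const_mul, ← integral_indicator hL]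
      refine integral_congr_ae (ae_of_all _ fun x => ?_)
      by_cases hx : x ∈ L
      · simp only [Set.indicator_of_mem hx]
        ring
      · simp only [Set.indicator_of_notMem hx]
        ring
    have e2 : ∀ x, ∫ y in {y | C x y}, L.indicator (fun x => H⁻¹ * h x) y ∂m =
        H⁻¹ * ∫ y in L, kc C x y * h y ∂m := by
      intro x
      have hm : MeasurableSet {y | C x y} :=
        hS.meas.preimage (measurable_const.prodMk measurable_id)
      rw [← integral_const_mul, ← integral_indicator hL, ← integral_indicator hm]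
      refine integral_congr_ae (ae_of_all _ fun y => ?_)
      by_cases hx : C x y
      · simp only [Set.indicator_of_mem (show y ∈ {y | C x y} from hx)]
        by_cases hy : y ∈ L
        · simp only [Set.indicator_of_mem hy, kc_pos hx]
          ring
        · simp only [Set.indicator_of_notMem hy]
      · simp only [Set.indicator_of_notMem (show y ∉ {y | C x y} from hx)]
        by_cases hy : y ∈ L
        · simp only [Set.indicator_of_mem hy, kc_neg hx]
          ring
        · simp only [Set.indicator_of_notMem hy]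
    have e3 : ∫ x, (L.indicator (fun x => H⁻¹ * h x) x) *
        ∫ y in {y | C x y}, L.indicator (fun x => H⁻¹ * h x) y ∂m ∂m =
        H⁻¹ ^ 2 * ∫ x in L, h x * ∫ y in L, kc C x y * h y ∂m ∂m := by
      simp_rw [e2]
      rw [← integral_const_mul, ← integral_indicator hL]
      refine integral_congr_ae (ae_of_all _ fun x => ?_)
      by_cases hx : x ∈ L
      · simp only [Set.indicator_of_mem hx]
        ring
      · simp only [Set.indicator_of_notMem hx]
        ring
    rw [e1, e3] at h1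
    have h2 : 0 < H⁻¹ ^ 2 := by positivity
    refine le_of_mul_le_mul_left ?_ h2
    calc H⁻¹ ^ 2 * -(ε * b * ∫ x in L, h x ^ 2 ∂m)
        = -(ε * b * (H⁻¹ ^ 2 * ∫ x in L, h x ^ 2 ∂m)) := by ring
      _ ≤ _ := h1
  · by_cases hx : x ∈ L
    · simp only [Set.indicator_of_mem hx]
      rw [abs_mul, abs_of_pos (inv_pos.2 hH), inv_mul_le_iff₀ hH, mul_one]
      exact hb x
    · simp only [Set.indicator_of_notMem hx]
      simp

/-- The quadratic form with exponential weights. -/
theorem Sys.quad (hS : Sys m C L lam b K) {ε : ℝ} (hP : Posi m C L b ε)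
    {φ : S → ℝ} {s : ℝ} (hφ : Measurable φ) {B : ℝ} (hB : ∀ x, |φ x| ≤ B)
    (hs : ∀ x y, C x y → |φ x - φ y| ≤ s) {g : S → ℝ} (hg : Measurable g) {M : ℝ}
    (hM0 : 0 < M) (hM : ∀ x, |g x| ≤ M) :
    -(b * (ε + (Real.cosh s - 1)) * ∫ x in L, Real.exp (2 * φ x) * g x ^ 2 ∂m) ≤
      ∫ x in L, Real.exp (2 * φ x) * (g x * ∫ y in L, kc C x y * g y ∂m) ∂m := by
  have hfin := hS.finR
  set μ := m.restrict L with hμ
  set h : S → ℝ := fun x => Real.exp (φ x) * g x with hh
  have hhm : Measurable h := hφ.exp.mul hg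
  set H : ℝ := Real.exp B * M with hH
  have hH0 : 0 < H := by positivity
  have hhb : ∀ x, |h x| ≤ H := by
    intro x
    rw [hh, hH]
    simp only
    rw [abs_mul, abs_of_pos (Real.exp_pos _)]
    exact mul_le_mul (Real.exp_le_exp.2 ((le_abs_self _).trans (hB x))) (hM x) (abs_nonneg _)
      (Real.exp_pos _).le
  have hkm := hS.meas_kc
  -- squares
  have esq : ∫ x in L, Real.exp (2 * φ x) * g x ^ 2 ∂m = ∫ x, h x ^ 2 ∂μ := by
    refine integral_congr_ae (ae_of_all _ fun x => ?_)
    simp only [hh]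
    rw [mul_pow, ← Real.exp_nat_mul]
    norm_num
  have hm1 : Measurable fun q : S × S => h q.1 := hhm.comp measurable_fst
  have hm2 : Measurable fun q : S × S => h q.2 := hhm.comp measurable_snd
  have hφ1 : Measurable fun q : S × S => φ q.1 := hφ.comp measurable_fst
  have hφ2 : Measurable fun q : S × S => φ q.2 := hφ.comp measurable_snd
  -- the integral as an integral over pairs
  have i1 := hS.prod2 (G := fun x y => kc C x y * (Real.exp (φ x - φ y) * (h x * h y)))
    (hkm.mul ((hφ1.sub hφ2).exp.mul (hm1.mul hm2))) (M := 1 * (Real.exp (2 * B) * (H * H)))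
    (fun x y => ?_)
  swap
  · rw [abs_mul, abs_mul, abs_mul, abs_of_nonneg (kc_nonneg C x y), abs_of_pos (Real.exp_pos _)]
    have h1 := abs_le.1 (hB x)
    have h2 := abs_le.1 (hB y)
    have h3 : Real.exp (φ x - φ y) ≤ Real.exp (2 * B) := Real.exp_le_exp.2 (by linarith)
    have h4 : |h x| * |h y| ≤ H * H := mul_le_mul (hhb x) (hhb y) (abs_nonneg _) hH0.le
    exact mul_le_mul (kc_le_one C x y) (mul_le_mul h3 h4 (by positivity) (by positivity))
      (by positivity) (by norm_num)
  have i2 := hS.prod2 (G := fun x y => kc C x y * (h x * h y))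
    (hkm.mul (hm1.mul hm2)) (M := 1 * (H * H)) (fun x y => ?_)
  swap
  · rw [abs_mul, abs_mul, abs_of_nonneg (kc_nonneg C x y)]
    have h4 : |h x| * |h y| ≤ H * H := mul_le_mul (hhb x) (hhb y) (abs_nonneg _) hH0.le
    exact mul_le_mul (kc_le_one C x y) h4 (by positivity) (by norm_num)
  have i3 := hS.prod2 (G := fun x y => kc C x y * (h x ^ 2))
    (hkm.mul (hm1.pow_const 2)) (M := 1 * (H ^ 2)) (fun x y => ?_)
  swap
  · rw [abs_mul, abs_of_nonneg (kc_nonneg C x y), abs_pow]
    exact mul_le_mul (kc_le_one C x y) (pow_le_pow_left₀ (abs_nonneg _) (hhb x) 2)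
      (by positivity) (by norm_num)
  have e1 : ∫ x in L, Real.exp (2 * φ x) * (g x * ∫ y in L, kc C x y * g y ∂m) ∂m =
      ∫ q, kc C q.1 q.2 * (Real.exp (φ q.1 - φ q.2) * (h q.1 * h q.2)) ∂μ.prod μ := by
    rw [integral_prod _ i1]
    refine integral_congr_ae (ae_of_all _ fun x => ?_)
    simp only
    rw [← mul_assoc, ← integral_const_mul]
    refine integral_congr_ae (ae_of_all _ fun y => ?_)
    simp only [hh]
    have : Real.exp (2 * φ x) = Real.exp (φ x - φ y) * Real.exp (φ x) * Real.exp (φ y) := by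
      rw [← Real.exp_add, ← Real.exp_add]
      congr 1
      ring
    rw [this]
    ring
  have e2 : ∫ q, kc C q.1 q.2 * (Real.exp (φ q.1 - φ q.2) * (h q.1 * h q.2)) ∂μ.prod μ =
      ∫ q, kc C q.1 q.2 * (Real.exp (φ q.2 - φ q.1) * (h q.1 * h q.2)) ∂μ.prod μ := by
    rw [← integral_prod_swap]
    refine integral_congr_ae (ae_of_all _ fun q => ?_)
    simp only [Prod.fst_swap, Prod.snd_swap]
    rw [hS.kc_symm q.2 q.1]
    ring
  have i1' : Integrable (fun q : S × S => kc C q.1 q.2 *
      (Real.exp (φ q.2 - φ q.1) * (h q.1 * h q.2))) (μ.prod μ) := by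
    refine i1.swap.congr (ae_of_all _ fun q => ?_)
    simp only [Function.comp, Prod.fst_swap, Prod.snd_swap]
    rw [hS.kc_symm q.2 q.1]
    ring
  have e3 : ∫ q, kc C q.1 q.2 * (h q.2 ^ 2) ∂μ.prod μ =
      ∫ q, kc C q.1 q.2 * (h q.1 ^ 2) ∂μ.prod μ := by
    rw [← integral_prod_swap]
    refine integral_congr_ae (ae_of_all _ fun q => ?_)
    simp only [Prod.fst_swap, Prod.snd_swap]
    rw [hS.kc_symm q.2 q.1]
  have i3' : Integrable (fun q : S × S => kc C q.1 q.2 * (h q.2 ^ 2)) (μ.prod μ) := by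
    refine i3.swap.congr (ae_of_all _ fun q => ?_)
    simp only [Function.comp, Prod.fst_swap, Prod.snd_swap]
    rw [hS.kc_symm q.2 q.1]
  have i33 : Integrable (fun q : S × S => kc C q.1 q.2 * h q.1 ^ 2 + kc C q.1 q.2 * h q.2 ^ 2)
      (μ.prod μ) := i3.add i3'
  have i11 : Integrable (fun q : S × S =>
      kc C q.1 q.2 * (Real.exp (φ q.1 - φ q.2) * (h q.1 * h q.2)) +
      kc C q.1 q.2 * (Real.exp (φ q.2 - φ q.1) * (h q.1 * h q.2))) (μ.prod μ) := i1.add i1'
  -- pointwise
  have hpt : ∀ x y, kc C x y * (h x * h y) -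
      (Real.cosh s - 1) / 2 * (kc C x y * h x ^ 2 + kc C x y * h y ^ 2) ≤
      (kc C x y * (Real.exp (φ x - φ y) * (h x * h y)) +
        kc C x y * (Real.exp (φ y - φ x) * (h x * h y))) / 2 := by
    intro x y
    by_cases hc : C x y
    · have hk : kc C x y = 1 := by unfold kc; rw [if_pos hc]
      rw [hk]
      have h1 := hs x y hc
      have hs0 : 0 ≤ s := (abs_nonneg _).trans h1
      have h2 : Real.cosh (φ x - φ y) ≤ Real.cosh s :=
        Real.cosh_le_cosh.2 (by rw [abs_of_nonneg hs0]; exact h1)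
      have h3 := Real.one_le_cosh (φ x - φ y)
      have h4 : (Real.exp (φ x - φ y) + Real.exp (φ y - φ x)) / 2 = Real.cosh (φ x - φ y) := by
        rw [Real.cosh_eq, neg_sub]
      have h5 : (1 * (Real.exp (φ x - φ y) * (h x * h y)) +
          1 * (Real.exp (φ y - φ x) * (h x * h y))) / 2 = Real.cosh (φ x - φ y) * (h x * h y) := by
        rw [← h4]
        ring
      rw [h5]
      nlinarith [sq_nonneg (h x + h y), sq_nonneg (h x - h y),
        mul_nonneg (sub_nonneg.2 h3) (sq_nonneg (h x + h y)),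
        mul_nonneg (sub_nonneg.2 h2) (add_nonneg (sq_nonneg (h x)) (sq_nonneg (h y)))]
    · have hk : kc C x y = 0 := by unfold kc; rw [if_neg hc]
      rw [hk]
      simp
  -- integrate
  have hint := integral_mono (μ := μ.prod μ)
    (i2.sub (i33.const_mul ((Real.cosh s - 1) / 2))) (i11.div_const 2)
    (fun q => by simpa using hpt q.1 q.2)
  have hA : ∫ q, (kc C q.1 q.2 * (Real.exp (φ q.1 - φ q.2) * (h q.1 * h q.2)) +
      kc C q.1 q.2 * (Real.exp (φ q.2 - φ q.1) * (h q.1 * h q.2))) / 2 ∂μ.prod μ =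
      ∫ q, kc C q.1 q.2 * (Real.exp (φ q.1 - φ q.2) * (h q.1 * h q.2)) ∂μ.prod μ := by
    rw [integral_div, integral_add i1 i1', ← e2]
    ring
  have hQ : ∫ q, (kc C q.1 q.2 * (h q.1 * h q.2) -
      (Real.cosh s - 1) / 2 * (kc C q.1 q.2 * h q.1 ^ 2 + kc C q.1 q.2 * h q.2 ^ 2)) ∂μ.prod μ =
      ∫ q, kc C q.1 q.2 * (h q.1 * h q.2) ∂μ.prod μ -
        (Real.cosh s - 1) * ∫ q, kc C q.1 q.2 * (h q.1 ^ 2) ∂μ.prod μ := by
    rw [integral_sub i2 (i33.const_mul _), integral_const_mul, integral_add i3 i3', e3]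
    ring
  have hP1 : ∫ q, kc C q.1 q.2 * (h q.1 * h q.2) ∂μ.prod μ =
      ∫ x in L, h x * ∫ y in L, kc C x y * h y ∂m ∂m := by
    rw [integral_prod _ i2]
    refine integral_congr_ae (ae_of_all _ fun x => ?_)
    simp only
    rw [← integral_const_mul]
    refine integral_congr_ae (ae_of_all _ fun y => ?_)
    ring
  have hP2 := hS.posi_scale hP hhm hH0 hhb
  have hisq : Integrable (fun x => h x ^ 2) μ :=
    Integrable.of_bound (hhm.pow_const 2).aestronglyMeasurable (H ^ 2) (ae_of_all _ fun x => by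
      rw [Real.norm_eq_abs, abs_pow]
      exact pow_le_pow_left₀ (abs_nonneg _) (hhb x) 2)
  have hQ2 : ∫ q, kc C q.1 q.2 * (h q.1 ^ 2) ∂μ.prod μ ≤ b * ∫ x, h x ^ 2 ∂μ := by
    rw [integral_prod _ i3, ← integral_const_mul]
    refine integral_mono i3.integral_prod_left (hisq.const_mul b) fun x => ?_
    simp only
    rw [integral_mul_const]
    exact mul_le_mul_of_nonneg_right (hS.int_kc x) (sq_nonneg _)
  rw [esq, e1]
  have hc := Real.one_le_cosh s
  have hint' : ∫ q, (kc C q.1 q.2 * (h q.1 * h q.2) -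
      (Real.cosh s - 1) / 2 * (kc C q.1 q.2 * h q.1 ^ 2 + kc C q.1 q.2 * h q.2 ^ 2)) ∂μ.prod μ ≤
      ∫ q, (kc C q.1 q.2 * (Real.exp (φ q.1 - φ q.2) * (h q.1 * h q.2)) +
      kc C q.1 q.2 * (Real.exp (φ q.2 - φ q.1) * (h q.1 * h q.2))) / 2 ∂μ.prod μ := hint
  rw [hA, hQ, hP1] at hint'
  have h6 := mul_le_mul_of_nonneg_left hQ2 (sub_nonneg.2 hc)
  calc -(b * (ε + (Real.cosh s - 1)) * ∫ x, h x ^ 2 ∂μ)
      = -(ε * b * ∫ x in L, h x ^ 2 ∂m) - (Real.cosh s - 1) * (b * ∫ x, h x ^ 2 ∂μ) := by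
        rw [← hμ]
        ring
    _ ≤ (∫ x in L, h x * ∫ y in L, kc C x y * h y ∂m ∂m) -
        (Real.cosh s - 1) * ∫ q, kc C q.1 q.2 * (h q.1 ^ 2) ∂μ.prod μ := by
        linarith
    _ ≤ _ := hint'

end Pool.Agent.HdGas
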