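import Pool.Agent.Lib.MF.Defs

/-!
# Hard-core gases: dynamics, complex activities
-/

set_option autoImplicit false

namespace Pool.Agent.HdGas

open MeasureTheory

noncomputable section

variable {S : Type} [MeasurableSpace S]

/-- A finite system: `b` bounds the excluded volume, `K` bounds the number of points. -/
structure Sys (m : Measure S) (C : S → S → Prop) (L : Set S) (lam b : ℝ) (K : ℕ) : Prop where
  meas : MeasurableSet {p : S × S | C p.1 p.2}
  refl : ∀ x, C x x
  symm : ∀ x y, C x y → C y x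
  measL : MeasurableSet L
  fin : m L ≠ ⊤
  lam_nonneg : 0 ≤ lam
  b_pos : 0 < b
  ball : ∀ u, m {z | C u z} ≤ ENNReal.ofReal b
  card : ∀ ω : Om S, hc C ω → (∀ i, ω.2 i ∈ L) → ω.1 ≤ K

/-- Allowed configurations in `L`. -/
def ok (C : S → S → Prop) (L : Set S) (ω : Om S) : Prop := hc C ω ∧ ∀ i, ω.2 i ∈ L

/-- Measurable symmetric functions which are bounded on the allowed configurations. -/
structure Fn (C : S → S → Prop) (L : Set S) (F : Om S → ℝ) : Prop where
  meas : Measurable F
  sym : Sym F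
  bdd : ∃ B : ℝ, ∀ ω, ok C L ω → |F ω| ≤ B

/-- A configuration with the `i`-th point removed. -/
def del : (ω : Om S) → Fin ω.1 → Om S
  | ⟨0, _⟩, i => i.elim0
  | ⟨_ + 1, x⟩, i => ⟨_, i.removeNth x⟩

/-- Effect of a new point at `p`. -/
def D (F : Om S → ℝ) (p : S) (ω : Om S) : ℝ := F (ins p ω) - F ω

/-- Generator of the birth and death dynamics. -/
def gen (m : Measure S) (C : S → S → Prop) (lam : ℝ) (L : Set S) (F : Om S → ℝ) (ω : Om S) : ℝ :=
  ∑ i, (F (del ω i) - F ω) + lam * ∫ p in L, chi C (Al S) p ω * D F p ω ∂m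

/-- Energy with the weight `w`. -/
def en (m : Measure S) (C : S → S → Prop) (lam : ℝ) (L : Set S) (w : S → ℝ) (F G : Om S → ℝ) :
    ℝ :=
  lam * ∫ p in L, w p * ex m C lam L (fun ω => chi C (Al S) p ω * D F p ω * D G p ω) ∂m

/-- The measure `α m`. -/
def md (m : Measure S) (α : S → ℝ) : Measure S := m.withDensity fun x => ENNReal.ofReal (α x)

/-- Activity functions between `0` and `1`. -/
def U01 (α : S → ℝ) : Prop := Measurable α ∧ ∀ x, 0 ≤ α x ∧ α x ≤ 1

/-- Partition function at the activity `lam e^(i θ) α`. -/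
def Xa (m : Measure S) (C : S → S → Prop) (lam : ℝ) (L : Set S) (θ : ℝ) (α : S → ℝ) : ℂ :=
  ∫ ω, Complex.exp (Complex.I * θ * ω.1) ∂gib (md m α) C lam L

open Classical in
/-- The activity function `α` outside `A`. -/
def off (A : Set S) (α : S → ℝ) : S → ℝ := fun x => if x ∈ A then 0 else α x

/-- Ratio of partition functions: probability that no point excludes `x`. -/
def Ra (m : Measure S) (C : S → S → Prop) (lam : ℝ) (L : Set S) (θ : ℝ) (α : S → ℝ) (x : S) : ℂ :=
  Xa m C lam L θ (off {z | C x z} α) / Xa m C lam L θ α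

/-- No zero at the angle `θ`, and ratios `v`-close to the real ones. -/
def ZF (m : Measure S) (C : S → S → Prop) (lam : ℝ) (L : Set S) (θ v : ℝ) : Prop :=
  ∀ α : S → ℝ, U01 α → Xa m C lam L θ α ≠ 0 ∧
    ∀ x, ‖Ra m C lam L θ α x - Ra m C lam L 0 α x‖ ≤ v

end

end Pool.Agent.HdGas
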