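import Pool.Agent.Lib.NT.Rows3
import Pool.Agent.Lib.MF.Dens

/-! # Row DENS3: the density at a chemical potential, relative error. -/

set_option autoImplicit false

namespace Pool.Agent.HdGas

open MeasureTheory Filter Topology Pool.Agent.SquareWellGas Pool.Agent.KacGas Pool.Agent.VdwGas

namespace DensR

/-- The error term. -/
noncomputable def er3 (k c : ℝ) : ℝ := 2 * (tt c * k) * c

theorem er3_cont (k : ℝ) : Continuous (er3 k) := by
  unfold er3
  have := tt_cont
  fun_prop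

variable {d : ℕ} {P : ℝ → ℝ} {μ c ρ ε k : ℝ}

/-- the slope inequality from a neighbouring point. -/
theorem nbr3 (hS : SLOPE3) (hd : 1 ≤ d) (hε : 0 ≤ ε) (hFT : FT d ε) (hεk : ε ≤ k)
    (hkk : kap d ≤ k) (hP : IsPr d P) (hρ : ∀ h, P μ + h * ρ ≤ P (μ + h))
    {c' : ℝ} (hc' : 0 < c') (h2 : tt c' * ε ≤ 1 / 2) :
    (μ - Real.log (tt c' / bv d)) * c' -
      |μ - Real.log (tt c' / bv d)| * er3 k c' ≤
      (μ - Real.log (tt c' / bv d)) * (ρ * bv d) := by
  set μ' := Real.log (tt c' / bv d) with hμ'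
  have hb : 0 < bv d := GeobR.bv_pos d
  have e : tt c' = Real.exp μ' * bv d := exists_mu hb hc'
  have h := hS d hd ε k hε hFT hεk hkk P hP μ' c' hc'.le e (e ▸ h2) (μ - μ')
  rw [← e] at h
  have e2 : μ' + (μ - μ') = μ := by ring
  rw [e2] at h
  have h3 := hρ (μ' - μ)
  have e3 : μ + (μ' - μ) = μ' := by ring
  rw [e3] at h3
  have h4 : bv d * (P μ - P μ') ≤ bv d * ((μ - μ') * ρ) := by
    refine mul_le_mul_of_nonneg_left ?_ hb.le
    linarith
  unfold er3
  linarith

theorem upper3 (hS : SLOPE3) (hd : 1 ≤ d) (hε : 0 ≤ ε) (hFT : FT d ε) (hεk : ε ≤ k)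
    (hkk : kap d ≤ k) (hP : IsPr d P) (hρ : ∀ h, P μ + h * ρ ≤ P (μ + h))
    (hc : 0 < c) (hμ : tt c = Real.exp μ * bv d)
    (h2 : tt c * ε < 1 / 2) : ρ * bv d ≤ c + er3 k c := by
  have hb : 0 < bv d := GeobR.bv_pos d
  have hlim : Tendsto (fun x => x + er3 k x) (𝓝[>] c) (𝓝 (c + er3 k c)) := by
    have hc : Continuous fun x => x + er3 k x := continuous_id.add (er3_cont k)
    exact (hc.tendsto c).mono_left nhdsWithin_le_nhds
  refine ge_of_tendsto hlim ?_
  have g2 : ∀ᶠ x in 𝓝[>] c, tt x * ε < 1 / 2 := by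
    have hc : Continuous fun x => tt x * ε := tt_cont.mul continuous_const
    exact ((hc.tendsto c).mono_left nhdsWithin_le_nhds).eventually (gt_mem_nhds h2)
  have g3 : ∀ᶠ x in 𝓝[>] c, c < x := eventually_mem_nhdsWithin
  filter_upwards [g2, g3] with x k2 k3
  have hx : 0 < x := hc.trans k3
  have h := nbr3 hS hd hε hFT hεk hkk hP hρ hx k2.le
  have hlt : μ < Real.log (tt x / bv d) := by
    have hp : 0 < tt x / bv d := div_pos (mul_pos hx (Real.exp_pos _)) hb
    rw [Real.lt_log_iff_exp_lt hp, lt_div_iff₀ hb, ← hμ]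
    exact tt_strict hc k3
  set z := Real.log (tt x / bv d) - μ with hz
  have hz0 : 0 < z := sub_pos.2 hlt
  have e1 : μ - Real.log (tt x / bv d) = -z := by ring
  rw [e1, abs_neg, abs_of_pos hz0] at h
  have : z * (ρ * bv d) ≤ z * (x + er3 k x) := by linarith
  exact le_of_mul_le_mul_left this hz0

theorem lower3 (hS : SLOPE3) (hd : 1 ≤ d) (hε : 0 ≤ ε) (hFT : FT d ε) (hεk : ε ≤ k)
    (hkk : kap d ≤ k) (hP : IsPr d P) (hρ : ∀ h, P μ + h * ρ ≤ P (μ + h))
    (hc : 0 < c) (hμ : tt c = Real.exp μ * bv d)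
    (h2 : tt c * ε < 1 / 2) : c - er3 k c ≤ ρ * bv d := by
  have hb : 0 < bv d := GeobR.bv_pos d
  have hlim : Tendsto (fun x => x - er3 k x) (𝓝[<] c) (𝓝 (c - er3 k c)) := by
    have hc : Continuous fun x => x - er3 k x := continuous_id.sub (er3_cont k)
    exact (hc.tendsto c).mono_left nhdsWithin_le_nhds
  refine le_of_tendsto hlim ?_
  have g2 : ∀ᶠ x in 𝓝[<] c, tt x * ε < 1 / 2 := by
    have hc : Continuous fun x => tt x * ε := tt_cont.mul continuous_const
    exact ((hc.tendsto c).mono_left nhdsWithin_le_nhds).eventually (gt_mem_nhds h2)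
  have g3 : ∀ᶠ x in 𝓝[<] c, x < c := eventually_mem_nhdsWithin
  have g4 : ∀ᶠ x in 𝓝[<] c, 0 < x :=
    (tendsto_id.mono_left nhdsWithin_le_nhds).eventually (lt_mem_nhds hc)
  filter_upwards [g2, g3, g4] with x k2 k3 hx
  have h := nbr3 hS hd hε hFT hεk hkk hP hρ hx k2.le
  have hlt : Real.log (tt x / bv d) < μ := by
    have hp : 0 < tt x / bv d := div_pos (mul_pos hx (Real.exp_pos _)) hb
    rw [Real.log_lt_iff_lt_exp hp, div_lt_iff₀ hb, ← hμ]
    exact tt_strict hx k3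
  set z := μ - Real.log (tt x / bv d) with hz
  have hz0 : 0 < z := sub_pos.2 hlt
  rw [abs_of_pos hz0] at h
  have : z * (x - er3 k x) ≤ z * (ρ * bv d) := by linarith
  exact le_of_mul_le_mul_left this hz0

end DensR

open DensR in
/-- Row DENS3. -/
theorem dens3_of (hT : THERMO) (hS : SLOPE3) : DENS3 := by
  intro d hd ε k hε hFT hεk hkk f r hF μ c ρ hc0 hμ ht2 hρ hmax
  obtain ⟨P, hP, -, hL⟩ := hT d hd f r hF
  have hb : 0 < bv d := GeobR.bv_pos d
  have htpos : 0 < Real.exp μ * bv d := mul_pos (Real.exp_pos _) hb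
  have hc : 0 < c := by
    rcases hc0.lt_or_eq with h | h
    · exact h
    · rw [← hμ, ← h, zero_mul] at htpos
      exact absurd htpos (lt_irrefl _)
  have hPμ : P μ = f ρ + μ * ρ := by
    refine le_antisymm (le_of_forall_pos_le_add fun δ hδ => ?_) ((hL μ).1 ρ hρ)
    obtain ⟨x, hx, h⟩ := (hL μ).2 δ hδ
    have := hmax x hx
    linarith
  have hρ' : ∀ h, P μ + h * ρ ≤ P (μ + h) := by
    intro h
    have := (hL (μ + h)).1 ρ hρ
    rw [hPμ]
    linarith
  have hμ' : tt c = Real.exp μ * bv d := hμ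
  have s2 : tt c * ε < 1 / 2 := by
    rw [hμ']
    linarith
  have u := upper3 hS hd hε hFT hεk hkk hP hρ' hc hμ' s2
  have l := lower3 hS hd hε hFT hεk hkk hP hρ' hc hμ' s2
  unfold er3 at u l
  rw [← hμ', abs_le]
  constructor <;> linarith

end Pool.Agent.HdGas
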