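import Pool.Agent.Lib.NT.Rows4
import Pool.Agent.Lib.MF.Dens

/-! # Row DENS4: the density at a chemical potential, cubic error. -/

set_option autoImplicit false

namespace Pool.Agent.HdGas

open MeasureTheory Filter Topology Pool.Agent.SquareWellGas Pool.Agent.KacGas Pool.Agent.VdwGas

namespace DensR

/-- The error term. -/
noncomputable def er4 (A c : ℝ) : ℝ := A * c ^ 3

theorem er4_cont (A : ℝ) : Continuous (er4 A) := by
  unfold er4
  fun_prop

variable {b A c0 μ c ρ : ℝ} {P : ℝ → ℝ}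

/-- the slope inequality from a neighbouring point. -/
theorem nbr4 (hb : 0 < b) (hS : ∀ μ c : ℝ, 0 ≤ c → c * Real.exp c = Real.exp μ * b → c ≤ c0 →
      ∀ h : ℝ, h * c - |h| * (A * c ^ 3) ≤ b * (P (μ + h) - P μ))
    (hρ : ∀ h, P μ + h * ρ ≤ P (μ + h)) {c' : ℝ} (hc' : 0 < c') (h2 : c' ≤ c0) :
    (μ - Real.log (tt c' / b)) * c' - |μ - Real.log (tt c' / b)| * er4 A c' ≤
      (μ - Real.log (tt c' / b)) * (ρ * b) := by
  set μ' := Real.log (tt c' / b) with hμ'
  have e : tt c' = Real.exp μ' * b := exists_mu hb hc'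
  have h := hS μ' c' hc'.le e h2 (μ - μ')
  have e2 : μ' + (μ - μ') = μ := by ring
  rw [e2] at h
  have h3 := hρ (μ' - μ)
  have e3 : μ + (μ' - μ) = μ' := by ring
  rw [e3] at h3
  have h4 : b * (P μ - P μ') ≤ b * ((μ - μ') * ρ) := by
    refine mul_le_mul_of_nonneg_left ?_ hb.le
    linarith
  unfold er4
  linarith

theorem upper4 (hb : 0 < b) (hS : ∀ μ c : ℝ, 0 ≤ c → c * Real.exp c = Real.exp μ * b → c ≤ c0 →
      ∀ h : ℝ, h * c - |h| * (A * c ^ 3) ≤ b * (P (μ + h) - P μ))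
    (hρ : ∀ h, P μ + h * ρ ≤ P (μ + h)) (hc : 0 < c) (hμ : tt c = Real.exp μ * b)
    (h2 : c < c0) : ρ * b ≤ c + er4 A c := by
  have hlim : Tendsto (fun x => x + er4 A x) (𝓝[>] c) (𝓝 (c + er4 A c)) := by
    have hc : Continuous fun x => x + er4 A x := continuous_id.add (er4_cont A)
    exact (hc.tendsto c).mono_left nhdsWithin_le_nhds
  refine ge_of_tendsto hlim ?_
  have g2 : ∀ᶠ x in 𝓝[>] c, x < c0 :=
    (tendsto_id.mono_left nhdsWithin_le_nhds).eventually (gt_mem_nhds h2)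
  have g3 : ∀ᶠ x in 𝓝[>] c, c < x := eventually_mem_nhdsWithin
  filter_upwards [g2, g3] with x k2 k3
  have hx : 0 < x := hc.trans k3
  have h := nbr4 hb hS hρ hx (le_of_lt k2)
  have hlt : μ < Real.log (tt x / b) := by
    have hp : 0 < tt x / b := div_pos (mul_pos hx (Real.exp_pos _)) hb
    rw [Real.lt_log_iff_exp_lt hp, lt_div_iff₀ hb, ← hμ]
    exact tt_strict hc k3
  set z := Real.log (tt x / b) - μ with hz
  have hz0 : 0 < z := sub_pos.2 hlt
  have e1 : μ - Real.log (tt x / b) = -z := by ring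
  rw [e1, abs_neg, abs_of_pos hz0] at h
  have : z * (ρ * b) ≤ z * (x + er4 A x) := by linarith
  exact le_of_mul_le_mul_left this hz0

theorem lower4 (hb : 0 < b) (hS : ∀ μ c : ℝ, 0 ≤ c → c * Real.exp c = Real.exp μ * b → c ≤ c0 →
      ∀ h : ℝ, h * c - |h| * (A * c ^ 3) ≤ b * (P (μ + h) - P μ))
    (hρ : ∀ h, P μ + h * ρ ≤ P (μ + h)) (hc : 0 < c) (hμ : tt c = Real.exp μ * b)
    (h2 : c < c0) : c - er4 A c ≤ ρ * b := by
  have hlim : Tendsto (fun x => x - er4 A x) (𝓝[<] c) (𝓝 (c - er4 A c)) := by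
    have hc : Continuous fun x => x - er4 A x := continuous_id.sub (er4_cont A)
    exact (hc.tendsto c).mono_left nhdsWithin_le_nhds
  refine le_of_tendsto hlim ?_
  have g3 : ∀ᶠ x in 𝓝[<] c, x < c := eventually_mem_nhdsWithin
  have g4 : ∀ᶠ x in 𝓝[<] c, 0 < x :=
    (tendsto_id.mono_left nhdsWithin_le_nhds).eventually (lt_mem_nhds hc)
  filter_upwards [g3, g4] with x k3 hx
  have h := nbr4 hb hS hρ hx ((le_of_lt k3).trans h2.le)
  have hlt : Real.log (tt x / b) < μ := by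
    have hp : 0 < tt x / b := div_pos (mul_pos hx (Real.exp_pos _)) hb
    rw [Real.log_lt_iff_lt_exp hp, div_lt_iff₀ hb, ← hμ]
    exact tt_strict hx k3
  set z := μ - Real.log (tt x / b) with hz
  have hz0 : 0 < z := sub_pos.2 hlt
  rw [abs_of_pos hz0] at h
  have : z * (x - er4 A x) ≤ z * (ρ * b) := by linarith
  exact le_of_mul_le_mul_left this hz0

end DensR

open DensR in
/-- Row DENS4. -/
theorem dens4_of : DENS4 := by
  intro b A c0 r P f hb _ hS hL μ c ρ hc0 hμ hcc hρ hmax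
  have htpos : 0 < Real.exp μ * b := mul_pos (Real.exp_pos _) hb
  have hc : 0 < c := by
    rcases hc0.lt_or_eq with h | h
    · exact h
    · rw [← hμ, ← h, zero_mul] at htpos
      exact absurd htpos (lt_irrefl _)
  have hPμ : P μ = f ρ + μ * ρ := by
    refine le_antisymm (le_of_forall_pos_le_add fun δ hδ => ?_) ((hL μ).1 ρ hρ)
    obtain ⟨x, hx, h⟩ := (hL μ).2 δ hδ
    have := hmax x hx
    linarith
  have hρ' : ∀ h, P μ + h * ρ ≤ P (μ + h) := by
    intro h
    have := (hL (μ + h)).1 ρ hρ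
    rw [hPμ]
    linarith
  have hμ' : tt c = Real.exp μ * b := hμ
  have u := upper4 hb hS hρ' hc hμ' hcc
  have l := lower4 hb hS hρ' hc hμ' hcc
  unfold er4 at u l
  rw [abs_le]
  constructor <;> linarith

end Pool.Agent.HdGas
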