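import Pool.Agent.Lib.NT.Rows3
import Pool.Agent.Lib.MF.RowConv
import Pool.Agent.Lib.MF.Meas
import Pool.Agent.Lib.MF.Bas

/-!
# Upper bound for the mean number of points (helper63)
-/

set_option autoImplicit false

namespace Pool.Agent.HdGas

open MeasureTheory Real Set Cv

noncomputable section

namespace DensU

/-- `x log x ≥ x - 1 + (x-1)^2 / 2` for `x ≤ 1`. -/
theorem low1 {x : ℝ} (hx : 0 < x) (h1 : x ≤ 1) : (x - 1) + (x - 1) ^ 2 / 2 ≤ x * Real.log x := by
  have h2 : (0 : ℝ) ≤ -Real.log x := by
    have := Real.log_nonpos hx.le h1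
    linarith
  have h3 := Real.self_le_sinh_iff.2 h2
  rw [Real.sinh_eq, Real.exp_neg, neg_neg, Real.exp_log hx] at h3
  have h4 := mul_le_mul_of_nonneg_left h3 hx.le
  have e : x * ((x⁻¹ - x) / 2) = (1 - x ^ 2) / 2 := by
    field_simp
  rw [e] at h4
  nlinarith

/-- `x log x ≥ x - 1 + (x-1)^2 / (2 x)` for `x ≥ 1`. -/
theorem low2 {x : ℝ} (h1 : 1 ≤ x) : (x - 1) + (x - 1) ^ 2 / (2 * x) ≤ x * Real.log x := by
  have hx : 0 < x := by linarith
  set z : ℝ := 1 - x⁻¹ with hz
  have hi : x⁻¹ ≤ 1 := inv_le_one_of_one_le₀ h1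
  have hz0 : 0 ≤ z := by rw [hz]; linarith
  have hz1 : z < 1 := by
    rw [hz]
    have := inv_pos.2 hx
    linarith
  have hs := Real.hasSum_pow_div_log_of_abs_lt_one (x := z) (by rwa [abs_of_nonneg hz0])
  have h2 := sum_le_hasSum (Finset.range 2) (fun i _ => by positivity) hs
  have e1 : -Real.log (1 - z) = Real.log x := by
    rw [hz, sub_sub_cancel, Real.log_inv, neg_neg]
  rw [e1] at h2
  simp only [Finset.sum_range_succ, Finset.sum_range_zero, Nat.cast_zero, Nat.cast_one] at h2
  norm_num at h2
  have h3 := mul_le_mul_of_nonneg_left h2 hx.le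
  have e2 : x * (z + z ^ 2 / 2) = (x - 1) + (x - 1) ^ 2 / (2 * x) := by
    rw [hz]
    field_simp
    try ring
  linarith

/-- `u log (u / c) ≥ (u - c) + (u - c)^2 / (2 t)`. -/
theorem low {u c t : ℝ} (hu : 0 ≤ u) (hc : 0 < c) (hut : u ≤ t) (hct : c ≤ t) :
    (u - c) + (u - c) ^ 2 / (2 * t) ≤ u * Real.log (u / c) := by
  have ht : 0 < t := hc.trans_le hct
  rcases hu.eq_or_lt with h | h
  · rw [← h]
    have : (0 - c) ^ 2 / (2 * t) ≤ c := by
      rw [div_le_iff₀ (by positivity)]
      nlinarith
    simp only [zero_mul]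
    linarith
  have hx : 0 < u / c := div_pos h hc
  rcases le_total u c with h1 | h1
  · have h2 := mul_le_mul_of_nonneg_left (low1 hx ((div_le_one hc).2 h1)) hc.le
    have e : c * (u / c * Real.log (u / c)) = u * Real.log (u / c) := by field_simp
    rw [e] at h2
    have e2 : c * ((u / c - 1) + (u / c - 1) ^ 2 / 2) = (u - c) + (u - c) ^ 2 / (2 * c) := by
      field_simp
    rw [e2] at h2
    have h3 : (u - c) ^ 2 / (2 * t) ≤ (u - c) ^ 2 / (2 * c) :=
      div_le_div_of_nonneg_left (sq_nonneg _) (by positivity) (by linarith)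
    linarith
  · have h2 := mul_le_mul_of_nonneg_left (low2 ((one_le_div hc).2 h1)) hc.le
    have e : c * (u / c * Real.log (u / c)) = u * Real.log (u / c) := by field_simp
    rw [e] at h2
    have e2 : c * ((u / c - 1) + (u / c - 1) ^ 2 / (2 * (u / c))) =
        (u - c) + (u - c) ^ 2 / (2 * u) := by
      field_simp
    rw [e2] at h2
    have h3 : (u - c) ^ 2 / (2 * t) ≤ (u - c) ^ 2 / (2 * u) :=
      div_le_div_of_nonneg_left (sq_nonneg _) (by positivity) (by linarith)
    linarith

variable {S : Type} [MeasurableSpace S] {m : Measure S} [SigmaFinite m] {C : S → S → Prop}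
  {L : Set S} {b κ ε c t γ : ℝ}

/-- Fubini. -/
theorem fub (hG : Geo m C L b κ) {g : S → ℝ} (hg : Measurable g) (hb : ∀ x, |g x| ≤ 1)
    (h0 : ∀ x, x ∉ L → g x = 0) :
    ∫ u in L, (∫ y in {y | C u y}, g y ∂m) ∂m =
      ∫ y in L, g y * (m {z | z ∈ L ∧ C y z}).toReal ∂m := by
  have hL := hG.measL
  have hfin : IsFiniteMeasure (m.restrict L) := ⟨by
    rw [Measure.restrict_apply_univ]
    exact hG.fin.lt_top⟩
  have e1 : ∀ u, ∫ y in {y | C u y}, g y ∂m =
      ∫ y in L, ({p : S × S | C p.1 p.2}.indicator (fun p => g p.2)) (u, y) ∂m := by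
    intro u
    have h1 : ∫ y in {y | C u y}, g y ∂m = ∫ y in L, {y | C u y}.indicator g y ∂m := by
      rw [← integral_indicator (sec_meas hG u), ← integral_indicator hL]
      congr 1
      funext y
      by_cases hy : y ∈ L
      · rw [indicator_of_mem hy]
      · rw [indicator_of_notMem hy]
        by_cases h : y ∈ {y | C u y}
        · rw [indicator_of_mem h, h0 y hy]
        · rw [indicator_of_notMem h]
    rw [h1]
    rfl
  have hm : Measurable ({p : S × S | C p.1 p.2}.indicator fun p => g p.2) :=
    (hg.comp measurable_snd).indicator hG.meas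
  simp only [e1]
  rw [integral_integral_swap]
  · refine setIntegral_congr_fun hL fun y _ => ?_
    show ∫ u in L, ({p : S × S | C p.1 p.2}.indicator (fun p => g p.2)) (u, y) ∂m =
      g y * (m {z | z ∈ L ∧ C y z}).toReal
    have e2 : (fun u => ({p : S × S | C p.1 p.2}.indicator (fun p => g p.2)) (u, y)) =
        {u | C y u}.indicator fun _ => g y := by
      funext u
      by_cases h : C u y
      · rw [indicator_of_mem (show (u, y) ∈ {p : S × S | C p.1 p.2} from h),
          indicator_of_mem (show u ∈ {u | C y u} from hG.symm _ _ h)]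
      · rw [indicator_of_notMem (show (u, y) ∉ {p : S × S | C p.1 p.2} from h),
          indicator_of_notMem (show u ∉ {u | C y u} from fun h' => h (hG.symm _ _ h'))]
    rw [e2, MeasureTheory.setIntegral_indicator (sec_meas hG y), setIntegral_const, smul_eq_mul,
      mul_comm]
    rfl
  · refine Integrable.of_bound (C := 1) ?_ (Filter.Eventually.of_forall fun p => ?_)
    · exact hm.aestronglyMeasurable
    · show ‖({p : S × S | C p.1 p.2}.indicator (fun p => g p.2)) (p.1, p.2)‖ ≤ 1
      by_cases h : (p.1, p.2) ∈ {p : S × S | C p.1 p.2}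
      · rw [indicator_of_mem h, Real.norm_eq_abs]
        exact hb _
      · rw [indicator_of_notMem h, norm_zero]
        exact zero_le_one

/-- The deterministic inequality. -/
theorem det (hG : Geo m C L b κ) (hP : Posi m C L b ε) (hε0 : 0 ≤ ε) (ht : 0 < t)
    (hγ0 : 0 ≤ γ) (hγ1 : γ ≤ 1) (hγ : 2 * (γ * (t * ε)) ≤ 1) (hc0 : 0 < c)
    (hc : c * Real.exp (γ * c) = t) {n : S → ℝ} (hn : Measurable n)
    (h0 : ∀ u, 0 ≤ n u) (h1 : ∀ u, n u ≤ t)
    (hU : ∀ u, n u * Real.log (n u / t) ≤
      -(γ / b * (n u * ∫ z in {z | z ∈ L ∧ C u z}, n z ∂m))) :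
    ∫ v in L, n v ∂m ≤ c * (m L).toReal + 2 * t * Bd m C L b c := by
  have hL := hG.measL
  have hfin := hG.fin
  have hb0 := hG.b_pos
  have hct : c ≤ t := by
    rw [← hc]
    have := Real.one_le_exp (mul_nonneg hγ0 hc0.le)
    nlinarith
  have habs : ∀ u, |n u - c| ≤ t := fun u => by
    rw [abs_le]
    constructor <;> linarith [h0 u, h1 u]
  set g : S → ℝ := L.indicator fun u => (n u - c) / t with hg
  have hgm : Measurable g := (by fun_prop : Measurable fun u => (n u - c) / t).indicator hL
  have hgL : ∀ u ∈ L, g u = (n u - c) / t := fun u hu => indicator_of_mem hu _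
  have hgn : ∀ u, u ∉ L → g u = 0 := fun u hu => indicator_of_notMem hu _
  have hg1 : ∀ u, |g u| ≤ 1 := by
    intro u
    by_cases hu : u ∈ L
    · rw [hgL u hu, abs_div, abs_of_pos ht, div_le_one ht]
      exact habs u
    · rw [hgn u hu]; simp
  set W : S → ℝ := fun u => ∫ y in {y | C u y}, g y ∂m with hW
  set V : S → ℝ := fun u => (m {z | z ∈ L ∧ C u z}).toReal with hV
  set β : S → ℝ := fun u => c * (1 - V u / b) with hβ
  have hWm : Measurable W := sec_int_meas hG hgm
  have hVm : Measurable V := by
    have e : V = fun u => ∫ y in {y | C u y}, L.indicator (fun _ => (1 : ℝ)) y ∂m := by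
      funext u
      rw [MeasureTheory.setIntegral_indicator hL, setIntegral_const, smul_eq_mul, mul_one]
      simp only [hV]
      rw [Measure.real]
      congr 2
      ext v
      simp [and_comm]
    rw [e]
    exact sec_int_meas hG (measurable_const.indicator hL)
  have hV0 : ∀ u, 0 ≤ V u := fun u => ENNReal.toReal_nonneg
  have hVb : ∀ u, V u ≤ b := fun u => LC_le hG u
  have hβ0 : ∀ u, 0 ≤ β u := fun u => by
    simp only [hβ]
    refine mul_nonneg hc0.le ?_
    rw [sub_nonneg, div_le_one hb0]
    exact hVb u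
  have hβ1 : ∀ u, |β u| ≤ c := fun u => by
    rw [abs_of_nonneg (hβ0 u)]
    simp only [hβ]
    have : 0 ≤ V u / b := div_nonneg (hV0 u) hb0.le
    nlinarith
  have hβm : Measurable β := by
    simp only [hβ]
    fun_prop
  have hWt : ∀ u, t * W u = (∫ z in {z | z ∈ L ∧ C u z}, n z ∂m) - c * V u := by
    intro u
    have e1 : W u = ∫ v in {v | v ∈ L ∧ C u v}, ((n v - c) / t) ∂m := by
      simp only [hW, hg]
      rw [MeasureTheory.setIntegral_indicator hL]
      congr 2
      ext v
      simp [and_comm]
    have e2 : ∫ v in {v | v ∈ L ∧ C u v}, ((n v - c) / t) ∂m =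
        (∫ v in {v | v ∈ L ∧ C u v}, (n v - c) ∂m) / t := integral_div _ _
    have e3 : ∫ v in {v | v ∈ L ∧ C u v}, (n v - c) ∂m =
        (∫ z in {z | z ∈ L ∧ C u z}, n z ∂m) - c * V u := by
      rw [integral_sub]
      · rw [setIntegral_const, smul_eq_mul, mul_comm c]
        rfl
      · refine bdd (M := t) (LC_meas hG u) (LC_fin hG u) hn fun v _ => ?_
        rw [abs_of_nonneg (h0 v)]
        exact h1 v
      · exact integrableOn_const (LC_fin hG u)
    rw [e1, e2, e3]
    field_simp
  have hWb : ∀ u, |W u| ≤ b := by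
    intro u
    simp only [hW]
    refine (norm_setIntegral_le_of_norm_le_const (C := 1) (sec_fin hG u).lt_top
      (fun y _ => by rw [Real.norm_eq_abs]; exact hg1 y)).trans ?_
    rw [one_mul]
    exact ENNReal.toReal_le_of_le_ofReal hb0.le (hG.ball u)
  -- the pointwise inequality
  have hpt : ∀ u, (n u - c) + (n u - c) ^ 2 / (2 * t) ≤
      γ * (2 * t * β u) - γ * (t / b * ((n u - c) * W u)) - γ * (t * c / b * W u) -
        γ * ((n u - c) * β u) := by
    intro u
    have e1 := low (h0 u) hc0 (h1 u) hct
    have e2 := hU u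
    have e3 : n u * Real.log (n u / c) = n u * Real.log (n u / t) + γ * c * n u := by
      rcases (h0 u).eq_or_lt with h | h
      · rw [← h]; simp
      · have : Real.log (n u / t) = Real.log (n u / c) - γ * c := by
          rw [← hc, Real.log_div h.ne' (by positivity), Real.log_mul hc0.ne' (Real.exp_pos _).ne',
            Real.log_exp, Real.log_div h.ne' hc0.ne']
          ring
        rw [this]
        ring
    have e4 : (∫ z in {z | z ∈ L ∧ C u z}, n z ∂m) = t * W u + c * V u := by
      rw [hWt]
      ring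
    rw [e4] at e2
    rw [e3] at e1
    have e5 : -(γ / b * (n u * (t * W u + c * V u))) + γ * c * n u =
        γ * (n u * β u) - γ * (t / b * ((n u - c) * W u)) - γ * (t * c / b * W u) := by
      simp only [hβ]
      field_simp
      ring
    have e6 : n u * β u + (n u - c) * β u ≤ 2 * t * β u := by
      rw [← add_mul]
      exact mul_le_mul_of_nonneg_right (by linarith [h1 u]) (hβ0 u)
    have e7 := mul_le_mul_of_nonneg_left e6 hγ0
    nlinarith
  have iN : IntegrableOn n L m :=
    bdd (M := t) hL hfin hn fun v _ => by rw [abs_of_nonneg (h0 v)]; exact h1 v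
  have iw : IntegrableOn (fun v => n v - c) L m :=
    bdd (M := t) hL hfin (by fun_prop) fun v _ => habs v
  have iβ : IntegrableOn β L m := bdd (M := c) hL hfin hβm fun v _ => hβ1 v
  have iW : IntegrableOn (fun v => (n v - c) * W v) L m :=
    bdd (M := t * b) hL hfin (by fun_prop) fun v _ => by
      rw [abs_mul]
      exact mul_le_mul (habs v) (hWb v) (abs_nonneg _) ht.le
  have iW1 : IntegrableOn W L m := bdd (M := b) hL hfin hWm fun v _ => hWb v
  have iwβ : IntegrableOn (fun v => (n v - c) * β v) L m :=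
    bdd (M := t * c) hL hfin (by fun_prop) fun v _ => by
      rw [abs_mul]
      exact mul_le_mul (habs v) (hβ1 v) (abs_nonneg _) ht.le
  have iS : IntegrableOn (fun v => (n v - c) ^ 2) L m :=
    bdd (M := t ^ 2) hL hfin (by fun_prop) fun v _ => by
      rw [abs_pow]
      exact pow_le_pow_left₀ (abs_nonneg _) (habs v) 2
  have hBd : ∫ v in L, β v ∂m = Bd m C L b c := rfl
  set I1 := ∫ v in L, (n v - c) ∂m with hI1
  set I2 := ∫ v in L, (n v - c) ^ 2 ∂m with hI2
  set IW := ∫ v in L, (n v - c) * W v ∂m with hIW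
  set Iβ := ∫ v in L, (n v - c) * β v ∂m with hIβ
  have hint : I1 + I2 / (2 * t) ≤ γ * (2 * t * Bd m C L b c) - γ * (t / b * IW) -
      γ * (t * c / b * ∫ v in L, W v ∂m) - γ * Iβ := by
    have e1 : I1 + I2 / (2 * t) = ∫ v in L, ((n v - c) + (n v - c) ^ 2 / (2 * t)) ∂m := by
      rw [integral_add iw (iS.div_const _), integral_div]
    have j1 : IntegrableOn (fun v => γ * (2 * t * β v)) L m := (iβ.const_mul _).const_mul _
    have j2 : IntegrableOn (fun v => γ * (t / b * ((n v - c) * W v))) L m :=
      (iW.const_mul _).const_mul _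
    have j3 : IntegrableOn (fun v => γ * (t * c / b * W v)) L m := (iW1.const_mul _).const_mul _
    have j4 : IntegrableOn (fun v => γ * ((n v - c) * β v)) L m := iwβ.const_mul _
    have j12 : IntegrableOn (fun v => γ * (2 * t * β v) - γ * (t / b * ((n v - c) * W v))) L m :=
      j1.sub j2
    have j123 : IntegrableOn (fun v => γ * (2 * t * β v) - γ * (t / b * ((n v - c) * W v)) -
      γ * (t * c / b * W v)) L m := j12.sub j3
    have k1 : ∫ v in L, γ * (2 * t * β v) ∂m = γ * (2 * t * Bd m C L b c) := by
      rw [integral_const_mul, integral_const_mul, hBd]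
    have k2 : ∫ v in L, γ * (t / b * ((n v - c) * W v)) ∂m = γ * (t / b * IW) := by
      rw [integral_const_mul, integral_const_mul]
    have k3 : ∫ v in L, γ * (t * c / b * W v) ∂m = γ * (t * c / b * ∫ v in L, W v ∂m) := by
      rw [integral_const_mul, integral_const_mul]
    have k4 : ∫ v in L, γ * ((n v - c) * β v) ∂m = γ * Iβ := by
      rw [integral_const_mul]
    have e2 : γ * (2 * t * Bd m C L b c) - γ * (t / b * IW) -
        γ * (t * c / b * ∫ v in L, W v ∂m) - γ * Iβ =
        ∫ v in L, (γ * (2 * t * β v) - γ * (t / b * ((n v - c) * W v)) -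
          γ * (t * c / b * W v) - γ * ((n v - c) * β v)) ∂m := by
      rw [integral_sub j123 j4, integral_sub j12 j3, integral_sub j1 j2, k1, k2, k3, k4]
    rw [e1, e2]
    exact setIntegral_mono_on (iw.add (iS.div_const _)) (j123.sub j4) hL fun v _ => hpt v
  -- Fubini
  have hf : t * ∫ v in L, W v ∂m = ∫ v in L, (n v - c) * V v ∂m := by
    rw [← integral_const_mul]
    have h2 := fub hG hgm hg1 hgn
    rw [integral_const_mul]
    simp only [hW]
    rw [h2, ← integral_const_mul]
    refine setIntegral_congr_fun hL fun v hv => ?_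
    show t * (g v * (m {z | z ∈ L ∧ C v z}).toReal) = (n v - c) * V v
    rw [hgL v hv]
    simp only [hV]
    field_simp
  have hf2 : t * c / b * ∫ v in L, W v ∂m = c * I1 - Iβ := by
    have e1 : c * I1 - Iβ = ∫ v in L, (c * (n v - c) - (n v - c) * β v) ∂m := by
      rw [integral_sub (iw.const_mul c) iwβ, integral_const_mul]
    have e2 : t * c / b * ∫ v in L, W v ∂m = c / b * (t * ∫ v in L, W v ∂m) := by ring
    rw [e1, e2, hf, ← integral_const_mul]
    refine setIntegral_congr_fun hL fun v _ => ?_
    show c / b * ((n v - c) * V v) = c * (n v - c) - (n v - c) * β v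
    simp only [hβ]
    field_simp
    ring
  -- positivity
  have hpos := hP g hgm hg1 hgn
  have e1 : ∫ x, g x ^ 2 ∂m = I2 / t ^ 2 := by
    have : (fun x => g x ^ 2) = L.indicator fun x => (n x - c) ^ 2 / t ^ 2 := by
      funext x
      by_cases hx : x ∈ L
      · rw [indicator_of_mem hx, hgL x hx, div_pow]
      · rw [indicator_of_notMem hx, hgn x hx]
        simp
    rw [this, integral_indicator hL, integral_div]
  have e2 : ∫ x, g x * ∫ y in {y | C x y}, g y ∂m ∂m = IW / t := by
    have : (fun x => g x * ∫ y in {y | C x y}, g y ∂m) =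
        L.indicator fun x => (n x - c) * W x / t := by
      funext x
      by_cases hx : x ∈ L
      · rw [indicator_of_mem hx, hgL x hx]
        simp only [hW]
        ring
      · rw [indicator_of_notMem hx, hgn x hx]
        simp
    rw [this, integral_indicator hL, integral_div]
  rw [e1, e2] at hpos
  have hneg : -(t / b * IW) ≤ ε * I2 := by
    have h3 := mul_le_mul_of_nonneg_left hpos (by positivity : 0 ≤ t ^ 2 / b)
    have e3 : t ^ 2 / b * (IW / t) = t / b * IW := by
      field_simp
    have e4 : t ^ 2 / b * -(ε * b * (I2 / t ^ 2)) = -(ε * I2) := by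
      field_simp
    rw [e3, e4] at h3
    linarith
  have hI20 : 0 ≤ I2 := setIntegral_nonneg hL fun v _ => sq_nonneg _
  have hB0 : 0 ≤ Bd m C L b c := setIntegral_nonneg hL fun v _ => hβ0 v
  have h5 : γ * (ε * I2) ≤ I2 / (2 * t) := by
    rw [le_div_iff₀ (by positivity)]
    have := mul_le_mul_of_nonneg_right hγ hI20
    nlinarith
  have h6 := mul_le_mul_of_nonneg_left hneg hγ0
  rw [hf2] at hint
  have h7 : (1 + γ * c) * I1 ≤ γ * (2 * t * Bd m C L b c) := by nlinarith
  have h8 : γ * (2 * t * Bd m C L b c) ≤ 2 * t * Bd m C L b c :=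
    mul_le_of_le_one_left (by positivity) hγ1
  have h9 : I1 ≤ 2 * t * Bd m C L b c := by
    rcases le_total I1 0 with h | h
    · exact h.trans (by positivity)
    · have : 0 ≤ γ * c * I1 := by positivity
      nlinarith
  have h10 : ∫ v in L, n v ∂m = I1 + c * (m L).toReal := by
    rw [hI1, integral_sub iN (integrableOn_const hfin), setIntegral_const, smul_eq_mul]
    unfold Measure.real
    ring
  rw [h10]
  linarith

end DensU

/-- **DENSU**. -/
theorem densu_of (hU : PUP) (hI : INT) : DENSU := by
  intro S _ m _ C L b κ ε lam c K hG hS hε0 hP hε hc0 hc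
  have hl := hS.lam_nonneg
  have hb0 := hG.b_pos
  obtain ⟨-, hN⟩ := hI S m C L b κ lam hG hl
  rcases hl.eq_or_lt with h | h
  · have hc00 : c = 0 := by
      rw [← h, zero_mul] at hc
      rcases mul_eq_zero.1 hc with h | h
      · exact h
      · exact absurd h (Real.exp_pos _).ne'
    rw [hN, ← h, hc00]
    simp
  · obtain ⟨-, -, hfinG, hX1, -, -⟩ := bas S m C L lam hG.meas hG.measL hG.fin hl
    obtain ⟨hmeas, -⟩ := meas S m C L lam hG.meas hG.measL hG.fin hl
    obtain ⟨hχm, -, -, -, -⟩ := hmeas (Al S) (by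
      have : {x : S | Al S x} = univ := by ext; simp [Al]
      rw [this]
      exact MeasurableSet.univ)
    have ht : 0 < lam * b := mul_pos h hb0
    have hcp : 0 < c := by
      rcases hc0.eq_or_lt with h' | h'
      · rw [← h', zero_mul] at hc
        exact absurd hc ht.ne
      · exact h'
    set a : S → ℝ := fun v => ex m C lam L (chi C (Al S) v) with ha
    have ham : Measurable a := by
      simp only [ha]
      unfold ex
      refine Measurable.div_const ?_ _
      exact (hχm.stronglyMeasurable.integral_prod_right').measurable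
    have hX0 : 0 < Xi m C lam L := lt_of_lt_of_le one_pos hX1
    have hχ0 : ∀ v ω, 0 ≤ chi C (Al S) v ω := fun v ω => by
      unfold chi
      split <;> simp
    have ha0 : ∀ v, 0 ≤ a v := fun v => by
      simp only [ha]
      unfold ex
      exact div_nonneg (integral_nonneg fun ω => hχ0 v ω) hX0.le
    have ha1 : ∀ v, a v ≤ 1 := by
      intro v
      simp only [ha]
      unfold ex
      rw [div_le_one hX0]
      have hone : ∫ _ω : Om S, (1 : ℝ) ∂gib m C lam L = Xi m C lam L := by
        rw [integral_const, smul_eq_mul, mul_one]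
        rfl
      rw [← hone]
      refine integral_mono ?_ (integrable_const _) fun ω => ?_
      · refine Integrable.of_bound (hχm.comp (measurable_const.prodMk
          measurable_id)).aestronglyMeasurable 1 (Filter.Eventually.of_forall fun ω => ?_)
        show ‖chi C (Al S) v ω‖ ≤ 1
        unfold chi
        split <;> simp
      · show chi C (Al S) v ω ≤ 1
        unfold chi
        split <;> simp
    set x : ℝ := lam * b * ε with hx
    have hx0 : 0 ≤ x := by positivity
    have key := DensU.det (t := lam * b) (c := c) (γ := 1 - x)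
      (n := fun v => lam * b * a v) hG hP hε0 ht (by linarith) (by linarith)
      (by nlinarith [sq_nonneg (2 * x - 1)]) hcp hc (by fun_prop)
      (fun u => mul_nonneg ht.le (ha0 u)) (fun u => mul_le_of_le_one_right ht.le (ha1 u))
      (fun u => by
        have h1 := hU S m C L b ε lam K hS hε0 hP hε u
        have e1 : ∫ z in {z | z ∈ L ∧ C u z}, lam * b * a z ∂m =
            lam * b * ∫ z in {z | z ∈ L ∧ C u z}, a z ∂m := integral_const_mul _ _
        have e2 : lam * b * a u / (lam * b) = a u := by field_simp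
        rw [e1, e2]
        rcases (ha0 u).eq_or_lt with h3 | h3
        · rw [← h3]; simp
        · have h4 := (Real.log_le_iff_le_exp h3).2 h1
          have h5 := mul_le_mul_of_nonneg_left h4 (mul_nonneg ht.le (ha0 u))
          refine h5.trans (le_of_eq ?_)
          field_simp
          try ring)
    have e3 : b * ex m C lam L (fun ω => (ω.1 : ℝ)) = ∫ v in L, lam * b * a v ∂m := by
      rw [hN, integral_const_mul]
      ring
    rw [e3]
    exact key

end

end Pool.Agent.HdGas
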