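import Pool.Agent.Lib.NT.Gnz

/-!
# Row DIR
-/

set_option autoImplicit false

namespace Pool.Agent.HdGas

open MeasureTheory Filter Topology

namespace Gn

variable {S : Type}

theorem ins_del {α : Type} {F : Om S → α} (hF : Sym F) (ω : Om S) (i : Fin ω.1) :
    F (ins (ω.2 i) (del ω i)) = F ω := by
  obtain ⟨n, x⟩ := ω
  cases n with
  | zero => exact i.elim0
  | succ n =>
    have h := hF (n + 1) x (Fin.cycleRange i).symm
    rw [← h]
    congr 1
    show (⟨n + 1, Fin.cons (x i) (i.removeNth x)⟩ : Om S) = ⟨n + 1, _⟩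
    congr 1
    funext j
    refine Fin.cases ?_ (fun j => ?_) j
    · simp [Fin.cycleRange_symm_zero]
    · simp [Fin.cycleRange_symm_succ, Fin.removeNth]

theorem chi_eq_one_or (C : S → S → Prop) (K : S → Prop) (p : S) (ω : Om S) :
    chi C K p ω = 1 ∨ chi C K p ω = 0 := by
  unfold chi
  split_ifs
  · exact Or.inl rfl
  · exact Or.inr rfl

variable [MeasurableSpace S]

/-- A bounded version of `chi p ω * G p ω`. -/
theorem cut {m : Measure S} [SigmaFinite m] {C : S → S → Prop} {L : Set S} {lam b : ℝ} {K : ℕ}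
    (hS : Sys m C L lam b K) (hokm : MeasurableSet {ω : Om S | ok C L ω})
    {G : S → Om S → ℝ} (hG : Measurable fun q : S × Om S => G q.1 q.2) {B : ℝ}
    (hB : ∀ p ω, p ∈ L → ok C L ω → chi C (Al S) p ω = 1 → |G p ω| ≤ B) :
    ∃ H : S → Om S → ℝ, (Measurable fun q : S × Om S => H q.1 q.2) ∧ (∀ p ω, |H p ω| ≤ |B|) ∧
      ∀ p ∈ L, ∀ ω, ok C L ω → chi C (Al S) p ω * G p ω = H p ω := by
  classical
  obtain ⟨hmeas, -⟩ := Ms.meas_row S m C L lam hS.meas hS.measL hS.fin hS.lam_nonneg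
  have hchm : Measurable fun q : S × Om S => chi C (Al S) q.1 q.2 :=
    (hmeas (Al S) (by simp [Al])).1
  have hEm : MeasurableSet {q : S × Om S | q.1 ∈ L ∧ ok C L q.2 ∧ chi C (Al S) q.1 q.2 = 1} := by
    have e : {q : S × Om S | q.1 ∈ L ∧ ok C L q.2 ∧ chi C (Al S) q.1 q.2 = 1} =
        (Prod.fst ⁻¹' L) ∩ ((Prod.snd ⁻¹' {ω : Om S | ok C L ω}) ∩
          ((fun q : S × Om S => chi C (Al S) q.1 q.2) ⁻¹' {1})) := by
      ext q
      simp
    rw [e]
    exact (measurable_fst hS.measL).inter ((measurable_snd hokm).inter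
      (hchm (measurableSet_singleton 1)))
  refine ⟨fun p ω => Set.indicator {q : S × Om S | q.1 ∈ L ∧ ok C L q.2 ∧
    chi C (Al S) q.1 q.2 = 1} (fun q => G q.1 q.2) (p, ω), hG.indicator hEm, ?_, ?_⟩
  · intro p ω
    show |Set.indicator {q : S × Om S | q.1 ∈ L ∧ ok C L q.2 ∧
      chi C (Al S) q.1 q.2 = 1} (fun q => G q.1 q.2) (p, ω)| ≤ |B|
    by_cases h : (p, ω) ∈ {q : S × Om S | q.1 ∈ L ∧ ok C L q.2 ∧ chi C (Al S) q.1 q.2 = 1}
    · rw [Set.indicator_of_mem h]
      exact (hB p ω h.1 h.2.1 h.2.2).trans (le_abs_self B)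
    · rw [Set.indicator_of_notMem h, abs_zero]
      exact abs_nonneg B
  · intro p hp ω hω
    show chi C (Al S) p ω * G p ω = Set.indicator {q : S × Om S | q.1 ∈ L ∧ ok C L q.2 ∧
      chi C (Al S) q.1 q.2 = 1} (fun q => G q.1 q.2) (p, ω)
    rcases chi_eq_one_or C (Al S) p ω with h | h
    · rw [Set.indicator_of_mem (show (p, ω) ∈ {q : S × Om S | q.1 ∈ L ∧ ok C L q.2 ∧
        chi C (Al S) q.1 q.2 = 1} from ⟨hp, hω, h⟩), h, one_mul]
    · rw [Set.indicator_of_notMem (fun hm : (p, ω) ∈ {q : S × Om S | q.1 ∈ L ∧ ok C L q.2 ∧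
        chi C (Al S) q.1 q.2 = 1} => by
          have h2 : chi C (Al S) p ω = 1 := hm.2.2
          rw [h] at h2
          exact zero_ne_one h2), h, zero_mul]

/-- Exchange of the integrals. -/
theorem swap {m : Measure S} [SigmaFinite m] {C : S → S → Prop} {L : Set S} {lam b : ℝ} {K : ℕ}
    (hS : Sys m C L lam b K) (hokm : MeasurableSet {ω : Om S | ok C L ω})
    (hokae : ∀ᵐ ω ∂gib m C lam L, ok C L ω)
    {G : S → Om S → ℝ} (hG : Measurable fun q : S × Om S => G q.1 q.2) {B : ℝ}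
    (hB : ∀ p ω, p ∈ L → ok C L ω → chi C (Al S) p ω = 1 → |G p ω| ≤ B) :
    (∫ ω, ∫ p in L, chi C (Al S) p ω * G p ω ∂m ∂gib m C lam L =
      ∫ p in L, ∫ ω, chi C (Al S) p ω * G p ω ∂gib m C lam L ∂m) ∧
    Integrable (fun ω => ∫ p in L, chi C (Al S) p ω * G p ω ∂m) (gib m C lam L) ∧
    Integrable (fun p => ∫ ω, chi C (Al S) p ω * G p ω ∂gib m C lam L) (m.restrict L) ∧
    ∀ p ∈ L, Integrable (fun ω => chi C (Al S) p ω * G p ω) (gib m C lam L) := by
  obtain ⟨H, hHm, hHB, hHe⟩ := cut hS hokm hG hB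
  obtain ⟨-, hfp, hfg, -, -, -⟩ := bas S m C L lam hS.meas hS.measL hS.fin hS.lam_nonneg
  have hfm : IsFiniteMeasure (m.restrict L) := ⟨by
    rw [Measure.restrict_apply_univ]; exact lt_top_iff_ne_top.2 hS.fin⟩
  have hpi : Integrable (fun q : Om S × S => H q.2 q.1) ((gib m C lam L).prod (m.restrict L)) := by
    refine Integrable.of_bound (C := |B|)
      (hHm.comp measurable_swap).aestronglyMeasurable (Eventually.of_forall fun q => ?_)
    rw [Real.norm_eq_abs]
    exact hHB _ _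
  have e1 : (fun ω => ∫ p in L, chi C (Al S) p ω * G p ω ∂m) =ᵐ[gib m C lam L]
      fun ω => ∫ p in L, H p ω ∂m := by
    filter_upwards [hokae] with ω hω
    exact setIntegral_congr_fun hS.measL fun p hp => hHe p hp ω hω
  have e2 : ∀ p ∈ L, (fun ω => chi C (Al S) p ω * G p ω) =ᵐ[gib m C lam L] fun ω => H p ω := by
    intro p hp
    filter_upwards [hokae] with ω hω
    exact hHe p hp ω hω
  have e3 : (fun p => ∫ ω, chi C (Al S) p ω * G p ω ∂gib m C lam L) =ᵐ[m.restrict L]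
      fun p => ∫ ω, H p ω ∂gib m C lam L := by
    filter_upwards [ae_restrict_mem hS.measL] with p hp
    exact integral_congr_ae (e2 p hp)
  refine ⟨?_, ?_, ?_, ?_⟩
  · rw [integral_congr_ae e1, integral_congr_ae e3]
    exact integral_integral_swap hpi
  · exact (integrable_congr e1).2 hpi.integral_prod_left
  · exact (integrable_congr e3).2 hpi.integral_prod_right
  · intro p hp
    refine (integrable_congr (e2 p hp)).2 ?_
    refine Integrable.of_bound (C := |B|)
      (hHm.comp measurable_prodMk_left).aestronglyMeasurable (Eventually.of_forall fun q => ?_)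
    rw [Real.norm_eq_abs]
    exact hHB _ _

end Gn

/-- Row DIR. -/
theorem dir_of (hO : OKB) (hGNZ : GNZ) : DIR := by
  intro S _ m _ C L lam b K hS F G hF hG
  obtain ⟨hokm, hokae, hokK, hokins, hokdel, hFn, -, -⟩ := hO S m C L lam b K hS
  obtain ⟨BF, hBF⟩ := hF.bdd
  obtain ⟨BG, hBG⟩ := hG.bdd
  have hDF : Measurable fun q : S × Om S => D F q.1 q.2 := (hFn F hF).2.2.1
  have hDG : Measurable fun q : S × Om S => D G q.1 q.2 := (hFn G hG).2.2.1
  have hDFs : ∀ p, Sym (D F p) := (hFn F hF).2.2.2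
  have hDGs : ∀ p, Sym (D G p) := (hFn G hG).2.2.2
  have hGm : Measurable fun q : S × Om S => G q.2 := hG.meas.comp measurable_snd
  have hDFb : ∀ p ω, p ∈ L → ok C L ω → chi C (Al S) p ω = 1 → |D F p ω| ≤ 2 * |BF| := by
    intro p ω hp hω hc
    unfold D
    refine (abs_sub _ _).trans ?_
    have h1 := (hBF _ (hokins ω hω p hp hc)).trans (le_abs_self BF)
    have h2 := (hBF _ hω).trans (le_abs_self BF)
    linarith
  have hDGb : ∀ p ω, p ∈ L → ok C L ω → chi C (Al S) p ω = 1 → |D G p ω| ≤ 2 * |BG| := by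
    intro p ω hp hω hc
    unfold D
    refine (abs_sub _ _).trans ?_
    have h1 := (hBG _ (hokins ω hω p hp hc)).trans (le_abs_self BG)
    have h2 := (hBG _ hω).trans (le_abs_self BG)
    linarith
  have hGb : ∀ (p : S) (ω : Om S), p ∈ L → ok C L ω → chi C (Al S) p ω = 1 → |G ω| ≤ |BG| :=
    fun _ ω _ hω _ => (hBG _ hω).trans (le_abs_self BG)
  -- the formula for the first part
  have hH1m : Measurable fun q : S × Om S => (D G q.1 q.2 + G q.2) * (-D F q.1 q.2) :=
    (hDG.add hGm).mul hDF.neg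
  have hH1b : ∀ p ω, p ∈ L → ok C L ω → chi C (Al S) p ω = 1 →
      |(D G p ω + G ω) * (-D F p ω)| ≤ (3 * |BG|) * (2 * |BF|) := by
    intro p ω hp hω hc
    rw [abs_mul, abs_neg]
    refine mul_le_mul ?_ (hDFb p ω hp hω hc) (abs_nonneg _) (by positivity)
    refine (abs_add_le _ _).trans ?_
    linarith [hDGb p ω hp hω hc, hGb p ω hp hω hc]
  have h1 := hGNZ S m C L lam b K hS (fun p ω => (D G p ω + G ω) * (-D F p ω)) hH1m
    (fun p n x σ => by
      show (D G p ⟨n, x ∘ σ⟩ + G ⟨n, x ∘ σ⟩) * (-D F p ⟨n, x ∘ σ⟩) =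
        (D G p ⟨n, x⟩ + G ⟨n, x⟩) * (-D F p ⟨n, x⟩)
      rw [hDGs p n x σ, hG.sym n x σ, hDFs p n x σ]) ⟨_, hH1b⟩
  have h2 : ∀ ω : Om S, ∑ i, (D G (ω.2 i) (del ω i) + G (del ω i)) * (-D F (ω.2 i) (del ω i)) =
      G ω * ∑ i, (F (del ω i) - F ω) := by
    intro ω
    rw [Finset.mul_sum]
    refine Finset.sum_congr rfl fun i _ => ?_
    unfold D
    rw [Gn.ins_del hG.sym, Gn.ins_del hF.sym]
    ring
  simp only [h2] at h1
  -- the second part
  have hH2m : Measurable fun q : S × Om S => G q.2 * D F q.1 q.2 := hGm.mul hDF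
  have hH2b : ∀ p ω, p ∈ L → ok C L ω → chi C (Al S) p ω = 1 →
      |G ω * D F p ω| ≤ |BG| * (2 * |BF|) := by
    intro p ω hp hω hc
    rw [abs_mul]
    exact mul_le_mul (hGb p ω hp hω hc) (hDFb p ω hp hω hc) (abs_nonneg _) (abs_nonneg _)
  obtain ⟨s1, s2, s3, s4⟩ := Gn.swap hS hokm hokae hH2m hH2b
  obtain ⟨-, -, t3, t4⟩ := Gn.swap hS hokm hokae hH1m hH1b
  have h3 : ∀ ω : Om S, ∫ p in L, chi C (Al S) p ω * (G ω * D F p ω) ∂m =
      G ω * ∫ p in L, chi C (Al S) p ω * D F p ω ∂m := by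
    intro ω
    rw [← integral_const_mul]
    refine integral_congr_ae (Eventually.of_forall fun p => ?_)
    simp only
    ring
  simp only [h3] at s1 s2
  -- integrability
  have hgenFn : Fn C L (gen m C lam L F) := (hFn F hF).2.1
  have hI0 : Integrable (fun ω => G ω * gen m C lam L F ω) (gib m C lam L) := by
    obtain ⟨Bg, hBg⟩ := hgenFn.bdd
    refine (hFn _ ⟨hG.meas.mul hgenFn.meas, ?_, |BG| * |Bg|, ?_⟩).1
    · intro n x σ
      show G ⟨n, x ∘ σ⟩ * gen m C lam L F ⟨n, x ∘ σ⟩ = G ⟨n, x⟩ * gen m C lam L F ⟨n, x⟩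
      rw [hG.sym n x σ, hgenFn.sym n x σ]
    · intro ω hω
      show |G ω * gen m C lam L F ω| ≤ _
      rw [abs_mul]
      exact mul_le_mul ((hBG _ hω).trans (le_abs_self BG)) ((hBg _ hω).trans (le_abs_self Bg))
        (abs_nonneg _) (abs_nonneg _)
  have hI2 : Integrable (fun ω => lam * (G ω * ∫ p in L, chi C (Al S) p ω * D F p ω ∂m))
      (gib m C lam L) := s2.const_mul lam
  have h4 : ∀ ω, G ω * ∑ i, (F (del ω i) - F ω) = G ω * gen m C lam L F ω -
      lam * (G ω * ∫ p in L, chi C (Al S) p ω * D F p ω ∂m) := by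
    intro ω
    unfold gen
    ring
  have h5 : ∫ ω, G ω * ∑ i, (F (del ω i) - F ω) ∂gib m C lam L =
      ∫ ω, G ω * gen m C lam L F ω ∂gib m C lam L -
        lam * ∫ p in L, ∫ ω, chi C (Al S) p ω * (G ω * D F p ω) ∂gib m C lam L ∂m := by
    simp only [h4]
    rw [integral_sub hI0 hI2, integral_const_mul, s1]
  -- conclusion
  unfold ex at h1
  unfold en ex
  rw [h5] at h1
  have h6 : ∫ p in L, (∫ ω, chi C (Al S) p ω * ((D G p ω + G ω) * (-D F p ω))
      ∂gib m C lam L) / Xi m C lam L ∂m =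
      -((∫ p in L, ∫ ω, chi C (Al S) p ω * (G ω * D F p ω) ∂gib m C lam L ∂m) /
        Xi m C lam L) -
      ∫ p in L, 1 * ((∫ ω, chi C (Al S) p ω * D G p ω * D F p ω ∂gib m C lam L) /
        Xi m C lam L) ∂m := by
    have h7 : ∀ p ∈ L, ∫ ω, chi C (Al S) p ω * D G p ω * D F p ω ∂gib m C lam L =
        (-1) * (∫ ω, chi C (Al S) p ω * ((D G p ω + G ω) * (-D F p ω)) ∂gib m C lam L) -
          ∫ ω, chi C (Al S) p ω * (G ω * D F p ω) ∂gib m C lam L := by
      intro p hp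
      have e : ∀ ω, chi C (Al S) p ω * D G p ω * D F p ω =
          (-1) * (chi C (Al S) p ω * ((D G p ω + G ω) * (-D F p ω))) -
            chi C (Al S) p ω * (G ω * D F p ω) := fun ω => by ring
      simp only [e]
      rw [integral_sub ((t4 p hp).const_mul (-1)) (s4 p hp), integral_const_mul]
    have h8 : ∫ p in L, 1 * ((∫ ω, chi C (Al S) p ω * D G p ω * D F p ω ∂gib m C lam L) /
        Xi m C lam L) ∂m = ∫ p in L, ((-1) * ((∫ ω, chi C (Al S) p ω *
          ((D G p ω + G ω) * (-D F p ω)) ∂gib m C lam L) / Xi m C lam L) -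
            (∫ ω, chi C (Al S) p ω * (G ω * D F p ω) ∂gib m C lam L) / Xi m C lam L) ∂m := by
      refine setIntegral_congr_fun hS.measL fun p hp => ?_
      show 1 * ((∫ ω, chi C (Al S) p ω * D G p ω * D F p ω ∂gib m C lam L) /
        Xi m C lam L) = (-1) * ((∫ ω, chi C (Al S) p ω *
          ((D G p ω + G ω) * (-D F p ω)) ∂gib m C lam L) / Xi m C lam L) -
            (∫ ω, chi C (Al S) p ω * (G ω * D F p ω) ∂gib m C lam L) / Xi m C lam L
      rw [h7 p hp]
      ring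
    rw [h8, integral_sub ((t3.div_const _).const_mul (-1)) (s3.div_const _),
      integral_const_mul, integral_div, integral_div]
    ring
  rw [h6] at h1
  rw [sub_div, mul_sub, mul_neg] at h1
  have h9 : (∫ ω, G ω * gen m C lam L F ω ∂gib m C lam L) / Xi m C lam L =
      lam * (∫ p in L, ∫ ω, chi C (Al S) p ω * (G ω * D F p ω) ∂gib m C lam L ∂m) /
        Xi m C lam L + (-(lam * ((∫ p in L, ∫ ω, chi C (Al S) p ω * (G ω * D F p ω)
          ∂gib m C lam L ∂m) / Xi m C lam L)) - lam * ∫ p in L, 1 *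
            ((∫ ω, chi C (Al S) p ω * D G p ω * D F p ω ∂gib m C lam L) /
              Xi m C lam L) ∂m) := by
    linarith [h1]
  rw [h9, mul_div_assoc]
  ring

end Pool.Agent.HdGas
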