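import Pool.Agent.Lib.NT.Rows
import Pool.Agent.Lib.MF.Bas
import Pool.Agent.Lib.MF.Meas

/-!
# Gases under a measurable map of the places
-/

set_option autoImplicit false

namespace Pool.Agent.HdGas

open MeasureTheory Filter Topology

namespace MapG

variable {S T : Type} [MeasurableSpace S] [MeasurableSpace T]

/-- Configurations under a map. -/
def F (f : T → S) (ω : Om T) : Om S := ⟨ω.1, fun i => f (ω.2 i)⟩

theorem measurable_F {f : T → S} (hf : Measurable f) : Measurable (F f) := by
  refine measurable_om fun n => ?_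
  show Measurable fun x : Fin n → T => (⟨n, fun i => f (x i)⟩ : Om S)
  exact (measurable_mk n).comp (measurable_pi_lambda _ fun i => hf.comp (measurable_pi_apply i))

theorem pois_map (μ : Measure T) {f : T → S} (hf : Measurable f) [SigmaFinite (μ.map f)]
    (lam : ℝ) {L : Set S} (hL : MeasurableSet L) :
    pois (μ.map f) lam L = (pois μ lam (f ⁻¹' L)).map (F f) := by
  refine Measure.ext_of_lintegral _ fun g hg => ?_
  rw [lint_pois _ lam L hg, lintegral_map hg (measurable_F hf),
    lint_pois μ lam (f ⁻¹' L) (F := fun a => g (MapG.F f a)) (hg.comp (measurable_F hf))]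
  refine tsum_congr fun n => ?_
  congr 1
  have e : (Measure.pi fun _ : Fin n => (μ.map f).restrict L) =
      (Measure.pi fun _ : Fin n => μ.restrict (f ⁻¹' L)).map fun x i => f (x i) := by
    have h1 : (μ.map f).restrict L = (μ.restrict (f ⁻¹' L)).map f := Measure.restrict_map hf hL
    have h2 : SigmaFinite ((μ.restrict (f ⁻¹' L)).map f) := by
      rw [← h1]
      infer_instance
    rw [Measure.pi_map_pi (f := fun _ => f) fun i => hf.aemeasurable, h1]
  have hg' : Measurable fun x : Fin n → S => g ⟨n, x⟩ := hg.comp (measurable_mk n)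
  have hf' : Measurable fun (x : Fin n → T) (i : Fin n) => f (x i) :=
    measurable_pi_lambda _ fun i => hf.comp (measurable_pi_apply i)
  rw [e, lintegral_map hg' hf']
  rfl

omit [MeasurableSpace S] [MeasurableSpace T] in
theorem hc_F (C : S → S → Prop) (f : T → S) (ω : Om T) :
    hc C (F f ω) ↔ hc (fun x y => C (f x) (f y)) ω := Iff.rfl

theorem gib_map (μ : Measure T) {f : T → S} (hf : Measurable f) [SigmaFinite (μ.map f)]
    {C : S → S → Prop} (hC : MeasurableSet {p : S × S | C p.1 p.2}) (lam : ℝ) {L : Set S}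
    (hL : MeasurableSet L) :
    gib (μ.map f) C lam L =
      (gib μ (fun x y => C (f x) (f y)) lam (f ⁻¹' L)).map (F f) := by
  unfold gib
  rw [pois_map μ hf lam hL, Measure.restrict_map (measurable_F hf) (meas_hc hC)]
  rfl

theorem xi_map (μ : Measure T) {f : T → S} (hf : Measurable f) [SigmaFinite (μ.map f)]
    {C : S → S → Prop} (hC : MeasurableSet {p : S × S | C p.1 p.2}) (lam : ℝ) {L : Set S}
    (hL : MeasurableSet L) :
    Xi (μ.map f) C lam L = Xi μ (fun x y => C (f x) (f y)) lam (f ⁻¹' L) := by
  unfold Xi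
  rw [gib_map μ hf hC lam hL, Measure.map_apply (measurable_F hf) MeasurableSet.univ,
    Set.preimage_univ]

theorem ex_map (μ : Measure T) {f : T → S} (hf : Measurable f) [SigmaFinite (μ.map f)]
    {C : S → S → Prop} (hC : MeasurableSet {p : S × S | C p.1 p.2}) (lam : ℝ) {L : Set S}
    (hL : MeasurableSet L) {h : Om S → ℝ} (hh : Measurable h) :
    ex (μ.map f) C lam L h =
      ex μ (fun x y => C (f x) (f y)) lam (f ⁻¹' L) (fun ω => h (F f ω)) := by
  unfold ex
  rw [xi_map μ hf hC lam hL, gib_map μ hf hC lam hL,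
    integral_map (measurable_F hf).aemeasurable hh.aestronglyMeasurable]

/-- The free probability does not change. -/
theorem ex_chi_map (μ : Measure T) {f : T → S} (hf : Measurable f) [SigmaFinite (μ.map f)]
    {C : S → S → Prop} (hC : MeasurableSet {p : S × S | C p.1 p.2}) (lam : ℝ) {L : Set S}
    (hL : MeasurableSet L) (u : T) (hm : Measurable (chi C (Al S) (f u))) :
    ex (μ.map f) C lam L (chi C (Al S) (f u)) =
      ex μ (fun x y => C (f x) (f y)) lam (f ⁻¹' L)
        (chi (fun x y => C (f x) (f y)) (Al T) u) :=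
  ex_map μ hf hC lam hL hm

end MapG

end Pool.Agent.HdGas
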