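import Pool.Agent.Lib.NT.Rows4
import Pool.Agent.Lib.NT.MapG
import Pool.Agent.Lib.NT.SysA
import Pool.Agent.Lib.NT.Xoff
import Pool.Agent.Lib.NT.Varn

/-!
# Laplace functional: row EMPW

The points carry marks: the mark of a point at `x` is `false` with probability `α x`.
-/

set_option autoImplicit false

namespace Pool.Agent.HdGas

open MeasureTheory Filter Topology

namespace Empw

variable {S : Type} [MeasurableSpace S]

/-- The measure of the marked points. -/
noncomputable def mm (m : Measure S) (α : S → ℝ) : Measure (S × Bool) :=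
  (md m α).prod (Measure.dirac false) + (md m fun x => 1 - α x).prod (Measure.dirac true)

theorem U01_sub {α : S → ℝ} (h : U01 α) : U01 fun x => 1 - α x :=
  ⟨h.1.const_sub 1, fun x => ⟨by linarith [(h.2 x).2], by linarith [(h.2 x).1]⟩⟩

theorem sf (m : Measure S) [SigmaFinite m] {α : S → ℝ} (h : U01 α) : SigmaFinite (md m α) :=
  Measure.sigmaFinite_of_le m (SysAx.le m h)

theorem md_add (m : Measure S) {α : S → ℝ} (h : U01 α) :
    md m α + md m (fun x => 1 - α x) = m := by
  unfold md
  rw [← withDensity_add_left h.1.ennreal_ofReal]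
  conv_rhs => rw [← withDensity_one (μ := m)]
  congr 1
  ext x
  simp only [Pi.add_apply, Pi.one_apply]
  rw [← ENNReal.ofReal_add (h.2 x).1 (by linarith [(h.2 x).2])]
  simp

theorem mm_fst (m : Measure S) [SigmaFinite m] {α : S → ℝ} (h : U01 α) :
    (mm m α).map Prod.fst = m := by
  have := sf m h
  have := sf m (U01_sub h)
  unfold mm
  rw [Measure.map_add _ _ measurable_fst, Measure.map_fst_prod, Measure.map_fst_prod]
  simp [md_add m h]

theorem measurable_mk2 (c : Bool) : Measurable fun x : S => (x, c) :=
  measurable_id.prodMk measurable_const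

theorem integrable_L (m : Measure S) {α : S → ℝ} (h : U01 α) {g : S → ℝ} (hg : Measurable g)
    {B : ℝ} (hb : ∀ x, |g x| ≤ B) {L : Set S} (hfin : m L ≠ ⊤) (h0 : ∀ x, x ∉ L → g x = 0) :
    Integrable g (md m α) := by
  have hle := SysAx.le m h
  have h1 : IntegrableOn g L (md m α) := by
    refine Measure.integrableOn_of_bounded (M := B) (ne_top_of_le_ne_top hfin (hle L))
      hg.aestronglyMeasurable ?_
    exact Filter.Eventually.of_forall fun x => by simpa using hb x
  exact (integrableOn_iff_integrable_of_support_subset (fun x hx => by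
    by_contra hxL
    exact hx (h0 x hxL))).1 h1

theorem integrable_L' (m : Measure S) {g : S → ℝ} (hg : Measurable g)
    {B : ℝ} (hb : ∀ x, |g x| ≤ B) {L : Set S} (hfin : m L ≠ ⊤) (h0 : ∀ x, x ∉ L → g x = 0) :
    Integrable g m := by
  have h1 : IntegrableOn g L m := by
    refine Measure.integrableOn_of_bounded (M := B) hfin hg.aestronglyMeasurable ?_
    exact Filter.Eventually.of_forall fun x => by simpa using hb x
  exact (integrableOn_iff_integrable_of_support_subset (fun x hx => by
    by_contra hxL
    exact hx (h0 x hxL))).1 h1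

theorem int_mm (m : Measure S) [SigmaFinite m] {α : S → ℝ} (h : U01 α) {g : S × Bool → ℝ}
    (hg : Measurable g) {B : ℝ} (hb : ∀ p, |g p| ≤ B) {L : Set S}
    (hfin : m L ≠ ⊤) (h0 : ∀ p : S × Bool, p.1 ∉ L → g p = 0) :
    ∫ p, g p ∂mm m α = ∫ x, (α x * g (x, false) + (1 - α x) * g (x, true)) ∂m := by
  have := sf m h
  have := sf m (U01_sub h)
  have hgc : ∀ c, Measurable fun x => g (x, c) := fun c => hg.comp (measurable_mk2 c)
  have i1 : Integrable (fun x => g (x, false)) (md m α) :=
    integrable_L m h (hgc false) (fun x => hb _) hfin fun x hx => h0 _ hx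
  have i2 : Integrable (fun x => g (x, true)) (md m fun x => 1 - α x) :=
    integrable_L m (U01_sub h) (hgc true) (fun x => hb _) hfin fun x hx => h0 _ hx
  have j1 : Integrable (fun x => α x * g (x, false)) m := by
    refine integrable_L' m (B := B) (h.1.mul (hgc false)) (fun x => ?_) hfin
      fun x hx => by simp [h0 (x, false) hx]
    rw [abs_mul, abs_of_nonneg (h.2 x).1]
    exact (mul_le_of_le_one_left (abs_nonneg _) (h.2 x).2).trans (hb _)
  have j2 : Integrable (fun x => (1 - α x) * g (x, true)) m := by
    have h' := U01_sub h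
    refine integrable_L' m (B := B) (h'.1.mul (hgc true)) (fun x => ?_) hfin
      fun x hx => by simp [h0 (x, true) hx]
    rw [abs_mul, abs_of_nonneg (h'.2 x).1]
    exact (mul_le_of_le_one_left (abs_nonneg _) (h'.2 x).2).trans (hb _)
  unfold mm
  rw [Measure.prod_dirac, Measure.prod_dirac, integral_add_measure,
    integral_map (measurable_mk2 false).aemeasurable hg.aestronglyMeasurable,
    integral_map (measurable_mk2 true).aemeasurable hg.aestronglyMeasurable,
    SysAx.int_md m h, SysAx.int_md m (U01_sub h), ← integral_add j1 j2]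
  · exact (integrable_map_measure hg.aestronglyMeasurable (measurable_mk2 false).aemeasurable).2 i1
  · exact (integrable_map_measure hg.aestronglyMeasurable (measurable_mk2 true).aemeasurable).2 i2

/-- Exclusion of marked points. -/
def CC (C : S → S → Prop) (p q : S × Bool) : Prop := C p.1 q.1

theorem sys_mm {m : Measure S} [SigmaFinite m] {C : S → S → Prop} {L : Set S} {lam b : ℝ} {K : ℕ}
    (hS : Sys m C L lam b K) {α : S → ℝ} (h : U01 α) :
    Sys (mm m α) (CC C) (Prod.fst ⁻¹' L) lam b K := by
  have hf := mm_fst m h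
  have hmap : ∀ A : Set S, MeasurableSet A → mm m α (Prod.fst ⁻¹' A) = m A := by
    intro A hA
    conv_rhs => rw [← hf]
    rw [Measure.map_apply measurable_fst hA]
  exact
    { meas := (hS.meas.preimage ((measurable_fst.comp measurable_fst).prodMk
        (measurable_fst.comp measurable_snd)))
      refl := fun x => hS.refl _
      symm := fun x y => hS.symm _ _
      measL := hS.measL.preimage measurable_fst
      fin := by
        rw [hmap L hS.measL]
        exact hS.fin
      lam_nonneg := hS.lam_nonneg
      b_pos := hS.b_pos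
      ball := fun u => by
        have e : {z : S × Bool | CC C u z} = Prod.fst ⁻¹' {z | C u.1 z} := rfl
        rw [e, hmap {z | C u.1 z} (measurable_prodMk_left hS.meas)]
        exact hS.ball u.1
      card := fun ω h1 h2 => hS.card (MapG.F Prod.fst ω) h1 h2 }

theorem posi_mm {m : Measure S} [SigmaFinite m] {C : S → S → Prop} {L : Set S} {lam b : ℝ}
    {K : ℕ} (hS : Sys m C L lam b K) {ε : ℝ} (hε : 0 ≤ ε) (hP : Posi m C L b ε) {α : S → ℝ}
    (h : U01 α) : Posi (mm m α) (CC C) (Prod.fst ⁻¹' L) b ε := by
  intro g hg hb h0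
  have hgc : ∀ c, Measurable fun x => g (x, c) := fun c => hg.comp (measurable_mk2 c)
  set G : S → ℝ := fun x => α x * g (x, false) + (1 - α x) * g (x, true) with hG
  have hGm : Measurable G := (h.1.mul (hgc false)).add ((h.1.const_sub 1).mul (hgc true))
  have hGb : ∀ x, |G x| ≤ 1 := by
    intro x
    have h1 := hb (x, false)
    have h2 := hb (x, true)
    have h3 := (h.2 x).1
    have h4 := (h.2 x).2
    rw [abs_le] at h1 h2 ⊢
    simp only [hG]
    constructor <;> nlinarith
  have hG0 : ∀ x, x ∉ L → G x = 0 := by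
    intro x hx
    simp [hG, h0 (x, false) hx, h0 (x, true) hx]
  have key := hP G hGm hGb hG0
  have hin : ∀ x : S × Bool, ∫ y in {y | CC C x y}, g y ∂mm m α = ∫ y in {y | C x.1 y}, G y ∂m := by
    intro x
    have hx : MeasurableSet {y | C x.1 y} := measurable_prodMk_left hS.meas
    have hx' : MeasurableSet {y : S × Bool | CC C x y} := hx.preimage measurable_fst
    rw [← integral_indicator hx', ← integral_indicator hx,
      int_mm m h (B := 1) (hg.indicator hx') (fun p => ?_) hS.fin fun p hp => ?_]
    · refine integral_congr_ae (Filter.Eventually.of_forall fun y => ?_)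
      simp only
      by_cases hy : C x.1 y
      · rw [Set.indicator_of_mem (show y ∈ {y | C x.1 y} from hy),
          Set.indicator_of_mem (show (y, false) ∈ {y : S × Bool | CC C x y} from hy),
          Set.indicator_of_mem (show (y, true) ∈ {y : S × Bool | CC C x y} from hy)]
      · rw [Set.indicator_of_notMem (show y ∉ {y | C x.1 y} from hy),
          Set.indicator_of_notMem (show (y, false) ∉ {y : S × Bool | CC C x y} from hy),
          Set.indicator_of_notMem (show (y, true) ∉ {y : S × Bool | CC C x y} from hy)]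
        ring
    · by_cases hp : p ∈ {y : S × Bool | CC C x y}
      · rw [Set.indicator_of_mem hp]
        exact hb p
      · rw [Set.indicator_of_notMem hp, abs_zero]
        exact zero_le_one
    · by_cases hp' : p ∈ {y : S × Bool | CC C x y}
      · rw [Set.indicator_of_mem hp']
        exact h0 p hp
      · rw [Set.indicator_of_notMem hp']
  simp only [hin]
  set H : S → ℝ := fun x => ∫ y in {y | C x y}, G y ∂m with hH
  have hHm : Measurable H := by
    have e : H = fun x => ∫ y, {q : S × S | C q.1 q.2}.indicator (fun q => G q.2) (x, y) ∂m := by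
      funext x
      have hx : MeasurableSet {y | C x y} := measurable_prodMk_left hS.meas
      simp only [hH]
      rw [← integral_indicator hx]
      rfl
    rw [e]
    exact (((hGm.comp measurable_snd).indicator hS.meas).stronglyMeasurable.integral_prod_right'
      (ν := m)).measurable
  have hHb : ∀ x, |H x| ≤ b := by
    intro x
    have h1 : m {y | C x y} ≤ ENNReal.ofReal b := hS.ball x
    have h2 : m {y | C x y} ≠ ⊤ := ne_top_of_le_ne_top ENNReal.ofReal_ne_top h1
    have h3 := norm_setIntegral_le_of_norm_le_const (μ := m) (s := {y | C x y}) (f := G) (C := 1)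
      h2.lt_top (fun y _ => by simpa using hGb y)
    rw [one_mul] at h3
    exact h3.trans (ENNReal.toReal_le_of_le_ofReal hS.b_pos.le h1)
  have hb0 := hS.b_pos
  have e1 : ∫ x, g x * H x.1 ∂mm m α = ∫ x, G x * H x ∂m := by
    rw [int_mm m h (B := b) (g := fun p => g p * H p.1) (hg.mul (hHm.comp measurable_fst))
      (fun p => ?_) hS.fin fun p hp => ?_]
    · refine integral_congr_ae (Filter.Eventually.of_forall fun x => ?_)
      simp only [hG]
      ring
    · rw [abs_mul]
      calc |g p| * |H p.1| ≤ 1 * b := mul_le_mul (hb p) (hHb _) (abs_nonneg _) zero_le_one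
        _ = b := one_mul b
    · rw [h0 p hp, zero_mul]
  have hg2 : ∀ p, |g p ^ 2| ≤ 1 := by
    intro p
    rw [abs_pow]
    exact pow_le_one₀ (abs_nonneg _) (hb p)
  have e2 : ∫ x, G x ^ 2 ∂m ≤ ∫ x, g x ^ 2 ∂mm m α := by
    rw [int_mm m h (B := 1) (hg.pow_const 2) hg2 hS.fin fun p hp => by simp [h0 p hp]]
    refine integral_mono ?_ ?_ fun x => ?_
    · refine integrable_L' m (B := 1) (hGm.pow_const 2) (fun x => ?_) hS.fin
        fun x hx => by simp [hG0 x hx]
      rw [abs_pow]
      exact pow_le_one₀ (abs_nonneg _) (hGb x)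
    · refine integrable_L' m (B := 1)
        ((h.1.mul ((hgc false).pow_const 2)).add ((h.1.const_sub 1).mul ((hgc true).pow_const 2)))
        (fun x => ?_) hS.fin fun x hx => by simp [h0 (x, false) hx, h0 (x, true) hx]
      have h1 := hg2 (x, false)
      have h2 := hg2 (x, true)
      have h3 := (h.2 x).1
      have h4 := (h.2 x).2
      rw [abs_le] at h1 h2 ⊢
      constructor <;> nlinarith
    · simp only [hG]
      have h3 := (h.2 x).1
      have h4 := (h.2 x).2
      nlinarith [mul_nonneg (mul_nonneg h3 (sub_nonneg.2 h4))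
        (sq_nonneg (g (x, false) - g (x, true)))]
  show -(ε * b * ∫ x, g x ^ 2 ∂mm m α) ≤ ∫ x, g x * H x.1 ∂mm m α
  rw [e1]
  have h5 := mul_le_mul_of_nonneg_left e2 (mul_nonneg hε hb0.le)
  linarith

theorem sf_mm (m : Measure S) [SigmaFinite m] {α : S → ℝ} (h : U01 α) : SigmaFinite (mm m α) := by
  have := sf m h
  have := sf m (U01_sub h)
  unfold mm
  infer_instance

/-- The marked places. -/
def Tr (S : Type) : Set (S × Bool) := {p | p.2 = true}

theorem meas_Tr : MeasurableSet (Tr S) := measurable_snd (measurableSet_singleton true)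

theorem mm_off (m : Measure S) [SigmaFinite m] {α : S → ℝ} (h : U01 α) :
    ((mm m α).restrict (Tr S)ᶜ).map Prod.fst = md m α := by
  have := sf m h
  have := sf m (U01_sub h)
  refine Measure.ext fun B hB => ?_
  have e : Prod.fst ⁻¹' B ∩ (Tr S)ᶜ = B ×ˢ {false} := by
    ext ⟨x, c⟩
    cases c <;> simp [Tr]
  rw [Measure.map_apply measurable_fst hB, Measure.restrict_apply (measurable_fst hB), e]
  unfold mm
  rw [Measure.add_apply, Measure.prod_prod, Measure.prod_prod]
  simp

theorem main (hE : EMP) (hG : GNZ) (hO : OKB) {m : Measure S} [SigmaFinite m] {C : S → S → Prop} {L : Set S}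
    {b ε lam : ℝ} {K : ℕ} (hS : Sys m C L lam b K) (hε : 0 ≤ ε) (hP : Posi m C L b ε)
    (hlt : lam * b * ε < 1) {α : S → ℝ} (h : U01 α) :
    ex m C lam L (fun ω => ∏ i, α (ω.2 i)) ≤ Real.exp (-((1 - lam * b * ε) *
      (lam * ∫ z in L, (1 - α z) * ex m C lam L (chi C (Al S) z) ∂m))) := by
  classical
  have hsf := sf_mm m h
  have hS' := sys_mm hS h
  have hP' := posi_mm hS hε hP h
  have hhc := meas_hc hS.meas
  have hhc' := meas_hc hS'.meas
  obtain ⟨-, -, hfin, hXi, -, -⟩ := bas S m C L lam hS.meas hS.measL hS.fin hS.lam_nonneg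
  have key := hE (S × Bool) (mm m α) (CC C) (Prod.fst ⁻¹' L) b ε lam K hS' hε hP' hlt (Tr S)
    meas_Tr
  have hmap := mm_fst m h
  have hsf2 : SigmaFinite ((mm m α).map Prod.fst) := by
    rw [hmap]
    infer_instance
  have eXi : Xi m C lam L = Xi (mm m α) (CC C) lam (Prod.fst ⁻¹' L) := by
    have := MapG.xi_map (mm m α) (f := Prod.fst) measurable_fst hS.meas lam hS.measL
    rw [hmap] at this
    exact this
  have mchi : ∀ z, Measurable (chi C (Al S) z) := fun z =>
    ((hO S m C L lam b K hS).2.2.2.2.2.2.2 z).meas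
  have echi : ∀ p : S × Bool, ex (mm m α) (CC C) lam (Prod.fst ⁻¹' L) (chi (CC C) (Al _) p) =
      ex m C lam L (chi C (Al S) p.1) := by
    intro p
    have := MapG.ex_chi_map (mm m α) (f := Prod.fst) measurable_fst hS.meas lam hS.measL p
      (mchi _)
    rw [hmap] at this
    exact this.symm
  -- the mean number of marked points
  have e01 : ∀ z, 0 ≤ ex m C lam L (chi C (Al S) z) ∧ ex m C lam L (chi C (Al S) z) ≤ 1 := by
    intro z
    have hc0 : ∀ ω, 0 ≤ chi C (Al S) z ω ∧ chi C (Al S) z ω ≤ 1 := by
      intro ω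
      unfold chi
      split_ifs <;> norm_num
    have hX : 0 < Xi m C lam L := lt_of_lt_of_le one_pos hXi
    unfold ex
    refine ⟨div_nonneg (integral_nonneg fun ω => (hc0 ω).1) hX.le, ?_⟩
    rw [div_le_one hX]
    have h1 : ∫ ω, chi C (Al S) z ω ∂gib m C lam L ≤ ∫ _ω, (1 : ℝ) ∂gib m C lam L := by
      refine integral_mono_of_nonneg (ae_of_all _ fun ω => (hc0 ω).1) (integrable_const 1)
        (ae_of_all _ fun ω => (hc0 ω).2)
    refine h1.trans (le_of_eq ?_)
    rw [integral_const, smul_eq_mul, mul_one]
    rfl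
  have mex : Measurable fun z => ex m C lam L (chi C (Al S) z) := by
    obtain ⟨hM1, -⟩ := meas S m C L lam hS.meas hS.measL hS.fin hS.lam_nonneg
    obtain ⟨mc, -, -, -, -⟩ := hM1 (Al S) MeasurableSet.univ
    unfold ex
    exact (mc.stronglyMeasurable.integral_prod_right' (ν := gib m C lam L)).measurable.div_const _
  have E1 : ex (mm m α) (CC C) lam (Prod.fst ⁻¹' L) (fun ω => (nV (Tr S) ω : ℝ)) =
      lam * ∫ z in L, (1 - α z) * ex m C lam L (chi C (Al S) z) ∂m := by
    rw [Vn.ex_nV hG hS' meas_Tr]
    congr 1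
    have e1 : ∀ p : S × Bool, ex (mm m α) (CC C) lam (Prod.fst ⁻¹' L)
        (fun ω => chi (CC C) (Al _) p ω * Vn.iA (Tr S) p) =
        ex m C lam L (chi C (Al S) p.1) * Vn.iA (Tr S) p := by
      intro p
      rw [← echi p]
      unfold ex
      rw [integral_mul_const]
      ring
    simp only [e1]
    rw [← integral_indicator (hS.measL.preimage measurable_fst), ← integral_indicator hS.measL,
      int_mm m h (B := 1) (g := (Prod.fst ⁻¹' L).indicator
        fun p => ex m C lam L (chi C (Al S) p.1) * Vn.iA (Tr S) p)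
        (((mex.comp measurable_fst).mul
        (Vn.meas_iA meas_Tr)).indicator (hS.measL.preimage measurable_fst)) (fun p => ?_) hS.fin
        fun p hp => Set.indicator_of_notMem (show p ∉ Prod.fst ⁻¹' L from hp) _]
    · refine integral_congr_ae (Filter.Eventually.of_forall fun z => ?_)
      simp only
      by_cases hz : z ∈ L
      · rw [Set.indicator_of_mem (show (z, false) ∈ Prod.fst ⁻¹' L from hz),
          Set.indicator_of_mem (show (z, true) ∈ Prod.fst ⁻¹' L from hz),
          Set.indicator_of_mem hz, Vn.iA_not (by simp [Tr]), Vn.iA_mem (by simp [Tr])]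
        ring
      · rw [Set.indicator_of_notMem (show (z, false) ∉ Prod.fst ⁻¹' L from hz),
          Set.indicator_of_notMem (show (z, true) ∉ Prod.fst ⁻¹' L from hz),
          Set.indicator_of_notMem hz]
        ring
    · by_cases hp : p ∈ Prod.fst ⁻¹' L
      · rw [Set.indicator_of_mem hp, abs_mul, abs_of_nonneg (e01 _).1]
        exact mul_le_one₀ (e01 _).2 (abs_nonneg _) (Vn.iA_abs _ _)
      · rw [Set.indicator_of_notMem hp, abs_zero]
        exact zero_le_one
  -- no marked points
  have E2 : ex (mm m α) (CC C) lam (Prod.fst ⁻¹' L)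
      (fun ω => if nV (Tr S) ω = 0 then 1 else 0) = ex m C lam L (fun ω => ∏ i, α (ω.2 i)) := by
    have hw := h.1.ennreal_ofReal
    have hw1 : ∀ x : S, ENNReal.ofReal (α x) ≤ 1 := fun x => by
      rw [← ENNReal.ofReal_one]
      exact ENNReal.ofReal_le_ofReal (h.2 x).2
    have hset : MeasurableSet {ω : Om (S × Bool) | ∀ i, ω.2 i ∉ Tr S} :=
      Mark.meas_all meas_Tr.compl
    have hmo := mm_off m h
    have hsf3 : SigmaFinite (((mm m α).restrict (Tr S)ᶜ).map Prod.fst) := by
      rw [hmo]
      exact sf m h
    have e2 : (gib (mm m α) (CC C) lam (Prod.fst ⁻¹' L)).real {ω | ∀ i, ω.2 i ∉ Tr S} =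
        Xi (md m α) C lam L := by
      have h1 := MapG.xi_map ((mm m α).restrict (Tr S)ᶜ) (f := Prod.fst) measurable_fst hS.meas
        lam hS.measL
      rw [hmo] at h1
      have h2 := Xof.gib_off (mm m α) (C := CC C) (lam := lam) (L := Prod.fst ⁻¹' L) hhc'
        hS'.measL meas_Tr
      rw [h1]
      have h3 : Xi ((mm m α).restrict (Tr S)ᶜ) (fun x y => C x.1 y.1) lam (Prod.fst ⁻¹' L) =
        (gib ((mm m α).restrict (Tr S)ᶜ) (CC C) lam (Prod.fst ⁻¹' L)).real Set.univ := rfl
      rw [h3, h2, measureReal_restrict_apply MeasurableSet.univ, Set.univ_inter]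
    have e3 : Xi (md m α) C lam L = ∫ ω, ∏ i, α (ω.2 i) ∂gib m C lam L := by
      have h1 : gib (md m α) C lam L = (gib m C lam L).withDensity
          (Wd.W fun x => ENNReal.ofReal (α x)) := Wd.gib_wd m hw hw1 C hhc lam hS.measL
      have h2 : Xi (md m α) C lam L = ∫ _ω, (1 : ℝ) ∂gib (md m α) C lam L := by
        rw [integral_const, smul_eq_mul, mul_one]
        rfl
      rw [h2, h1, integral_withDensity_eq_integral_toReal_smul (Wd.measurable_W hw)]
      · refine integral_congr_ae (Filter.Eventually.of_forall fun ω => ?_)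
        simp only [smul_eq_mul, mul_one]
        unfold Wd.W
        rw [ENNReal.toReal_prod]
        exact Finset.prod_congr rfl fun i _ => ENNReal.toReal_ofReal (h.2 _).1
      · refine Filter.Eventually.of_forall fun ω => ?_
        unfold Wd.W
        exact ENNReal.prod_lt_top fun i _ => (hw1 _).trans_lt ENNReal.one_lt_top
    have e4 : (fun ω : Om (S × Bool) => if nV (Tr S) ω = 0 then (1 : ℝ) else 0) =
        {ω : Om (S × Bool) | ∀ i, ω.2 i ∉ Tr S}.indicator 1 := by
      funext ω
      by_cases hω : ∀ i, ω.2 i ∉ Tr S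
      · rw [Set.indicator_of_mem (show ω ∈ {ω : Om (S × Bool) | ∀ i, ω.2 i ∉ Tr S} from hω),
          if_pos, Pi.one_apply]
        unfold nV
        rw [Finset.card_eq_zero, Finset.filter_eq_empty_iff]
        exact fun i _ => hω i
      · rw [Set.indicator_of_notMem
          (show ω ∉ {ω : Om (S × Bool) | ∀ i, ω.2 i ∉ Tr S} from hω), if_neg]
        unfold nV
        rw [Finset.card_eq_zero, Finset.filter_eq_empty_iff]
        exact fun h' => hω fun i => h' (Finset.mem_univ i)
    unfold ex
    rw [← eXi, e4, integral_indicator_one hset, e2, e3]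
  rw [E1] at key
  rw [← E2]
  exact key

end Empw

/-- **Row EMPW.** -/
theorem empw_of (hE : EMP) (hG : GNZ) (hO : OKB) : EMPW := by
  intro S _ m _ C L b ε lam K hS hε hP hlt α h
  exact Empw.main hE hG hO hS hε hP hlt h

end Pool.Agent.HdGas
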