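import Pool.Agent.Lib.NT.Top
import Pool.Agent.Lib.MF.Final
import Pool.Agent.Lib.MF.BallF
import Pool.Agent.Lib.MF.RowPhi
import Pool.Agent.Lib.MF.Geob

/-!
# No transition for hard spheres: scaling and assembly
-/

set_option autoImplicit false

namespace Pool.Agent.HdGas

open MeasureTheory Filter Topology Pool.Agent.SquareWellGas Pool.Agent.KacGas Pool.Agent.VdwGas
  Pool.Agent.Vdw

theorem ft_epd {d : ℕ} (hd : 1 ≤ d) : FT d (epd d) := by
  intro ξ
  have hb : 0 < bv d := (geob_of d hd 1).b_pos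
  rw [ballF d hd ξ]
  have := phi d hd (√(∑ k, ξ k ^ 2)) (Real.sqrt_nonneg _)
  nlinarith

theorem ft_up {n : ℕ} {ε : ℝ} (hn : 1 ≤ n) (hε : 0 ≤ ε) (h : FT n ε) (hm : MONO) :
    ∀ d : ℕ, n ≤ d → FT d ε := by
  intro d hd
  induction d, hd using Nat.le_induction with
  | base => exact h
  | succ k hk ih => exact hm k ε (hn.trans hk) hε ih

theorem analytic_sc {d : ℕ} {s : ℝ} (hs : 0 < s) {g : ℝ → ℝ} {ρ : ℝ}
    (h : AnalyticAt ℝ g (ρ * s ^ d)) : AnalyticAt ℝ (sc d s g) ρ := by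
  unfold sc
  have h1 : AnalyticAt ℝ (fun x : ℝ => g (x * s ^ d)) ρ :=
    AnalyticAt.comp' (f := fun x : ℝ => x * s ^ d) h (analyticAt_id.mul analyticAt_const)
  exact (analyticAt_id.mul analyticAt_const).add (h1.div_const)

theorem finn : FINN := by
  intro hU hLow hHigh h2 h3 hmono hS
  obtain ⟨d0, hHigh⟩ := hHigh
  refine ⟨d0, fun d hd2 a ha => ?_⟩
  have hd : 1 ≤ d := by omega
  obtain ⟨g, r, hF, hconc, -, -⟩ := exists_F (d := d) hd
  obtain ⟨s, hs⟩ : ∃ s, s = 2 * a := ⟨_, rfl⟩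
  have hs0 : 0 < s := by rw [hs]; positivity
  have hsd : 0 < s ^ d := by positivity
  have has : a / s = 1 / 2 := by rw [hs]; field_simp
  have hb : 0 < bv d := (geob_of d hd 1).b_pos
  have hF' : IsF d a (fun _ => 0) (sc d s g) (r / s ^ d) := by
    refine IsF.scale hs0 ?_
    rw [has]
    exact hF
  have hball : ball d a = s ^ d * bv d := by rw [ball_eq d ha, hs]
  have hsc : ∀ μ x : ℝ, sc d s g x + μ * x =
      (g (x * s ^ d) + (μ + d * Real.log s) * (x * s ^ d)) / s ^ d := by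
    intro μ x
    unfold sc
    field_simp
    ring
  have hexp : ∀ μ : ℝ, Real.exp (μ + d * Real.log s) * bv d = Real.exp μ * ball d a := by
    intro μ
    rw [Real.exp_add, hball, mul_assoc]
    congr 2
    rw [Real.exp_nat_mul, Real.exp_log hs0]
  have hI : ∀ x : ℝ, x ∈ Set.Ioo 0 (r / s ^ d) ↔ x * s ^ d ∈ Set.Ioo 0 r := by
    intro x
    rw [Set.mem_Ioo, Set.mem_Ioo, lt_div_iff₀ hsd, mul_pos_iff_of_pos_right hsd]
  have hI' : ∀ y : ℝ, y ∈ Set.Ioo 0 r → y / s ^ d ∈ Set.Ioo 0 (r / s ^ d) := by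
    intro y hy
    rw [hI, div_mul_cancel₀ _ hsd.ne']
    exact hy
  have hρb : ∀ ρ : ℝ, ρ * ball d a = ρ * s ^ d * bv d := by
    intro ρ; rw [hball]; ring
  refine ⟨sc d s g, r / s ^ d, hF', ?_, ?_, ?_, ?_, ?_⟩
  · intro ε hε hft
    rw [hS d a ε hd ha] at hft
    constructor
    · intro μ ρ hρ hmax hμ
      rw [← hexp] at hμ
      refine analytic_sc hs0 (hU d hd ε hε hft g r hF hconc (μ + d * Real.log s) (ρ * s ^ d)
        ((hI ρ).mp hρ) ?_ hμ)
      intro y hy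
      have := hmax _ (hI' y hy)
      rw [hsc, hsc, div_mul_cancel₀ _ hsd.ne', div_le_div_iff_of_pos_right hsd] at this
      exact this
    · intro ρ hρ hρe
      rw [hρb] at hρe
      obtain ⟨k1, k2⟩ := hLow d hd ε hε hft g r hF hconc (ρ * s ^ d) (by positivity) hρe
      exact ⟨by rwa [lt_div_iff₀ hsd], analytic_sc hs0 k2⟩
  · rw [hS d a _ hd ha]
    exact ft_up (by norm_num) (by norm_num) h2 hmono d hd2
  · intro hd3
    rw [hS d a _ hd ha]
    exact ft_up (by norm_num) (by norm_num) h3 hmono d hd3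
  · rw [hS d a _ hd ha]
    exact ft_epd hd
  · intro hd0
    obtain ⟨k1, k2⟩ := hHigh d hd0 g r hF hconc
    refine ⟨?_, fun ρ hρ hρd => ?_⟩
    · rw [hρb, div_mul_cancel₀ _ hsd.ne']
      exact k1
    · rw [hρb] at hρd
      exact analytic_sc hs0 (k2 (ρ * s ^ d) (by positivity) hρd)

end Pool.Agent.HdGas
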