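import Pool.Agent.Lib.NT.Top
import Pool.Agent.Lib.MF.Ep2
import Pool.Agent.Lib.MF.Ep3
import Pool.Agent.Lib.MF.BallF

/-!
# Rows FT2, FT3 (helper40): the Fourier transforms of the disc and of the ball
-/

set_option autoImplicit false

namespace Pool.Agent.HdGas

open MeasureTheory

noncomputable section

/-- From a lower bound of `Phi` to `FT`. -/
theorem ft_of_phi {d : ℕ} (hd : 1 ≤ d) {ε : ℝ} (h : ∀ s : ℝ, 0 ≤ s → -ε ≤ Phi d s) : FT d ε := by
  intro ξ
  rw [ballF d hd ξ]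
  have h1 := h (√(∑ k, ξ k ^ 2)) (Real.sqrt_nonneg _)
  have h2 : 0 ≤ bv d := ENNReal.toReal_nonneg
  nlinarith [mul_le_mul_of_nonneg_left h1 h2]

/-- Row FT2. -/
theorem ft2_of (h : EP2) : FT2 := ft_of_phi (by norm_num) h

/-- Row FT2, without hypothesis. -/
theorem ft2 : FT2 := ft2_of ep2

/-- Row FT3. -/
theorem ft3 : FT3 := ft_of_phi (by norm_num) ep3

end

end Pool.Agent.HdGas
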