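import Pool.Agent.Lib.NT.Rows4
import Pool.Agent.Lib.NT.Finn
import Pool.Agent.Lib.NT.Ft23

/-!
# Mean field theory up to the negative part of the Fourier transform: scaling and assembly
-/

set_option autoImplicit false

namespace Pool.Agent.HdGas

open MeasureTheory Filter Topology Pool.Agent.SquareWellGas Pool.Agent.KacGas Pool.Agent.VdwGas
  Pool.Agent.Vdw

namespace Fin4

theorem slopes (hL : LOC4) (hM : MEAN4) (hS : SLOPE4) (θ : ℝ) (h0 : 0 < θ)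
    (h1 : θ < (1 - Real.log 2) / 2) : ∃ d0 : ℕ, ∀ d : ℕ, d0 ≤ d → 1 ≤ d ∧
    ∀ P : ℝ → ℝ, IsPr d P → ∀ μ c : ℝ, 0 ≤ c → c * Real.exp c = Real.exp μ * bv d →
    c ≤ θ * d → ∀ h : ℝ, h * c - |h| * (40 * kap d * c ^ 3) ≤ bv d * (P (μ + h) - P μ) := by
  obtain ⟨d0, hL⟩ := hL θ h0 h1
  refine ⟨d0, fun d hd => ⟨(hL d hd).1, fun P hP μ c hc hct hcθ h => ?_⟩⟩
  have hd1 := (hL d hd).1
  have hk : 0 ≤ kap d := by unfold kap; positivity
  have e : 40 * kap d * c ^ 3 = 40 * (c ^ 3 * kap d) := by ring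
  rw [e]
  refine hS d hd1 P hP μ c _ ?_ h
  exact hM d hd1 (Real.exp μ) c _ (Real.exp_pos _).le hc (by positivity)
    ((hL d hd).2 (Real.exp μ) c (Real.exp_pos _).le hc hct hcθ)

theorem unit4 (hL : LOC4) (hM : MEAN4) (hS : SLOPE4) (hF : FREE4) (hT : THERMO) (hU : UNIT)
    (hP : PHI8) (hN : NUM4) (θ : ℝ) (h0 : 0 < θ) (h1 : θ < (1 - Real.log 2) / 2) :
    ∃ d0 : ℕ, ∀ d : ℕ, d0 ≤ d → 1 ≤ d ∧ ∀ (f : ℝ → ℝ) (r : ℝ),
      IsF d (1 / 2) (fun _ => 0) f r → ConcaveOn ℝ (Set.Ioo 0 r) f →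
      θ * d < r * bv d ∧ ∀ ρ x : ℝ, 0 < ρ → x = ρ * bv d → x ≤ θ * d → ρ < r ∧
        AnalyticAt ℝ f ρ ∧ |bv d * f ρ - (x - x * Real.log ρ - x ^ 2 / 2)| ≤
          40 * (x ^ 3 * (1 + x) * kap d) := by
  obtain ⟨θ1, hθ1, hθ1'⟩ := exists_between h1
  obtain ⟨θ2, hθ2, hθ2'⟩ := exists_between hθ1'
  have h01 : 0 < θ1 := h0.trans hθ1
  obtain ⟨s, hs⟩ : ∃ s, s = min (1 / 50) ((θ1 - θ) / (2 * θ1)) := ⟨_, rfl⟩
  have hs0 : 0 < s := by
    rw [hs]
    refine lt_min (by norm_num) (div_pos (by linarith) (by linarith))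
  have hs50 : s ≤ 1 / 50 := hs ▸ min_le_left _ _
  have hsθ : θ < (1 - s) * θ1 := by
    have h2 : s ≤ (θ1 - θ) / (2 * θ1) := hs ▸ min_le_right _ _
    rw [le_div_iff₀ (by positivity)] at h2
    nlinarith
  obtain ⟨d1, hsl⟩ := slopes hL hM hS θ1 h01 hθ1'
  obtain ⟨d2, hph⟩ := hP θ2 hθ2'
  obtain ⟨d3, hnum⟩ := hN θ1 θ2 (s / 2) h01 hθ2 hθ2' (by positivity)
  refine ⟨max d1 (max d2 d3), fun d hd => ?_⟩
  have hd1 : d1 ≤ d := le_of_max_le_left hd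
  have hd2 : d2 ≤ d := le_of_max_le_left (le_of_max_le_right hd)
  have hd3 : d3 ≤ d := le_of_max_le_right (le_of_max_le_right hd)
  obtain ⟨hdpos, hsl⟩ := hsl d hd1
  refine ⟨hdpos, fun f r hFf hconc => ?_⟩
  obtain ⟨-, n1, n2, -, -⟩ := hnum d hd3
  obtain ⟨P, hPr, hPb, hPl⟩ := hT d hdpos f r hFf
  have hb : 0 < bv d := (geob_of d hdpos 1).b_pos
  have hr : 0 < r := hFf.1
  have hdR : (0 : ℝ) < d := by exact_mod_cast hdpos
  have hk : 0 ≤ kap d := by unfold kap; positivity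
  have hFT : FT d (Real.exp (-(θ2 * (d : ℝ)))) := ft_of_phi hdpos (hph d hd2)
  have hfree := hF (bv d) (40 * kap d) (θ1 * d) r s P f hb (by positivity) (by positivity) hr hs0
    hs50 n1 hPb (fun μ c hc hct hcθ h => hsl P hPr μ c hc hct hcθ h) hPl hconc
  have hθd : θ * d < (1 - s) * (θ1 * d) := by nlinarith
  refine ⟨?_, fun ρ x hρ hx hxθ => ?_⟩
  · obtain ⟨g1, -, -⟩ := hfree ((1 - s) * (θ1 * d) / bv d) ((1 - s) * (θ1 * d))
      (div_pos (by nlinarith) hb) (by field_simp) le_rfl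
    rw [div_lt_iff₀ hb] at g1
    linarith
  · obtain ⟨g1, g2, μ, c, hc, hcθ, hct, hmax⟩ := hfree ρ x hρ hx (by linarith)
    refine ⟨g1, ?_, ?_⟩
    · refine hU d hdpos _ (Real.exp_pos _).le hFT f r hFf hconc μ ρ ⟨hρ, g1⟩ hmax ?_
      rw [← hct]
      have hc1 : c * Real.exp c ≤ θ1 * d * Real.exp (θ1 * d) := by gcongr
      have h3 : 0 ≤ θ1 * d * Real.exp (θ1 * d) * Real.exp (-(θ2 * (d : ℝ))) := by positivity
      have h4 : θ1 * d * Real.exp (θ1 * d) * Real.exp (-(θ2 * (d : ℝ))) ≤ 1 / 100 := by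
        refine le_trans (le_mul_of_one_le_right h3 ?_) n2
        have : 0 ≤ θ1 * d := by positivity
        linarith
      have h5 : c * Real.exp c * Real.exp (-(θ2 * (d : ℝ))) ≤
          θ1 * d * Real.exp (θ1 * d) * Real.exp (-(θ2 * (d : ℝ))) := by gcongr
      linarith
    · refine g2.trans (le_of_eq ?_)
      ring

end Fin4

theorem fin4_of (hL : LOC4) (hM : MEAN4) (hS : SLOPE4) (hF : FREE4) (hT : THERMO) (hU : UNIT)
    (hP : PHI8) (hN : NUM4) (hZ : MEANZ) : MFTHM4 := by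
  intro θ h0 h1
  obtain ⟨d1, hun⟩ := Fin4.unit4 hL hM hS hF hT hU hP hN θ h0 h1
  obtain ⟨d2, hloc⟩ := hL θ h0 h1
  refine ⟨max d1 d2, fun d hd a ha => ?_⟩
  obtain ⟨hd1, hun⟩ := hun d (le_of_max_le_left hd)
  obtain ⟨-, hloc⟩ := hloc d (le_of_max_le_right hd)
  obtain ⟨g, r, hF', hconc, -, -⟩ := exists_F (d := d) hd1
  obtain ⟨s, hs⟩ : ∃ s, s = 2 * a := ⟨_, rfl⟩
  have hs0 : 0 < s := by rw [hs]; positivity
  have hsd : 0 < s ^ d := by positivity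
  have has : a / s = 1 / 2 := by rw [hs]; field_simp
  have hb : 0 < bv d := (geob_of d hd1 1).b_pos
  have hball : ball d a = s ^ d * bv d := by rw [ball_eq d ha, hs]
  have hρb : ∀ ρ : ℝ, ρ * ball d a = ρ * s ^ d * bv d := by
    intro ρ; rw [hball]; ring
  have hk : ((√3 / 2 : ℝ)) ^ d = kap d := rfl
  have hk0 : 0 ≤ kap d := by unfold kap; positivity
  obtain ⟨j1, j2⟩ := hun g r hF' hconc
  refine ⟨?_, sc d s g, r / s ^ d, ?_, ?_, ?_⟩
  · intro lam c hlam hc hct hcθ δ hδ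
    have hct' : c * Real.exp c = lam * s ^ d * bv d := by rw [hct, hρb]
    have h2 := hM d hd1 (lam * s ^ d) c (40 * (c ^ 3 * kap d)) (by positivity) hc (by positivity)
      (hloc (lam * s ^ d) c (by positivity) hc hct' hcθ) δ hδ
    have h3 : Tendsto (fun ℓ : ℝ => ℓ / s) atTop atTop := tendsto_id.atTop_div_const hs0
    filter_upwards [h3.eventually h2, eventually_gt_atTop 0] with ℓ hℓ hℓ0
    rw [hZ d hd1 a lam ℓ ha hlam hℓ0, ← hs, hk]
    refine le_of_eq_of_le ?_ hℓ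
    congr 2
    rw [hball, div_pow]
    field_simp
  · refine IsF.scale hs0 ?_
    rw [has]
    exact hF'
  · rw [hρb, div_mul_cancel₀ _ hsd.ne']
    exact j1
  · intro ρ x hρ hx hxd
    rw [hρb] at hx
    obtain ⟨k1, k2, k3⟩ := j2 (ρ * s ^ d) x (by positivity) hx hxd
    refine ⟨by rwa [lt_div_iff₀ hsd], analytic_sc hs0 k2, ?_⟩
    rw [hk]
    refine le_of_eq_of_le ?_ k3
    congr 1
    rw [hball, Real.log_mul hρ.ne' hsd.ne', Real.log_pow, hx]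
    unfold sc
    field_simp
    ring

end Pool.Agent.HdGas
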