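import Pool.Agent.Lib.NT.RowsM
import Pool.Agent.Lib.MF.Final
import Pool.Agent.Lib.MF.Geob

/-!
# Mean field theory for hard spheres with the sharp error: scaling
-/

set_option autoImplicit false

namespace Pool.Agent.HdGas

open MeasureTheory Filter Topology Pool.Agent.SquareWellGas Pool.Agent.KacGas Pool.Agent.VdwGas
  Pool.Agent.Vdw

theorem finm (h1 : DENS2) (h2 : FREE2) : MFTHM := by
  obtain ⟨d0, h2⟩ := h2
  refine ⟨d0, fun d hd a ha => ?_⟩
  obtain ⟨g, r, hF, hconc, -, -⟩ := exists_F (d := d) hd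
  obtain ⟨s, hs⟩ : ∃ s, s = 2 * a := ⟨_, rfl⟩
  have hs0 : 0 < s := by rw [hs]; positivity
  have hsd : 0 < s ^ d := by positivity
  have has : a / s = 1 / 2 := by rw [hs]; field_simp
  have hb : 0 < bv d := (geob_of d hd 1).b_pos
  have hF' : IsF d a (fun _ => 0) (sc d s g) (r / s ^ d) := by
    refine IsF.scale hs0 ?_
    rw [has]
    exact hF
  have hball : ball d a = s ^ d * bv d := by rw [ball_eq d ha, hs]
  have hsc : ∀ μ x : ℝ, sc d s g x + μ * x =
      (g (x * s ^ d) + (μ + d * Real.log s) * (x * s ^ d)) / s ^ d := by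
    intro μ x
    unfold sc
    field_simp
    ring
  have hexp : ∀ μ : ℝ, Real.exp (μ + d * Real.log s) * bv d = Real.exp μ * ball d a := by
    intro μ
    rw [Real.exp_add, hball, mul_assoc]
    congr 2
    rw [Real.exp_nat_mul, Real.exp_log hs0]
  have hI : ∀ x : ℝ, x ∈ Set.Ioo 0 (r / s ^ d) ↔ x * s ^ d ∈ Set.Ioo 0 r := by
    intro x
    rw [Set.mem_Ioo, Set.mem_Ioo, lt_div_iff₀ hsd, mul_pos_iff_of_pos_right hsd]
  have hI' : ∀ y : ℝ, y ∈ Set.Ioo 0 r → y / s ^ d ∈ Set.Ioo 0 (r / s ^ d) := by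
    intro y hy
    rw [hI, div_mul_cancel₀ _ hsd.ne']
    exact hy
  have hρb : ∀ ρ : ℝ, ρ * ball d a = ρ * s ^ d * bv d := by
    intro ρ; rw [hball]; ring
  have hk : ((√3 / 2 : ℝ)) ^ d = kap d := rfl
  have he : √2 * Real.exp (-(d : ℝ) / 8) = epd d := rfl
  refine ⟨sc d s g, r / s ^ d, hF', ?_, fun hd0 => ?_⟩
  · intro μ c ρ hc hct ht1 ht2 hρ hmax
    rw [hk] at ht1 ⊢
    rw [he] at ht2
    rw [← hexp] at hct ht1 ht2 ⊢
    rw [hρb]
    refine h1 d hd g r hF (μ + d * Real.log s) c (ρ * s ^ d) hc hct ht1 ht2 ((hI ρ).mp hρ) ?_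
    intro y hy
    have := hmax _ (hI' y hy)
    rw [hsc, hsc, div_mul_cancel₀ _ hsd.ne', div_le_div_iff_of_pos_right hsd] at this
    exact this
  · intro ρ x hρ hx hxd
    rw [hρb] at hx
    obtain ⟨k1, k2⟩ := h2 d hd0 g r hF hconc (ρ * s ^ d) x (by positivity) hx hxd
    refine ⟨by rwa [lt_div_iff₀ hsd], ?_⟩
    rw [hk]
    refine le_of_eq_of_le ?_ k2
    congr 1
    rw [hball, Real.log_mul hρ.ne' hsd.ne', Real.log_pow, hx]
    unfold sc
    field_simp
    ring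

end Pool.Agent.HdGas
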