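import Pool.Agent.Lib.NT.Top

/-!
# Hard spheres in high dimension: density up to `d / 7`
-/

set_option autoImplicit false

namespace Pool.Agent.HdGas

open MeasureTheory Filter Topology Pool.Agent.SquareWellGas Pool.Agent.KacGas Pool.Agent.VdwGas

/-- A better bound for the negative part of the Fourier transform of the ball. -/
def PHI7 : Prop := ∃ d1 : ℕ, ∀ d : ℕ, d1 ≤ d → ∀ s : ℝ, 0 ≤ s →
  -Real.exp (-(29 / 200 * (d : ℝ))) ≤ Phi d s

/-- `log (4 / 3)` from below. -/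
def LOG43 : Prop := (2875 : ℝ) / 10000 ≤ Real.log (4 / 3)

/-- No transition, diameter one, in high dimension. -/
def HIGHD7 : Prop := ∃ d0 : ℕ, ∀ d : ℕ, d0 ≤ d → ∀ (f : ℝ → ℝ) (r : ℝ),
  IsF d (1 / 2) (fun _ => 0) f r → ConcaveOn ℝ (Set.Ioo 0 r) f →
    (d : ℝ) / 7 < r * bv d ∧ ∀ ρ : ℝ, 0 < ρ → ρ * bv d ≤ d / 7 → AnalyticAt ℝ f ρ

end Pool.Agent.HdGas
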