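import Pool.Agent.Lib.NT.Finn
import Pool.Agent.Lib.NT.Top3

/-!
# No transition for hard spheres: the final form (density up to `d / 7` in high dimension)
-/

set_option autoImplicit false

namespace Pool.Agent.HdGas

open MeasureTheory Filter Topology Pool.Agent.SquareWellGas Pool.Agent.KacGas Pool.Agent.VdwGas
  Pool.Agent.Vdw

/-- The theorem: no phase transition. -/
def NTHM7 : Prop := ∃ d0 : ℕ, ∀ d : ℕ, 2 ≤ d → ∀ a : ℝ, 0 < a → ∃ (f : ℝ → ℝ) (ρ₀ : ℝ),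
  IsF d a (fun _ => 0) f ρ₀ ∧
  (∀ ε : ℝ, 0 ≤ ε → FTa d a ε →
    (∀ μ ρ : ℝ, ρ ∈ Set.Ioo 0 ρ₀ → (∀ x ∈ Set.Ioo 0 ρ₀, f x + μ * x ≤ f ρ + μ * ρ) →
      Real.exp μ * ball d a * ε < 1 → AnalyticAt ℝ f ρ) ∧
    ∀ ρ : ℝ, 0 < ρ → ρ * ball d a * (1 + ε) < 1 → ρ < ρ₀ ∧ AnalyticAt ℝ f ρ) ∧
  FTa d a (2 / 15) ∧ (3 ≤ d → FTa d a (1 / 11)) ∧
  FTa d a (√2 * Real.exp (-(d : ℝ) / 8)) ∧
  (d0 ≤ d → (d : ℝ) / 7 < ρ₀ * ball d a ∧
    ∀ ρ : ℝ, 0 < ρ → ρ * ball d a ≤ d / 7 → AnalyticAt ℝ f ρ)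

theorem finn7 (hU : UNIT) (hLow : LOWD) (hHigh : HIGHD7) (h2 : FT2) (h3 : FT3) (hmono : MONO)
    (hS : FTS) : NTHM7 := by
  obtain ⟨d0, hHigh⟩ := hHigh
  refine ⟨d0, fun d hd2 a ha => ?_⟩
  have hd : 1 ≤ d := by omega
  obtain ⟨g, r, hF, hconc, -, -⟩ := exists_F (d := d) hd
  obtain ⟨s, hs⟩ : ∃ s, s = 2 * a := ⟨_, rfl⟩
  have hs0 : 0 < s := by rw [hs]; positivity
  have hsd : 0 < s ^ d := by positivity
  have has : a / s = 1 / 2 := by rw [hs]; field_simp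
  have hb : 0 < bv d := (geob_of d hd 1).b_pos
  have hF' : IsF d a (fun _ => 0) (sc d s g) (r / s ^ d) := by
    refine IsF.scale hs0 ?_
    rw [has]
    exact hF
  have hball : ball d a = s ^ d * bv d := by rw [ball_eq d ha, hs]
  have hsc : ∀ μ x : ℝ, sc d s g x + μ * x =
      (g (x * s ^ d) + (μ + d * Real.log s) * (x * s ^ d)) / s ^ d := by
    intro μ x
    unfold sc
    field_simp
    ring
  have hexp : ∀ μ : ℝ, Real.exp (μ + d * Real.log s) * bv d = Real.exp μ * ball d a := by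
    intro μ
    rw [Real.exp_add, hball, mul_assoc]
    congr 2
    rw [Real.exp_nat_mul, Real.exp_log hs0]
  have hI : ∀ x : ℝ, x ∈ Set.Ioo 0 (r / s ^ d) ↔ x * s ^ d ∈ Set.Ioo 0 r := by
    intro x
    rw [Set.mem_Ioo, Set.mem_Ioo, lt_div_iff₀ hsd, mul_pos_iff_of_pos_right hsd]
  have hI' : ∀ y : ℝ, y ∈ Set.Ioo 0 r → y / s ^ d ∈ Set.Ioo 0 (r / s ^ d) := by
    intro y hy
    rw [hI, div_mul_cancel₀ _ hsd.ne']
    exact hy
  have hρb : ∀ ρ : ℝ, ρ * ball d a = ρ * s ^ d * bv d := by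
    intro ρ; rw [hball]; ring
  refine ⟨sc d s g, r / s ^ d, hF', ?_, ?_, ?_, ?_, ?_⟩
  · intro ε hε hft
    rw [hS d a ε hd ha] at hft
    constructor
    · intro μ ρ hρ hmax hμ
      rw [← hexp] at hμ
      refine analytic_sc hs0 (hU d hd ε hε hft g r hF hconc (μ + d * Real.log s) (ρ * s ^ d)
        ((hI ρ).mp hρ) ?_ hμ)
      intro y hy
      have := hmax _ (hI' y hy)
      rw [hsc, hsc, div_mul_cancel₀ _ hsd.ne', div_le_div_iff_of_pos_right hsd] at this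
      exact this
    · intro ρ hρ hρe
      rw [hρb] at hρe
      obtain ⟨k1, k2⟩ := hLow d hd ε hε hft g r hF hconc (ρ * s ^ d) (by positivity) hρe
      exact ⟨by rwa [lt_div_iff₀ hsd], analytic_sc hs0 k2⟩
  · rw [hS d a _ hd ha]
    exact ft_up (by norm_num) (by norm_num) h2 hmono d hd2
  · intro hd3
    rw [hS d a _ hd ha]
    exact ft_up (by norm_num) (by norm_num) h3 hmono d hd3
  · rw [hS d a _ hd ha]
    exact ft_epd hd
  · intro hd0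
    obtain ⟨k1, k2⟩ := hHigh d hd0 g r hF hconc
    refine ⟨?_, fun ρ hρ hρd => ?_⟩
    · rw [hρb, div_mul_cancel₀ _ hsd.ne']
      exact k1
    · rw [hρb] at hρd
      exact analytic_sc hs0 (k2 (ρ * s ^ d) (by positivity) hρd)

end Pool.Agent.HdGas
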