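import Pool.Agent.Lib.NT.Rows3
import Pool.Agent.Lib.MF.Free

/-!
# Row FREE3: the free energy, relative error
-/

set_option autoImplicit false

namespace Pool.Agent.HdGas

open MeasureTheory Filter Topology Pool.Agent.SquareWellGas Pool.Agent.KacGas Pool.Agent.VdwGas

noncomputable section

/-- The largest activity used. -/
def Free3.t1 (d : ℕ) : ℝ := ((d : ℝ) / 7 + 1) * Real.exp ((d : ℝ) / 7 + 1)

theorem Free3.q_lt_one : Real.exp (1 / 7) * (√3 / 2) < 1 := by
  have h0 : 0 ≤ Real.exp (1 / 7) * (√3 / 2) := by positivity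
  have h4 : (Real.exp (1 / 7) * (√3 / 2)) ^ 2 = Real.exp (2 / 7) * (3 / 4) := by
    rw [mul_pow, ← Real.exp_nat_mul, div_pow, Real.sq_sqrt (by norm_num)]
    norm_num
  have h5 : Real.exp (2 / 7) < 4 / 3 := by
    have h6 : Real.exp (2 / 7) ^ 7 < (4 / 3 : ℝ) ^ 7 := by
      rw [← Real.exp_nat_mul]
      have : ((7 : ℕ) : ℝ) * (2 / 7) = ((2 : ℕ) : ℝ) * 1 := by norm_num
      rw [this, Real.exp_nat_mul]
      calc Real.exp 1 ^ 2 < 2.7182818286 ^ 2 :=
            pow_lt_pow_left₀ Real.exp_one_lt_d9 (Real.exp_pos _).le (by norm_num)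
        _ < (4 / 3 : ℝ) ^ 7 := by norm_num
    exact lt_of_pow_lt_pow_left₀ 7 (by norm_num) h6
  by_contra hcon
  push Not at hcon
  have h7 : (1 : ℝ) ≤ (Real.exp (1 / 7) * (√3 / 2)) ^ 2 := one_le_pow₀ hcon
  rw [h4] at h7
  linarith

theorem Free3.asym : ∃ d0 : ℕ, ∀ d : ℕ, d0 ≤ d → 1 ≤ d ∧
    1000 * (d * (Free3.t1 d * kap d)) ≤ 1 := by
  set q : ℝ := Real.exp (1 / 7) * (√3 / 2) with hq
  have hq0 : 0 ≤ q := by positivity
  have hlim : Tendsto (fun n : ℕ => (n : ℝ) ^ 2 * q ^ n) atTop (𝓝 0) :=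
    tendsto_pow_const_mul_const_pow_of_abs_lt_one 2 (by
      rw [abs_of_nonneg hq0]; exact Free3.q_lt_one)
  have hc : (0 : ℝ) < 1 / (2000 * Real.exp 1) := by positivity
  obtain ⟨d0, hd0⟩ := eventually_atTop.1 (hlim.eventually (ge_mem_nhds hc))
  refine ⟨max d0 1, fun d hd => ⟨le_trans (le_max_right _ _) hd, ?_⟩⟩
  have h1d : 1 ≤ d := le_trans (le_max_right _ _) hd
  have h1 := hd0 d (le_trans (le_max_left _ _) hd)
  have hdR : (1 : ℝ) ≤ d := by exact_mod_cast h1d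
  have h2 : Free3.t1 d ≤ 2 * d * Real.exp ((d : ℝ) / 7 + 1) := by
    unfold Free3.t1
    apply mul_le_mul_of_nonneg_right _ (Real.exp_pos _).le
    linarith
  have hexp : Real.exp ((d : ℝ) / 7 + 1) = Real.exp 1 * Real.exp (1 / 7) ^ d := by
    rw [← Real.exp_nat_mul, ← Real.exp_add]
    congr 1
    ring
  have hk0 : 0 ≤ kap d := by unfold kap; positivity
  have h4 : (d : ℝ) * (Free3.t1 d * kap d) ≤ 2 * Real.exp 1 * ((d : ℝ) ^ 2 * q ^ d) := by
    calc (d : ℝ) * (Free3.t1 d * kap d) ≤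
          d * ((2 * d * Real.exp ((d : ℝ) / 7 + 1)) * kap d) := by gcongr
      _ = 2 * Real.exp 1 * ((d : ℝ) ^ 2 * q ^ d) := by
          rw [hexp, hq, mul_pow]
          unfold kap
          ring
  have h5 := mul_le_mul_of_nonneg_left h1 (show (0 : ℝ) ≤ 2000 * Real.exp 1 by positivity)
  have e : 2000 * Real.exp 1 * (1 / (2000 * Real.exp 1)) = 1 := by
    have : (2000 * Real.exp 1 : ℝ) ≠ 0 := by positivity
    field_simp
  linarith

/-- The activity at the maximiser is not much larger. -/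
theorem Free3.cube {x c η : ℝ} (hx : 0 < x) (hc : 0 < c) (hη0 : 0 ≤ η) (hη1 : η ≤ 1 / 60)
    (hη2 : x * η ≤ 1 / 60) (h : c - η * c ≤ x) :
    (c * Real.exp c) * c ≤ 2 * (x ^ 2 * Real.exp x) := by
  have h1 : c ≤ 2 * x := by nlinarith
  have h2 : c ≤ x * (1 + 2 * η) := by nlinarith
  have h3 : c ^ 2 ≤ (x * (1 + 2 * η)) ^ 2 := pow_le_pow_left₀ hc.le h2 2
  have h4 : (1 + 2 * η) ^ 2 ≤ Real.exp (2 * η) ^ 2 := by
    apply pow_le_pow_left₀ (by positivity)
    have := Real.add_one_le_exp (2 * η)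
    linarith
  have h5 : Real.exp c ≤ Real.exp (x + 2 * (x * η)) := by
    apply Real.exp_le_exp.2
    linarith
  have h6 : Real.exp (2 * (2 * η)) * Real.exp (2 * (x * η)) ≤ 2 := by
    rw [← Real.exp_add, ← Real.le_log_iff_exp_le (by norm_num)]
    have := Real.log_two_gt_d9
    linarith
  calc (c * Real.exp c) * c = c ^ 2 * Real.exp c := by ring
    _ ≤ (x * (1 + 2 * η)) ^ 2 * Real.exp (x + 2 * (x * η)) := by gcongr
    _ = x ^ 2 * (1 + 2 * η) ^ 2 * Real.exp x * Real.exp (2 * (x * η)) := by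
        rw [mul_pow, Real.exp_add]; ring
    _ ≤ x ^ 2 * Real.exp (2 * η) ^ 2 * Real.exp x * Real.exp (2 * (x * η)) := by gcongr
    _ = x ^ 2 * Real.exp x * (Real.exp (2 * (2 * η)) * Real.exp (2 * (x * η))) := by
        rw [show Real.exp (2 * (2 * η)) = Real.exp (2 * η) ^ 2 by
          rw [← Real.exp_nat_mul]; norm_num]
        ring
    _ ≤ x ^ 2 * Real.exp x * 2 := by gcongr
    _ = 2 * (x ^ 2 * Real.exp x) := by ring

theorem free3_of (hT : THERMO) (hS : SLOPE3) (hI : INTEG3) (hD : DENS3) (hK : FTK) :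
    FREE3 := by
  obtain ⟨d1, hd1'⟩ := Free3.asym
  obtain ⟨d2, hd2'⟩ := hK
  refine ⟨max d1 d2, fun d hd f r hF hconc ρ x hρ0 hxdef hxd => ?_⟩
  obtain ⟨hd1, has⟩ := hd1' d (le_trans (le_max_left _ _) hd)
  have hFT : FT d (kap d) := hd2' d (le_trans (le_max_right _ _) hd)
  obtain ⟨P, hPr, hP0, hPL⟩ := hT d hd1 f r hF
  set b : ℝ := bv d with hbdef
  have hb : 0 < b := Bdr.bv_pos
  set t₁ : ℝ := Free3.t1 d with ht1def
  have hdR : (1 : ℝ) ≤ d := by exact_mod_cast hd1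
  have ht10 : 0 ≤ t₁ := by
    rw [ht1def]; unfold Free3.t1; positivity
  have hkap0 : 0 ≤ kap d := by unfold kap; positivity
  -- consequences of the asymptotics
  have hA : ∀ t : ℝ, 0 ≤ t → t ≤ t₁ → 1000 * (d * (t * kap d)) ≤ 1 := by
    intro t ht0 ht
    refine le_trans ?_ has
    gcongr
  have hA1 : ∀ t : ℝ, 0 ≤ t → t ≤ t₁ → 1000 * (t * kap d) ≤ 1 := by
    intro t ht0 ht
    refine le_trans ?_ (hA t ht0 ht)
    have : 0 ≤ t * kap d := by positivity
    nlinarith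
  have hc1 : ∀ t : ℝ, 0 ≤ t → t ≤ t₁ → t * kap d ≤ 1 / 2 := by
    intro t ht0 ht
    have := hA1 t ht0 ht
    linarith
  -- slopes and pressure
  have hslope : ∀ μ c : ℝ, 0 ≤ c → c * Real.exp c = Real.exp μ * b → Real.exp μ * b ≤ t₁ →
      ∀ h : ℝ, h * c - |h| * (2 * (Real.exp μ * b * kap d) * c) ≤
        b * (P (μ + h) - P μ) := by
    intro μ c hc hcμ ht
    have ht0 : 0 ≤ Real.exp μ * b := mul_nonneg (Real.exp_pos _).le hb.le
    exact hS d hd1 (kap d) (kap d) hkap0 hFT le_rfl le_rfl P hPr μ c hc hcμ (hc1 _ ht0 ht)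
  have hpress : ∀ μ c : ℝ, 0 ≤ c → c * Real.exp c = Real.exp μ * b → Real.exp μ * b ≤ t₁ →
      |b * P μ - (c + c ^ 2 / 2)| ≤ 2 * kap d * ((c * Real.exp c) * c) := by
    intro μ c hc hcμ ht
    refine (hI b (2 * kap d) t₁ P hb (by positivity) hP0 ?_ μ c hc hcμ ht).trans
      (le_of_eq ?_)
    · intro μ' c' hc' hcμ' ht' h
      refine le_of_eq_of_le ?_ (hslope μ' c' hc' hcμ' ht' h)
      ring
    · rw [← hcμ]
      ring
  -- the reference chemical potential
  set c₁ : ℝ := (d : ℝ) / 7 + 1 with hc1def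
  have hc10 : 0 ≤ c₁ := by positivity
  set μ₁ : ℝ := Real.log (t₁ / b) with hμ1def
  have ht1pos : 0 < t₁ := by
    rw [ht1def]; unfold Free3.t1; positivity
  have hμ1 : Real.exp μ₁ * b = t₁ := by
    rw [hμ1def, Real.exp_log (div_pos ht1pos hb)]
    field_simp
  have hc1t : c₁ * Real.exp c₁ = Real.exp μ₁ * b := by rw [hμ1]; rfl
  have hslope1 := hslope μ₁ c₁ hc10 hc1t hμ1.le
  rw [hμ1] at hslope1
  obtain ⟨e₁, he₁⟩ : ∃ e, e = 2 * (t₁ * kap d) * c₁ := ⟨_, rfl⟩
  rw [← he₁] at hslope1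
  have her1 : e₁ ≤ 1 / 2 := by
    have h1 := hA t₁ ht10 le_rfl
    have h2 : 0 ≤ t₁ * kap d := by positivity
    have h3 : c₁ ≤ 2 * d := by rw [hc1def]; linarith
    have h4 : (t₁ * kap d) * c₁ ≤ (t₁ * kap d) * (2 * d) :=
      mul_le_mul_of_nonneg_left h3 h2
    rw [he₁]
    linarith
  -- maximisers at low density have small chemical potential
  have hlow : ∀ μ ρ : ℝ, ρ ∈ Set.Ioo 0 r → ρ * b ≤ d / 7 →
      (∀ x ∈ Set.Ioo 0 r, f x + μ * x ≤ f ρ + μ * ρ) → Real.exp μ * b ≤ t₁ := by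
    intro μ ρ hρ hρb hmax
    rw [← hμ1]
    apply mul_le_mul_of_nonneg_right _ hb.le
    apply Real.exp_le_exp.2
    by_contra hlt
    push Not at hlt
    have h1 := hslope1 (μ - μ₁)
    have e : μ₁ + (μ - μ₁) = μ := by ring
    rw [e, abs_of_pos (by linarith)] at h1
    have h2 : P μ ≤ f ρ + μ * ρ := by
      apply le_of_forall_pos_sub_le
      intro δ hδ
      obtain ⟨x, hx, hx'⟩ := (hPL μ).2 δ hδ
      exact hx'.trans (hmax x hx)
    have h3 : f ρ + μ₁ * ρ ≤ P μ₁ := (hPL μ₁).1 ρ hρ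
    have h4 : b * (P μ - P μ₁) ≤ b * ((μ - μ₁) * ρ) := by
      apply mul_le_mul_of_nonneg_left _ hb.le
      linarith
    have h5 : (μ - μ₁) * (c₁ - e₁) ≤ (μ - μ₁) * (ρ * b) := by nlinarith
    have h6 : c₁ - e₁ ≤ ρ * b := le_of_mul_le_mul_left h5 (by linarith)
    linarith
  have hrb : (d : ℝ) / 7 < r * b := by
    have key : c₁ - e₁ ≤ b * r := by
      apply le_of_forall_pos_le_add
      intro δ hδ
      have h1 := hslope1 1
      rw [abs_of_pos one_pos] at h1
      obtain ⟨x, hx, hx'⟩ := (hPL (μ₁ + 1)).2 (δ / b) (div_pos hδ hb)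
      have h2 := (hPL μ₁).1 x hx
      have h3 : P (μ₁ + 1) - P μ₁ ≤ x + δ / b := by linarith
      have h4 : b * (P (μ₁ + 1) - P μ₁) ≤ b * (x + δ / b) := mul_le_mul_of_nonneg_left h3 hb.le
      have h5 : b * (x + δ / b) = b * x + δ := by field_simp
      have h6 : b * x ≤ b * r := mul_le_mul_of_nonneg_left hx.2.le hb.le
      linarith
    have : c₁ - 1 / 2 ≤ r * b := by linarith
    linarith
  have hρb : ρ * b ≤ d / 7 := by rw [← hxdef]; exact hxd
  have hρr : ρ < r := by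
    have : ρ * b < r * b := lt_of_le_of_lt hρb hrb
    exact lt_of_mul_lt_mul_right this hb.le
  have hρ : ρ ∈ Set.Ioo 0 r := ⟨hρ0, hρr⟩
  have hx0 : 0 < x := by rw [hxdef]; exact mul_pos hρ0 hb
  have hlogx : Real.log x = Real.log ρ + Real.log b := by
    rw [hxdef]; exact Real.log_mul hρ0.ne' hb.ne'
  refine ⟨hρr, ?_⟩
  obtain ⟨E, hE⟩ : ∃ E, E = x ^ 2 * Real.exp x * kap d := ⟨_, rfl⟩
  have hE0 : 0 ≤ E := by rw [hE]; positivity
  rw [← hE]
  -- upper bound
  have hup : b * f ρ ≤ (x - x * Real.log ρ - x ^ 2 / 2) + 4 * E := by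
    obtain ⟨μ, hμdef⟩ : ∃ μ, μ = Real.log x + x - Real.log b := ⟨_, rfl⟩
    have hμ : x * Real.exp x = Real.exp μ * b := by
      rw [hμdef, Real.exp_sub, Real.exp_add, Real.exp_log hx0, Real.exp_log hb]
      field_simp
    have hxle : x ≤ c₁ := by linarith
    have ht : Real.exp μ * b ≤ t₁ := by
      rw [← hμ, ← hμ1, ← hc1t]
      apply mul_le_mul hxle (Real.exp_le_exp.2 hxle) (Real.exp_pos _).le hc10
    have h1 := abs_le.1 (hpress μ x hx0.le hμ ht)
    have hEe : 2 * kap d * ((x * Real.exp x) * x) = 2 * E := by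
      rw [hE]; ring
    rw [hEe] at h1
    have h2 := (hPL μ).1 ρ hρ
    have h3 : b * f ρ ≤ b * (P μ - μ * ρ) := mul_le_mul_of_nonneg_left (by linarith) hb.le
    have h4 : b * (P μ - μ * ρ) = b * P μ - μ * x := by rw [hxdef]; ring
    have h5 : μ * x = x * Real.log ρ + x ^ 2 := by
      rw [hμdef, hlogx]; ring
    have h6 := h1.2
    nlinarith
  -- lower bound
  have hlo : (x - x * Real.log ρ - x ^ 2 / 2) - 4 * E ≤ b * f ρ := by
    obtain ⟨m, hm⟩ := FreeAux.support hconc hρ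
    have hmax : ∀ y ∈ Set.Ioo 0 r, f y + (-m) * y ≤ f ρ + (-m) * ρ := by
      intro y hy
      have := hm y hy
      nlinarith
    have ht := hlow (-m) ρ hρ hρb hmax
    have ht0 : 0 ≤ Real.exp (-m) * b := mul_nonneg (Real.exp_pos _).le hb.le
    obtain ⟨c, hc0, hc⟩ := IntegAux.exists_root ht0
    have hcpos : 0 < c := by
      rcases hc0.lt_or_eq with h | h
      · exact h
      · exfalso
        rw [← h] at hc
        have h2 : 0 < Real.exp (-m) * b := mul_pos (Real.exp_pos _) hb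
        simp at hc
        linarith
    have k1 := hA1 _ ht0 ht
    have k2 := hA _ ht0 ht
    have hden := hD d hd1 (kap d) (kap d) hkap0 hFT le_rfl le_rfl f r hF (-m) c ρ hc0 hc
      (by linarith) hρ hmax
    obtain ⟨η, hη⟩ : ∃ η, η = 2 * (Real.exp (-m) * b * kap d) := ⟨_, rfl⟩
    have hden' : |ρ * b - c| ≤ η * c := by rw [hη]; exact hden
    have hη0 : 0 ≤ η := by rw [hη]; positivity
    have hη1 : η ≤ 1 / 60 := by rw [hη]; linarith
    have hη2 : x * η ≤ 1 / 60 := by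
      have : x * η ≤ d / 7 * η := mul_le_mul_of_nonneg_right hxd hη0
      rw [hη] at this ⊢
      nlinarith
    have hden2 : c - η * c ≤ x := by
      have := (abs_le.1 hden').1
      rw [← hxdef] at this
      linarith
    have hcube := Free3.cube hx0 hcpos hη0 hη1 hη2 hden2
    have hEE : 2 * kap d * ((c * Real.exp c) * c) ≤ 4 * E := by
      have := mul_le_mul_of_nonneg_left hcube (show 0 ≤ 2 * kap d by positivity)
      rw [hE]
      linarith
    have h1 := abs_le.1 ((hpress (-m) c hc0 hc ht).trans hEE)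
    have h2 : P (-m) ≤ f ρ + (-m) * ρ := by
      apply le_of_forall_pos_sub_le
      intro δ hδ
      obtain ⟨y, hy, hy'⟩ := (hPL (-m)).2 δ hδ
      exact hy'.trans (hmax y hy)
    have h3 : b * (P (-m) - (-m) * ρ) ≤ b * f ρ :=
      mul_le_mul_of_nonneg_left (by linarith) hb.le
    have h4 : b * (P (-m) - (-m) * ρ) = b * P (-m) - (-m) * x := by rw [hxdef]; ring
    have h5 : -m = Real.log c + c - Real.log b := by
      have := congrArg Real.log hc
      rw [Real.log_mul hcpos.ne' (Real.exp_pos _).ne', Real.log_exp,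
        Real.log_mul (Real.exp_pos _).ne' hb.ne', Real.log_exp] at this
      linarith
    have h6 := FreeAux.minim (b := b) hx0 hcpos
    rw [← h5, hlogx] at h6
    have h7 := h1.1
    nlinarith
  rw [abs_le]
  constructor <;> linarith

end

end Pool.Agent.HdGas
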