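import Pool.Agent.Lib.NT.Rows4
import Pool.Agent.Lib.MF.Free

/-!
# Row FREE4: the free energy
-/

set_option autoImplicit false

namespace Pool.Agent.HdGas

open MeasureTheory Filter Topology

theorem free4_of (hI : INTEG4) (hD : DENS4) : FREE4 := by
  intro b A c0 r s P f hb hA hc0 hr hs hs50 hsmall hP0 hslope hPL hconc ρ x hρ0 hxdef hxle
  have hx0 : 0 < x := by rw [hxdef]; exact mul_pos hρ0 hb
  have hpress := hI b A c0 P hb hA hP0 hslope
  -- the reference chemical potential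
  have ht1 : 0 < c0 * Real.exp c0 := mul_pos hc0 (Real.exp_pos _)
  obtain ⟨μ₁, hμ1def⟩ : ∃ μ, μ = Real.log (c0 * Real.exp c0 / b) := ⟨_, rfl⟩
  have hμ1 : c0 * Real.exp c0 = Real.exp μ₁ * b := by
    rw [hμ1def, Real.exp_log (div_pos ht1 hb)]
    field_simp
  have hslope1 := hslope μ₁ c0 hc0.le hμ1 le_rfl
  have hAc : A * c0 ^ 3 ≤ s / 2 * c0 := by
    have := mul_le_mul_of_nonneg_right hsmall hc0.le
    nlinarith
  have hgap : x < c0 - A * c0 ^ 3 := by
    have : 0 < s / 2 * c0 := by positivity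
    nlinarith
  have hatt : ∀ μ ρ : ℝ, (∀ y ∈ Set.Ioo 0 r, f y + μ * y ≤ f ρ + μ * ρ) →
      P μ ≤ f ρ + μ * ρ := by
    intro μ ρ hmax
    apply le_of_forall_pos_sub_le
    intro δ hδ
    obtain ⟨y, hy, hy'⟩ := (hPL μ).2 δ hδ
    exact hy'.trans (hmax y hy)
  have hrb : x < r * b := by
    have key : c0 - A * c0 ^ 3 ≤ b * r := by
      apply le_of_forall_pos_le_add
      intro δ hδ
      have h1 := hslope1 1
      rw [abs_of_pos one_pos] at h1
      obtain ⟨y, hy, hy'⟩ := (hPL (μ₁ + 1)).2 (δ / b) (div_pos hδ hb)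
      have h2 := (hPL μ₁).1 y hy
      have h3 : P (μ₁ + 1) - P μ₁ ≤ y + δ / b := by linarith
      have h4 : b * (P (μ₁ + 1) - P μ₁) ≤ b * (y + δ / b) := mul_le_mul_of_nonneg_left h3 hb.le
      have h5 : b * (y + δ / b) = b * y + δ := by field_simp
      have h6 : b * y ≤ b * r := mul_le_mul_of_nonneg_left hy.2.le hb.le
      linarith
    linarith
  have hρr : ρ < r := by
    have : ρ * b < r * b := by rw [← hxdef]; exact hrb
    exact lt_of_mul_lt_mul_right this hb.le
  have hρ : ρ ∈ Set.Ioo 0 r := ⟨hρ0, hρr⟩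
  have hlogx : Real.log x = Real.log ρ + Real.log b := by
    rw [hxdef]; exact Real.log_mul hρ0.ne' hb.ne'
  -- the supporting line
  obtain ⟨m, hm⟩ := FreeAux.support hconc hρ
  have hmax : ∀ y ∈ Set.Ioo 0 r, f y + (-m) * y ≤ f ρ + (-m) * ρ := by
    intro y hy
    have := hm y hy
    nlinarith
  have hatt' := hatt (-m) ρ hmax
  have ht0 : 0 ≤ Real.exp (-m) * b := mul_nonneg (Real.exp_pos _).le hb.le
  obtain ⟨c, hc0', hc⟩ := IntegAux.exists_root ht0
  have hcpos : 0 < c := by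
    rcases hc0'.lt_or_eq with h | h
    · exact h
    · exfalso
      rw [← h] at hc
      have h2 : 0 < Real.exp (-m) * b := mul_pos (Real.exp_pos _) hb
      simp at hc
      linarith
  have hmono : ∀ u v : ℝ, 0 ≤ u → u ≤ v → u * Real.exp u ≤ v * Real.exp v := fun u v hu huv =>
    mul_le_mul huv (Real.exp_le_exp.2 huv) (Real.exp_pos _).le (hu.trans huv)
  -- a chemical potential below the reference with a large density leads to a contradiction
  have hlow : ∀ μ' c' : ℝ, 0 ≤ c' → c' * Real.exp c' = Real.exp μ' * b → c' ≤ c0 →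
      x < c' - A * c' ^ 3 → -m ≤ μ' := by
    intro μ' c' hc' hcμ hcc hgap'
    by_contra hlt
    push Not at hlt
    have h1 := hslope μ' c' hc' hcμ hcc (-m - μ')
    have e : μ' + (-m - μ') = -m := by ring
    rw [e, abs_of_pos (by linarith)] at h1
    have h3 : f ρ + μ' * ρ ≤ P μ' := (hPL μ').1 ρ hρ
    have h4 : b * (P (-m) - P μ') ≤ b * ((-m - μ') * ρ) := by
      apply mul_le_mul_of_nonneg_left _ hb.le
      linarith
    have h5 : (-m - μ') * (c' - A * c' ^ 3) ≤ (-m - μ') * x := by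
      rw [hxdef]
      nlinarith
    have h6 : c' - A * c' ^ 3 ≤ x := le_of_mul_le_mul_left h5 (by linarith)
    linarith
  -- `c < c0`
  have hcc : c < c0 := by
    -- a slightly smaller value
    obtain ⟨c', hc'⟩ : ∃ c', c' = (c0 + (x + s / 2 * c0)) / 2 := ⟨_, rfl⟩
    have h1 : x + s / 2 * c0 < c0 := by nlinarith [mul_pos hs hc0]
    have h2 : c' < c0 := by rw [hc']; linarith
    have h3 : x + s / 2 * c0 < c' := by rw [hc']; linarith
    have h4 : 0 < c' := by
      have : 0 < s / 2 * c0 := by positivity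
      linarith
    have h5 : A * c' ^ 3 ≤ s / 2 * c0 := by
      refine le_trans ?_ hAc
      exact mul_le_mul_of_nonneg_left (pow_le_pow_left₀ h4.le h2.le 3) hA
    obtain ⟨μ', hμ'⟩ : ∃ μ, μ = Real.log (c' * Real.exp c' / b) := ⟨_, rfl⟩
    have h6 : c' * Real.exp c' = Real.exp μ' * b := by
      rw [hμ', Real.exp_log (div_pos (mul_pos h4 (Real.exp_pos _)) hb)]
      field_simp
    have h7 := hlow μ' c' h4.le h6 h2.le (by linarith)
    have h8 : c * Real.exp c ≤ c' * Real.exp c' := by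
      rw [hc, h6]
      exact mul_le_mul_of_nonneg_right (Real.exp_le_exp.2 h7) hb.le
    by_contra hcon
    push Not at hcon
    have h9 := hmono c0 c hc0.le hcon
    have h10 : c' * Real.exp c' < c0 * Real.exp c0 :=
      mul_lt_mul h2 (Real.exp_le_exp.2 h2.le) (Real.exp_pos _) hc0.le
    linarith
  have hden := hD b A c0 r P f hb hA hslope hPL (-m) c ρ hc0' hc hcc hρ hmax
  rw [← hxdef] at hden
  refine ⟨hρr, ?_, -m, c, hc0', hcc, hc, hmax⟩
  -- `A c^2 ≤ 1 / 100`
  have hAc2 : A * c ^ 2 ≤ 1 / 100 := by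
    have h1 : A * c ^ 2 ≤ A * c0 ^ 2 :=
      mul_le_mul_of_nonneg_left (pow_le_pow_left₀ hc0' hcc.le 2) hA
    linarith
  have hAc3 : A * c ^ 3 ≤ 1 / 100 * c := by
    have := mul_le_mul_of_nonneg_right hAc2 hc0'
    nlinarith
  have hcx : c ≤ 51 / 50 * x := by
    have := (abs_le.1 hden).1
    linarith
  have hEx : A * (x ^ 3 / 3 + x ^ 4 / 4) ≤ A * (x ^ 3 * (1 + x)) := by
    refine mul_le_mul_of_nonneg_left ?_ hA
    have h1 : 0 < x ^ 3 := by positivity
    have h2 : 0 < x ^ 4 := by positivity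
    nlinarith
  have hEc : A * (c ^ 3 / 3 + c ^ 4 / 4) ≤ A * (x ^ 3 * (1 + x)) := by
    refine mul_le_mul_of_nonneg_left ?_ hA
    have h1 : c ^ 3 ≤ (51 / 50 * x) ^ 3 := pow_le_pow_left₀ hc0' hcx 3
    have h2 : c ^ 4 ≤ (51 / 50 * x) ^ 4 := pow_le_pow_left₀ hc0' hcx 4
    have h3 : 0 < x ^ 3 := by positivity
    have h4 : 0 < x ^ 4 := by positivity
    nlinarith
  -- upper bound
  have hup : b * f ρ ≤ (x - x * Real.log ρ - x ^ 2 / 2) + A * (x ^ 3 * (1 + x)) := by
    obtain ⟨μ, hμdef⟩ : ∃ μ, μ = Real.log x + x - Real.log b := ⟨_, rfl⟩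
    have hμ : x * Real.exp x = Real.exp μ * b := by
      rw [hμdef, Real.exp_sub, Real.exp_add, Real.exp_log hx0, Real.exp_log hb]
      field_simp
    have hxc : x ≤ c0 := by nlinarith [mul_pos hs hc0]
    have h1 := abs_le.1 (hpress μ x hx0.le hμ hxc)
    have h2 := (hPL μ).1 ρ hρ
    have h3 : b * f ρ ≤ b * (P μ - μ * ρ) := mul_le_mul_of_nonneg_left (by linarith) hb.le
    have h4 : b * (P μ - μ * ρ) = b * P μ - μ * x := by rw [hxdef]; ring
    have h5 : μ * x = x * Real.log ρ + x ^ 2 := by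
      rw [hμdef, hlogx]; ring
    have h6 := h1.2
    nlinarith
  -- lower bound
  have hlo : (x - x * Real.log ρ - x ^ 2 / 2) - A * (x ^ 3 * (1 + x)) ≤ b * f ρ := by
    have h1 := abs_le.1 ((hpress (-m) c hc0' hc hcc.le).trans hEc)
    have h3 : b * (P (-m) - (-m) * ρ) ≤ b * f ρ :=
      mul_le_mul_of_nonneg_left (by linarith) hb.le
    have h4 : b * (P (-m) - (-m) * ρ) = b * P (-m) - (-m) * x := by rw [hxdef]; ring
    have h5 : -m = Real.log c + c - Real.log b := by
      have := congrArg Real.log hc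
      rw [Real.log_mul hcpos.ne' (Real.exp_pos _).ne', Real.log_exp,
        Real.log_mul (Real.exp_pos _).ne' hb.ne', Real.log_exp] at this
      linarith
    have h6 := FreeAux.minim (b := b) hx0 hcpos
    rw [← h5, hlogx] at h6
    have h7 := h1.1
    nlinarith
  rw [abs_le]
  constructor <;> linarith

end Pool.Agent.HdGas
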