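import Pool.Agent.Lib.NT.Top
import Pool.Agent.Lib.MF.Bas
import Pool.Agent.Lib.MF.Meas
import Pool.Agent.Lib.MF.Int
import Pool.Agent.Lib.MF.YChi

/-!
# Hard-core gases, row YCHI2: the free volume with a relative error (helper18)
-/

set_option autoImplicit false

namespace Pool.Agent.HdGas

open MeasureTheory Filter Topology

namespace YC2

variable {S : Type} [MeasurableSpace S] {m : Measure S} {C : S → S → Prop} {L : Set S}
  {b κ lam : ℝ}

/-- Hard core and `z` is a place of `Tk`. -/
def A1 (C : S → S → Prop) (L : Set S) (u z : S) : Set (Om S) :=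
  {ω | hc C ω ∧ z ∈ Tk C L (Al S) u ω}

/-- Near `u` and excluding `z`. -/
def B1 (C : S → S → Prop) (u z : S) : Set S := {p | C u p ∧ C z p}

theorem meas_To (hG : Geo m C L b κ) (u : S) :
    MeasurableSet {r : Om S × S | r.2 ∈ Tk C L (Al S) u r.1} := by
  have hK : MeasurableSet {x : S | Al S x} := by
    have : {x : S | Al S x} = Set.univ := by
      ext x
      simp [Al]
    rw [this]
    exact MeasurableSet.univ
  exact (meas_T hG.meas hK hG.measL).preimage
    (f := fun r : Om S × S => (((u, r.2), r.1) : (S × S) × Om S))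
    ((measurable_const.prodMk measurable_snd).prodMk measurable_fst)

theorem meas_zA (hG : Geo m C L b κ) (hhc : MeasurableSet {ω : Om S | hc C ω}) (u : S) :
    MeasurableSet {q : S × Om S | q.2 ∈ A1 C L u q.1} := by
  have e : {q : S × Om S | q.2 ∈ A1 C L u q.1} = {q | hc C q.2} ∩
      {q | (q.2, q.1) ∈ {r : Om S × S | r.2 ∈ Tk C L (Al S) u r.1}} := by
    ext q
    simp [A1]
  rw [e]
  exact (hhc.preimage measurable_snd).inter
    ((meas_To hG u).preimage (measurable_snd.prodMk measurable_fst))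

omit [MeasurableSpace S] in
theorem Tk_perm (u : S) (n : ℕ) (x : Fin n → S) (σ : Equiv.Perm (Fin n)) :
    Tk C L (Al S) u ⟨n, x ∘ σ⟩ = Tk C L (Al S) u ⟨n, x⟩ := by
  ext z
  unfold Tk
  simp only [Set.mem_ofPred_eq]
  exact and_congr Iff.rfl (and_congr Iff.rfl (σ.forall_congr (fun i => Iff.rfl)))

/-- The main estimate. -/
theorem main [SigmaFinite m] (hG : Geo m C L b κ) (hlam : 0 ≤ lam) (u : S) :
    ∫⁻ ω, ∑ i, m {z | z ∈ Tk C L (Al S) u ω ∧ C u (ω.2 i) ∧ C z (ω.2 i)} ∂gib m C lam L ≤
      ENNReal.ofReal lam * (ENNReal.ofReal (2 * κ * b) *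
        ∫⁻ ω, m (Tk C L (Al S) u ω) ∂gib m C lam L) := by
  classical
  obtain ⟨hhc, hfp, -, -, -, -⟩ := bas S m C L lam hG.meas hG.measL hG.fin hlam
  set F : S → Om S → ENNReal := fun z => (A1 C L u z).indicator (fun _ => 1) with hF
  set g : S → S → ENNReal := fun z => (B1 C u z).indicator (fun _ => 1) with hg
  have hzA := meas_zA hG hhc u
  have hAm : ∀ z, MeasurableSet (A1 C L u z) := fun z => hzA.preimage measurable_prodMk_left
  have hB2 : MeasurableSet {q : S × S | q.2 ∈ B1 C u q.1} :=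
    (hG.meas.preimage (f := fun q : S × S => (u, q.2))
      (measurable_const.prodMk measurable_snd)).inter hG.meas
  have hBm : ∀ z, MeasurableSet (B1 C u z) := fun z => hB2.preimage measurable_prodMk_left
  have hFm : ∀ z, Measurable (F z) := fun z => measurable_const.indicator (hAm z)
  have hgm : ∀ z, Measurable (g z) := fun z => measurable_const.indicator (hBm z)
  -- first form
  have e1 : ∫⁻ ω, ∑ i, m {z | z ∈ Tk C L (Al S) u ω ∧ C u (ω.2 i) ∧ C z (ω.2 i)}
      ∂gib m C lam L = ∫⁻ ω, ∫⁻ z, F z ω * ∑ i, g z (ω.2 i) ∂m ∂pois m lam L := by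
    unfold gib
    rw [← lintegral_indicator hhc]
    refine lintegral_congr fun ω => ?_
    by_cases h : hc C ω
    · rw [Set.indicator_of_mem (show ω ∈ {ω : Om S | hc C ω} from h)]
      have e2 : ∀ z, F z ω * ∑ i, g z (ω.2 i) = ∑ i,
          {z | z ∈ Tk C L (Al S) u ω ∧ C u (ω.2 i) ∧ C z (ω.2 i)}.indicator
            (fun _ => (1 : ENNReal)) z := by
        intro z
        rw [Finset.mul_sum]
        refine Finset.sum_congr rfl fun i _ => ?_
        simp only [hF, hg]
        by_cases h1 : z ∈ Tk C L (Al S) u ω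
        · rw [Set.indicator_of_mem (show ω ∈ A1 C L u z from ⟨h, h1⟩), one_mul]
          by_cases h2 : C u (ω.2 i) ∧ C z (ω.2 i)
          · rw [Set.indicator_of_mem (show ω.2 i ∈ B1 C u z from h2),
              Set.indicator_of_mem (show z ∈ {z | z ∈ Tk C L (Al S) u ω ∧ C u (ω.2 i) ∧
                C z (ω.2 i)} from ⟨h1, h2⟩)]
          · rw [Set.indicator_of_notMem (show ω.2 i ∉ B1 C u z from h2),
              Set.indicator_of_notMem (show z ∉ {z | z ∈ Tk C L (Al S) u ω ∧ C u (ω.2 i) ∧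
                C z (ω.2 i)} from fun h3 => h2 h3.2)]
        · rw [Set.indicator_of_notMem (show ω ∉ A1 C L u z from fun h3 => h1 h3.2), zero_mul,
            Set.indicator_of_notMem (show z ∉ {z | z ∈ Tk C L (Al S) u ω ∧ C u (ω.2 i) ∧
                C z (ω.2 i)} from fun h3 => h1 h3.1)]
      simp only [e2]
      have hS : ∀ i, MeasurableSet {z | z ∈ Tk C L (Al S) u ω ∧ C u (ω.2 i) ∧ C z (ω.2 i)} := by
        intro i
        exact (hG.meas_Tk u ω).inter
          ((MeasurableSet.const (C u (ω.2 i))).inter (hG.meas_left (ω.2 i)))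
      rw [lintegral_finsetSum _ fun i _ => measurable_const.indicator (hS i)]
      refine Finset.sum_congr rfl fun i _ => ?_
      rw [lintegral_indicator_const (hS i), one_mul]
    · rw [Set.indicator_of_notMem (show ω ∉ {ω : Om S | hc C ω} from h)]
      symm
      rw [lintegral_eq_zero_of_ae_eq_zero]
      refine ae_of_all _ fun z => ?_
      simp only [hF]
      rw [Set.indicator_of_notMem (show ω ∉ A1 C L u z from fun h3 => h h3.1), zero_mul]
      rfl
  -- Mecke
  have hjm : Measurable fun q : S × Om S => F q.1 q.2 * ∑ i, g q.1 (q.2.2 i) := by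
    refine Measurable.mul ?_ ?_
    · have : (fun q : S × Om S => F q.1 q.2) =
          {q : S × Om S | q.2 ∈ A1 C L u q.1}.indicator (fun _ => 1) := by
        funext q
        simp only [hF, Set.indicator, Set.mem_ofPred_eq]
      rw [this]
      exact measurable_const.indicator hzA
    · refine measurable_prod_om fun n => ?_
      suffices hs : Measurable fun q : S × (Fin n → S) => ∑ i, g q.1 (q.2 i) from hs
      refine Finset.measurable_sum _ fun i _ => ?_
      have : (fun q : S × (Fin n → S) => g q.1 (q.2 i)) =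
          (fun r : S × S => {q : S × S | q.2 ∈ B1 C u q.1}.indicator
            (fun _ => (1 : ENNReal)) r) ∘ fun q : S × (Fin n → S) => (q.1, q.2 i) := by
        funext q
        simp only [hg, Set.indicator, Set.mem_ofPred_eq, Function.comp]
      rw [this]
      exact (measurable_const.indicator hB2).comp
        (measurable_fst.prodMk ((measurable_pi_apply i).comp measurable_snd))
  have hsw : ∫⁻ ω, ∫⁻ z, F z ω * ∑ i, g z (ω.2 i) ∂m ∂pois m lam L =
      ∫⁻ z, ∫⁻ ω, F z ω * ∑ i, g z (ω.2 i) ∂pois m lam L ∂m :=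
    lintegral_lintegral_swap (f := fun (ω : Om S) (z : S) => F z ω * ∑ i, g z (ω.2 i))
      (hjm.comp measurable_swap).aemeasurable
  have hFs : ∀ z, Sym (F z) := by
    intro z n x σ
    have h1 : ((⟨n, x ∘ σ⟩ : Om S) ∈ A1 C L u z) ↔ ((⟨n, x⟩ : Om S) ∈ A1 C L u z) := by
      unfold A1
      simp only [Set.mem_ofPred_eq, Tk_perm]
      rw [sym_hc C n x σ]
    simp only [hF, Set.indicator]
    by_cases h : (⟨n, x⟩ : Om S) ∈ A1 C L u z
    · rw [if_pos h, if_pos (h1.2 h)]
    · rw [if_neg h, if_neg fun h' => h (h1.1 h')]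
  have hmk : ∀ z, ∫⁻ ω, F z ω * ∑ i, g z (ω.2 i) ∂pois m lam L =
      ENNReal.ofReal lam * ∫⁻ p in L, g z p * ∫⁻ ω, F z (ins p ω) ∂pois m lam L ∂m := fun z =>
    mecke S m lam hlam L hG.measL (F z) (hFm z) (hFs z) (g z) (hgm z)
  -- the set of triples
  set W : Set (Om S × (S × S)) := {q | hc C q.1 ∧ q.2.1 ∈ Tk C L (Al S) u q.1 ∧
    q.2.2 ∈ Tk C L (Al S) u q.1 ∧ C q.2.1 q.2.2} with hW
  have hWm : MeasurableSet W := by
    refine (hhc.preimage measurable_fst).inter (MeasurableSet.inter ?_ (MeasurableSet.inter ?_ ?_))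
    · exact (meas_To hG u).preimage
        (measurable_fst.prodMk (measurable_fst.comp measurable_snd))
    · exact (meas_To hG u).preimage
        (measurable_fst.prodMk (measurable_snd.comp measurable_snd))
    · exact hG.meas.preimage measurable_snd
  have hins : ∀ z p : S, p ∈ L → g z p * ∫⁻ ω, F z (ins p ω) ∂pois m lam L ≤
      pois m lam L ((fun ω => (ω, (z, p))) ⁻¹' W) := by
    intro z p hp
    by_cases hgp : p ∈ B1 C u z
    · simp only [hg]
      rw [Set.indicator_of_mem hgp, one_mul]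
      calc ∫⁻ ω, F z (ins p ω) ∂pois m lam L
          ≤ ∫⁻ ω, ((fun ω => (ω, (z, p))) ⁻¹' W).indicator (fun _ => (1 : ENNReal)) ω
            ∂pois m lam L := by
            refine lintegral_mono fun ω => ?_
            simp only [hF]
            by_cases h : ins p ω ∈ A1 C L u z
            · rw [Set.indicator_of_mem h]
              obtain ⟨h1, h2, h3, h4⟩ := h
              obtain ⟨h5, h6⟩ := (hc_ins hG.symm p ω).1 h1
              have h7 : z ∈ Tk C L (Al S) u ω := by
                refine ⟨h2, h3, fun i hi hi' => ?_⟩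
                have := h4 i.succ hi
                simpa [ins] using this hi'
              have h8 : p ∈ Tk C L (Al S) u ω := ⟨hp, hgp.1, fun i hi _ => h6 i hi⟩
              rw [Set.indicator_of_mem
                (show ω ∈ ((fun ω => (ω, (z, p))) ⁻¹' W) from ⟨h5, h7, h8, hgp.2⟩)]
            · rw [Set.indicator_of_notMem h]
              exact bot_le
        _ = _ := by
            rw [lintegral_indicator_const (hWm.preimage measurable_prodMk_right), one_mul]
    · simp only [hg]
      rw [Set.indicator_of_notMem hgp, zero_mul]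
      exact bot_le
  have hsec : ∀ ω : Om S, (m.prod m) (Prod.mk ω ⁻¹' W) ≤
      {ω : Om S | hc C ω}.indicator
        (fun ω => ENNReal.ofReal (2 * κ * b) * m (Tk C L (Al S) u ω)) ω := by
    intro ω
    by_cases h : hc C ω
    · rw [Set.indicator_of_mem (show ω ∈ {ω : Om S | hc C ω} from h)]
      refine (measure_mono ?_).trans (hG.pair u (Tk C L (Al S) u ω) (hG.meas_Tk u ω)
        fun z hz => hz.2.1)
      rintro q ⟨-, h1, h2, h3⟩
      exact ⟨h1, h2, h3⟩
    · have : Prod.mk ω ⁻¹' W = ∅ := by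
        ext q
        simp only [hW, Set.mem_preimage, Set.mem_ofPred_eq, Set.mem_empty_iff_false, iff_false]
        exact fun h1 => h h1.1
      rw [this, measure_empty]
      exact bot_le
  rw [e1, hsw]
  calc ∫⁻ z, ∫⁻ ω, F z ω * ∑ i, g z (ω.2 i) ∂pois m lam L ∂m
      = ∫⁻ z, ENNReal.ofReal lam * ∫⁻ p in L, g z p * ∫⁻ ω, F z (ins p ω) ∂pois m lam L ∂m ∂m :=
        lintegral_congr hmk
    _ ≤ ∫⁻ z, ENNReal.ofReal lam *
          ∫⁻ p, pois m lam L ((fun ω => (ω, (z, p))) ⁻¹' W) ∂m ∂m := by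
        refine lintegral_mono fun z => mul_le_mul_right ?_ _
        refine (setLIntegral_mono' hG.measL fun p hp => hins z p hp).trans ?_
        exact setLIntegral_le_lintegral _ _
    _ = ENNReal.ofReal lam *
          ∫⁻ z, ∫⁻ p, pois m lam L ((fun ω => (ω, (z, p))) ⁻¹' W) ∂m ∂m :=
        lintegral_const_mul' _ _ ENNReal.ofReal_ne_top
    _ = ENNReal.ofReal lam * ((pois m lam L).prod (m.prod m)) W := by
        congr 1
        rw [Measure.prod_apply_symm hWm, lintegral_prod]
        exact (measurable_measure_prodMk_right hWm).aemeasurable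
    _ = ENNReal.ofReal lam * ∫⁻ ω, (m.prod m) (Prod.mk ω ⁻¹' W) ∂pois m lam L := by
        rw [Measure.prod_apply hWm]
    _ ≤ ENNReal.ofReal lam * ∫⁻ ω, {ω : Om S | hc C ω}.indicator
          (fun ω => ENNReal.ofReal (2 * κ * b) * m (Tk C L (Al S) u ω)) ω ∂pois m lam L :=
        mul_le_mul_right (lintegral_mono hsec) _
    _ = _ := by
        rw [lintegral_indicator hhc, lintegral_const_mul' _ _ ENNReal.ofReal_ne_top]
        rfl

theorem Tk_le2 (_ : Geo m C L b κ) (u : S) (ω : Om S) :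
    m (Tk C L (Al S) u ω) ≤ m (Fset C L u ω) +
      ∑ i, m {z | z ∈ Tk C L (Al S) u ω ∧ C u (ω.2 i) ∧ C z (ω.2 i)} := by
  calc m (Tk C L (Al S) u ω)
      ≤ m (Fset C L u ω ∪ ⋃ i, {z | z ∈ Tk C L (Al S) u ω ∧ C u (ω.2 i) ∧ C z (ω.2 i)}) := by
        apply measure_mono
        rintro z ⟨h1, h2, h3⟩
        by_cases h : fr C (Al S) z ω
        · exact Or.inl ⟨⟨h1, h2⟩, h⟩
        · right
          simp only [fr, Al, not_forall, not_not, true_implies] at h
          obtain ⟨i, hi⟩ := h
          rw [Set.mem_iUnion]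
          refine ⟨i, ⟨h1, h2, h3⟩, ?_, hi⟩
          by_contra hc
          exact h3 i trivial hc hi
    _ ≤ m (Fset C L u ω) +
          m (⋃ i, {z | z ∈ Tk C L (Al S) u ω ∧ C u (ω.2 i) ∧ C z (ω.2 i)}) :=
        measure_union_le _ _
    _ ≤ _ := by gcongr; exact measure_iUnion_fintype_le _ _

end YC2

open YC2 in
/-- Row YCHI2. -/
theorem ychi2 : YCHI2 := by
  intro S _ m _ C L b κ lam hG hlam u
  have hb := hG.b_pos
  have hk := hG.kap_pos
  obtain ⟨-, -, hfin, hXi, -, -⟩ := bas S m C L lam hG.meas hG.measL hG.fin hlam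
  obtain ⟨mchi, mY, -, -, -⟩ :=
    (meas S m C L lam hG.meas hG.measL hG.fin hlam).1 (Al S) (by
      have : {x : S | Al S x} = Set.univ := by
        ext x
        simp [Al]
      rw [this]
      exact MeasurableSet.univ)
  have hTfin : ∀ ω : Om S, m (Tk C L (Al S) u ω) ≠ ⊤ := fun ω =>
    ((measure_mono (Tk_sub u ω)).trans_lt (hG.near_ne_top u).lt_top).ne
  have hFfin : ∀ ω : Om S, m (Fset C L u ω) ≠ ⊤ := fun ω =>
    ((measure_mono ((Fset_sub u ω).trans (Tk_sub u ω))).trans_lt (hG.near_ne_top u).lt_top).ne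
  have hmT : Measurable fun ω : Om S => m (Tk C L (Al S) u ω) :=
    measurable_measure_prodMk_left (meas_To hG u)
  have hmchi : Measurable fun ω : Om S => ∫ v in {v | v ∈ L ∧ C u v}, chi C (Al S) v ω ∂m :=
    (mchi.stronglyMeasurable.integral_prod_left (μ := m.restrict {v | v ∈ L ∧ C u v})
      (f := fun v ω => chi C (Al S) v ω)).measurable
  set f : Om S → ℝ := fun ω => (m (Tk C L (Al S) u ω)).toReal -
    ∫ v in {v | v ∈ L ∧ C u v}, chi C (Al S) v ω ∂m with hf
  have hfm : Measurable f := hmT.ennreal_toReal.sub hmchi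
  have hfe : ∀ ω, f ω = (m (Tk C L (Al S) u ω)).toReal - (m (Fset C L u ω)).toReal := fun ω => by
    simp only [hf]
    rw [hG.intchi u ω]
  have hf0 : ∀ ω, 0 ≤ f ω := by
    intro ω
    rw [hfe]
    have := ENNReal.toReal_mono (hTfin ω) (measure_mono (Fset_sub (L := L) (C := C) u ω))
    linarith
  have hfle : ∀ ω, ENNReal.ofReal (f ω) ≤
      ∑ i, m {z | z ∈ Tk C L (Al S) u ω ∧ C u (ω.2 i) ∧ C z (ω.2 i)} := by
    intro ω
    rw [hfe, ENNReal.ofReal_sub _ ENNReal.toReal_nonneg, ENNReal.ofReal_toReal (hTfin ω),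
      ENNReal.ofReal_toReal (hFfin ω)]
    rw [tsub_le_iff_left]
    exact Tk_le2 hG u ω
  have hTint : Integrable (fun ω : Om S => (m (Tk C L (Al S) u ω)).toReal) (gib m C lam L) := by
    refine Integrable.of_bound hmT.ennreal_toReal.aestronglyMeasurable b (ae_of_all _ fun ω => ?_)
    rw [Real.norm_of_nonneg ENNReal.toReal_nonneg]
    exact hG.Tk_real_le u ω
  have hlT : ∫⁻ ω, m (Tk C L (Al S) u ω) ∂gib m C lam L =
      ENNReal.ofReal (∫ ω, (m (Tk C L (Al S) u ω)).toReal ∂gib m C lam L) := by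
    rw [ofReal_integral_eq_lintegral_ofReal hTint (ae_of_all _ fun ω => ENNReal.toReal_nonneg)]
    refine lintegral_congr fun ω => ?_
    rw [ENNReal.ofReal_toReal (hTfin ω)]
  have hI0 : 0 ≤ ∫ ω, (m (Tk C L (Al S) u ω)).toReal ∂gib m C lam L :=
    integral_nonneg fun ω => ENNReal.toReal_nonneg
  have hmain : ∫ ω, f ω ∂gib m C lam L ≤
      lam * (2 * κ * b * ∫ ω, (m (Tk C L (Al S) u ω)).toReal ∂gib m C lam L) := by
    rw [integral_eq_lintegral_of_nonneg_ae (ae_of_all _ hf0) hfm.aestronglyMeasurable]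
    refine ENNReal.toReal_le_of_le_ofReal (by positivity) ?_
    refine (lintegral_mono hfle).trans ((main hG hlam u).trans (le_of_eq ?_))
    rw [hlT, ← ENNReal.ofReal_mul (by positivity), ← ENNReal.ofReal_mul hlam]
  have hX0 : 0 < Xi m C lam L := lt_of_lt_of_le one_pos hXi
  unfold ex
  rw [mul_div_assoc', div_le_div_iff_of_pos_right hX0]
  have e1 : ∫ ω, (Yk m C lam L (Al S) u ω -
      lam * ∫ v in {v | v ∈ L ∧ C u v}, chi C (Al S) v ω ∂m) ∂gib m C lam L =
      lam * ∫ ω, f ω ∂gib m C lam L := by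
    rw [← integral_const_mul]
    refine integral_congr_ae (ae_of_all _ fun ω => ?_)
    simp only [hf, Yk]
    ring
  have e2 : ∫ ω, Yk m C lam L (Al S) u ω ∂gib m C lam L =
      lam * ∫ ω, (m (Tk C L (Al S) u ω)).toReal ∂gib m C lam L := by
    rw [← integral_const_mul]
    rfl
  rw [e1, e2]
  calc lam * ∫ ω, f ω ∂gib m C lam L ≤
      lam * (lam * (2 * κ * b * ∫ ω, (m (Tk C L (Al S) u ω)).toReal ∂gib m C lam L)) :=
        mul_le_mul_of_nonneg_left hmain hlam
    _ = _ := by ring

end Pool.Agent.HdGas
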