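import Pool.Agent.Lib.NT.Rows4
import Pool.Agent.Lib.NT.YChi2

/-!
# Lower bound for the free probability: row FREEV
-/

set_option autoImplicit false

namespace Pool.Agent.HdGas

open MeasureTheory Filter Topology

namespace Fv

open YC2

variable {S : Type} [MeasurableSpace S] {m : Measure S} {C : S → S → Prop} {L : Set S}
  {b κ lam : ℝ}

/-- The region near the second place, or near the first and not near `u`. -/
def Rg (C : S → S → Prop) (u : S) (p : S × S) : Set S :=
  {x | C p.2 x} ∪ ({x | C p.1 x} \ {x | C u x})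

/-- Pairs of places near `u`. -/
def Ps (C : S → S → Prop) (L : Set S) (u : S) : Set (S × S) :=
  {p : S × S | (p.1 ∈ L ∧ C u p.1) ∧ (p.2 ∈ L ∧ C u p.2) ∧ C p.1 p.2}

omit [MeasurableSpace S] in
theorem nV_zero {V : Set S} {ω : Om S} : nV V ω = 0 ↔ ∀ i, ω.2 i ∉ V := by
  classical
  unfold nV
  rw [Finset.card_eq_zero, Finset.filter_eq_empty_iff]
  exact ⟨fun h i => h (Finset.mem_univ i), fun h i _ => h i⟩

/-- Configurations and pairs of places. -/
def Wv (C : S → S → Prop) (L : Set S) (u : S) : Set (Om S × (S × S)) :=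
  {q | hc C q.1 ∧ q.2 ∈ Ps C L u ∧ ∀ i, q.1.2 i ∉ Rg C u q.2}

theorem meas_Ps (hG : Geo m C L b κ) (u : S) : MeasurableSet (Ps C L u) := by
  have hu : MeasurableSet {z : S | z ∈ L ∧ C u z} := hG.meas_near u
  exact (hu.preimage measurable_fst).inter ((hu.preimage measurable_snd).inter hG.meas)

theorem meas_Rg (hG : Geo m C L b κ) (u : S) :
    MeasurableSet {q : (S × S) × S | q.2 ∈ Rg C u q.1} := by
  have e : {q : (S × S) × S | q.2 ∈ Rg C u q.1} =
      {q | C q.1.2 q.2} ∪ ({q | C q.1.1 q.2} ∩ {q | C u q.2}ᶜ) := by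
    ext q
    simp [Rg]
  rw [e]
  refine MeasurableSet.union ?_ (MeasurableSet.inter ?_ (MeasurableSet.compl ?_))
  · exact hG.meas.preimage ((measurable_snd.comp measurable_fst).prodMk measurable_snd)
  · exact hG.meas.preimage ((measurable_fst.comp measurable_fst).prodMk measurable_snd)
  · exact hG.meas.preimage (measurable_const.prodMk measurable_snd)

theorem meas_N (hG : Geo m C L b κ) (u : S) :
    MeasurableSet {q : (S × S) × Om S | ∀ i, q.2.2 i ∉ Rg C u q.1} := by
  refine measurableSet_prod_om fun n => ?_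
  have e : {q : (S × S) × (Fin n → S) | (q.1, (⟨n, q.2⟩ : Om S)) ∈
      {q : (S × S) × Om S | ∀ i, q.2.2 i ∉ Rg C u q.1}} =
      ⋂ i : Fin n, ({q | (q.1, q.2 i) ∈ {q : (S × S) × S | q.2 ∈ Rg C u q.1}})ᶜ := by
    ext q
    simp
  rw [e]
  refine MeasurableSet.iInter fun i => MeasurableSet.compl ?_
  exact (meas_Rg hG u).preimage (f := fun q : (S × S) × (Fin n → S) => (q.1, q.2 i))
    (measurable_fst.prodMk ((measurable_pi_apply i).comp measurable_snd))

theorem meas_Nq (hG : Geo m C L b κ) (u : S) (q : S × S) :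
    MeasurableSet {ω : Om S | ∀ i, ω.2 i ∉ Rg C u q} :=
  (meas_N hG u).preimage (measurable_prodMk_left (x := q))

theorem meas_Wv (hG : Geo m C L b κ) (hhc : MeasurableSet {ω : Om S | hc C ω}) (u : S) :
    MeasurableSet (Wv C L u) :=
  (hhc.preimage measurable_fst).inter (((meas_Ps hG u).preimage measurable_snd).inter
    ((meas_N hG u).preimage (measurable_snd.prodMk measurable_fst)))

/-- The main estimate. -/
theorem main [SigmaFinite m] (hG : Geo m C L b κ) (hlam : 0 ≤ lam) (u : S) :
    ∫⁻ ω, ∑ i, m {z | z ∈ Tk C L (Al S) u ω ∧ C u (ω.2 i) ∧ C z (ω.2 i)} ∂gib m C lam L ≤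
      ENNReal.ofReal lam * ∫⁻ p in Ps C L u,
        gib m C lam L {ω | ∀ i, ω.2 i ∉ Rg C u p} ∂(m.prod m) := by
  classical
  obtain ⟨hhc, hfp, -, -, -, -⟩ := bas S m C L lam hG.meas hG.measL hG.fin hlam
  set F : S → Om S → ENNReal := fun z => (A1 C L u z).indicator (fun _ => 1) with hF
  set g : S → S → ENNReal := fun z => (B1 C u z).indicator (fun _ => 1) with hg
  have hzA := meas_zA hG hhc u
  have hAm : ∀ z, MeasurableSet (A1 C L u z) := fun z => hzA.preimage measurable_prodMk_left
  have hB2 : MeasurableSet {q : S × S | q.2 ∈ B1 C u q.1} :=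
    (hG.meas.preimage (f := fun q : S × S => (u, q.2))
      (measurable_const.prodMk measurable_snd)).inter hG.meas
  have hBm : ∀ z, MeasurableSet (B1 C u z) := fun z => hB2.preimage measurable_prodMk_left
  have hFm : ∀ z, Measurable (F z) := fun z => measurable_const.indicator (hAm z)
  have hgm : ∀ z, Measurable (g z) := fun z => measurable_const.indicator (hBm z)
  -- first form
  have e1 : ∫⁻ ω, ∑ i, m {z | z ∈ Tk C L (Al S) u ω ∧ C u (ω.2 i) ∧ C z (ω.2 i)}
      ∂gib m C lam L = ∫⁻ ω, ∫⁻ z, F z ω * ∑ i, g z (ω.2 i) ∂m ∂pois m lam L := by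
    unfold gib
    rw [← lintegral_indicator hhc]
    refine lintegral_congr fun ω => ?_
    by_cases h : hc C ω
    · rw [Set.indicator_of_mem (show ω ∈ {ω : Om S | hc C ω} from h)]
      have e2 : ∀ z, F z ω * ∑ i, g z (ω.2 i) = ∑ i,
          {z | z ∈ Tk C L (Al S) u ω ∧ C u (ω.2 i) ∧ C z (ω.2 i)}.indicator
            (fun _ => (1 : ENNReal)) z := by
        intro z
        rw [Finset.mul_sum]
        refine Finset.sum_congr rfl fun i _ => ?_
        simp only [hF, hg]
        by_cases h1 : z ∈ Tk C L (Al S) u ω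
        · rw [Set.indicator_of_mem (show ω ∈ A1 C L u z from ⟨h, h1⟩), one_mul]
          by_cases h2 : C u (ω.2 i) ∧ C z (ω.2 i)
          · rw [Set.indicator_of_mem (show ω.2 i ∈ B1 C u z from h2),
              Set.indicator_of_mem (show z ∈ {z | z ∈ Tk C L (Al S) u ω ∧ C u (ω.2 i) ∧
                C z (ω.2 i)} from ⟨h1, h2⟩)]
          · rw [Set.indicator_of_notMem (show ω.2 i ∉ B1 C u z from h2),
              Set.indicator_of_notMem (show z ∉ {z | z ∈ Tk C L (Al S) u ω ∧ C u (ω.2 i) ∧
                C z (ω.2 i)} from fun h3 => h2 h3.2)]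
        · rw [Set.indicator_of_notMem (show ω ∉ A1 C L u z from fun h3 => h1 h3.2), zero_mul,
            Set.indicator_of_notMem (show z ∉ {z | z ∈ Tk C L (Al S) u ω ∧ C u (ω.2 i) ∧
                C z (ω.2 i)} from fun h3 => h1 h3.1)]
      simp only [e2]
      have hS : ∀ i, MeasurableSet {z | z ∈ Tk C L (Al S) u ω ∧ C u (ω.2 i) ∧ C z (ω.2 i)} := by
        intro i
        exact (hG.meas_Tk u ω).inter
          ((MeasurableSet.const (C u (ω.2 i))).inter (hG.meas_left (ω.2 i)))
      rw [lintegral_finsetSum _ fun i _ => measurable_const.indicator (hS i)]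
      refine Finset.sum_congr rfl fun i _ => ?_
      rw [lintegral_indicator_const (hS i), one_mul]
    · rw [Set.indicator_of_notMem (show ω ∉ {ω : Om S | hc C ω} from h)]
      symm
      rw [lintegral_eq_zero_of_ae_eq_zero]
      refine ae_of_all _ fun z => ?_
      simp only [hF]
      rw [Set.indicator_of_notMem (show ω ∉ A1 C L u z from fun h3 => h h3.1), zero_mul]
      rfl
  -- Mecke
  have hjm : Measurable fun q : S × Om S => F q.1 q.2 * ∑ i, g q.1 (q.2.2 i) := by
    refine Measurable.mul ?_ ?_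
    · have : (fun q : S × Om S => F q.1 q.2) =
          {q : S × Om S | q.2 ∈ A1 C L u q.1}.indicator (fun _ => 1) := by
        funext q
        simp only [hF, Set.indicator, Set.mem_ofPred_eq]
      rw [this]
      exact measurable_const.indicator hzA
    · refine measurable_prod_om fun n => ?_
      suffices hs : Measurable fun q : S × (Fin n → S) => ∑ i, g q.1 (q.2 i) from hs
      refine Finset.measurable_sum _ fun i _ => ?_
      have : (fun q : S × (Fin n → S) => g q.1 (q.2 i)) =
          (fun r : S × S => {q : S × S | q.2 ∈ B1 C u q.1}.indicator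
            (fun _ => (1 : ENNReal)) r) ∘ fun q : S × (Fin n → S) => (q.1, q.2 i) := by
        funext q
        simp only [hg, Set.indicator, Set.mem_ofPred_eq, Function.comp]
      rw [this]
      exact (measurable_const.indicator hB2).comp
        (measurable_fst.prodMk ((measurable_pi_apply i).comp measurable_snd))
  have hsw : ∫⁻ ω, ∫⁻ z, F z ω * ∑ i, g z (ω.2 i) ∂m ∂pois m lam L =
      ∫⁻ z, ∫⁻ ω, F z ω * ∑ i, g z (ω.2 i) ∂pois m lam L ∂m :=
    lintegral_lintegral_swap (f := fun (ω : Om S) (z : S) => F z ω * ∑ i, g z (ω.2 i))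
      (hjm.comp measurable_swap).aemeasurable
  have hFs : ∀ z, Sym (F z) := by
    intro z n x σ
    have h1 : ((⟨n, x ∘ σ⟩ : Om S) ∈ A1 C L u z) ↔ ((⟨n, x⟩ : Om S) ∈ A1 C L u z) := by
      unfold A1
      simp only [Set.mem_ofPred_eq, Tk_perm]
      rw [sym_hc C n x σ]
    simp only [hF, Set.indicator]
    by_cases h : (⟨n, x⟩ : Om S) ∈ A1 C L u z
    · rw [if_pos h, if_pos (h1.2 h)]
    · rw [if_neg h, if_neg fun h' => h (h1.1 h')]
  have hmk : ∀ z, ∫⁻ ω, F z ω * ∑ i, g z (ω.2 i) ∂pois m lam L =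
      ENNReal.ofReal lam * ∫⁻ p in L, g z p * ∫⁻ ω, F z (ins p ω) ∂pois m lam L ∂m := fun z =>
    mecke S m lam hlam L hG.measL (F z) (hFm z) (hFs z) (g z) (hgm z)
  -- the set of triples
  set W : Set (Om S × (S × S)) := Wv C L u with hW
  have hWm : MeasurableSet W := meas_Wv hG hhc u
  have hins : ∀ z p : S, p ∈ L → g z p * ∫⁻ ω, F z (ins p ω) ∂pois m lam L ≤
      pois m lam L ((fun ω => (ω, (z, p))) ⁻¹' W) := by
    intro z p hp
    by_cases hgp : p ∈ B1 C u z
    · simp only [hg]
      rw [Set.indicator_of_mem hgp, one_mul]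
      calc ∫⁻ ω, F z (ins p ω) ∂pois m lam L
          ≤ ∫⁻ ω, ((fun ω => (ω, (z, p))) ⁻¹' W).indicator (fun _ => (1 : ENNReal)) ω
            ∂pois m lam L := by
            refine lintegral_mono fun ω => ?_
            simp only [hF]
            by_cases h : ins p ω ∈ A1 C L u z
            · rw [Set.indicator_of_mem h]
              obtain ⟨h1, h2, h3, h4⟩ := h
              obtain ⟨h5, h6⟩ := (hc_ins hG.symm p ω).1 h1
              have h7 : ∀ i, ¬ C u (ω.2 i) → ¬ C z (ω.2 i) := by
                intro i hi'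
                have := h4 i.succ trivial
                simpa [ins] using this hi'
              have h8 : ∀ i, ω.2 i ∉ Rg C u (z, p) := by
                rintro i (hi | hi)
                · exact h6 i trivial hi
                · exact h7 i hi.2 hi.1
              rw [Set.indicator_of_mem
                (show ω ∈ ((fun ω => (ω, (z, p))) ⁻¹' W) from
                  ⟨h5, ⟨⟨h2, h3⟩, ⟨hp, hgp.1⟩, hgp.2⟩, h8⟩)]
            · rw [Set.indicator_of_notMem h]
              exact bot_le
        _ = _ := by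
            rw [lintegral_indicator_const (hWm.preimage measurable_prodMk_right), one_mul]
    · simp only [hg]
      rw [Set.indicator_of_notMem hgp, zero_mul]
      exact bot_le
  have hsec : ∀ q : S × S, pois m lam L ((fun ω => (ω, q)) ⁻¹' W) =
      (Ps C L u).indicator (fun p => gib m C lam L {ω | ∀ i, ω.2 i ∉ Rg C u p}) q := by
    intro q
    by_cases h : q ∈ Ps C L u
    · rw [Set.indicator_of_mem h]
      have hs : MeasurableSet {ω : Om S | ∀ i, ω.2 i ∉ Rg C u q} := meas_Nq hG u q
      unfold gib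
      rw [Measure.restrict_apply hs]
      congr 1
      ext ω
      constructor
      · rintro ⟨h1, -, h3⟩
        exact ⟨h3, h1⟩
      · rintro ⟨h3, h1⟩
        exact ⟨h1, h, h3⟩
    · rw [Set.indicator_of_notMem h]
      have : (fun ω : Om S => (ω, q)) ⁻¹' W = ∅ := by
        ext ω
        simp only [Set.mem_preimage, Set.mem_empty_iff_false, iff_false]
        exact fun h1 => h h1.2.1
      rw [this, measure_empty]
  rw [e1, hsw]
  calc ∫⁻ z, ∫⁻ ω, F z ω * ∑ i, g z (ω.2 i) ∂pois m lam L ∂m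
      = ∫⁻ z, ENNReal.ofReal lam * ∫⁻ p in L, g z p * ∫⁻ ω, F z (ins p ω) ∂pois m lam L ∂m ∂m :=
        lintegral_congr hmk
    _ ≤ ∫⁻ z, ENNReal.ofReal lam *
          ∫⁻ p, pois m lam L ((fun ω => (ω, (z, p))) ⁻¹' W) ∂m ∂m := by
        refine lintegral_mono fun z => mul_le_mul_right ?_ _
        refine (setLIntegral_mono' hG.measL fun p hp => hins z p hp).trans ?_
        exact setLIntegral_le_lintegral _ _
    _ = ENNReal.ofReal lam *
          ∫⁻ z, ∫⁻ p, pois m lam L ((fun ω => (ω, (z, p))) ⁻¹' W) ∂m ∂m :=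
        lintegral_const_mul' _ _ ENNReal.ofReal_ne_top
    _ = ENNReal.ofReal lam * ∫⁻ q, pois m lam L ((fun ω => (ω, q)) ⁻¹' W) ∂(m.prod m) := by
        congr 1
        rw [lintegral_prod]
        exact (measurable_measure_prodMk_right hWm).aemeasurable
    _ = ENNReal.ofReal lam * ∫⁻ p in Ps C L u,
          gib m C lam L {ω | ∀ i, ω.2 i ∉ Rg C u p} ∂(m.prod m) := by
        congr 1
        rw [← lintegral_indicator (meas_Ps hG u)]
        exact lintegral_congr hsec

end Fv

open YC2 Fv in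
/-- Row FREEV. -/
theorem freev_of (hMa : MARKOV) (hM : MEAS) (hB : BAS) : FREEV := by
  classical
  intro S _ m _ C L b κ lam hG hlam u q hq0 hq
  have hb := hG.b_pos
  obtain ⟨hhc, hfp, hfin, hXi, -, -⟩ := hB S m C L lam hG.meas hG.measL hG.fin hlam
  obtain ⟨hM1, hM2⟩ := hM S m C L lam hG.meas hG.measL hG.fin hlam
  obtain ⟨mchi, mY, -, mTk, -⟩ := hM1 (Al S) MeasurableSet.univ
  set G := gib m C lam L with hGdef
  set X := Xi m C lam L with hX
  have hX0 : 0 < X := by linarith
  have hone : ex m C lam L (fun _ => (1 : ℝ)) = 1 := by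
    unfold ex
    rw [integral_const, smul_eq_mul, mul_one]
    exact div_self hX0.ne'
  have hchi01 := fun v ω => chi_mem (C := C) (Al S) v ω
  have hYb : ∀ ω, Yk m C lam L (Al S) u ω ≤ lam * b := by
    intro ω
    exact mul_le_mul_of_nonneg_left (hG.Tk_real_le u ω) hlam
  have hY0 : ∀ ω, 0 ≤ Yk m C lam L (Al S) u ω := fun ω => Yk_nonneg hlam (Al S) u ω
  have IY : Integrable (Yk m C lam L (Al S) u) G := by
    refine Integrable.of_bound (mY.comp measurable_prodMk_left).aestronglyMeasurable (lam * b)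
      (ae_of_all _ fun ω => ?_)
    rw [Real.norm_eq_abs, abs_of_nonneg (hY0 ω)]
    exact hYb ω
  have Ione : Integrable (fun _ : Om S => (1 : ℝ)) G := integrable_const 1
  set y := ex m C lam L (Yk m C lam L (Al S) u) with hy
  set nv := lam * ∫ z in {z | z ∈ L ∧ C u z}, ex m C lam L (chi C (Al S) z) ∂m with hnv
  -- the pairs
  have hTfin : ∀ ω : Om S, m (Tk C L (Al S) u ω) ≠ ⊤ := fun ω =>
    ((measure_mono (Tk_sub u ω)).trans_lt (hG.near_ne_top u).lt_top).ne
  have hFfin : ∀ ω : Om S, m (Fset C L u ω) ≠ ⊤ := fun ω =>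
    ((measure_mono ((Fset_sub u ω).trans (Tk_sub u ω))).trans_lt (hG.near_ne_top u).lt_top).ne
  have hmT : Measurable fun ω : Om S => m (Tk C L (Al S) u ω) :=
    measurable_measure_prodMk_left (meas_To hG u)
  have mi : Measurable fun ω => ∫ z in {z | z ∈ L ∧ C u z}, chi C (Al S) z ω ∂m :=
    (mchi.stronglyMeasurable.integral_prod_left (μ := m.restrict {z | z ∈ L ∧ C u z})
      (f := fun z ω => chi C (Al S) z ω)).measurable
  set f : Om S → ℝ := fun ω => (m (Tk C L (Al S) u ω)).toReal -
    ∫ v in {v | v ∈ L ∧ C u v}, chi C (Al S) v ω ∂m with hf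
  have hfm : Measurable f := hmT.ennreal_toReal.sub mi
  have hfe : ∀ ω, f ω = (m (Tk C L (Al S) u ω)).toReal - (m (Fset C L u ω)).toReal := fun ω => by
    simp only [hf]
    rw [hG.intchi u ω]
  have hf0 : ∀ ω, 0 ≤ f ω := by
    intro ω
    rw [hfe]
    have := ENNReal.toReal_mono (hTfin ω) (measure_mono (Fset_sub (L := L) (C := C) u ω))
    linarith
  have hfle : ∀ ω, ENNReal.ofReal (f ω) ≤
      ∑ i, m {z | z ∈ Tk C L (Al S) u ω ∧ C u (ω.2 i) ∧ C z (ω.2 i)} := by
    intro ω
    rw [hfe, ENNReal.ofReal_sub _ ENNReal.toReal_nonneg, ENNReal.ofReal_toReal (hTfin ω),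
      ENNReal.ofReal_toReal (hFfin ω)]
    rw [tsub_le_iff_left]
    exact Tk_le2 hG u ω
  have hgibn : ∀ p : S × S, G {ω | ∀ i, ω.2 i ∉ Rg C u p} =
      ENNReal.ofReal X * ENNReal.ofReal (ex m C lam L (emv (Rg C u p))) := by
    intro p
    have hs : MeasurableSet {ω : Om S | ∀ i, ω.2 i ∉ Rg C u p} := meas_Nq hG u p
    have e1 : (emv (Rg C u p) : Om S → ℝ) =
        {ω : Om S | ∀ i, ω.2 i ∉ Rg C u p}.indicator (fun _ => (1 : ℝ)) := by
      funext ω
      unfold emv
      by_cases h : ∀ i, ω.2 i ∉ Rg C u p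
      · rw [Set.indicator_of_mem (show ω ∈ {ω : Om S | ∀ i, ω.2 i ∉ Rg C u p} from h),
          if_pos (nV_zero.2 h)]
      · rw [Set.indicator_of_notMem (show ω ∉ {ω : Om S | ∀ i, ω.2 i ∉ Rg C u p} from h),
          if_neg fun h' => h (nV_zero.1 h')]
    have e2 : ∫ ω, emv (Rg C u p) ω ∂G = (G {ω | ∀ i, ω.2 i ∉ Rg C u p}).toReal := by
      rw [e1, integral_indicator_const _ hs, smul_eq_mul, mul_one]
      rfl
    rw [← ENNReal.ofReal_mul hX0.le]
    unfold ex
    rw [mul_div_cancel₀ _ hX0.ne', e2, ENNReal.ofReal_toReal (measure_ne_top _ _)]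
  have hmain : ∫ ω, f ω ∂G ≤ lam * (X * q) := by
    rw [integral_eq_lintegral_of_nonneg_ae (ae_of_all _ hf0) hfm.aestronglyMeasurable]
    refine ENNReal.toReal_le_of_le_ofReal (by positivity) ?_
    refine (lintegral_mono hfle).trans ((Fv.main hG hlam u).trans ?_)
    rw [ENNReal.ofReal_mul hlam, ENNReal.ofReal_mul hX0.le]
    refine mul_le_mul_right ?_ _
    calc ∫⁻ p in Ps C L u, G {ω | ∀ i, ω.2 i ∉ Rg C u p} ∂(m.prod m) =
        ∫⁻ p in Ps C L u, ENNReal.ofReal X *
          ENNReal.ofReal (ex m C lam L (emv (Rg C u p))) ∂(m.prod m) :=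
          lintegral_congr hgibn
      _ = ENNReal.ofReal X * ∫⁻ p in Ps C L u,
          ENNReal.ofReal (ex m C lam L (emv (Rg C u p))) ∂(m.prod m) :=
          lintegral_const_mul' _ _ ENNReal.ofReal_ne_top
      _ ≤ _ := mul_le_mul_right hq _
  have s3 : y ≤ nv + lam ^ 2 * q := by
    have hAm : MeasurableSet {z | z ∈ L ∧ C u z} := hG.meas_near u
    have hAf : IsFiniteMeasure (m.restrict {z | z ∈ L ∧ C u z}) :=
      ⟨by rw [Measure.restrict_apply_univ]; exact (hG.near_ne_top u).lt_top⟩
    have t1 : ex m C lam L (fun ω => Yk m C lam L (Al S) u ω -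
        lam * ∫ z in {z | z ∈ L ∧ C u z}, chi C (Al S) z ω ∂m) ≤ lam ^ 2 * q := by
      have e1 : ∫ ω, (Yk m C lam L (Al S) u ω -
          lam * ∫ v in {v | v ∈ L ∧ C u v}, chi C (Al S) v ω ∂m) ∂G =
          lam * ∫ ω, f ω ∂G := by
        rw [← integral_const_mul]
        refine integral_congr_ae (ae_of_all _ fun ω => ?_)
        simp only [hf, Yk]
        ring
      unfold ex
      rw [e1, div_le_iff₀ hX0]
      calc lam * ∫ ω, f ω ∂G ≤ lam * (lam * (X * q)) := mul_le_mul_of_nonneg_left hmain hlam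
        _ = _ := by ring
    have Ii : Integrable (fun ω => ∫ z in {z | z ∈ L ∧ C u z}, chi C (Al S) z ω ∂m) G := by
      refine Integrable.of_bound mi.aestronglyMeasurable b (ae_of_all _ fun ω => ?_)
      rw [hG.intchi u ω, Real.norm_eq_abs, abs_of_nonneg ENNReal.toReal_nonneg]
      exact ENNReal.toReal_le_of_le_ofReal hb.le
        ((measure_mono ((Fset_sub u ω).trans (Tk_sub u ω))).trans (hG.near_le u))
    have t2 : ex m C lam L (fun ω => Yk m C lam L (Al S) u ω -
        lam * ∫ z in {z | z ∈ L ∧ C u z}, chi C (Al S) z ω ∂m) =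
        y - lam * ex m C lam L (fun ω => ∫ z in {z | z ∈ L ∧ C u z},
          chi C (Al S) z ω ∂m) := by
      have : (fun ω => Yk m C lam L (Al S) u ω -
        lam * ∫ z in {z | z ∈ L ∧ C u z}, chi C (Al S) z ω ∂m) =
        fun ω => Yk m C lam L (Al S) u ω +
          (-lam) * ∫ z in {z | z ∈ L ∧ C u z}, chi C (Al S) z ω ∂m := by
        funext ω
        ring
      rw [this, ex_add_of IY (Ii.const_mul _), ex_mul_left]
      simp only [hy]
      ring
    have t3 : ex m C lam L (fun ω => ∫ z in {z | z ∈ L ∧ C u z}, chi C (Al S) z ω ∂m) =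
        ∫ z in {z | z ∈ L ∧ C u z}, ex m C lam L (chi C (Al S) z) ∂m := by
      have u1 : ∫ ω, ∫ z in {z | z ∈ L ∧ C u z}, chi C (Al S) z ω ∂m ∂G =
          ∫ z in {z | z ∈ L ∧ C u z}, ∫ ω, chi C (Al S) z ω ∂G ∂m := by
        apply integral_integral_swap
        refine Integrable.of_bound ?_ 1 (ae_of_all _ fun q => ?_)
        · exact (mchi.comp measurable_swap).aestronglyMeasurable
        · simp only [Function.uncurry]
          rw [Real.norm_eq_abs, abs_of_nonneg (hchi01 _ _).1]
          exact (hchi01 _ _).2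
      unfold ex
      rw [u1, ← integral_div]
    rw [t2, t3] at t1
    rw [hnv]
    linarith
  -- Jensen
  have q1 : Real.exp (-y) ≤ ex m C lam L (chi C (Al S) u) := by
    have h1 := hMa S m C L b κ lam hG hlam u (fun _ => 1) measurable_const
      (fun _ _ _ => rfl) ⟨1, fun _ => by simp⟩ (fun _ _ _ => rfl)
    simp only [mul_one] at h1
    have hT : ∀ ω, 1 ≤ Xi m C lam (Tk C L (Al S) u ω) ∧
        Xi m C lam (Tk C L (Al S) u ω) ≤ Real.exp (Yk m C lam L (Al S) u ω) := by
      intro ω
      obtain ⟨-, -, -, h2, h3, -⟩ := hB S m C (Tk C L (Al S) u ω) lam hG.meas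
        (mTk u ω) (hTfin ω) hlam
      exact ⟨h2, h3⟩
    have h4 : ex m C lam L (fun ω => Real.exp (-y) * (1 + y) * 1 +
        (-Real.exp (-y)) * Yk m C lam L (Al S) u ω) ≤
        ex m C lam L (fun ω => 1 / Xi m C lam (Tk C L (Al S) u ω)) := by
      apply ex_mono_of ((Ione.const_mul _).add (IY.const_mul _))
      · refine Integrable.of_bound ((hM2 u).const_div 1).aestronglyMeasurable 1
          (ae_of_all _ fun ω => ?_)
        rw [Real.norm_eq_abs, abs_of_nonneg (by have := (hT ω).1; positivity)]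
        rw [div_le_one (by linarith [(hT ω).1])]
        exact (hT ω).1
      · intro ω
        have h5 : Real.exp (-Yk m C lam L (Al S) u ω) ≤
            1 / Xi m C lam (Tk C L (Al S) u ω) := by
          rw [Real.exp_neg, ← one_div]
          exact one_div_le_one_div_of_le (by linarith [(hT ω).1]) (hT ω).2
        refine le_trans ?_ h5
        have h6 := Real.add_one_le_exp (y - Yk m C lam L (Al S) u ω)
        have h7 : Real.exp (-Yk m C lam L (Al S) u ω) =
            Real.exp (-y) * Real.exp (y - Yk m C lam L (Al S) u ω) := by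
          rw [← Real.exp_add]
          congr 1
          ring
        rw [h7]
        calc Real.exp (-y) * (1 + y) * 1 + -Real.exp (-y) * Yk m C lam L (Al S) u ω =
            Real.exp (-y) * (y - Yk m C lam L (Al S) u ω + 1) := by ring
          _ ≤ _ := mul_le_mul_of_nonneg_left h6 (Real.exp_pos (-y)).le
    rw [ex_add_of (Ione.const_mul _) (IY.const_mul _), ex_mul_left, ex_mul_left, hone,
      ← h1, ← hy] at h4
    calc Real.exp (-y) = Real.exp (-y) * (1 + y) * 1 + -Real.exp (-y) * y := by ring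
      _ ≤ _ := h4
  refine le_trans (Real.exp_le_exp.2 ?_) q1
  linarith

end Pool.Agent.HdGas
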