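import Pool.Agent.Lib.NT.Top3
import Pool.Agent.Lib.MF.Fou2
import Pool.Agent.Lib.MF.Ep2
import Pool.Agent.Lib.MF.RowPhi

/-!
# Row PHI7 (helper72): `Φ ≥ -e^(-29 d/200)` in high dimension

`Φ'' + ((d+1)/s) Φ' + Φ = 0`. With `w = -Φ'/Φ` one has `(s^(d+1) w)' = s^(d+1) (1 + w²)` on
`(0, (d+1)/2)`; three iterations starting from `0` bound `w` from below, and the energy
`Φ² + Φ'²` decreases.
-/

set_option autoImplicit false

namespace Pool.Agent.MF.Fou

open Set Real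

noncomputable section

namespace Ph7

variable {d : ℕ} {C S K : ℝ → ℝ}

/-- one step of the iteration. -/
theorem step (h : Sys d C S K) {t : ℝ} (hC : ∀ s ∈ Icc 0 t, 0 ≤ C s) {v w w' : ℝ → ℝ}
    (hw : ∀ s, HasDerivAt w (w' s) s)
    (hw0 : ∀ s ∈ Icc 0 t, 0 ≤ w s)
    (hv : ∀ s ∈ Icc 0 t, v s * C s ≤ S s)
    (hh : ∀ s ∈ Ioo 0 t, s * w' s + (d + 1) * w s ≤ s * (1 + w s * v s)) (hw00 : w 0 = 0) :
    ∀ s ∈ Icc 0 t, w s * C s ≤ S s := by
  intro s hs
  rcases eq_or_lt_of_le hs.1 with h0 | h0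
  · rw [← h0, h.S0, hw00, zero_mul]
  have hder : ∀ x, HasDerivAt (fun x => x ^ (d + 1) * S x - x ^ (d + 1) * (w x * C x))
      (x ^ (d + 1) * C x - (((d : ℝ) + 1) * x ^ d * (w x * C x) +
        x ^ (d + 1) * (w' x * C x + w x * (-S x)))) x := by
    intro x
    have h1 := (h.hP x).sub ((hasDerivAt_pow (d + 1) x).mul ((hw x).mul (h.hC x)))
    refine h1.congr_deriv ?_
    simp only [Nat.cast_add, Nat.cast_one, Nat.add_sub_cancel, Pi.mul_apply]
  have hm : MonotoneOn (fun x => x ^ (d + 1) * S x - x ^ (d + 1) * (w x * C x)) (Icc 0 t) := by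
    refine monotoneOn_of_deriv_nonneg (convex_Icc 0 t)
      (fun x _ => (hder x).continuousAt.continuousWithinAt)
      (fun x _ => (hder x).differentiableAt.differentiableWithinAt) fun x hx => ?_
    rw [(hder x).deriv]
    rw [interior_Icc] at hx
    have hxI : x ∈ Icc 0 t := ⟨hx.1.le, hx.2.le⟩
    have e1 : x ^ (d + 1) * C x - (((d : ℝ) + 1) * x ^ d * (w x * C x) +
        x ^ (d + 1) * (w' x * C x + w x * (-S x))) =
        x ^ d * (C x * (x * (1 + w x * v x) - (x * w' x + (d + 1) * w x)) +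
          x * w x * (S x - v x * C x)) := by
      rw [pow_succ]
      ring
    rw [e1]
    refine mul_nonneg (pow_nonneg hx.1.le _) (add_nonneg (mul_nonneg (hC x hxI) ?_)
      (mul_nonneg (mul_nonneg hx.1.le (hw0 x hxI)) ?_))
    · linarith [hh x hx]
    · linarith [hv x hxI]
  have h1 := hm ⟨le_refl 0, hs.1.trans hs.2⟩ hs hs.1
  simp only [ne_eq, Nat.add_eq_zero_iff, one_ne_zero, and_false, not_false_eq_true, zero_pow,
    zero_mul, sub_zero] at h1
  have h2 : s ^ (d + 1) * S s - s ^ (d + 1) * (w s * C s) = s ^ (d + 1) * (S s - w s * C s) := by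
    ring
  rw [h2] at h1
  have := (mul_nonneg_iff_of_pos_left (pow_pos h0 _)).1 h1
  linarith

/-- the coefficients. -/
def a1 (d : ℕ) : ℝ := 1 / (d + 2)

/-- the coefficients. -/
def a2 (d : ℕ) : ℝ := 1 / ((d + 2) ^ 2 * (d + 4))

/-- the coefficients. -/
def a3 (d : ℕ) : ℝ := 2 / ((d + 2) ^ 3 * (d + 4) * (d + 6))

theorem a1_pos (d : ℕ) : 0 < a1 d := by unfold a1; positivity

theorem a2_pos (d : ℕ) : 0 < a2 d := by unfold a2; positivity

theorem a3_pos (d : ℕ) : 0 < a3 d := by unfold a3; positivity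

theorem a1_eq (d : ℕ) : a1 d * (d + 2) = 1 := by
  unfold a1
  have : (d : ℝ) + 2 ≠ 0 := by positivity
  field_simp

theorem a2_eq (d : ℕ) : a2 d * (d + 4) = a1 d * a1 d := by
  unfold a1 a2
  have : (d : ℝ) + 2 ≠ 0 := by positivity
  have : (d : ℝ) + 4 ≠ 0 := by positivity
  field_simp

theorem a3_eq (d : ℕ) : a3 d * (d + 6) = 2 * (a1 d * a2 d) := by
  unfold a1 a2 a3
  have : (d : ℝ) + 2 ≠ 0 := by positivity
  have : (d : ℝ) + 4 ≠ 0 := by positivity
  have : (d : ℝ) + 6 ≠ 0 := by positivity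
  field_simp

theorem w1 (h : Sys d C S K) {t : ℝ} (hC : ∀ s ∈ Icc 0 t, 0 ≤ C s) :
    ∀ s ∈ Icc 0 t, a1 d * s * C s ≤ S s := by
  have hS := h.S_nonneg hC
  refine step h hC (v := fun _ => 0) (w := fun s => a1 d * s) (w' := fun _ => a1 d)
    (fun s => ?_) (fun s hs => mul_nonneg (a1_pos d).le hs.1) (fun s hs => by simpa using hS s hs)
    (fun s hs => ?_) (by simp)
  · simpa using (hasDerivAt_id s).const_mul (a1 d)
  · have := a1_eq d
    have e : s * a1 d + ((d : ℝ) + 1) * (a1 d * s) = s * (a1 d * (d + 2)) := by ring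
    rw [e, this]
    simp

theorem w2 (h : Sys d C S K) {t : ℝ} (hC : ∀ s ∈ Icc 0 t, 0 ≤ C s) :
    ∀ s ∈ Icc 0 t, (a1 d * s + a2 d * s ^ 3) * C s ≤ S s := by
  have p1 := (a1_pos d).le
  have p2 := (a2_pos d).le
  refine step h hC (v := fun s => a1 d * s) (w := fun s => a1 d * s + a2 d * s ^ 3)
    (w' := fun s => a1 d + a2 d * (3 * s ^ 2))
    (fun s => ?_) (fun s hs => ?_) (w1 h hC) (fun s hs => ?_) (by simp)
  · have h1 := ((hasDerivAt_id s).const_mul (a1 d)).add ((hasDerivAt_pow 3 s).const_mul (a2 d))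
    refine h1.congr_deriv ?_
    simp
  · have := hs.1
    positivity
  · have hs0 := hs.1.le
    have e : s * (a1 d + a2 d * (3 * s ^ 2)) + ((d : ℝ) + 1) * (a1 d * s + a2 d * s ^ 3) =
        s * (a1 d * (d + 2)) + s ^ 3 * (a2 d * (d + 4)) := by ring
    rw [e, a1_eq, a2_eq]
    have e2 : s * (1 + (a1 d * s + a2 d * s ^ 3) * (a1 d * s)) =
        s * 1 + s ^ 3 * (a1 d * a1 d) + a1 d * a2 d * s ^ 5 := by ring
    rw [e2]
    have : 0 ≤ a1 d * a2 d * s ^ 5 := by positivity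
    linarith

theorem w3 (h : Sys d C S K) {t : ℝ} (hC : ∀ s ∈ Icc 0 t, 0 ≤ C s) :
    ∀ s ∈ Icc 0 t, (a1 d * s + a2 d * s ^ 3 + a3 d * s ^ 5) * C s ≤ S s := by
  have p1 := (a1_pos d).le
  have p2 := (a2_pos d).le
  have p3 := (a3_pos d).le
  refine step h hC (v := fun s => a1 d * s + a2 d * s ^ 3)
    (w := fun s => a1 d * s + a2 d * s ^ 3 + a3 d * s ^ 5)
    (w' := fun s => a1 d + a2 d * (3 * s ^ 2) + a3 d * (5 * s ^ 4))
    (fun s => ?_) (fun s hs => ?_) (w2 h hC) (fun s hs => ?_) (by simp)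
  · have h1 := (((hasDerivAt_id s).const_mul (a1 d)).add
      ((hasDerivAt_pow 3 s).const_mul (a2 d))).add ((hasDerivAt_pow 5 s).const_mul (a3 d))
    refine h1.congr_deriv ?_
    simp
  · have := hs.1
    positivity
  · have hs0 := hs.1.le
    have e : s * (a1 d + a2 d * (3 * s ^ 2) + a3 d * (5 * s ^ 4)) +
        ((d : ℝ) + 1) * (a1 d * s + a2 d * s ^ 3 + a3 d * s ^ 5) =
        s * (a1 d * (d + 2)) + s ^ 3 * (a2 d * (d + 4)) + s ^ 5 * (a3 d * (d + 6)) := by ring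
    rw [e, a1_eq, a2_eq, a3_eq]
    have e2 : s * (1 + (a1 d * s + a2 d * s ^ 3 + a3 d * s ^ 5) * (a1 d * s + a2 d * s ^ 3)) =
        s * 1 + s ^ 3 * (a1 d * a1 d) + s ^ 5 * (2 * (a1 d * a2 d)) +
          (a2 d * a2 d * s ^ 7 + a3 d * a1 d * s ^ 7 + a3 d * a2 d * s ^ 9) := by ring
    rw [e2]
    have : 0 ≤ a2 d * a2 d * s ^ 7 + a3 d * a1 d * s ^ 7 + a3 d * a2 d * s ^ 9 := by positivity
    linarith

/-- the exponent. -/
def E (d : ℕ) (s : ℝ) : ℝ := a1 d * (s ^ 2 / 2) + a2 d * (s ^ 4 / 4) + a3 d * (s ^ 6 / 6)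

theorem hE (d : ℕ) (s : ℝ) :
    HasDerivAt (E d) (a1 d * s + a2 d * s ^ 3 + a3 d * s ^ 5) s := by
  unfold E
  have h1 := ((((hasDerivAt_pow 2 s).div_const 2).const_mul (a1 d)).add
      (((hasDerivAt_pow 4 s).div_const 4).const_mul (a2 d))).add
      (((hasDerivAt_pow 6 s).div_const 6).const_mul (a3 d))
  refine h1.congr_deriv ?_
  simp only [Nat.cast_ofNat, Nat.add_one_sub_one, pow_one]
  ring

theorem C_le (h : Sys d C S K) {t : ℝ} (ht : 0 ≤ t) (hC : ∀ s ∈ Icc 0 t, 0 ≤ C s) :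
    C t ≤ exp (-(E d t)) * C 0 := by
  have hw := w3 h hC
  have hder2 : ∀ x, HasDerivAt (fun x => C x * exp (E d x))
      (-S x * exp (E d x) + C x * (exp (E d x) * (a1 d * x + a2 d * x ^ 3 + a3 d * x ^ 5))) x :=
    fun x => (h.hC x).mul (hE d x).exp
  have hm : AntitoneOn (fun x => C x * exp (E d x)) (Icc 0 t) := by
    refine antitoneOn_of_deriv_nonpos (convex_Icc 0 t)
      (fun x _ => (hder2 x).continuousAt.continuousWithinAt)
      (fun x _ => (hder2 x).differentiableAt.differentiableWithinAt) fun x hx => ?_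
    rw [(hder2 x).deriv]
    rw [interior_Icc] at hx
    have h1 := hw x ⟨hx.1.le, hx.2.le⟩
    have h2 : -S x * exp (E d x) +
        C x * (exp (E d x) * (a1 d * x + a2 d * x ^ 3 + a3 d * x ^ 5)) =
        -(exp (E d x) * (S x - (a1 d * x + a2 d * x ^ 3 + a3 d * x ^ 5) * C x)) := by
      ring
    rw [h2]
    exact neg_nonpos.2 (mul_nonneg (exp_pos _).le (by linarith))
  have h1 := hm ⟨le_refl 0, ht⟩ ⟨ht, le_refl t⟩ ht
  have e0 : E d 0 = 0 := by unfold E; norm_num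
  simp only [e0, exp_zero, mul_one] at h1
  rw [exp_neg, inv_mul_eq_div, le_div_iff₀ (exp_pos _)]
  exact h1

/-- the lower bound. -/
theorem bound (h : Sys d C S K) (s : ℝ) (hs : 0 ≤ s) :
    -(√2 * exp (-(E d ((d + 1) / 2)))) * C 0 ≤ C s := by
  set t : ℝ := (d + 1) / 2 with ht
  have ht0 : 0 < t := by positivity
  have hneg : -(√2 * exp (-(E d t))) * C 0 ≤ 0 := by
    have := h.h0
    have h1 : 0 ≤ √2 * exp (-(E d t)) := by positivity
    nlinarith
  by_cases hst : s ≤ t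
  · exact hneg.trans (h.C_pos s ⟨hs, hst⟩).le
  push Not at hst
  have hCp := h.C_pos
  have hSn := h.S_nonneg fun s hs => (hCp s hs).le
  have hu := h.u_pos (le_refl _) hSn t ⟨ht0.le, le_refl t⟩
  have h1 := h.energy (mem_Ici.2 ht0.le) (mem_Ici.2 hs) hst.le
  simp only at h1
  have hSt := hSn t ⟨ht0.le, le_refl t⟩
  have hCt := C_le h ht0.le fun s hs => (hCp s hs).le
  have hCt0 := hCp t ⟨ht0.le, le_refl t⟩
  have h2 : C s ^ 2 ≤ (√2 * (exp (-(E d t)) * C 0)) ^ 2 := by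
    rw [mul_pow, Real.sq_sqrt (by norm_num)]
    have h3 : S t ^ 2 ≤ C t ^ 2 := by nlinarith
    have h4 : C t ^ 2 ≤ (exp (-(E d t)) * C 0) ^ 2 := pow_le_pow_left₀ hCt0.le hCt 2
    nlinarith [sq_nonneg (S s)]
  have h3 := abs_le_of_sq_le_sq h2 (by
    have := h.h0
    positivity)
  have h4 := (abs_le.1 h3).1
  linarith

theorem E_ge (d : ℕ) : (d : ℝ) / 8 + ((d : ℝ) - 4) / 64 + ((d : ℝ) - 10) / 192 ≤
    E d ((d + 1) / 2) := by
  have hd : (0 : ℝ) ≤ d := Nat.cast_nonneg d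
  unfold E a1 a2 a3
  generalize (d : ℝ) = x at *
  have e1 : 1 / (x + 2) * (((x + 1) / 2) ^ 2 / 2) = ((x + 1) ^ 2 / (x + 2)) / 8 := by
    field_simp
    norm_num
  have e2 : 1 / ((x + 2) ^ 2 * (x + 4)) * (((x + 1) / 2) ^ 4 / 4) =
      ((x + 1) ^ 4 / ((x + 2) ^ 2 * (x + 4))) / 64 := by
    field_simp
    norm_num
  have e3 : 2 / ((x + 2) ^ 3 * (x + 4) * (x + 6)) * (((x + 1) / 2) ^ 6 / 6) =
      ((x + 1) ^ 6 / ((x + 2) ^ 3 * (x + 4) * (x + 6))) / 192 := by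
    field_simp
    norm_num
  rw [e1, e2, e3]
  have h1 : x ≤ (x + 1) ^ 2 / (x + 2) := by
    rw [le_div_iff₀ (by positivity)]
    nlinarith
  have h2 : x - 4 ≤ (x + 1) ^ 4 / ((x + 2) ^ 2 * (x + 4)) := by
    rw [le_div_iff₀ (by positivity)]
    have a : x * (x + 2) ≤ (x + 1) ^ 2 := by nlinarith
    have b : (x * (x + 2)) ^ 2 ≤ ((x + 1) ^ 2) ^ 2 := pow_le_pow_left₀ (by positivity) a 2
    have c : (x + 1) ^ 4 = ((x + 1) ^ 2) ^ 2 := by ring
    rw [c]
    refine le_trans ?_ b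
    nlinarith [sq_nonneg (x + 2)]
  have h3 : x - 10 ≤ (x + 1) ^ 6 / ((x + 2) ^ 3 * (x + 4) * (x + 6)) := by
    rw [le_div_iff₀ (by positivity)]
    have a : x * (x + 2) ≤ (x + 1) ^ 2 := by nlinarith
    have b : (x * (x + 2)) ^ 3 ≤ ((x + 1) ^ 2) ^ 3 := pow_le_pow_left₀ (by positivity) a 3
    have c : (x + 1) ^ 6 = ((x + 1) ^ 2) ^ 3 := by ring
    rw [c]
    refine le_trans ?_ b
    have e : (x - 10) * ((x + 2) ^ 3 * (x + 4) * (x + 6)) =
        (x + 2) ^ 3 * ((x - 10) * (x + 4) * (x + 6)) := by ring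
    have e' : (x * (x + 2)) ^ 3 = (x + 2) ^ 3 * x ^ 3 := by ring
    rw [e, e']
    refine mul_le_mul_of_nonneg_left ?_ (by positivity)
    nlinarith
  linarith

theorem exp_ge {d : ℕ} (hd : 1000 ≤ d) :
    √2 * exp (-(E d ((d + 1) / 2))) ≤ exp (-(29 / 200 * (d : ℝ))) := by
  have hd' : (1000 : ℝ) ≤ d := by exact_mod_cast hd
  have h1 := E_ge d
  have h2 : √2 ≤ exp (1 / 2 : ℝ) := by
    have h3 : (2 : ℝ) ≤ exp 1 := by
      have := Real.add_one_le_exp (1 : ℝ)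
      linarith
    have h4 : exp (1 / 2 : ℝ) = √(exp 1) := by
      rw [Real.exp_half]
    rw [h4]
    exact Real.sqrt_le_sqrt h3
  calc √2 * exp (-(E d ((d + 1) / 2))) ≤ exp (1 / 2 : ℝ) * exp (-(E d ((d + 1) / 2))) :=
        mul_le_mul_of_nonneg_right h2 (exp_pos _).le
    _ = exp (1 / 2 + -(E d ((d + 1) / 2))) := (Real.exp_add _ _).symm
    _ ≤ exp (-(29 / 200 * (d : ℝ))) := by
        refine Real.exp_le_exp.2 ?_
        linarith

theorem Phi_ge7 {d : ℕ} (hd : 1000 ≤ d) {s : ℝ} (hs : 0 ≤ s) :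
    -exp (-(29 / 200 * (d : ℝ))) ≤ Phi d s := by
  have hd1 : 1 ≤ d := by omega
  have hpos := wt_pos hd1
  have h1 := bound (sys_ball hd1) s hs
  simp only [zero_mul, cos_zero, mul_one] at h1
  have h2 : Phi d s = (∫ u in (-1 : ℝ)..1, wt d u * cos (s * u)) / ∫ u in (-1 : ℝ)..1, wt d u := by
    unfold Phi wt
    congr 1
    refine intervalIntegral.integral_congr fun u _ => ?_
    ring
  have h3 := exp_ge hd
  refine le_trans (neg_le_neg h3) ?_
  rw [h2, le_div_iff₀ hpos]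
  exact h1

end Ph7

end

end Pool.Agent.MF.Fou

namespace Pool.Agent.HdGas

/-- **Row PHI7.** -/
theorem phi7 : PHI7 := by
  refine ⟨1000, fun d hd s hs => ?_⟩
  rw [phi_eq (by omega : 1 ≤ d) s]
  exact Pool.Agent.MF.Fou.Ph7.Phi_ge7 hd hs

end Pool.Agent.HdGas
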