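import Pool.Agent.Lib.NT.RowsM
import Pool.Agent.Lib.NT.Top3

/-!
# Mean field theory with a relative error: rows
-/

set_option autoImplicit false

namespace Pool.Agent.HdGas

open MeasureTheory Filter Topology Pool.Agent.SquareWellGas Pool.Agent.KacGas Pool.Agent.VdwGas

noncomputable section

/-- The number of points in `A` fluctuates at most like a Poisson variable. -/
def VARN : Prop := ∀ (S : Type) [MeasurableSpace S] (m : Measure S) [SigmaFinite m]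
  (C : S → S → Prop) (L : Set S) (b ε lam : ℝ) (K : ℕ), Sys m C L lam b K → 0 ≤ ε →
  Posi m C L b ε → lam * b * ε < 1 → ∀ A : Set S, MeasurableSet A →
    (1 - lam * b * ε) * (ex m C lam L (fun ω => (nV A ω : ℝ) ^ 2) -
      ex m C lam L (fun ω => (nV A ω : ℝ)) ^ 2) ≤ ex m C lam L (fun ω => (nV A ω : ℝ))

/-- Upper bound for the probability that there is no point in `A`. -/
def EMP : Prop := ∀ (S : Type) [MeasurableSpace S] (m : Measure S) [SigmaFinite m]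
  (C : S → S → Prop) (L : Set S) (b ε lam : ℝ) (K : ℕ), Sys m C L lam b K → 0 ≤ ε →
  Posi m C L b ε → lam * b * ε < 1 → ∀ A : Set S, MeasurableSet A →
    ex m C lam L (fun ω => if nV A ω = 0 then 1 else 0) ≤
      Real.exp (-((1 - lam * b * ε) * ex m C lam L (fun ω => (nV A ω : ℝ))))

/-- Upper bound for the local density, at every place. -/
def PUP : Prop := ∀ (S : Type) [MeasurableSpace S] (m : Measure S) [SigmaFinite m]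
  (C : S → S → Prop) (L : Set S) (b ε lam : ℝ) (K : ℕ), Sys m C L lam b K → 0 ≤ ε →
  Posi m C L b ε → lam * b * ε < 1 → ∀ v : S,
    ex m C lam L (chi C (Al S) v) ≤ Real.exp (-((1 - lam * b * ε) *
      (lam * ∫ z in {z | z ∈ L ∧ C v z}, ex m C lam L (chi C (Al S) z) ∂m)))

/-- Lower bound for the local density, at every place. -/
def PLO : Prop := ∀ (S : Type) [MeasurableSpace S] (m : Measure S) [SigmaFinite m]
  (C : S → S → Prop) (L : Set S) (b κ lam : ℝ), Geo m C L b κ → 0 ≤ lam →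
  2 * (lam * b * κ) < 1 → ∀ v : S,
    Real.exp (-((lam * ∫ z in {z | z ∈ L ∧ C v z}, ex m C lam L (chi C (Al S) z) ∂m) /
      (1 - 2 * (lam * b * κ)))) ≤ ex m C lam L (chi C (Al S) v)

/-- Upper bound for the mean number of points. -/
def DENSU : Prop := ∀ (S : Type) [MeasurableSpace S] (m : Measure S) [SigmaFinite m]
  (C : S → S → Prop) (L : Set S) (b κ ε lam c : ℝ) (K : ℕ), Geo m C L b κ → Sys m C L lam b K →
  0 ≤ ε → Posi m C L b ε → lam * b * ε < 1 → 0 ≤ c →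
  c * Real.exp ((1 - lam * b * ε) * c) = lam * b →
    b * ex m C lam L (fun ω => (ω.1 : ℝ)) ≤
      c * (m L).toReal + 2 * (lam * b) * Bd m C L b c

/-- Slopes of the pressure. -/
def SLOPE3 : Prop := ∀ d : ℕ, 1 ≤ d → ∀ ε k : ℝ, 0 ≤ ε → FT d ε → ε ≤ k → kap d ≤ k →
  ∀ P : ℝ → ℝ, IsPr d P → ∀ μ c : ℝ, 0 ≤ c → c * Real.exp c = Real.exp μ * bv d →
  Real.exp μ * bv d * ε ≤ 1 / 2 →
    ∀ h : ℝ, h * c - |h| * (2 * (Real.exp μ * bv d * k) * c) ≤ bv d * (P (μ + h) - P μ)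

/-- Integration of the slopes. -/
def INTEG3 : Prop := ∀ (b A T : ℝ) (P : ℝ → ℝ), 0 < b → 0 ≤ A →
  (∀ μ, 0 ≤ P μ ∧ P μ ≤ Real.exp μ) →
  (∀ μ c : ℝ, 0 ≤ c → c * Real.exp c = Real.exp μ * b → Real.exp μ * b ≤ T → ∀ h : ℝ,
    h * c - |h| * (A * (Real.exp μ * b) * c) ≤ b * (P (μ + h) - P μ)) →
  ∀ μ c : ℝ, 0 ≤ c → c * Real.exp c = Real.exp μ * b → Real.exp μ * b ≤ T →
    |b * P μ - (c + c ^ 2 / 2)| ≤ A * (Real.exp μ * b) * c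

/-- Densities at a chemical potential (diameter one). -/
def DENS3 : Prop := ∀ d : ℕ, 1 ≤ d → ∀ ε k : ℝ, 0 ≤ ε → FT d ε → ε ≤ k → kap d ≤ k →
  ∀ (f : ℝ → ℝ) (r : ℝ), IsF d (1 / 2) (fun _ => 0) f r →
  ∀ μ c ρ : ℝ, 0 ≤ c → c * Real.exp c = Real.exp μ * bv d →
    2 * (Real.exp μ * bv d * ε) < 1 →
    ρ ∈ Set.Ioo 0 r → (∀ x ∈ Set.Ioo 0 r, f x + μ * x ≤ f ρ + μ * ρ) →
      |ρ * bv d - c| ≤ 2 * (Real.exp μ * bv d * k) * c

/-- In high dimension the Fourier transform is at least `-(√3/2)^d` times the volume. -/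
def FTK : Prop := ∃ d0 : ℕ, ∀ d : ℕ, d0 ≤ d → FT d (kap d)

/-- Free energy (diameter one). -/
def FREE3 : Prop := ∃ d0 : ℕ, ∀ d : ℕ, d0 ≤ d → ∀ (f : ℝ → ℝ) (r : ℝ),
  IsF d (1 / 2) (fun _ => 0) f r → ConcaveOn ℝ (Set.Ioo 0 r) f →
    ∀ ρ x : ℝ, 0 < ρ → x = ρ * bv d → x ≤ d / 7 → ρ < r ∧
      |bv d * f ρ - (x - x * Real.log ρ - x ^ 2 / 2)| ≤ 4 * (x ^ 2 * Real.exp x * kap d)

/-- The self-consistency equation for the local density in a region of any shape. -/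
def LOCAL3 : Prop := ∀ d : ℕ, 1 ≤ d → ∀ a lam ε : ℝ, 0 < a → 0 ≤ lam → 0 ≤ ε → FTa d a ε →
  ∀ L : Set (Fin d → ℝ), MeasurableSet L → (∃ ℓ : ℝ, ∀ x ∈ L, ∀ k, |x k| ≤ ℓ) →
  ∀ p n : (Fin d → ℝ) → ℝ,
  (∀ v, p v = XiR d a lam {z | z ∈ L ∧ (2 * a) ^ 2 ≤ ∑ k, (v k - z k) ^ 2} /
    XiR d a lam L) →
  (∀ v, n v = lam * ∫ z in {z | z ∈ L ∧ ∑ k, (v k - z k) ^ 2 < (2 * a) ^ 2}, p z) →
  ∀ v, (lam * ball d a * ε < 1 → p v ≤ Real.exp (-((1 - lam * ball d a * ε) * n v))) ∧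
    (2 * (lam * ball d a * (√3 / 2) ^ d) < 1 →
      Real.exp (-(n v / (1 - 2 * (lam * ball d a * (√3 / 2) ^ d)))) ≤ p v)

/-- The theorem. -/
def MFTHM3 : Prop := ∃ d0 : ℕ, ∀ d : ℕ, 1 ≤ d → ∀ a : ℝ, 0 < a → ∃ (f : ℝ → ℝ) (ρ₀ : ℝ),
  IsF d a (fun _ => 0) f ρ₀ ∧
  (∀ ε k : ℝ, 0 ≤ ε → FTa d a ε → ε ≤ k → (√3 / 2) ^ d ≤ k →
    ∀ μ c ρ : ℝ, 0 ≤ c → c * Real.exp c = Real.exp μ * ball d a →
    2 * (Real.exp μ * ball d a * ε) < 1 → ρ ∈ Set.Ioo 0 ρ₀ →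
    (∀ x ∈ Set.Ioo 0 ρ₀, f x + μ * x ≤ f ρ + μ * ρ) →
      |ρ * ball d a - c| ≤ 2 * (Real.exp μ * ball d a * k) * c) ∧
  FTa d a (√2 * Real.exp (-(d : ℝ) / 8)) ∧
  (d0 ≤ d → FTa d a ((√3 / 2) ^ d) ∧
    ∀ ρ x : ℝ, 0 < ρ → x = ρ * ball d a → x ≤ d / 7 → ρ < ρ₀ ∧
    |ball d a * f ρ - (x - x * Real.log ρ - x ^ 2 / 2)| ≤
      4 * (x ^ 2 * Real.exp x * (√3 / 2) ^ d))

end

end Pool.Agent.HdGas
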