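import Pool.Agent.Lib.NT.Ft23
import Pool.Agent.Lib.NT.Phi7
import Pool.Agent.Lib.NT.Rows3

/-!
# Row FTK: the Fourier transform of the ball is at least `-(√3/2)^d` times the volume
-/

set_option autoImplicit false

namespace Pool.Agent.HdGas

open MeasureTheory Pool.Agent.SquareWellGas Pool.Agent.KacGas Pool.Agent.VdwGas

theorem exp29_le : Real.exp (-(29 / 200 : ℝ)) ≤ √3 / 2 := by
  have h1 : Real.exp (-(29 / 100 : ℝ)) ≤ 3 / 4 := by
    rw [Real.exp_neg]
    have h2 : (4 / 3 : ℝ) ≤ Real.exp (29 / 100) := by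
      have h3 := Real.sum_le_exp_of_nonneg (x := (29 / 100 : ℝ)) (by norm_num) 4
      simp only [Finset.sum_range_succ, Finset.sum_range_zero, Nat.factorial] at h3
      norm_num at h3
      linarith
    calc (Real.exp (29 / 100))⁻¹ ≤ (4 / 3 : ℝ)⁻¹ := by gcongr
      _ = 3 / 4 := by norm_num
  have h4 : Real.exp (-(29 / 200 : ℝ)) ^ 2 ≤ 3 / 4 := by
    rw [← Real.exp_nat_mul]
    refine le_trans (le_of_eq ?_) h1
    congr 1
    push_cast
    ring
  have h5 : (√3 / 2 : ℝ) ^ 2 = 3 / 4 := by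
    rw [div_pow, Real.sq_sqrt (by norm_num)]
    norm_num
  exact (abs_le_of_sq_le_sq' (h4.trans h5.ge) (by positivity)).2

/-- **Row FTK.** -/
theorem ftk_of (hP : PHI7) : FTK := by
  obtain ⟨d1, h1⟩ := hP
  refine ⟨d1 + 1, fun d hd => ft_of_phi (by omega) fun s hs => ?_⟩
  refine le_trans (neg_le_neg ?_) (h1 d (by omega) s hs)
  unfold kap
  calc Real.exp (-(29 / 200 * (d : ℝ))) = Real.exp (-(29 / 200 : ℝ)) ^ d := by
        rw [← Real.exp_nat_mul]
        congr 1
        ring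
    _ ≤ (√3 / 2) ^ d := pow_le_pow_left₀ (Real.exp_pos _).le exp29_le d

/-- **Row FTK**, without hypothesis. -/
theorem ftk : FTK := ftk_of phi7

end Pool.Agent.HdGas
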