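import Pool.Agent.Lib.NT.Top

/-!
# Hard spheres, row FTS: scaling of the Fourier transform of the ball (helper18)
-/

set_option autoImplicit false

namespace Pool.Agent.HdGas

open MeasureTheory Filter Topology Pool.Agent.SquareWellGas Pool.Agent.KacGas Pool.Agent.VdwGas
open scoped Pointwise

namespace Ftsx

theorem smul_ball (d : ℕ) {R : ℝ} (hR : 0 < R) :
    R • {x : Fin d → ℝ | ∑ k, x k ^ 2 < 1} = {x : Fin d → ℝ | ∑ k, x k ^ 2 < R ^ 2} := by
  ext x
  rw [Set.mem_smul_set_iff_inv_smul_mem₀ hR.ne', Set.mem_ofPred_eq, Set.mem_ofPred_eq]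
  have e : ∑ k, (R⁻¹ • x) k ^ 2 = (R ^ 2)⁻¹ * ∑ k, x k ^ 2 := by
    rw [Finset.mul_sum]
    refine Finset.sum_congr rfl fun k _ => ?_
    simp only [Pi.smul_apply, smul_eq_mul]
    rw [mul_pow, inv_pow]
  rw [e, inv_mul_eq_div, div_lt_iff₀ (by positivity), one_mul]

theorem ball_eq (d : ℕ) {a : ℝ} (ha : 0 < a) : ball d a = (2 * a) ^ d * bv d := by
  have h2 : (0 : ℝ) < 2 * a := by positivity
  unfold ball bv
  rw [← smul_ball d h2, Measure.addHaar_smul, ENNReal.toReal_mul, Module.finrank_fin_fun,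
    abs_of_pos (by positivity), ENNReal.toReal_ofReal (by positivity)]

theorem int_eq (d : ℕ) {R : ℝ} (hR : 0 < R) (ξ : Fin d → ℝ) :
    ∫ x in {x : Fin d → ℝ | ∑ k, x k ^ 2 < R ^ 2}, Real.cos (∑ k, x k * ξ k) =
      R ^ d * ∫ x in {x : Fin d → ℝ | ∑ k, x k ^ 2 < 1}, Real.cos (∑ k, x k * (R * ξ k)) := by
  have h := Measure.setIntegral_comp_smul_of_pos (volume : Measure (Fin d → ℝ))
    (fun x : Fin d → ℝ => Real.cos (∑ k, x k * ξ k)) {x : Fin d → ℝ | ∑ k, x k ^ 2 < 1} hR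
  rw [smul_ball d hR, Module.finrank_fin_fun, smul_eq_mul] at h
  have e : ∀ x : Fin d → ℝ, ∑ k, (R • x) k * ξ k = ∑ k, x k * (R * ξ k) := by
    intro x
    refine Finset.sum_congr rfl fun k _ => ?_
    simp only [Pi.smul_apply, smul_eq_mul]
    ring
  simp only [e] at h
  rw [h, ← mul_assoc, mul_inv_cancel₀ (by positivity), one_mul]

end Ftsx

open Ftsx in
/-- Row FTS. -/
theorem fts : FTS := by
  intro d a ε _ ha
  have h2 : (0 : ℝ) < 2 * a := by positivity
  have hp : (0 : ℝ) < (2 * a) ^ d := by positivity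
  unfold FTa FT
  constructor
  · intro h ξ
    have h1 := h fun k => (2 * a)⁻¹ * ξ k
    rw [int_eq d h2, ball_eq d ha] at h1
    have e : ∀ x : Fin d → ℝ, ∑ k, x k * (2 * a * ((2 * a)⁻¹ * ξ k)) = ∑ k, x k * ξ k := by
      intro x
      refine Finset.sum_congr rfl fun k _ => ?_
      rw [mul_inv_cancel_left₀ h2.ne']
    simp only [e] at h1
    refine le_of_mul_le_mul_left ?_ hp
    linarith
  · intro h ξ
    rw [int_eq d h2, ball_eq d ha]
    have h1 := h fun k => 2 * a * ξ k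
    have h3 := mul_le_mul_of_nonneg_left h1 hp.le
    linarith

end Pool.Agent.HdGas
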