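import Pool.Agent.Lib.NT.Rows
import Pool.Agent.Lib.MF.Bas

/-!
# Hard-core gases, row STEP: a small change of the angle (helper18)
-/

set_option autoImplicit false

namespace Pool.Agent.HdGas

open MeasureTheory Filter Topology

namespace Stepx

theorem exp_sub (a b : ℝ) (n : ℕ) :
    ‖Complex.exp (Complex.I * a * n) - Complex.exp (Complex.I * b * n)‖ ≤ |a - b| * n := by
  have h1 : Complex.exp (Complex.I * a * n) - Complex.exp (Complex.I * b * n) =
      Complex.exp (((b * n : ℝ) : ℂ) * Complex.I) *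
        (Complex.exp (Complex.I * (((a - b) * n : ℝ) : ℂ)) - 1) := by
    rw [mul_sub, ← Complex.exp_add, mul_one]
    congr 2
    · push_cast; ring
    · push_cast; ring
  rw [h1, norm_mul, Complex.norm_exp_ofReal_mul_I, one_mul]
  refine (Real.norm_exp_I_mul_ofReal_sub_one_le (x := (a - b) * n)).trans (le_of_eq ?_)
  rw [Real.norm_eq_abs, abs_mul, Nat.abs_cast]

theorem norm_exp (a : ℝ) (n : ℕ) : ‖Complex.exp (Complex.I * a * n)‖ = 1 := by
  have : Complex.I * a * n = ((a * n : ℝ) : ℂ) * Complex.I := by push_cast; ring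
  rw [this, Complex.norm_exp_ofReal_mul_I]

theorem md_le {S : Type} [MeasurableSpace S] (m : Measure S) {L : Set S} (hL : MeasurableSet L)
    {α : S → ℝ} (hα : U01 α) : md m α L ≤ m L := by
  unfold md
  rw [withDensity_apply _ hL]
  calc ∫⁻ x in L, ENNReal.ofReal (α x) ∂m ≤ ∫⁻ _ in L, 1 ∂m := by
        refine lintegral_mono fun x => ?_
        rw [← ENNReal.ofReal_one]
        exact ENNReal.ofReal_le_ofReal (hα.2 x).2
    _ = m L := by simp

section

variable {S : Type} [MeasurableSpace S] {m : Measure S} [SigmaFinite m] {C : S → S → Prop}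
  {L : Set S} {lam b : ℝ} {K : ℕ}

theorem xi_le (h4 : SYSA) (hS : Sys m C L lam b K) {α : S → ℝ} (hα : U01 α) :
    Xi (md m α) C lam L ≤ Real.exp (lam * (m L).toReal) := by
  obtain ⟨hsf, hS', -⟩ := h4 S m C L lam b K hS α hα
  have h := (bas S (md m α) C L lam hS.meas hS.measL hS'.fin hS.lam_nonneg).2.2.2.2.1
  refine h.trans (Real.exp_le_exp.2 (mul_le_mul_of_nonneg_left ?_ hS.lam_nonneg))
  exact ENNReal.toReal_mono hS.fin (md_le m hS.measL hα)

theorem lip (h3 : OKB) (h4 : SYSA) (hS : Sys m C L lam b K) {α : S → ℝ} (hα : U01 α)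
    (θ θ' : ℝ) : ‖Xa m C lam L θ' α - Xa m C lam L θ α‖ ≤
      |θ' - θ| * K * Real.exp (lam * (m L).toReal) := by
  obtain ⟨hsf, hS', -⟩ := h4 S m C L lam b K hS α hα
  have hfin := (bas S (md m α) C L lam hS.meas hS.measL hS'.fin hS.lam_nonneg).2.2.1
  obtain ⟨-, hok, hcard, -, -, -, hN, -⟩ := h3 S (md m α) C L lam b K hS'
  have hNm : Measurable fun ω : Om S => ((ω.1 : ℝ) : ℂ) := Complex.measurable_ofReal.comp hN.meas
  have hm : ∀ t : ℝ, Measurable fun ω : Om S => Complex.exp (Complex.I * t * ω.1) := by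
    intro t
    have : Measurable fun ω : Om S => Complex.exp (Complex.I * t * ((ω.1 : ℝ) : ℂ)) :=
      (measurable_const.mul hNm).cexp
    simpa using this
  have hi : ∀ t : ℝ, Integrable (fun ω : Om S => Complex.exp (Complex.I * t * ω.1))
      (gib (md m α) C lam L) := fun t =>
    Integrable.of_bound (hm t).aestronglyMeasurable 1
      (Eventually.of_forall fun ω => (norm_exp t ω.1).le)
  unfold Xa
  rw [← integral_sub (hi θ') (hi θ)]
  have hle : ∀ᵐ ω ∂gib (md m α) C lam L,
      ‖Complex.exp (Complex.I * θ' * ω.1) - Complex.exp (Complex.I * θ * ω.1)‖ ≤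
        |θ' - θ| * K := by
    filter_upwards [hok] with ω hω
    refine (exp_sub θ' θ ω.1).trans (mul_le_mul_of_nonneg_left ?_ (abs_nonneg _))
    exact_mod_cast hcard ω hω
  refine (norm_integral_le_of_norm_le_const hle).trans ?_
  refine mul_le_mul_of_nonneg_left ?_ (by positivity)
  exact xi_le h4 hS hα

end

end Stepx

open Stepx in
/-- Row STEP. -/
theorem step_of (h1 : RATIO) (h2 : XOFF) (h3 : OKB) (h4 : SYSA) : STEP := by
  intro S _ m _ C L lam b K hS v hv hv1
  set M : ℝ := Real.exp (lam * (m L).toReal) with hM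
  set c : ℝ := Real.exp (-(lam * (m L).toReal * (1 + v / 2))) with hc
  have hM0 : 0 < M := Real.exp_pos _
  have hc0 : 0 < c := Real.exp_pos _
  set q : ℝ := min (c / 2) (v / 2 / (2 / c + 2 * M / c ^ 2)) with hq
  have hq0 : 0 < q := lt_min (by positivity) (by positivity)
  refine ⟨q / (K * M + 1), by positivity, ?_⟩
  intro θ θ' hZ hθ α hα
  have hlip : ∀ β : S → ℝ, U01 β → ‖Xa m C lam L θ' β - Xa m C lam L θ β‖ ≤ q := by
    intro β hβ
    refine (lip h3 h4 hS hβ θ θ').trans ?_
    have hKM : 0 ≤ (K : ℝ) * M := by positivity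
    calc |θ' - θ| * K * M = |θ' - θ| * (K * M) := by ring
      _ ≤ q / (K * M + 1) * (K * M + 1) := by
          refine mul_le_mul hθ (by linarith) hKM (by positivity)
      _ = q := by field_simp
  have hlow : ∀ β : S → ℝ, U01 β → c ≤ ‖Xa m C lam L θ β‖ := fun β hβ =>
    (h1 S m C L lam b K hS θ (v / 2) (by linarith) hZ β hβ).1
  have hlow' : ∀ β : S → ℝ, U01 β → c / 2 ≤ ‖Xa m C lam L θ' β‖ := by
    intro β hβ
    have e1 := hlip β hβ
    have e2 := hlow β hβ
    have e3 : ‖Xa m C lam L θ β‖ ≤ ‖Xa m C lam L θ' β‖ +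
        ‖Xa m C lam L θ' β - Xa m C lam L θ β‖ := by
      have := norm_sub_norm_le (Xa m C lam L θ β) (Xa m C lam L θ' β)
      rw [norm_sub_rev] at this
      linarith
    have e4 : q ≤ c / 2 := min_le_left _ _
    linarith
  have hX' : Xa m C lam L θ' α ≠ 0 := by
    intro h
    have := hlow' α hα
    rw [h, norm_zero] at this
    linarith
  have hX : Xa m C lam L θ α ≠ 0 := (hZ α hα).1
  refine ⟨hX', fun x => ?_⟩
  have hAm : MeasurableSet {z | C x z} := measurable_prodMk_left hS.meas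
  have hoff : U01 (off {z | C x z} α) :=
    ((h2 S m C L lam b K hS θ α hα).2.2.1 {z | C x z} hAm).1
  set XA := Xa m C lam L θ (off {z | C x z} α) with hXA
  set XA' := Xa m C lam L θ' (off {z | C x z} α) with hXA'
  set X := Xa m C lam L θ α with hXd
  set X' := Xa m C lam L θ' α with hXd'
  have hXAM : ‖XA‖ ≤ M :=
    ((h2 S m C L lam b K hS θ _ hoff).2.1).trans (xi_le h4 hS hoff)
  have e1 : ‖XA' - XA‖ ≤ q := hlip _ hoff
  have e2 : ‖X' - X‖ ≤ q := hlip _ hα
  have e3 : c ≤ ‖X‖ := hlow α hα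
  have e4 : c / 2 ≤ ‖X'‖ := hlow' α hα
  have hdiff : ‖Ra m C lam L θ' α x - Ra m C lam L θ α x‖ ≤ v / 2 := by
    have e5 : Ra m C lam L θ' α x - Ra m C lam L θ α x =
        (XA' - XA) / X' - XA * (X' - X) / (X * X') := by
      unfold Ra
      rw [← hXA, ← hXA', ← hXd, ← hXd']
      field_simp
      ring
    rw [e5]
    refine (norm_sub_le _ _).trans ?_
    rw [norm_div, norm_div, norm_mul, norm_mul]
    have e6 : ‖XA' - XA‖ / ‖X'‖ ≤ q / (c / 2) :=
      div_le_div₀ hq0.le e1 (by positivity) e4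
    have e7 : ‖XA‖ * ‖X' - X‖ / (‖X‖ * ‖X'‖) ≤ M * q / (c * (c / 2)) := by
      refine div_le_div₀ (by positivity) (mul_le_mul hXAM e2 (norm_nonneg _) hM0.le)
        (by positivity) (mul_le_mul e3 e4 (by positivity) (by linarith))
    have e8 : q / (c / 2) + M * q / (c * (c / 2)) = q * (2 / c + 2 * M / c ^ 2) := by
      field_simp
    have e9 : q * (2 / c + 2 * M / c ^ 2) ≤ v / 2 := by
      have h10 : 0 < 2 / c + 2 * M / c ^ 2 := by positivity
      have h11 : q ≤ v / 2 / (2 / c + 2 * M / c ^ 2) := min_le_right _ _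
      rwa [le_div_iff₀ h10] at h11
    linarith
  have hR := (hZ α hα).2 x
  have e10 := norm_add_le (Ra m C lam L θ' α x - Ra m C lam L θ α x)
    (Ra m C lam L θ α x - Ra m C lam L 0 α x)
  rw [sub_add_sub_cancel] at e10
  linarith

end Pool.Agent.HdGas
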