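import Pool.Agent.Lib.NT.Okb
import Pool.Agent.Lib.NT.Step
import Pool.Agent.Lib.NT.SysA

/-!
# Hard-core gases, row GAIN: the block argument (helper49)
-/

set_option autoImplicit false

namespace Pool.Agent.HdGas

open MeasureTheory Filter Topology

namespace Gain

section

variable {S : Type} [MeasurableSpace S]

theorem ex_nonneg (m : Measure S) (C : S → S → Prop) (lam : ℝ) (L : Set S) {f : Om S → ℝ}
    (h : ∀ ω, 0 ≤ f ω) : 0 ≤ ex m C lam L f :=
  div_nonneg (integral_nonneg h) ENNReal.toReal_nonneg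

theorem ex_le (m : Measure S) (C : S → S → Prop) (lam : ℝ) (L : Set S)
    (hfin : IsFiniteMeasure (gib m C lam L)) {f : Om S → ℝ} {B : ℝ} (hB : 0 ≤ B)
    (h0 : ∀ ω, 0 ≤ f ω) (h : ∀ ω, f ω ≤ B) : ex m C lam L f ≤ B := by
  unfold ex
  have h1 : ∫ ω, f ω ∂gib m C lam L ≤ B * Xi m C lam L := by
    calc _ ≤ ∫ _ω, B ∂gib m C lam L :=
          integral_mono_of_nonneg (Eventually.of_forall h0) (integrable_const B)
            (Eventually.of_forall h)
      _ = B * Xi m C lam L := by
        rw [integral_const, smul_eq_mul, mul_comm]; rfl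
  exact div_le_of_le_mul₀ ENNReal.toReal_nonneg hB h1

theorem en_le {m : Measure S} {C : S → S → Prop} {lam b : ℝ} {L : Set S} {K : ℕ}
    (hS : Sys m C L lam b K) (hfin : IsFiniteMeasure (gib m C lam L)) {A : Set S}
    (hA : MeasurableSet A) {w : ℝ} (hw : 0 ≤ w) (hmw : m A ≤ ENNReal.ofReal w)
    {u : S → ℝ} (hu0 : ∀ p, 0 ≤ u p) {U B : ℝ} (hU0 : 0 ≤ U) (hU : ∀ p ∈ A, u p ≤ U) (hB : 0 ≤ B)
    {F : Om S → ℝ} (h0 : ∀ p, p ∉ A → ∀ ω, D F p ω = 0) (h1 : ∀ p ω, |D F p ω| ≤ B) :
    en m C lam L u F F ≤ lam * (U * B ^ 2 * w) := by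
  unfold en
  refine mul_le_mul_of_nonneg_left ?_ hS.lam_nonneg
  have hfL : IsFiniteMeasure (m.restrict L) :=
    ⟨by rw [Measure.restrict_apply_univ]; exact lt_top_iff_ne_top.2 hS.fin⟩
  have hE0 : ∀ p, 0 ≤ ex m C lam L (fun ω => chi C (Al S) p ω * D F p ω * D F p ω) := by
    intro p
    refine ex_nonneg m C lam L fun ω => ?_
    rw [mul_assoc]
    exact mul_nonneg (chi_nonneg _ _ _ _) (mul_self_nonneg _)
  have hE1 : ∀ p, ex m C lam L (fun ω => chi C (Al S) p ω * D F p ω * D F p ω) ≤ B ^ 2 := by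
    intro p
    refine ex_le m C lam L hfin (sq_nonneg B) (fun ω => ?_) (fun ω => ?_)
    · rw [mul_assoc]
      exact mul_nonneg (chi_nonneg _ _ _ _) (mul_self_nonneg _)
    · rw [mul_assoc]
      have h2 : D F p ω * D F p ω ≤ B ^ 2 := by
        rw [← sq]
        exact sq_le_sq' (by have := (abs_le.1 (h1 p ω)).1; linarith) (abs_le.1 (h1 p ω)).2
      calc _ ≤ 1 * (D F p ω * D F p ω) :=
            mul_le_mul_of_nonneg_right (chi_le_one _ _ _ _) (mul_self_nonneg _)
        _ ≤ B ^ 2 := by rw [one_mul]; exact h2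
  calc ∫ p in L, u p * ex m C lam L (fun ω => chi C (Al S) p ω * D F p ω * D F p ω) ∂m
      ≤ ∫ p in L, A.indicator (fun _ => U * B ^ 2) p ∂m := by
        refine integral_mono_of_nonneg (Eventually.of_forall fun p => ?_)
          ((integrable_const (U * B ^ 2)).indicator hA) (Eventually.of_forall fun p => ?_)
        · exact mul_nonneg (hu0 p) (hE0 p)
        · by_cases hp : p ∈ A
          · simp only [Set.indicator_of_mem hp]
            exact mul_le_mul (hU p hp) (hE1 p) (hE0 p) hU0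
          · simp only [Set.indicator_of_notMem hp]
            have : ex m C lam L (fun ω => chi C (Al S) p ω * D F p ω * D F p ω) = 0 := by
              unfold ex
              have h3 : ∀ ω, chi C (Al S) p ω * D F p ω * D F p ω = 0 := fun ω => by
                rw [h0 p hp ω, mul_zero]
              simp only [h3, integral_zero, zero_div]
            rw [this, mul_zero]
    _ = (U * B ^ 2) * (m.restrict L).real A := by
        rw [integral_indicator hA, integral_const, smul_eq_mul, mul_comm]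
        congr 1
        unfold Measure.real
        rw [Measure.restrict_apply_univ]
    _ ≤ (U * B ^ 2) * w := by
        refine mul_le_mul_of_nonneg_left ?_ (mul_nonneg hU0 (sq_nonneg B))
        unfold Measure.real
        refine ENNReal.toReal_le_of_le_ofReal hw ((Measure.restrict_apply_le _ _).trans hmw)

theorem fr_ins (C : S → S → Prop) (v p : S) (ω : Om S) :
    fr C (Al S) v (ins p ω) ↔ ¬ C v p ∧ fr C (Al S) v ω := by
  constructor
  · intro h
    exact ⟨h (0 : Fin (ω.1 + 1)) trivial, fun i _ => h (Fin.succ i : Fin (ω.1 + 1)) trivial⟩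
  · rintro ⟨h1, h2⟩
    have h3 : ∀ i : Fin (ω.1 + 1), ¬ C v ((Fin.cons p ω.2 : Fin (ω.1 + 1) → S) i) := by
      intro i
      refine Fin.cases ?_ (fun j => ?_) i
      · exact h1
      · exact h2 j trivial
    exact fun i _ => h3 i

theorem fr_app (C : S → S → Prop) (v : S) (ω η : Om S) (h : ∀ j, ¬ C v (η.2 j)) :
    fr C (Al S) v (app ω η) ↔ fr C (Al S) v ω := by
  constructor
  · intro h1 i _
    have := h1 (Fin.castAdd η.1 i : Fin (ω.1 + η.1)) trivial
    intro hC
    apply this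
    show C v (Fin.append ω.2 η.2 (Fin.castAdd η.1 i))
    rw [Fin.append_left]
    exact hC
  · intro h1
    have h3 : ∀ i : Fin (ω.1 + η.1), ¬ C v (Fin.append ω.2 η.2 i) := by
      intro i
      refine Fin.addCases (fun j => ?_) (fun j => ?_) i
      · rw [Fin.append_left]; exact h1 j trivial
      · rw [Fin.append_right]; exact h j
    exact fun i _ => h3 i

theorem chi_congr {C : S → S → Prop} {v : S} {ω η : Om S}
    (h : fr C (Al S) v ω ↔ fr C (Al S) v η) : chi C (Al S) v ω = chi C (Al S) v η := by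
  unfold chi
  by_cases h' : fr C (Al S) v η
  · rw [if_pos h', if_pos (h.2 h')]
  · rw [if_neg h', if_neg (fun h2 => h' (h.1 h2))]

theorem D_chi (C : S → S → Prop) (v p : S) (ω : Om S) (h : ¬ C v p) :
    D (chi C (Al S) v) p ω = 0 := by
  have : fr C (Al S) v (ins p ω) ↔ fr C (Al S) v ω := by
    rw [fr_ins]; exact ⟨fun h => h.2, fun h' => ⟨h, h'⟩⟩
  unfold D
  rw [chi_congr this, sub_self]

theorem D_chi_le (C : S → S → Prop) (v p : S) (ω : Om S) : |D (chi C (Al S) v) p ω| ≤ 1 := by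
  unfold D
  rw [abs_le]
  have h1 := chi_nonneg C (Al S) v (ins p ω)
  have h2 := chi_le_one C (Al S) v (ins p ω)
  have h3 := chi_nonneg C (Al S) v ω
  have h4 := chi_le_one C (Al S) v ω
  exact ⟨by linarith, by linarith⟩

theorem Vc_ins {C : S → S → Prop} {V : Set S} {p : S} (h : p ∈ V → ∀ z, C p z → z ∈ V)
    (ω : Om S) : Vc C V (ins p ω) = Vc C V ω := by
  ext z
  have key : (∃ i : Fin (ω.1 + 1), (Fin.cons p ω.2 : Fin (ω.1 + 1) → S) i ∈ V ∧
      C ((Fin.cons p ω.2 : Fin (ω.1 + 1) → S) i) z) ↔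
      (p ∈ V ∧ C p z) ∨ ∃ i, ω.2 i ∈ V ∧ C (ω.2 i) z := by
    rw [Fin.exists_fin_succ]; simp
  show z ∈ V ∨ (∃ i : Fin (ω.1 + 1), (Fin.cons p ω.2 : Fin (ω.1 + 1) → S) i ∈ V ∧
      C ((Fin.cons p ω.2 : Fin (ω.1 + 1) → S) i) z) ↔ z ∈ V ∨ ∃ i, ω.2 i ∈ V ∧ C (ω.2 i) z
  rw [key]
  constructor
  · rintro (h1 | ⟨h1, h2⟩ | h1)
    · exact Or.inl h1
    · exact Or.inl (h h1 z h2)
    · exact Or.inr h1
  · rintro (h1 | h1)
    · exact Or.inl h1
    · exact Or.inr (Or.inr h1)

theorem Vc_meas {C : S → S → Prop} (hC : MeasurableSet {p : S × S | C p.1 p.2}) {V : Set S}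
    (hV : MeasurableSet V) (ω : Om S) : MeasurableSet (Vc C V ω) := by
  have : Vc C V ω = V ∪ ⋃ i : Fin ω.1, {z | ω.2 i ∈ V ∧ C (ω.2 i) z} := by
    ext z
    simp only [Vc, Set.mem_union, Set.mem_setOf_eq, Set.mem_iUnion]
  rw [this]
  refine hV.union (MeasurableSet.iUnion fun i => ?_)
  by_cases hi : ω.2 i ∈ V
  · have h1 : {z | ω.2 i ∈ V ∧ C (ω.2 i) z} = (fun z => (ω.2 i, z)) ⁻¹' {p : S × S | C p.1 p.2} := by
      ext z; exact ⟨fun h => h.2, fun h => ⟨hi, h⟩⟩
    rw [h1]
    exact measurable_prodMk_left hC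
  · have h1 : {z | ω.2 i ∈ V ∧ C (ω.2 i) z} = ∅ := by
      ext z; exact ⟨fun h => hi h.1, fun h => h.elim⟩
    rw [h1]
    exact MeasurableSet.empty

theorem nV_eq (V : Set S) (ω : Om S) :
    (nV V ω : ℝ) = ∑ i, V.indicator (fun _ => (1 : ℝ)) (ω.2 i) := by
  classical
  unfold nV
  rw [Finset.card_filter, Nat.cast_sum]
  refine Finset.sum_congr rfl fun i _ => ?_
  by_cases h : ω.2 i ∈ V
  · rw [Set.indicator_of_mem h, if_pos h, Nat.cast_one]
  · rw [Set.indicator_of_notMem h, if_neg h, Nat.cast_zero]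

theorem nV_le (V : Set S) (ω : Om S) : (nV V ω : ℝ) ≤ ω.1 := by
  classical
  unfold nV
  have h1 := Finset.card_filter_le (Finset.univ : Finset (Fin ω.1)) (fun i => ω.2 i ∈ V)
  rw [Finset.card_univ, Fintype.card_fin] at h1
  exact_mod_cast h1

theorem nV_meas {V : Set S} (hV : MeasurableSet V) : Measurable fun ω : Om S => (nV V ω : ℝ) := by
  have h1 : (fun ω : Om S => (nV V ω : ℝ)) =
      fun ω => ∑ i, V.indicator (fun _ => (1 : ℝ)) (ω.2 i) := funext (nV_eq V)
  rw [h1]
  refine measurable_om fun n => ?_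
  show Measurable fun x : Fin n → S => ∑ i, V.indicator (fun _ => (1 : ℝ)) (x i)
  exact Finset.measurable_sum _ fun i _ =>
    (measurable_const.indicator hV).comp (measurable_pi_apply i)

theorem fin_alg {Ω : Type} [MeasurableSpace Ω] (μ : Measure Ω) [IsFiniteMeasure μ] {χ N : Ω → ℝ}
    {e H : Ω → ℂ} {t g n c1 X : ℝ} (hX : X = μ.real Set.univ) (hX0 : 0 < X) (hχm : Measurable χ)
    (hχ0 : ∀ ω, 0 ≤ χ ω) (hχ1 : ∀ ω, χ ω ≤ 1) (hHm : Measurable H) (hem : Measurable e)
    (hNi : Integrable N μ) (hN0 : ∀ ω, 0 ≤ N ω) (he : ∀ ω, ‖e ω - 1‖ ≤ t * N ω)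
    (he1 : ∀ ω, ‖e ω‖ ≤ 1) (ht : 0 ≤ t) (hg : 1 ≤ g) (hH : ∀ ω, ‖H ω‖ ≤ g)
    (hH1 : ∀ ω, ‖H ω - 1‖ ≤ g - 1) (hn : (∫ ω, N ω ∂μ) / X ≤ n)
    (h1 : |(∫ ω, χ ω * (H ω).re ∂μ) / X - (∫ ω, χ ω ∂μ) / X * ((∫ ω, (H ω).re ∂μ) / X)| ≤ c1)
    (h2 : |(∫ ω, χ ω * (H ω).im ∂μ) / X - (∫ ω, χ ω ∂μ) / X * ((∫ ω, (H ω).im ∂μ) / X)| ≤ c1) :
    X * (1 - (t * n * g + (g - 1))) ≤ ‖∫ ω, e ω * H ω ∂μ‖ ∧
    ‖∫ ω, (χ ω : ℂ) * (e ω * H ω) ∂μ - (((∫ ω, χ ω ∂μ) / X : ℝ) : ℂ) * ∫ ω, e ω * H ω ∂μ‖ ≤
      X * (2 * c1 + t * n * g) := by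
  have hg0 : 0 ≤ g := by linarith
  have hNn : ∫ ω, N ω ∂μ ≤ n * X := (div_le_iff₀ hX0).1 hn
  have hHi : Integrable H μ :=
    Integrable.mono' (integrable_const g) hHm.aestronglyMeasurable (Eventually.of_forall hH)
  have heH : ∀ ω, ‖e ω * H ω‖ ≤ g := fun ω => by
    rw [norm_mul]
    calc _ ≤ 1 * g := mul_le_mul (he1 ω) (hH ω) (norm_nonneg _) zero_le_one
      _ = g := one_mul g
  have heHi : Integrable (fun ω => e ω * H ω) μ :=
    Integrable.mono' (integrable_const g) (hem.mul hHm).aestronglyMeasurable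
      (Eventually.of_forall heH)
  have hgNi : Integrable (fun ω => t * g * N ω) μ := hNi.const_mul _
  set E : ℝ := (∫ ω, χ ω ∂μ) / X with hE
  have hE0 : 0 ≤ E := div_nonneg (integral_nonneg hχ0) hX0.le
  have hE1 : E ≤ 1 := by
    rw [hE, div_le_one hX0, hX]
    calc ∫ ω, χ ω ∂μ ≤ ∫ _ω, (1 : ℝ) ∂μ :=
          integral_mono_of_nonneg (Eventually.of_forall hχ0) (integrable_const 1)
            (Eventually.of_forall hχ1)
      _ = _ := by rw [integral_const, smul_eq_mul, mul_one]
  have hχE : ∀ ω, ‖((χ ω : ℂ) - (E : ℂ))‖ ≤ 1 := fun ω => by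
    rw [← Complex.ofReal_sub, Complex.norm_real, Real.norm_eq_abs, abs_le]
    have := hχ0 ω
    have := hχ1 ω
    exact ⟨by linarith, by linarith⟩
  have hχEm : Measurable fun ω => ((χ ω : ℂ) - (E : ℂ)) :=
    (Complex.measurable_ofReal.comp hχm).sub measurable_const
  constructor
  · have e1 : ∫ ω, (e ω * H ω - 1) ∂μ = ∫ ω, e ω * H ω ∂μ - (X : ℂ) := by
      rw [integral_sub heHi (integrable_const 1), integral_const, hX]
      simp
    have e2 : ‖∫ ω, (e ω * H ω - 1) ∂μ‖ ≤ ∫ ω, (t * g * N ω + (g - 1)) ∂μ := by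
      refine norm_integral_le_of_norm_le (hgNi.add (integrable_const _))
        (Eventually.of_forall fun ω => ?_)
      have e3 : e ω * H ω - 1 = (e ω - 1) * H ω + (H ω - 1) := by ring
      rw [e3]
      refine (norm_add_le _ _).trans (add_le_add ?_ (hH1 ω))
      rw [norm_mul]
      calc _ ≤ (t * N ω) * g := mul_le_mul (he ω) (hH ω) (norm_nonneg _)
            (mul_nonneg ht (hN0 ω))
        _ = _ := by ring
    rw [integral_add hgNi (integrable_const _), integral_const_mul, integral_const, smul_eq_mul,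
      ← hX, e1] at e2
    have e4 : (X : ℝ) ≤ ‖∫ ω, e ω * H ω ∂μ‖ + ‖∫ ω, e ω * H ω ∂μ - (X : ℂ)‖ := by
      have := norm_sub_le (∫ ω, e ω * H ω ∂μ) (∫ ω, e ω * H ω ∂μ - (X : ℂ))
      rw [sub_sub_cancel, Complex.norm_real, Real.norm_eq_abs, abs_of_pos hX0] at this
      exact this
    have e5 : t * g * ∫ ω, N ω ∂μ ≤ t * g * (n * X) :=
      mul_le_mul_of_nonneg_left hNn (mul_nonneg ht hg0)
    linarith
  · have hA : Integrable (fun ω => ((χ ω : ℂ) - (E : ℂ)) * H ω) μ := by
      refine Integrable.mono' (integrable_const g) (hχEm.mul hHm).aestronglyMeasurable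
        (Eventually.of_forall fun ω => ?_)
      rw [norm_mul]
      calc _ ≤ 1 * g := mul_le_mul (hχE ω) (hH ω) (norm_nonneg _) zero_le_one
        _ = g := one_mul g
    have hBb : ∀ ω, ‖((χ ω : ℂ) - (E : ℂ)) * ((e ω - 1) * H ω)‖ ≤ t * g * N ω := fun ω => by
      rw [norm_mul, norm_mul]
      calc _ ≤ 1 * ((t * N ω) * g) := mul_le_mul (hχE ω)
            (mul_le_mul (he ω) (hH ω) (norm_nonneg _) (mul_nonneg ht (hN0 ω)))
            (by positivity) zero_le_one
        _ = _ := by ring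
    have hBi : Integrable (fun ω => ((χ ω : ℂ) - (E : ℂ)) * ((e ω - 1) * H ω)) μ :=
      Integrable.mono' hgNi (hχEm.mul ((hem.sub measurable_const).mul hHm)).aestronglyMeasurable
        (Eventually.of_forall hBb)
    have hχeH : Integrable (fun ω => (χ ω : ℂ) * (e ω * H ω)) μ := by
      refine Integrable.mono' (integrable_const g)
        ((Complex.measurable_ofReal.comp hχm).mul (hem.mul hHm)).aestronglyMeasurable
        (Eventually.of_forall fun ω => ?_)
      rw [norm_mul, Complex.norm_real, Real.norm_eq_abs, abs_of_nonneg (hχ0 ω)]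
      calc _ ≤ 1 * g := mul_le_mul (hχ1 ω) (heH ω) (norm_nonneg _) zero_le_one
        _ = g := one_mul g
    have e1 : ∫ ω, (χ ω : ℂ) * (e ω * H ω) ∂μ - (E : ℂ) * ∫ ω, e ω * H ω ∂μ =
        (∫ ω, ((χ ω : ℂ) - (E : ℂ)) * H ω ∂μ) +
          ∫ ω, ((χ ω : ℂ) - (E : ℂ)) * ((e ω - 1) * H ω) ∂μ := by
      rw [← integral_add hA hBi, ← integral_const_mul, ← integral_sub hχeH (heHi.const_mul _)]
      refine integral_congr_ae (Eventually.of_forall fun ω => ?_)
      show (χ ω : ℂ) * (e ω * H ω) - (E : ℂ) * (e ω * H ω) =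
        ((χ ω : ℂ) - (E : ℂ)) * H ω + ((χ ω : ℂ) - (E : ℂ)) * ((e ω - 1) * H ω)
      ring
    have e2 : ‖∫ ω, ((χ ω : ℂ) - (E : ℂ)) * ((e ω - 1) * H ω) ∂μ‖ ≤ X * (t * n * g) := by
      refine (norm_integral_le_of_norm_le hgNi (Eventually.of_forall hBb)).trans ?_
      rw [integral_const_mul]
      have e5 : t * g * ∫ ω, N ω ∂μ ≤ t * g * (n * X) :=
        mul_le_mul_of_nonneg_left hNn (mul_nonneg ht hg0)
      linarith
    have hHre : Integrable (fun ω => (H ω).re) μ := hHi.re
    have hHim : Integrable (fun ω => (H ω).im) μ := hHi.im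
    have hχre : Integrable (fun ω => χ ω * (H ω).re) μ := by
      refine Integrable.mono' (integrable_const g)
        (hχm.mul (Complex.measurable_re.comp hHm)).aestronglyMeasurable
        (Eventually.of_forall fun ω => ?_)
      rw [norm_mul, Real.norm_eq_abs, abs_of_nonneg (hχ0 ω)]
      calc _ ≤ 1 * g := mul_le_mul (hχ1 ω) ((Complex.abs_re_le_norm _).trans (hH ω))
            (abs_nonneg _) zero_le_one
        _ = g := one_mul g
    have hχim : Integrable (fun ω => χ ω * (H ω).im) μ := by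
      refine Integrable.mono' (integrable_const g)
        (hχm.mul (Complex.measurable_im.comp hHm)).aestronglyMeasurable
        (Eventually.of_forall fun ω => ?_)
      rw [norm_mul, Real.norm_eq_abs, abs_of_nonneg (hχ0 ω)]
      calc _ ≤ 1 * g := mul_le_mul (hχ1 ω) ((Complex.abs_im_le_norm _).trans (hH ω))
            (abs_nonneg _) zero_le_one
        _ = g := one_mul g
    have e3 : |(∫ ω, ((χ ω : ℂ) - (E : ℂ)) * H ω ∂μ).re| ≤ X * c1 := by
      have e6 : (∫ ω, ((χ ω : ℂ) - (E : ℂ)) * H ω ∂μ).re =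
          ∫ ω, (χ ω * (H ω).re - E * (H ω).re) ∂μ := by
        have := Complex.reCLM.integral_comp_comm hA
        rw [Complex.reCLM_apply] at this
        rw [← this]
        refine integral_congr_ae (Eventually.of_forall fun ω => ?_)
        show (((χ ω : ℂ) - (E : ℂ)) * H ω).re = _
        rw [← Complex.ofReal_sub, Complex.re_ofReal_mul]
        ring
      rw [e6, integral_sub hχre (hHre.const_mul _), integral_const_mul]
      have e7 : ∫ ω, χ ω * (H ω).re ∂μ - E * ∫ ω, (H ω).re ∂μ =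
          X * ((∫ ω, χ ω * (H ω).re ∂μ) / X - E * ((∫ ω, (H ω).re ∂μ) / X)) := by
        field_simp
      rw [e7, abs_mul, abs_of_pos hX0]
      exact mul_le_mul_of_nonneg_left h1 hX0.le
    have e4 : |(∫ ω, ((χ ω : ℂ) - (E : ℂ)) * H ω ∂μ).im| ≤ X * c1 := by
      have e6 : (∫ ω, ((χ ω : ℂ) - (E : ℂ)) * H ω ∂μ).im =
          ∫ ω, (χ ω * (H ω).im - E * (H ω).im) ∂μ := by
        have := Complex.imCLM.integral_comp_comm hA
        rw [Complex.imCLM_apply] at this
        rw [← this]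
        refine integral_congr_ae (Eventually.of_forall fun ω => ?_)
        show (((χ ω : ℂ) - (E : ℂ)) * H ω).im = _
        rw [← Complex.ofReal_sub, Complex.im_ofReal_mul]
        ring
      rw [e6, integral_sub hχim (hHim.const_mul _), integral_const_mul]
      have e7 : ∫ ω, χ ω * (H ω).im ∂μ - E * ∫ ω, (H ω).im ∂μ =
          X * ((∫ ω, χ ω * (H ω).im ∂μ) / X - E * ((∫ ω, (H ω).im ∂μ) / X)) := by
        field_simp
      rw [e7, abs_mul, abs_of_pos hX0]
      exact mul_le_mul_of_nonneg_left h2 hX0.le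
    rw [e1]
    have e8 := Complex.norm_le_abs_re_add_abs_im (∫ ω, ((χ ω : ℂ) - (E : ℂ)) * H ω ∂μ)
    refine (norm_add_le _ _).trans ?_
    linarith

end

end Gain

/-- Row GAIN. -/
theorem gain_of (hO : OKB) (hN : GNZ) (hA : SYSA) (hX : XOFF) (hR : RATIO) (hB : BLOCK)
    (hD : DECAY) : GAIN := by
  intro S _ m _ C L lam b ε K hS hε hP φ s T w θ v G hφm hφ0 hφC hφs hw hmw hT hs hc hv hZ hG α
    hα x
  obtain ⟨hsf, hSα, hPα⟩ := hA S m C L lam b K hS α hα
  replace hPα := hPα ε hε hP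
  obtain ⟨o1, o2, o3, o4, o5, o6, o7, o8⟩ := hO S (md m α) C L lam b K hSα
  obtain ⟨-, -, hfin, hXi1, -, -⟩ :=
    bas S (md m α) C L lam hSα.meas hSα.measL hSα.fin hSα.lam_nonneg
  have hlam := hS.lam_nonneg
  -- the block
  set V : Set S := {y | φ x y ≤ T} with hVdef
  have hVm : MeasurableSet V := measurableSet_le (hφm x) measurable_const
  have hCV : ∀ y, C x y → y ∈ V := fun y h => by
    show φ x y ≤ T
    rw [hφC x y h]; exact hT
  obtain ⟨hHm, hHs, hbl⟩ := hB S m C L lam b K hS θ v hv hZ α hα V hVm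
  set H : Om S → ℂ := h0 m C lam L θ α V with hHdef
  -- size of h0
  have hG0 : 0 ≤ G := by
    rw [hG]
    have := abs_nonneg θ
    positivity
  have hH1 : ∀ ω, ‖H ω - 1‖ ≤ Real.exp G - 1 := by
    intro ω
    have hU := ((hX S m C L lam b K hS θ α hα).2.2.1 V hVm).1
    have h1 := (hR S m C L lam b K hS θ v hv hZ (off V α) hU).2 (Vc C V ω)
      (Gain.Vc_meas hS.meas hVm ω)
    have h2 : off (Vc C V ω) (off V α) = off (Vc C V ω) α := by
      funext z
      unfold off
      by_cases hz : z ∈ Vc C V ω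
      · rw [if_pos hz, if_pos hz]
      · rw [if_neg hz, if_neg hz, if_neg (fun h => hz (Or.inl h))]
    rw [h2] at h1
    refine h1.trans (sub_le_sub_right (Real.exp_le_exp.2 ?_) 1)
    rw [hG]
    refine mul_le_mul_of_nonneg_right (mul_le_mul_of_nonneg_left ?_ hlam) (by positivity)
    refine ENNReal.toReal_le_of_le_ofReal hw ((measure_mono ?_).trans (hmw x))
    rintro z ⟨-, hz | ⟨i, hi, hCi⟩⟩
    · exact le_add_of_le_of_nonneg hz hs
    · have h3 := (abs_le.1 (hφs x _ _ hCi)).1
      have h4 : φ x (ω.2 i) ≤ T := hi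
      show φ x z ≤ T + s
      linarith
  have hHn : ∀ ω, ‖H ω‖ ≤ Real.exp G := by
    intro ω
    have h1 := hH1 ω
    have h2 : ‖H ω‖ ≤ ‖H ω - 1‖ + ‖(1 : ℂ)‖ := by
      have := norm_add_le (H ω - 1) 1
      simpa using this
    rw [norm_one] at h2
    linarith
  -- the points in the block
  have hnm := Gain.nV_meas (S := S) hVm
  have hni : Integrable (fun ω : Om S => (nV V ω : ℝ)) (gib (md m α) C lam L) := by
    refine Integrable.mono' (integrable_const (K : ℝ)) hnm.aestronglyMeasurable ?_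
    filter_upwards [o2] with ω hω
    rw [Real.norm_eq_abs, abs_of_nonneg (Nat.cast_nonneg _)]
    exact (Gain.nV_le V ω).trans (by exact_mod_cast o3 ω hω)
  have hnE : ex (md m α) C lam L (fun ω => (nV V ω : ℝ)) ≤ lam * w := by
    have h1 := hN S (md m α) C L lam b K hSα (fun p _ => V.indicator (fun _ => (1 : ℝ)) p)
      ((measurable_const.indicator hVm).comp measurable_fst) (fun p n y σ => rfl)
      ⟨1, fun p ω _ _ _ => by
        by_cases hp : p ∈ V
        · rw [Set.indicator_of_mem hp]; simp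
        · rw [Set.indicator_of_notMem hp]; simp⟩
    have h2 : (fun ω : Om S => (nV V ω : ℝ)) =
      fun ω => ∑ i, V.indicator (fun _ => (1 : ℝ)) (ω.2 i) := funext (Gain.nV_eq V)
    rw [h2, h1]
    refine mul_le_mul_of_nonneg_left ?_ hlam
    have hfL : IsFiniteMeasure ((md m α).restrict L) :=
      ⟨by rw [Measure.restrict_apply_univ]; exact lt_top_iff_ne_top.2 hSα.fin⟩
    calc ∫ p in L, ex (md m α) C lam L (fun ω => chi C (Al S) p ω *
          V.indicator (fun _ => (1 : ℝ)) p) ∂(md m α)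
        ≤ ∫ p in L, V.indicator (fun _ => (1 : ℝ)) p ∂(md m α) := by
          refine integral_mono_of_nonneg (Eventually.of_forall fun p => ?_)
            ((integrable_const (1 : ℝ)).indicator hVm) (Eventually.of_forall fun p => ?_)
          · refine Gain.ex_nonneg _ _ _ _ fun ω => mul_nonneg (chi_nonneg _ _ _ _) ?_
            exact Set.indicator_nonneg (fun _ _ => zero_le_one) _
          · refine Gain.ex_le _ _ _ _ hfin (Set.indicator_nonneg (fun _ _ => zero_le_one) _)
              (fun ω => mul_nonneg (chi_nonneg _ _ _ _) ?_) (fun ω => ?_)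
            · exact Set.indicator_nonneg (fun _ _ => zero_le_one) _
            · calc _ ≤ 1 * V.indicator (fun _ => (1 : ℝ)) p :=
                    mul_le_mul_of_nonneg_right (chi_le_one _ _ _ _)
                      (Set.indicator_nonneg (fun _ _ => zero_le_one) _)
                _ = _ := one_mul _
      _ = ((md m α).restrict L).real V := by
          rw [integral_indicator hVm, integral_const, smul_eq_mul, mul_one]
          unfold Measure.real
          rw [Measure.restrict_apply_univ]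
      _ ≤ w := by
          unfold Measure.real
          refine ENNReal.toReal_le_of_le_ofReal hw ((Measure.restrict_apply_le _ _).trans ?_)
          refine (SysAx.le m hα V).trans ((measure_mono ?_).trans (hmw x))
          intro z hz
          exact le_add_of_le_of_nonneg hz hs
  -- the covariance with a function of the places near the boundary of the block
  set c : ℝ := 1 - lam * b * (ε + (Real.cosh s - 1)) with hcdef
  have hEG : 0 ≤ Real.exp G - 1 := by
    have := Real.one_le_exp hG0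
    linarith
  set A : Set S := {z | z ∈ V ∧ T - s < φ x z} with hAdef
  have hAm : MeasurableSet A := hVm.inter (measurableSet_lt measurable_const (hφm x))
  have hcov : ∀ g : Om S → ℝ, Fn C L g → (∀ p ω, |D g p ω| ≤ 2 * (Real.exp G - 1)) →
      (∀ p, p ∉ A → ∀ ω, D g p ω = 0) →
      |ex (md m α) C lam L (fun ω => chi C (Al S) x ω * g ω) -
        ex (md m α) C lam L (chi C (Al S) x) * ex (md m α) C lam L g| ≤
      c⁻¹ * (√(lam * b) * (2 * (Real.exp G - 1) * Real.exp (-(T - s)) * √(lam * w))) := by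
    intro g hg hg1 hg0
    have hmin : ∀ y z, C y z → |min (φ x y) T - min (φ x z) T| ≤ s := by
      intro y z hyz
      have h1 := abs_min_sub_min_le_max (φ x y) T (φ x z) T
      rw [sub_self, abs_zero, max_eq_left (abs_nonneg _)] at h1
      exact h1.trans (hφs x y z hyz)
    have h1 := hD S (md m α) C L lam b ε K hSα hε hPα (fun y => min (φ x y) T) s
      ((hφm x).min measurable_const) ⟨T, fun y => by
        rw [abs_of_nonneg (le_min (hφ0 x y) hT)]; exact min_le_right _ _⟩ hmin hc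
      (chi C (Al S) x) g (o8 x) hg
    refine h1.trans (mul_le_mul_of_nonneg_left (mul_le_mul ?_ ?_ (Real.sqrt_nonneg _)
      (Real.sqrt_nonneg _)) (inv_nonneg.2 hc.le))
    · refine Real.sqrt_le_sqrt ?_
      have h2 := Gain.en_le hSα hfin (A := {z | C x z}) (measurable_prodMk_left hS.meas)
        hS.b_pos.le (hSα.ball x) (u := fun y => Real.exp (2 * min (φ x y) T))
        (fun p => (Real.exp_pos _).le) (U := 1) (B := 1) zero_le_one (fun p hp => by
          have : φ x p = 0 := hφC x p hp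
          show Real.exp (2 * min (φ x p) T) ≤ 1
          rw [this, min_eq_left hT, mul_zero, Real.exp_zero]) zero_le_one
        (F := chi C (Al S) x) (fun p hp ω => Gain.D_chi C x p ω hp)
        (fun p ω => Gain.D_chi_le C x p ω)
      refine h2.trans (le_of_eq ?_)
      ring
    · have h2 := Gain.en_le hSα hfin (A := A) hAm hw
        (((SysAx.le m hα A).trans (measure_mono (fun z hz => by
          exact le_add_of_le_of_nonneg hz.1 hs))).trans (hmw x))
        (u := fun y => Real.exp (-(2 * min (φ x y) T)))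
        (fun p => (Real.exp_pos _).le) (U := Real.exp (-(T - s)) ^ 2)
        (B := 2 * (Real.exp G - 1)) (sq_nonneg _) (fun p hp => by
          show Real.exp (-(2 * min (φ x p) T)) ≤ Real.exp (-(T - s)) ^ 2
          rw [← Real.exp_nat_mul]
          refine Real.exp_le_exp.2 ?_
          have h3 : T - s ≤ min (φ x p) T := le_min hp.2.le (by linarith)
          push_cast
          linarith) (by linarith) (F := g) hg0 hg1
      have h3 : lam * (Real.exp (-(T - s)) ^ 2 * (2 * (Real.exp G - 1)) ^ 2 * w) =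
          (2 * (Real.exp G - 1) * Real.exp (-(T - s))) ^ 2 * (lam * w) := by ring
      rw [h3] at h2
      refine (Real.sqrt_le_sqrt h2).trans (le_of_eq ?_)
      rw [Real.sqrt_mul (sq_nonneg _), Real.sqrt_sq (by positivity)]
  have hHins : ∀ p, p ∉ A → ∀ ω, H (ins p ω) = H ω := by
    intro p hp ω
    have h1 : Vc C V (ins p ω) = Vc C V ω := by
      refine Gain.Vc_ins (fun hpV z hz => ?_) ω
      have h2 : ¬ T - s < φ x p := fun h => hp ⟨hpV, h⟩
      have h3 := (abs_le.1 (hφs x _ _ hz)).1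
      show φ x z ≤ T
      linarith
    show h0 m C lam L θ α V (ins p ω) = h0 m C lam L θ α V ω
    unfold h0
    rw [h1]
  have hre := hcov (fun ω => (H ω).re)
    ⟨Complex.measurable_re.comp hHm, fun n y σ => congrArg Complex.re (hHs n y σ),
      ⟨Real.exp G, fun ω _ => (Complex.abs_re_le_norm _).trans (hHn ω)⟩⟩
    (fun p ω => by
      have h1 := (Complex.abs_re_le_norm (H (ins p ω) - 1)).trans (hH1 (ins p ω))
      have h2 := (Complex.abs_re_le_norm (H ω - 1)).trans (hH1 ω)
      rw [Complex.sub_re] at h1 h2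
      show |(H (ins p ω)).re - (H ω).re| ≤ _
      rw [abs_le] at h1 h2 ⊢
      exact ⟨by linarith [h1.1, h2.2], by linarith [h1.2, h2.1]⟩)
    (fun p hp ω => by
      show (H (ins p ω)).re - (H ω).re = 0
      rw [hHins p hp ω, sub_self])
  have him := hcov (fun ω => (H ω).im)
    ⟨Complex.measurable_im.comp hHm, fun n y σ => congrArg Complex.im (hHs n y σ),
      ⟨Real.exp G, fun ω _ => (Complex.abs_im_le_norm _).trans (hHn ω)⟩⟩
    (fun p ω => by
      have h1 := (Complex.abs_im_le_norm (H (ins p ω) - 1)).trans (hH1 (ins p ω))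
      have h2 := (Complex.abs_im_le_norm (H ω - 1)).trans (hH1 ω)
      rw [Complex.sub_im] at h1 h2
      show |(H (ins p ω)).im - (H ω).im| ≤ _
      rw [abs_le] at h1 h2 ⊢
      exact ⟨by linarith [h1.1, h2.2], by linarith [h1.2, h2.1]⟩)
    (fun p hp ω => by
      show (H (ins p ω)).im - (H ω).im = 0
      rw [hHins p hp ω, sub_self])
  -- assembly
  set X : ℝ := Xi (md m α) C lam L with hXdef
  have hX0 : 0 < X := lt_of_lt_of_le one_pos hXi1
  have hem : Measurable fun ω : Om S => Complex.exp (Complex.I * θ * (nV V ω : ℂ)) := by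
    have h1 : Measurable fun ω : Om S => (nV V ω : ℂ) := by
      have := Complex.measurable_ofReal.comp hnm
      simpa [Function.comp_def] using this
    exact Complex.measurable_exp.comp (measurable_const.mul h1)
  obtain ⟨f1, f2⟩ := Gain.fin_alg (gib (md m α) C lam L) (χ := chi C (Al S) x)
    (N := fun ω => (nV V ω : ℝ)) (e := fun ω => Complex.exp (Complex.I * θ * (nV V ω : ℂ)))
    (H := H) (t := |θ|) (g := Real.exp G) (n := lam * w)
    (c1 := c⁻¹ * (√(lam * b) * (2 * (Real.exp G - 1) * Real.exp (-(T - s)) * √(lam * w))))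
    (X := X) rfl hX0 (o8 x).meas (chi_nonneg _ _ _) (chi_le_one _ _ _) hHm hem hni
    (fun ω => Nat.cast_nonneg _) (fun ω => by
      have h1 := Stepx.exp_sub θ 0 (nV V ω)
      simpa using h1) (fun ω => (Stepx.norm_exp θ (nV V ω)).le) (abs_nonneg θ)
    (by linarith) hHn hH1 hnE hre him
  -- the identities
  have hb1 := hbl (chi C (Al S) x) (o8 x) (fun ω η hη => by
    refine Gain.chi_congr (Gain.fr_app C x ω η fun j hj => hη j (hCV _ hj)))
  have hb2 := hbl (fun _ => 1) ⟨measurable_const, fun _ _ _ => rfl, ⟨1, fun ω _ => by simp⟩⟩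
    (fun _ _ _ => rfl)
  have hXa : Xa m C lam L θ α ≠ 0 := (hZ α hα).1
  have hXa2 : Xa m C lam L θ α = qa m C lam L θ (off V α) *
      ∫ ω, Complex.exp (Complex.I * θ * (nV V ω : ℂ)) * H ω ∂gib (md m α) C lam L := by
    simpa [Xa] using hb2
  have hq : qa m C lam L θ (off V α) ≠ 0 := fun h => hXa (by rw [hXa2, h, zero_mul])
  have hI : ∫ ω, Complex.exp (Complex.I * θ * (nV V ω : ℂ)) * H ω ∂gib (md m α) C lam L ≠ 0 :=
    fun h => hXa (by rw [hXa2, h, mul_zero])
  obtain ⟨-, -, hoff, hra⟩ := hX S m C L lam b K hS θ α hα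
  have hXx : Xa m C lam L θ (off {z | C x z} α) = qa m C lam L θ (off V α) *
      ∫ ω, (chi C (Al S) x ω : ℂ) * (Complex.exp (Complex.I * θ * (nV V ω : ℂ)) * H ω)
        ∂gib (md m α) C lam L := by
    rw [(hoff {z | C x z} (measurable_prodMk_left hS.meas)).2, ← hb1]
    have hset : {ω : Om S | ∀ i, ω.2 i ∉ {z | C x z}} = (chi C (Al S) x) ⁻¹' {1} := by
      ext ω
      show (∀ i, ¬ C x (ω.2 i)) ↔ chi C (Al S) x ω = 1
      unfold chi
      by_cases h : fr C (Al S) x ω
      · rw [if_pos h]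
        exact ⟨fun _ => rfl, fun _ i => h i trivial⟩
      · rw [if_neg h]
        exact ⟨fun h' => (h fun i _ => h' i).elim, fun h' => (zero_ne_one h').elim⟩
    rw [hset, ← integral_indicator ((o8 x).meas (measurableSet_singleton 1))]
    refine integral_congr_ae (Eventually.of_forall fun ω => ?_)
    rcases Ok.chi_cases C (Al S) x ω with h | h
    · have h1 : ω ∉ (chi C (Al S) x) ⁻¹' {1} := fun h' => zero_ne_one (h.symm.trans h')
      simp only [Set.indicator_of_notMem h1, h, Complex.ofReal_zero, zero_mul]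
    · have h1 : ω ∈ (chi C (Al S) x) ⁻¹' {1} := h
      simp only [Set.indicator_of_mem h1, h, Complex.ofReal_one, one_mul]
  have hRa : Ra m C lam L θ α x * (∫ ω, Complex.exp (Complex.I * θ * (nV V ω : ℂ)) * H ω
      ∂gib (md m α) C lam L) =
      ∫ ω, (chi C (Al S) x ω : ℂ) * (Complex.exp (Complex.I * θ * (nV V ω : ℂ)) * H ω)
        ∂gib (md m α) C lam L := by
    unfold Ra
    rw [hXx, hXa2, mul_div_mul_left _ _ hq, div_mul_cancel₀ _ hI]
  have hR0 : Ra m C lam L 0 α x = (((∫ ω, chi C (Al S) x ω ∂gib (md m α) C lam L) / X : ℝ) : ℂ) :=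
    (hra x).1
  rw [← hRa, ← hR0, ← sub_mul, norm_mul] at f2
  have f3 := mul_le_mul_of_nonneg_left f1 (norm_nonneg (Ra m C lam L θ α x - Ra m C lam L 0 α x))
  have f4 := f3.trans f2
  have f5 : X * (‖Ra m C lam L θ α x - Ra m C lam L 0 α x‖ *
      (1 - (|θ| * (lam * w) * Real.exp G + (Real.exp G - 1)))) ≤
      X * (2 * (c⁻¹ * (√(lam * b) * (2 * (Real.exp G - 1) * Real.exp (-(T - s)) *
        √(lam * w)))) + |θ| * (lam * w) * Real.exp G) := by
    linarith
  have f6 := le_of_mul_le_mul_left f5 hX0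
  linarith

end Pool.Agent.HdGas
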