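import Pool.Agent.Lib.NT.RowsM
import Pool.Agent.Lib.MF.RowConv
import Pool.Agent.Lib.MF.Meas
import Pool.Agent.Lib.MF.Bas

/-!
# The mean number of points (sharp form)
-/

set_option autoImplicit false

namespace Pool.Agent.HdGas

open MeasureTheory Real Set Cv

noncomputable section

/-- **GAS2**. -/
theorem gas2_of (hP2 : PROF2) (hI : INT) : GAS2 := by
  intro S _ m _ C L b κ ε lam c K hG hS hε0 hP hε hκ hc0 hc
  have hlam := hS.lam_nonneg
  have h := hP2 S m C L b κ ε lam c K hG hS hε0 hP hε hκ hc0 hc
  obtain ⟨-, hN⟩ := hI S m C L b κ lam hG hlam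
  obtain ⟨-, -, -, hX1, -, -⟩ := bas S m C L lam hG.meas hG.measL hG.fin hlam
  obtain ⟨hmeas, -⟩ := meas S m C L lam hG.meas hG.measL hG.fin hlam
  obtain ⟨hχm, -, -, -, -⟩ := hmeas (Al S) (by
    have : {x : S | Al S x} = univ := by ext; simp [Al]
    rw [this]
    exact MeasurableSet.univ)
  have hX0 : 0 < Xi m C lam L := lt_of_lt_of_le one_pos hX1
  have : IsFiniteMeasure (gib m C lam L) :=
    (bas S m C L lam hG.meas hG.measL hG.fin hlam).2.2.1
  have hm : Measurable fun v => ex m C lam L (chi C (Al S) v) := by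
    unfold ex
    refine Measurable.div_const ?_ _
    exact (hχm.stronglyMeasurable.integral_prod_right').measurable
  have hχ1 : ∀ v ω, |chi C (Al S) v ω| ≤ 1 := fun v ω => by
    unfold chi
    split <;> simp
  have hb : ∀ v, |ex m C lam L (chi C (Al S) v)| ≤ 1 := by
    intro v
    unfold ex
    rw [abs_div, abs_of_pos hX0, div_le_one hX0]
    have e1 := norm_integral_le_of_norm_le_const (μ := gib m C lam L)
      (f := fun ω => chi C (Al S) v ω) (C := 1)
      (Filter.Eventually.of_forall fun ω => by rw [Real.norm_eq_abs]; exact hχ1 v ω)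
    rw [one_mul, Real.norm_eq_abs] at e1
    exact e1
  have i1 : IntegrableOn (fun v => ex m C lam L (chi C (Al S) v)) L m :=
    bdd (M := 1) hG.measL hG.fin hm fun v _ => hb v
  have e : b * ex m C lam L (fun ω => (ω.1 : ℝ)) - c * (m L).toReal =
      ∫ v in L, (lam * b * ex m C lam L (chi C (Al S) v) - c) ∂m := by
    rw [integral_sub (i1.const_mul (lam * b)) (integrableOn_const hG.fin),
      integral_const_mul, setIntegral_const, smul_eq_mul, hN]
    unfold Measure.real
    ring
  rw [e]
  exact (abs_integral_le_integral_abs).trans h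

end

end Pool.Agent.HdGas
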