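import Pool.Agent.Lib.NT.Rows
import Pool.Agent.Lib.MF.Int

/-!
# Project NT, row GINI: Ginibre's bound on the fluctuations (helper1)
-/

set_option autoImplicit false

namespace Pool.Agent.HdGas

open MeasureTheory Filter Topology

noncomputable section

namespace Gin

variable {S : Type} [MeasurableSpace S] {m : Measure S} [SigmaFinite m] {C : S → S → Prop}
  {L : Set S} {lam b : ℝ} {K : ℕ}

theorem fn_mul {F G : Om S → ℝ} (hF : Fn C L F) (hG : Fn C L G) : Fn C L (fun ω => F ω * G ω) := by
  obtain ⟨a, ha⟩ := hF.bdd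
  obtain ⟨c, hc⟩ := hG.bdd
  refine ⟨hF.meas.mul hG.meas, fun n x σ => ?_, a * c, fun ω hω => ?_⟩
  · show F _ * G _ = F _ * G _
    rw [hF.sym n x σ, hG.sym n x σ]
  · rw [abs_mul]
    exact mul_le_mul (ha ω hω) (hc ω hω) (abs_nonneg _) ((abs_nonneg _).trans (ha ω hω))

theorem fn_add {F G : Om S → ℝ} (hF : Fn C L F) (hG : Fn C L G) : Fn C L (fun ω => F ω + G ω) := by
  obtain ⟨a, ha⟩ := hF.bdd
  obtain ⟨c, hc⟩ := hG.bdd
  refine ⟨hF.meas.add hG.meas, fun n x σ => ?_, a + c, fun ω hω => ?_⟩
  · show F _ + G _ = F _ + G _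
    rw [hF.sym n x σ, hG.sym n x σ]
  · exact (abs_add_le _ _).trans (add_le_add (ha ω hω) (hc ω hω))

theorem fn_const (c : ℝ) : Fn C L (fun _ : Om S => c) :=
  ⟨measurable_const, fun _ _ _ => rfl, |c|, fun _ _ => le_rfl⟩

theorem sec_meas (hS : Sys m C L lam b K) (u : S) : MeasurableSet {z | C u z} :=
  measurable_prodMk_left hS.meas

theorem sec_meas' (hS : Sys m C L lam b K) (u : S) : MeasurableSet {z | C z u} :=
  measurable_prodMk_right hS.meas

theorem sec_le (hS : Sys m C L lam b K) (u : S) : (m {z | C z u}).toReal ≤ b := by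
  have e : {z | C z u} = {z | C u z} := by
    ext z
    exact ⟨hS.symm _ _, hS.symm _ _⟩
  rw [e]
  exact ENNReal.toReal_le_of_le_ofReal hS.b_pos.le (hS.ball u)

theorem sec_fin (hS : Sys m C L lam b K) (u : S) : m {z | C z u} ≠ ⊤ := by
  have e : {z | C z u} = {z | C u z} := by
    ext z
    exact ⟨hS.symm _ _, hS.symm _ _⟩
  rw [e]
  exact ((hS.ball u).trans_lt ENNReal.ofReal_lt_top).ne

theorem chi_abs (p : S) (ω : Om S) : |chi C (Al S) p ω| ≤ 1 := by
  rw [abs_of_nonneg (chi_nonneg C _ p ω)]
  exact chi_le_one C _ p ω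

/-- the free volume -/
def Aa (m : Measure S) (C : S → S → Prop) (lam : ℝ) (L : Set S) (ω : Om S) : ℝ :=
  lam * ∫ p in L, chi C (Al S) p ω ∂m

section
variable (hS : Sys m C L lam b K)
  (hχ : Measurable fun q : S × Om S => chi C (Al S) q.1 q.2)
include hS hχ

theorem chi_int (ω : Om S) : IntegrableOn (fun p => chi C (Al S) p ω) L m := by
  refine Measure.integrableOn_of_bounded (M := 1) hS.fin
    (hχ.comp (measurable_id.prodMk measurable_const)).aestronglyMeasurable ?_
  exact Filter.Eventually.of_forall fun p => by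
    rw [Real.norm_eq_abs]
    exact chi_abs p ω

theorem Aa_nonneg (ω : Om S) : 0 ≤ Aa m C lam L ω :=
  mul_nonneg hS.lam_nonneg (setIntegral_nonneg hS.measL fun p _ => chi_nonneg C _ p ω)

theorem Aa_le (ω : Om S) : Aa m C lam L ω ≤ lam * (m L).toReal := by
  refine mul_le_mul_of_nonneg_left ?_ hS.lam_nonneg
  have h1 : ∫ p in L, chi C (Al S) p ω ∂m ≤ ∫ p in L, (1 : ℝ) ∂m :=
    setIntegral_mono_on (chi_int hS hχ ω) (integrableOn_const hS.fin) hS.measL fun p _ =>
      chi_le_one C _ p ω
  refine h1.trans (le_of_eq ?_)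
  rw [setIntegral_const, smul_eq_mul, mul_one]
  rfl

theorem Aa_meas : Measurable (Aa m C lam L) := by
  unfold Aa
  refine Measurable.const_mul ?_ lam
  have h : Measurable fun q : Om S × S => chi C (Al S) q.2 q.1 := hχ.comp measurable_swap
  exact (h.stronglyMeasurable.integral_prod_right' (ν := m.restrict L)).measurable

omit hS hχ in
theorem chi_sym (p : S) : Sym (chi C (Al S) p) := by
  intro n x σ
  have : fr C (Al S) p ⟨n, x ∘ σ⟩ ↔ fr C (Al S) p ⟨n, x⟩ := by
    constructor
    · intro h i _
      have := h (σ.symm i) trivial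
      simpa using this
    · intro h i _
      exact h (σ i) trivial
  unfold chi
  by_cases h : fr C (Al S) p ⟨n, x⟩
  · rw [if_pos h, if_pos (this.2 h)]
  · rw [if_neg h, if_neg fun h' => h (this.1 h')]

omit hS hχ in
theorem Aa_sym : Sym (Aa m C lam L) := by
  intro n x σ
  unfold Aa
  congr 1
  refine integral_congr_ae (Filter.Eventually.of_forall fun p => ?_)
  exact chi_sym p n x σ

theorem Aa_fn : Fn C L (Aa m C lam L) :=
  ⟨Aa_meas hS hχ, Aa_sym, lam * (m L).toReal, fun ω _ => by
    rw [abs_of_nonneg (Aa_nonneg hS hχ ω)]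
    exact Aa_le hS hχ ω⟩

/-- lower bound of the free volume -/
theorem Aa_ge (ω : Om S) : lam * ((m L).toReal - b * ω.1) ≤ Aa m C lam L ω := by
  refine mul_le_mul_of_nonneg_left ?_ hS.lam_nonneg
  have h1 : ∀ p, 1 - ∑ i, ({z | C z (ω.2 i)}.indicator (fun _ => (1 : ℝ)) p) ≤
      chi C (Al S) p ω := by
    intro p
    unfold chi
    split_ifs with h
    · have : 0 ≤ ∑ i, ({z | C z (ω.2 i)}.indicator (fun _ => (1 : ℝ)) p) :=
        Finset.sum_nonneg fun i _ => Set.indicator_nonneg (fun _ _ => zero_le_one) _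
      linarith
    · have h2 : ∃ i, C p (ω.2 i) := by
        by_contra hcon
        push Not at hcon
        exact h fun i _ => hcon i
      obtain ⟨i, hi⟩ := h2
      have : 1 ≤ ∑ i, ({z | C z (ω.2 i)}.indicator (fun _ => (1 : ℝ)) p) := by
        have h3 : ({z | C z (ω.2 i)}.indicator (fun _ => (1 : ℝ)) p) = 1 :=
          Set.indicator_of_mem (s := {z | C z (ω.2 i)}) hi _
        have h4 := Finset.single_le_sum (s := Finset.univ)
          (f := fun i => {z | C z (ω.2 i)}.indicator (fun _ => (1 : ℝ)) p)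
          (fun j _ => Set.indicator_nonneg (fun _ _ => zero_le_one) _) (Finset.mem_univ i)
        linarith
      linarith
  have i1 : ∀ i, IntegrableOn ({z | C z (ω.2 i)}.indicator (fun _ => (1 : ℝ))) L m := fun i =>
    (integrable_indicator_iff (sec_meas' hS _)).2
      (integrableOn_const (by
        rw [Measure.restrict_apply (sec_meas' hS _)]
        exact ((measure_mono Set.inter_subset_left).trans_lt (sec_fin hS _).lt_top).ne))
  have i2 : IntegrableOn (fun p => 1 - ∑ i, ({z | C z (ω.2 i)}.indicator (fun _ => (1 : ℝ)) p)) L m :=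
    Integrable.sub (integrableOn_const hS.fin) (integrable_finsetSum _ fun i _ => i1 i)
  have h2 := setIntegral_mono_on i2 (chi_int hS hχ ω) hS.measL fun p _ => h1 p
  refine le_trans ?_ h2
  have e0 : ∫ p in L, (1 - ∑ i, ({z | C z (ω.2 i)}.indicator (fun _ => (1 : ℝ)) p)) ∂m =
      (∫ _p in L, (1 : ℝ) ∂m) - ∫ p in L, ∑ i, ({z | C z (ω.2 i)}.indicator (fun _ => (1 : ℝ)) p) ∂m :=
    integral_sub (μ := m.restrict L) (f := fun _ => (1 : ℝ)) (integrableOn_const hS.fin)
      (integrable_finsetSum _ fun i _ => i1 i)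
  rw [e0, integral_finsetSum _ fun i _ => i1 i, setIntegral_const, smul_eq_mul, mul_one]
  have h3 : ∀ i, ∫ p in L, {z | C z (ω.2 i)}.indicator (fun _ => (1 : ℝ)) p ∂m ≤ b := by
    intro i
    rw [integral_indicator (sec_meas' hS _), integral_const, smul_eq_mul, mul_one]
    refine le_trans ?_ (sec_le hS (ω.2 i))
    unfold Measure.real
    rw [Measure.restrict_restrict (sec_meas' hS _), Measure.restrict_apply_univ]
    exact ENNReal.toReal_mono (sec_fin hS _) (measure_mono Set.inter_subset_left)
  have h4 : ∑ i : Fin ω.1, ∫ p in L, {z | C z (ω.2 i)}.indicator (fun _ => (1 : ℝ)) p ∂m ≤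
      b * ω.1 := by
    refine (Finset.sum_le_sum fun i _ => h3 i).trans ?_
    rw [Finset.sum_const, Finset.card_univ, Fintype.card_fin, nsmul_eq_mul, mul_comm]
  have h5 : m.real L = (m L).toReal := rfl
  rw [h5]
  linarith

/-- a new point excludes at most the volume `b` -/
theorem Aa_ins (p : S) (ω : Om S) : Aa m C lam L ω - lam * b ≤ Aa m C lam L (ins p ω) := by
  unfold Aa
  rw [← mul_sub]
  refine mul_le_mul_of_nonneg_left ?_ hS.lam_nonneg
  have h1 : ∀ q, chi C (Al S) q ω - ({z | C z p}.indicator (fun _ => (1 : ℝ)) q) ≤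
      chi C (Al S) q (ins p ω) := by
    intro q
    by_cases h : C q p
    · rw [Set.indicator_of_mem (s := {z | C z p}) h]
      have := chi_le_one C (Al S) q ω
      have := chi_nonneg C (Al S) q (ins p ω)
      linarith
    · rw [Set.indicator_of_notMem (s := {z | C z p}) h, sub_zero]
      have h2 : fr C (Al S) q ω → fr C (Al S) q (ins p ω) := by
        intro hf i _
        refine Fin.cases ?_ (fun j => ?_) i
        · exact h
        · exact hf j trivial
      unfold chi
      split_ifs with h3 h4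
      · exact le_rfl
      · exact absurd (h2 h3) h4
      · exact zero_le_one
      · exact le_rfl
  have i1 : IntegrableOn ({z | C z p}.indicator (fun _ => (1 : ℝ))) L m :=
    (integrable_indicator_iff (sec_meas' hS _)).2
      (integrableOn_const (by
        rw [Measure.restrict_apply (sec_meas' hS _)]
        exact ((measure_mono Set.inter_subset_left).trans_lt (sec_fin hS _).lt_top).ne))
  have h2 := setIntegral_mono_on (Integrable.sub (chi_int hS hχ ω) i1) (chi_int hS hχ (ins p ω))
    hS.measL fun q _ => h1 q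
  have h4 : ∫ q in L, {z | C z p}.indicator (fun _ => (1 : ℝ)) q ∂m ≤ b := by
    rw [integral_indicator (sec_meas' hS _), integral_const, smul_eq_mul, mul_one]
    refine le_trans ?_ (sec_le hS p)
    unfold Measure.real
    rw [Measure.restrict_restrict (sec_meas' hS _), Measure.restrict_apply_univ]
    exact ENNReal.toReal_mono (sec_fin hS _) (measure_mono Set.inter_subset_left)
  have h5 : ∫ q in L, (fun q => chi C (Al S) q ω - ({z | C z p}.indicator (fun _ => (1 : ℝ)) q)) q ∂m =
      ∫ q in L, chi C (Al S) q ω ∂m - ∫ q in L, {z | C z p}.indicator (fun _ => (1 : ℝ)) q ∂m :=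
    integral_sub (chi_int hS hχ ω) i1
  have h6 : ∫ q in L, (fun q => chi C (Al S) q ω - ({z | C z p}.indicator (fun _ => (1 : ℝ)) q)) q ∂m
      ≤ ∫ q in L, chi C (Al S) q (ins p ω) ∂m := h2
  linarith

end

omit [MeasurableSpace S] in
/-- a removed point comes back -/
theorem sym_ins_del {F : Om S → ℝ} (hF : Sym F) (ω : Om S) (i : Fin ω.1) :
    F (ins (ω.2 i) (del ω i)) = F ω := by
  obtain ⟨n, x⟩ := ω
  cases n with
  | zero => exact i.elim0
  | succ n =>
    have e : (ins (x i) (del ⟨n + 1, x⟩ i)) = (⟨n + 1, x ∘ i.cycleRange.symm⟩ : Om S) := by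
      show (⟨n + 1, Fin.cons (x i) (i.removeNth x)⟩ : Om S) = _
      congr 1
      funext j
      refine Fin.cases ?_ (fun j => ?_) j
      · simp
      · simp [Fin.removeNth]
    show F (ins (x i) (del ⟨n + 1, x⟩ i)) = F ⟨n + 1, x⟩
    rw [e]
    exact hF (n + 1) x _

end Gin

open Gin

/-- **GINI**. -/
theorem gini_of (hG : GNZ) (hO : OKB) (hM : MEAS) (hB : BAS) : GINI := by
  intro S _ m _ C L lam b K hS
  have hl := hS.lam_nonneg
  have hb0 := hS.b_pos
  obtain ⟨-, -, hfinG, hX1, -, -⟩ := hB S m C L lam hS.meas hS.measL hS.fin hl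
  obtain ⟨hmeas, -⟩ := hM S m C L lam hS.meas hS.measL hS.fin hl
  obtain ⟨hχ, -, -, -, -⟩ := hmeas (Al S) (by
    have : {x : S | Al S x} = Set.univ := by ext; simp [Al]
    rw [this]
    exact MeasurableSet.univ)
  obtain ⟨hokm, hokae, hcard, hokins, -, hF, hNf, hχf⟩ := hO S m C L lam b K hS
  set ν := gib m C lam L with hν
  set X := Xi m C lam L with hX
  have hX0 : 0 < X := lt_of_lt_of_le one_pos hX1
  have hXne : X ≠ 0 := hX0.ne'
  have hXν : X = (ν Set.univ).toReal := rfl
  have hexd : ∀ f : Om S → ℝ, ex m C lam L f = (∫ ω, f ω ∂ν) / X := fun _ => rfl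
  have : IsFiniteMeasure (m.restrict L) := ⟨by
    rw [Measure.restrict_apply_univ]
    exact hS.fin.lt_top⟩
  set A : Om S → ℝ := Aa m C lam L with hA
  have hAf : Fn C L A := Aa_fn hS hχ
  have hint : ∀ {F : Om S → ℝ}, Fn C L F → Integrable F ν := fun hf => (hF _ hf).1
  -- linearity
  have hadd : ∀ {F G : Om S → ℝ}, Fn C L F → Fn C L G →
      ex m C lam L (fun ω => F ω + G ω) = ex m C lam L F + ex m C lam L G := by
    intro F G h1 h2
    rw [hexd, hexd, hexd, integral_add (hint h1) (hint h2), add_div]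
  have hcmul : ∀ (c : ℝ) (F : Om S → ℝ), ex m C lam L (fun ω => c * F ω) = c * ex m C lam L F := by
    intro c F
    rw [hexd, hexd, integral_const_mul, mul_div_assoc]
  have hone : ex m C lam L (fun _ => (1 : ℝ)) = 1 := by
    rw [hexd, integral_const, smul_eq_mul, mul_one]
    show ν.real Set.univ / X = 1
    rw [show ν.real Set.univ = X from rfl, div_self hXne]
  have hmono : ∀ {F G : Om S → ℝ}, Fn C L F → Fn C L G → (∀ ω, F ω ≤ G ω) →
      ex m C lam L F ≤ ex m C lam L G := by
    intro F G h1 h2 h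
    rw [hexd, hexd]
    exact div_le_div_of_nonneg_right (integral_mono (hint h1) (hint h2) h) hX0.le
  -- Fubini
  have hfub : ∀ {g : Om S → ℝ}, Fn C L g →
      lam * ∫ p in L, ex m C lam L (fun ω => chi C (Al S) p ω * g ω) ∂m =
        ex m C lam L (fun ω => A ω * g ω) := by
    intro g hg
    obtain ⟨B, hBg⟩ := hg.bdd
    have e1 : ∫ p in L, ∫ ω, chi C (Al S) p ω * g ω ∂ν ∂m =
        ∫ ω, ∫ p in L, chi C (Al S) p ω * g ω ∂m ∂ν := by
      refine integral_integral_swap (f := fun p ω => chi C (Al S) p ω * g ω) ?_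
      refine Integrable.of_bound (hχ.mul (hg.meas.comp measurable_snd)).aestronglyMeasurable B ?_
      have h2 : ∀ᵐ q ∂(m.restrict L).prod ν, ok C L q.2 :=
        Measure.quasiMeasurePreserving_snd.ae hokae
      filter_upwards [h2] with q hq
      rw [Real.norm_eq_abs]
      simp only [Function.uncurry]
      rw [abs_mul]
      calc |chi C (Al S) q.1 q.2| * |g q.2| ≤ 1 * |g q.2| :=
            mul_le_mul_of_nonneg_right (chi_abs _ _) (abs_nonneg _)
        _ ≤ B := by rw [one_mul]; exact hBg _ hq
    have e2 : ∀ p, ex m C lam L (fun ω => chi C (Al S) p ω * g ω) =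
        (∫ ω, chi C (Al S) p ω * g ω ∂ν) / X := fun p => hexd _
    simp_rw [e2]
    rw [integral_div, e1, hexd, ← mul_div_assoc, ← integral_const_mul]
    congr 2
    funext ω
    rw [integral_mul_const, ← mul_assoc]
    rfl
  -- the number of points
  set N : Om S → ℝ := fun ω => (ω.1 : ℝ) with hN
  have hN0 : ∀ ω, 0 ≤ N ω := fun ω => Nat.cast_nonneg _
  -- F0
  have f0 : ex m C lam L N = ex m C lam L A := by
    have h1 := hG S m C L lam b K hS (fun _ _ => 1) measurable_const (fun _ _ _ _ => rfl)
      ⟨1, fun _ _ _ _ _ => by simp⟩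
    have h2 : (fun ω : Om S => ∑ _i : Fin ω.1, (1 : ℝ)) = N := by
      funext ω
      simp [hN]
    have h3 := hfub (fn_const (1 : ℝ))
    rw [h2] at h1
    rw [h1, h3]
    congr 1
    funext ω
    rw [mul_one]
  -- F1
  have f1 : ex m C lam L (fun ω => N ω ^ 2) = ex m C lam L (fun ω => A ω * (N ω + 1)) := by
    have hN1 : Fn C L (fun ω => N ω + 1) := fn_add hNf (fn_const 1)
    have h1 := hG S m C L lam b K hS (fun _ ω => N ω + 1)
      ((hNf.meas.add_const 1).comp measurable_snd) (fun _ => hN1.sym) (by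
        obtain ⟨B, hB'⟩ := hN1.bdd
        exact ⟨B, fun _ ω _ hω _ => hB' ω hω⟩)
    have h2 : (fun ω : Om S => ∑ i : Fin ω.1, (N (del ω i) + 1)) = fun ω => N ω ^ 2 := by
      funext ω
      obtain ⟨n, x⟩ := ω
      cases n with
      | zero => simp [hN]
      | succ n =>
        show ∑ i : Fin (n + 1), (((n : ℕ) : ℝ) + 1) = (((n + 1 : ℕ) : ℝ)) ^ 2
        rw [Finset.sum_const, Finset.card_univ, Fintype.card_fin, nsmul_eq_mul]
        push_cast
        ring
    rw [h2] at h1
    rw [h1]
    exact hfub hN1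
  -- F2
  have f2 : ex m C lam L (fun ω => A ω * A ω) - lam * b * ex m C lam L A ≤
      ex m C lam L (fun ω => N ω * A ω) := by
    have hAm : Measurable fun q : S × Om S => A (ins q.1 q.2) := by
      have h1 := (hF A hAf).2.2.1
      have h2 : (fun q : S × Om S => A (ins q.1 q.2)) = fun q => D A q.1 q.2 + A q.2 := by
        funext q
        unfold D
        ring
      rw [h2]
      exact h1.add (hAf.meas.comp measurable_snd)
    have hAs : ∀ p, Sym (fun ω => A (ins p ω)) := by
      intro p n x σ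
      have h1 := (hF A hAf).2.2.2 p n x σ
      have h2 := hAf.sym n x σ
      unfold D at h1
      show A (ins p ⟨n, x ∘ σ⟩) = A (ins p ⟨n, x⟩)
      linarith
    have hAb : ∀ ω, |A ω| ≤ lam * (m L).toReal := fun ω => by
      rw [abs_of_nonneg (Aa_nonneg hS hχ ω)]
      exact Aa_le hS hχ ω
    have h1 := hG S m C L lam b K hS (fun p ω => A (ins p ω)) hAm hAs
      ⟨lam * (m L).toReal, fun p ω _ _ _ => hAb _⟩
    have h2 : (fun ω : Om S => ∑ i : Fin ω.1, A (ins (ω.2 i) (del ω i))) =
        fun ω => N ω * A ω := by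
      funext ω
      rw [Finset.sum_congr rfl fun i _ => sym_ins_del hAf.sym ω i, Finset.sum_const,
        Finset.card_univ, Fintype.card_fin, nsmul_eq_mul]
    rw [h2] at h1
    rw [h1]
    have hg : Fn C L (fun ω => A ω + (-(lam * b))) := fn_add hAf (fn_const _)
    have h3 : ex m C lam L (fun ω => A ω * A ω) - lam * b * ex m C lam L A =
        lam * ∫ p in L, ex m C lam L (fun ω => chi C (Al S) p ω * (A ω + (-(lam * b)))) ∂m := by
      rw [hfub hg]
      have h4 : (fun ω => A ω * (A ω + -(lam * b))) = fun ω => A ω * A ω + (-(lam * b)) * A ω := by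
        funext ω
        ring
      have h5 : Fn C L (fun ω => (-(lam * b)) * A ω) := fn_mul (fn_const _) hAf
      rw [h4, hadd (fn_mul hAf hAf) h5, hcmul]
      ring
    rw [h3]
    refine mul_le_mul_of_nonneg_left ?_ hl
    -- monotonicity
    have hbnd : ∀ {H : Om S → ℝ}, Measurable H → (∀ ω, |H ω| ≤ lam * (m L).toReal + lam * b) →
        ∀ p, Integrable (fun ω => chi C (Al S) p ω * H ω) ν := by
      intro H hHm hHb p
      refine Integrable.of_bound (((hχ.comp (measurable_const.prodMk measurable_id)).mul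
        hHm).aestronglyMeasurable) (lam * (m L).toReal + lam * b)
        (Filter.Eventually.of_forall fun ω => ?_)
      rw [Real.norm_eq_abs, abs_mul]
      calc |chi C (Al S) p ω| * |H ω| ≤ 1 * |H ω| :=
            mul_le_mul_of_nonneg_right (chi_abs _ _) (abs_nonneg _)
        _ ≤ _ := by rw [one_mul]; exact hHb ω
    have hb1 : ∀ ω, |A ω + (-(lam * b))| ≤ lam * (m L).toReal + lam * b := fun ω => by
      refine (abs_add_le _ _).trans (add_le_add (hAb ω) ?_)
      rw [abs_neg, abs_of_nonneg (mul_nonneg hl hb0.le)]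
    have hb2 : ∀ ω, |A ω| ≤ lam * (m L).toReal + lam * b := fun ω =>
      (hAb ω).trans (by linarith [mul_nonneg hl hb0.le])
    have hmL : ∀ {H : S → Om S → ℝ}, (Measurable fun q : S × Om S => H q.1 q.2) →
        (∀ p ω, |H p ω| ≤ lam * (m L).toReal + lam * b) →
        IntegrableOn (fun p => ex m C lam L (fun ω => chi C (Al S) p ω * H p ω)) L m := by
      intro H hHm hHb
      have hmeas1 : Measurable fun p => ex m C lam L (fun ω => chi C (Al S) p ω * H p ω) := by
        unfold ex
        refine Measurable.div_const ?_ _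
        exact ((hχ.mul hHm).stronglyMeasurable.integral_prod_right' (ν := gib m C lam L)).measurable
      refine Measure.integrableOn_of_bounded (M := lam * (m L).toReal + lam * b) hS.fin
        hmeas1.aestronglyMeasurable (Filter.Eventually.of_forall fun p => ?_)
      rw [Real.norm_eq_abs, hexd, abs_div, abs_of_pos hX0, div_le_iff₀ hX0]
      refine abs_integral_le_integral_abs.trans ?_
      have e1 : ∫ _ω : Om S, (lam * (m L).toReal + lam * b) ∂ν =
          (lam * (m L).toReal + lam * b) * X := by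
        rw [integral_const, smul_eq_mul, mul_comm]
        rfl
      rw [← e1]
      have hHp : Measurable (H p) := hHm.comp (measurable_const.prodMk measurable_id)
      refine integral_mono (hbnd hHp (hHb p) p).abs (integrable_const _) fun ω => ?_
      simp only [abs_mul]
      calc |chi C (Al S) p ω| * |H p ω| ≤ 1 * |H p ω| :=
            mul_le_mul_of_nonneg_right (chi_abs _ _) (abs_nonneg _)
        _ ≤ _ := by rw [one_mul]; exact hHb p ω
    refine setIntegral_mono_on
      (hmL (H := fun _ ω => A ω + (-(lam * b))) ((hAf.meas.add_const _).comp measurable_snd)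
        fun _ ω => hb1 ω)
      (hmL (H := fun p ω => A (ins p ω)) hAm fun p ω => hb2 _) hS.measL fun p _ => ?_
    rw [hexd, hexd]
    refine div_le_div_of_nonneg_right ?_ hX0.le
    have hAmp : Measurable fun ω => A (ins p ω) := hAm.comp (measurable_const.prodMk measurable_id)
    refine integral_mono (hbnd (hAf.meas.add_const _) hb1 p) (hbnd hAmp (fun ω => hb2 _) p)
      fun ω => ?_
    refine mul_le_mul_of_nonneg_left ?_ (chi_nonneg C _ p ω)
    have := Aa_ins hS hχ p ω
    show A ω + (-(lam * b)) ≤ A (ins p ω)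
    linarith
  -- Cauchy-Schwarz
  have hAA : Fn C L (fun ω => A ω * A ω) := fn_mul hAf hAf
  have hNN : Fn C L (fun ω => N ω * N ω) := fn_mul hNf hNf
  have hNA : Fn C L (fun ω => N ω * A ω) := fn_mul hNf hAf
  set n : ℝ := ex m C lam L N with hn
  set u : ℝ := ex m C lam L (fun ω => N ω ^ 2) - n ^ 2 with hu
  set c : ℝ := ex m C lam L (fun ω => N ω * A ω) - n ^ 2 with hc
  set a : ℝ := ex m C lam L (fun ω => A ω * A ω) - n ^ 2 with ha
  have hn0 : 0 ≤ n := by
    rw [hn, hexd]
    exact div_nonneg (integral_nonneg hN0) hX0.le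
  have hquad : ∀ x : ℝ, 0 ≤ a * (x * x) + (-2 * c) * x + u := by
    intro x
    have h1 : 0 ≤ ex m C lam L (fun ω => (((N ω - n) - x * (A ω - n))) ^ 2) := by
      rw [hexd]
      exact div_nonneg (integral_nonneg fun ω => sq_nonneg _) hX0.le
    have h2 : (fun ω => (((N ω - n) - x * (A ω - n))) ^ 2) = fun ω =>
        ((N ω * N ω + x ^ 2 * (A ω * A ω)) + (-2 * x) * (N ω * A ω)) +
          ((2 * (x * n - n) * N ω + (-2) * x * (x * n - n) * A ω) + (x * n - n) ^ 2 * 1) := by
      funext ω
      ring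
    rw [h2] at h1
    have g1 : Fn C L (fun ω => x ^ 2 * (A ω * A ω)) := fn_mul (fn_const _) hAA
    have g2 : Fn C L (fun ω => (-2 * x) * (N ω * A ω)) := fn_mul (fn_const _) hNA
    have g3 : Fn C L (fun ω => 2 * (x * n - n) * N ω) := fn_mul (fn_const _) hNf
    have g4 : Fn C L (fun ω => (-2) * x * (x * n - n) * A ω) := fn_mul (fn_const _) hAf
    have g5 : Fn C L (fun _ : Om S => (x * n - n) ^ 2 * 1) := fn_const _
    rw [hadd (fn_add (fn_add hNN g1) g2) (fn_add (fn_add g3 g4) g5), hadd (fn_add hNN g1) g2,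
      hadd hNN g1, hadd (fn_add g3 g4) g5, hadd g3 g4, hcmul, hcmul, hcmul, hcmul, hcmul, hone,
      ← f0] at h1
    have h3 : ex m C lam L (fun ω => N ω * N ω) = u + n ^ 2 := by
      rw [hu]
      simp only [sq]
      ring
    have h4 : ex m C lam L (fun ω => A ω * A ω) = a + n ^ 2 := by rw [ha]; ring
    have h5 : ex m C lam L (fun ω => N ω * A ω) = c + n ^ 2 := by rw [hc]; ring
    rw [h3, h4, h5] at h1
    nlinarith
  have hdisc := discrim_le_zero hquad
  unfold discrim at hdisc
  -- the two relations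
  have r1 : u = c + n := by
    rw [hu, hc, f1]
    have h1 : (fun ω => A ω * (N ω + 1)) = fun ω => N ω * A ω + A ω := by
      funext ω
      ring
    rw [h1, hadd hNA hAf, ← f0]
    ring
  have r2 : a - lam * b * n ≤ c := by
    rw [ha, hc]
    have := f2
    rw [← f0] at this
    linarith
  have hu0 : 0 ≤ u := by simpa using hquad 0
  have hlb : 0 ≤ lam * b := mul_nonneg hl hb0.le
  constructor
  · show n ≤ (1 + lam * b) * u
    rcases eq_or_lt_of_le hn0 with h0 | h0
    · rw [← h0]
      positivity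
    rcases eq_or_lt_of_le hu0 with h1 | h1
    · -- u = 0
      exfalso
      rw [← h1] at hdisc
      have h2 : c = 0 := by nlinarith [sq_nonneg c]
      rw [← h1, h2] at r1
      linarith
    · have h2 : c ^ 2 ≤ a * u := by nlinarith
      have h3 : c ^ 2 ≤ (c + lam * b * n) * u :=
        h2.trans (mul_le_mul_of_nonneg_right (by linarith) h1.le)
      rw [r1] at h3 ⊢
      have h4 : 0 ≤ n * (c + lam * b * (c + n)) := by nlinarith
      have h5 : 0 ≤ c + lam * b * (c + n) := nonneg_of_mul_nonneg_right h4 h0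
      nlinarith
  · -- the density
    have h1 : lam * ((m L).toReal - b * n) ≤ n := by
      have h2 : ex m C lam L (fun ω => lam * (m L).toReal + (-(lam * b)) * N ω) ≤
          ex m C lam L A := by
        refine hmono (fn_add (fn_const _) (fn_mul (fn_const _) hNf)) hAf fun ω => ?_
        have := Aa_ge hS hχ ω
        show lam * (m L).toReal + (-(lam * b)) * (ω.1 : ℝ) ≤ Aa m C lam L ω
        linarith
      have g : Fn C L (fun ω => (-(lam * b)) * N ω) := fn_mul (fn_const _) hNf
      have g2 : ex m C lam L (fun _ : Om S => lam * (m L).toReal) = lam * (m L).toReal := by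
        have := hcmul (lam * (m L).toReal) (fun _ => 1)
        rw [hone] at this
        simpa using this
      rw [hadd (fn_const _) g, g2, hcmul (-(lam * b)) N, ← f0] at h2
      linarith
    show lam * (m L).toReal ≤ (1 + lam * b) * n
    linarith

end

end Pool.Agent.HdGas
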