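import Pool.Agent.Lib.NT.Top

/-!
# No transition in high dimension: density up to `d / 9`
-/

set_option autoImplicit false

namespace Pool.Agent.HdGas

open MeasureTheory Filter Topology Pool.Agent.SquareWellGas Pool.Agent.KacGas Pool.Agent.VdwGas

namespace HighR

theorem kap_le (d : ℕ) : kap d ≤ Real.exp (-((d : ℝ) / 7)) := by
  have hlog : (2 : ℝ) / 7 ≤ Real.log (4 / 3) := by
    have h := Real.le_log_one_add_of_nonneg (x := 1 / 3) (by norm_num)
    norm_num at h ⊢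
    exact h
  have h2 : √3 / 2 = Real.exp (-(Real.log (4 / 3) / 2)) := by
    have h3 : Real.exp (-(Real.log (4 / 3) / 2)) = √(3 / 4) := by
      rw [Real.sqrt_eq_rpow, Real.rpow_def_of_pos (by norm_num)]
      congr 1
      have : Real.log (4 / 3) = -Real.log (3 / 4) := by
        rw [← Real.log_inv]; norm_num
      rw [this]; ring
    rw [h3, Real.sqrt_div (by norm_num)]
    congr 1
    rw [show (4 : ℝ) = 2 ^ 2 by norm_num, Real.sqrt_sq (by norm_num)]
  unfold kap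
  rw [h2, ← Real.exp_nat_mul]
  have hd : (0 : ℝ) ≤ d := Nat.cast_nonneg d
  apply Real.exp_le_exp.mpr
  nlinarith

/-- The largest value of `c` which is considered. -/
noncomputable def c1 (d : ℕ) : ℝ := (d : ℝ) / 9 + 1

theorem c1_pos (d : ℕ) : 0 < c1 d := by unfold c1; positivity

theorem num_ok : ∃ d0 : ℕ, 1 ≤ d0 ∧ ∀ d : ℕ, d0 ≤ d →
    c1 d * Real.exp (c1 d) * epd d < 1 ∧
    (d : ℝ) / 9 < (1 - 2 * (c1 d * Real.exp (c1 d) * kap d)) * c1 d := by
  have hl : Tendsto (fun x : ℝ => 4 * Real.exp 1 * ((x / 9 + 1) ^ 2 * Real.exp (-(1 / 72 * x))))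
      atTop (𝓝 0) := by
    have h2 := Real.tendsto_pow_mul_exp_neg_atTop_nhds_zero 2
    have h3 : Tendsto (fun x : ℝ => (x / 72) ^ 2 * Real.exp (-(x / 72))) atTop (𝓝 0) :=
      h2.comp (tendsto_id.atTop_div_const (by norm_num))
    have h1 : Tendsto (fun x : ℝ => (x / 9 + 1) ^ 2 * Real.exp (-(1 / 72 * x))) atTop (𝓝 0) := by
      refine squeeze_zero' ?_ ?_ ((h3.const_mul (16 ^ 2)).trans_eq (by simp))
      · filter_upwards [eventually_ge_atTop 0] with x hx
        positivity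
      · filter_upwards [eventually_ge_atTop 9] with x hx
        have e1 : -(1 / 72 * x) = -(x / 72) := by ring
        rw [e1, ← mul_assoc, ← mul_pow]
        gcongr
        linarith
    simpa using h1.const_mul (4 * Real.exp 1)
  have hev := (hl.comp tendsto_natCast_atTop_atTop).eventually_lt_const
    (show (0 : ℝ) < 1 by norm_num)
  obtain ⟨d0, hd0⟩ := (hev.and (eventually_ge_atTop 1)).exists_forall_of_atTop
  refine ⟨max d0 1, le_max_right _ _, fun d hd => ?_⟩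
  have h1 := (hd0 d ((le_max_left _ _).trans hd)).1
  simp only [Function.comp] at h1
  have hx : (0 : ℝ) ≤ d := Nat.cast_nonneg d
  obtain ⟨c, hc⟩ : ∃ c, c = c1 d := ⟨_, rfl⟩
  have hcd : c = (d : ℝ) / 9 + 1 := by rw [hc]; rfl
  have hc1 : 1 ≤ c := by rw [hcd]; linarith [div_nonneg hx (by norm_num : (0 : ℝ) ≤ 9)]
  rw [← hc]
  rw [← hcd] at h1
  have hexp : Real.exp c = Real.exp 1 * Real.exp ((d : ℝ) / 9) := by
    rw [hcd, add_comm, Real.exp_add]
  constructor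
  · have hs2 : √2 ≤ 2 := by
      rw [Real.sqrt_le_left (by norm_num)]; norm_num
    have e2 : Real.exp ((d : ℝ) / 9) * Real.exp (-(d : ℝ) / 8) = Real.exp (-(1 / 72 * d)) := by
      rw [← Real.exp_add]; congr 1; ring
    unfold epd
    calc c * Real.exp c * (√2 * Real.exp (-(d : ℝ) / 8)) =
        √2 * Real.exp 1 * c * (Real.exp ((d : ℝ) / 9) * Real.exp (-(d : ℝ) / 8)) := by
          rw [hexp]; ring
      _ = √2 * Real.exp 1 * c * Real.exp (-(1 / 72 * d)) := by rw [e2]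
      _ ≤ 4 * Real.exp 1 * c ^ 2 * Real.exp (-(1 / 72 * d)) := by
          gcongr
          · linarith
          · nlinarith
      _ = 4 * Real.exp 1 * (c ^ 2 * Real.exp (-(1 / 72 * d))) := by ring
      _ < 1 := h1
  · have h5 : 2 * (c * Real.exp c * kap d) * c < 1 := by
      calc 2 * (c * Real.exp c * kap d) * c
          ≤ 2 * (c * Real.exp c * Real.exp (-((d : ℝ) / 7))) * c := by
            have := kap_le d
            gcongr
        _ = 2 * Real.exp 1 * c ^ 2 * (Real.exp ((d : ℝ) / 9) * Real.exp (-((d : ℝ) / 7))) := by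
            rw [hexp]; ring
        _ ≤ 4 * Real.exp 1 * c ^ 2 * Real.exp (-(1 / 72 * d)) := by
            rw [← Real.exp_add]
            have h6 : Real.exp ((d : ℝ) / 9 + -((d : ℝ) / 7)) ≤ Real.exp (-(1 / 72 * d)) := by
              apply Real.exp_le_exp.mpr
              linarith
            have h7 : 2 * Real.exp 1 * c ^ 2 ≤ 4 * Real.exp 1 * c ^ 2 := by
              have : 0 ≤ Real.exp 1 * c ^ 2 := by positivity
              linarith
            exact mul_le_mul h7 h6 (Real.exp_pos _).le (by positivity)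
        _ = 4 * Real.exp 1 * (c ^ 2 * Real.exp (-(1 / 72 * d))) := by ring
        _ < 1 := h1
    have : (1 - 2 * (c * Real.exp c * kap d)) * c = c - 2 * (c * Real.exp c * kap d) * c := by ring
    rw [this]
    have h8 : (d : ℝ) / 9 = c - 1 := by rw [hcd]; ring
    rw [h8]
    linarith

/-- A supergradient of a concave function. -/
theorem exists_super {f : ℝ → ℝ} {r ρ : ℝ} (hf : ConcaveOn ℝ (Set.Ioo 0 r) f)
    (hρ : ρ ∈ Set.Ioo 0 r) : ∃ μ : ℝ, ∀ x ∈ Set.Ioo 0 r, f x + μ * x ≤ f ρ + μ * ρ := by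
  obtain ⟨A, hA⟩ : ∃ A : Set ℝ, A = (fun x => (f x - f ρ) / (x - ρ)) '' Set.Ioo ρ r := ⟨_, rfl⟩
  have hne : A.Nonempty := by
    rw [hA]; exact (Set.nonempty_Ioo.mpr hρ.2).image _
  have hup : ∀ y ∈ Set.Ioo 0 ρ, ∀ a ∈ A, a ≤ (f ρ - f y) / (ρ - y) := by
    intro y hy a ha
    rw [hA] at ha
    obtain ⟨x, hx, rfl⟩ := ha
    exact hf.slope_anti_adjacent ⟨hy.1, hy.2.trans hρ.2⟩ ⟨hρ.1.trans hx.1, hx.2⟩ hy.2 hx.1
  have hbdd : BddAbove A := by
    refine ⟨(f ρ - f (ρ / 2)) / (ρ - ρ / 2), fun a ha => hup _ ⟨?_, ?_⟩ a ha⟩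
    · linarith [hρ.1]
    · linarith [hρ.1]
  refine ⟨-sSup A, fun x hx => ?_⟩
  rcases lt_trichotomy x ρ with h | h | h
  · have h1 : sSup A ≤ (f ρ - f x) / (ρ - x) := csSup_le hne (hup x ⟨hx.1, h⟩)
    rw [le_div_iff₀ (by linarith)] at h1
    linarith
  · rw [h]
  · have h1 : (f x - f ρ) / (x - ρ) ≤ sSup A := le_csSup hbdd (by
      rw [hA]; exact ⟨x, ⟨h, hx.2⟩, rfl⟩)
    rw [div_le_iff₀ (by linarith)] at h1
    linarith

/-- The chemical potential as a function of `c`. -/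
theorem exp_mu {b c : ℝ} (hb : 0 < b) (hc : 0 < c) :
    Real.exp (Real.log (c / b) + c) * b = c * Real.exp c := by
  rw [Real.exp_add, Real.exp_log (by positivity)]
  field_simp

/-- The pressure at a density which is maximal. -/
theorem pr_eq {f : ℝ → ℝ} {P : ℝ → ℝ} {r : ℝ}
    (hP : ∀ μ : ℝ, (∀ x ∈ Set.Ioo 0 r, f x + μ * x ≤ P μ) ∧
      ∀ δ : ℝ, 0 < δ → ∃ x ∈ Set.Ioo 0 r, P μ - δ ≤ f x + μ * x) {μ ρ : ℝ}
    (hρ : ρ ∈ Set.Ioo 0 r) (hmax : ∀ x ∈ Set.Ioo 0 r, f x + μ * x ≤ f ρ + μ * ρ) :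
    P μ = f ρ + μ * ρ := by
  refine le_antisymm ?_ ((hP μ).1 ρ hρ)
  refine le_of_forall_pos_le_add fun δ hδ => ?_
  obtain ⟨x, hx, hx2⟩ := (hP μ).2 δ hδ
  have := hmax x hx
  linarith

end HighR

open HighR in
theorem highd_of (hU : UNIT) (hT : THERMO) (hJ : JJP) (hB : BALLF) (hP : PHI) (hg : GEOB) :
    HIGHD := by
  obtain ⟨d0, hd1, hnum⟩ := num_ok
  refine ⟨d0, fun d hd f r hF hconc => ?_⟩
  have hd' : 1 ≤ d := hd1.trans hd
  obtain ⟨n1, n2⟩ := hnum d hd
  have hb : 0 < bv d := (hg d hd' 1).b_pos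
  have hc := c1_pos d
  have he : 0 ≤ epd d := by unfold epd; positivity
  have hFT : FT d (epd d) := by
    intro ξ
    rw [hB d hd' ξ]
    have := hP d hd' (√(∑ k, ξ k ^ 2)) (Real.sqrt_nonneg _)
    nlinarith
  obtain ⟨P, hPr, -, hPP⟩ := hT d hd' f r hF
  obtain ⟨μ1, hμ1⟩ : ∃ μ1, μ1 = Real.log (c1 d / bv d) + c1 d := ⟨_, rfl⟩
  have e1 : Real.exp μ1 * bv d = c1 d * Real.exp (c1 d) := by rw [hμ1]; exact exp_mu hb hc
  have hJ1 : ∀ h : ℝ, 0 ≤ h → h * ((1 - 2 * (c1 d * Real.exp (c1 d) * kap d)) * c1 d) ≤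
      bv d * (P (μ1 + h) - P μ1) := by
    intro h hh
    have := hJ d hd' P hPr μ1 (c1 d) hc.le e1.symm h hh
    rwa [e1] at this
  have hr : (d : ℝ) / 9 < r * bv d := by
    have hPle : P (μ1 + 1) ≤ P μ1 + r := by
      refine le_of_forall_pos_le_add fun δ hδ => ?_
      obtain ⟨x, hx1, hx2⟩ := (hPP (μ1 + 1)).2 δ hδ
      have := (hPP μ1).1 x hx1
      have := hx1.2
      linarith
    have h9 := mul_le_mul_of_nonneg_left hPle hb.le
    have := hJ1 1 zero_le_one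
    rw [one_mul] at this
    nlinarith
  refine ⟨hr, fun ρ hρ hρb => ?_⟩
  have hρr : ρ < r := by
    by_contra hcon
    push Not at hcon
    have := mul_le_mul_of_nonneg_right hcon hb.le
    linarith
  have hρI : ρ ∈ Set.Ioo 0 r := ⟨hρ, hρr⟩
  obtain ⟨μ, hμ⟩ := exists_super hconc hρI
  have hle : μ ≤ μ1 := by
    by_contra hcon
    push Not at hcon
    have hpos : 0 < μ - μ1 := by linarith
    have g1 := hJ1 (μ - μ1) hpos.le
    have e2 : μ1 + (μ - μ1) = μ := by ring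
    rw [e2] at g1
    have g2 := (hPP μ1).1 ρ hρI
    rw [pr_eq hPP hρI hμ] at g1
    have g3 : bv d * (f ρ + μ * ρ - P μ1) ≤ (μ - μ1) * (ρ * bv d) := by
      have := mul_le_mul_of_nonneg_left g2 hb.le
      nlinarith
    have g4 : (μ - μ1) * ((1 - 2 * (c1 d * Real.exp (c1 d) * kap d)) * c1 d) ≤
        (μ - μ1) * (ρ * bv d) := g1.trans g3
    have g5 := le_of_mul_le_mul_left g4 hpos
    linarith
  refine hU d hd' (epd d) he hFT f r hF hconc μ ρ hρI hμ ?_
  have h1 : Real.exp μ * bv d ≤ c1 d * Real.exp (c1 d) := by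
    rw [← e1]; gcongr
  calc Real.exp μ * bv d * epd d ≤ c1 d * Real.exp (c1 d) * epd d := by gcongr
    _ < 1 := n1

end Pool.Agent.HdGas
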