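import Pool.Agent.Lib.NT.HighD
import Pool.Agent.Lib.NT.Top3

/-!
# No transition in high dimension: density up to `d / 7`
-/

set_option autoImplicit false

namespace Pool.Agent.HdGas

open MeasureTheory Filter Topology Pool.Agent.SquareWellGas Pool.Agent.KacGas Pool.Agent.VdwGas

theorem log43 : LOG43 := by
  unfold LOG43
  have h1 : Real.exp 23 ≤ (4 / 3 : ℝ) ^ 80 := by
    have h2 : Real.exp 23 = Real.exp 1 ^ 23 := by rw [← Real.exp_nat_mul]; norm_num
    rw [h2]
    calc Real.exp 1 ^ 23 ≤ (2.7182818286 : ℝ) ^ 23 :=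
          pow_le_pow_left₀ (Real.exp_pos _).le Real.exp_one_lt_d9.le 23
      _ ≤ (4 / 3 : ℝ) ^ 80 := by norm_num
  have h3 := Real.log_le_log (Real.exp_pos _) h1
  rw [Real.log_exp, Real.log_pow] at h3
  push_cast at h3
  linarith

namespace HighR

theorem kap_le7 (d : ℕ) : kap d ≤ Real.exp (-(2875 / 20000 * (d : ℝ))) := by
  have hlog := log43
  unfold LOG43 at hlog
  have h2 : √3 / 2 = Real.exp (-(Real.log (4 / 3) / 2)) := by
    have h3 : Real.exp (-(Real.log (4 / 3) / 2)) = √(3 / 4) := by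
      rw [Real.sqrt_eq_rpow, Real.rpow_def_of_pos (by norm_num)]
      congr 1
      have : Real.log (4 / 3) = -Real.log (3 / 4) := by
        rw [← Real.log_inv]; norm_num
      rw [this]; ring
    rw [h3, Real.sqrt_div (by norm_num)]
    congr 1
    rw [show (4 : ℝ) = 2 ^ 2 by norm_num, Real.sqrt_sq (by norm_num)]
  unfold kap
  rw [h2, ← Real.exp_nat_mul]
  have hd : (0 : ℝ) ≤ d := Nat.cast_nonneg d
  apply Real.exp_le_exp.mpr
  nlinarith

/-- The largest value of `c` which is considered. -/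
noncomputable def c7 (d : ℕ) : ℝ := (d : ℝ) / 7 + 1

theorem c7_pos (d : ℕ) : 0 < c7 d := by unfold c7; positivity

theorem num_ok7 : ∃ d0 : ℕ, 1 ≤ d0 ∧ ∀ d : ℕ, d0 ≤ d →
    c7 d * Real.exp (c7 d) * Real.exp (-(29 / 200 * (d : ℝ))) < 1 ∧
    (d : ℝ) / 7 < (1 - 2 * (c7 d * Real.exp (c7 d) * kap d)) * c7 d := by
  have hl : Tendsto (fun x : ℝ => 2 * Real.exp 1 * ((x / 7 + 1) ^ 2 *
      Real.exp (-(1 / 1200 * x)))) atTop (𝓝 0) := by
    have h2 := Real.tendsto_pow_mul_exp_neg_atTop_nhds_zero 2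
    have h3 : Tendsto (fun x : ℝ => (x / 1200) ^ 2 * Real.exp (-(x / 1200))) atTop (𝓝 0) :=
      h2.comp (tendsto_id.atTop_div_const (by norm_num))
    have h1 : Tendsto (fun x : ℝ => (x / 7 + 1) ^ 2 * Real.exp (-(1 / 1200 * x))) atTop (𝓝 0) := by
      refine squeeze_zero' ?_ ?_ ((h3.const_mul (400 ^ 2)).trans_eq (by simp))
      · filter_upwards [eventually_ge_atTop 0] with x hx
        positivity
      · filter_upwards [eventually_ge_atTop 7] with x hx
        have e1 : -(1 / 1200 * x) = -(x / 1200) := by ring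
        rw [e1, ← mul_assoc, ← mul_pow]
        gcongr
        linarith
    simpa using h1.const_mul (2 * Real.exp 1)
  have hev := (hl.comp tendsto_natCast_atTop_atTop).eventually_lt_const
    (show (0 : ℝ) < 1 by norm_num)
  obtain ⟨d0, hd0⟩ := (hev.and (eventually_ge_atTop 1)).exists_forall_of_atTop
  refine ⟨max d0 1, le_max_right _ _, fun d hd => ?_⟩
  have h1 := (hd0 d ((le_max_left _ _).trans hd)).1
  simp only [Function.comp] at h1
  have hx : (0 : ℝ) ≤ d := Nat.cast_nonneg d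
  obtain ⟨c, hc⟩ : ∃ c, c = c7 d := ⟨_, rfl⟩
  have hcd : c = (d : ℝ) / 7 + 1 := by rw [hc]; rfl
  have hc1 : 1 ≤ c := by rw [hcd]; linarith [div_nonneg hx (by norm_num : (0 : ℝ) ≤ 7)]
  rw [← hc]
  rw [← hcd] at h1
  have hexp : Real.exp c = Real.exp 1 * Real.exp ((d : ℝ) / 7) := by
    rw [hcd, add_comm, Real.exp_add]
  constructor
  · have e2 : Real.exp ((d : ℝ) / 7) * Real.exp (-(29 / 200 * (d : ℝ))) ≤
        Real.exp (-(1 / 1200 * d)) := by
      rw [← Real.exp_add]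
      apply Real.exp_le_exp.mpr
      linarith
    calc c * Real.exp c * Real.exp (-(29 / 200 * (d : ℝ))) =
        Real.exp 1 * c * (Real.exp ((d : ℝ) / 7) * Real.exp (-(29 / 200 * (d : ℝ)))) := by
          rw [hexp]; ring
      _ ≤ Real.exp 1 * c * Real.exp (-(1 / 1200 * d)) := by gcongr
      _ ≤ 2 * Real.exp 1 * c ^ 2 * Real.exp (-(1 / 1200 * d)) := by
          gcongr
          · linarith [Real.exp_pos 1]
          · nlinarith
      _ = 2 * Real.exp 1 * (c ^ 2 * Real.exp (-(1 / 1200 * d))) := by ring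
      _ < 1 := h1
  · have h5 : 2 * (c * Real.exp c * kap d) * c < 1 := by
      calc 2 * (c * Real.exp c * kap d) * c
          ≤ 2 * (c * Real.exp c * Real.exp (-(2875 / 20000 * (d : ℝ)))) * c := by
            have := kap_le7 d
            gcongr
        _ = 2 * Real.exp 1 * c ^ 2 *
            (Real.exp ((d : ℝ) / 7) * Real.exp (-(2875 / 20000 * (d : ℝ)))) := by
            rw [hexp]; ring
        _ ≤ 2 * Real.exp 1 * c ^ 2 * Real.exp (-(1 / 1200 * d)) := by
            rw [← Real.exp_add]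
            have h6 : Real.exp ((d : ℝ) / 7 + -(2875 / 20000 * (d : ℝ))) ≤
                Real.exp (-(1 / 1200 * d)) := by
              apply Real.exp_le_exp.mpr
              linarith
            gcongr
        _ = 2 * Real.exp 1 * (c ^ 2 * Real.exp (-(1 / 1200 * d))) := by ring
        _ < 1 := h1
    have : (1 - 2 * (c * Real.exp c * kap d)) * c = c - 2 * (c * Real.exp c * kap d) * c := by ring
    rw [this]
    have h8 : (d : ℝ) / 7 = c - 1 := by rw [hcd]; ring
    rw [h8]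
    linarith

end HighR

open HighR in
theorem highd7_of (hU : UNIT) (hT : THERMO) (hJ : JJP) (hB : BALLF) (hP : PHI7) (hg : GEOB) :
    HIGHD7 := by
  obtain ⟨d0, hd1, hnum⟩ := num_ok7
  obtain ⟨d1, hP⟩ := hP
  refine ⟨max d0 d1, fun d hd f r hF hconc => ?_⟩
  have hdd0 : d0 ≤ d := (le_max_left _ _).trans hd
  have hd' : 1 ≤ d := hd1.trans hdd0
  obtain ⟨n1, n2⟩ := hnum d hdd0
  have hb : 0 < bv d := (hg d hd' 1).b_pos
  have hc := c7_pos d
  obtain ⟨e7, he7⟩ : ∃ e, e = Real.exp (-(29 / 200 * (d : ℝ))) := ⟨_, rfl⟩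
  have he : 0 ≤ e7 := by rw [he7]; positivity
  rw [← he7] at n1
  have hFT : FT d e7 := by
    intro ξ
    rw [hB d hd' ξ]
    have := hP d ((le_max_right _ _).trans hd) (√(∑ k, ξ k ^ 2)) (Real.sqrt_nonneg _)
    rw [← he7] at this
    nlinarith
  obtain ⟨P, hPr, -, hPP⟩ := hT d hd' f r hF
  obtain ⟨μ1, hμ1⟩ : ∃ μ1, μ1 = Real.log (c7 d / bv d) + c7 d := ⟨_, rfl⟩
  have e1 : Real.exp μ1 * bv d = c7 d * Real.exp (c7 d) := by rw [hμ1]; exact exp_mu hb hc
  have hJ1 : ∀ h : ℝ, 0 ≤ h → h * ((1 - 2 * (c7 d * Real.exp (c7 d) * kap d)) * c7 d) ≤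
      bv d * (P (μ1 + h) - P μ1) := by
    intro h hh
    have := hJ d hd' P hPr μ1 (c7 d) hc.le e1.symm h hh
    rwa [e1] at this
  have hr : (d : ℝ) / 7 < r * bv d := by
    have hPle : P (μ1 + 1) ≤ P μ1 + r := by
      refine le_of_forall_pos_le_add fun δ hδ => ?_
      obtain ⟨x, hx1, hx2⟩ := (hPP (μ1 + 1)).2 δ hδ
      have := (hPP μ1).1 x hx1
      have := hx1.2
      linarith
    have h9 := mul_le_mul_of_nonneg_left hPle hb.le
    have := hJ1 1 zero_le_one
    rw [one_mul] at this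
    nlinarith
  refine ⟨hr, fun ρ hρ hρb => ?_⟩
  have hρr : ρ < r := by
    by_contra hcon
    push Not at hcon
    have := mul_le_mul_of_nonneg_right hcon hb.le
    linarith
  have hρI : ρ ∈ Set.Ioo 0 r := ⟨hρ, hρr⟩
  obtain ⟨μ, hμ⟩ := exists_super hconc hρI
  have hle : μ ≤ μ1 := by
    by_contra hcon
    push Not at hcon
    have hpos : 0 < μ - μ1 := by linarith
    have g1 := hJ1 (μ - μ1) hpos.le
    have e2 : μ1 + (μ - μ1) = μ := by ring
    rw [e2] at g1
    have g2 := (hPP μ1).1 ρ hρI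
    rw [pr_eq hPP hρI hμ] at g1
    have g3 : bv d * (f ρ + μ * ρ - P μ1) ≤ (μ - μ1) * (ρ * bv d) := by
      have := mul_le_mul_of_nonneg_left g2 hb.le
      nlinarith
    have g4 : (μ - μ1) * ((1 - 2 * (c7 d * Real.exp (c7 d) * kap d)) * c7 d) ≤
        (μ - μ1) * (ρ * bv d) := g1.trans g3
    have g5 := le_of_mul_le_mul_left g4 hpos
    linarith
  refine hU d hd' e7 he hFT f r hF hconc μ ρ hρI hμ ?_
  have h1 : Real.exp μ * bv d ≤ c7 d * Real.exp (c7 d) := by
    rw [← e1]; gcongr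
  calc Real.exp μ * bv d * e7 ≤ c7 d * Real.exp (c7 d) * e7 := by gcongr
    _ < 1 := n1

end Pool.Agent.HdGas
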