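import Pool.Agent.Lib.NT.Rows4
import Pool.Agent.Lib.MF.Integ

/-!
# Row 4-INTEG4: integration of the slopes of the pressure, cubic error
-/

set_option autoImplicit false

namespace Pool.Agent.HdGas

open MeasureTheory Filter Topology

theorem integ4_of : INTEG4 := by
  intro b A T P hb hA hP hS
  -- the root function
  have hex : ∀ μ : ℝ, ∃ c : ℝ, 0 ≤ c ∧ c * Real.exp c = Real.exp μ * b := fun μ =>
    IntegAux.exists_root (mul_nonneg (Real.exp_pos _).le hb.le)
  choose C hC0 hC1 using hex
  have hCpos : ∀ μ, 0 < C μ := by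
    intro μ
    rcases (hC0 μ).lt_or_eq with h | h
    · exact h
    · exfalso
      have := hC1 μ
      rw [← h] at this
      have h2 : 0 < Real.exp μ * b := mul_pos (Real.exp_pos _) hb
      simp at this
      linarith
  have hCmono : ∀ x y : ℝ, x ≤ y → C x ≤ C y := by
    intro x y hxy
    apply IntegAux.mono (hC0 y)
    rw [hC1, hC1]
    exact mul_le_mul_of_nonneg_right (Real.exp_le_exp.2 hxy) hb.le
  have hF : ∀ x y : ℝ, x ≤ y →
      (y - x) * C x ≤ (C y + C y ^ 2 / 2) - (C x + C x ^ 2 / 2) ∧
        (C y + C y ^ 2 / 2) - (C x + C x ^ 2 / 2) ≤ (y - x) * C y := by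
    intro x y hxy
    apply IntegAux.inc (hCpos x) (hCmono x y hxy)
    rw [hC1, hC1, ← mul_assoc, ← Real.exp_add]
    congr 2; ring
  have hlog : ∀ x : ℝ, Real.log (C x) + C x = x + Real.log b := by
    intro x
    have h := congrArg Real.log (hC1 x)
    rwa [Real.log_mul (hCpos x).ne' (Real.exp_pos _).ne', Real.log_exp,
      Real.log_mul (Real.exp_pos _).ne' hb.ne', Real.log_exp] at h
  have hE : ∀ x y : ℝ, x ≤ y → (y - x) * C x ≤ (C y - C x) * (1 + C x) := by
    intro x y hxy
    have h1 := hlog x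
    have h2 := hlog y
    have hx := hCpos x
    have hy := hCpos y
    have h3 : Real.log (C y) - Real.log (C x) ≤ C y / C x - 1 := by
      rw [← Real.log_div hy.ne' hx.ne']
      exact Real.log_le_sub_one_of_pos (div_pos hy hx)
    have h4 : y - x ≤ (C y / C x - 1) + (C y - C x) := by linarith
    calc (y - x) * C x ≤ ((C y / C x - 1) + (C y - C x)) * C x :=
          mul_le_mul_of_nonneg_right h4 hx.le
      _ = (C y - C x) * (1 + C x) := by field_simp
  -- slopes
  have hlo : ∀ x y : ℝ, x ≤ y → C y ≤ T →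
      (y - x) * C x - (y - x) * (A * C x ^ 3) ≤ b * (P y - P x) := by
    intro x y hxy hy
    have := hS x (C x) (hC0 x) (hC1 x) ((hCmono x y hxy).trans hy) (y - x)
    rw [abs_of_nonneg (by linarith)] at this
    have e : x + (y - x) = y := by ring
    rwa [e] at this
  have hup : ∀ x y : ℝ, x ≤ y → C y ≤ T →
      b * (P y - P x) ≤ (y - x) * C y + (y - x) * (A * C y ^ 3) := by
    intro x y hxy hy
    have := hS y (C y) (hC0 y) (hC1 y) hy (x - y)
    rw [abs_of_nonpos (by linarith)] at this
    have e : y + (x - y) = x := by ring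
    rw [e] at this
    nlinarith
  intro μ c hc hcμ hT
  have hcC : c = C μ := by
    apply le_antisymm
    · exact IntegAux.mono (hC0 μ) (by rw [hcμ, hC1])
    · exact IntegAux.mono hc (by rw [hcμ, hC1])
  rw [hcC] at hT ⊢
  have hTx : ∀ x, x ≤ μ → C x ≤ T := fun x hx => (hCmono x μ hx).trans hT
  -- the function e
  set e : ℝ → ℝ := fun x => A * C x ^ 3 with he
  set EE : ℝ → ℝ := fun x => A * (C x ^ 3 / 3 + C x ^ 4 / 4) with hEE
  set F : ℝ → ℝ := fun x => C x + C x ^ 2 / 2 with hFdef
  have hEEinc : ∀ x y : ℝ, x ≤ y → (y - x) * e x ≤ EE y - EE x := by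
    intro x y hxy
    have h2 := hE x y hxy
    have h3 := hCmono x y hxy
    have hx := hC0 x
    have hy := hC0 y
    have h4 : (y - x) * C x * C x ^ 2 ≤ (C y - C x) * (1 + C x) * C x ^ 2 :=
      mul_le_mul_of_nonneg_right h2 (sq_nonneg _)
    have h5 : C x ^ 2 * (C y - C x) ≤ C y ^ 3 / 3 - C x ^ 3 / 3 := by
      have : 0 ≤ (C y - C x) ^ 2 * (C y + 2 * C x) := by positivity
      nlinarith
    have h6 : C x ^ 3 * (C y - C x) ≤ C y ^ 4 / 4 - C x ^ 4 / 4 := by
      have : 0 ≤ (C y - C x) ^ 2 * (C y ^ 2 + 2 * C y * C x + 3 * C x ^ 2) := by positivity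
      nlinarith
    have h7 : (y - x) * C x ^ 3 ≤
        (C y ^ 3 / 3 + C y ^ 4 / 4) - (C x ^ 3 / 3 + C x ^ 4 / 4) := by nlinarith
    have := mul_le_mul_of_nonneg_left h7 hA
    simp only [he, hEE]
    nlinarith
  have hup2 : ∀ x, x ≤ μ → b * P μ - F μ - EE μ ≤ b * P x - F x - EE x := by
    intro x hx
    apply IntegAux.tele (fun z => b * P z - F z - EE z) (fun z => C z + e z) x μ hx
    intro u v _ huv hv
    have h1 := hup u v huv (hTx v hv)
    have h2 := (hF u v huv).1
    have h3 := hEEinc u v huv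
    simp only [hFdef] at *
    change b * P v - (C v + C v ^ 2 / 2) - EE v - (b * P u - (C u + C u ^ 2 / 2) - EE u) ≤
      (v - u) * (C v + e v - (C u + e u))
    have h1' : b * (P v - P u) ≤ (v - u) * C v + (v - u) * e v := h1
    nlinarith
  have hlo2 : ∀ x, x ≤ μ → b * P x - F x + EE x ≤ b * P μ - F μ + EE μ := by
    intro x hx
    have := IntegAux.tele (fun z => -(b * P z - F z + EE z)) C x μ hx
      (by
        intro u v _ huv hv
        have h1 := hlo u v huv (hTx v hv)
        have h2 := (hF u v huv).2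
        have h3 := hEEinc u v huv
        change -(b * P v - (C v + C v ^ 2 / 2) + EE v) - -(b * P u - (C u + C u ^ 2 / 2) + EE u) ≤
          (v - u) * (C v - C u)
        have h1' : (v - u) * C u - (v - u) * e u ≤ b * (P v - P u) := h1
        have h2' : (C v + C v ^ 2 / 2) - (C u + C u ^ 2 / 2) ≤ (v - u) * C v := h2
        nlinarith)
    have this' : -(b * P μ - F μ + EE μ) ≤ -(b * P x - F x + EE x) := this
    linarith
  -- bounds at minus infinity
  have hCle : ∀ x, C x ≤ Real.exp x * b := by
    intro x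
    rw [← hC1 x]
    have : (1 : ℝ) ≤ Real.exp (C x) := Real.one_le_exp (hC0 x)
    nlinarith [hC0 x]
  have hEE0 : ∀ x, 0 ≤ EE x := by
    intro x
    have h2 := hC0 x
    simp only [hEE]
    positivity
  have hlim : Tendsto (fun x : ℝ => Real.exp x * b) atBot (𝓝 0) := by
    simpa using Real.tendsto_exp_atBot.mul_const b
  have hlim2 : Tendsto (fun x : ℝ => Real.exp x * b + (Real.exp x * b) ^ 2 / 2) atBot (𝓝 0) := by
    have := hlim.add ((hlim.pow 2).div_const 2)
    simpa using this
  have hA1 : b * P μ - F μ - EE μ ≤ 0 := by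
    apply ge_of_tendsto hlim
    filter_upwards [eventually_le_atBot μ] with x hx
    have h1 := hup2 x hx
    have h2 : b * P x ≤ Real.exp x * b := by
      have := (hP x).2
      nlinarith
    have h3 : 0 ≤ F x := by
      simp only [hFdef]
      have := hC0 x
      positivity
    have := hEE0 x
    linarith
  have hA2 : -(b * P μ - F μ + EE μ) ≤ 0 := by
    apply ge_of_tendsto hlim2
    filter_upwards [eventually_le_atBot μ] with x hx
    have h1 := hlo2 x hx
    have h2 : 0 ≤ b * P x := mul_nonneg hb.le (hP x).1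
    have h3 : F x ≤ Real.exp x * b + (Real.exp x * b) ^ 2 / 2 := by
      simp only [hFdef]
      have h4 := hC0 x
      have h5 := hCle x
      have h6 : C x ^ 2 ≤ (Real.exp x * b) ^ 2 := pow_le_pow_left₀ h4 h5 2
      linarith
    have := hEE0 x
    linarith
  rw [abs_le]
  constructor
  · change -(EE μ) ≤ b * P μ - F μ
    linarith
  · change b * P μ - F μ ≤ EE μ
    linarith

end Pool.Agent.HdGas
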