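import Pool.Agent.Lib.NT.Top
import Pool.Agent.Lib.MF.Geob
import Pool.Agent.Lib.MF.RowBdry
import Pool.Agent.Lib.MF.Bas
import Pool.Agent.Lib.MF.Jen

/-!
# Hard spheres, row JJP: the bound of Jenssen, Joos and Perkins for the pressure (helper18)
-/

set_option autoImplicit false

namespace Pool.Agent.HdGas

open MeasureTheory Filter Topology Pool.Agent.SquareWellGas Pool.Agent.KacGas Pool.Agent.VdwGas

/-- Row JJP. -/
theorem jjp_of (hF : JJPF) : JJP := by
  intro d hd P hP μ c hc hμ h hh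
  have hb : 0 < bv d := GeobR.bv_pos d
  have l2 : Tendsto (fun ℓ : ℝ => bv d *
      (Real.log (Xi volume (Cb d) (Real.exp (μ + h)) (Box d ℓ)) / ℓ ^ d -
        Real.log (Xi volume (Cb d) (Real.exp μ) (Box d ℓ)) / ℓ ^ d)) atTop
      (𝓝 (bv d * (P (μ + h) - P μ))) := ((hP (μ + h)).sub (hP μ)).const_mul _
  refine ge_of_tendsto l2 ?_
  filter_upwards [eventually_gt_atTop (0 : ℝ)] with ℓ hℓ
  have hgeo := geob_of d hd ℓ
  have hV : (volume (Box d ℓ)).toReal = ℓ ^ d := Bdr.vol_Box hℓ.le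
  have hVpos : 0 < ℓ ^ d := pow_pos hℓ d
  have h1 := hF _ volume (Cb d) (Box d ℓ) (bv d) (kap d) (Real.exp μ) c hgeo (Real.exp_pos μ).le
    hc hμ
  have h2 := jen_of bas _ volume (Cb d) (Box d ℓ) hgeo.meas hgeo.measL hgeo.fin μ h
  rw [hV] at h1
  rw [← sub_div, mul_div_assoc', le_div_iff₀ hVpos]
  have h3 := mul_le_mul_of_nonneg_left h1 hh
  have h4 := mul_le_mul_of_nonneg_left h2 hb.le
  linarith

end Pool.Agent.HdGas
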