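import Pool.Agent.Lib.NT.Top
import Pool.Agent.Lib.MF.YChi

/-!
# The bound of Jenssen, Joos and Perkins in a finite system: row JJPF
-/

set_option autoImplicit false

namespace Pool.Agent.HdGas

open MeasureTheory Filter Topology

theorem jjpf_of (hY : YCHI2) (hI : INT) (hMa : MARKOV) (hId : IDEAL) (hM : MEAS) (hB : BAS) :
    JJPF := by
  classical
  intro S _ m _ C L b κ lam c hG hlam hc hcb
  have hb := hG.b_pos
  have hk := hG.kap_pos
  obtain ⟨-, -, hfin, hXi, -, -⟩ := hB S m C L lam hG.meas hG.measL hG.fin hlam
  obtain ⟨hM1, hM2⟩ := hM S m C L lam hG.meas hG.measL hG.fin hlam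
  obtain ⟨mchi, mY, -, mTk, -⟩ := hM1 (Al S) MeasurableSet.univ
  have hLfin : IsFiniteMeasure (m.restrict L) :=
    ⟨by rw [Measure.restrict_apply_univ]; exact hG.fin.lt_top⟩
  set G := gib m C lam L with hGdef
  set X := Xi m C lam L with hX
  have hX0 : 0 < X := by linarith
  set E1 : S → ℝ := fun v => ex m C lam L (chi C (Al S) v) with hE1
  set EY : S → ℝ := fun v => ex m C lam L (Yk m C lam L (Al S) v) with hEY
  -- expectation of constants
  have hone : ex m C lam L (fun _ => (1 : ℝ)) = 1 := by
    unfold ex
    rw [integral_const, smul_eq_mul, mul_one]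
    exact div_self hX0.ne'
  have hchi01 := fun v ω => chi_mem (C := C) (Al S) v ω
  have Ichi : ∀ v, Integrable (chi C (Al S) v) G := by
    intro v
    refine Integrable.of_bound (mchi.comp measurable_prodMk_left).aestronglyMeasurable 1
      (ae_of_all _ fun ω => ?_)
    rw [Real.norm_eq_abs, abs_of_nonneg (hchi01 v ω).1]
    exact (hchi01 v ω).2
  have hYb : ∀ v ω, Yk m C lam L (Al S) v ω ≤ lam * b := by
    intro v ω
    exact mul_le_mul_of_nonneg_left (hG.Tk_real_le v ω) hlam
  have hY0 : ∀ v ω, 0 ≤ Yk m C lam L (Al S) v ω := fun v ω => Yk_nonneg hlam (Al S) v ω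
  have IY : ∀ v, Integrable (Yk m C lam L (Al S) v) G := by
    intro v
    refine Integrable.of_bound (mY.comp measurable_prodMk_left).aestronglyMeasurable (lam * b)
      (ae_of_all _ fun ω => ?_)
    rw [Real.norm_eq_abs, abs_of_nonneg (hY0 v ω)]
    exact hYb v ω
  have Ione : Integrable (fun _ : Om S => (1 : ℝ)) G := integrable_const 1
  have hE10 : ∀ v, 0 ≤ E1 v ∧ E1 v ≤ 1 := by
    intro v
    constructor
    · exact div_nonneg (integral_nonneg fun ω => (hchi01 v ω).1) hX0.le
    · rw [← hone]
      exact ex_mono_of (Ichi v) Ione fun ω => (hchi01 v ω).2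
  have hEY0 : ∀ v, 0 ≤ EY v ∧ EY v ≤ lam * b := by
    intro v
    constructor
    · exact div_nonneg (integral_nonneg fun ω => hY0 v ω) hX0.le
    · have h1 : ex m C lam L (Yk m C lam L (Al S) v) ≤
          ex m C lam L (fun _ => lam * b * 1) :=
        ex_mono_of (IY v) (Ione.const_mul _) fun ω => by rw [mul_one]; exact hYb v ω
      rw [ex_mul_left, hone, mul_one] at h1
      exact h1
  have mE1 : Measurable E1 :=
    ((mchi.stronglyMeasurable.integral_prod_right (f := fun v ω => chi C (Al S) v ω)
      (ν := G)).measurable).div_const X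
  have mEY : Measurable EY :=
    ((mY.stronglyMeasurable.integral_prod_right (f := fun v ω => Yk m C lam L (Al S) v ω)
      (ν := G)).measurable).div_const X
  have IE1 : Integrable E1 (m.restrict L) := by
    refine Integrable.of_bound mE1.aestronglyMeasurable 1 (ae_of_all _ fun v => ?_)
    rw [Real.norm_eq_abs, abs_of_nonneg (hE10 v).1]
    exact (hE10 v).2
  have IEY : Integrable EY (m.restrict L) := by
    refine Integrable.of_bound mEY.aestronglyMeasurable (lam * b) (ae_of_all _ fun v => ?_)
    rw [Real.norm_eq_abs, abs_of_nonneg (hEY0 v).1]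
    exact (hEY0 v).2
  have hEN : ex m C lam L (fun ω => (ω.1 : ℝ)) = lam * ∫ v in L, E1 v ∂m :=
    (hI S m C L b κ lam hG hlam).2
  set A := ∫ v in L, EY v ∂m with hA
  set M := (m L).toReal with hMdef
  -- first bound
  have first : (1 - 2 * (lam * b * κ)) * A ≤ b * ex m C lam L (fun ω => (ω.1 : ℝ)) := by
    have s1 : lam * ∫ z in L, (∫ v in L, (if C z v then E1 z else 0) ∂m) ∂m ≤
        b * ex m C lam L (fun ω => (ω.1 : ℝ)) := by
      rw [hEN, mul_left_comm]
      refine mul_le_mul_of_nonneg_left ?_ hlam
      rw [← integral_const_mul b]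
      have h1 : ∀ z, ∫ v in L, (if C z v then E1 z else 0) ∂m =
          (m {v | v ∈ L ∧ C z v}).toReal * E1 z := by
        intro z
        have h2 : (fun v => if C z v then E1 z else 0) =
            {v | C z v}.indicator (fun _ => E1 z) := by
          funext v
          simp [Set.indicator]
        rw [h2, integral_indicator (hG.meas_right z),
          Measure.restrict_restrict (hG.meas_right z), integral_const, smul_eq_mul,
          Measure.real, Measure.restrict_apply_univ]
        congr 3
        ext v
        exact and_comm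
      simp only [h1]
      refine integral_mono_of_nonneg (ae_of_all _ fun z => mul_nonneg ENNReal.toReal_nonneg
        (hE10 z).1) (IE1.const_mul b) (ae_of_all _ fun z => ?_)
      exact mul_le_mul_of_nonneg_right
        (ENNReal.toReal_le_of_le_ofReal hb.le (hG.near_le z)) (hE10 z).1
    have s2 : ∫ z in L, (∫ v in L, (if C z v then E1 z else 0) ∂m) ∂m =
        ∫ v in L, (∫ z in L, (if C z v then E1 z else 0) ∂m) ∂m := by
      apply integral_integral_swap
      refine Integrable.of_bound ?_ 1 (ae_of_all _ fun q => ?_)
      · exact (Measurable.ite hG.meas (mE1.comp measurable_fst) measurable_const).aestronglyMeasurable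
      · simp only [Function.uncurry]
        split_ifs
        · rw [Real.norm_eq_abs, abs_of_nonneg (hE10 _).1]
          exact (hE10 _).2
        · simp
    have s3 : ∀ v, (1 - 2 * (lam * b * κ)) * EY v ≤
        lam * ∫ z in L, (if C z v then E1 z else 0) ∂m := by
      intro v
      have hAm : MeasurableSet {z | z ∈ L ∧ C v z} := hG.meas_near v
      have hAf : IsFiniteMeasure (m.restrict {z | z ∈ L ∧ C v z}) :=
        ⟨by rw [Measure.restrict_apply_univ]; exact (hG.near_ne_top v).lt_top⟩
      have t1 := hY S m C L b κ lam hG hlam v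
      have mi : Measurable fun ω => ∫ z in {z | z ∈ L ∧ C v z}, chi C (Al S) z ω ∂m :=
        (mchi.stronglyMeasurable.integral_prod_left (μ := m.restrict {z | z ∈ L ∧ C v z})
          (f := fun z ω => chi C (Al S) z ω)).measurable
      have Ii : Integrable (fun ω => ∫ z in {z | z ∈ L ∧ C v z}, chi C (Al S) z ω ∂m) G := by
        refine Integrable.of_bound mi.aestronglyMeasurable b (ae_of_all _ fun ω => ?_)
        rw [hG.intchi v ω, Real.norm_eq_abs, abs_of_nonneg ENNReal.toReal_nonneg]
        exact ENNReal.toReal_le_of_le_ofReal hb.le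
          ((measure_mono ((Fset_sub v ω).trans (Tk_sub v ω))).trans (hG.near_le v))
      have t2 : ex m C lam L (fun ω => Yk m C lam L (Al S) v ω -
          lam * ∫ z in {z | z ∈ L ∧ C v z}, chi C (Al S) z ω ∂m) =
          EY v - lam * ex m C lam L (fun ω => ∫ z in {z | z ∈ L ∧ C v z},
            chi C (Al S) z ω ∂m) := by
        have : (fun ω => Yk m C lam L (Al S) v ω -
          lam * ∫ z in {z | z ∈ L ∧ C v z}, chi C (Al S) z ω ∂m) =
          fun ω => Yk m C lam L (Al S) v ω +
            (-lam) * ∫ z in {z | z ∈ L ∧ C v z}, chi C (Al S) z ω ∂m := by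
          funext ω
          ring
        rw [this, ex_add_of (IY v) (Ii.const_mul _), ex_mul_left]
        simp only [hEY]
        ring
      have t3 : ex m C lam L (fun ω => ∫ z in {z | z ∈ L ∧ C v z}, chi C (Al S) z ω ∂m) =
          ∫ z in L, (if C z v then E1 z else 0) ∂m := by
        have u1 : ∫ ω, ∫ z in {z | z ∈ L ∧ C v z}, chi C (Al S) z ω ∂m ∂G =
            ∫ z in {z | z ∈ L ∧ C v z}, ∫ ω, chi C (Al S) z ω ∂G ∂m := by
          apply integral_integral_swap
          refine Integrable.of_bound ?_ 1 (ae_of_all _ fun q => ?_)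
          · exact (mchi.comp measurable_swap).aestronglyMeasurable
          · simp only [Function.uncurry]
            rw [Real.norm_eq_abs, abs_of_nonneg (hchi01 _ _).1]
            exact (hchi01 _ _).2
        have u2 : (fun z => if C z v then E1 z else 0) =
            {z | C v z}.indicator (fun z => E1 z) := by
          funext z
          by_cases h : C z v
          · have h' : z ∈ {z | C v z} := hG.symm _ _ h
            rw [if_pos h, Set.indicator_of_mem h']
          · have h' : z ∉ {z | C v z} := fun h' => h (hG.symm _ _ h')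
            rw [if_neg h, Set.indicator_of_notMem h']
        have u3 : {z | C v z} ∩ L = {z | z ∈ L ∧ C v z} := by
          ext z
          exact and_comm
        rw [u2, integral_indicator (hG.meas_right v),
          Measure.restrict_restrict (hG.meas_right v), u3]
        unfold ex
        rw [u1, ← integral_div]
        rfl
      rw [t2, t3] at t1
      linarith
    have s4 : (1 - 2 * (lam * b * κ)) * A ≤
        lam * ∫ v in L, (∫ z in L, (if C z v then E1 z else 0) ∂m) ∂m := by
      rw [hA, ← integral_const_mul, ← integral_const_mul]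
      refine integral_mono (IEY.const_mul _) ?_ s3
      apply Integrable.const_mul
      refine Integrable.of_bound ?_ M (ae_of_all _ fun v => ?_)
      · have hm : Measurable fun q : S × S => if C q.2 q.1 then E1 q.2 else 0 :=
          Measurable.ite (hG.meas.preimage measurable_swap) (mE1.comp measurable_snd)
            measurable_const
        exact (hm.stronglyMeasurable.integral_prod_right
          (f := fun v z => if C z v then E1 z else 0)).aestronglyMeasurable
      · have := norm_integral_le_of_norm_le_const (μ := m.restrict L) (C := 1)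
          (f := fun z => if C z v then E1 z else 0) (ae_of_all _ fun z => by
            split_ifs
            · rw [Real.norm_eq_abs, abs_of_nonneg (hE10 _).1]
              exact (hE10 _).2
            · simp)
        rw [one_mul, Measure.real, Measure.restrict_apply_univ] at this
        exact this
    rw [s2] at s1
    exact s4.trans s1
  -- second bound
  have second : c * ((1 + c) * M - A) ≤ b * ex m C lam L (fun ω => (ω.1 : ℝ)) := by
    have q1 : ∀ v, Real.exp (-c) * (1 + c - EY v) ≤ E1 v := by
      intro v
      have h1 := hMa S m C L b κ lam hG hlam v (fun _ => 1) measurable_const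
        (fun _ _ _ => rfl) ⟨1, fun _ => by simp⟩ (fun _ _ _ => rfl)
      simp only [mul_one] at h1
      have hT : ∀ ω, 1 ≤ Xi m C lam (Tk C L (Al S) v ω) ∧
          Xi m C lam (Tk C L (Al S) v ω) ≤ Real.exp (Yk m C lam L (Al S) v ω) := by
        intro ω
        have hf : m (Tk C L (Al S) v ω) ≠ ⊤ :=
          ((measure_mono (Tk_sub v ω)).trans_lt (hG.near_ne_top v).lt_top).ne
        obtain ⟨-, -, -, h2, h3, -⟩ := hB S m C (Tk C L (Al S) v ω) lam hG.meas
          (mTk v ω) hf hlam
        exact ⟨h2, h3⟩
      have h4 : ex m C lam L (fun ω => Real.exp (-c) * (1 + c) * 1 +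
          (-Real.exp (-c)) * Yk m C lam L (Al S) v ω) ≤
          ex m C lam L (fun ω => 1 / Xi m C lam (Tk C L (Al S) v ω)) := by
        apply ex_mono_of ((Ione.const_mul _).add ((IY v).const_mul _))
        · refine Integrable.of_bound ((hM2 v).const_div 1).aestronglyMeasurable 1
            (ae_of_all _ fun ω => ?_)
          rw [Real.norm_eq_abs, abs_of_nonneg (by have := (hT ω).1; positivity)]
          rw [div_le_one (by linarith [(hT ω).1])]
          exact (hT ω).1
        · intro ω
          have h5 : Real.exp (-Yk m C lam L (Al S) v ω) ≤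
              1 / Xi m C lam (Tk C L (Al S) v ω) := by
            rw [Real.exp_neg, ← one_div]
            exact one_div_le_one_div_of_le (by linarith [(hT ω).1]) (hT ω).2
          refine le_trans ?_ h5
          have h6 := Real.add_one_le_exp (c - Yk m C lam L (Al S) v ω)
          have h7 : Real.exp (-Yk m C lam L (Al S) v ω) =
              Real.exp (-c) * Real.exp (c - Yk m C lam L (Al S) v ω) := by
            rw [← Real.exp_add]
            congr 1
            ring
          rw [h7]
          calc Real.exp (-c) * (1 + c) * 1 + -Real.exp (-c) * Yk m C lam L (Al S) v ω =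
              Real.exp (-c) * (c - Yk m C lam L (Al S) v ω + 1) := by ring
            _ ≤ _ := mul_le_mul_of_nonneg_left h6 (Real.exp_pos (-c)).le
      rw [ex_add_of (Ione.const_mul _) ((IY v).const_mul _), ex_mul_left, ex_mul_left, hone,
        ← h1] at h4
      calc Real.exp (-c) * (1 + c - EY v) = Real.exp (-c) * (1 + c) * 1 +
            -Real.exp (-c) * ex m C lam L (Yk m C lam L (Al S) v) := by
            simp only [hEY]
            ring
        _ ≤ _ := h4
    have q2 : ∫ v in L, Real.exp (-c) * (1 + c - EY v) ∂m ≤ ∫ v in L, E1 v ∂m :=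
      integral_mono (((integrable_const _).sub IEY).const_mul _) IE1 q1
    rw [integral_const_mul, integral_sub (integrable_const _) IEY, integral_const,
      smul_eq_mul, Measure.real, Measure.restrict_apply_univ] at q2
    have q3 : lam * b * Real.exp (-c) = c := by
      rw [← hcb, mul_assoc, ← Real.exp_add]
      simp
    calc c * ((1 + c) * M - A) = lam * b * Real.exp (-c) * ((1 + c) * M - A) := by rw [q3]
      _ = lam * b * (Real.exp (-c) * (M * (1 + c) - A)) := by ring
      _ ≤ lam * b * ∫ v in L, E1 v ∂m := by
          apply mul_le_mul_of_nonneg_left _ (mul_nonneg hlam hb.le)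
          exact q2
      _ = b * ex m C lam L (fun ω => (ω.1 : ℝ)) := by rw [hEN]; ring
  have hEN0 : 0 ≤ b * ex m C lam L (fun ω => (ω.1 : ℝ)) := by
    rw [hEN]
    have : 0 ≤ ∫ v in L, E1 v ∂m := integral_nonneg fun v => (hE10 v).1
    positivity
  have hM0 : 0 ≤ M := ENNReal.toReal_nonneg
  have hcM : 0 ≤ c * M := mul_nonneg hc hM0
  have hθ1 : 1 - 2 * (lam * b * κ) ≤ 1 := by
    have : 0 ≤ lam * b * κ := by positivity
    linarith
  rcases le_or_gt 0 (1 - 2 * (lam * b * κ)) with hθ | hθ
  · rcases le_or_gt (c * M) A with h | h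
    · calc (1 - 2 * (lam * b * κ)) * c * M = (1 - 2 * (lam * b * κ)) * (c * M) := by ring
        _ ≤ (1 - 2 * (lam * b * κ)) * A := mul_le_mul_of_nonneg_left h hθ
        _ ≤ _ := first
    · calc (1 - 2 * (lam * b * κ)) * c * M = (1 - 2 * (lam * b * κ)) * (c * M) := by ring
        _ ≤ 1 * (c * M) := mul_le_mul_of_nonneg_right hθ1 hcM
        _ ≤ c * ((1 + c) * M - A) := by nlinarith
        _ ≤ _ := second
  · calc (1 - 2 * (lam * b * κ)) * c * M = (1 - 2 * (lam * b * κ)) * (c * M) := by ring
      _ ≤ 0 := mul_nonpos_of_nonpos_of_nonneg hθ.le hcM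
      _ ≤ _ := hEN0

end Pool.Agent.HdGas
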