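import Pool.Agent.Lib.NT.Top

/-!
# Hard-core gases: row LEG, the Legendre transform of an analytic function (helper53)
-/

set_option autoImplicit false

namespace Pool.Agent.HdGas

namespace Legx

open Filter Topology

/-- At a place where `P` has derivative `x` the supremum is attained at `x`. -/
theorem key {f P : ℝ → ℝ} {r : ℝ} (hf : ConcaveOn ℝ (Set.Ioo 0 r) f)
    (hP : ∀ μ : ℝ, (∀ x ∈ Set.Ioo 0 r, f x + μ * x ≤ P μ) ∧
      ∀ δ : ℝ, 0 < δ → ∃ x ∈ Set.Ioo 0 r, P μ - δ ≤ f x + μ * x)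
    {μ x : ℝ} (hx : x ∈ Set.Ioo 0 r) (hd : HasDerivAt P x μ) : P μ = f x + μ * x := by
  set h : ℕ → ℝ := fun n => 1 / ((n : ℝ) + 1) with hh
  have h0 : ∀ n, 0 < h n := fun n => by positivity
  have hlim : Tendsto h atTop (𝓝 0) := tendsto_one_div_add_atTop_nhds_zero_nat
  have hex : ∀ n, ∃ y ∈ Set.Ioo 0 r, P μ - h n ^ 2 ≤ f y + μ * y := fun n =>
    (hP μ).2 (h n ^ 2) (pow_pos (h0 n) 2)
  choose y hy1 hy2 using hex
  have hup : ∀ n, y n ≤ (h n)⁻¹ * (P (μ + h n) - P μ) + h n := by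
    intro n
    have h1 := (hP (μ + h n)).1 (y n) (hy1 n)
    have h2 := hy2 n
    have h3 : h n * y n ≤ P (μ + h n) - P μ + h n ^ 2 := by nlinarith
    have h4 : (h n)⁻¹ * (h n * y n) ≤ (h n)⁻¹ * (P (μ + h n) - P μ + h n ^ 2) :=
      mul_le_mul_of_nonneg_left h3 (inv_nonneg.2 (h0 n).le)
    have h5 : (h n)⁻¹ * (h n * y n) = y n := by
      rw [← mul_assoc, inv_mul_cancel₀ (h0 n).ne', one_mul]
    have h6 : (h n)⁻¹ * h n ^ 2 = h n := by
      rw [pow_two, ← mul_assoc, inv_mul_cancel₀ (h0 n).ne', one_mul]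
    rw [h5, mul_add, h6] at h4
    exact h4
  have hlow : ∀ n, (-h n)⁻¹ * (P (μ + -h n) - P μ) - h n ≤ y n := by
    intro n
    have h1 := (hP (μ + -h n)).1 (y n) (hy1 n)
    have h2 := hy2 n
    have h3 : P μ - P (μ + -h n) - h n ^ 2 ≤ h n * y n := by nlinarith
    have h4 : (h n)⁻¹ * (P μ - P (μ + -h n) - h n ^ 2) ≤ (h n)⁻¹ * (h n * y n) :=
      mul_le_mul_of_nonneg_left h3 (inv_nonneg.2 (h0 n).le)
    have h5 : (h n)⁻¹ * (h n * y n) = y n := by
      rw [← mul_assoc, inv_mul_cancel₀ (h0 n).ne', one_mul]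
    have h6 : (h n)⁻¹ * h n ^ 2 = h n := by
      rw [pow_two, ← mul_assoc, inv_mul_cancel₀ (h0 n).ne', one_mul]
    rw [h5, mul_sub, h6] at h4
    rw [inv_neg]
    linarith
  have hs := hd.tendsto_slope_zero
  have ht1 : Tendsto h atTop (𝓝[≠] 0) := tendsto_nhdsWithin_iff.2
    ⟨hlim, Eventually.of_forall fun n => (h0 n).ne'⟩
  have ht2 : Tendsto (fun n => -h n) atTop (𝓝[≠] 0) := tendsto_nhdsWithin_iff.2
    ⟨by simpa using hlim.neg, Eventually.of_forall fun n => neg_ne_zero.2 (h0 n).ne'⟩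
  have h7 : Tendsto (fun n => (h n)⁻¹ * (P (μ + h n) - P μ) + h n) atTop (𝓝 x) := by
    have := (hs.comp ht1).add hlim
    simpa [Function.comp_def] using this
  have h8 : Tendsto (fun n => (-h n)⁻¹ * (P (μ + -h n) - P μ) - h n) atTop (𝓝 x) := by
    have := (hs.comp ht2).sub hlim
    simpa [Function.comp_def] using this
  have hy : Tendsto y atTop (𝓝 x) := tendsto_of_tendsto_of_tendsto_of_le_of_le h8 h7 hlow hup
  have hc : ContinuousAt f x := (hf.continuousOn isOpen_Ioo).continuousAt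
    (Ioo_mem_nhds hx.1 hx.2)
  have h9 : Tendsto (fun n => f (y n) + μ * y n) atTop (𝓝 (f x + μ * x)) :=
    (hc.tendsto.comp hy).add (hy.const_mul μ)
  have h10 : Tendsto (fun n => P μ - h n ^ 2) atTop (𝓝 (P μ)) := by
    simpa using tendsto_const_nhds.sub (hlim.pow 2)
  have h11 : Tendsto (fun n => f (y n) + μ * y n) atTop (𝓝 (P μ)) :=
    tendsto_of_tendsto_of_tendsto_of_le_of_le h10 tendsto_const_nhds hy2
      fun n => (hP μ).1 (y n) (hy1 n)
  exact tendsto_nhds_unique h11 h9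

/-- The second derivative does not vanish. -/
theorem deriv_ne {P : ℝ → ℝ} {μ : ℝ} (han : AnalyticAt ℝ P μ) {c : ℝ} (hc : 0 < c)
    (hconv : ∀ h : ℝ, 0 < h → h ≤ 1 → c * h ^ 2 ≤ P (μ + h) - 2 * P μ + P (μ - h)) :
    deriv (deriv P) μ ≠ 0 := by
  intro h0
  have hdp : HasDerivAt (deriv P) 0 μ := h0 ▸ han.deriv.differentiableAt.hasDerivAt
  have h1 : ∀ᶠ m in 𝓝 μ, ‖deriv P m - deriv P μ‖ ≤ c / 4 * ‖m - μ‖ := by
    have := (hasDerivAt_iff_isLittleO.1 hdp).def (show (0 : ℝ) < c / 4 by positivity)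
    simpa using this
  have h2 : ∀ᶠ m in 𝓝 μ, DifferentiableAt ℝ P m :=
    han.eventually_analyticAt.mono fun m hm => hm.differentiableAt
  obtain ⟨δ, hδ, hball⟩ := Metric.eventually_nhds_iff.1 (h1.and h2)
  set h : ℝ := min (δ / 2) 1 with hh
  have hh0 : 0 < h := lt_min (by positivity) one_pos
  have hh1 : h ≤ 1 := min_le_right _ _
  have hhδ : h < δ := lt_of_le_of_lt (min_le_left _ _) (by linarith)
  set φ : ℝ → ℝ := fun s => P (μ + s) - 2 * P μ + P (μ - s) with hφ
  have hφd : ∀ s, |s| < δ → HasDerivAt φ (deriv P (μ + s) - deriv P (μ - s)) s := by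
    intro s hs
    have h3 : HasDerivAt P (deriv P (μ + s)) (μ + s) :=
      (hball (y := μ + s) (by rw [Real.dist_eq]; simpa using hs)).2.hasDerivAt
    have h4 : HasDerivAt P (deriv P (μ - s)) (μ - s) :=
      (hball (y := μ - s) (by rw [Real.dist_eq]; simpa [abs_neg] using hs)).2.hasDerivAt
    have h5 : HasDerivAt (fun s => P (μ + s)) (deriv P (μ + s)) s := by
      simpa using h3.comp_const_add μ s
    have h6 : HasDerivAt (fun s => P (μ - s)) (-deriv P (μ - s)) s := by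
      simpa using h4.comp_const_sub μ s
    exact ((h5.sub_const (2 * P μ)).add h6).congr_deriv (by ring)
  obtain ⟨ξ, hξ, hξe⟩ := exists_hasDerivAt_eq_slope φ
    (fun s => deriv P (μ + s) - deriv P (μ - s)) hh0
    (fun s hs => (hφd s (by rw [abs_of_nonneg hs.1]; exact lt_of_le_of_lt hs.2 hhδ)).continuousAt.continuousWithinAt)
    (fun s hs => hφd s (by rw [abs_of_pos hs.1]; exact lt_trans hs.2 hhδ))
  have h7 : φ 0 = 0 := by simp [hφ]; ring
  have h8 : |ξ| = ξ := abs_of_pos hξ.1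
  have h9 := (hball (y := μ + ξ) (by
    rw [Real.dist_eq]; simpa [h8] using lt_trans hξ.2 hhδ)).1
  have h10 := (hball (y := μ - ξ) (by
    rw [Real.dist_eq]; simpa [abs_neg, h8] using lt_trans hξ.2 hhδ)).1
  have h11 : μ + ξ - μ = ξ := by ring
  have h12 : μ - ξ - μ = -ξ := by ring
  rw [h11, Real.norm_eq_abs, Real.norm_eq_abs, h8] at h9
  rw [h12, Real.norm_eq_abs, Real.norm_eq_abs, abs_neg, h8] at h10
  have h13 := (abs_le.1 h9).2
  have h14 := (abs_le.1 h10).1
  have h15 : (φ h - φ 0) / (h - 0) ≤ c / 2 * ξ := by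
    rw [← hξe]
    linarith
  rw [h7, sub_zero, sub_zero, div_le_iff₀ hh0] at h15
  have h16 := hconv h hh0 hh1
  have h17 : c / 2 * ξ * h ≤ c / 2 * h * h := by
    have := hξ.2.le
    gcongr
  have h18 : c * h ^ 2 ≤ c / 2 * h * h := le_trans h16 (le_trans h15 h17)
  nlinarith [mul_pos hc (mul_pos hh0 hh0)]

end Legx

open Filter Topology in
theorem leg_of : LEG := by
  intro f P r hf hP μ ρ hρ hmax han hcc
  obtain ⟨c, hc, hconv⟩ := hcc
  have hPμ : P μ = f ρ + μ * ρ := by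
    refine le_antisymm (le_of_forall_pos_le_add fun δ hδ => ?_) ((hP μ).1 ρ hρ)
    obtain ⟨x, hx, hx2⟩ := (hP μ).2 δ hδ
    have := hmax x hx
    linarith
  have hd : HasDerivAt P (deriv P μ) μ := han.differentiableAt.hasDerivAt
  have hdρ : deriv P μ = ρ := by
    have hmin : IsLocalMin (fun m => P m - (f ρ + m * ρ)) μ := by
      refine Eventually.of_forall fun m => ?_
      have := (hP m).1 ρ hρ
      change P μ - (f ρ + μ * ρ) ≤ P m - (f ρ + m * ρ)
      linarith
    have h1 : HasDerivAt (fun m => P m - (f ρ + m * ρ)) (deriv P μ - ρ) μ := by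
      exact (hd.sub (((hasDerivAt_id μ).mul_const ρ).const_add (f ρ))).congr_deriv (by simp)
    have := hmin.hasDerivAt_eq_zero h1
    linarith
  have hpan : AnalyticAt ℝ (deriv P) μ := han.deriv
  have hp' : deriv (deriv P) μ ≠ 0 := Legx.deriv_ne han hc hconv
  set g : ℝ → ℝ := hpan.hasStrictDerivAt.localInverse _ _ _ hp' with hgdef
  have hg : AnalyticAt ℝ g (deriv P μ) := hpan.analyticAt_localInverse hp'
  have hgρ : g (deriv P μ) = μ := HasStrictFDerivAt.localInverse_apply_image ..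
  have hright : ∀ᶠ x in 𝓝 (deriv P μ), deriv P (g x) = x :=
    HasStrictDerivAt.eventually_right_inverse ..
  rw [hdρ] at hg hgρ hright
  have hcg : Tendsto g (𝓝 ρ) (𝓝 μ) := by
    have := hg.continuousAt.tendsto
    rwa [hgρ] at this
  have hev : ∀ᶠ x in 𝓝 ρ, P (g x) - g x * x = f x := by
    filter_upwards [hright, hcg.eventually han.eventually_analyticAt,
      Ioo_mem_nhds hρ.1 hρ.2] with x h1 h2 h3
    have h4 : HasDerivAt P x (g x) := by
      have := h2.differentiableAt.hasDerivAt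
      rwa [h1] at this
    have := Legx.key hf hP h3 h4
    linarith
  have hPg : AnalyticAt ℝ (fun x => P (g x)) ρ := by
    have h1 : AnalyticAt ℝ P (g ρ) := by rw [hgρ]; exact han
    exact h1.comp hg
  exact (hPg.sub (hg.mul analyticAt_id)).congr hev

end Pool.Agent.HdGas
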