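import Pool.Agent.Lib.NT.Top

/-!
# Limits of analytic functions with a uniform bound are analytic
-/

set_option autoImplicit false

namespace Pool.Agent.HdGas

open MeasureTheory Filter Topology

namespace Lim

/-- Coefficients of a function of one real variable which extends to a bounded holomorphic
derivative. -/
theorem coef {p : ℝ → ℝ} {μ r B : ℝ} (hr : 0 < r) {g : ℂ → ℂ}
    (hg : DifferentiableOn ℂ g (Metric.ball (μ : ℂ) r))
    (hB : ∀ w ∈ Metric.ball (μ : ℂ) r, ‖g w‖ ≤ B)
    (hp : ∀ x : ℝ, |x - μ| < r → HasDerivAt p (g x).re x) :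
    ∃ a : ℕ → ℝ, (∀ n, |a n| ≤ B * r * (r / 2)⁻¹ ^ n) ∧
      ∀ t : ℝ, |t| < r / 2 → HasSum (fun n => a n * t ^ n) (p (μ + t) - p μ) := by
  have hB0 : 0 ≤ B := (norm_nonneg _).trans (hB μ (Metric.mem_ball_self hr))
  obtain ⟨G, hG0, hG⟩ := hg.isExactOn_ball.with_val_at (μ : ℂ) 0
  have hGd : DifferentiableOn ℂ G (Metric.ball (μ : ℂ) r) := fun w hw =>
    (hG w hw).differentiableAt.differentiableWithinAt
  -- bound on `G`
  have hGB : ∀ w ∈ Metric.ball (μ : ℂ) r, ‖G w‖ ≤ B * r := by
    intro w hw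
    have h1 := (convex_ball (μ : ℂ) r).norm_image_sub_le_of_norm_hasDerivWithin_le
      (f := G) (f' := g) (C := B) (fun x hx => (hG x hx).hasDerivWithinAt) hB
      (Metric.mem_ball_self hr) hw
    rw [hG0, sub_zero] at h1
    refine h1.trans (mul_le_mul_of_nonneg_left ?_ hB0)
    rw [← dist_eq_norm]
    exact (Metric.mem_ball.1 hw).le
  have hr2 : (0 : ℝ) < r / 2 := by positivity
  obtain ⟨R, hR⟩ : ∃ R : NNReal, (R : ℝ) = r / 2 := ⟨⟨r / 2, hr2.le⟩, rfl⟩
  have hR0 : 0 < R := by
    have : (0 : ℝ) < R := by rw [hR]; exact hr2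
    exact_mod_cast this
  have hsub : Metric.closedBall (μ : ℂ) (R : ℝ) ⊆ Metric.ball (μ : ℂ) r :=
    Metric.closedBall_subset_ball (by rw [hR]; linarith)
  have hps := (hGd.mono hsub).hasFPowerSeriesOnBall hR0
  set q := cauchyPowerSeries G (μ : ℂ) (R : ℝ) with hq
  have hqn : ∀ n, ‖q n‖ ≤ B * r * (r / 2)⁻¹ ^ n := by
    intro n
    refine (norm_cauchyPowerSeries_le G (μ : ℂ) _ n).trans ?_
    have e1 : |(R : ℝ)|⁻¹ ^ n = (r / 2)⁻¹ ^ n := by
      rw [hR, abs_of_pos hr2]
    rw [e1]
    refine mul_le_mul_of_nonneg_right ?_ (by positivity)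
    have h2 : ∫ θ : ℝ in (0 : ℝ)..2 * Real.pi, ‖G (circleMap (μ : ℂ) (R : ℝ) θ)‖ ≤
        ∫ _θ : ℝ in (0 : ℝ)..2 * Real.pi, B * r := by
      have hmem : ∀ θ : ℝ, circleMap (μ : ℂ) (R : ℝ) θ ∈ Metric.ball (μ : ℂ) r := fun θ =>
        hsub (circleMap_mem_closedBall _ (by rw [hR]; exact hr2.le) θ)
      refine intervalIntegral.integral_mono_on (by positivity) ?_
        intervalIntegrable_const (fun θ _ => hGB _ (hmem θ))
      refine ContinuousOn.intervalIntegrable ?_
      exact (hGd.continuousOn.comp (continuous_circleMap _ _).continuousOn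
        (fun θ _ => hmem θ)).norm
    have h3 : ∫ _θ : ℝ in (0 : ℝ)..2 * Real.pi, B * r = 2 * Real.pi * (B * r) := by
      rw [intervalIntegral.integral_const, smul_eq_mul, sub_zero]
    rw [h3] at h2
    calc (2 * Real.pi)⁻¹ * _ ≤ (2 * Real.pi)⁻¹ * (2 * Real.pi * (B * r)) :=
          mul_le_mul_of_nonneg_left h2 (by positivity)
      _ = B * r := by
          rw [← mul_assoc, inv_mul_cancel₀ (by positivity), one_mul]
  refine ⟨fun n => (q.coeff n).re, fun n => ?_, fun t ht => ?_⟩
  · refine (Complex.abs_re_le_norm _).trans ?_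
    rw [FormalMultilinearSeries.coeff]
    refine ((q n).le_opNorm _).trans ?_
    simpa using hqn n
  · have hmem : (t : ℂ) ∈ Metric.eball (0 : ℂ) (R : ENNReal) := by
      rw [Metric.mem_eball, edist_zero_right]
      have : ‖(t : ℂ)‖ₑ < (R : ENNReal) := by
        rw [← ofReal_norm, Complex.norm_real, Real.norm_eq_abs,
          ENNReal.ofReal_lt_iff_lt_toReal (abs_nonneg _) ENNReal.coe_ne_top]
        rw [ENNReal.coe_toReal, hR]
        exact ht
      exact this
    have h1 := hps.hasSum hmem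
    have h2 : HasSum (fun n => (q n fun _ => (t : ℂ)).re) (G (μ + t)).re :=
      Complex.hasSum_re h1
    have h3 : (G ((μ : ℂ) + t)).re = p (μ + t) - p μ := by
      have hD : ∀ x : ℝ, |x - μ| < r → HasDerivAt (fun x : ℝ => p x - (G x).re) 0 x := by
        intro x hx
        have hxb : (x : ℂ) ∈ Metric.ball (μ : ℂ) r := by
          rw [Metric.mem_ball, Complex.dist_eq, ← Complex.ofReal_sub, Complex.norm_real]
          exact hx
        have h4 := (hG x hxb).real_of_complex
        have h5 := (hp x hx).fun_sub h4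
        rw [sub_self] at h5
        exact h5
      have hconv : Convex ℝ (Metric.ball μ r) := convex_ball μ r
      have hc : ∀ x ∈ Metric.ball μ r, ∀ y ∈ Metric.ball μ r,
          p x - (G x).re = p y - (G y).re := by
        intro x hx y hy
        have := hconv.norm_image_sub_le_of_norm_hasDerivWithin_le
          (f := fun x : ℝ => p x - (G x).re) (f' := fun _ => 0) (C := 0)
          (fun z hz => (hD z (by simpa [Real.dist_eq] using hz)).hasDerivWithinAt)
          (fun z _ => by simp) hy hx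
        rw [zero_mul] at this
        have h6 := norm_le_zero_iff.1 this
        linarith [sub_eq_zero.1 h6]
      have h7 := hc (μ + t) (by
        rw [Metric.mem_ball, Real.dist_eq, add_sub_cancel_left]
        linarith) μ (Metric.mem_ball_self hr)
      rw [hG0] at h7
      push_cast at h7
      simp only [Complex.zero_re, sub_zero] at h7
      linarith
    rw [h3] at h2
    have h8 : (fun n => (q n fun _ => (t : ℂ)).re) = fun n => (q.coeff n).re * t ^ n := by
      funext n
      rw [FormalMultilinearSeries.apply_eq_pow_smul_coeff, smul_eq_mul, ← Complex.ofReal_pow,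
        Complex.re_ofReal_mul, mul_comm]
    rw [h8] at h2
    exact h2

end Lim

theorem liman : LIMAN := by
  intro p P μ r B hr hlim hg
  have hc : ∀ k : ℕ, ∃ a : ℕ → ℝ, (∀ n, |a n| ≤ B * r * (r / 2)⁻¹ ^ n) ∧
      ∀ t : ℝ, |t| < r / 2 → HasSum (fun n => a n * t ^ n) (p k (μ + t) - p k μ) := by
    intro k
    obtain ⟨g, hgd, hgB, hgp⟩ := hg k
    exact Lim.coef hr hgd hgB hgp
  choose a ha hs using hc
  set 𝒰 : Ultrafilter ℕ := hyperfilter ℕ with h𝒰
  have hle : (𝒰 : Filter ℕ) ≤ atTop := by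
    rw [h𝒰]
    exact Nat.hyperfilter_le_atTop
  have hconv : ∀ n, ∃ b : ℝ, Tendsto (fun k : ℕ => a k n) 𝒰 (𝓝 b) := by
    intro n
    have hK : IsCompact (Set.Icc (-(B * r * (r / 2)⁻¹ ^ n)) (B * r * (r / 2)⁻¹ ^ n)) :=
      isCompact_Icc
    obtain ⟨b, _, hb⟩ := hK.ultrafilter_le_nhds (𝒰.map fun k => a k n) (by
      rw [le_principal_iff]
      show (fun k => a k n) ⁻¹' _ ∈ (𝒰 : Filter ℕ)
      exact Filter.univ_mem' fun k : ℕ => Set.mem_Icc.2 (abs_le.1 (ha k n)))
    exact ⟨b, hb⟩
  choose b hb using hconv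
  have hsum : ∀ t : ℝ, |t| < r / 2 → HasSum (fun n => b n * t ^ n) (P (μ + t) - P μ) := by
    intro t ht
    have hr2 : 0 < r / 2 := by positivity
    have hgeo : Summable fun n : ℕ => B * r * (|t| * (r / 2)⁻¹) ^ n := by
      refine Summable.mul_left _ (summable_geometric_of_lt_one (by positivity) ?_)
      rw [← div_eq_mul_inv, div_lt_one hr2]
      exact ht
    have hbd : ∀ k n, ‖a k n * t ^ n‖ ≤ B * r * (|t| * (r / 2)⁻¹) ^ n := by
      intro k n
      rw [norm_mul, norm_pow, Real.norm_eq_abs, Real.norm_eq_abs]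
      calc |a k n| * |t| ^ n ≤ B * r * (r / 2)⁻¹ ^ n * |t| ^ n :=
            mul_le_mul_of_nonneg_right (ha k n) (by positivity)
        _ = _ := by rw [mul_pow]; ring
    have h1 : Tendsto (fun k => ∑' n, a k n * t ^ n) 𝒰 (𝓝 (∑' n, b n * t ^ n)) :=
      tendsto_tsum_of_dominated_convergence hgeo (fun n => (hb n).mul_const _)
        (Eventually.of_forall fun k n => hbd k n)
    have h2 : (fun k => ∑' n, a k n * t ^ n) = fun k => p k (μ + t) - p k μ :=
      funext fun k => (hs k t ht).tsum_eq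
    rw [h2] at h1
    have h3 : Tendsto (fun k => p k (μ + t) - p k μ) 𝒰 (𝓝 (P (μ + t) - P μ)) :=
      ((hlim (μ + t) (by simpa using ht.trans (by linarith))).mono_left hle).sub
        ((hlim μ (by simpa using hr)).mono_left hle)
    rw [← tendsto_nhds_unique h1 h3]
    refine Summable.hasSum (Summable.of_norm_bounded hgeo fun n => ?_)
    exact le_of_tendsto ((hb n).mul_const _).norm (Eventually.of_forall fun k => hbd k n)
  -- the power series
  have hfin : HasFPowerSeriesAt (fun x => P x - P μ)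
      (fun n => ContinuousMultilinearMap.mkPiRing ℝ (Fin n) (b n)) μ := by
    rw [hasFPowerSeriesAt_iff]
    have hr2 : 0 < r / 2 := by positivity
    filter_upwards [Metric.ball_mem_nhds (0 : ℝ) hr2] with t ht
    have ht' : |t| < r / 2 := by simpa using ht
    have e : (fun n : ℕ => t ^ n • FormalMultilinearSeries.coeff
        (fun n => ContinuousMultilinearMap.mkPiRing ℝ (Fin n) (b n)) n) =
        fun n => b n * t ^ n := by
      funext n
      simp [FormalMultilinearSeries.coeff, mul_comm]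
    rw [e]
    exact hsum t ht'
  have h5 := hfin.analyticAt.add (analyticAt_const (v := P μ))
  have e : ((fun x => P x - P μ) + fun _ => P μ) = P := by
    funext x
    simp
  rw [e] at h5
  exact h5

end Pool.Agent.HdGas
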