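import Pool.Agent.Lib.NT.Rows4
import Pool.Agent.Lib.NT.Ft23

/-!
# Project NT (MP_09cbbd_mp), row LOC4 (helper59)
-/

set_option autoImplicit false

namespace Pool.Agent.HdGas

open MeasureTheory Filter Topology Pool.Agent.SquareWellGas Pool.Agent.KacGas Pool.Agent.VdwGas

namespace Lc59

theorem abs_coord {d : ℕ} {x : Fin d → ℝ} (h : ∑ k, x k ^ 2 < 9) (k : Fin d) : |x k| ≤ 3 := by
  have h1 : x k ^ 2 ≤ ∑ k, x k ^ 2 :=
    Finset.single_le_sum (f := fun k => x k ^ 2) (fun i _ => sq_nonneg _) (Finset.mem_univ k)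
  have h2 : x k ^ 2 < 3 ^ 2 := by linarith
  exact (abs_lt_of_sq_lt_sq h2 (by norm_num)).le

theorem sub_cube {d : ℕ} {R : ℝ} {x : Fin d → ℝ} (h : ∑ k, x k ^ 2 < 9) :
    Cube d R x ⊆ Cube d (R + 3) 0 := by
  intro y hy k
  have h1 := hy k
  have h2 := abs_coord h k
  have h3 : y k - (0 : Fin d → ℝ) k = (y k - x k) + x k := by simp
  rw [h3]
  exact (abs_add_le _ _).trans (add_le_add h1 h2)

theorem mem_cube {d : ℕ} {R : ℝ} (hR : 0 ≤ R) {x : Fin d → ℝ} (h : ∑ k, x k ^ 2 < 9) :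
    x ∈ Cube d (R + 3) 0 := by
  intro k
  have h2 := abs_coord h k
  simp only [Pi.zero_apply, sub_zero]
  linarith

/-- The upper half of the estimate. -/
theorem upper {c y D t ε η k ph P q : ℝ} (hc : 0 ≤ c) (hk : 0 ≤ k) (hη : 0 ≤ η)
    (hη1 : η ≤ 1 / 100) (ht0 : 0 ≤ t) (hte : t * ε ≤ 1 / 100) (htey : t * ε * y ≤ 1 / 100)
    (hph : y * ph ≤ 1 / 1000) (hP0 : 0 < P) (hty : y = t * P)
    (hct : c * Real.exp c = t) (hD : D = -Real.log P - y) (hck : (c + 1) ^ 3 * k ≤ 1 / 1000)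
    (hq : q * Real.exp (3 * y + 2) ≤ k) (hq0 : 0 ≤ q)
    (h4 : y - c ≤ t * ε * y + η)
    (hT : -(η + y ^ 3 * (3 * k * Real.exp (4 * D + 5 * (t * ε * y) + 4 * η + 6 * (y * ph)) +
      q * Real.exp (3 * y + 3 * D))) ≤ D) (hcy : c < y) : y - c ≤ 40 * (c ^ 3 * k) + 2 * η := by
  have hyp : 0 < y := lt_of_le_of_lt hc hcy
  have htp : 0 < t := by
    rcases ht0.eq_or_lt with h | h
    · rw [← h, zero_mul] at hty
      exact absurd hty hyp.ne'
    · exact h
  have hcp : 0 < c := by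
    rcases hc.eq_or_lt with h | h
    · rw [← h, zero_mul] at hct
      exact absurd hct.symm htp.ne'
    · exact h
  have hlog : -Real.log P = Real.log c + c - Real.log y := by
    rw [hty, Real.log_mul htp.ne' hP0.ne', ← hct, Real.log_mul hcp.ne' (Real.exp_pos _).ne',
      Real.log_exp]
    ring
  have hlcy : Real.log c < Real.log y := Real.log_lt_log hcp hcy
  have hD' : D = (Real.log c - Real.log y) + (c - y) := by rw [hD, hlog]; ring
  have hD0 : D ≤ 0 := by rw [hD']; linarith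
  have hcyD : y - c ≤ -D := by rw [hD']; linarith
  have hE1 : Real.exp (4 * D + 5 * (t * ε * y) + 4 * η + 6 * (y * ph)) ≤ 1.2 := by
    have h1 : 4 * D + 5 * (t * ε * y) + 4 * η + 6 * (y * ph) ≤ 1 / 10 := by linarith
    refine (Real.exp_le_exp.2 h1).trans ?_
    have h2 : Real.exp (1 / 10) ≤ 1 / (1 - 1 / 10) := by
      have := Real.add_one_le_exp (-(1 / 10 : ℝ))
      rw [Real.exp_neg] at this
      rw [le_div_iff₀ (by norm_num)]
      have h3 := mul_le_mul_of_nonneg_left this (Real.exp_pos (1 / 10)).le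
      rw [mul_inv_cancel₀ (Real.exp_pos _).ne'] at h3
      linarith
    exact h2.trans (by norm_num)
  have hE2 : q * Real.exp (3 * y + 3 * D) ≤ k := by
    refine le_trans (mul_le_mul_of_nonneg_left (Real.exp_le_exp.2 ?_) hq0) hq
    linarith
  have hS : 3 * k * Real.exp (4 * D + 5 * (t * ε * y) + 4 * η + 6 * (y * ph)) +
      q * Real.exp (3 * y + 3 * D) ≤ 4.6 * k := by
    have := mul_le_mul_of_nonneg_left hE1 (by positivity : (0 : ℝ) ≤ 3 * k)
    linarith
  have h5 : -D ≤ η + y ^ 3 * (4.6 * k) := by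
    have := mul_le_mul_of_nonneg_left hS (by positivity : (0 : ℝ) ≤ y ^ 3)
    linarith
  have h6 : t * ε * y ≤ 1 / 100 * y := mul_le_mul_of_nonneg_right hte hyp.le
  have h7 : y ≤ (c + η) * (100 / 99) := by linarith
  have h8 : y ^ 3 ≤ ((c + η) * (100 / 99)) ^ 3 := pow_le_pow_left₀ hyp.le h7 3
  have h9 : (c + η) ^ 3 ≤ c ^ 3 + η * (c + 1) ^ 3 := by
    have hη2 : η ≤ 1 := by linarith
    have a1 : η ^ 2 ≤ η := by nlinarith
    have a2 : η ^ 3 ≤ η := by nlinarith [mul_nonneg hη (sq_nonneg η)]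
    have a3 : c * η ^ 2 ≤ c * η := mul_le_mul_of_nonneg_left a1 hc
    have a4 : 0 ≤ c ^ 3 * η := by positivity
    nlinarith
  have h10 : (c + η) ^ 3 * k ≤ c ^ 3 * k + η / 1000 := by
    have := mul_le_mul_of_nonneg_right h9 hk
    have := mul_le_mul_of_nonneg_left hck hη
    linarith
  have h11 : y ^ 3 * k ≤ 1.04 * (c ^ 3 * k + η / 1000) := by
    have a1 : y ^ 3 * k ≤ ((c + η) * (100 / 99)) ^ 3 * k := mul_le_mul_of_nonneg_right h8 hk
    have a2 : ((c + η) * (100 / 99)) ^ 3 * k = (100 / 99) ^ 3 * ((c + η) ^ 3 * k) := by ring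
    rw [a2] at a1
    have a3 : 0 ≤ (c + η) ^ 3 * k := by positivity
    have a4 : (100 / 99 : ℝ) ^ 3 * ((c + η) ^ 3 * k) ≤ 1.04 * ((c + η) ^ 3 * k) :=
      mul_le_mul_of_nonneg_right (by norm_num) a3
    linarith
  have h12 : 0 ≤ c ^ 3 * k := by positivity
  linarith

end Lc59

open Lc59 in
theorem loc4_of (hBU : BULK) (hCO : CORE4) (hCN : CONT4) (hBO : BOOT4) (hTR : TRANS4)
    (hTP : TRIP4) (hPH : PHI8) (hNU : NUM4) (hOV : OVL) : LOC4 := by
  intro θ hθ0 hθ1
  set θ2 : ℝ := (θ + (1 - Real.log 2) / 2) / 2 with hθ2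
  have hθ2a : θ < θ2 := by rw [hθ2]; linarith
  have hθ2b : θ2 < (1 - Real.log 2) / 2 := by rw [hθ2]; linarith
  obtain ⟨d1, hd1⟩ := hPH θ2 hθ2b
  obtain ⟨d2, hd2⟩ := hNU θ θ2 1 hθ0 hθ2a hθ2b one_pos
  refine ⟨max d1 d2, fun d hd => ?_⟩
  obtain ⟨hd0, -, n2, n3, n4⟩ := hd2 d (le_of_max_le_right hd)
  refine ⟨hd0, fun lam c hlam hc hce hcle δ hδ => ?_⟩
  set ε : ℝ := Real.exp (-(θ2 * (d : ℝ))) with hε
  have hε0 : 0 ≤ ε := (Real.exp_pos _).le
  have hFT : FT d ε := ft_of_phi hd0 (hd1 d (le_of_max_le_left hd))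
  obtain ⟨hb, -⟩ := hOV d hd0
  set b : ℝ := bv d with hbd
  set k : ℝ := kap d with hkd
  have hk0 : 0 ≤ k := by rw [hkd]; unfold kap; positivity
  set c0 : ℝ := θ * d with hc0
  have hc0n : 0 ≤ c0 := hc.trans hcle
  set t0 : ℝ := c0 * Real.exp c0 with ht0
  have ht0n : 0 ≤ t0 := mul_nonneg hc0n (Real.exp_pos _).le
  have hlam0 : t0 / b * b = t0 := div_mul_cancel₀ _ hb.ne'
  have hlam0n : 0 ≤ t0 / b := div_nonneg ht0n hb.le
  have hte0 : 0 ≤ t0 * ε := mul_nonneg ht0n hε0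
  have hte : t0 * ε ≤ 1 / 100 := by
    have : t0 * ε * 1 ≤ t0 * ε * (c0 + 1) := mul_le_mul_of_nonneg_left (by linarith) hte0
    linarith
  set η : ℝ := min (1 / 100) (δ / 3) with hη
  have hηp : 0 < η := lt_min (by norm_num) (by linarith)
  have hη1 : η ≤ 1 / 100 := min_le_left _ _
  have hη3 : 3 * η ≤ δ := by
    have := min_le_right (1 / 100) (δ / 3)
    rw [← hη] at this
    linarith
  have hη1p : 0 < η / (2 * (t0 + 1)) := by positivity
  obtain ⟨R, hR, hbulk⟩ := hBU d hd0 ε (t0 / b) hε0 hFT hlam0n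
    (by rw [← hbd, hlam0]; linarith) (η / (2 * (t0 + 1))) hη1p
  refine ⟨R, fun L hL u hu => ?_⟩
  set L' : Set (Fin d → ℝ) := Cube d (R + 3) 0 with hL'd
  have hL' : Reg d L' := (hTR d hd0 lam (R + 3) hlam (by linarith) 0).1
  have hsq : ∀ x : Fin d → ℝ, ∑ k, ((0 : Fin d → ℝ) k - x k) ^ 2 = ∑ k, x k ^ 2 := by
    intro x
    refine Finset.sum_congr rfl fun k _ => ?_
    simp
  have hscale : ∀ lam' x y : ℝ, 0 ≤ lam' → lam' ≤ t0 / b → |x - y| ≤ 2 * (η / (2 * (t0 + 1))) →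
      |lam' * b * x - lam' * b * y| ≤ η := by
    intro lam' x y h0 h1 h2
    have h3 : lam' * b ≤ t0 := by
      have := mul_le_mul_of_nonneg_right h1 hb.le
      rwa [hlam0] at this
    have h4 : 0 ≤ lam' * b := mul_nonneg h0 hb.le
    rw [← mul_sub, abs_mul, abs_of_nonneg h4]
    calc _ ≤ t0 * (2 * (η / (2 * (t0 + 1)))) :=
          mul_le_mul h3 h2 (abs_nonneg _) ht0n
      _ = t0 / (t0 + 1) * η := by field_simp
      _ ≤ 1 * η := by
          refine mul_le_mul_of_nonneg_right ?_ hηp.le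
          rw [div_le_one (by linarith)]
          linarith
      _ = η := one_mul _
  have hnear : ∀ lam' : ℝ, 0 ≤ lam' → lam' ≤ t0 / b → ∀ x : Fin d → ℝ, ∑ k, x k ^ 2 < 9 →
      |lam' * b * fp d lam' L' x - lam' * b * fp d lam' L' 0| ≤ η := by
    intro lam' h0 h1 x hx
    have a1 := hbulk lam' h0 h1 L' hL' x (sub_cube hx)
    have a2 := hbulk lam' h0 h1 L' hL' 0 (sub_cube (by simp))
    refine hscale lam' _ _ h0 h1 ?_
    have := abs_sub_le (fp d lam' L' x) (fp d lam' (Cube d R 0) 0) (fp d lam' L' 0)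
    rw [abs_sub_comm (fp d lam' (Cube d R 0) 0)] at this
    linarith
  obtain ⟨hcont, hp0, hpb⟩ := hCN d hd0 L' hL' 0
  set p : ℝ → ℝ := fun t => fp d (t / b) L' 0 with hp
  have hboot := hBO c0 k ε η p (KH d) hc0n hk0 hε0 hηp.le hη1 n2 n3
    (fun y h0 h1 => ⟨(n4 y h0 h1).1, (n4 y h0 h1).2.1⟩)
    (hcont.comp (continuousOn_id.div_const b) fun t ht => div_nonneg ht.1 hb.le)
    (by simp only [hp, zero_div]; exact hp0)
    (by
      intro t h0 h1
      have ht1 : 0 ≤ t / b := div_nonneg h0 hb.le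
      have ht2 : t / b ≤ t0 / b := div_le_div_of_nonneg_right h1 hb.le
      have ht3 : t / b * b = t := div_mul_cancel₀ _ hb.ne'
      obtain ⟨q1, q2⟩ := hpb (t / b) ht1
      refine ⟨q1, q2, fun y D hy hD => ?_⟩
      have hcore := hCO d hd0 ε (t / b) hε0 hFT ht1 (by
        rw [← hbd, ht3]
        have : t * ε ≤ t0 * ε := mul_le_mul_of_nonneg_right h1 hε0
        linarith) L' hL' 0 η y D hηp.le (by rw [← hbd, ht3]; exact hy) hD (by
        intro x hx
        rw [hsq] at hx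
        have hx9 : ∑ k, x k ^ 2 < 9 := by linarith
        refine ⟨mem_cube hR.le hx9, ?_⟩
        have := hnear (t / b) ht1 ht2 x hx9
        rw [hy, ← hbd]
        rw [ht3] at this ⊢
        exact this)
      rw [← hbd, ht3] at hcore
      exact hcore)
  set t : ℝ := lam * b with htd
  have htn : 0 ≤ t := mul_nonneg hlam hb.le
  have htb : t / b = lam := by rw [htd, mul_div_assoc, div_self hb.ne', mul_one]
  have htt : t ≤ t0 := by
    rw [← hce, ht0]
    exact mul_le_mul hcle (Real.exp_le_exp.2 hcle) (Real.exp_pos _).le hc0n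
  have hlamle : lam ≤ t0 / b := by
    rw [le_div_iff₀ hb]
    exact htt
  obtain ⟨r1, r2, r3, r4⟩ := hboot t c hc hcle hce
  have hpt : p t = fp d lam L' 0 := by
    simp only [hp]
    rw [htb]
  rw [hpt] at r1 r2 r3 r4
  obtain ⟨q1, q2⟩ := hpb lam hlam
  set y : ℝ := t * fp d lam L' 0 with hyd
  have hyn : 0 ≤ y := mul_nonneg htn q1.le
  have hteps : t * ε ≤ 1 / 100 := (mul_le_mul_of_nonneg_right htt hε0).trans hte
  have htn' : 0 ≤ t * ε := mul_nonneg htn hε0
  have htey : t * ε * y ≤ 1 / 100 := by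
    calc t * ε * y ≤ t0 * ε * (c0 + 1) :=
          mul_le_mul (mul_le_mul_of_nonneg_right htt hε0) r1 hyn hte0
      _ ≤ 1 / 100 := n2
  obtain ⟨-, -, m3, m4⟩ := n4 y hyn r1
  have htrip := hTP d hd0 ε lam hε0 hFT hlam (by rw [← hbd, ← htd]; linarith) L' hL' 0 η y
    (-Real.log (fp d lam L' 0) - y) hηp.le (by rw [hyd, htd]) rfl (by
      intro x hx
      rw [hsq] at hx
      refine ⟨mem_cube hR.le hx, ?_⟩
      have := hnear lam hlam hlamle x hx
      rw [← htd] at this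
      rw [← hbd, ← htd]
      exact this)
  rw [← hbd, ← htd, ← hkd] at htrip
  have hck : (c + 1) ^ 3 * k ≤ 1 / 1000 := by
    refine le_trans (mul_le_mul_of_nonneg_right ?_ hk0) n3
    exact pow_le_pow_left₀ (by linarith) (by linarith) 3
  have hfin : |y - c| ≤ 40 * (c ^ 3 * k) + 2 * η := by
    rw [abs_le]
    have hc3 : 0 ≤ c ^ 3 * k := by positivity
    constructor
    · linarith
    · rcases le_or_gt y c with h | h
      · linarith
      · exact upper (P := fp d lam L' 0) (q := 6 * (1 / 2) ^ d) (ph := ph d) hc hk0 hηp.le hη1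
          htn hteps htey m3 q1 hyd hce rfl hck m4 (by positivity) r4 htrip h
  have hlast : |t * fp d lam L u - y| ≤ η := by
    have a1 := hbulk lam hlam hlamle L hL u hu
    have a2 := hbulk lam hlam hlamle L' hL' 0 (sub_cube (by simp))
    refine hscale lam _ _ hlam hlamle ?_
    have := abs_sub_le (fp d lam L u) (fp d lam (Cube d R 0) 0) (fp d lam L' 0)
    rw [abs_sub_comm (fp d lam (Cube d R 0) 0)] at this
    linarith
  have := abs_sub_le (t * fp d lam L u) y c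
  linarith

end Pool.Agent.HdGas
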