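import Pool.Agent.Lib.NT.Rows3
import Pool.Agent.Lib.NT.LocalM
import Pool.Agent.Lib.MF.PosL

/-!
# Row LOCAL3: the self-consistency equation for hard spheres in a region of any shape (helper27)
-/

set_option autoImplicit false

namespace Pool.Agent.HdGas

open MeasureTheory Filter Topology Pointwise Pool.Agent.SquareWellGas Pool.Agent.KacGas
  Pool.Agent.VdwGas

open LocalR LocalM in
/-- Row LOCAL3. -/
theorem local3_of (hU : PUP) (hLo : PLO) (hG : GEOL) (hE : EXCHI) (hX : SCL) (hB : SYSB)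
    (hT : FTS) : LOCAL3 := by
  intro d hd a lam ε ha hlam hε hF L hL ⟨ℓ, hℓ⟩ p n hp hn v
  have hFT : FT d ε := (hT d a ε hd ha).1 hF
  have hLf := vol_bd hℓ
  obtain ⟨R, hR⟩ : ∃ R : ℝ, R = 2 * a := ⟨_, rfl⟩
  have hR0 : 0 < R := by rw [hR]; positivity
  have hb := ball_eq (d := d) ha
  obtain ⟨t, ht⟩ : ∃ t : ℝ, t = lam * ball d a := ⟨_, rfl⟩
  have ht' : lam * R ^ d * bv d = t := by
    rw [ht, hb, hR]
    ring
  have hkap : (√3 / 2 : ℝ) ^ d = kap d := rfl
  rw [hkap, ← ht]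
  obtain ⟨L', hL'⟩ : ∃ L' : Set (Fin d → ℝ), L' = R⁻¹ • L := ⟨_, rfl⟩
  have hL'm : MeasurableSet L' := by
    rw [hL']
    exact hL.const_smul₀ _
  have hL'f : volume L' ≠ ⊤ := by
    rw [hL']
    exact vol_fin L hLf
  have hL'b : ∀ x ∈ L', ∀ k, |x k| ≤ ℓ / R := by
    intro x hx k
    rw [hL', smul_mem hR0] at hx
    have h := hℓ _ hx k
    rw [Pi.smul_apply, smul_eq_mul, abs_mul, abs_of_pos hR0] at h
    rw [le_div_iff₀ hR0]
    linarith
  have hlam' : 0 ≤ lam * R ^ d := by positivity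
  have hGeo := hG d hd L' hL'm hL'f
  obtain ⟨K, hSys⟩ := sysL hB hd hlam' hL'm hL'f hL'b
  have hPos := posi_of hd hε hFT hL'm hL'f
  -- the probability
  have hpv : ∀ u : Fin d → ℝ,
      p (R • u) = ex volume (Cb d) (lam * R ^ d) L' (chi (Cb d) (Al _) u) := by
    intro u
    have hm : MeasurableSet {z : Fin d → ℝ | z ∈ L ∧ (2 * a) ^ 2 ≤
        ∑ k, ((R • u) k - z k) ^ 2} := by
      have h1 : MeasurableSet {z : Fin d → ℝ | (2 * a) ^ 2 ≤ ∑ k, ((R • u) k - z k) ^ 2} :=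
        measurableSet_le measurable_const (by fun_prop)
      exact hL.inter h1
    have hmf : volume {z : Fin d → ℝ | z ∈ L ∧ (2 * a) ^ 2 ≤
        ∑ k, ((R • u) k - z k) ^ 2} ≠ ⊤ :=
      ne_top_of_le_ne_top hLf (measure_mono fun z hz => hz.1)
    rw [hp, hX d hd a lam ha hlam _ hm hmf, hX d hd a lam ha hlam L hL hLf,
      hE (Fin d → ℝ) volume (Cb d) L' (bv d) (kap d) (lam * R ^ d) hGeo hlam' u, ← hR,
      out_eq hR0, ← hL']
  -- the density integral
  have hnv : ∀ u : Fin d → ℝ, n (R • u) = lam * R ^ d *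
      ∫ z in {z | z ∈ L' ∧ Cb d u z},
        ex volume (Cb d) (lam * R ^ d) L' (chi (Cb d) (Al _) z) := by
    intro u
    rw [hn, int_smul hR0, hL', in_eq hR0, ← hR, ← hL', mul_assoc]
    simp only [hpv]
  have hv : v = R • (R⁻¹ • v) := by rw [smul_smul, mul_inv_cancel₀ hR0.ne', one_smul]
  rw [hv, hpv, hnv]
  constructor
  · intro h1
    have h := hU (Fin d → ℝ) volume (Cb d) L' (bv d) ε (lam * R ^ d) K hSys hε hPos
      (by rw [ht']; exact h1) (R⁻¹ • v)
    rw [ht'] at h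
    exact h
  · intro h1
    have h := hLo (Fin d → ℝ) volume (Cb d) L' (bv d) (kap d) (lam * R ^ d) hGeo hlam'
      (by rw [ht']; exact h1) (R⁻¹ • v)
    rw [ht'] at h
    exact h

end Pool.Agent.HdGas
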