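import Pool.Agent.Lib.NT.Gnz
import Pool.Agent.Lib.NT.Xoff

/-!
# Row LOGD
-/

set_option autoImplicit false

namespace Pool.Agent.HdGas

open MeasureTheory Filter Topology

namespace Gn

/-- The formula for bounded complex functions. -/
theorem coreC {S : Type} [MeasurableSpace S] (m : Measure S) [SigmaFinite m] {C : S → S → Prop}
    {lam : ℝ} {L : Set S} {M : ℕ} (hCm : MeasurableSet {p : S × S | C p.1 p.2})
    (hCs : ∀ x y, C x y → C y x) (hL : MeasurableSet L) (hLf : m L ≠ ⊤) (hlam : 0 ≤ lam)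
    (hfew : ∀ᵐ ω ∂gib m C lam L, ω.1 ≤ M) (H : S → Om S → ℂ)
    (hH : Measurable fun q : S × Om S => H q.1 q.2) {B : ℝ} (hB : ∀ p ω, ‖H p ω‖ ≤ B) :
    ∫ ω, ∑ i, H (ω.2 i) (del ω i) ∂gib m C lam L =
      lam * ∫ p in L, ∫ ω, (chi C (Al S) p ω : ℂ) * H p ω ∂gib m C lam L ∂m := by
  obtain ⟨hmhc, hfp, hfg, hXi1, -, -⟩ := bas S m C L lam hCm hL hLf hlam
  obtain ⟨hmeas, -⟩ := Ms.meas_row S m C L lam hCm hL hLf hlam
  have hchm : Measurable fun q : S × Om S => chi C (Al S) q.1 q.2 :=
    (hmeas (Al S) (by simp [Al])).1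
  have hfm : IsFiniteMeasure (m.restrict L) := ⟨by
    rw [Measure.restrict_apply_univ]; exact lt_top_iff_ne_top.2 hLf⟩
  have hr : Measurable fun q : S × Om S => (H q.1 q.2).re := Complex.measurable_re.comp hH
  have hi : Measurable fun q : S × Om S => (H q.1 q.2).im := Complex.measurable_im.comp hH
  have hrb : ∀ p ω, |(H p ω).re| ≤ B := fun p ω => (Complex.abs_re_le_norm _).trans (hB p ω)
  have hib : ∀ p ω, |(H p ω).im| ≤ B := fun p ω => (Complex.abs_im_le_norm _).trans (hB p ω)
  have hint : ∀ (G : S → Om S → ℝ), (Measurable fun q : S × Om S => G q.1 q.2) →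
      (∀ p ω, |G p ω| ≤ B) → Integrable (rem G) (gib m C lam L) := by
    intro G hG hGB
    refine Integrable.of_bound (C := M * |B|) (measurable_rem hG).aestronglyMeasurable ?_
    filter_upwards [hfew] with ω hω
    rw [Real.norm_eq_abs]
    refine (rem_abs_le (B := |B|) (fun p ω => (hGB p ω).trans (le_abs_self B)) ω).trans ?_
    exact mul_le_mul_of_nonneg_right (Nat.cast_le.2 hω) (abs_nonneg B)
  have hbd : ∀ (G : S → Om S → ℝ), (∀ p ω, |G p ω| ≤ B) →
      ∀ p ω, |chi C (Al S) p ω * G p ω| ≤ |B| := by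
    intro G hGB p ω
    rw [abs_mul, abs_of_nonneg (chi_nonneg _ _ _ _)]
    calc chi C (Al S) p ω * |G p ω| ≤ 1 * |B| :=
          mul_le_mul (chi_le_one _ _ _ _) ((hGB p ω).trans (le_abs_self B)) (abs_nonneg _)
            zero_le_one
      _ = |B| := one_mul _
  have hint2 : ∀ (G : S → Om S → ℝ), (Measurable fun q : S × Om S => G q.1 q.2) →
      (∀ p ω, |G p ω| ≤ B) → ∀ p, Integrable (fun ω => chi C (Al S) p ω * G p ω)
        (gib m C lam L) := by
    intro G hG hGB p
    refine Integrable.of_bound (C := |B|)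
      ((hchm.mul hG).comp measurable_prodMk_left).aestronglyMeasurable
      (Eventually.of_forall fun ω => ?_)
    rw [Real.norm_eq_abs]
    exact hbd G hGB p ω
  have hint3 : ∀ (G : S → Om S → ℝ), (Measurable fun q : S × Om S => G q.1 q.2) →
      (∀ p ω, |G p ω| ≤ B) → Integrable
        (fun p => ∫ ω, chi C (Al S) p ω * G p ω ∂gib m C lam L) (m.restrict L) := by
    intro G hG hGB
    have hm : Measurable fun p => ∫ ω, chi C (Al S) p ω * G p ω ∂gib m C lam L :=
      ((hchm.mul hG).stronglyMeasurable.integral_prod_right' (f := fun q : S × Om S =>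
        chi C (Al S) q.1 q.2 * G q.1 q.2)).measurable
    refine Integrable.of_bound (C := |B| * (gib m C lam L).real Set.univ)
      hm.aestronglyMeasurable (Eventually.of_forall fun p => ?_)
    exact norm_integral_le_of_norm_le_const (Eventually.of_forall fun ω => by
      rw [Real.norm_eq_abs]
      exact hbd G hGB p ω)
  have c1 := core m hCm hCs hL hLf hlam hfew (fun p ω => (H p ω).re) hr hrb
  have c2 := core m hCm hCs hL hLf hlam hfew (fun p ω => (H p ω).im) hi hib
  have e1 : ∀ ω : Om S, ∑ i, H (ω.2 i) (del ω i) =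
      ((rem (fun p ω => (H p ω).re) ω : ℝ) : ℂ) + Complex.I *
        ((rem (fun p ω => (H p ω).im) ω : ℝ) : ℂ) := by
    intro ω
    unfold rem
    push_cast
    rw [Finset.mul_sum, ← Finset.sum_add_distrib]
    refine Finset.sum_congr rfl fun i _ => ?_
    rw [mul_comm, Complex.re_add_im]
  have e2 : ∀ p, ∫ ω, (chi C (Al S) p ω : ℂ) * H p ω ∂gib m C lam L =
      ((∫ ω, chi C (Al S) p ω * (H p ω).re ∂gib m C lam L : ℝ) : ℂ) + Complex.I *
        ((∫ ω, chi C (Al S) p ω * (H p ω).im ∂gib m C lam L : ℝ) : ℂ) := by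
    intro p
    have e3 : ∀ ω, (chi C (Al S) p ω : ℂ) * H p ω =
        ((chi C (Al S) p ω * (H p ω).re : ℝ) : ℂ) + Complex.I *
          ((chi C (Al S) p ω * (H p ω).im : ℝ) : ℂ) := by
      intro ω
      push_cast
      conv_lhs => rw [← Complex.re_add_im (H p ω)]
      ring
    simp only [e3]
    rw [integral_add (hint2 _ hr hrb p).ofReal ((hint2 _ hi hib p).ofReal.const_mul _),
      integral_const_mul, integral_complex_ofReal, integral_complex_ofReal]
  simp only [e1, e2]
  rw [integral_add (hint _ hr hrb).ofReal ((hint _ hi hib).ofReal.const_mul _),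
    integral_const_mul, integral_complex_ofReal, integral_complex_ofReal, c1, c2,
    integral_add (hint3 _ hr hrb).ofReal ((hint3 _ hi hib).ofReal.const_mul _),
    integral_const_mul, integral_complex_ofReal, integral_complex_ofReal]
  push_cast
  ring

end Gn

/-- Row LOGD. -/
theorem logd_of (hO : OKB) (hA : SYSA) (hX : XOFF) : LOGD := by
  intro S _ m _ C L lam b K hS θ v hv hZF α hα
  obtain ⟨hsf, hSa, -⟩ := hA S m C L lam b K hS α hα
  obtain ⟨hokm, hokae, hokK, -, -, -, -, -⟩ := hO S (md m α) C L lam b K hSa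
  obtain ⟨-, -, hoff, -⟩ := hX S m C L lam b K hS θ α hα
  have hfew : ∀ᵐ ω ∂gib (md m α) C lam L, ω.1 ≤ K := hokae.mono fun ω h => hokK ω h
  have hNm : Measurable fun ω : Om S => (ω.1 : ℂ) := by
    refine measurable_om fun n => ?_
    show Measurable fun _ : Fin n → S => (n : ℂ)
    exact measurable_const
  have hHm : Measurable fun q : S × Om S =>
      Complex.exp (Complex.I * θ * ((q.2.1 : ℂ) + 1)) :=
    Complex.continuous_exp.measurable.comp
      (measurable_const.mul ((hNm.comp measurable_snd).add_const 1))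
  have hHb : ∀ (_ : S) (ω : Om S),
      ‖Complex.exp (Complex.I * θ * ((ω.1 : ℂ) + 1))‖ ≤ 1 := by
    intro _ ω
    have e : Complex.I * θ * ((ω.1 : ℂ) + 1) = ((θ * ((ω.1 : ℝ) + 1) : ℝ) : ℂ) * Complex.I := by
      push_cast
      ring
    rw [e, Complex.norm_exp_ofReal_mul_I]
  have h1 := Gn.coreC (md m α) hSa.meas hSa.symm hSa.measL hSa.fin hSa.lam_nonneg hfew
    (fun _ ω => Complex.exp (Complex.I * θ * ((ω.1 : ℂ) + 1))) hHm hHb
  have h2 : ∀ ω : Om S, ∑ i : Fin ω.1,
      Complex.exp (Complex.I * θ * (((del ω i).1 : ℂ) + 1)) =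
      (ω.1 : ℂ) * Complex.exp (Complex.I * θ * ω.1) := by
    intro ω
    have e : ∀ i : Fin ω.1, Complex.exp (Complex.I * θ * (((del ω i).1 : ℂ) + 1)) =
        Complex.exp (Complex.I * θ * ω.1) := by
      intro i
      obtain ⟨n, x⟩ := ω
      cases n with
      | zero => exact i.elim0
      | succ n =>
        show Complex.exp (Complex.I * θ * ((n : ℂ) + 1)) =
          Complex.exp (Complex.I * θ * ((n + 1 : ℕ) : ℂ))
        push_cast
        rfl
    rw [Finset.sum_congr rfl fun i _ => e i]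
    simp
  simp only [h2] at h1
  rw [h1]
  -- the inner integral
  have hCx : ∀ x, MeasurableSet {z | C x z} := fun x => hS.meas.preimage measurable_prodMk_left
  have h3 : ∀ p, ‖∫ ω, (chi C (Al S) p ω : ℂ) *
      Complex.exp (Complex.I * θ * ((ω.1 : ℂ) + 1)) ∂gib (md m α) C lam L‖ ≤
      (1 + v) * ‖Xa m C lam L θ α‖ := by
    intro p
    obtain ⟨-, h4⟩ := hoff {z | C p z} (hCx p)
    have h5 : ∫ ω, (chi C (Al S) p ω : ℂ) *
        Complex.exp (Complex.I * θ * ((ω.1 : ℂ) + 1)) ∂gib (md m α) C lam L =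
        Complex.exp (Complex.I * θ) * Xa m C lam L θ (off {z | C p z} α) := by
      have hmS : MeasurableSet {ω : Om S | ∀ i, ω.2 i ∉ {z | C p z}} :=
        Mark.meas_all (hCx p).compl
      rw [h4, ← integral_const_mul, ← integral_indicator hmS]
      refine integral_congr_ae (Eventually.of_forall fun ω => ?_)
      simp only
      by_cases h : fr C (Al S) p ω
      · rw [Set.indicator_of_mem (show ω ∈ {ω : Om S | ∀ i, ω.2 i ∉ {z | C p z}} from
          fun i => h i trivial)]
        have e : chi C (Al S) p ω = 1 := by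
          unfold chi
          rw [if_pos h]
        rw [e, ← Complex.exp_add]
        push_cast
        rw [one_mul]
        congr 1
        ring
      · rw [Set.indicator_of_notMem (show ω ∉ {ω : Om S | ∀ i, ω.2 i ∉ {z | C p z}} from
          fun h' => h fun i _ => h' i)]
        have e : chi C (Al S) p ω = 0 := by
          unfold chi
          rw [if_neg h]
        rw [e]
        simp
    rw [h5, norm_mul]
    have e : ‖Complex.exp (Complex.I * θ)‖ = 1 := by
      rw [mul_comm, Complex.norm_exp_ofReal_mul_I]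
    rw [e, one_mul]
    obtain ⟨hne, hra⟩ := hZF α hα
    obtain ⟨-, -, -, hR0⟩ := hX S m C L lam b K hS 0 α hα
    have h6 : Xa m C lam L θ (off {z | C p z} α) = Ra m C lam L θ α p * Xa m C lam L θ α := by
      unfold Ra
      rw [div_mul_cancel₀ _ hne]
    rw [h6, norm_mul]
    refine mul_le_mul_of_nonneg_right ?_ (norm_nonneg _)
    calc ‖Ra m C lam L θ α p‖ = ‖(Ra m C lam L θ α p - Ra m C lam L 0 α p) +
          Ra m C lam L 0 α p‖ := by rw [sub_add_cancel]
      _ ≤ v + 1 := (norm_add_le _ _).trans (add_le_add (hra p) (hR0 p).2)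
      _ = 1 + v := add_comm _ _
  rw [norm_mul, Complex.norm_real, Real.norm_of_nonneg hS.lam_nonneg]
  have h7 := norm_setIntegral_le_of_norm_le_const (μ := md m α) (s := L)
    (f := fun p => ∫ ω, (chi C (Al S) p ω : ℂ) *
      Complex.exp (Complex.I * θ * ((ω.1 : ℂ) + 1)) ∂gib (md m α) C lam L)
    (C := (1 + v) * ‖Xa m C lam L θ α‖) (lt_top_iff_ne_top.2 hSa.fin) (fun p _ => h3 p)
  have h8 : (md m α).real L ≤ (m L).toReal := by
    refine ENNReal.toReal_mono hS.fin ?_
    unfold md
    rw [withDensity_apply _ hS.measL]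
    calc ∫⁻ x in L, ENNReal.ofReal (α x) ∂m ≤ ∫⁻ _ in L, 1 ∂m :=
          lintegral_mono fun x => ENNReal.ofReal_le_one.2 (hα.2 x).2
      _ = m L := by simp
  have h9 : 0 ≤ (1 + v) * ‖Xa m C lam L θ α‖ := by positivity
  calc lam * ‖∫ p in L, ∫ ω, (chi C (Al S) p ω : ℂ) *
        Complex.exp (Complex.I * θ * ((ω.1 : ℂ) + 1)) ∂gib (md m α) C lam L ∂md m α‖
      ≤ lam * ((1 + v) * ‖Xa m C lam L θ α‖ * (m L).toReal) :=
        mul_le_mul_of_nonneg_left (h7.trans (mul_le_mul_of_nonneg_left h8 h9)) hS.lam_nonneg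
    _ = (1 + v) * lam * (m L).toReal * ‖Xa m C lam L θ α‖ := by ring

end Pool.Agent.HdGas
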