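import Pool.Agent.Lib.NT.Top
import Pool.Agent.Lib.MF.Mon
import Pool.Agent.Lib.MF.BallF
import Pool.Agent.Lib.MF.Geob

/-!
# Project NT (MP_09cbbd_mp), row MONO (helper59)
-/

set_option autoImplicit false

namespace Pool.Agent.HdGas

open MeasureTheory

/-- The Fourier transform of the ball in terms of `Phi`. -/
theorem phi_of_FT (hB : BALLF) {d : ℕ} {ε : ℝ} (hd : 1 ≤ d) (h : FT d ε) (s : ℝ) (hs : 0 ≤ s) :
    -ε ≤ Phi d s := by
  obtain ⟨n, rfl⟩ : ∃ n, d = n + 1 := ⟨d - 1, by omega⟩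
  have h1 := h (fun k => if k = 0 then s else 0)
  rw [hB (n + 1) hd] at h1
  have h2 : ∑ k : Fin (n + 1), (if k = 0 then s else 0) ^ 2 = s ^ 2 := by
    rw [Finset.sum_eq_single 0]
    · simp
    · intro b _ hb; simp [hb]
    · intro hc; exact absurd (Finset.mem_univ _) hc
  rw [h2, Real.sqrt_sq hs] at h1
  have hb : 0 < bv (n + 1) := GeobR.bv_pos (n + 1)
  have h3 : bv (n + 1) * (-ε) ≤ bv (n + 1) * Phi (n + 1) s := by linarith
  exact le_of_mul_le_mul_left h3 hb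

theorem FT_of_phi (hB : BALLF) {d : ℕ} {ε : ℝ} (hd : 1 ≤ d)
    (h : ∀ s : ℝ, 0 ≤ s → -ε ≤ Phi d s) : FT d ε := by
  intro ξ
  rw [hB d hd ξ]
  have hb : 0 < bv d := GeobR.bv_pos d
  have := mul_le_mul_of_nonneg_left (h _ (Real.sqrt_nonneg (∑ k, ξ k ^ 2))) hb.le
  linarith

/-- Row MONO. -/
theorem mono_of (hM : MON) (hB : BALLF) : MONO := by
  intro d ε hd hε h
  exact FT_of_phi hB (by omega) (hM d ε hd hε (phi_of_FT hB hd h))

/-- Row MONO, with its inputs. -/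
theorem mono_ft : MONO := mono_of mon ballF

end Pool.Agent.HdGas
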