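import Pool.Agent.Lib.NT.Rows

/-!
# Hard-core gases: row NUMG (helper53)
-/

set_option autoImplicit false

namespace Pool.Agent.HdGas

open Filter Topology

theorem numg_of : NUMG := by
  intro lam b c s w hl hb hc hw ht
  have h1 : Tendsto (fun T : ℝ => (4 * c⁻¹ * Real.exp s * √(lam * b) * (lam * √lam)) *
      (Real.exp (-T) * (w T * √(w T)))) atTop (𝓝 0) := by
    simpa using ht.const_mul (4 * c⁻¹ * Real.exp s * √(lam * b) * (lam * √lam))
  obtain ⟨T, hT0, hT⟩ : ∃ T : ℝ, 0 ≤ T ∧ (4 * c⁻¹ * Real.exp s * √(lam * b) * (lam * √lam)) *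
      (Real.exp (-T) * (w T * √(w T))) < 1 / 32 := by
    have h2 := (h1.eventually (gt_mem_nhds (show (0 : ℝ) < 1 / 32 by norm_num))).and
      (eventually_ge_atTop (0 : ℝ))
    obtain ⟨T, hT⟩ := h2.exists
    exact ⟨T, hT.2, hT.1⟩
  set W : ℝ := lam * w T with hW
  set A : ℝ := 4 * c⁻¹ * Real.exp (-(T - s)) * (√(lam * b) * √W) with hA
  have hW0 : 0 ≤ W := mul_nonneg hl (hw T)
  have hA0 : 0 ≤ A := by positivity
  have hAW : A * W ≤ 1 / 32 := by
    refine le_trans (le_of_eq ?_) hT.le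
    rw [hA, hW, Real.sqrt_mul hl (w T), show -(T - s) = s + -T by ring, Real.exp_add]
    ring
  refine ⟨T, 1 / (8 * (W + 1)), 1 / (8 * (W + 1)) / (64 * (1 + W) * (1 + A)), hT0, by positivity,
    ?_, by positivity, ?_⟩
  · rw [div_le_one (by positivity)]
    linarith
  intro θ hθ G u hG hu h
  set v : ℝ := 1 / (8 * (W + 1)) with hv
  have hv0 : 0 < v := by positivity
  have hWv : W * v ≤ 1 / 8 := by
    rw [hv, mul_one_div, div_le_iff₀ (by positivity)]
    linarith
  have hv1 : v ≤ 1 / 8 := by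
    rw [hv, div_le_div_iff₀ (by positivity) (by norm_num)]
    linarith
  have ht0 : 0 ≤ |θ| := abs_nonneg θ
  have h3 : |θ| * (64 * (1 + W) * (1 + A)) ≤ v := by
    rwa [le_div_iff₀ (by positivity)] at hθ
  have h4 : 0 ≤ |θ| * W := mul_nonneg ht0 hW0
  have h5 : 0 ≤ |θ| * A := mul_nonneg ht0 hA0
  have h6 : 0 ≤ |θ| * W * A := mul_nonneg h4 hA0
  have h7 : 64 * (|θ| * W) ≤ v := by nlinarith
  have h8 : 64 * (|θ| * W * A) ≤ v := by nlinarith
  have hG0 : 0 ≤ G := by
    rw [hG]; positivity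
  have hG1 : G ≤ W * v + 2 * (|θ| * W) := by
    rw [hG]
    nlinarith [mul_nonneg h4 hv0.le]
  have hG2 : G ≤ 1 / 8 + 1 / 256 := by
    have : v ≤ 1 / 8 := hv1
    linarith
  have he : Real.exp G - 1 ≤ 2 * G := by
    have h9 := Real.abs_exp_sub_one_le (x := G) (by rw [abs_of_nonneg hG0]; linarith)
    rw [abs_of_nonneg hG0] at h9
    exact (le_abs_self _).trans h9
  have he1 : Real.exp G ≤ 3 / 2 := by linarith
  have he0 : 0 ≤ Real.exp G - 1 := by
    have := Real.add_one_le_exp G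
    linarith
  have h10 : |θ| * W * Real.exp G ≤ |θ| * W * (3 / 2) := mul_le_mul_of_nonneg_left he1 h4
  have h11 : A * (Real.exp G - 1) ≤ A * (2 * G) := mul_le_mul_of_nonneg_left he hA0
  have h12 : A * G ≤ A * (W * v + 2 * (|θ| * W)) := mul_le_mul_of_nonneg_left hG1 hA0
  have h13 : A * W * v ≤ 1 / 32 * v := mul_le_mul_of_nonneg_right hAW hv0.le
  have h14 : u * (1 / 2) ≤ u * (1 - (|θ| * W * Real.exp G + (Real.exp G - 1))) :=
    mul_le_mul_of_nonneg_left (by linarith) hu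
  nlinarith

end Pool.Agent.HdGas
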