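import Pool.Agent.Lib.NT.Rows
import Pool.Agent.Lib.MF.Markov
import Pool.Agent.Lib.MF.Bas
import Pool.Agent.Lib.MF.Meas
import Pool.Agent.Lib.MF.Split
import Pool.Agent.Lib.MF.Jen

/-!
# Project NT (MP_09cbbd_mp), row OKB (helper59)
-/

set_option autoImplicit false

namespace Pool.Agent.HdGas

open MeasureTheory Filter Topology

namespace Ok

section
variable {S : Type} {C : S → S → Prop} {L : Set S}

theorem chi_cases (C : S → S → Prop) (K : S → Prop) (v : S) (ω : Om S) :
    chi C K v ω = 0 ∨ chi C K v ω = 1 := by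
  unfold chi; split_ifs
  · exact Or.inr rfl
  · exact Or.inl rfl

theorem ok_ins (hs : ∀ x y, C x y → C y x) {ω : Om S} (h : ok C L ω) {p : S} (hp : p ∈ L)
    (hc1 : chi C (Al S) p ω = 1) : ok C L (ins p ω) := by
  have hf : fr C (Al S) p ω := by
    by_contra hn
    unfold chi at hc1
    rw [if_neg hn] at hc1
    exact zero_ne_one hc1
  refine ⟨(hc_ins hs p ω).2 ⟨h.1, hf⟩, fun i => ?_⟩
  show (Fin.cons p ω.2 : Fin (ω.1 + 1) → S) i ∈ L
  refine Fin.cases ?_ (fun j => ?_) i
  · exact hp
  · exact h.2 j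

theorem ok_del : ∀ (ω : Om S), ok C L ω → ∀ i : Fin ω.1, ok C L (del ω i)
  | ⟨0, _⟩, _, i => i.elim0
  | ⟨n + 1, x⟩, h, i => by
    refine ⟨fun j k hjk => ?_, fun j => ?_⟩
    · exact h.1 (Fin.succAbove i j) (Fin.succAbove i k)
        (fun e => hjk (Fin.succAbove_right_injective e))
    · exact h.2 (Fin.succAbove i j)

theorem sym_del {F : Om S → ℝ} (hF : Sym F) (n : ℕ) (x : Fin n → S) (σ : Equiv.Perm (Fin n))
    (i : Fin n) : F (del ⟨n, x ∘ σ⟩ i) = F (del ⟨n, x⟩ (σ i)) := by
  cases n with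
  | zero => exact i.elim0
  | succ k =>
    let e : Fin k ≃ Fin k := (finSuccAboveEquiv i).trans
      ((σ.subtypeEquiv (p := fun j => j ≠ i) (q := fun j => j ≠ σ i)
        (fun j => by simp)).trans (finSuccAboveEquiv (σ i)).symm)
    have he : ∀ j, (σ i).succAbove (e j) = σ (i.succAbove j) := by
      intro j
      have : ((finSuccAboveEquiv (σ i)) (e j)).1 = σ (i.succAbove j) := by
        simp only [e, Equiv.trans_apply, Equiv.apply_symm_apply]
        rfl
      exact this
    show F ⟨k, i.removeNth (x ∘ σ)⟩ = F ⟨k, (σ i).removeNth x⟩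
    refine hF.eq_mk e fun j => ?_
    show x (σ (i.succAbove j)) = x ((σ i).succAbove (e j))
    rw [he]

theorem sym_D {F : Om S → ℝ} (hF : Sym F) (p : S) : Sym (D F p) := by
  intro n x σ
  unfold D
  rw [hF n x σ]
  have := hF.ins p n x σ
  simp only at this
  rw [this]

end

variable {S : Type} [MeasurableSpace S]

theorem meas_ins {F : Om S → ℝ} (hF : Measurable F) :
    Measurable fun q : S × Om S => F (ins q.1 q.2) := by
  refine measurable_prod_om fun n => ?_
  exact hF.comp ((measurable_mk (n + 1)).comp (measurable_cons n))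

theorem meas_D {F : Om S → ℝ} (hF : Measurable F) :
    Measurable fun q : S × Om S => D F q.1 q.2 :=
  (meas_ins hF).sub (hF.comp measurable_snd)

theorem meas_del {F : Om S → ℝ} (hF : Measurable F) (n : ℕ) (i : Fin n) :
    Measurable fun x : Fin n → S => F (del ⟨n, x⟩ i) := by
  cases n with
  | zero => exact i.elim0
  | succ k =>
    refine hF.comp ((measurable_mk k).comp ?_)
    exact measurable_pi_lambda _ fun j => measurable_pi_apply _

theorem meas_gen {m : Measure S} [SigmaFinite m] {C : S → S → Prop} {lam : ℝ} {L : Set S}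
    (hchi : Measurable fun q : S × Om S => chi C (Al S) q.1 q.2)
    {F : Om S → ℝ} (hF : Measurable F) : Measurable (gen m C lam L F) := by
  unfold gen
  refine Measurable.add ?_ ?_
  · refine measurable_om fun n => ?_
    have h : ∀ i : Fin n, Measurable fun x : Fin n → S => F (del ⟨n, x⟩ i) - F ⟨n, x⟩ :=
      fun i => (meas_del hF n i).sub (hF.comp (measurable_mk n))
    have h2 : Measurable fun x : Fin n → S => ∑ i : Fin n, (F (del ⟨n, x⟩ i) - F ⟨n, x⟩) :=
      Finset.measurable_sum _ fun i _ => h i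
    exact h2
  · refine Measurable.const_mul ?_ _
    have h := (hchi.mul (meas_D hF)).stronglyMeasurable.integral_prod_left'
      (μ := m.restrict L)
    exact h.measurable

theorem sym_gen {m : Measure S} {C : S → S → Prop} {lam : ℝ} {L : Set S}
    (hchi : ∀ p, Sym (chi C (Al S) p)) {F : Om S → ℝ} (hF : Sym F) : Sym (gen m C lam L F) := by
  intro n x σ
  unfold gen
  congr 1
  · show ∑ i : Fin n, (F (del ⟨n, x ∘ σ⟩ i) - F ⟨n, x ∘ σ⟩) =
      ∑ i : Fin n, (F (del ⟨n, x⟩ i) - F ⟨n, x⟩)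
    rw [← Equiv.sum_comp σ (fun i : Fin n => (F (del ⟨n, x⟩ i) - F ⟨n, x⟩))]
    refine Finset.sum_congr rfl fun i _ => ?_
    rw [sym_del hF, hF n x σ]
  · congr 1
    refine integral_congr_ae (Eventually.of_forall fun p => ?_)
    show chi C (Al S) p ⟨n, x ∘ σ⟩ * D F p ⟨n, x ∘ σ⟩ = chi C (Al S) p ⟨n, x⟩ * D F p ⟨n, x⟩
    rw [hchi p n x σ, sym_D hF p n x σ]

end Ok

/-- Row OKB. -/
theorem okb : OKB := by
  intro S _ m _ C L lam b K hS
  obtain ⟨hmhc, hfp, hfg, hXi1, -, -⟩ := bas S m C L lam hS.meas hS.measL hS.fin hS.lam_nonneg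
  obtain ⟨hmeas, -⟩ := meas S m C L lam hS.meas hS.measL hS.fin hS.lam_nonneg
  obtain ⟨hchi, -, -, -, hsym⟩ := hmeas (Al S) MeasurableSet.univ
  have hsymc : ∀ p, Sym (chi C (Al S) p) := fun p => (hsym p).1
  have hmok : MeasurableSet {ω : Om S | ok C L ω} := hmhc.inter (Mark.meas_all hS.measL)
  have hae : ∀ᵐ ω ∂gib m C lam L, ok C L ω := by
    unfold gib
    filter_upwards [ae_restrict_mem hmhc, ae_restrict_of_ae (Mark.ae_mem m lam hS.measL)] with
      ω h1 h2
    exact ⟨h1, h2⟩
  have hK : ∀ ω, ok C L ω → ω.1 ≤ K := fun ω h => hS.card ω h.1 h.2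
  have hins : ∀ ω, ok C L ω → ∀ p, p ∈ L → chi C (Al S) p ω = 1 → ok C L (ins p ω) :=
    fun ω h p hp hc1 => Ok.ok_ins hS.symm h hp hc1
  refine ⟨hmok, hae, hK, hins, fun ω h i => Ok.ok_del ω h i, fun F hF => ?_, ?_, fun p => ?_⟩
  · obtain ⟨B, hB⟩ := hF.bdd
    refine ⟨?_, ⟨Ok.meas_gen hchi hF.meas, Ok.sym_gen hsymc hF.sym, ?_⟩, Ok.meas_D hF.meas,
      fun p => Ok.sym_D hF.sym p⟩
    · refine Integrable.mono' (integrable_const B) hF.meas.aestronglyMeasurable ?_
      filter_upwards [hae] with ω h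
      exact hB ω h
    · refine ⟨K * (2 * B) + lam * (2 * B * (m L).toReal), fun ω h => ?_⟩
      have hB0 : 0 ≤ B := (abs_nonneg _).trans (hB ω h)
      unfold gen
      refine (abs_add_le _ _).trans (add_le_add ?_ ?_)
      · calc |∑ i, (F (del ω i) - F ω)| ≤ ∑ i : Fin ω.1, |F (del ω i) - F ω| :=
              Finset.abs_sum_le_sum_abs _ _
          _ ≤ ∑ _i : Fin ω.1, 2 * B := by
              refine Finset.sum_le_sum fun i _ => ?_
              have h1 := abs_le.1 (hB _ (Ok.ok_del ω h i))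
              have h2 := abs_le.1 (hB ω h)
              exact abs_le.2 ⟨by linarith [h1.1, h2.2], by linarith [h1.2, h2.1]⟩
          _ = ω.1 * (2 * B) := by simp
          _ ≤ K * (2 * B) := by
              refine mul_le_mul_of_nonneg_right ?_ (by linarith)
              exact_mod_cast hK ω h
      · rw [abs_mul, abs_of_nonneg hS.lam_nonneg]
        refine mul_le_mul_of_nonneg_left ?_ hS.lam_nonneg
        have := norm_setIntegral_le_of_norm_le_const (μ := m) (s := L) (C := 2 * B)
          (f := fun p => chi C (Al S) p ω * D F p ω) (lt_top_iff_ne_top.2 hS.fin)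
          (fun p hp => by
            rcases Ok.chi_cases C (Al S) p ω with h0 | h1
            · rw [h0, zero_mul, norm_zero]; linarith
            · rw [h1, one_mul, Real.norm_eq_abs]
              have h2 := abs_le.1 (hB _ (hins ω h p hp h1))
              have h3 := abs_le.1 (hB ω h)
              unfold D
              exact abs_le.2 ⟨by linarith [h2.1, h3.2], by linarith [h2.2, h3.1]⟩)
        exact this
  · refine ⟨measurable_num, fun n x σ => rfl, ⟨K, fun ω h => ?_⟩⟩
    rw [abs_of_nonneg (Nat.cast_nonneg _)]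
    exact_mod_cast hK ω h
  · refine ⟨hchi.comp measurable_prodMk_left, hsymc p, ⟨1, fun ω _ => ?_⟩⟩
    rw [abs_of_nonneg (chi_nonneg _ _ _ _)]
    exact chi_le_one _ _ _ _

end Pool.Agent.HdGas
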