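import Pool.Agent.Lib.NT.Rows
import Pool.Agent.Lib.MF.Bas

/-!
# The Poisson equation of the birth and death dynamics
-/

set_option autoImplicit false

namespace Pool.Agent.HdGas

open MeasureTheory Filter Topology

namespace Poi

variable {S : Type} [MeasurableSpace S] {m : Measure S} {C : S → S → Prop} {L : Set S}
  {lam b : ℝ} {K : ℕ}

omit [MeasurableSpace S] in
theorem chi_cases (C : S → S → Prop) (p : S) (ω : Om S) :
    chi C (Al S) p ω = 0 ∨ chi C (Al S) p ω = 1 := by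
  unfold chi
  split_ifs
  · exact Or.inr rfl
  · exact Or.inl rfl

theorem meas_chi (hC : MeasurableSet {p : S × S | C p.1 p.2}) (ω : Om S) :
    Measurable fun p => chi C (Al S) p ω := by
  have h1 : MeasurableSet {p : S | fr C (Al S) p ω} := by
    have h2 : {p : S | fr C (Al S) p ω} = ⋂ i : Fin ω.1, {p : S | C p (ω.2 i)}ᶜ := by
      ext p
      simp [fr, Al]
    rw [h2]
    refine MeasurableSet.iInter fun i => ?_
    exact (measurable_prodMk_right hC).compl
  unfold chi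
  exact Measurable.ite h1 measurable_const measurable_const

/-- What is used about the system. -/
structure Ctx (m : Measure S) (C : S → S → Prop) (L : Set S) (lam : ℝ) (K : ℕ) : Prop where
  measC : MeasurableSet {p : S × S | C p.1 p.2}
  measL : MeasurableSet L
  fin : m L ≠ ⊤
  lam_nonneg : 0 ≤ lam
  okm : MeasurableSet {ω : Om S | ok C L ω}
  card : ∀ ω, ok C L ω → ω.1 ≤ K
  ins : ∀ ω, ok C L ω → ∀ p, p ∈ L → chi C (Al S) p ω = 1 → ok C L (ins p ω)
  del : ∀ ω, ok C L ω → ∀ i, ok C L (del ω i)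
  dmeas : ∀ F : Om S → ℝ, Fn C L F → Measurable fun q : S × Om S => D F q.1 q.2
  genF : ∀ F : Om S → ℝ, Fn C L F → Fn C L (gen m C lam L F)

theorem intg (h : Ctx m C L lam K) {F : Om S → ℝ} (hF : Fn C L F) {ω : Om S} (hω : ok C L ω) :
    IntegrableOn (fun p => chi C (Al S) p ω * D F p ω) L m := by
  obtain ⟨B, hB⟩ := hF.bdd
  have hmeas : Measurable fun p => chi C (Al S) p ω * D F p ω :=
    (meas_chi h.measC ω).mul ((h.dmeas F hF).comp measurable_prodMk_right)
  refine Measure.integrableOn_of_bounded (M := 2 * B) h.fin hmeas.aestronglyMeasurable ?_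
  rw [ae_restrict_iff' h.measL]
  refine Eventually.of_forall fun p hp => ?_
  rcases chi_cases C p ω with h0 | h1
  · have : 0 ≤ B := le_trans (abs_nonneg _) (hB ω hω)
    simp [h0]
    linarith
  · rw [h1, one_mul, Real.norm_eq_abs]
    have h2 := hB _ (h.ins ω hω p hp h1)
    have h3 := hB _ hω
    unfold D
    calc |F (HdGas.ins p ω) - F ω| ≤ |F (HdGas.ins p ω)| + |F ω| := abs_sub _ _
      _ ≤ 2 * B := by linarith

theorem Fn.neg {F : Om S → ℝ} (hF : Fn C L F) : Fn C L fun ω => -F ω := by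
  refine ⟨hF.meas.neg, fun n x σ => ?_, ?_⟩
  · show -F _ = -F _
    rw [hF.sym n x σ]
  · obtain ⟨B, hB⟩ := hF.bdd
    exact ⟨B, fun ω hω => by rw [abs_neg]; exact hB ω hω⟩

theorem Fn.sub {F G : Om S → ℝ} (hF : Fn C L F) (hG : Fn C L G) :
    Fn C L fun ω => F ω - G ω := by
  refine ⟨hF.meas.sub hG.meas, fun n x σ => ?_, ?_⟩
  · show F _ - G _ = F _ - G _
    rw [hF.sym n x σ, hG.sym n x σ]
  · obtain ⟨B, hB⟩ := hF.bdd
    obtain ⟨B', hB'⟩ := hG.bdd
    exact ⟨B + B', fun ω hω => le_trans (abs_sub _ _) (add_le_add (hB ω hω) (hB' ω hω))⟩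

theorem Fn.add {F G : Om S → ℝ} (hF : Fn C L F) (hG : Fn C L G) :
    Fn C L fun ω => F ω + G ω := by
  refine ⟨hF.meas.add hG.meas, fun n x σ => ?_, ?_⟩
  · show F _ + G _ = F _ + G _
    rw [hF.sym n x σ, hG.sym n x σ]
  · obtain ⟨B, hB⟩ := hF.bdd
    obtain ⟨B', hB'⟩ := hG.bdd
    exact ⟨B + B', fun ω hω => le_trans (abs_add_le _ _) (add_le_add (hB ω hω) (hB' ω hω))⟩

theorem Fn.smul {F : Om S → ℝ} (hF : Fn C L F) (c : ℝ) : Fn C L fun ω => c * F ω := by
  refine ⟨hF.meas.const_mul c, fun n x σ => ?_, ?_⟩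
  · show c * F _ = c * F _
    rw [hF.sym n x σ]
  · obtain ⟨B, hB⟩ := hF.bdd
    refine ⟨|c| * B, fun ω hω => ?_⟩
    rw [abs_mul]
    exact mul_le_mul_of_nonneg_left (hB ω hω) (abs_nonneg c)

theorem Fn.const (c : ℝ) : Fn C L fun _ => c :=
  ⟨measurable_const, fun _ _ _ => rfl, ⟨|c|, fun _ _ => le_rfl⟩⟩

omit [MeasurableSpace S] in
theorem ok_sym (n : ℕ) (x : Fin n → S) (σ : Equiv.Perm (Fin n)) :
    ok C L (⟨n, x ∘ σ⟩ : Om S) ↔ ok C L ⟨n, x⟩ := by
  constructor
  · rintro ⟨h1, h2⟩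
    refine ⟨fun i j hij => ?_, fun i => ?_⟩
    · have := h1 (σ.symm i) (σ.symm j) (fun h => hij (σ.symm.injective h))
      simpa using this
    · have := h2 (σ.symm i)
      simpa using this
  · rintro ⟨h1, h2⟩
    exact ⟨fun i j hij => h1 (σ i) (σ j) (fun h => hij (σ.injective h)), fun i => h2 (σ i)⟩

/-- Cut off outside the allowed configurations. -/
noncomputable def cut (C : S → S → Prop) (L : Set S) (F : Om S → ℝ) : Om S → ℝ :=
  Set.indicator {ω | ok C L ω} F

omit [MeasurableSpace S] in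
theorem cut_ok {F : Om S → ℝ} {ω : Om S} (hω : ok C L ω) : cut C L F ω = F ω :=
  Set.indicator_of_mem (s := {ω | ok C L ω}) hω F

omit [MeasurableSpace S] in
theorem cut_not {F : Om S → ℝ} {ω : Om S} (hω : ¬ ok C L ω) : cut C L F ω = 0 :=
  Set.indicator_of_notMem (s := {ω | ok C L ω}) hω F

theorem Fn.cut (h : Ctx m C L lam K) {F : Om S → ℝ} (hF : Fn C L F) : Fn C L (cut C L F) := by
  refine ⟨hF.meas.indicator h.okm, fun n x σ => ?_, ?_⟩
  · by_cases hx : ok C L (⟨n, x⟩ : Om S)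
    · rw [cut_ok hx, cut_ok ((ok_sym n x σ).2 hx), hF.sym n x σ]
    · rw [cut_not hx, cut_not fun h' => hx ((ok_sym n x σ).1 h')]
  · obtain ⟨B, hB⟩ := hF.bdd
    exact ⟨B, fun ω hω => by rw [cut_ok hω]; exact hB ω hω⟩

/-- The generator only sees the allowed configurations. -/
theorem gen_congr (h : Ctx m C L lam K) {F G : Om S → ℝ} (hFG : ∀ ω, ok C L ω → F ω = G ω)
    {ω : Om S} (hω : ok C L ω) : gen m C lam L F ω = gen m C lam L G ω := by
  unfold gen
  congr 1
  · refine Finset.sum_congr rfl fun i _ => ?_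
    rw [hFG _ hω, hFG _ (h.del ω hω i)]
  · congr 1
    refine setIntegral_congr_fun h.measL fun p hp => ?_
    show chi C (Al S) p ω * D F p ω = chi C (Al S) p ω * D G p ω
    rcases chi_cases C p ω with h0 | h1
    · rw [h0]; ring
    · unfold D
      rw [hFG _ hω, hFG _ (h.ins ω hω p hp h1)]

theorem gen_add (h : Ctx m C L lam K) {F G : Om S → ℝ} (hF : Fn C L F) (hG : Fn C L G)
    {ω : Om S} (hω : ok C L ω) :
    gen m C lam L (fun ω => F ω + G ω) ω = gen m C lam L F ω + gen m C lam L G ω := by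
  unfold gen
  have h1 : ∫ p in L, chi C (Al S) p ω * D (fun ω => F ω + G ω) p ω ∂m =
      ∫ p in L, chi C (Al S) p ω * D F p ω ∂m + ∫ p in L, chi C (Al S) p ω * D G p ω ∂m := by
    rw [← integral_add (intg h hF hω) (intg h hG hω)]
    refine integral_congr_ae (Eventually.of_forall fun p => ?_)
    show chi C (Al S) p ω * D (fun ω => F ω + G ω) p ω =
      chi C (Al S) p ω * D F p ω + chi C (Al S) p ω * D G p ω
    unfold D
    ring
  have h2 : ∑ i, ((F (HdGas.del ω i) + G (HdGas.del ω i)) - (F ω + G ω)) =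
      ∑ i, (F (HdGas.del ω i) - F ω) + ∑ i, (G (HdGas.del ω i) - G ω) := by
    rw [← Finset.sum_add_distrib]
    refine Finset.sum_congr rfl fun i _ => ?_
    ring
  rw [h1, h2]
  ring

theorem gen_smul {F : Om S → ℝ} (c : ℝ) (ω : Om S) :
    gen m C lam L (fun ω => c * F ω) ω = c * gen m C lam L F ω := by
  unfold gen
  have h1 : ∫ p in L, chi C (Al S) p ω * D (fun ω => c * F ω) p ω ∂m =
      c * ∫ p in L, chi C (Al S) p ω * D F p ω ∂m := by
    rw [← integral_const_mul]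
    refine integral_congr_ae (Eventually.of_forall fun p => ?_)
    show chi C (Al S) p ω * D (fun ω => c * F ω) p ω = c * (chi C (Al S) p ω * D F p ω)
    unfold D
    ring
  have h2 : ∑ i, (c * F (HdGas.del ω i) - c * F ω) = c * ∑ i, (F (HdGas.del ω i) - F ω) := by
    rw [Finset.mul_sum]
    refine Finset.sum_congr rfl fun i _ => ?_
    ring
  rw [h1, h2]
  ring

theorem gen_const (c : ℝ) (ω : Om S) : gen m C lam L (fun _ => c) ω = 0 := by
  unfold gen D
  simp

/-- The main inequality for the generator. -/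
theorem gen_lower (h : Ctx m C L lam K) {F : Om S → ℝ} (hF : Fn C L F) {a : ℝ}
    (ha : ∀ ω, ok C L ω → a ≤ F ω) {ω : Om S} (hω : ok C L ω) :
    ∑ i, (F (HdGas.del ω i) - a) - (K + lam * (m L).toReal) * (F ω - a) ≤
      gen m C lam L F ω := by
  unfold gen
  have h0 : 0 ≤ F ω - a := sub_nonneg.2 (ha ω hω)
  have h1 : -((m L).toReal * (F ω - a)) ≤ ∫ p in L, chi C (Al S) p ω * D F p ω ∂m := by
    have h2 : ∫ _p in L, -(F ω - a) ∂m = -((m L).toReal * (F ω - a)) := by
      rw [setIntegral_const, smul_eq_mul, Measure.real]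
      ring
    rw [← h2]
    refine setIntegral_mono_on (integrableOn_const h.fin) (intg h hF hω) h.measL fun p hp => ?_
    rcases chi_cases C p ω with h3 | h3
    · rw [h3, zero_mul]
      linarith
    · rw [h3, one_mul]
      have := ha _ (h.ins ω hω p hp h3)
      unfold D
      linarith
  have h4 : ∑ i, (F (HdGas.del ω i) - F ω) =
      ∑ i, (F (HdGas.del ω i) - a) - ω.1 * (F ω - a) := by
    have : ∑ i : Fin ω.1, (F ω - a) = ω.1 * (F ω - a) := by
      rw [Finset.sum_const, Finset.card_univ, Fintype.card_fin, nsmul_eq_mul]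
    rw [← this, ← Finset.sum_sub_distrib]
    refine Finset.sum_congr rfl fun i _ => ?_
    ring
  rw [h4]
  have h5 : (ω.1 : ℝ) ≤ K := by exact_mod_cast h.card ω hω
  have h6 : (ω.1 : ℝ) * (F ω - a) ≤ K * (F ω - a) := mul_le_mul_of_nonneg_right h5 h0
  have h7 := mul_le_mul_of_nonneg_left h1 h.lam_nonneg
  nlinarith [h7, h6]

theorem gen_abs (h : Ctx m C L lam K) {F : Om S → ℝ} (hF : Fn C L F) {δ : ℝ}
    (ha : ∀ ω, ok C L ω → |F ω| ≤ δ) {ω : Om S} (hω : ok C L ω) :
    |gen m C lam L F ω| ≤ 2 * (K + lam * (m L).toReal) * δ := by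
  have hA : 0 ≤ (K : ℝ) + lam * (m L).toReal :=
    add_nonneg (Nat.cast_nonneg _) (mul_nonneg h.lam_nonneg ENNReal.toReal_nonneg)
  have key : ∀ G : Om S → ℝ, Fn C L G → (∀ ω, ok C L ω → |G ω| ≤ δ) →
      -(2 * (K + lam * (m L).toReal) * δ) ≤ gen m C lam L G ω := by
    intro G hG hGa
    have h1 := gen_lower h hG (a := -δ) (fun ω hω => (abs_le.1 (hGa ω hω)).1) hω
    have h2 : 0 ≤ ∑ i, (G (HdGas.del ω i) - -δ) :=
      Finset.sum_nonneg fun i _ => by
        have := (abs_le.1 (hGa _ (h.del ω hω i))).1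
        linarith
    have h3 := (abs_le.1 (hGa ω hω)).2
    nlinarith [mul_le_mul_of_nonneg_left (show G ω - -δ ≤ 2 * δ by linarith) hA]
  rw [abs_le]
  refine ⟨key F hF ha, ?_⟩
  have h4 := key (fun ω => -1 * F ω) (Fn.smul hF (-1)) (fun ω hω => by
    rw [abs_mul]; simpa using ha ω hω)
  rw [gen_smul] at h4
  linarith

/-- One step of the discrete dynamics. -/
noncomputable def tr (m : Measure S) (C : S → S → Prop) (L : Set S) (lam M : ℝ) (F : Om S → ℝ) :
    Om S → ℝ := cut C L fun ω => F ω + M⁻¹ * gen m C lam L F ω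

theorem tr_Fn (h : Ctx m C L lam K) {M : ℝ} {F : Om S → ℝ} (hF : Fn C L F) :
    Fn C L (tr m C L lam M F) := Fn.cut h (Fn.add hF (Fn.smul (h.genF F hF) _))

theorem iter_Fn (h : Ctx m C L lam K) {M : ℝ} {F : Om S → ℝ} (hF : Fn C L F) (n : ℕ) :
    Fn C L ((tr m C L lam M)^[n] F) := by
  induction n with
  | zero => exact hF
  | succ n ih =>
    rw [Function.iterate_succ_apply']
    exact tr_Fn h ih

theorem tr_one (h : Ctx m C L lam K) {M : ℝ} (hM : 2 * (K + lam * (m L).toReal) + 2 ≤ M)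
    {F : Om S → ℝ} (hF : Fn C L F) {a : ℝ} (ha : ∀ ω, ok C L ω → a ≤ F ω) {ω : Om S}
    (hω : ok C L ω) :
    (F ω - a) / 2 + M⁻¹ * ∑ i, (F (HdGas.del ω i) - a) ≤ tr m C L lam M F ω - a := by
  have hA : 0 ≤ (K : ℝ) + lam * (m L).toReal :=
    add_nonneg (Nat.cast_nonneg _) (mul_nonneg h.lam_nonneg ENNReal.toReal_nonneg)
  have hM0 : 0 < M := by linarith
  have h0 : 0 ≤ F ω - a := sub_nonneg.2 (ha ω hω)
  have h1 := mul_le_mul_of_nonneg_left (gen_lower h hF ha hω) (inv_pos.2 hM0).le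
  have h2 : M⁻¹ * (K + lam * (m L).toReal) ≤ 1 / 2 := by
    rw [inv_mul_le_iff₀ hM0]
    linarith
  have h3 := mul_le_mul_of_nonneg_right h2 h0
  unfold tr
  rw [cut_ok hω]
  nlinarith

theorem tr_lower (h : Ctx m C L lam K) {M : ℝ} (hM : 2 * (K + lam * (m L).toReal) + 2 ≤ M)
    {F : Om S → ℝ} (hF : Fn C L F) {a : ℝ} (ha : ∀ ω, ok C L ω → a ≤ F ω) {ω : Om S}
    (hω : ok C L ω) : a ≤ tr m C L lam M F ω := by
  have hA : 0 ≤ (K : ℝ) + lam * (m L).toReal :=
    add_nonneg (Nat.cast_nonneg _) (mul_nonneg h.lam_nonneg ENNReal.toReal_nonneg)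
  have hM0 : 0 < M := by linarith
  have h1 := tr_one h hM hF ha hω
  have h2 : 0 ≤ M⁻¹ * ∑ i, (F (HdGas.del ω i) - a) :=
    mul_nonneg (inv_pos.2 hM0).le
      (Finset.sum_nonneg fun i _ => sub_nonneg.2 (ha _ (h.del ω hω i)))
  have h0 : 0 ≤ F ω - a := sub_nonneg.2 (ha ω hω)
  linarith

theorem tr_neg (M : ℝ) (F : Om S → ℝ) :
    tr m C L lam M (fun ω => -F ω) = fun ω => -tr m C L lam M F ω := by
  funext ω
  by_cases hω : ok C L ω
  · unfold tr
    rw [cut_ok hω, cut_ok hω]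
    have h1 : gen m C lam L (fun ω => -F ω) ω = -gen m C lam L F ω := by
      have := gen_smul (m := m) (C := C) (L := L) (lam := lam) (F := F) (-1) ω
      simpa using this
    rw [h1]
    ring
  · unfold tr
    rw [cut_not hω, cut_not hω]
    simp

theorem iter_neg (M : ℝ) (F : Om S → ℝ) (n : ℕ) :
    (tr m C L lam M)^[n] (fun ω => -F ω) = fun ω => -(tr m C L lam M)^[n] F ω := by
  induction n with
  | zero => rfl
  | succ n ih => rw [Function.iterate_succ_apply', ih, tr_neg, Function.iterate_succ_apply']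

theorem iter_lower (h : Ctx m C L lam K) {M : ℝ} (hM : 2 * (K + lam * (m L).toReal) + 2 ≤ M)
    {F : Om S → ℝ} (hF : Fn C L F) {a : ℝ} (ha : ∀ ω, ok C L ω → a ≤ F ω) (n : ℕ) :
    ∀ ω, ok C L ω → a ≤ (tr m C L lam M)^[n] F ω := by
  induction n with
  | zero => exact ha
  | succ n ih =>
    intro ω hω
    rw [Function.iterate_succ_apply']
    exact tr_lower h hM (iter_Fn h hF n) ih hω

/-- The empty configuration. -/
def em0 (S : Type) : Om S := ⟨0, Fin.elim0⟩

omit [MeasurableSpace S] in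
theorem eq_em0 {ω : Om S} (hω : ω.1 = 0) : ω = em0 S := by
  obtain ⟨n, x⟩ := ω
  subst hω
  unfold em0
  congr
  funext i
  exact i.elim0

omit [MeasurableSpace S] in
theorem del_card (ω : Om S) (i : Fin ω.1) : (HdGas.del ω i).1 + 1 = ω.1 := by
  obtain ⟨n, x⟩ := ω
  cases n with
  | zero => exact i.elim0
  | succ n => rfl

/-- Doeblin condition: all configurations reach the empty one. -/
theorem iter_reach (h : Ctx m C L lam K) {M : ℝ} (hM : 2 * (K + lam * (m L).toReal) + 2 ≤ M)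
    {F : Om S → ℝ} (hF : Fn C L F) {a : ℝ} (ha : ∀ ω, ok C L ω → a ≤ F ω) (k : ℕ) :
    ∀ ω, ok C L ω → ω.1 ≤ k →
      M⁻¹ ^ k * (F (em0 S) - a) ≤ (tr m C L lam M)^[k] F ω - a := by
  have hA : 0 ≤ (K : ℝ) + lam * (m L).toReal :=
    add_nonneg (Nat.cast_nonneg _) (mul_nonneg h.lam_nonneg ENNReal.toReal_nonneg)
  have hM0 : 0 < M := by linarith
  have hM2 : M⁻¹ ≤ 1 / 2 := by
    rw [inv_le_comm₀ hM0 (by norm_num)]
    linarith
  induction k with
  | zero =>
    intro ω hω hk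
    have : ω = em0 S := eq_em0 (Nat.le_zero.1 hk)
    rw [this]
    simp
  | succ k ih =>
    intro ω hω hk
    rw [Function.iterate_succ_apply']
    have hG := iter_Fn (M := M) h hF k
    have hGa := iter_lower h hM hF ha k
    have h1 := tr_one h hM hG hGa hω
    have h2 : 0 ≤ (tr m C L lam M)^[k] F ω - a := sub_nonneg.2 (hGa ω hω)
    by_cases h0 : ω.1 = 0
    · have h3 := ih ω hω (by omega)
      have h4 : 0 ≤ M⁻¹ * ∑ i, ((tr m C L lam M)^[k] F (HdGas.del ω i) - a) :=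
        mul_nonneg (inv_pos.2 hM0).le
          (Finset.sum_nonneg fun i _ => sub_nonneg.2 (hGa _ (h.del ω hω i)))
      have h5 : M⁻¹ * ((tr m C L lam M)^[k] F ω - a) ≤
          1 / 2 * ((tr m C L lam M)^[k] F ω - a) := mul_le_mul_of_nonneg_right hM2 h2
      calc M⁻¹ ^ (k + 1) * (F (em0 S) - a) = M⁻¹ * (M⁻¹ ^ k * (F (em0 S) - a)) := by ring
        _ ≤ M⁻¹ * ((tr m C L lam M)^[k] F ω - a) :=
          mul_le_mul_of_nonneg_left h3 (inv_pos.2 hM0).le
        _ ≤ _ := by linarith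
    · have i0 : Fin ω.1 := ⟨0, Nat.pos_of_ne_zero h0⟩
      have h3 := ih (HdGas.del ω i0) (h.del ω hω i0) (by
        have := del_card ω i0
        omega)
      have h4 : (tr m C L lam M)^[k] F (HdGas.del ω i0) - a ≤
          ∑ i, ((tr m C L lam M)^[k] F (HdGas.del ω i) - a) :=
        Finset.single_le_sum (f := fun i => (tr m C L lam M)^[k] F (HdGas.del ω i) - a)
          (fun i _ => sub_nonneg.2 (hGa _ (h.del ω hω i))) (Finset.mem_univ i0)
      calc M⁻¹ ^ (k + 1) * (F (em0 S) - a) = M⁻¹ * (M⁻¹ ^ k * (F (em0 S) - a)) := by ring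
        _ ≤ M⁻¹ * ((tr m C L lam M)^[k] F (HdGas.del ω i0) - a) :=
          mul_le_mul_of_nonneg_left h3 (inv_pos.2 hM0).le
        _ ≤ M⁻¹ * ∑ i, ((tr m C L lam M)^[k] F (HdGas.del ω i) - a) :=
          mul_le_mul_of_nonneg_left h4 (inv_pos.2 hM0).le
        _ ≤ _ := by linarith

omit [MeasurableSpace S] in
theorem ok_em0 : ok C L (em0 S) := ⟨fun i => i.elim0, fun i => i.elim0⟩

/-- The oscillation is contracted. -/
theorem iter_osc (h : Ctx m C L lam K) {M : ℝ} (hM : 2 * (K + lam * (m L).toReal) + 2 ≤ M)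
    {F : Om S → ℝ} (hF : Fn C L F) {a B : ℝ} (ha : ∀ ω, ok C L ω → a ≤ F ω ∧ F ω ≤ B) (j : ℕ) :
    ∃ a' B' : ℝ, (∀ ω, ok C L ω → a' ≤ (tr m C L lam M)^[(K + 1) * j] F ω ∧
      (tr m C L lam M)^[(K + 1) * j] F ω ≤ B') ∧
      B' - a' ≤ (1 - M⁻¹ ^ (K + 1)) ^ j * (B - a) := by
  have hA : 0 ≤ (K : ℝ) + lam * (m L).toReal :=
    add_nonneg (Nat.cast_nonneg _) (mul_nonneg h.lam_nonneg ENNReal.toReal_nonneg)
  have hM0 : 0 < M := by linarith
  have hM1 : M⁻¹ ≤ 1 := inv_le_one_of_one_le₀ (by linarith)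
  have hp1 : M⁻¹ ^ (K + 1) ≤ 1 := pow_le_one₀ (inv_pos.2 hM0).le hM1
  induction j with
  | zero => exact ⟨a, B, ha, by simp⟩
  | succ j ih =>
    obtain ⟨a', B', h1, h2⟩ := ih
    set G := (tr m C L lam M)^[(K + 1) * j] F with hGd
    have hG : Fn C L G := iter_Fn h hF _
    have e : (tr m C L lam M)^[(K + 1) * (j + 1)] F = (tr m C L lam M)^[K + 1] G := by
      rw [hGd, ← Function.iterate_add_apply]
      congr 2
      ring
    refine ⟨a' + M⁻¹ ^ (K + 1) * (G (em0 S) - a'), B' - M⁻¹ ^ (K + 1) * (B' - G (em0 S)),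
      fun ω hω => ?_, ?_⟩
    · rw [e]
      have hc : ω.1 ≤ K + 1 := le_trans (h.card ω hω) (Nat.le_succ _)
      have h3 := iter_reach h hM hG (fun ω hω => (h1 ω hω).1) (K + 1) ω hω hc
      have h4 := iter_reach h hM (Fn.neg hG) (a := -B')
        (fun ω hω => neg_le_neg (h1 ω hω).2) (K + 1) ω hω hc
      rw [iter_neg] at h4
      constructor
      · linarith
      · have h5 : -G (em0 S) - -B' = B' - G (em0 S) := by ring
        rw [h5] at h4
        linarith
    · have h6 : B' - M⁻¹ ^ (K + 1) * (B' - G (em0 S)) -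
          (a' + M⁻¹ ^ (K + 1) * (G (em0 S) - a')) = (1 - M⁻¹ ^ (K + 1)) * (B' - a') := by ring
      rw [h6, pow_succ (1 - M⁻¹ ^ (K + 1)) j, mul_comm _ (1 - M⁻¹ ^ (K + 1)), mul_assoc]
      exact mul_le_mul_of_nonneg_left h2 (by linarith)

/-- Expectations of functions bounded below. -/
theorem ex_lower (hae : ∀ᵐ ω ∂gib m C lam L, ok C L ω)
    (hint : ∀ F : Om S → ℝ, Fn C L F → Integrable F (gib m C lam L))
    (hX : 1 ≤ Xi m C lam L) {F : Om S → ℝ} (hF : Fn C L F) {a : ℝ}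
    (ha : ∀ ω, ok C L ω → a ≤ F ω) : a ≤ ex m C lam L F := by
  unfold ex
  rw [le_div_iff₀ (by linarith)]
  have h1 : ∫ _ω, a ∂gib m C lam L = a * Xi m C lam L := by
    rw [integral_const, smul_eq_mul, mul_comm]
    rfl
  rw [← h1]
  refine integral_mono_ae (hint _ (Fn.const a)) (hint F hF) ?_
  filter_upwards [hae] with ω hω using ha ω hω

theorem ex_neg' (F : Om S → ℝ) : ex m C lam L (fun ω => -F ω) = -ex m C lam L F := by
  unfold ex
  rw [integral_neg, neg_div]

theorem ex_tr (hae : ∀ᵐ ω ∂gib m C lam L, ok C L ω)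
    (hint : ∀ F : Om S → ℝ, Fn C L F → Integrable F (gib m C lam L))
    (h : Ctx m C L lam K) (hD : ∀ F : Om S → ℝ, Fn C L F → ex m C lam L (gen m C lam L F) = 0)
    {M : ℝ} {F : Om S → ℝ} (hF : Fn C L F) :
    ex m C lam L (tr m C L lam M F) = ex m C lam L F := by
  have h1 : ∫ ω, tr m C L lam M F ω ∂gib m C lam L =
      ∫ ω, F ω ∂gib m C lam L + M⁻¹ * ∫ ω, gen m C lam L F ω ∂gib m C lam L := by
    rw [← integral_const_mul, ← integral_add (hint F hF) ((hint _ (h.genF F hF)).const_mul _)]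
    refine integral_congr_ae ?_
    filter_upwards [hae] with ω hω
    unfold tr
    rw [cut_ok hω]
  have h2 := hD F hF
  unfold ex at h2 ⊢
  rw [h1, add_div, mul_div_assoc, h2]
  ring

theorem ex_iter (hae : ∀ᵐ ω ∂gib m C lam L, ok C L ω)
    (hint : ∀ F : Om S → ℝ, Fn C L F → Integrable F (gib m C lam L))
    (h : Ctx m C L lam K) (hD : ∀ F : Om S → ℝ, Fn C L F → ex m C lam L (gen m C lam L F) = 0)
    {M : ℝ} {F : Om S → ℝ} (hF : Fn C L F) (n : ℕ) :
    ex m C lam L ((tr m C L lam M)^[n] F) = ex m C lam L F := by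
  induction n with
  | zero => rfl
  | succ n ih => rw [Function.iterate_succ_apply', ex_tr hae hint h hD (iter_Fn h hF n), ih]

/-- Summability of `q ^ (n / k)`. -/
theorem summ_div {q : ℝ} (h0 : 0 ≤ q) (h1 : q < 1) {k : ℕ} (hk : 0 < k) :
    Summable fun n : ℕ => q ^ (n / k) := by
  have hN : ∀ N : ℕ, ∑ i ∈ Finset.range (k * N), q ^ (i / k) ≤ k * (1 - q)⁻¹ := by
    intro N
    have e : ∑ i ∈ Finset.range (k * N), q ^ (i / k) = k * ∑ j ∈ Finset.range N, q ^ j := by
      induction N with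
      | zero => simp
      | succ N ih =>
        rw [Nat.mul_succ, Finset.sum_range_add, ih, Finset.sum_range_succ, mul_add]
        congr 1
        rw [Finset.sum_congr rfl (g := fun _ => q ^ N)]
        · simp
        · intro i hi
          rw [Nat.mul_add_div hk, Nat.div_eq_of_lt (Finset.mem_range.1 hi), Nat.add_zero]
    rw [e]
    refine mul_le_mul_of_nonneg_left ?_ (Nat.cast_nonneg _)
    rw [← tsum_geometric_of_lt_one h0 h1]
    exact (summable_geometric_of_lt_one h0 h1).sum_le_tsum _ fun i _ => pow_nonneg h0 i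
  refine summable_of_sum_range_le (c := k * (1 - q)⁻¹) (fun n => pow_nonneg h0 _) fun n => ?_
  refine le_trans ?_ (hN n)
  refine Finset.sum_le_sum_of_subset_of_nonneg ?_ fun i _ _ => pow_nonneg h0 _
  exact Finset.range_subset_range.2 (Nat.le_mul_of_pos_left n hk)

/-- Uniform convergence to the expectation. -/
theorem iter_conv (h : Ctx m C L lam K) (hae : ∀ᵐ ω ∂gib m C lam L, ok C L ω)
    (hint : ∀ F : Om S → ℝ, Fn C L F → Integrable F (gib m C lam L))
    (hX : 1 ≤ Xi m C lam L)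
    (hD : ∀ F : Om S → ℝ, Fn C L F → ex m C lam L (gen m C lam L F) = 0)
    {M : ℝ} (hM : 2 * (K + lam * (m L).toReal) + 2 ≤ M) {F : Om S → ℝ} (hF : Fn C L F) :
    ∃ u : ℕ → ℝ, Summable u ∧ ∀ n ω, ok C L ω →
      |(tr m C L lam M)^[n] F ω - ex m C lam L F| ≤ u n := by
  have hA : 0 ≤ (K : ℝ) + lam * (m L).toReal :=
    add_nonneg (Nat.cast_nonneg _) (mul_nonneg h.lam_nonneg ENNReal.toReal_nonneg)
  have hM0 : 0 < M := by linarith
  have hM1 : M⁻¹ ≤ 1 := inv_le_one_of_one_le₀ (by linarith)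
  have hp1 : M⁻¹ ^ (K + 1) ≤ 1 := pow_le_one₀ (inv_pos.2 hM0).le hM1
  have hp0 : 0 < M⁻¹ ^ (K + 1) := pow_pos (inv_pos.2 hM0) _
  obtain ⟨B, hB⟩ := hF.bdd
  have hB' : ∀ ω, ok C L ω → -B ≤ F ω ∧ F ω ≤ B := fun ω hω => abs_le.1 (hB ω hω)
  have hB0 : 0 ≤ B := le_trans (abs_nonneg _) (hB (em0 S) ok_em0)
  refine ⟨fun n => (1 - M⁻¹ ^ (K + 1)) ^ (n / (K + 1)) * (B - -B), ?_, fun n ω hω => ?_⟩
  · exact (summ_div (by linarith) (by linarith) (Nat.succ_pos K)).mul_right _
  · obtain ⟨a', B', h1, h2⟩ := iter_osc h hM hF hB' (n / (K + 1))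
    set G := (tr m C L lam M)^[(K + 1) * (n / (K + 1))] F with hGd
    have hG : Fn C L G := iter_Fn h hF _
    have e : (tr m C L lam M)^[n] F = (tr m C L lam M)^[n % (K + 1)] G := by
      rw [hGd, ← Function.iterate_add_apply, Nat.mod_add_div]
    have h3 := iter_lower h hM hG (fun ω hω => (h1 ω hω).1) (n % (K + 1)) ω hω
    have h4 := iter_lower h hM (Fn.neg hG) (a := -B')
      (fun ω hω => neg_le_neg (h1 ω hω).2) (n % (K + 1)) ω hω
    rw [iter_neg] at h4
    have h5 := ex_lower hae hint hX hG fun ω hω => (h1 ω hω).1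
    have h6 := ex_lower hae hint hX (Fn.neg hG) (a := -B') fun ω hω => neg_le_neg (h1 ω hω).2
    rw [ex_neg'] at h6
    have h7 : ex m C lam L G = ex m C lam L F := ex_iter hae hint h hD hF _
    rw [h7] at h5 h6
    rw [e]
    have h8 : |(tr m C L lam M)^[n % (K + 1)] G ω - ex m C lam L F| ≤ B' - a' := by
      rw [abs_le]
      constructor <;> linarith
    exact le_trans h8 h2

end Poi

theorem pois_of (hO : OKB) (hDir : DIR) : POIS := by
  intro S _ m _ C L lam b K hS F hF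
  obtain ⟨o1, o2, o3, o4, o5, o6, o7, o8⟩ := hO S m C L lam b K hS
  have h : Poi.Ctx m C L lam K := ⟨hS.meas, hS.measL, hS.fin, hS.lam_nonneg, o1, o3, o4, o5,
    fun F hF => (o6 F hF).2.2.1, fun F hF => (o6 F hF).2.1⟩
  have hint : ∀ F : Om S → ℝ, Fn C L F → Integrable F (gib m C lam L) := fun F hF => (o6 F hF).1
  have hX : 1 ≤ Xi m C lam L := (bas S m C L lam hS.meas hS.measL hS.fin hS.lam_nonneg).2.2.2.1
  have hD : ∀ F : Om S → ℝ, Fn C L F → ex m C lam L (gen m C lam L F) = 0 := by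
    intro F hF
    have h1 := hDir S m C L lam b K hS F (fun _ => 1) hF (Poi.Fn.const 1)
    have h2 : en m C lam L (fun _ => 1) (fun _ => (1 : ℝ)) F = 0 := by
      unfold en ex D
      simp
    rw [h2, neg_zero] at h1
    simpa using h1
  set M : ℝ := 2 * (K + lam * (m L).toReal) + 2 with hMd
  have hM : 2 * (K + lam * (m L).toReal) + 2 ≤ M := le_rfl
  have hA : 0 ≤ (K : ℝ) + lam * (m L).toReal :=
    add_nonneg (Nat.cast_nonneg _) (mul_nonneg h.lam_nonneg ENNReal.toReal_nonneg)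
  have hM0 : 0 < M := by linarith
  obtain ⟨u, hu, hub⟩ := Poi.iter_conv h o2 hint hX hD hM hF
  set c0 := ex m C lam L F with hc0
  set T := fun n : ℕ => (Poi.tr m C L lam M)^[n] F with hT
  have hTF : ∀ n, Fn C L (T n) := fun n => Poi.iter_Fn h hF n
  -- partial sums
  set sN : ℕ → Om S → ℝ := fun N => Poi.cut C L fun ω =>
    M⁻¹ * ∑ n ∈ Finset.range N, (T n ω - c0) with hsN
  set ψ : Om S → ℝ := Poi.cut C L fun ω => M⁻¹ * ∑' n, (T n ω - c0) with hψ
  have hsF : ∀ N, Fn C L (sN N) := by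
    intro N
    refine Poi.Fn.cut h (Poi.Fn.smul ?_ _)
    induction N with
    | zero => simpa using Poi.Fn.const (C := C) (L := L) 0
    | succ N ih =>
      simp only [Finset.sum_range_succ]
      exact Poi.Fn.add ih (Poi.Fn.sub (hTF N) (Poi.Fn.const c0))
  have hsum : ∀ ω, ok C L ω → Summable fun n => T n ω - c0 := fun ω hω =>
    Summable.of_norm_bounded hu fun n => by
      rw [Real.norm_eq_abs]
      exact hub n ω hω
  have htail : ∀ N ω, ok C L ω → |ψ ω - sN N ω| ≤ M⁻¹ * ∑' k, u (k + N) := by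
    intro N ω hω
    have e1 : ψ ω = M⁻¹ * ∑' n, (T n ω - c0) := Poi.cut_ok hω
    have e2 : sN N ω = M⁻¹ * ∑ n ∈ Finset.range N, (T n ω - c0) := Poi.cut_ok hω
    rw [e1, e2, ← mul_sub, abs_mul, abs_of_pos (inv_pos.2 hM0)]
    refine mul_le_mul_of_nonneg_left ?_ (inv_pos.2 hM0).le
    have e3 := (hsum ω hω).sum_add_tsum_nat_add N
    have e4 : ∑' n, (T n ω - c0) - ∑ n ∈ Finset.range N, (T n ω - c0) =
        ∑' n, (T (n + N) ω - c0) := by rw [← e3]; ring
    rw [e4, ← Real.norm_eq_abs]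
    exact tsum_of_norm_bounded ((summable_nat_add_iff N).2 hu).hasSum fun n => by
      rw [Real.norm_eq_abs]
      exact hub (n + N) ω hω
  have htend : Tendsto (fun N : ℕ => M⁻¹ * ∑' k, u (k + N)) atTop (𝓝 0) := by
    have := (tendsto_sum_nat_add u).const_mul M⁻¹
    simpa using this
  have hψF : Fn C L ψ := by
    refine ⟨?_, fun n x σ => ?_, ?_⟩
    · refine measurable_of_tendsto_metrizable (fun N => (hsF N).meas) ?_
      rw [tendsto_pi_nhds]
      intro ω
      by_cases hω : ok C L ω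
      · rw [tendsto_iff_dist_tendsto_zero]
        refine squeeze_zero (fun N => dist_nonneg) (fun N => ?_) htend
        rw [dist_comm, Real.dist_eq]
        exact htail N ω hω
      · have e1 : ψ ω = 0 := Poi.cut_not hω
        have e2 : ∀ N, sN N ω = 0 := fun N => Poi.cut_not hω
        simp only [e1, e2]
        exact tendsto_const_nhds
    · by_cases hx : ok C L (⟨n, x⟩ : Om S)
      · have e1 : ψ ⟨n, x⟩ = M⁻¹ * ∑' k, (T k ⟨n, x⟩ - c0) := Poi.cut_ok hx
        have e2 : ψ ⟨n, x ∘ σ⟩ = M⁻¹ * ∑' k, (T k ⟨n, x ∘ σ⟩ - c0) :=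
          Poi.cut_ok ((Poi.ok_sym n x σ).2 hx)
        rw [e1, e2]
        congr 1
        refine tsum_congr fun k => ?_
        rw [(hTF k).sym n x σ]
      · have e1 : ψ ⟨n, x⟩ = 0 := Poi.cut_not hx
        have e2 : ψ ⟨n, x ∘ σ⟩ = 0 := Poi.cut_not fun h' => hx ((Poi.ok_sym n x σ).1 h')
        rw [e1, e2]
    · refine ⟨M⁻¹ * ∑' k, u (k + 0), fun ω hω => ?_⟩
      have h1 := htail 0 ω hω
      have e2 : sN 0 ω = 0 := by
        have : sN 0 ω = M⁻¹ * ∑ n ∈ Finset.range 0, (T n ω - c0) := Poi.cut_ok hω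
        rw [this]
        simp
      rw [e2, sub_zero] at h1
      exact h1
  refine ⟨ψ, hψF, fun ω hω => ?_⟩
  -- the generator of the partial sums
  have hgen : ∀ N, gen m C lam L (sN N) ω = T N ω - F ω := by
    intro N
    induction N with
    | zero =>
      have h1 : ∀ ω, ok C L ω → sN 0 ω = (fun _ => (0 : ℝ)) ω := fun ω hω => by
        have : sN 0 ω = M⁻¹ * ∑ n ∈ Finset.range 0, (T n ω - c0) := Poi.cut_ok hω
        rw [this]
        simp
      rw [Poi.gen_congr h h1 hω, Poi.gen_const]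
      show 0 = F ω - F ω
      ring
    | succ N ih =>
      have h1 : ∀ ω, ok C L ω → sN (N + 1) ω =
          (fun ω => sN N ω + M⁻¹ * (T N ω + (fun _ => -c0) ω)) ω := fun ω hω => by
        have e1 : sN (N + 1) ω = M⁻¹ * ∑ n ∈ Finset.range (N + 1), (T n ω - c0) := Poi.cut_ok hω
        have e2 : sN N ω = M⁻¹ * ∑ n ∈ Finset.range N, (T n ω - c0) := Poi.cut_ok hω
        show sN (N + 1) ω = sN N ω + M⁻¹ * (T N ω + -c0)
        rw [e1, e2, Finset.sum_range_succ]
        ring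
      have h2 : Fn C L fun ω => T N ω + (fun _ => -c0) ω := Poi.Fn.add (hTF N) (Poi.Fn.const _)
      rw [Poi.gen_congr h h1 hω, Poi.gen_add h (hsF N) (Poi.Fn.smul h2 _) hω, ih,
        Poi.gen_smul, Poi.gen_add h (hTF N) (Poi.Fn.const _) hω, Poi.gen_const]
      have h3 : T (N + 1) ω = T N ω + M⁻¹ * gen m C lam L (T N) ω := by
        have : T (N + 1) = Poi.tr m C L lam M (T N) := Function.iterate_succ_apply' _ _ _
        rw [this]
        exact Poi.cut_ok hω
      rw [h3]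
      ring
  have hlim1 : Tendsto (fun N => gen m C lam L (sN N) ω) atTop (𝓝 (gen m C lam L ψ ω)) := by
    rw [tendsto_iff_dist_tendsto_zero]
    have h1 : Tendsto (fun N : ℕ => 2 * (K + lam * (m L).toReal) *
        (M⁻¹ * ∑' k, u (k + N))) atTop (𝓝 0) := by
      have := htend.const_mul (2 * (K + lam * (m L).toReal))
      simpa using this
    refine squeeze_zero (fun N => dist_nonneg) (fun N => ?_) h1
    rw [dist_comm, Real.dist_eq]
    have h2 : gen m C lam L ψ ω - gen m C lam L (sN N) ω =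
        gen m C lam L (fun ω => ψ ω + (-1) * sN N ω) ω := by
      rw [Poi.gen_add h hψF (Poi.Fn.smul (hsF N) _) hω, Poi.gen_smul]
      ring
    rw [h2]
    refine Poi.gen_abs h (Poi.Fn.add hψF (Poi.Fn.smul (hsF N) _)) (fun ω hω => ?_) hω
    have h3 : ψ ω + -1 * sN N ω = ψ ω - sN N ω := by ring
    rw [h3]
    exact htail N ω hω
  have hlim2 : Tendsto (fun N => gen m C lam L (sN N) ω) atTop (𝓝 (c0 - F ω)) := by
    simp only [hgen]
    refine Tendsto.sub_const ?_ _
    rw [tendsto_iff_dist_tendsto_zero]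
    refine squeeze_zero (fun N => dist_nonneg) (fun N => ?_) hu.tendsto_atTop_zero
    rw [Real.dist_eq]
    exact hub N ω hω
  exact tendsto_nhds_unique hlim1 hlim2

end Pool.Agent.HdGas
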