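import Pool.Agent.Lib.NT.Top
import Pool.Agent.Lib.NT.Gini
import Pool.Agent.Lib.MF.Jen
import Pool.Agent.Lib.MF.Thermo

/-!
# Project NT, rows SEC and SLO: strict convexity and slopes of the pressure (helper1)
-/

set_option autoImplicit false

namespace Pool.Agent.HdGas

open MeasureTheory Filter Topology Pool.Agent.SquareWellGas Pool.Agent.KacGas Pool.Agent.VdwGas

noncomputable section

namespace SecN

/-! ### Finite sums of exponentials -/

/-- `∑ n^j z_n e^(n s)` -/
def Wf (z : ℕ → ℝ) (K j : ℕ) (s : ℝ) : ℝ :=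
  ∑ n ∈ Finset.range (K + 1), (n : ℝ) ^ j * (z n * Real.exp (n * s))

theorem hasDerivAt_Wf (z : ℕ → ℝ) (K j : ℕ) (s : ℝ) :
    HasDerivAt (Wf z K j) (Wf z K (j + 1) s) s := by
  unfold Wf
  refine HasDerivAt.fun_sum fun n _ => ?_
  have h1 : HasDerivAt (fun s : ℝ => (n : ℝ) * s) (n : ℝ) s := by
    simpa using (hasDerivAt_id s).const_mul (n : ℝ)
  have h2 := ((h1.exp).const_mul (z n)).const_mul ((n : ℝ) ^ j)
  refine h2.congr_deriv ?_
  rw [pow_succ]
  ring

/-- second differences -/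
theorem second_diff {u u' u'' : ℝ → ℝ} (h1 : ∀ s, HasDerivAt u (u' s) s)
    (h2 : ∀ s, HasDerivAt u' (u'' s) s) {μ h κ : ℝ} (hh : 0 < h)
    (hk : ∀ s ∈ Set.Icc (μ - h) (μ + h), κ ≤ u'' s) :
    h ^ 2 * κ ≤ u (μ + h) - 2 * u μ + u (μ - h) := by
  have d1 : ∀ t : ℝ, HasDerivAt (fun t => u' (μ + t) - u' (μ - t) - 2 * κ * t)
      (u'' (μ + t) + u'' (μ - t) - 2 * κ) t := by
    intro t
    have e1 : HasDerivAt (fun t : ℝ => μ + t) 1 t := (hasDerivAt_id t).const_add μ
    have e2 : HasDerivAt (fun t : ℝ => μ - t) (-1) t := (hasDerivAt_id t).const_sub μ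
    have e3 := (h2 (μ + t)).comp t e1
    have e4 := (h2 (μ - t)).comp t e2
    have e5 : HasDerivAt (fun t : ℝ => 2 * κ * t) (2 * κ) t := by
      simpa using (hasDerivAt_id t).const_mul (2 * κ)
    refine ((e3.sub e4).sub e5).congr_deriv ?_
    ring
  have d0 : ∀ t : ℝ, HasDerivAt (fun t => u (μ + t) + u (μ - t) - 2 * u μ - κ * t ^ 2)
      (u' (μ + t) - u' (μ - t) - 2 * κ * t) t := by
    intro t
    have e1 : HasDerivAt (fun t : ℝ => μ + t) 1 t := (hasDerivAt_id t).const_add μ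
    have e2 : HasDerivAt (fun t : ℝ => μ - t) (-1) t := (hasDerivAt_id t).const_sub μ
    have e3 := (h1 (μ + t)).comp t e1
    have e4 := (h1 (μ - t)).comp t e2
    have e5 : HasDerivAt (fun t : ℝ => κ * t ^ 2) (κ * (2 * t)) t := by
      simpa using (hasDerivAt_pow 2 t).const_mul κ
    refine (((e3.add e4).sub_const (2 * u μ)).sub e5).congr_deriv ?_
    ring
  have m1 : MonotoneOn (fun t => u' (μ + t) - u' (μ - t) - 2 * κ * t) (Set.Icc 0 h) := by
    refine monotoneOn_of_deriv_nonneg (convex_Icc 0 h)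
      (fun t _ => (d1 t).continuousAt.continuousWithinAt)
      (fun t _ => (d1 t).differentiableAt.differentiableWithinAt) fun t ht => ?_
    rw [interior_Icc] at ht
    rw [(d1 t).deriv]
    have a1 := hk (μ + t) ⟨by linarith [ht.1], by linarith [ht.2]⟩
    have a2 := hk (μ - t) ⟨by linarith [ht.2], by linarith [ht.1]⟩
    linarith
  have m0 : MonotoneOn (fun t => u (μ + t) + u (μ - t) - 2 * u μ - κ * t ^ 2) (Set.Icc 0 h) := by
    refine monotoneOn_of_deriv_nonneg (convex_Icc 0 h)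
      (fun t _ => (d0 t).continuousAt.continuousWithinAt)
      (fun t _ => (d0 t).differentiableAt.differentiableWithinAt) fun t ht => ?_
    rw [interior_Icc] at ht
    rw [(d0 t).deriv]
    have a1 := m1 (Set.left_mem_Icc.2 hh.le) ⟨ht.1.le, ht.2.le⟩ ht.1.le
    simp only [add_zero, sub_zero, mul_zero, sub_self] at a1
    exact a1
  have a0 := m0 (Set.left_mem_Icc.2 hh.le) (Set.right_mem_Icc.2 hh.le) hh.le
  simp only [add_zero, sub_zero] at a0
  have e : u μ + u μ - 2 * u μ - κ * 0 ^ 2 = 0 := by ring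
  rw [e] at a0
  linarith

/-! ### Moments of the number of points -/

variable {S : Type} [MeasurableSpace S]

/-- weight of the configurations with `n` points, at activity one -/
def zz (m : Measure S) (C : S → S → Prop) (L : Set S) (n : ℕ) : ℝ :=
  1 / (n.factorial : ℝ) * ((Measure.pi fun _ : Fin n => m.restrict L) {x | hc C ⟨n, x⟩}).toReal

theorem gib_card (m : Measure S) (C : S → S → Prop) (L : Set S) (lam : ℝ)
    (hmhc : MeasurableSet {ω : Om S | hc C ω}) (n : ℕ) :
    gib m C lam L {ω | ω.1 = n} = ENNReal.ofReal (lam ^ n / n.factorial) *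
      (Measure.pi fun _ : Fin n => m.restrict L) {x | hc C ⟨n, x⟩} := by
  have hms : MeasurableSet {ω : Om S | ω.1 = n} := by
    have h1 : {ω : Om S | ω.1 = n} = (fun ω : Om S => (ω.1 : ℝ)) ⁻¹' {(n : ℝ)} := by
      ext ω
      simp
    rw [h1]
    exact measurable_num (measurableSet_singleton _)
  unfold gib
  rw [Measure.restrict_apply hms]
  have hmi := hms.inter hmhc
  rw [← lintegral_indicator_one hmi, lint_pois m lam L (measurable_one.indicator hmi),
    tsum_eq_single n]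
  · congr 1
    have h2 : (fun x : Fin n → S => ({ω : Om S | ω.1 = n} ∩ {ω | hc C ω}).indicator 1
        (⟨n, x⟩ : Om S)) = ({x : Fin n → S | hc C ⟨n, x⟩}).indicator (1 : (Fin n → S) → ENNReal) := by
      funext x
      by_cases hx : hc C ⟨n, x⟩
      · rw [Set.indicator_of_mem, Set.indicator_of_mem]
        · rfl
        · exact hx
        · exact ⟨rfl, hx⟩
      · rw [Set.indicator_of_notMem, Set.indicator_of_notMem]
        · exact hx
        · exact fun h => hx h.2
    rw [h2]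
    exact lintegral_indicator_one (show MeasurableSet {x : Fin n → S | hc C ⟨n, x⟩} from
      (measurable_mk n) hmhc)
  · intro k hk
    have h2 : (fun x : Fin k → S => ({ω : Om S | ω.1 = n} ∩ {ω | hc C ω}).indicator
        (1 : Om S → ENNReal) (⟨k, x⟩ : Om S)) = fun _ => 0 := by
      funext x
      rw [Set.indicator_of_notMem]
      exact fun h => hk h.1
    rw [h2, lintegral_zero, mul_zero]

theorem int_card {m : Measure S} [SigmaFinite m] {C : S → S → Prop} {L : Set S} {K : ℕ} {s b : ℝ}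
    (hO : OKB) (hB : BAS) (hS : Sys m C L (Real.exp s) b K) (j : ℕ) :
    ∫ ω, (ω.1 : ℝ) ^ j ∂gib m C (Real.exp s) L = Wf (zz m C L) K j s := by
  obtain ⟨hmhc, -, hfin, -, -, -⟩ := hB S m C L (Real.exp s) hS.meas hS.measL hS.fin
    hS.lam_nonneg
  obtain ⟨-, hok, hcard, -⟩ := hO S m C L (Real.exp s) b K hS
  have hms : ∀ n : ℕ, MeasurableSet {ω : Om S | ω.1 = n} := by
    intro n
    have h1 : {ω : Om S | ω.1 = n} = (fun ω : Om S => (ω.1 : ℝ)) ⁻¹' {(n : ℝ)} := by
      ext ω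
      simp
    rw [h1]
    exact measurable_num (measurableSet_singleton _)
  have h1 : ∫ ω, (ω.1 : ℝ) ^ j ∂gib m C (Real.exp s) L =
      ∫ ω, ∑ n ∈ Finset.range (K + 1), (n : ℝ) ^ j * ({ω : Om S | ω.1 = n}.indicator 1 ω)
        ∂gib m C (Real.exp s) L := by
    refine integral_congr_ae ?_
    filter_upwards [hok] with ω hω
    have hK := hcard ω hω
    rw [Finset.sum_eq_single ω.1]
    · rw [Set.indicator_of_mem (s := {ω' : Om S | ω'.1 = ω.1}) (by rfl)]
      simp
    · intro n _ hn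
      rw [Set.indicator_of_notMem (s := {ω' : Om S | ω'.1 = n}) (fun h => hn h.symm), mul_zero]
    · intro hn
      exact absurd (Finset.mem_range.2 (by omega)) hn
  rw [h1, integral_finsetSum]
  · unfold Wf
    refine Finset.sum_congr rfl fun n _ => ?_
    rw [integral_const_mul, integral_indicator_one (hms n)]
    congr 1
    unfold Measure.real
    rw [gib_card m C L _ hmhc n, ENNReal.toReal_mul, ENNReal.toReal_ofReal (by positivity)]
    unfold zz
    rw [← Real.exp_nat_mul]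
    ring
  · intro n _
    exact ((integrable_const (1 : ℝ)).indicator (hms n)).const_mul _

theorem Xi_eq {m : Measure S} [SigmaFinite m] {C : S → S → Prop} {L : Set S} {K : ℕ} {s b : ℝ}
    (hO : OKB) (hB : BAS) (hS : Sys m C L (Real.exp s) b K) :
    Xi m C (Real.exp s) L = Wf (zz m C L) K 0 s := by
  rw [← int_card hO hB hS 0]
  simp only [pow_zero]
  rw [integral_const, smul_eq_mul, mul_one]
  rfl

theorem sys_lam {m : Measure S} {C : S → S → Prop} {L : Set S} {K : ℕ} {lam b : ℝ}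
    (hS : Sys m C L lam b K) {lam' : ℝ} (h : 0 ≤ lam') : Sys m C L lam' b K :=
  ⟨hS.meas, hS.refl, hS.symm, hS.measL, hS.fin, h, hS.b_pos, hS.ball, hS.card⟩

/-- the second difference of `log Ξ` in a finite system -/
theorem fin_diff {m : Measure S} [SigmaFinite m] {C : S → S → Prop} {L : Set S} {K : ℕ} {b : ℝ}
    (hO : OKB) (hB : BAS) (hGi : GINI) (hS : Sys m C L 0 b K) {μ h : ℝ} (hh : 0 < h) :
    h ^ 2 * (Real.exp (μ - h) * (m L).toReal / (1 + Real.exp (μ + h) * b) ^ 2) ≤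
      Real.log (Xi m C (Real.exp (μ + h)) L) - 2 * Real.log (Xi m C (Real.exp μ) L) +
        Real.log (Xi m C (Real.exp (μ - h)) L) := by
  have hSs : ∀ s, Sys m C L (Real.exp s) b K := fun s => sys_lam hS (Real.exp_pos s).le
  have hpos : ∀ s, 0 < Wf (zz m C L) K 0 s := by
    intro s
    rw [← Xi_eq hO hB (hSs s)]
    obtain ⟨-, -, -, h1, -, -⟩ := hB S m C L (Real.exp s) hS.meas hS.measL hS.fin
      (Real.exp_pos s).le
    exact lt_of_lt_of_le one_pos h1
  have d1 : ∀ s, HasDerivAt (fun s => Real.log (Xi m C (Real.exp s) L))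
      (Wf (zz m C L) K 1 s / Wf (zz m C L) K 0 s) s := by
    intro s
    have e : (fun s => Real.log (Xi m C (Real.exp s) L)) =
        fun s => Real.log (Wf (zz m C L) K 0 s) := by
      funext s
      rw [Xi_eq hO hB (hSs s)]
    rw [e]
    exact (hasDerivAt_Wf _ K 0 s).log (hpos s).ne'
  have d2 : ∀ s, HasDerivAt (fun s => Wf (zz m C L) K 1 s / Wf (zz m C L) K 0 s)
      ((Wf (zz m C L) K 2 s * Wf (zz m C L) K 0 s - Wf (zz m C L) K 1 s * Wf (zz m C L) K 1 s) /
        Wf (zz m C L) K 0 s ^ 2) s := fun s =>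
    (hasDerivAt_Wf _ K 1 s).div (hasDerivAt_Wf _ K 0 s) (hpos s).ne'
  refine second_diff d1 d2 hh fun s hs => ?_
  obtain ⟨g1, g2⟩ := hGi S m C L (Real.exp s) b K (hSs s)
  have hb0 := hS.b_pos
  have es := Real.exp_pos s
  have hX := Xi_eq hO hB (hSs s)
  have hN : ex m C (Real.exp s) L (fun ω => (ω.1 : ℝ)) =
      Wf (zz m C L) K 1 s / Wf (zz m C L) K 0 s := by
    unfold ex
    rw [hX, ← int_card hO hB (hSs s) 1]
    simp only [pow_one]
  have hN2 : ex m C (Real.exp s) L (fun ω => (ω.1 : ℝ) ^ 2) =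
      Wf (zz m C L) K 2 s / Wf (zz m C L) K 0 s := by
    unfold ex
    rw [hX, ← int_card hO hB (hSs s) 2]
  rw [hN2, hN] at g1
  rw [hN] at g2
  have hval : (Wf (zz m C L) K 2 s * Wf (zz m C L) K 0 s -
      Wf (zz m C L) K 1 s * Wf (zz m C L) K 1 s) / Wf (zz m C L) K 0 s ^ 2 =
      Wf (zz m C L) K 2 s / Wf (zz m C L) K 0 s -
        (Wf (zz m C L) K 1 s / Wf (zz m C L) K 0 s) ^ 2 := by
    have := (hpos s).ne'
    field_simp
  rw [hval]
  set V : ℝ := Wf (zz m C L) K 2 s / Wf (zz m C L) K 0 s -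
    (Wf (zz m C L) K 1 s / Wf (zz m C L) K 0 s) ^ 2 with hV
  have p1 : 0 < 1 + Real.exp s * b := by positivity
  have p2 : Real.exp s * (m L).toReal ≤ (1 + Real.exp s * b) ^ 2 * V := by
    refine g2.trans ?_
    rw [sq, mul_assoc]
    exact mul_le_mul_of_nonneg_left g1 p1.le
  have hmL : 0 ≤ (m L).toReal := ENNReal.toReal_nonneg
  have q1 : Real.exp (μ - h) ≤ Real.exp s := Real.exp_le_exp.2 hs.1
  have q2 : Real.exp s ≤ Real.exp (μ + h) := Real.exp_le_exp.2 hs.2
  have p3 : 0 < 1 + Real.exp (μ + h) * b := by positivity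
  have q3 : (1 + Real.exp s * b) ^ 2 ≤ (1 + Real.exp (μ + h) * b) ^ 2 := by gcongr
  calc Real.exp (μ - h) * (m L).toReal / (1 + Real.exp (μ + h) * b) ^ 2
      ≤ Real.exp s * (m L).toReal / (1 + Real.exp s * b) ^ 2 := by gcongr
    _ ≤ V := by
        rw [div_le_iff₀ (by positivity)]
        linarith

end SecN

open SecN

/-- **SEC**. -/
theorem sec_of (hO : OKB) (hB : BAS) (hGi : GINI) (hSb : SYSB) : SEC := by
  intro d hd P hP μ h hh
  have h1 : Tendsto (fun ℓ : ℝ =>
      Real.log (Xi volume (Cb d) (Real.exp (μ + h)) (Box d ℓ)) / ℓ ^ d -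
        2 * (Real.log (Xi volume (Cb d) (Real.exp μ) (Box d ℓ)) / ℓ ^ d) +
        Real.log (Xi volume (Cb d) (Real.exp (μ - h)) (Box d ℓ)) / ℓ ^ d) atTop
      (𝓝 (P (μ + h) - 2 * P μ + P (μ - h))) :=
    ((hP (μ + h)).sub ((hP μ).const_mul 2)).add (hP (μ - h))
  refine ge_of_tendsto h1 ?_
  filter_upwards [eventually_gt_atTop 0] with ℓ hℓ
  obtain ⟨K, hS⟩ := hSb d hd 0 ℓ le_rfl hℓ.le
  have h2 := fin_diff hO hB hGi hS (μ := μ) hh
  rw [Thermo.vol_Box hℓ.le] at h2
  have hld : 0 < ℓ ^ d := by positivity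
  have h3 := div_le_div_of_nonneg_right h2 hld.le
  refine le_trans (le_of_eq ?_) (h3.trans (le_of_eq ?_))
  · field_simp
  · ring

/-- **SLO**. -/
theorem slo_of (hJ : JEN) (hGi : GINI) (hSb : SYSB) : SLO := by
  intro d hd P hP μ h hh
  have h1 : Tendsto (fun ℓ : ℝ =>
      Real.log (Xi volume (Cb d) (Real.exp (μ + h)) (Box d ℓ)) / ℓ ^ d -
        Real.log (Xi volume (Cb d) (Real.exp μ) (Box d ℓ)) / ℓ ^ d) atTop
      (𝓝 (P (μ + h) - P μ)) := (hP (μ + h)).sub (hP μ)
  refine ge_of_tendsto h1 ?_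
  filter_upwards [eventually_gt_atTop 0] with ℓ hℓ
  obtain ⟨K, hS⟩ := hSb d hd (Real.exp μ) ℓ (Real.exp_pos μ).le hℓ.le
  have h2 := hJ (Fin d → ℝ) volume (Cb d) (Box d ℓ) hS.meas hS.measL hS.fin μ h
  obtain ⟨-, g2⟩ := hGi (Fin d → ℝ) volume (Cb d) (Box d ℓ) (Real.exp μ) (bv d) K hS
  rw [Thermo.vol_Box hℓ.le] at g2
  have hb := hS.b_pos
  have hld : 0 < ℓ ^ d := by positivity
  have p1 : 0 < 1 + Real.exp μ * bv d := by positivity
  rw [← sub_div, le_div_iff₀ hld]
  refine le_trans ?_ h2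
  rw [mul_assoc]
  refine mul_le_mul_of_nonneg_left ?_ hh
  rw [div_mul_eq_mul_div, div_le_iff₀ p1]
  linarith

end

end Pool.Agent.HdGas
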