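import Pool.Agent.Lib.NT.Top
import Pool.Agent.Lib.MF.Free

/-!
# No transition, diameter one (rows UNIT, LOWD)
-/

set_option autoImplicit false

namespace Pool.Agent.HdGas

open MeasureTheory Filter Topology Pool.Agent.SquareWellGas Pool.Agent.KacGas Pool.Agent.VdwGas

theorem unit_of (hT : THERMO) (hA : ANP) (hS : SEC) (hL : LEG) : UNIT := by
  intro d hd ε hε hFT f r hF hconc μ ρ hρ hmax hμ
  obtain ⟨P, hPr, hP0, hPL⟩ := hT d hd f r hF
  have hb : 0 < bv d := Bdr.bv_pos
  refine hL f P r hconc hPL μ ρ hρ hmax (hA d hd ε hε hFT P hPr μ hμ) ?_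
  refine ⟨Real.exp (μ - 1) / (1 + Real.exp (μ + 1) * bv d) ^ 2, ?_, fun h hh0 hh1 => ?_⟩
  · have : 0 < 1 + Real.exp (μ + 1) * bv d := by positivity
    positivity
  · refine le_trans ?_ (hS d hd P hPr μ h hh0)
    rw [mul_comm]
    apply mul_le_mul_of_nonneg_left _ (sq_nonneg h)
    have h1 : Real.exp (μ - 1) ≤ Real.exp (μ - h) := Real.exp_le_exp.2 (by linarith)
    have h2 : Real.exp (μ + h) ≤ Real.exp (μ + 1) := Real.exp_le_exp.2 (by linarith)
    have h3 : 0 < 1 + Real.exp (μ + h) * bv d := by positivity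
    have h4 : 1 + Real.exp (μ + h) * bv d ≤ 1 + Real.exp (μ + 1) * bv d := by
      have := mul_le_mul_of_nonneg_right h2 hb.le
      linarith
    have h5 : (1 + Real.exp (μ + h) * bv d) ^ 2 ≤ (1 + Real.exp (μ + 1) * bv d) ^ 2 :=
      pow_le_pow_left₀ h3.le h4 2
    exact div_le_div₀ (Real.exp_pos _).le h1 (by positivity) h5

theorem lowd_of (hT : THERMO) (hU : UNIT) (hS : SLO) : LOWD := by
  intro d hd ε hε hFT f r hF hconc ρ hρ0 hρ
  obtain ⟨P, hPr, hP0, hPL⟩ := hT d hd f r hF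
  have hb : 0 < bv d := Bdr.bv_pos
  set b := bv d with hbdef
  -- the reference density and chemical potential
  have hε1 : 0 < 1 + ε := by linarith
  have hy : ρ * b < 1 / (1 + ε) := by
    rw [lt_div_iff₀ hε1]
    exact hρ
  set z : ℝ := (ρ * b + 1 / (1 + ε)) / 2 with hz
  have hz1 : ρ * b < z := by rw [hz]; linarith
  have hz2 : z < 1 / (1 + ε) := by rw [hz]; linarith
  have hz3 : z * (1 + ε) < 1 := by
    rwa [lt_div_iff₀ hε1] at hz2
  have hz0 : 0 < z := lt_trans (mul_pos hρ0 hb) hz1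
  have hz4 : z < 1 := by nlinarith
  have h1z : 0 < 1 - z := by linarith
  set μ₁ : ℝ := Real.log (z / (1 - z) / b) with hμ1
  have hexp : Real.exp μ₁ = z / (1 - z) / b := by
    rw [hμ1, Real.exp_log]
    positivity
  have hexpb : Real.exp μ₁ * b = z / (1 - z) := by
    rw [hexp]
    field_simp
  have hquot : Real.exp μ₁ / (1 + Real.exp μ₁ * b) = z / b := by
    rw [hexpb, hexp]
    have : 1 + z / (1 - z) = 1 / (1 - z) := by
      field_simp
      ring
    rw [this]
    field_simp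
  have hslope : ∀ h : ℝ, 0 ≤ h → h * (z / b) ≤ P (μ₁ + h) - P μ₁ := by
    intro h hh
    have := hS d hd P hPr μ₁ h hh
    rw [← hbdef, hquot] at this
    exact this
  have hρz : ρ < z / b := by
    rw [lt_div_iff₀ hb]
    exact hz1
  -- the density is below the close packing density
  have hr : z / b ≤ r := by
    refine le_of_forall_pos_le_add fun δ hδ => ?_
    obtain ⟨x, hx, hx2⟩ := (hPL (μ₁ + 1)).2 δ hδ
    have h1 := (hPL μ₁).1 x hx
    have h2 := hslope 1 zero_le_one
    have h3 : x < r := hx.2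
    linarith
  have hρr : ρ < r := lt_of_lt_of_le hρz hr
  refine ⟨hρr, ?_⟩
  have hρI : ρ ∈ Set.Ioo 0 r := ⟨hρ0, hρr⟩
  obtain ⟨m, hm⟩ := FreeAux.support hconc hρI
  have hmax : ∀ x ∈ Set.Ioo 0 r, f x + (-m) * x ≤ f ρ + (-m) * ρ := by
    intro x hx
    have := hm x hx
    linarith
  refine hU d hd ε hε hFT f r hF hconc (-m) ρ hρI hmax ?_
  -- the chemical potential is below the reference
  have hle : -m ≤ μ₁ := by
    by_contra hcon
    push Not at hcon
    have h1 : P (-m) ≤ f ρ + (-m) * ρ := by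
      refine le_of_forall_pos_le_add fun δ hδ => ?_
      obtain ⟨x, hx, hx2⟩ := (hPL (-m)).2 δ hδ
      have := hmax x hx
      linarith
    have h2 := (hPL μ₁).1 ρ hρI
    have h3 := hslope (-m - μ₁) (by linarith)
    have h4 : μ₁ + (-m - μ₁) = -m := by ring
    rw [h4] at h3
    have h5 : (-m - μ₁) * ρ < (-m - μ₁) * (z / b) := mul_lt_mul_of_pos_left hρz (by linarith)
    linarith
  have h6 : Real.exp (-m) * b ≤ z / (1 - z) := by
    rw [← hexpb]
    exact mul_le_mul_of_nonneg_right (Real.exp_le_exp.2 hle) hb.le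
  calc Real.exp (-m) * b * ε ≤ z / (1 - z) * ε := mul_le_mul_of_nonneg_right h6 hε
    _ < 1 := by
      rw [div_mul_eq_mul_div, div_lt_one h1z]
      linarith

end Pool.Agent.HdGas
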