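import Pool.Agent.Lib.NT.Rows
import Pool.Agent.Lib.MF.Bas

/-!
# No zeros in a sector, uniformly in the region (row ZFALL)
-/

set_option autoImplicit false

namespace Pool.Agent.HdGas

open MeasureTheory Filter Topology

theorem zfall_of (hG : GAIN) (hN : NUMG) (hS : STEP) (hX : XOFF) (hA : SYSA) : ZFALL := by
  intro S _ m _ C lam b ε hε φ s w hφm hφ0 hφC hφL hw hmw hs hlim hlam hb hc
  obtain ⟨T, v, θ0, hT, hv, hv1, hθ0, hnum⟩ := hN lam b
    (1 - lam * b * (ε + (Real.cosh s - 1))) s w hlam hb hc hw hlim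
  refine ⟨θ0, hθ0, ?_⟩
  intro L K hSys hPos θ hθ
  -- the gain
  have hgain : ∀ θ' : ℝ, |θ'| ≤ θ0 → ZF m C lam L θ' v → ZF m C lam L θ' (v / 2) := by
    intro θ' hθ' hZ α hα
    refine ⟨(hZ α hα).1, fun x => ?_⟩
    exact hnum θ' hθ' _ _ rfl (norm_nonneg _)
      (hG S m C L lam b ε K hSys hε hPos φ s T (w T) θ' v _ hφm hφ0 hφC hφL (hw T) (hmw T) hT hs
        hc hv.le hZ rfl α hα x)
  -- the angle zero
  have hzero : ZF m C lam L 0 (v / 2) := by
    intro α hα
    obtain ⟨hσ, hSα, -⟩ := hA S m C L lam b K hSys α hα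
    have hXi : 1 ≤ Xi (md m α) C lam L :=
      (bas S (md m α) C L lam hSα.meas hSα.measL hSα.fin hlam).2.2.2.1
    refine ⟨?_, fun x => ?_⟩
    · rw [(hX S m C L lam b K hSys 0 α hα).1]
      have : Xi (md m α) C lam L ≠ 0 := by linarith
      exact_mod_cast this
    · rw [sub_self, norm_zero]
      positivity
  obtain ⟨δ, hδ, hstep⟩ := hS S m C L lam b K hSys v hv hv1
  obtain ⟨n, hn⟩ := exists_nat_gt (|θ| / δ)
  have hn0 : (0 : ℝ) < n := lt_of_le_of_lt (by positivity) hn
  have hall : ∀ k : ℕ, k ≤ n → ZF m C lam L (k * (θ / n)) (v / 2) := by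
    intro k
    induction k with
    | zero =>
      intro _
      simpa using hzero
    | succ k ih =>
      intro hk
      have h1 := ih (by omega)
      have h2 : |((k + 1 : ℕ) : ℝ) * (θ / n) - k * (θ / n)| ≤ δ := by
        have : ((k + 1 : ℕ) : ℝ) * (θ / n) - k * (θ / n) = θ / n := by
          push_cast
          ring
        rw [this, abs_div, abs_of_pos hn0, div_le_iff₀ hn0]
        rw [div_lt_iff₀ hδ] at hn
        linarith
      have h3 := hstep _ _ h1 h2
      refine hgain _ ?_ h3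
      rw [abs_mul, abs_div, abs_of_pos hn0, Nat.abs_cast]
      have h4 : ((k + 1 : ℕ) : ℝ) ≤ n := by exact_mod_cast hk
      calc ((k + 1 : ℕ) : ℝ) * (|θ| / n) ≤ n * (|θ| / n) := by
            apply mul_le_mul_of_nonneg_right h4
            positivity
        _ = |θ| := by field_simp
        _ ≤ θ0 := hθ
  have hend := hall n le_rfl
  have h5 : (n : ℝ) * (θ / n) = θ := by field_simp
  rw [h5] at hend
  intro α hα
  refine ⟨(hend α hα).1, fun x => ?_⟩
  exact ((hend α hα).2 x).trans (by linarith)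

end Pool.Agent.HdGas
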