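import Pool.Agent.Lib.MF.Main
import Pool.Agent.Lib.NT.Anh
import Pool.Agent.Lib.NT.Anp
import Pool.Agent.Lib.NT.Block
import Pool.Agent.Lib.NT.Coerw
import Pool.Agent.Lib.NT.Decay
import Pool.Agent.Lib.NT.Dir
import Pool.Agent.Lib.NT.Finn7
import Pool.Agent.Lib.NT.Ft23
import Pool.Agent.Lib.NT.Fts
import Pool.Agent.Lib.NT.Gain
import Pool.Agent.Lib.NT.Gini
import Pool.Agent.Lib.NT.Gnz
import Pool.Agent.Lib.NT.HighD7
import Pool.Agent.Lib.NT.Jjp
import Pool.Agent.Lib.NT.Jjpf
import Pool.Agent.Lib.NT.Leg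
import Pool.Agent.Lib.NT.LimAn
import Pool.Agent.Lib.NT.Logd
import Pool.Agent.Lib.NT.Mono
import Pool.Agent.Lib.NT.Numg
import Pool.Agent.Lib.NT.Okb
import Pool.Agent.Lib.NT.Phi7
import Pool.Agent.Lib.NT.Pois
import Pool.Agent.Lib.NT.Ratio
import Pool.Agent.Lib.NT.Sec
import Pool.Agent.Lib.NT.Step
import Pool.Agent.Lib.NT.SysA
import Pool.Agent.Lib.NT.SysB
import Pool.Agent.Lib.NT.Unit
import Pool.Agent.Lib.NT.Xoff
import Pool.Agent.Lib.NT.YChi2
import Pool.Agent.Lib.NT.ZFall
import Pool.Agent.Lib.NT.Zfb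

/-!
# No transition for hard spheres: assembly of the rows
-/

set_option autoImplicit false

namespace Pool.Agent.HdGas

theorem gnz_row : GNZ := gnz_of okb

theorem dir_row : DIR := dir_of okb gnz_row

theorem decay_row : DECAY := decay_of okb dir_row (coerw_of gnz_row okb) (pois_of okb dir_row)

theorem xoff_row : XOFF := xoff_of sysa_of

theorem ratio_row : RATIO := ratio_of bas meas gnz_row sysa_of xoff_row okb

theorem zfall_row : ZFALL :=
  zfall_of (gain_of okb gnz_row sysa_of xoff_row ratio_row (block_of sysa_of xoff_row) decay_row)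
    numg_of (step_of ratio_row xoff_row okb sysa_of) xoff_row sysa_of

theorem gini_row : GINI := gini_of gnz_row okb meas bas

theorem jjp_row : JJP := jjp_of (jjpf_of ychi2 int_row (markov_of split bas meas) (ideal_of bas)
  meas bas)

theorem unit_row : UNIT :=
  unit_of thermo_row (anp_of (zfb_of zfall_row sysb) (anh_of (logd_of okb sysa_of xoff_row)
    sysa_of sysb) liman) (sec_of okb bas gini_row sysb) leg_of

/-- The theorem. -/
theorem main7 : NTHM7 :=
  finn7 unit_row (lowd_of thermo_row unit_row (slo_of (jen_of bas) gini_row sysb))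
    (highd7_of unit_row thermo_row jjp_row ballF phi7 geob_of) ft2 ft3 mono_ft fts

end Pool.Agent.HdGas
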