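import Pool.Agent.Lib.NT.Rows3
import Pool.Agent.Lib.MF.YChi

/-!
# Lower bound for the local density at every place: row PLO
-/

set_option autoImplicit false

namespace Pool.Agent.HdGas

open MeasureTheory Filter Topology

theorem plo_of (hY : YCHI2) (hMa : MARKOV) (hM : MEAS) (hB : BAS) : PLO := by
  classical
  intro S _ m _ C L b κ lam hG hlam hθ v
  have hb := hG.b_pos
  obtain ⟨-, -, hfin, hXi, -, -⟩ := hB S m C L lam hG.meas hG.measL hG.fin hlam
  obtain ⟨hM1, hM2⟩ := hM S m C L lam hG.meas hG.measL hG.fin hlam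
  obtain ⟨mchi, mY, -, mTk, -⟩ := hM1 (Al S) MeasurableSet.univ
  set G := gib m C lam L with hGdef
  set X := Xi m C lam L with hX
  have hX0 : 0 < X := by linarith
  have hone : ex m C lam L (fun _ => (1 : ℝ)) = 1 := by
    unfold ex
    rw [integral_const, smul_eq_mul, mul_one]
    exact div_self hX0.ne'
  have hchi01 := fun v ω => chi_mem (C := C) (Al S) v ω
  have hYb : ∀ ω, Yk m C lam L (Al S) v ω ≤ lam * b := by
    intro ω
    exact mul_le_mul_of_nonneg_left (hG.Tk_real_le v ω) hlam
  have hY0 : ∀ ω, 0 ≤ Yk m C lam L (Al S) v ω := fun ω => Yk_nonneg hlam (Al S) v ω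
  have IY : Integrable (Yk m C lam L (Al S) v) G := by
    refine Integrable.of_bound (mY.comp measurable_prodMk_left).aestronglyMeasurable (lam * b)
      (ae_of_all _ fun ω => ?_)
    rw [Real.norm_eq_abs, abs_of_nonneg (hY0 ω)]
    exact hYb ω
  have Ione : Integrable (fun _ : Om S => (1 : ℝ)) G := integrable_const 1
  set y := ex m C lam L (Yk m C lam L (Al S) v) with hy
  set nv := lam * ∫ z in {z | z ∈ L ∧ C v z}, ex m C lam L (chi C (Al S) z) ∂m with hnv
  -- the bound on `E Y_v`
  have s3 : (1 - 2 * (lam * b * κ)) * y ≤ nv := by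
    have hAm : MeasurableSet {z | z ∈ L ∧ C v z} := hG.meas_near v
    have hAf : IsFiniteMeasure (m.restrict {z | z ∈ L ∧ C v z}) :=
      ⟨by rw [Measure.restrict_apply_univ]; exact (hG.near_ne_top v).lt_top⟩
    have t1 := hY S m C L b κ lam hG hlam v
    have mi : Measurable fun ω => ∫ z in {z | z ∈ L ∧ C v z}, chi C (Al S) z ω ∂m :=
      (mchi.stronglyMeasurable.integral_prod_left (μ := m.restrict {z | z ∈ L ∧ C v z})
        (f := fun z ω => chi C (Al S) z ω)).measurable
    have Ii : Integrable (fun ω => ∫ z in {z | z ∈ L ∧ C v z}, chi C (Al S) z ω ∂m) G := by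
      refine Integrable.of_bound mi.aestronglyMeasurable b (ae_of_all _ fun ω => ?_)
      rw [hG.intchi v ω, Real.norm_eq_abs, abs_of_nonneg ENNReal.toReal_nonneg]
      exact ENNReal.toReal_le_of_le_ofReal hb.le
        ((measure_mono ((Fset_sub v ω).trans (Tk_sub v ω))).trans (hG.near_le v))
    have t2 : ex m C lam L (fun ω => Yk m C lam L (Al S) v ω -
        lam * ∫ z in {z | z ∈ L ∧ C v z}, chi C (Al S) z ω ∂m) =
        y - lam * ex m C lam L (fun ω => ∫ z in {z | z ∈ L ∧ C v z},
          chi C (Al S) z ω ∂m) := by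
      have : (fun ω => Yk m C lam L (Al S) v ω -
        lam * ∫ z in {z | z ∈ L ∧ C v z}, chi C (Al S) z ω ∂m) =
        fun ω => Yk m C lam L (Al S) v ω +
          (-lam) * ∫ z in {z | z ∈ L ∧ C v z}, chi C (Al S) z ω ∂m := by
        funext ω
        ring
      rw [this, ex_add_of IY (Ii.const_mul _), ex_mul_left]
      simp only [hy]
      ring
    have t3 : ex m C lam L (fun ω => ∫ z in {z | z ∈ L ∧ C v z}, chi C (Al S) z ω ∂m) =
        ∫ z in {z | z ∈ L ∧ C v z}, ex m C lam L (chi C (Al S) z) ∂m := by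
      have u1 : ∫ ω, ∫ z in {z | z ∈ L ∧ C v z}, chi C (Al S) z ω ∂m ∂G =
          ∫ z in {z | z ∈ L ∧ C v z}, ∫ ω, chi C (Al S) z ω ∂G ∂m := by
        apply integral_integral_swap
        refine Integrable.of_bound ?_ 1 (ae_of_all _ fun q => ?_)
        · exact (mchi.comp measurable_swap).aestronglyMeasurable
        · simp only [Function.uncurry]
          rw [Real.norm_eq_abs, abs_of_nonneg (hchi01 _ _).1]
          exact (hchi01 _ _).2
      unfold ex
      rw [u1, ← integral_div]
    rw [t2, t3] at t1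
    rw [hnv]
    linarith
  -- Jensen
  have q1 : Real.exp (-y) ≤ ex m C lam L (chi C (Al S) v) := by
    have h1 := hMa S m C L b κ lam hG hlam v (fun _ => 1) measurable_const
      (fun _ _ _ => rfl) ⟨1, fun _ => by simp⟩ (fun _ _ _ => rfl)
    simp only [mul_one] at h1
    have hT : ∀ ω, 1 ≤ Xi m C lam (Tk C L (Al S) v ω) ∧
        Xi m C lam (Tk C L (Al S) v ω) ≤ Real.exp (Yk m C lam L (Al S) v ω) := by
      intro ω
      have hf : m (Tk C L (Al S) v ω) ≠ ⊤ :=
        ((measure_mono (Tk_sub v ω)).trans_lt (hG.near_ne_top v).lt_top).ne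
      obtain ⟨-, -, -, h2, h3, -⟩ := hB S m C (Tk C L (Al S) v ω) lam hG.meas
        (mTk v ω) hf hlam
      exact ⟨h2, h3⟩
    have h4 : ex m C lam L (fun ω => Real.exp (-y) * (1 + y) * 1 +
        (-Real.exp (-y)) * Yk m C lam L (Al S) v ω) ≤
        ex m C lam L (fun ω => 1 / Xi m C lam (Tk C L (Al S) v ω)) := by
      apply ex_mono_of ((Ione.const_mul _).add (IY.const_mul _))
      · refine Integrable.of_bound ((hM2 v).const_div 1).aestronglyMeasurable 1
          (ae_of_all _ fun ω => ?_)
        rw [Real.norm_eq_abs, abs_of_nonneg (by have := (hT ω).1; positivity)]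
        rw [div_le_one (by linarith [(hT ω).1])]
        exact (hT ω).1
      · intro ω
        have h5 : Real.exp (-Yk m C lam L (Al S) v ω) ≤
            1 / Xi m C lam (Tk C L (Al S) v ω) := by
          rw [Real.exp_neg, ← one_div]
          exact one_div_le_one_div_of_le (by linarith [(hT ω).1]) (hT ω).2
        refine le_trans ?_ h5
        have h6 := Real.add_one_le_exp (y - Yk m C lam L (Al S) v ω)
        have h7 : Real.exp (-Yk m C lam L (Al S) v ω) =
            Real.exp (-y) * Real.exp (y - Yk m C lam L (Al S) v ω) := by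
          rw [← Real.exp_add]
          congr 1
          ring
        rw [h7]
        calc Real.exp (-y) * (1 + y) * 1 + -Real.exp (-y) * Yk m C lam L (Al S) v ω =
            Real.exp (-y) * (y - Yk m C lam L (Al S) v ω + 1) := by ring
          _ ≤ _ := mul_le_mul_of_nonneg_left h6 (Real.exp_pos (-y)).le
    rw [ex_add_of (Ione.const_mul _) (IY.const_mul _), ex_mul_left, ex_mul_left, hone,
      ← h1, ← hy] at h4
    calc Real.exp (-y) = Real.exp (-y) * (1 + y) * 1 + -Real.exp (-y) * y := by ring
      _ ≤ _ := h4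
  refine le_trans (Real.exp_le_exp.2 ?_) q1
  have h0 : 0 < 1 - 2 * (lam * b * κ) := by linarith
  rw [neg_le_neg_iff, le_div_iff₀ h0]
  linarith

end Pool.Agent.HdGas
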