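import Pool.Agent.Lib.NT.Varn

/-!
# Project NT (MP_09cbbd_mp), row PUP (helper59)
-/

set_option autoImplicit false

namespace Pool.Agent.HdGas

open MeasureTheory Filter Topology

theorem pup_of (hE : EMP) (hG : GNZ) : PUP := by
  intro S _ m _ C L b ε lam K hS hε hP hlt v
  have hA : MeasurableSet {z | C v z} := hS.meas.preimage measurable_prodMk_left
  have h := hE S m C L b ε lam K hS hε hP hlt {z | C v z} hA
  rw [Vn.ex_nV hG hS hA] at h
  have e1 : ∀ ω : Om S, chi C (Al S) v ω = if nV {z | C v z} ω = 0 then 1 else 0 := by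
    intro ω
    classical
    unfold chi nV
    congr 1
    rw [Finset.card_eq_zero, Finset.filter_eq_empty_iff]
    unfold fr Al
    simp
  have e2 : ∫ p in L, ex m C lam L (fun ω => chi C (Al S) p ω * Vn.iA {z | C v z} p) ∂m =
      ∫ z in {z | z ∈ L ∧ C v z}, ex m C lam L (chi C (Al S) z) ∂m := by
    have hset : {z | z ∈ L ∧ C v z} = {z | C v z} ∩ L := by
      ext z
      exact ⟨fun h => ⟨h.2, h.1⟩, fun h => ⟨h.2, h.1⟩⟩
    rw [hset, ← Measure.restrict_restrict hA, ← integral_indicator hA]
    refine integral_congr_ae (Filter.Eventually.of_forall fun p => ?_)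
    by_cases hp : p ∈ {z | C v z}
    · simp only [Vn.iA_mem hp, mul_one, Set.indicator_of_mem hp]
    · simp only [Vn.iA_not hp, mul_zero, Set.indicator_of_notMem hp]
      unfold ex
      simp
  rw [e2] at h
  have e3 : ex m C lam L (chi C (Al S) v) =
      ex m C lam L (fun ω => if nV {z | C v z} ω = 0 then 1 else 0) := by
    congr 1
    funext ω
    exact e1 ω
  rw [e3]
  exact h

end Pool.Agent.HdGas
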