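import Pool.Agent.Lib.NT.Rows3
import Pool.Agent.Lib.NT.SysB
import Pool.Agent.Lib.MF.Geob
import Pool.Agent.Lib.MF.RowBdry
import Pool.Agent.Lib.MF.Bas
import Pool.Agent.Lib.MF.Jen
import Pool.Agent.Lib.MF.Pars

/-! # Project NT, row SLOPE3: the slopes of the pressure, relative error.  helper61. -/

set_option autoImplicit false

namespace Pool.Agent.HdGas

open MeasureTheory Filter Topology Pool.Agent.SquareWellGas Pool.Agent.KacGas Pool.Agent.VdwGas

namespace Slope3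

/-- The root `c'` of `c' e^((1-u) c') = t` is at most `(1 + 2 u) c`. -/
theorem exists_root {t c u : ℝ} (ht : 0 ≤ t) (hc : 0 ≤ c) (hu : 0 ≤ u) (hu2 : u ≤ 1 / 2)
    (h : c * Real.exp c = t) :
    ∃ c' : ℝ, 0 ≤ c' ∧ c' ≤ (1 + 2 * u) * c ∧ c' * Real.exp ((1 - u) * c') = t := by
  have hc2 : 0 ≤ (1 + 2 * u) * c := by positivity
  have hcont : ContinuousOn (fun x : ℝ => x * Real.exp ((1 - u) * x))
      (Set.Icc 0 ((1 + 2 * u) * c)) := by fun_prop
  have hle : t ≤ (1 + 2 * u) * c * Real.exp ((1 - u) * ((1 + 2 * u) * c)) := by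
    rw [← h]
    have h1 : c ≤ (1 - u) * ((1 + 2 * u) * c) := by
      have : 0 ≤ u * (1 - 2 * u) * c := mul_nonneg (mul_nonneg hu (by linarith)) hc
      nlinarith
    have h2 : c ≤ (1 + 2 * u) * c := by nlinarith
    exact mul_le_mul h2 (Real.exp_le_exp.2 h1) (Real.exp_pos _).le hc2
  have hmem : t ∈ Set.Icc ((fun x : ℝ => x * Real.exp ((1 - u) * x)) 0)
      ((fun x : ℝ => x * Real.exp ((1 - u) * x)) ((1 + 2 * u) * c)) := by
    refine ⟨?_, hle⟩
    simpa using ht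
  obtain ⟨c', ⟨h1, h2⟩, h3⟩ := intermediate_value_Icc hc2 hcont hmem
  exact ⟨c', h1, h2, h3⟩

/-- the inequality in one box, `h ≤ 0`. -/
theorem box (hD : DENSU) {d : ℕ} (hd : 1 ≤ d) {ε μ c' : ℝ} (hε : 0 ≤ ε) (hF : FT d ε)
    (hc : 0 ≤ c') (ht : Real.exp μ * bv d * ε < 1)
    (hμ : c' * Real.exp ((1 - Real.exp μ * bv d * ε) * c') = Real.exp μ * bv d)
    {h : ℝ} (hh : h ≤ 0) {ℓ : ℝ} (hℓ : 2 ≤ ℓ) :
    h * (c' + 2 * (Real.exp μ * bv d) * (c' * (1 - (1 - 2 / ℓ) ^ d))) ≤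
      bv d * (Real.log (Xi volume (Cb d) (Real.exp (μ + h)) (Box d ℓ)) / ℓ ^ d -
        Real.log (Xi volume (Cb d) (Real.exp μ) (Box d ℓ)) / ℓ ^ d) := by
  have hb : 0 < bv d := GeobR.bv_pos d
  have hgeo := geob_of d hd ℓ
  have hV : (volume (Box d ℓ)).toReal = ℓ ^ d := Bdr.vol_Box (by linarith)
  have hVpos : 0 < ℓ ^ d := pow_pos (by linarith) d
  obtain ⟨K, hK⟩ := sysb d hd (Real.exp μ) ℓ (Real.exp_pos μ).le (by linarith)
  have hdens := hD _ volume (Cb d) (Box d ℓ) (bv d) (kap d) ε (Real.exp μ) c' K hgeo hK hε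
    (pars_of d ε hd hε hF ℓ) ht hc hμ
  have hjen := jen_of bas _ volume (Cb d) (Box d ℓ) hgeo.meas hgeo.measL hgeo.fin μ h
  obtain ⟨hB0, hB⟩ := bdry d hd c' hc ℓ hℓ
  rw [hV] at hdens
  set t := Real.exp μ * bv d with htd
  have ht0 : 0 < t := mul_pos (Real.exp_pos _) hb
  have hδ : Bd volume (Cb d) (Box d ℓ) (bv d) c' ≤ c' * (1 - (1 - 2 / ℓ) ^ d) * ℓ ^ d := by
    refine hB.trans (le_of_eq ?_)
    have : (1 - 2 / ℓ) ^ d * ℓ ^ d = (ℓ - 2) ^ d := by
      rw [← mul_pow]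
      congr 1
      have : ℓ ≠ 0 := by linarith
      field_simp
    rw [← this]
    ring
  rw [← sub_div, mul_div_assoc', le_div_iff₀ hVpos]
  set N := ex volume (Cb d) (Real.exp μ) (Box d ℓ) (fun ω => (ω.1 : ℝ)) with hN
  have k1 : bv d * N ≤ (c' + 2 * t * (c' * (1 - (1 - 2 / ℓ) ^ d))) * ℓ ^ d := by
    have := mul_le_mul_of_nonneg_left hδ (by positivity : 0 ≤ 2 * t)
    linarith
  have k2 : h * ((c' + 2 * t * (c' * (1 - (1 - 2 / ℓ) ^ d))) * ℓ ^ d) ≤ h * (bv d * N) :=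
    mul_le_mul_of_nonpos_left k1 hh
  have k3 : bv d * (h * N) ≤ bv d * (Real.log (Xi volume (Cb d) (Real.exp (μ + h)) (Box d ℓ)) -
      Real.log (Xi volume (Cb d) (Real.exp μ) (Box d ℓ))) := mul_le_mul_of_nonneg_left hjen hb.le
  linarith

end Slope3

open Slope3 in
/-- Row SLOPE3. -/
theorem slope3_of (hJ : JJP) (hD : DENSU) : SLOPE3 := by
  intro d hd ε k hε hF hεk hkk P hP μ c hc hμ hte h
  have hb : 0 < bv d := GeobR.bv_pos d
  set t := Real.exp μ * bv d with ht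
  have ht0 : 0 < t := mul_pos (Real.exp_pos _) hb
  rcases le_total 0 h with hh | hh
  · have h1 := hJ d hd P hP μ c hc hμ h hh
    rw [← ht] at h1
    have h2 : h * c - |h| * (2 * (t * k) * c) ≤ h * ((1 - 2 * (t * kap d)) * c) := by
      rw [abs_of_nonneg hh]
      have h3 : t * kap d * c ≤ t * k * c :=
        mul_le_mul_of_nonneg_right (mul_le_mul_of_nonneg_left hkk ht0.le) hc
      nlinarith [mul_le_mul_of_nonneg_left h3 hh]
    exact h2.trans h1
  · obtain ⟨c', hc'0, hc'1, hc'⟩ := exists_root ht0.le hc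
      (mul_nonneg ht0.le hε : 0 ≤ t * ε) hte hμ
    have l1 : Tendsto (fun ℓ : ℝ => h * (c' + 2 * t * (c' * (1 - (1 - 2 / ℓ) ^ d)))) atTop
        (𝓝 (h * c')) := by
      have h2 : Tendsto (fun ℓ : ℝ => 2 / ℓ) atTop (𝓝 0) :=
        tendsto_const_nhds.div_atTop tendsto_id
      have h3 : Tendsto (fun ℓ : ℝ => h * (c' + 2 * t * (c' * (1 - (1 - 2 / ℓ) ^ d)))) atTop
          (𝓝 (h * (c' + 2 * t * (c' * (1 - (1 - 0) ^ d))))) :=
        (((((tendsto_const_nhds.sub h2).pow d).const_sub 1).const_mul c').const_mul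
          (2 * t)).const_add c' |>.const_mul h
      simpa using h3
    have l2 : Tendsto (fun ℓ : ℝ => bv d *
        (Real.log (Xi volume (Cb d) (Real.exp (μ + h)) (Box d ℓ)) / ℓ ^ d -
          Real.log (Xi volume (Cb d) (Real.exp μ) (Box d ℓ)) / ℓ ^ d)) atTop
        (𝓝 (bv d * (P (μ + h) - P μ))) := ((hP (μ + h)).sub (hP μ)).const_mul _
    have h3 := le_of_tendsto_of_tendsto l1 l2 (by
      filter_upwards [eventually_ge_atTop (2 : ℝ)] with ℓ hℓ
      exact box hD hd hε hF hc'0 (by linarith) hc' hh hℓ)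
    refine le_trans ?_ h3
    rw [abs_of_nonpos hh]
    have h4 : t * ε * c ≤ t * k * c :=
      mul_le_mul_of_nonneg_right (mul_le_mul_of_nonneg_left hεk ht0.le) hc
    have h5 : c' ≤ c + 2 * (t * k) * c := by
      calc c' ≤ (1 + 2 * (t * ε)) * c := hc'1
        _ = c + 2 * (t * ε * c) := by ring
        _ ≤ c + 2 * (t * k * c) := by linarith
        _ = _ := by ring
    have h6 : h * (c + 2 * (t * k) * c) ≤ h * c' := mul_le_mul_of_nonpos_left h5 hh
    linarith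

end Pool.Agent.HdGas
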