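import Pool.Agent.Lib.NT.Main
import Pool.Agent.Lib.NT.Dens3
import Pool.Agent.Lib.NT.DensU
import Pool.Agent.Lib.NT.Emp
import Pool.Agent.Lib.NT.Fin3
import Pool.Agent.Lib.NT.Free3
import Pool.Agent.Lib.NT.Ftk39
import Pool.Agent.Lib.NT.Integ3
import Pool.Agent.Lib.NT.Plo
import Pool.Agent.Lib.NT.Pup
import Pool.Agent.Lib.NT.Slope3
import Pool.Agent.Lib.NT.Varn

/-!
# Mean field theory with a relative error: assembly of the rows
-/

set_option autoImplicit false

namespace Pool.Agent.HdGas

theorem pup_row : PUP := pup_of (emp_of (varn_of decay_row gnz_row) sysa_of okb bas) gnz_row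

theorem plo_row : PLO := plo_of ychi2 (markov_of split bas meas) meas bas

theorem main3_of (hU : DENSU) (hK : FTK) : MFTHM3 :=
  have s := slope3_of jjp_row hU
  have d := dens3_of thermo_row s
  fin3_of d (free3_of thermo_row s integ3 d hK) fts hK

theorem mfthm3 : MFTHM3 := main3_of (densu_of pup_row int_row) ftk

end Pool.Agent.HdGas
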