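import Pool.Agent.Lib.NT.Trip4
import Pool.Agent.Lib.NT.Reg4
import Pool.Agent.Lib.MF.RowConv
import Pool.Agent.Lib.MF.RowBdry

/-!
# Row 4-MEAN4: from the local density to the mean number of points
-/

set_option autoImplicit false

namespace Pool.Agent.HdGas

open MeasureTheory Filter Topology Pool.Agent.SquareWellGas

namespace Mn4

variable {d : ℕ}

/-- The deep part of the box. -/
def Dp (d : ℕ) (R ℓ : ℝ) : Set (Fin d → ℝ) := Set.pi Set.univ fun _ => Set.Ico R (ℓ - R)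

theorem Dp_meas (R ℓ : ℝ) : MeasurableSet (Dp d R ℓ) :=
  MeasurableSet.univ_pi fun _ => measurableSet_Ico

theorem Dp_sub {R ℓ : ℝ} (hR : 0 ≤ R) : Dp d R ℓ ⊆ Box d ℓ := by
  intro x hx k
  have h := hx k (Set.mem_univ k)
  exact ⟨by linarith [h.1], by linarith [h.2]⟩

theorem Dp_cube {R ℓ : ℝ} {u : Fin d → ℝ} (hu : u ∈ Dp d R ℓ) : Cube d R u ⊆ Box d ℓ := by
  intro x hx k
  have h := hu k (Set.mem_univ k)
  have h1 := abs_le.1 (hx k)
  exact ⟨by linarith [h.1], by linarith [h.2]⟩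

theorem vol_Dp {R ℓ : ℝ} (hℓ : 2 * R ≤ ℓ) : (volume (Dp d R ℓ)).toReal = (ℓ - 2 * R) ^ d := by
  unfold Dp
  rw [Real.volume_pi_Ico_toReal (fun _ => by linarith)]
  simp only [Finset.prod_const, Finset.card_univ, Fintype.card_fin]
  congr 1
  ring

theorem reg_Box (ℓ : ℝ) : Reg d (Box d ℓ) :=
  ⟨Bdr.Box_meas ℓ, ℓ, fun x hx k => by
    rw [abs_le]
    have h := hx k
    exact ⟨by linarith [h.1, h.2], h.2.le⟩⟩

end Mn4

open Mn4

theorem mean4_of (hI : INT) : MEAN4 := by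
  intro d hd lam c G hlam hc hG h δ hδ
  obtain ⟨R0, hR0⟩ := h (δ / 2) (by positivity)
  set R : ℝ := max R0 0 with hRdef
  have hR : 0 ≤ R := le_max_right _ _
  have hRR : R0 ≤ R := le_max_left _ _
  have hb := Bdr.bv_pos (d := d)
  set K : ℝ := lam * bv d + c with hK
  have hK0 : 0 ≤ K := by positivity
  -- the limit
  have hlim : Tendsto (fun ℓ : ℝ => K * (1 - (1 - 2 * R / ℓ) ^ d)) atTop (𝓝 0) := by
    have h1 : Tendsto (fun ℓ : ℝ => 2 * R / ℓ) atTop (𝓝 0) :=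
      tendsto_const_nhds.div_atTop tendsto_id
    have h2 : Tendsto (fun ℓ : ℝ => K * (1 - (1 - 2 * R / ℓ) ^ d)) atTop
        (𝓝 (K * (1 - (1 - 0) ^ d))) :=
      (((tendsto_const_nhds (x := (1 : ℝ))).sub h1).pow d |>.const_sub 1).const_mul K
    simpa using h2
  have hev : ∀ᶠ ℓ : ℝ in atTop, K * (1 - (1 - 2 * R / ℓ) ^ d) < δ / 2 :=
    hlim.eventually_lt_const (by positivity)
  filter_upwards [hev, eventually_ge_atTop (2 * R + 1)] with ℓ h1 h2
  have hℓ : 0 < ℓ := by linarith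
  have hgeo := (reg4_of d hd (Box d ℓ) (reg_Box ℓ)).1
  obtain ⟨-, hN⟩ := hI _ volume (Cb d) (Box d ℓ) (bv d) (kap d) lam hgeo hlam
  have hm := Trip.fp_meas hlam (Bdr.Box_meas (d := d) ℓ) (Bdr.vol_Box_fin ℓ)
  have hb1 : ∀ v, |fp d lam (Box d ℓ) v| ≤ 1 := fun v => by
    rw [abs_of_nonneg (Trip.fp_nonneg _ _ _ _)]
    exact Trip.fp_le_one _ _ _ _
  have i1 : IntegrableOn (fun v => fp d lam (Box d ℓ) v) (Box d ℓ) volume :=
    Cv.bdd (M := 1) (Bdr.Box_meas ℓ) (Bdr.vol_Box_fin ℓ) hm fun v _ => hb1 v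
  have hV : (volume (Box d ℓ)).toReal = ℓ ^ d := Bdr.vol_Box hℓ.le
  have e : bv d * ex volume (Cb d) lam (Box d ℓ) (fun ω => (ω.1 : ℝ)) - c * ℓ ^ d =
      ∫ v in Box d ℓ, (lam * bv d * fp d lam (Box d ℓ) v - c) := by
    rw [integral_sub (i1.const_mul (lam * bv d)) (integrableOn_const (Bdr.vol_Box_fin ℓ)),
      integral_const_mul, setIntegral_const, smul_eq_mul, hN]
    unfold Measure.real
    rw [hV]
    unfold fp
    ring
  -- pointwise bound
  set F : (Fin d → ℝ) → ℝ := fun u => (G + δ / 2) + (Box d ℓ \ Dp d R ℓ).indicator (fun _ => K) u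
    with hF
  have hpt : ∀ u ∈ Box d ℓ, |lam * bv d * fp d lam (Box d ℓ) u - c| ≤ F u := by
    intro u hu
    by_cases hi : u ∈ Dp d R ℓ
    · have h3 := hR0 (Box d ℓ) (reg_Box ℓ) u
        (fun x hx => Dp_cube hi (fun k => (hx k).trans hRR))
      simp only [hF]
      rw [Set.indicator_of_notMem (fun h : u ∈ Box d ℓ \ Dp d R ℓ => h.2 hi), add_zero]
      exact h3
    · simp only [hF]
      rw [Set.indicator_of_mem (show u ∈ Box d ℓ \ Dp d R ℓ from Set.mem_sdiff_of_mem hu hi)]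
      have h4 : 0 ≤ lam * bv d * fp d lam (Box d ℓ) u :=
        mul_nonneg (by positivity) (Trip.fp_nonneg _ _ _ _)
      have h5 : lam * bv d * fp d lam (Box d ℓ) u ≤ lam * bv d * 1 :=
        mul_le_mul_of_nonneg_left (Trip.fp_le_one _ _ _ _) (by positivity)
      rw [abs_le]
      constructor
      · simp only [hK]; nlinarith
      · simp only [hK]; nlinarith
  have hFi : IntegrableOn F (Box d ℓ) volume := by
    refine Integrable.add (integrableOn_const (Bdr.vol_Box_fin ℓ)) ?_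
    refine (integrable_indicator_iff ((Bdr.Box_meas ℓ).diff (Dp_meas R ℓ))).2 ?_
    refine integrableOn_const ?_
    refine ((Measure.restrict_apply_le _ _).trans_lt ?_).ne
    exact (measure_mono Set.sdiff_subset).trans_lt (Bdr.vol_Box_fin ℓ).lt_top
  have hFint : ∫ u in Box d ℓ, F u = (G + δ / 2) * ℓ ^ d + K * (ℓ ^ d - (ℓ - 2 * R) ^ d) := by
    have h6 : ∫ u in Box d ℓ, F u = (∫ _u in Box d ℓ, (G + δ / 2)) +
        ∫ u in Box d ℓ, (Box d ℓ \ Dp d R ℓ).indicator (fun _ => K) u := by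
      refine integral_add (integrableOn_const (Bdr.vol_Box_fin ℓ)) ?_
      refine (integrable_indicator_iff ((Bdr.Box_meas ℓ).diff (Dp_meas R ℓ))).2 ?_
      refine integrableOn_const ?_
      refine ((Measure.restrict_apply_le _ _).trans_lt ?_).ne
      exact (measure_mono Set.sdiff_subset).trans_lt (Bdr.vol_Box_fin ℓ).lt_top
    rw [h6, setIntegral_const, smul_eq_mul,
      setIntegral_indicator ((Bdr.Box_meas ℓ).diff (Dp_meas R ℓ)), setIntegral_const, smul_eq_mul]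
    have h4 : Box d ℓ ∩ (Box d ℓ \ Dp d R ℓ) = Box d ℓ \ Dp d R ℓ :=
      Set.inter_eq_right.2 Set.sdiff_subset
    rw [h4, measureReal_sdiff (Dp_sub hR) (Dp_meas R ℓ) (Bdr.vol_Box_fin ℓ), Measure.real,
      Measure.real, hV, vol_Dp (by linarith)]
    ring
  have hbound : |∫ v in Box d ℓ, (lam * bv d * fp d lam (Box d ℓ) v - c)| ≤
      (G + δ / 2) * ℓ ^ d + K * (ℓ ^ d - (ℓ - 2 * R) ^ d) := by
    refine (abs_integral_le_integral_abs).trans ?_
    rw [← hFint]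
    refine setIntegral_mono_on ?_ hFi (Bdr.Box_meas ℓ) hpt
    exact ((i1.const_mul (lam * bv d)).sub (integrableOn_const (Bdr.vol_Box_fin ℓ))).abs
  rw [← e] at hbound
  have hℓd : 0 < ℓ ^ d := pow_pos hℓ d
  have e2 : bv d * ex volume (Cb d) lam (Box d ℓ) (fun ω => (ω.1 : ℝ)) / ℓ ^ d - c =
      (bv d * ex volume (Cb d) lam (Box d ℓ) (fun ω => (ω.1 : ℝ)) - c * ℓ ^ d) / ℓ ^ d := by
    field_simp
  rw [e2, abs_div, abs_of_pos hℓd, div_le_iff₀ hℓd]
  refine hbound.trans ?_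
  have e3 : (ℓ - 2 * R) ^ d = (1 - 2 * R / ℓ) ^ d * ℓ ^ d := by
    rw [← mul_pow]
    congr 1
    field_simp
  rw [e3]
  have h7 : K * (ℓ ^ d - (1 - 2 * R / ℓ) ^ d * ℓ ^ d) =
      K * (1 - (1 - 2 * R / ℓ) ^ d) * ℓ ^ d := by ring
  rw [h7]
  have h8 := mul_le_mul_of_nonneg_right h1.le hℓd.le
  linarith

end Pool.Agent.HdGas
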