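import Pool.Agent.Lib.NT.Rows4
import Pool.Agent.Lib.MF.Bas
import Pool.Agent.Lib.MF.Xiz
import Pool.Agent.Lib.MF.Geob
import Pool.Agent.Lib.MP_09cbbd_kc.Kink

/-!
# The mean number of spheres as a quotient of series
-/

set_option autoImplicit false

namespace Pool.Agent.HdGas

open MeasureTheory Filter Topology Pool.Agent.SquareWellGas Pool.Agent.KacGas Pool.Agent.VdwGas

theorem meanz_of (hI : INT) : MEANZ := by
  intro d hd a lam ℓ ha hlam hℓ
  have h2a : (0 : ℝ) < 2 * a := by positivity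
  set lam' : ℝ := lam * (2 * a) ^ d with hl'
  set ℓ' : ℝ := ℓ / (2 * a) with hℓ'
  have hlam' : 0 ≤ lam' := by positivity
  have hℓ0 : 0 ≤ ℓ' := by positivity
  have hG := geob_of d hd ℓ'
  have hZ : ∀ n : ℕ, lam ^ n * Z d a (fun _ => 0) ℓ n =
      lam' ^ n * Z d (1 / 2) (fun _ => 0) ℓ' n := by
    intro n
    have e : a / (2 * a) = 1 / 2 := by field_simp
    have e1 : lam' ^ n = lam ^ n * (2 * a) ^ (n * d) := by
      rw [hl', mul_pow lam, ← pow_mul, mul_comm d n]
    rw [Pool.Agent.Kac.Kink.Z_scale (c := 2 * a) h2a n, e1, e, mul_assoc]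
  have hX := xiz_of bas d hd lam' hlam' ℓ' hℓ0
  unfold Nb
  have hden : ∑' n : ℕ, lam ^ n * Z d a (fun _ => 0) ℓ n = Xi volume (Cb d) lam' (Box d ℓ') := by
    rw [← hX.tsum_eq]
    exact tsum_congr hZ
  rw [hden]
  unfold ex
  congr 1
  obtain ⟨hm, -, hfin, -, -, -⟩ := bas (Fin d → ℝ) volume (Cb d) (Box d ℓ') lam' hG.meas hG.measL
    hG.fin hlam'
  set G := gib volume (Cb d) lam' (Box d ℓ') with hGd
  have hint : Integrable (fun ω : Om (Fin d → ℝ) => (ω.1 : ℝ)) G := by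
    have := ((hI (Fin d → ℝ) volume (Cb d) (Box d ℓ') (bv d) (kap d) lam' hG hlam').1
      (fun _ => 1) measurable_const (fun _ => zero_le_one) ⟨1, fun _ => le_rfl⟩).1
    simpa using this
  have hT : ∀ n : ℕ, MeasurableSet {ω : Om (Fin d → ℝ) | ω.1 = n} := by
    intro n
    rw [MeasurableSpace.measurableSet_iInf]
    intro k
    show MeasurableSet {x : Fin k → Fin d → ℝ | k = n}
    by_cases h : k = n <;> simp [h]
  have hU : (⋃ n : ℕ, {ω : Om (Fin d → ℝ) | ω.1 = n}) = Set.univ := by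
    ext ω
    simp
  have hdis : Pairwise (Function.onFun Disjoint fun n : ℕ => {ω : Om (Fin d → ℝ) | ω.1 = n}) := by
    intro i j hij
    rw [Function.onFun, Set.disjoint_left]
    intro ω h1 h2
    exact hij (h1.symm.trans h2)
  have hs := hasSum_integral_iUnion (f := fun ω : Om (Fin d → ℝ) => (ω.1 : ℝ)) (μ := G) hT hdis
    (hint.integrableOn)
  rw [hU, Measure.restrict_univ] at hs
  rw [← hs.tsum_eq]
  refine tsum_congr fun n => ?_
  have h1 : ∫ ω in {ω : Om (Fin d → ℝ) | ω.1 = n}, (ω.1 : ℝ) ∂G =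
      G.real {ω : Om (Fin d → ℝ) | ω.1 = n} * n := by
    rw [setIntegral_congr_fun (g := fun _ => (n : ℝ)) (hT n) fun ω hω => by
      simp only [Set.mem_ofPred_eq] at hω
      simp [hω]]
    rw [setIntegral_const, smul_eq_mul]
  rw [h1, hZ n, mul_comm]
  congr 1
  have h2 : G {ω : Om (Fin d → ℝ) | ω.1 = n} = ENNReal.ofReal (lam' ^ n / n.factorial) *
      (Measure.pi fun _ : Fin n => volume.restrict (Box d ℓ')) {x | hc (Cb d) ⟨n, x⟩} := by
    rw [hGd]
    unfold gib
    rw [Measure.restrict_apply (hT n), pois_apply _ _ _ ((hT n).inter hm)]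
    rw [tsum_eq_single n]
    · congr 2
      ext x
      simp
    · intro k hk
      have : {x : Fin k → Fin d → ℝ | (⟨k, x⟩ : Om (Fin d → ℝ)) ∈
          {ω : Om (Fin d → ℝ) | ω.1 = n} ∩ {ω | hc (Cb d) ω}} = ∅ := by
        ext x
        simp [hk]
      rw [this, measure_empty, mul_zero]
  have h4 : G.real {ω : Om (Fin d → ℝ) | ω.1 = n} = lam' ^ n / n.factorial *
      ((Measure.pi fun _ : Fin n => volume.restrict (Box d ℓ')) {x | hc (Cb d) ⟨n, x⟩}).toReal := by
    rw [Measure.real, h2, ENNReal.toReal_mul, ENNReal.toReal_ofReal (by positivity)]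
  rw [h4]
  have h5 : MeasurableSet {x : Fin n → Fin d → ℝ | hc (Cb d) ⟨n, x⟩} :=
    (MeasurableSpace.measurableSet_iInf.1 hm) n
  have h6 : {x : Fin n → Fin d → ℝ | (∀ i, x i ∈ Box d ℓ') ∧
      ∀ i j, i ≠ j → (2 * (1 / 2 : ℝ)) ^ 2 ≤ ∑ k, (x i k - x j k) ^ 2} =
      {x : Fin n → Fin d → ℝ | hc (Cb d) ⟨n, x⟩} ∩ Set.univ.pi fun _ : Fin n => Box d ℓ' := by
    ext x
    simp only [Set.mem_ofPred_eq, Set.mem_inter_iff, Set.mem_univ_pi, hc, Cb, not_lt]
    norm_num
    exact and_comm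
  have h7 : (Measure.pi fun _ : Fin n => (volume : Measure (Fin d → ℝ)).restrict (Box d ℓ')) =
      (volume : Measure (Fin n → Fin d → ℝ)).restrict (Set.univ.pi fun _ : Fin n => Box d ℓ') :=
    (Measure.restrict_pi_pi (fun _ : Fin n => (volume : Measure (Fin d → ℝ)))
      (fun _ => Box d ℓ')).symm
  unfold Z
  rw [h6, h7, Measure.restrict_apply h5]
  simp only [Finset.sum_const_zero, Real.exp_zero, integral_const, smul_eq_mul, mul_one]
  rw [measureReal_restrict_apply_univ, Measure.real]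
  ring

end Pool.Agent.HdGas
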