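import Pool.Agent.Lib.NT.Rows4

/-!
# Hard-core gases: row NUM4 (helper18)
-/

set_option autoImplicit false

namespace Pool.Agent.HdGas

open Filter Topology

namespace Num4

theorem kap_def (d : ℕ) : kap d = (√3 / 2) ^ d := rfl

theorem kap_pos (d : ℕ) : 0 < kap d := by
  rw [kap_def]
  positivity

theorem sqrt3_lt : √3 < 2 := by
  rw [Real.sqrt_lt' (by norm_num)]
  norm_num

theorem sqrt3_gt : (1.732 : ℝ) < √3 := by
  rw [Real.lt_sqrt (by norm_num)]
  norm_num

theorem sqrt15_lt : √15 < 4 := by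
  rw [Real.sqrt_lt' (by norm_num)]
  norm_num

/-- `n ^ k * r ^ n` tends to zero. -/
theorem tz (k : ℕ) {r : ℝ} (h0 : 0 ≤ r) (h1 : r < 1) (A : ℝ) :
    Tendsto (fun n : ℕ => A * ((n : ℝ) ^ k * r ^ n)) atTop (𝓝 0) := by
  have h := (tendsto_pow_const_mul_const_pow_of_abs_lt_one k
    (r := r) (by rw [abs_of_nonneg h0]; exact h1)).const_mul A
  simpa using h

theorem ev (k : ℕ) {r : ℝ} (h0 : 0 ≤ r) (h1 : r < 1) (A : ℝ) {s : ℝ} (hs : 0 < s) :
    ∀ᶠ n : ℕ in atTop, A * ((n : ℝ) ^ k * r ^ n) ≤ s :=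
  ((tz k h0 h1 A).eventually (gt_mem_nhds hs)).mono fun _ h => h.le

theorem exp_nat (a : ℝ) (d : ℕ) : Real.exp (a * d) = Real.exp a ^ d := by
  rw [← Real.exp_nat_mul]
  ring_nf

theorem th_small {θ : ℝ} (h : θ < (1 - Real.log 2) / 2) : θ < 0.1535 := by
  have := Real.log_two_gt_d9
  linarith

/-- `exp (3 θ) < √3`. -/
theorem exp3 {θ : ℝ} (h : θ < 0.1535) : Real.exp (3 * θ) < √3 := by
  have h1 : Real.exp (3 * θ) < 1.732 := by
    have h2 : 3 * θ < 0.4605 := by linarith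
    refine (Real.exp_lt_exp.mpr h2).trans ?_
    have h3 := Real.exp_bound' (x := 0.4605) (by norm_num) (by norm_num) (n := 4) (by norm_num)
    refine lt_of_le_of_lt h3 ?_
    norm_num [Finset.sum_range_succ, Nat.factorial]
  exact h1.trans sqrt3_gt

end Num4

open Num4 in
theorem num4_of : NUM4 := by
  intro θ θ2 s h0 h1 h2 hs
  have hθ : θ < 0.1535 := th_small (h1.trans h2)
  have hk1 : √3 / 2 < 1 := by have := sqrt3_lt; linarith
  have hk0 : 0 ≤ √3 / 2 := by positivity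
  have hp1 : √15 / 4 < 1 := by have := sqrt15_lt; linarith
  have hp0 : 0 ≤ √15 / 4 := by positivity
  have hr1 : Real.exp (θ - θ2) < 1 := by
    rw [Real.exp_lt_one_iff]; linarith
  have hr0 : 0 ≤ Real.exp (θ - θ2) := (Real.exp_pos _).le
  have hs3 : 0 < √3 := by positivity
  have he3 : Real.exp (3 * θ) / √3 < 1 := by
    rw [div_lt_one hs3]; exact exp3 hθ
  have he30 : 0 ≤ Real.exp (3 * θ) / √3 := by positivity
  have E1 := ev 2 hk0 hk1 (40 * θ ^ 2) hs
  have E2 := ev 2 hr0 hr1 (θ * (θ + 1)) (s := 1 / 100) (by norm_num)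
  have E3 := ev 3 hk0 hk1 ((θ + 1) ^ 3) (s := 1 / 1000) (by norm_num)
  have E4 := ev 1 hp0 hp1 (θ + 1) (s := 1 / 1000) (by norm_num)
  have E5 := ev 0 he30 he3 (6 * Real.exp 5) (s := 1) (by norm_num)
  obtain ⟨d0, hd0⟩ := eventually_atTop.mp (E1.and (E2.and (E3.and (E4.and
    (E5.and (eventually_ge_atTop 1))))))
  refine ⟨d0, fun d hd => ?_⟩
  obtain ⟨e1, e2, e3, e4, e5, e6⟩ := hd0 d hd
  have hd1 : (1 : ℝ) ≤ d := by exact_mod_cast e6
  have hle : θ * d + 1 ≤ (θ + 1) * d := by nlinarith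
  have hkp := kap_pos d
  have hph0 : 0 ≤ ph d := by unfold ph; positivity
  have hph : (θ + 1) * d * ph d ≤ 1 / 1000 := by
    refine le_trans (le_of_eq ?_) e4
    unfold ph
    ring
  refine ⟨e6, ?_, ?_, ?_, ?_⟩
  · refine le_trans (le_of_eq ?_) e1
    rw [kap_def]
    ring
  · have hx : Real.exp (θ * d) * Real.exp (-(θ2 * d)) = Real.exp (θ - θ2) ^ d := by
      rw [← exp_nat, ← Real.exp_add]
      ring_nf
    calc θ * d * Real.exp (θ * d) * Real.exp (-(θ2 * d)) * (θ * d + 1)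
        = θ * d * (Real.exp (θ * d) * Real.exp (-(θ2 * d))) * (θ * d + 1) := by ring
      _ = θ * d * Real.exp (θ - θ2) ^ d * (θ * d + 1) := by rw [hx]
      _ ≤ θ * d * Real.exp (θ - θ2) ^ d * ((θ + 1) * d) := by gcongr
      _ = θ * (θ + 1) * ((d : ℝ) ^ 2 * Real.exp (θ - θ2) ^ d) := by ring
      _ ≤ 1 / 100 := e2
  · calc (θ * d + 1) ^ 3 * kap d ≤ ((θ + 1) * d) ^ 3 * kap d := by gcongr
      _ = (θ + 1) ^ 3 * ((d : ℝ) ^ 3 * (√3 / 2) ^ d) := by rw [kap_def]; ring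
      _ ≤ 1 / 1000 := e3
  · intro y hy0 hy1
    have hyp : y * ph d ≤ 1 / 1000 := by
      refine le_trans ?_ hph
      gcongr
      exact hy1.trans hle
    -- the last bound
    have hlast : 6 * (1 / 2 : ℝ) ^ d * Real.exp (3 * y + 2) ≤ kap d := by
      have hx : Real.exp (3 * y + 2) ≤ Real.exp 5 * Real.exp (3 * θ) ^ d := by
        rw [← exp_nat, ← Real.exp_add, Real.exp_le_exp]
        nlinarith
      have hk : kap d = (1 / 2 : ℝ) ^ d * √3 ^ d := by
        rw [kap_def, ← mul_pow]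
        congr 1
        ring
      have h3p : 0 < √3 ^ d := by positivity
      have e5' : 6 * Real.exp 5 * Real.exp (3 * θ) ^ d ≤ √3 ^ d := by
        have h := e5
        rw [pow_zero, one_mul, div_pow, ← mul_div_assoc, div_le_one h3p] at h
        exact h
      calc 6 * (1 / 2 : ℝ) ^ d * Real.exp (3 * y + 2)
          ≤ 6 * (1 / 2 : ℝ) ^ d * (Real.exp 5 * Real.exp (3 * θ) ^ d) := by gcongr
        _ = (1 / 2 : ℝ) ^ d * (6 * Real.exp 5 * Real.exp (3 * θ) ^ d) := by ring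
        _ ≤ (1 / 2 : ℝ) ^ d * √3 ^ d := by gcongr
        _ = kap d := hk.symm
    have hKH0 : 0 ≤ KH d y := by
      unfold KH
      positivity
    refine ⟨hKH0, ?_, hyp, hlast⟩
    unfold KH
    have hA : Real.exp (2 * (y * ph d)) ≤ 1.01 := by
      have h3 : 2 * (y * ph d) ≤ 1 / 500 := by linarith
      refine (Real.exp_le_exp.mpr h3).trans ?_
      have h4 := Real.abs_exp_sub_one_le (x := 1 / 500) (by rw [abs_of_nonneg] <;> norm_num)
      rw [abs_of_nonneg (show (0 : ℝ) ≤ 1 / 500 by norm_num)] at h4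
      have := le_abs_self (Real.exp (1 / 500) - 1)
      norm_num at *
      linarith
    have hB : 2 * (1 / 2 : ℝ) ^ d * Real.exp y ≤ kap d / 3 := by
      have : Real.exp y ≤ Real.exp (3 * y + 2) := Real.exp_le_exp.mpr (by linarith)
      have h5 : 2 * (1 / 2 : ℝ) ^ d * Real.exp y ≤
          2 * (1 / 2 : ℝ) ^ d * Real.exp (3 * y + 2) := by gcongr
      linarith
    have h6 : 2 * kap d * Real.exp (2 * (y * ph d)) ≤ 2 * kap d * 1.01 := by gcongr
    linarith

end Pool.Agent.HdGas
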