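import Pool.Agent.Lib.NT.Trip4
import Pool.Agent.Lib.NT.Varn

/-!
# Row PAIRQ: pairs of places (helper40)
-/

set_option autoImplicit false

namespace Pool.Agent.HdGas

open MeasureTheory Metric Trip

namespace Pairq

theorem mean_eq (hG : GNZ) {d : ℕ} {lam : ℝ} {L : Set (Pl d)} {K : ℕ}
    (hS : Sys volume (Cb d) L lam (bv d) K) {T : Set (Pl d)} (hT : MeasurableSet T)
    (hTL : T ⊆ L) :
    ex volume (Cb d) lam L (fun ω => (nV T ω : ℝ)) = lam * ∫ z in T, fp d lam L z := by
  rw [Vn.ex_nV hG hS hT]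
  congr 1
  have h1 : T = T ∩ L := (Set.inter_eq_left.2 hTL).symm
  conv_rhs => rw [h1, ← Measure.restrict_restrict hT, ← integral_indicator hT]
  refine integral_congr_ae (Filter.Eventually.of_forall fun p => ?_)
  by_cases hp : p ∈ T
  · simp only [Vn.iA_mem hp, mul_one, Set.indicator_of_mem hp]
    rfl
  · simp only [Vn.iA_not hp, mul_zero, Set.indicator_of_notMem hp]
    unfold ex
    simp

theorem dist2 {d : ℕ} {u x y : Pl d} (h1 : Cb d x y) (h2 : Cb d y u) :
    ∑ k, (u k - x k) ^ 2 < 4 := by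
  rw [GeobR.Cb_iff] at h1 h2
  rw [← Ovl.dist_sq, dist_comm]
  have h4 := dist_triangle (GeobR.e d x) (GeobR.e d y) (GeobR.e d u)
  have h5 : dist (GeobR.e d x) (GeobR.e d u) < 2 := by linarith
  nlinarith [dist_nonneg (x := GeobR.e d x) (y := GeobR.e d u)]

/-- All pairs. -/
def Par {d : ℕ} (u : Pl d) : Set (Pl d × Pl d) :=
  {p | p.1 ∈ {z | Cb d u z} ∧ p.2 ∈ {z | Cb d u z} ∧ Cb d p.1 p.2}

/-- Pairs with a small distance. -/
def Bd2 {d : ℕ} (u : Pl d) : Set (Pl d × Pl d) :=
  {p | Qr d (1 / 4) u p.1} ∪ {p | Qr d (1 / 4) p.1 p.2}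

theorem mBd2 {d : ℕ} (u : Pl d) : MeasurableSet (Bd2 u) := by
  refine MeasurableSet.union ?_ ?_
  · exact mQ _ measurable_const measurable_fst
  · exact mQ2 d _

theorem par_le {d : ℕ} (u : Pl d) : ((volume : Measure (Pl d)).prod volume) (Par u) ≤
    ENNReal.ofReal (2 * kap d * bv d ^ 2) := by
  have hk : 0 ≤ 2 * kap d := mul_nonneg two_pos.le (MF.Geo.kap_pos d).le
  have hb := (GeobR.bv_pos d).le
  have h := GeobR.vol_pair u {z | Cb d u z} (mball u) le_rfl
  rw [v1 u, be, ← ENNReal.ofReal_mul (mul_nonneg hk hb)] at h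
  refine h.trans (le_of_eq ?_)
  congr 1
  ring

theorem bd_le {d : ℕ} (u : Pl d) : ((volume : Measure (Pl d)).prod volume) (Par u ∩ Bd2 u) ≤
    ENNReal.ofReal (2 * (1 / 2) ^ d * bv d ^ 2) := by
  have hb := (GeobR.bv_pos d).le
  have hm : MeasurableSet {z | Qr d (1 / 4) u z} := mQ _ measurable_const measurable_id
  have h1 : Par u ∩ Bd2 u ⊆ ({z | Qr d (1 / 4) u z} ×ˢ {z | Cb d u z}) ∪
      {p : Pl d × Pl d | p.1 ∈ {z | Cb d u z} ∧ Qr d (1 / 4) p.1 p.2} := by
    rintro p ⟨hp, h | h⟩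
    · exact Or.inl ⟨h, hp.2.1⟩
    · exact Or.inr ⟨hp.1, h⟩
  have h2 : ((volume : Measure (Pl d)).prod volume)
      ({z | Qr d (1 / 4) u z} ×ˢ {z | Cb d u z}) ≤ he d * be d := by
    rw [Measure.prod_prod, v1 u]
    exact mul_le_mul_left (v2 u) _
  have h3 : ((volume : Measure (Pl d)).prod volume)
      {p : Pl d × Pl d | p.1 ∈ {z | Cb d u z} ∧ Qr d (1 / 4) p.1 p.2} ≤ he d * be d := by
    have hM : MeasurableSet {p : Pl d × Pl d | p.1 ∈ {z | Cb d u z} ∧ Qr d (1 / 4) p.1 p.2} :=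
      (measurable_fst (mball u)).inter (mQ2 d _)
    rw [Measure.prod_apply hM]
    calc ∫⁻ z, volume (Prod.mk z ⁻¹' {p : Pl d × Pl d | p.1 ∈ {z | Cb d u z} ∧
          Qr d (1 / 4) p.1 p.2})
        ≤ ∫⁻ z, {z | Cb d u z}.indicator (fun _ => he d) z := by
          refine lintegral_mono fun z => ?_
          by_cases hz : z ∈ {z | Cb d u z}
          · rw [Set.indicator_of_mem hz]
            refine le_trans (measure_mono fun q hq => ?_) (v2 z)
            exact hq.2
          · have : Prod.mk z ⁻¹' {p : Pl d × Pl d | p.1 ∈ {z | Cb d u z} ∧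
                Qr d (1 / 4) p.1 p.2} = ∅ := by
              rw [Set.eq_empty_iff_forall_notMem]
              intro q hq
              exact hz hq.1
            rw [this]
            simp
      _ = he d * be d := by rw [lintegral_indicator (mball u), setLIntegral_const, v1 u]
  refine (measure_mono h1).trans ((measure_union_le _ _).trans ((add_le_add h2 h3).trans
    (le_of_eq ?_)))
  unfold he be
  rw [← ENNReal.ofReal_mul (by positivity), ← ENNReal.ofReal_add (by positivity)
    (by positivity)]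
  congr 1
  ring

/-- The volume of a ball and of a second ball outside a third one. -/
theorem vol_out2 {d : ℕ} {u z w : Pl d} (h1 : ¬ Qr d (1 / 4) u z) (h2 : ¬ Qr d (1 / 4) z w)
    {T : Set (Pl d)} (hT : T = {x | Cb d w x} ∪ ({x | Cb d z x} \ {x | Cb d u x}))
    (hTf : volume T ≠ ⊤) : 2 * bv d - 2 * (ph d * bv d) ≤ (volume T).toReal := by
  have hb := (GeobR.bv_pos d).le
  have hp := (Ovl.ph_pos d).le
  obtain ⟨A, hA⟩ : ∃ A : Set (Pl d), A = {x | Cb d u x} := ⟨_, rfl⟩
  obtain ⟨Z, hZ⟩ : ∃ Z : Set (Pl d), Z = {x | Cb d z x} := ⟨_, rfl⟩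
  obtain ⟨W, hW⟩ : ∃ W : Set (Pl d), W = {x | Cb d w x} := ⟨_, rfl⟩
  have mA : MeasurableSet A := hA ▸ mball u
  have mZ : MeasurableSet Z := hZ ▸ mball z
  have mW : MeasurableSet W := hW ▸ mball w
  have c1 : volume (A ∩ Z) ≤ ENNReal.ofReal (ph d * bv d) := by rw [hA, hZ]; exact ovl h1
  have c2 : volume (Z ∩ W) ≤ ENNReal.ofReal (ph d * bv d) := by rw [hZ, hW]; exact ovl h2
  have b1 : volume W = be d := by rw [hW]; exact v1 w
  have b2 : volume Z = be d := by rw [hZ]; exact v1 z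
  obtain ⟨o, ho⟩ : ∃ o : ENNReal, o = ENNReal.ofReal (ph d * bv d) := ⟨_, rfl⟩
  rw [← ho] at c1 c2
  have s1 : be d ≤ volume (Z \ (A ∪ W)) + (o + o) := by
    rw [← b2]
    refine (measure_mono (t := (Z \ (A ∪ W)) ∪ ((A ∩ Z) ∪ (Z ∩ W))) fun x hx => ?_).trans
      ((measure_union_le _ _).trans (add_le_add le_rfl
        ((measure_union_le _ _).trans (add_le_add c1 c2))))
    by_cases h : x ∈ A
    · exact Or.inr (Or.inl ⟨h, hx⟩)
    · by_cases h' : x ∈ W
      · exact Or.inr (Or.inr ⟨hx, h'⟩)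
      · exact Or.inl ⟨hx, fun h'' => h''.elim h h'⟩
  have s2 : volume W + volume (Z \ (A ∪ W)) ≤ volume T := by
    have d1 : Disjoint W (Z \ (A ∪ W)) := by
      rw [Set.disjoint_left]
      exact fun x h h' => h'.2 (Or.inr h)
    rw [← measure_union d1 (mZ.diff (mA.union mW))]
    refine measure_mono fun x hx => ?_
    rw [hT, ← hA, ← hZ, ← hW]
    rcases hx with h | h
    · exact Or.inl h
    · exact Or.inr ⟨h.1, fun h' => h.2 (Or.inl h')⟩
  have s3 : be d + be d ≤ volume T + (o + o) := by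
    calc be d + be d ≤ volume W + (volume (Z \ (A ∪ W)) + (o + o)) := by
          rw [b1]
          exact add_le_add le_rfl s1
      _ = (volume W + volume (Z \ (A ∪ W))) + (o + o) := by abel
      _ ≤ _ := add_le_add s2 le_rfl
  rw [← ENNReal.ofReal_toReal hTf, ho, be, ← ENNReal.ofReal_add (by positivity) (by positivity),
    ← ENNReal.ofReal_add (by positivity) (by positivity),
    ← ENNReal.ofReal_add (by positivity) (by positivity),
    ENNReal.ofReal_le_ofReal_iff (by positivity)] at s3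
  linarith

end Pairq

open Pairq in
/-- Row PAIRQ. -/
theorem pairq_of (hE : EMP) (hG : GNZ) : PAIRQ := by
  classical
  intro d hd ε lam hε hFT hlam hlt L hL u c1 hc1 hx
  obtain ⟨hGeo, hSys', hPos'⟩ := reg4_of d hd L hL
  obtain ⟨K, hSys⟩ := hSys' lam hlam
  have hPos := hPos' ε hε hFT
  have hLm := hSys.measL
  have hLf := hSys.fin
  have hb := GeobR.bv_pos d
  have hph := (Ovl.ph_pos d).le
  have hkap : 0 ≤ kap d := (MF.Geo.kap_pos d).le
  obtain ⟨τ, hτ⟩ : ∃ τ : ℝ, τ = lam * bv d * ε := ⟨_, rfl⟩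
  have hτ0 : 0 ≤ τ := by rw [hτ]; positivity
  have hτ1 : 0 ≤ 1 - τ := by rw [hτ]; linarith
  obtain ⟨P1, hP1⟩ : ∃ P1 : ℝ, P1 = Real.exp (-(2 * ((1 - τ) * c1)) + 2 * (c1 * ph d)) :=
    ⟨_, rfl⟩
  obtain ⟨P2, hP2⟩ : ∃ P2 : ℝ, P2 = Real.exp (-(2 * ((1 - τ) * c1)) + c1) := ⟨_, rfl⟩
  have hP10 : 0 < P1 := hP1 ▸ Real.exp_pos _
  have hP20 : 0 < P2 := hP2 ▸ Real.exp_pos _
  have mset : MeasurableSet {p : Pl d × Pl d | (p.1 ∈ L ∧ Cb d u p.1) ∧
      (p.2 ∈ L ∧ Cb d u p.2) ∧ Cb d p.1 p.2} := by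
    refine MeasurableSet.inter ((measurable_fst hLm).inter ?_)
      (MeasurableSet.inter ((measurable_snd hLm).inter ?_) ?_)
    · exact mC measurable_const measurable_fst
    · exact mC measurable_const measurable_snd
    · exact mC measurable_fst measurable_snd
  have hsub : {p : Pl d × Pl d | (p.1 ∈ L ∧ Cb d u p.1) ∧
      (p.2 ∈ L ∧ Cb d u p.2) ∧ Cb d p.1 p.2} ⊆ Par u := by
    rintro p ⟨⟨-, h1⟩, ⟨-, h2⟩, h3⟩
    exact ⟨h1, h2, h3⟩
  calc _ ≤ ∫⁻ t in {p : Pl d × Pl d | (p.1 ∈ L ∧ Cb d u p.1) ∧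
        (p.2 ∈ L ∧ Cb d u p.2) ∧ Cb d p.1 p.2},
        (ENNReal.ofReal P1 + (Bd2 u).indicator (fun _ => ENNReal.ofReal P2) t)
          ∂((volume : Measure (Pl d)).prod volume) := by
        refine setLIntegral_mono' mset fun t ht => ?_
        obtain ⟨z, w⟩ := t
        obtain ⟨⟨-, h1⟩, ⟨-, h2⟩, h3⟩ := ht
        simp only at h1 h2 h3
        obtain ⟨T, hT⟩ : ∃ T : Set (Pl d),
          T = {x | Cb d w x} ∪ ({x | Cb d z x} \ {x | Cb d u x}) := ⟨_, rfl⟩
        have mT : MeasurableSet T := by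
          rw [hT]
          exact (mball w).union ((mball z).diff (mball u))
        have hTd : ∀ x ∈ T, ∑ k, (u k - x k) ^ 2 < 4 := by
          intro x hxT
          rw [hT] at hxT
          rcases hxT with h | h
          · exact dist2 (GeobR.Cb_symm _ _ h) (GeobR.Cb_symm _ _ h2)
          · exact dist2 (GeobR.Cb_symm _ _ h.1) (GeobR.Cb_symm _ _ h1)
        have hTL : T ⊆ L := fun x hxT => (hx x (hTd x hxT)).1
        have hTf : volume T ≠ ⊤ := ne_top_of_le_ne_top hLf (measure_mono hTL)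
        have hlow := low (c := c1) hlam hLm hLf mT hTf (fun x hxT => (hx x (hTd x hxT)).2)
        have hemp := hE (Pl d) volume (Cb d) L (bv d) ε lam K hSys hε hPos hlt T mT
        rw [mean_eq hG hSys mT hTL, ← hτ] at hemp
        obtain ⟨E1, hE1⟩ : ∃ E1 : ℝ, E1 = lam * ∫ x in T, fp d lam L x := ⟨_, rfl⟩
        rw [← hE1] at hlow hemp
        have hemp' : ex volume (Cb d) lam L (emv T) ≤ Real.exp (-((1 - τ) * E1)) := hemp
        show ENNReal.ofReal (ex volume (Cb d) lam L (emv ({x | Cb d w x} ∪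
          ({x | Cb d z x} \ {x | Cb d u x})))) ≤ _
        rw [← hT]
        by_cases hbad : (z, w) ∈ Bd2 u
        · rw [Set.indicator_of_mem hbad]
          refine le_trans (ENNReal.ofReal_le_ofReal (hemp'.trans ?_)) le_add_self
          rw [hP2, Real.exp_le_exp]
          have h5 : bv d ≤ (volume T).toReal := by
            have h6 : be d ≤ volume T := by
              rw [← v1 w]
              refine measure_mono fun x hxw => ?_
              rw [hT]
              exact Or.inl hxw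
            rw [be] at h6
            exact (ENNReal.ofReal_le_iff_le_toReal hTf).1 h6
          have h7 : c1 ≤ E1 := by
            refine le_trans ?_ hlow
            rw [div_mul_eq_mul_div, le_div_iff₀ hb]
            exact mul_le_mul_of_nonneg_left h5 hc1
          nlinarith [mul_le_mul_of_nonneg_left h7 hτ1, mul_nonneg hτ0 hc1]
        · rw [Set.indicator_of_notMem hbad, add_zero]
          refine ENNReal.ofReal_le_ofReal (hemp'.trans ?_)
          rw [hP1, Real.exp_le_exp]
          have n1 : ¬ Qr d (1 / 4) u z := fun h => hbad (Or.inl h)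
          have n2 : ¬ Qr d (1 / 4) z w := fun h => hbad (Or.inr h)
          have h5 := vol_out2 n1 n2 hT hTf
          have h7 : (2 - 2 * ph d) * c1 ≤ E1 := by
            refine le_trans ?_ hlow
            rw [div_mul_eq_mul_div, le_div_iff₀ hb]
            have := mul_le_mul_of_nonneg_left h5 hc1
            linarith
          nlinarith [mul_le_mul_of_nonneg_left h7 hτ1, mul_nonneg hτ0 (mul_nonneg hph hc1)]
    _ ≤ ∫⁻ t in Par u, (ENNReal.ofReal P1 + (Bd2 u).indicator (fun _ => ENNReal.ofReal P2) t)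
          ∂((volume : Measure (Pl d)).prod volume) := lintegral_mono_set hsub
    _ = ENNReal.ofReal P1 * ((volume : Measure (Pl d)).prod volume) (Par u) +
        ENNReal.ofReal P2 * ((volume : Measure (Pl d)).prod volume) (Par u ∩ Bd2 u) := by
        rw [lintegral_add_left measurable_const, setLIntegral_const,
          lintegral_indicator (mBd2 u), setLIntegral_const, Measure.restrict_apply (mBd2 u),
          Set.inter_comm (Bd2 u)]
    _ ≤ ENNReal.ofReal P1 * ENNReal.ofReal (2 * kap d * bv d ^ 2) +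
        ENNReal.ofReal P2 * ENNReal.ofReal (2 * (1 / 2) ^ d * bv d ^ 2) :=
        add_le_add (mul_le_mul_right (par_le u) _) (mul_le_mul_right (bd_le u) _)
    _ = ENNReal.ofReal (bv d ^ 2 * (Real.exp (-(2 * ((1 - lam * bv d * ε) * c1))) *
          KH d c1)) := by
        rw [← ENNReal.ofReal_mul hP10.le, ← ENNReal.ofReal_mul hP20.le,
          ← ENNReal.ofReal_add (by positivity) (by positivity)]
        congr 1
        rw [hP1, hP2, Real.exp_add, Real.exp_add, ← hτ]
        unfold KH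
        ring

end Pool.Agent.HdGas
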