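import Pool.Agent.Lib.NT.Rows3

/-!
# Mean field theory up to the negative part of the Fourier transform: rows
-/

set_option autoImplicit false

namespace Pool.Agent.HdGas

open MeasureTheory Filter Topology Pool.Agent.SquareWellGas Pool.Agent.KacGas Pool.Agent.VdwGas

noncomputable section

/-! ## Definitions -/

/-- The probability that the place `u` is free, in the region `L`. -/
def fp (d : ℕ) (lam : ℝ) (L : Set (Fin d → ℝ)) (u : Fin d → ℝ) : ℝ :=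
  ex volume (Cb d) lam L (chi (Cb d) (Al (Fin d → ℝ)) u)

/-- A cube with centre `u`. -/
def Cube (d : ℕ) (R : ℝ) (u : Fin d → ℝ) : Set (Fin d → ℝ) := {x | ∀ k, |x k - u k| ≤ R}

/-- Bounded measurable regions. -/
def Reg (d : ℕ) (L : Set (Fin d → ℝ)) : Prop := MeasurableSet L ∧ ∃ ℓ : ℝ, ∀ x ∈ L, ∀ k, |x k| ≤ ℓ

/-- `(15/16)^(d/2)`. -/
def ph (d : ℕ) : ℝ := (√15 / 4) ^ d

/-- Pairs of places which exclude each other and are near a third one. -/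
def KH (d : ℕ) (y : ℝ) : ℝ :=
  2 * kap d * Real.exp (2 * (y * ph d)) + 2 * (1 / 2) ^ d * Real.exp y

open Classical in
/-- Indicator of the event that there is no point in `A`. -/
def emv {S : Type} (A : Set S) (ω : Om S) : ℝ := if nV A ω = 0 then 1 else 0

/-! ## (A) Abstract rows -/

/-- Free probabilities in two regions. -/
def ABULK : Prop := ∀ (S : Type) [MeasurableSpace S] (m : Measure S) [SigmaFinite m]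
  (C : S → S → Prop) (L M : Set S) (lam b ε : ℝ) (K : ℕ), Sys m C L lam b K → 0 ≤ ε →
  Posi m C L b ε → MeasurableSet M → M ⊆ L → ∀ (φ : S → ℝ) (s : ℝ), Measurable φ →
  (∃ B, ∀ x, |φ x| ≤ B) → (∀ x y, C x y → |φ x - φ y| ≤ s) →
  0 < 1 - lam * b * (ε + (Real.cosh s - 1)) → ∀ v : S, (∀ x, C v x → φ x = 0) → ∀ J : ℝ,
  lam * ∫ x in L \ M, Real.exp (-(2 * φ x)) ∂m ≤ J →
    |ex m C lam L (chi C (Al S) v) - ex m C lam M (chi C (Al S) v)| ≤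
      2 * ((1 - lam * b * (ε + (Real.cosh s - 1)))⁻¹ * (√(lam * b) * √J))

/-- Lower bound for the free probability. -/
def FREEV : Prop := ∀ (S : Type) [MeasurableSpace S] (m : Measure S) [SigmaFinite m]
  (C : S → S → Prop) (L : Set S) (b κ lam : ℝ), Geo m C L b κ → 0 ≤ lam → ∀ (u : S) (q : ℝ),
  0 ≤ q →
  ∫⁻ p in {p : S × S | (p.1 ∈ L ∧ C u p.1) ∧ (p.2 ∈ L ∧ C u p.2) ∧ C p.1 p.2},
    ENNReal.ofReal (ex m C lam L (emv ({x | C p.2 x} ∪ ({x | C p.1 x} \ {x | C u x}))))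
      ∂(m.prod m) ≤ ENNReal.ofReal q →
    Real.exp (-(lam * (∫ z in {z | z ∈ L ∧ C u z}, ex m C lam L (chi C (Al S) z) ∂m) +
      lam ^ 2 * q)) ≤ ex m C lam L (chi C (Al S) u)

/-- Laplace functional. -/
def EMPW : Prop := ∀ (S : Type) [MeasurableSpace S] (m : Measure S) [SigmaFinite m]
  (C : S → S → Prop) (L : Set S) (b ε lam : ℝ) (K : ℕ), Sys m C L lam b K → 0 ≤ ε →
  Posi m C L b ε → lam * b * ε < 1 → ∀ α : S → ℝ, U01 α →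
    ex m C lam L (fun ω => ∏ i, α (ω.2 i)) ≤ Real.exp (-((1 - lam * b * ε) *
      (lam * ∫ z in L, (1 - α z) * ex m C lam L (chi C (Al S) z) ∂m)))

open Classical in
/-- Activity `a` in `A` and one outside. -/
def inA {S : Type} (A : Set S) (a : ℝ) : S → ℝ := fun x => if x ∈ A then a else 1

/-- `λ` times the free volume in `A`. -/
def YA {S : Type} [MeasurableSpace S] (m : Measure S) (C : S → S → Prop) (lam : ℝ) (L A : Set S)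
    (ω : Om S) : ℝ := lam * ∫ z in L ∩ A, chi C (Al S) z ω ∂m

/-- Upper bound for the probability of no point in `A`, in terms of variances. -/
def VLOW : Prop := ∀ (S : Type) [MeasurableSpace S] (m : Measure S) [SigmaFinite m]
  (C : S → S → Prop) (L : Set S) (b lam : ℝ) (K : ℕ), Sys m C L lam b K →
  ∀ A : Set S, MeasurableSet A → ∀ V : ℝ, (∀ a : ℝ, 0 < a → a ≤ 1 →
    ex (md m (inA A a)) C lam L (fun ω => YA m C lam L A ω ^ 2) -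
      ex (md m (inA A a)) C lam L (YA m C lam L A) ^ 2 ≤ V) →
    ex m C lam L (emv A) ≤
      Real.exp (-(lam * ∫ z in L ∩ A, ex m C lam L (chi C (Al S) z) ∂m) + V / 2)

/-- Bound for the variances. -/
def VARY : Prop := ∀ (S : Type) [MeasurableSpace S] (m : Measure S) [SigmaFinite m]
  (C : S → S → Prop) (L : Set S) (b ε lam : ℝ) (K : ℕ), Sys m C L lam b K → 0 ≤ ε →
  Posi m C L b ε → lam * b * ε < 1 → ∀ A : Set S, MeasurableSet A → ∀ a : ℝ, 0 < a → a ≤ 1 →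
  ∀ q : ℝ, 0 ≤ q →
  ∫⁻ p in {p : S × S × S | p.1 ∈ L ∧ (p.2.1 ∈ L ∧ p.2.1 ∈ A ∧ C p.1 p.2.1) ∧
      (p.2.2 ∈ L ∧ p.2.2 ∈ A ∧ C p.1 p.2.2)},
    ENNReal.ofReal (ex (md m (inA A a)) C lam L
      (emv ({x | C p.1 x} ∪ {x | C p.2.1 x} ∪ {x | C p.2.2 x}))) ∂(m.prod (m.prod m)) ≤
      ENNReal.ofReal q →
    (1 - lam * b * ε) * (ex (md m (inA A a)) C lam L (fun ω => YA m C lam L A ω ^ 2) -
      ex (md m (inA A a)) C lam L (YA m C lam L A) ^ 2) ≤ lam ^ 3 * q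

/-- The probability of no point in `T`, with a smaller activity in `A`. -/
def PA4 : Prop := ∀ (S : Type) [MeasurableSpace S] (m : Measure S) [SigmaFinite m]
  (C : S → S → Prop) (L : Set S) (b ε lam : ℝ) (K : ℕ), Sys m C L lam b K → 0 ≤ ε →
  Posi m C L b ε → 2 * (lam * b * ε) ≤ 1 → ∀ A T : Set S, MeasurableSet A → MeasurableSet T →
  ∀ a : ℝ, 0 < a → a ≤ 1 →
    ex (md m (inA A a)) C lam L (emv T) * ex m C lam L (emv A) ≤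
      Real.exp (-((1 - lam * b * ε) *
        (lam * ∫ z in L ∩ (T \ A), ex m C lam L (chi C (Al S) z) ∂m) +
        (1 - 2 * (lam * b * ε)) * (lam * ∫ z in L ∩ A, ex m C lam L (chi C (Al S) z) ∂m)))

/-! ## (B) Spheres of diameter one -/

/-- Bounded regions. -/
def REG4 : Prop := ∀ d : ℕ, 1 ≤ d → ∀ L : Set (Fin d → ℝ), Reg d L →
  Geo volume (Cb d) L (bv d) (kap d) ∧
  (∀ lam : ℝ, 0 ≤ lam → ∃ K : ℕ, Sys volume (Cb d) L lam (bv d) K) ∧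
  ∀ ε : ℝ, 0 ≤ ε → FT d ε → Posi volume (Cb d) L (bv d) ε

/-- Translations. -/
def TRANS4 : Prop := ∀ d : ℕ, 1 ≤ d → ∀ lam R : ℝ, 0 ≤ lam → 0 ≤ R → ∀ u : Fin d → ℝ,
  Reg d (Cube d R u) ∧ fp d lam (Cube d R u) u = fp d lam (Cube d R 0) 0

/-- The local density far from the complement of the region. -/
def BULK : Prop := ∀ d : ℕ, 1 ≤ d → ∀ ε lam0 : ℝ, 0 ≤ ε → FT d ε → 0 ≤ lam0 →
  lam0 * bv d * ε < 1 → ∀ η : ℝ, 0 < η → ∃ R : ℝ, 0 < R ∧ ∀ lam : ℝ, 0 ≤ lam → lam ≤ lam0 →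
  ∀ L : Set (Fin d → ℝ), Reg d L → ∀ u : Fin d → ℝ, Cube d R u ⊆ L →
    |fp d lam L u - fp d lam (Cube d R 0) 0| ≤ η

/-- Overlap of two balls, and a small ball. -/
def OVL : Prop := ∀ d : ℕ, 1 ≤ d → 0 < bv d ∧ 0 < ph d ∧ ph d ≤ 1 ∧
  (∀ x : Fin d → ℝ, volume {z | Cb d x z} = ENNReal.ofReal (bv d)) ∧
  (∀ x : Fin d → ℝ, volume {z : Fin d → ℝ | ∑ k, (x k - z k) ^ 2 < 1 / 4} ≤
    ENNReal.ofReal ((1 / 2) ^ d * bv d)) ∧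
  ∀ x y : Fin d → ℝ, 1 / 4 ≤ ∑ k, (x k - y k) ^ 2 →
    volume {z | Cb d x z ∧ Cb d y z} ≤ ENNReal.ofReal (ph d * bv d)

/-- Pairs of places. -/
def PAIRQ : Prop := ∀ d : ℕ, 1 ≤ d → ∀ ε lam : ℝ, 0 ≤ ε → FT d ε → 0 ≤ lam →
  lam * bv d * ε < 1 → ∀ L : Set (Fin d → ℝ), Reg d L → ∀ (u : Fin d → ℝ) (c1 : ℝ), 0 ≤ c1 →
  (∀ x : Fin d → ℝ, ∑ k, (u k - x k) ^ 2 < 4 → x ∈ L ∧ c1 ≤ lam * bv d * fp d lam L x) →
  ∫⁻ p in {p : (Fin d → ℝ) × (Fin d → ℝ) | (p.1 ∈ L ∧ Cb d u p.1) ∧ (p.2 ∈ L ∧ Cb d u p.2) ∧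
      Cb d p.1 p.2},
    ENNReal.ofReal (ex volume (Cb d) lam L
      (emv ({x | Cb d p.2 x} ∪ ({x | Cb d p.1 x} \ {x | Cb d u x})))) ∂(volume.prod volume) ≤
    ENNReal.ofReal (bv d ^ 2 * (Real.exp (-(2 * ((1 - lam * bv d * ε) * c1))) * KH d c1))

/-- The self-consistency inequalities at a place. -/
def CORE4 : Prop := ∀ d : ℕ, 1 ≤ d → ∀ ε lam : ℝ, 0 ≤ ε → FT d ε → 0 ≤ lam →
  lam * bv d * ε < 1 → ∀ L : Set (Fin d → ℝ), Reg d L → ∀ (u : Fin d → ℝ) (η y D : ℝ),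
  0 ≤ η → y = lam * bv d * fp d lam L u → D = -Real.log (fp d lam L u) - y →
  (∀ x : Fin d → ℝ, ∑ k, (u k - x k) ^ 2 < 4 → x ∈ L ∧ |lam * bv d * fp d lam L x - y| ≤ η) →
    -(lam * bv d * ε * y + η) ≤ D ∧
    D ≤ η + y ^ 2 * Real.exp (2 * D + 2 * (lam * bv d * ε * y) + 2 * η) * KH d y

/-- Continuity in the activity. -/
def CONT4 : Prop := ∀ d : ℕ, 1 ≤ d → ∀ L : Set (Fin d → ℝ), Reg d L → ∀ u : Fin d → ℝ,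
  ContinuousOn (fun lam => fp d lam L u) (Set.Ici 0) ∧ fp d 0 L u = 1 ∧
    ∀ lam : ℝ, 0 ≤ lam → 0 < fp d lam L u ∧ fp d lam L u ≤ 1

/-- Bootstrap in the activity (`t = lam b`). -/
def BOOT4 : Prop := ∀ (c0 k ε η : ℝ) (p KK : ℝ → ℝ), 0 ≤ c0 → 0 ≤ k → 0 ≤ ε → 0 ≤ η →
  η ≤ 1 / 100 → c0 * Real.exp c0 * ε * (c0 + 1) ≤ 1 / 100 → (c0 + 1) ^ 3 * k ≤ 1 / 1000 →
  (∀ y, 0 ≤ y → y ≤ c0 + 1 → 0 ≤ KK y ∧ KK y ≤ 3 * k) →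
  ContinuousOn p (Set.Icc 0 (c0 * Real.exp c0)) → p 0 = 1 →
  (∀ t, 0 ≤ t → t ≤ c0 * Real.exp c0 → 0 < p t ∧ p t ≤ 1 ∧ ∀ y D : ℝ, y = t * p t →
    D = -Real.log (p t) - y → -(t * ε * y + η) ≤ D ∧
      D ≤ η + y ^ 2 * Real.exp (2 * D + 2 * (t * ε * y) + 2 * η) * KK y) →
  ∀ t c : ℝ, 0 ≤ c → c ≤ c0 → c * Real.exp c = t →
    t * p t ≤ c0 + 1 ∧ -Real.log (p t) - t * p t < 1 / 2 ∧
    c - t * p t ≤ 9 * (c ^ 3 * k) + η ∧ t * p t - c ≤ t * ε * (t * p t) + η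

/-- Triples of places: the lower bound for `D`. -/
def TRIP4 : Prop := ∀ d : ℕ, 1 ≤ d → ∀ ε lam : ℝ, 0 ≤ ε → FT d ε → 0 ≤ lam →
  2 * (lam * bv d * ε) ≤ 1 → ∀ L : Set (Fin d → ℝ), Reg d L → ∀ (u : Fin d → ℝ) (η y D : ℝ),
  0 ≤ η → y = lam * bv d * fp d lam L u → D = -Real.log (fp d lam L u) - y →
  (∀ x : Fin d → ℝ, ∑ k, (u k - x k) ^ 2 < 9 → x ∈ L ∧ |lam * bv d * fp d lam L x - y| ≤ η) →
    -(η + y ^ 3 * (3 * kap d *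
      Real.exp (4 * D + 5 * (lam * bv d * ε * y) + 4 * η + 6 * (y * ph d)) +
      6 * (1 / 2) ^ d * Real.exp (3 * y + 3 * D))) ≤ D

/-- The Fourier transform of the ball. -/
def PHI8 : Prop := ∀ θ : ℝ, θ < (1 - Real.log 2) / 2 → ∃ d1 : ℕ, ∀ d : ℕ, d1 ≤ d →
  ∀ s : ℝ, 0 ≤ s → -Real.exp (-(θ * (d : ℝ))) ≤ Phi d s

/-- Numerical bounds. -/
def NUM4 : Prop := ∀ θ θ2 s : ℝ, 0 < θ → θ < θ2 → θ2 < (1 - Real.log 2) / 2 → 0 < s →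
  ∃ d0 : ℕ, ∀ d : ℕ, d0 ≤ d → 1 ≤ d ∧ 40 * kap d * (θ * d) ^ 2 ≤ s ∧
    θ * d * Real.exp (θ * d) * Real.exp (-(θ2 * d)) * (θ * d + 1) ≤ 1 / 100 ∧
    (θ * d + 1) ^ 3 * kap d ≤ 1 / 1000 ∧
    ∀ y : ℝ, 0 ≤ y → y ≤ θ * d + 1 → 0 ≤ KH d y ∧ KH d y ≤ 3 * kap d ∧ y * ph d ≤ 1 / 1000 ∧
      6 * (1 / 2) ^ d * Real.exp (3 * y + 2) ≤ kap d

/-- The local density. -/
def LOC4 : Prop := ∀ θ : ℝ, 0 < θ → θ < (1 - Real.log 2) / 2 → ∃ d0 : ℕ, ∀ d : ℕ, d0 ≤ d →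
  1 ≤ d ∧ ∀ lam c : ℝ, 0 ≤ lam → 0 ≤ c → c * Real.exp c = lam * bv d → c ≤ θ * d →
  ∀ δ : ℝ, 0 < δ → ∃ R : ℝ, ∀ L : Set (Fin d → ℝ), Reg d L → ∀ u : Fin d → ℝ,
    Cube d R u ⊆ L → |lam * bv d * fp d lam L u - c| ≤ 40 * (c ^ 3 * kap d) + δ

/-! ## (C) Pressure and free energy -/

/-- From the local density to the mean number of points. -/
def MEAN4 : Prop := ∀ d : ℕ, 1 ≤ d → ∀ lam c G : ℝ, 0 ≤ lam → 0 ≤ c → 0 ≤ G →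
  (∀ δ : ℝ, 0 < δ → ∃ R : ℝ, ∀ L : Set (Fin d → ℝ), Reg d L → ∀ u : Fin d → ℝ,
    Cube d R u ⊆ L → |lam * bv d * fp d lam L u - c| ≤ G + δ) →
  ∀ δ : ℝ, 0 < δ → ∀ᶠ ℓ : ℝ in atTop,
    |bv d * ex volume (Cb d) lam (Box d ℓ) (fun ω => (ω.1 : ℝ)) / ℓ ^ d - c| ≤ G + δ

/-- Slopes of the pressure. -/
def SLOPE4 : Prop := ∀ d : ℕ, 1 ≤ d → ∀ P : ℝ → ℝ, IsPr d P → ∀ μ c G : ℝ,
  (∀ δ : ℝ, 0 < δ → ∀ᶠ ℓ : ℝ in atTop,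
    |bv d * ex volume (Cb d) (Real.exp μ) (Box d ℓ) (fun ω => (ω.1 : ℝ)) / ℓ ^ d - c| ≤
      G + δ) →
  ∀ h : ℝ, h * c - |h| * G ≤ bv d * (P (μ + h) - P μ)

/-- Integration of the slopes. -/
def INTEG4 : Prop := ∀ (b A c0 : ℝ) (P : ℝ → ℝ), 0 < b → 0 ≤ A →
  (∀ μ, 0 ≤ P μ ∧ P μ ≤ Real.exp μ) →
  (∀ μ c : ℝ, 0 ≤ c → c * Real.exp c = Real.exp μ * b → c ≤ c0 → ∀ h : ℝ,
    h * c - |h| * (A * c ^ 3) ≤ b * (P (μ + h) - P μ)) →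
  ∀ μ c : ℝ, 0 ≤ c → c * Real.exp c = Real.exp μ * b → c ≤ c0 →
    |b * P μ - (c + c ^ 2 / 2)| ≤ A * (c ^ 3 / 3 + c ^ 4 / 4)

/-- Densities at a chemical potential. -/
def DENS4 : Prop := ∀ (b A c0 r : ℝ) (P f : ℝ → ℝ), 0 < b → 0 ≤ A →
  (∀ μ c : ℝ, 0 ≤ c → c * Real.exp c = Real.exp μ * b → c ≤ c0 → ∀ h : ℝ,
    h * c - |h| * (A * c ^ 3) ≤ b * (P (μ + h) - P μ)) →
  (∀ μ : ℝ, (∀ x ∈ Set.Ioo 0 r, f x + μ * x ≤ P μ) ∧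
    ∀ δ : ℝ, 0 < δ → ∃ x ∈ Set.Ioo 0 r, P μ - δ ≤ f x + μ * x) →
  ∀ μ c ρ : ℝ, 0 ≤ c → c * Real.exp c = Real.exp μ * b → c < c0 → ρ ∈ Set.Ioo 0 r →
    (∀ x ∈ Set.Ioo 0 r, f x + μ * x ≤ f ρ + μ * ρ) → |ρ * b - c| ≤ A * c ^ 3

/-- Free energy. -/
def FREE4 : Prop := ∀ (b A c0 r s : ℝ) (P f : ℝ → ℝ), 0 < b → 0 ≤ A → 0 < c0 → 0 < r →
  0 < s → s ≤ 1 / 50 → A * c0 ^ 2 ≤ s / 2 → (∀ μ, 0 ≤ P μ ∧ P μ ≤ Real.exp μ) →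
  (∀ μ c : ℝ, 0 ≤ c → c * Real.exp c = Real.exp μ * b → c ≤ c0 → ∀ h : ℝ,
    h * c - |h| * (A * c ^ 3) ≤ b * (P (μ + h) - P μ)) →
  (∀ μ : ℝ, (∀ x ∈ Set.Ioo 0 r, f x + μ * x ≤ P μ) ∧
    ∀ δ : ℝ, 0 < δ → ∃ x ∈ Set.Ioo 0 r, P μ - δ ≤ f x + μ * x) →
  ConcaveOn ℝ (Set.Ioo 0 r) f →
  ∀ ρ x : ℝ, 0 < ρ → x = ρ * b → x ≤ (1 - s) * c0 → ρ < r ∧
    |b * f ρ - (x - x * Real.log ρ - x ^ 2 / 2)| ≤ A * (x ^ 3 * (1 + x)) ∧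
    ∃ μ c : ℝ, 0 ≤ c ∧ c < c0 ∧ c * Real.exp c = Real.exp μ * b ∧
      ∀ y ∈ Set.Ioo 0 r, f y + μ * y ≤ f ρ + μ * ρ

/-- Mean number of spheres of radius `a` in the cube at the activity `lam`. -/
def Nb (d : ℕ) (a lam ℓ : ℝ) : ℝ := (∑' n : ℕ, n * (lam ^ n * Z d a (fun _ => 0) ℓ n)) /
  ∑' n : ℕ, lam ^ n * Z d a (fun _ => 0) ℓ n

/-- The mean number as a quotient of series. -/
def MEANZ : Prop := ∀ d : ℕ, 1 ≤ d → ∀ a lam ℓ : ℝ, 0 < a → 0 ≤ lam → 0 < ℓ →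
  Nb d a lam ℓ =
    ex volume (Cb d) (lam * (2 * a) ^ d) (Box d (ℓ / (2 * a))) (fun ω => (ω.1 : ℝ))

/-- The theorem. -/
def MFTHM4 : Prop := ∀ θ : ℝ, 0 < θ → θ < (1 - Real.log 2) / 2 → ∃ d0 : ℕ, ∀ d : ℕ, d0 ≤ d →
  ∀ a : ℝ, 0 < a →
  (∀ lam c : ℝ, 0 ≤ lam → 0 ≤ c → c * Real.exp c = lam * ball d a → c ≤ θ * d →
    ∀ δ : ℝ, 0 < δ → ∀ᶠ ℓ : ℝ in atTop,
      |ball d a * Nb d a lam ℓ / ℓ ^ d - c| ≤ 40 * (c ^ 3 * (√3 / 2) ^ d) + δ) ∧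
  ∃ (f : ℝ → ℝ) (ρ₀ : ℝ), IsF d a (fun _ => 0) f ρ₀ ∧ θ * d < ρ₀ * ball d a ∧
    ∀ ρ x : ℝ, 0 < ρ → x = ρ * ball d a → x ≤ θ * d → ρ < ρ₀ ∧ AnalyticAt ℝ f ρ ∧
      |ball d a * f ρ - (x - x * Real.log ρ - x ^ 2 / 2)| ≤
        40 * (x ^ 3 * (1 + x) * (√3 / 2) ^ d)

end

end Pool.Agent.HdGas
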