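import Pool.Agent.Lib.NT.Phi7
import Pool.Agent.Lib.NT.Rows4

/-!
# Row PHI8 (helper72): `Φ ≥ -e^(-θ d)` for every `θ < (1 - log 2)/2` in high dimension

With `w = S/C = -Φ'/Φ` one has `S ≥ w* C`, `w* = 2s/(D + √(D² - 4s²))`, `D = d + 1 + k`, as long as
`√(D² - 4s²) ≥ D/k`.
-/

set_option autoImplicit false

namespace Pool.Agent.MF.Fou

open Set Real

noncomputable section

namespace Ph8

variable {d : ℕ} {C S K : ℝ → ℝ}

/-- the root. -/
def R (D s : ℝ) : ℝ := √(D ^ 2 - 4 * s ^ 2)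

/-- the lower bound for `-Φ'/Φ`. -/
def w (D s : ℝ) : ℝ := 2 * s / (D + R D s)

/-- its primitive. -/
def W (D s : ℝ) : ℝ := D / 2 - R D s / 2 + D / 2 * (log (D + R D s) - log (2 * D))

theorem R_sq {D s : ℝ} (h : 0 < R D s) : R D s ^ 2 = D ^ 2 - 4 * s ^ 2 := by
  unfold R at *
  exact Real.sq_sqrt (Real.sqrt_pos.1 h).le

theorem hR {D s : ℝ} (h : 0 < R D s) : HasDerivAt (R D) (-(4 * s) / R D s) s := by
  have h1 : HasDerivAt (fun s : ℝ => D ^ 2 - 4 * s ^ 2) (-(4 * (2 * s))) s := by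
    have := ((hasDerivAt_pow 2 s).const_mul 4).const_sub (D ^ 2)
    refine this.congr_deriv ?_
    simp
  have h2 := h1.sqrt (Real.sqrt_pos.1 h).ne'
  unfold R
  refine h2.congr_deriv ?_
  field_simp

theorem hw {D s : ℝ} (hD : 0 < D) (h : 0 < R D s) :
    HasDerivAt (w D) (2 * D / ((D + R D s) * R D s)) s := by
  have hs : 0 < D + R D s := by positivity
  have h1 := ((hasDerivAt_id s).const_mul 2).div ((hR h).const_add D) hs.ne'
  unfold w
  refine h1.congr_deriv ?_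
  have h2 := R_sq h
  simp only [id_eq, mul_one]
  rw [div_eq_div_iff (by positivity) (by positivity)]
  field_simp
  have e : 4 * s ^ 2 = D ^ 2 - R D s ^ 2 := by linarith
  have e2 : s * s * 8 = 2 * (D ^ 2 - R D s ^ 2) := by linarith
  nlinarith [e2]

theorem hW {D s : ℝ} (hD : 0 < D) (h : 0 < R D s) : HasDerivAt (W D) (w D s) s := by
  have hs : 0 < D + R D s := by positivity
  have h1 := (((hR h).div_const 2).const_sub (D / 2)).add
    (((((hR h).const_add D).log hs.ne').sub_const (log (2 * D))).const_mul (D / 2))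
  unfold W w
  refine h1.congr_deriv ?_
  field_simp
  ring

theorem main_ineq {d k : ℝ} (hd : 0 ≤ d) (hk : 1 ≤ k) {s : ℝ} (hs : 0 ≤ s)
    (h : (d + 1 + k) / k ≤ R (d + 1 + k) s) :
    s * (2 * (d + 1 + k) / ((d + 1 + k + R (d + 1 + k) s) * R (d + 1 + k) s)) +
      (d + 1) * w (d + 1 + k) s ≤ s * (1 + w (d + 1 + k) s ^ 2) := by
  set D := d + 1 + k with hDdef
  have hD : 0 < D := by positivity
  have hR0 : 0 < R D s := lt_of_lt_of_le (by positivity) h
  have h2 := R_sq hR0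
  unfold w
  set r := R D s with hr
  have hDr : 0 < D + r := by positivity
  have e1 : s * (1 + (2 * s / (D + r)) ^ 2) = D * (2 * s / (D + r)) := by
    field_simp
    nlinarith
  rw [e1]
  have h3 : D ≤ k * r := by
    rw [div_le_iff₀ (by positivity)] at h
    linarith
  have e2 : D * (2 * s / (D + r)) - (d + 1) * (2 * s / (D + r)) = k * (2 * s / (D + r)) := by
    rw [hDdef]; ring
  have e3 : s * (2 * D / ((D + r) * r)) ≤ k * (2 * s / (D + r)) := by
    have e4 : s * (2 * D / ((D + r) * r)) = (2 * s / (D + r)) * (D / r) := by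
      field_simp
    rw [e4, mul_comm k]
    refine mul_le_mul_of_nonneg_left ?_ (by positivity)
    rw [div_le_iff₀ hR0]
    exact h3
  linarith

/-- `S ≥ w* C`. -/
theorem lower (h : Sys d C S K) {k t : ℝ} (hk : 1 ≤ k) (hC : ∀ s ∈ Icc 0 t, 0 ≤ C s)
    (hRt : ∀ s ∈ Icc 0 t, (d + 1 + k) / k ≤ R (d + 1 + k) s) :
    ∀ s ∈ Icc 0 t, w (d + 1 + k) s * C s ≤ S s := by
  intro s hs
  set D : ℝ := d + 1 + k with hD
  have hD0 : 0 < D := by positivity
  have hRp : ∀ x ∈ Icc 0 t, 0 < R D x := fun x hx => lt_of_lt_of_le (by positivity) (hRt x hx)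
  have hw0 : ∀ x ∈ Icc 0 t, 0 ≤ w D x := fun x hx => by
    have := hRp x hx
    have := hx.1
    unfold w
    positivity
  rcases eq_or_lt_of_le hs.1 with h0 | h0
  · rw [← h0, h.S0]
    unfold w
    simp
  set y : ℝ → ℝ := fun x => (x ^ (d + 1) * S x - x ^ (d + 1) * (w D x * C x)) * exp (-(W D x))
    with hy
  have hder : ∀ x ∈ Icc 0 t, HasDerivAt y
      ((x ^ (d + 1) * C x - (((d : ℝ) + 1) * x ^ d * (w D x * C x) +
        x ^ (d + 1) * (2 * D / ((D + R D x) * R D x) * C x + w D x * (-S x)))) * exp (-(W D x)) +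
        (x ^ (d + 1) * S x - x ^ (d + 1) * (w D x * C x)) * (exp (-(W D x)) * -(w D x))) x := by
    intro x hx
    have h1 := ((h.hP x).sub ((hasDerivAt_pow (d + 1) x).mul ((hw hD0 (hRp x hx)).mul (h.hC x)))).mul
      (hW hD0 (hRp x hx)).neg.exp
    refine h1.congr_deriv ?_
    simp only [Nat.cast_add, Nat.cast_one, Nat.add_sub_cancel, Pi.mul_apply, Pi.sub_apply,
      Pi.neg_apply]
  have hm : MonotoneOn y (Icc 0 t) := by
    refine monotoneOn_of_deriv_nonneg (convex_Icc 0 t)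
      (fun x hx => (hder x hx).continuousAt.continuousWithinAt)
      (fun x hx => (hder x (interior_subset hx)).differentiableAt.differentiableWithinAt)
      fun x hx => ?_
    rw [(hder x (interior_subset hx)).deriv]
    rw [interior_Icc] at hx
    have hxI : x ∈ Icc 0 t := ⟨hx.1.le, hx.2.le⟩
    have e1 : (x ^ (d + 1) * C x - (((d : ℝ) + 1) * x ^ d * (w D x * C x) +
        x ^ (d + 1) * (2 * D / ((D + R D x) * R D x) * C x + w D x * (-S x)))) * exp (-(W D x)) +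
        (x ^ (d + 1) * S x - x ^ (d + 1) * (w D x * C x)) * (exp (-(W D x)) * -(w D x)) =
        x ^ d * (C x * (x * (1 + w D x ^ 2) - (x * (2 * D / ((D + R D x) * R D x)) +
          (d + 1) * w D x))) * exp (-(W D x)) := by
      rw [pow_succ]
      ring
    rw [e1]
    have h3 := main_ineq (d := d) (by positivity) hk hx.1.le (hRt x hxI)
    refine mul_nonneg (mul_nonneg (pow_nonneg hx.1.le _) (mul_nonneg (hC x hxI) ?_)) (exp_pos _).le
    linarith
  have h1 := hm ⟨le_refl 0, hs.1.trans hs.2⟩ hs hs.1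
  simp only [hy, ne_eq, Nat.add_eq_zero_iff, one_ne_zero, and_false, not_false_eq_true, zero_pow,
    zero_mul, sub_zero] at h1
  have h2 : (s ^ (d + 1) * S s - s ^ (d + 1) * (w D s * C s)) * exp (-(W D s)) =
    (s ^ (d + 1) * exp (-(W D s))) * (S s - w D s * C s) := by ring
  rw [h2] at h1
  have := (mul_nonneg_iff_of_pos_left (mul_pos (pow_pos h0 _) (exp_pos _))).1 h1
  linarith

theorem W_zero {D : ℝ} (hD : 0 < D) : W D 0 = 0 := by
  have h1 : R D 0 = D := by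
    unfold R
    norm_num
    exact Real.sqrt_sq hD.le
  unfold W
  rw [h1]
  have : D + D = 2 * D := by ring
  rw [this]
  ring

theorem C_le (h : Sys d C S K) {k t : ℝ} (hk : 1 ≤ k) (ht : 0 ≤ t)
    (hC : ∀ s ∈ Icc 0 t, 0 ≤ C s)
    (hRt : ∀ s ∈ Icc 0 t, (d + 1 + k) / k ≤ R (d + 1 + k) s) :
    C t ≤ exp (-(W (d + 1 + k) t)) * C 0 := by
  have hlo := lower h hk hC hRt
  set D : ℝ := d + 1 + k with hD
  have hD0 : 0 < D := by positivity
  have hRp : ∀ x ∈ Icc 0 t, 0 < R D x := fun x hx => lt_of_lt_of_le (by positivity) (hRt x hx)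
  have hder2 : ∀ x ∈ Icc 0 t, HasDerivAt (fun x => C x * exp (W D x))
      (-S x * exp (W D x) + C x * (exp (W D x) * w D x)) x :=
    fun x hx => (h.hC x).mul (hW hD0 (hRp x hx)).exp
  have hm : AntitoneOn (fun x => C x * exp (W D x)) (Icc 0 t) := by
    refine antitoneOn_of_deriv_nonpos (convex_Icc 0 t)
      (fun x hx => (hder2 x hx).continuousAt.continuousWithinAt)
      (fun x hx => (hder2 x (interior_subset hx)).differentiableAt.differentiableWithinAt)
      fun x hx => ?_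
    rw [(hder2 x (interior_subset hx)).deriv]
    rw [interior_Icc] at hx
    have h1 := hlo x ⟨hx.1.le, hx.2.le⟩
    have h2 : -S x * exp (W D x) + C x * (exp (W D x) * w D x) =
        -(exp (W D x) * (S x - w D x * C x)) := by
      ring
    rw [h2]
    exact neg_nonpos.2 (mul_nonneg (exp_pos _).le (by linarith))
  have h1 := hm ⟨le_refl 0, ht⟩ ⟨ht, le_refl t⟩ ht
  simp only [W_zero hD0, exp_zero, mul_one] at h1
  rw [exp_neg, inv_mul_eq_div, le_div_iff₀ (exp_pos _)]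
  exact h1

/-- the end of the interval. -/
def s1 (D k : ℝ) : ℝ := D / 2 * √(1 - 1 / k ^ 2)

theorem s1_nonneg {D k : ℝ} (hD : 0 < D) : 0 ≤ s1 D k := by unfold s1; positivity

theorem s1_sq {D k : ℝ} (hk : 1 ≤ k) : 4 * s1 D k ^ 2 = D ^ 2 - (D / k) ^ 2 := by
  unfold s1
  have h1 : 0 ≤ 1 - 1 / k ^ 2 := by
    rw [sub_nonneg, div_le_one (by positivity)]
    nlinarith
  rw [mul_pow, Real.sq_sqrt h1]
  have : k ≠ 0 := by positivity
  field_simp
  ring

theorem R_ge {D k : ℝ} (hk : 1 ≤ k) {s : ℝ} (hs : 0 ≤ s) (hs1 : s ≤ s1 D k) :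
    D / k ≤ R D s := by
  unfold R
  refine Real.le_sqrt_of_sq_le ?_
  have h1 := s1_sq (D := D) hk
  have h2 : s ^ 2 ≤ s1 D k ^ 2 := pow_le_pow_left₀ hs hs1 2
  linarith

theorem R_s1 {D k : ℝ} (hD : 0 < D) (hk : 1 ≤ k) : R D (s1 D k) = D / k := by
  unfold R
  rw [s1_sq hk]
  have : D ^ 2 - (D ^ 2 - (D / k) ^ 2) = (D / k) ^ 2 := by ring
  rw [this, Real.sqrt_sq (by positivity)]

theorem W_s1 {D k : ℝ} (hD : 0 < D) (hk : 1 ≤ k) :
    D / 2 * (1 - log 2 - 1 / k) ≤ W D (s1 D k) := by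
  unfold W
  rw [R_s1 hD hk]
  have h1 : log D ≤ log (D + D / k) := Real.log_le_log hD (by
    have : 0 < D / k := by positivity
    linarith)
  have h2 : log (2 * D) = log 2 + log D := Real.log_mul (by norm_num) hD.ne'
  rw [h2]
  have h3 : D / 2 * (-log 2) ≤ D / 2 * (log (D + D / k) - (log 2 + log D)) :=
    mul_le_mul_of_nonneg_left (by linarith) (by positivity)
  have h4 : D / 2 * (1 - log 2 - 1 / k) = D / 2 - D / k / 2 + D / 2 * (-log 2) := by
    have : k ≠ 0 := by positivity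
    field_simp
    ring
  linarith

/-- the lower bound. -/
theorem bound (h : Sys d C S K) {k : ℝ} (hk : 1 ≤ k) (hs1 : s1 (d + 1 + k) k ≤ (d + 1) / 2)
    (s : ℝ) (hs : 0 ≤ s) :
    -(√2 * exp (-(W (d + 1 + k) (s1 (d + 1 + k) k)))) * C 0 ≤ C s := by
  set t : ℝ := (d + 1) / 2 with ht
  set D : ℝ := d + 1 + k with hD
  have hD0 : 0 < D := by positivity
  have ht0 : 0 < t := by positivity
  have hneg : -(√2 * exp (-(W D (s1 D k)))) * C 0 ≤ 0 := by
    have := h.h0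
    have h1 : 0 ≤ √2 * exp (-(W D (s1 D k))) := by positivity
    nlinarith
  by_cases hst : s ≤ t
  · exact hneg.trans (h.C_pos s ⟨hs, hst⟩).le
  push Not at hst
  have hCp := h.C_pos
  have hSn := h.S_nonneg fun s hs => (hCp s hs).le
  have hu := h.u_pos (le_refl _) hSn t ⟨ht0.le, le_refl t⟩
  have h1 := h.energy (mem_Ici.2 ht0.le) (mem_Ici.2 hs) hst.le
  simp only at h1
  have hSt := hSn t ⟨ht0.le, le_refl t⟩
  have h10 := s1_nonneg (k := k) hD0
  have hC1 := C_le h hk h10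
    (fun s hs => (hCp s ⟨hs.1, hs.2.trans hs1⟩).le) (fun s hs => R_ge hk hs.1 hs.2)
  have hanti : AntitoneOn C (Icc 0 t) := by
    refine antitoneOn_of_deriv_nonpos (convex_Icc 0 t)
      (fun x _ => (h.hC x).continuousAt.continuousWithinAt)
      (fun x _ => (h.hC x).differentiableAt.differentiableWithinAt) fun x hx => ?_
    rw [(h.hC x).deriv]
    have := hSn x (interior_subset hx)
    linarith
  have hCt : C t ≤ exp (-(W D (s1 D k))) * C 0 :=
    (hanti ⟨h10, hs1⟩ ⟨ht0.le, le_refl t⟩ hs1).trans hC1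
  have hCt0 := hCp t ⟨ht0.le, le_refl t⟩
  have h2 : C s ^ 2 ≤ (√2 * (exp (-(W D (s1 D k))) * C 0)) ^ 2 := by
    rw [mul_pow, Real.sq_sqrt (by norm_num)]
    have h3 : S t ^ 2 ≤ C t ^ 2 := by nlinarith
    have h4 : C t ^ 2 ≤ (exp (-(W D (s1 D k))) * C 0) ^ 2 := pow_le_pow_left₀ hCt0.le hCt 2
    nlinarith [sq_nonneg (S s)]
  have h3 := abs_le_of_sq_le_sq h2 (by
    have := h.h0
    positivity)
  have h4 := (abs_le.1 h3).1
  linarith

theorem sqrt2_le : √2 ≤ exp (1 / 2 : ℝ) := by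
  have h3 : (2 : ℝ) ≤ exp 1 := by
    have := Real.add_one_le_exp (1 : ℝ)
    linarith
  have h4 : exp (1 / 2 : ℝ) = √(exp 1) := by
    rw [Real.exp_half]
  rw [h4]
  exact Real.sqrt_le_sqrt h3

theorem s1_le {k : ℝ} (hk : 1 ≤ k) {d : ℝ} (hd : 0 ≤ d) (h : 4 * k ^ 3 ≤ d) :
    s1 (d + 1 + k) k ≤ (d + 1) / 2 := by
  unfold s1
  have h1 : √(1 - 1 / k ^ 2) ≤ 1 - 1 / (2 * k ^ 2) := by
    have h2 : 1 / (2 * k ^ 2) ≤ 1 := by
      rw [div_le_one (by positivity)]
      nlinarith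
    refine Real.sqrt_le_iff.2 ⟨by linarith, ?_⟩
    have e : (1 - 1 / (2 * k ^ 2)) ^ 2 = 1 - 1 / k ^ 2 + (1 / (2 * k ^ 2)) ^ 2 := by
      have : k ≠ 0 := by positivity
      field_simp
      ring
    rw [e]
    nlinarith [sq_nonneg (1 / (2 * k ^ 2))]
  have h2 : (d + 1 + k) / 2 * √(1 - 1 / k ^ 2) ≤ (d + 1 + k) / 2 * (1 - 1 / (2 * k ^ 2)) :=
    mul_le_mul_of_nonneg_left h1 (by positivity)
  refine h2.trans ?_
  have h3 : k ≤ (d + 1 + k) / (2 * k ^ 2) := by
    rw [le_div_iff₀ (by positivity)]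
    have e : k * (2 * k ^ 2) = 2 * k ^ 3 := by ring
    rw [e]
    have : 0 ≤ k ^ 3 := by positivity
    linarith
  have e : (d + 1 + k) / 2 * (1 - 1 / (2 * k ^ 2)) =
      (d + 1 + k) / 2 - (d + 1 + k) / (2 * k ^ 2) / 2 := by
    ring
  rw [e]
  linarith

theorem Phi_ge8 {θ : ℝ} (hθp : 0 ≤ θ) (hθ : θ < (1 - log 2) / 2) : ∃ d1 : ℕ, ∀ d : ℕ, d1 ≤ d → 1 ≤ d ∧
    ∀ s : ℝ, 0 ≤ s → -exp (-(θ * (d : ℝ))) ≤ Phi d s := by
  obtain ⟨δ, hδ⟩ : ∃ δ, δ = (1 - log 2) / 2 - θ := ⟨_, rfl⟩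
  have hδ0 : 0 < δ := by linarith
  obtain ⟨k, hk⟩ : ∃ k : ℝ, k = 1 + 1 / δ := ⟨_, rfl⟩
  have hk1 : 1 ≤ k := by
    have : 0 < 1 / δ := by positivity
    linarith
  obtain ⟨d1, hd1⟩ := exists_nat_ge (4 * k ^ 3 + 1 / δ + 1)
  refine ⟨d1, fun d hd => ?_⟩
  have hdr : 4 * k ^ 3 + 1 / δ + 1 ≤ (d : ℝ) := hd1.trans (by exact_mod_cast hd)
  have hδi : 0 < 1 / δ := by positivity
  have hk3 : 0 < k ^ 3 := by positivity
  have hd1' : 1 ≤ d := by
    have : (1 : ℝ) ≤ d := by linarith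
    exact_mod_cast this
  refine ⟨hd1', fun s hs => ?_⟩
  have hpos := wt_pos hd1'
  have hd0 : (0 : ℝ) ≤ d := Nat.cast_nonneg d
  have h1 := bound (sys_ball hd1') hk1 (s1_le hk1 hd0 (by linarith)) s hs
  simp only [zero_mul, cos_zero, mul_one] at h1
  have h2 : Phi d s = (∫ u in (-1 : ℝ)..1, wt d u * cos (s * u)) / ∫ u in (-1 : ℝ)..1, wt d u := by
    unfold Phi wt
    congr 1
    refine intervalIntegral.integral_congr fun u _ => ?_
    ring
  have h3 : √2 * exp (-(W (d + 1 + k) (s1 (d + 1 + k) k))) ≤ exp (-(θ * (d : ℝ))) := by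
    calc √2 * exp (-(W (d + 1 + k) (s1 (d + 1 + k) k)))
        ≤ exp (1 / 2 : ℝ) * exp (-(W (d + 1 + k) (s1 (d + 1 + k) k))) :=
          mul_le_mul_of_nonneg_right sqrt2_le (exp_pos _).le
      _ = exp (1 / 2 + -(W (d + 1 + k) (s1 (d + 1 + k) k))) := (Real.exp_add _ _).symm
      _ ≤ exp (-(θ * (d : ℝ))) := by
          refine Real.exp_le_exp.2 ?_
          have h4 := W_s1 (D := (d : ℝ) + 1 + k) (by positivity) hk1
          have h5 : 1 / k ≤ δ := by
            rw [hk, div_le_iff₀ (by positivity)]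
            have : δ * (1 + 1 / δ) = δ + 1 := by field_simp
            rw [this]
            linarith
          have h6 : δ + 2 * θ ≤ 1 - log 2 - 1 / k := by linarith
          have h7 : ((d : ℝ) + 1 + k) / 2 * (1 - log 2 - 1 / k) ≥ θ * d + 1 / 2 := by
            have h8 : (d : ℝ) / 2 * (δ + 2 * θ) ≤
                ((d : ℝ) + 1 + k) / 2 * (1 - log 2 - 1 / k) :=
              mul_le_mul (by linarith) h6 (by positivity) (by positivity)
            have h9 : 1 ≤ δ * d := by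
              have : δ * (1 / δ) ≤ δ * d := mul_le_mul_of_nonneg_left (by linarith) hδ0.le
              rwa [mul_one_div_cancel hδ0.ne'] at this
            linarith
          linarith
  refine le_trans (neg_le_neg h3) ?_
  rw [h2, le_div_iff₀ hpos]
  exact h1

end Ph8

end

end Pool.Agent.MF.Fou

namespace Pool.Agent.HdGas

/-- The statement of row PHI8. -/
theorem phi8_main : ∀ θ : ℝ, θ < (1 - Real.log 2) / 2 → ∃ d1 : ℕ, ∀ d : ℕ, d1 ≤ d →
    ∀ s : ℝ, 0 ≤ s → -Real.exp (-(θ * (d : ℝ))) ≤ Phi d s := by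
  intro θ hθ
  have h0 : (0 : ℝ) < (1 - Real.log 2) / 2 := by
    have := Real.log_two_lt_d9
    linarith
  obtain ⟨d1, h1⟩ := Pool.Agent.MF.Fou.Ph8.Phi_ge8 (le_max_right θ 0) (max_lt hθ h0)
  refine ⟨d1, fun d hd s hs => ?_⟩
  obtain ⟨h2, h3⟩ := h1 d hd
  rw [phi_eq h2 s]
  refine le_trans (neg_le_neg (Real.exp_le_exp.2 (neg_le_neg ?_))) (h3 s hs)
  exact mul_le_mul_of_nonneg_right (le_max_left θ 0) (Nat.cast_nonneg d)

/-- **Row PHI8.** -/
theorem phi8 : PHI8 := phi8_main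

end Pool.Agent.HdGas
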