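import Pool.Agent.Lib.NT.Rows4
import Pool.Agent.Lib.MF.Geob
import Pool.Agent.Lib.MF.RowBdry
import Pool.Agent.Lib.MF.Bas
import Pool.Agent.Lib.MF.Jen

/-! # Project MF4, row SLOPE4: the slopes of the pressure.  helper61. -/

set_option autoImplicit false

namespace Pool.Agent.HdGas

open MeasureTheory Filter Topology Pool.Agent.SquareWellGas Pool.Agent.KacGas Pool.Agent.VdwGas

/-- Row SLOPE4. -/
theorem slope4_of : SLOPE4 := by
  intro d hd P hP μ c G hS h
  have hb : 0 < bv d := GeobR.bv_pos d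
  have key : ∀ δ : ℝ, 0 < δ → h * c - |h| * (G + δ) ≤ bv d * (P (μ + h) - P μ) := by
    intro δ hδ
    have l2 : Tendsto (fun ℓ : ℝ => bv d *
        (Real.log (Xi volume (Cb d) (Real.exp (μ + h)) (Box d ℓ)) / ℓ ^ d -
          Real.log (Xi volume (Cb d) (Real.exp μ) (Box d ℓ)) / ℓ ^ d)) atTop
        (𝓝 (bv d * (P (μ + h) - P μ))) := ((hP (μ + h)).sub (hP μ)).const_mul _
    refine ge_of_tendsto l2 ?_
    filter_upwards [eventually_ge_atTop (2 : ℝ), hS δ hδ] with ℓ hℓ hab
    have hgeo := geob_of d hd ℓ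
    have hVpos : 0 < ℓ ^ d := pow_pos (by linarith) d
    have hjen := jen_of bas _ volume (Cb d) (Box d ℓ) hgeo.meas hgeo.measL hgeo.fin μ h
    set N := ex volume (Cb d) (Real.exp μ) (Box d ℓ) (fun ω => (ω.1 : ℝ)) with hN
    have k0 : |h * (bv d * N / ℓ ^ d - c)| ≤ |h| * (G + δ) := by
      rw [abs_mul]
      exact mul_le_mul_of_nonneg_left hab (abs_nonneg h)
    have k1 : h * c - |h| * (G + δ) ≤ h * (bv d * N / ℓ ^ d) := by
      have := (abs_le.1 k0).1
      linarith
    refine k1.trans ?_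
    rw [← sub_div, mul_div_assoc', mul_div_assoc']
    refine div_le_div_of_nonneg_right ?_ hVpos.le
    have k3 := mul_le_mul_of_nonneg_left hjen hb.le
    linarith
  refine le_of_forall_pos_le_add fun ε hε => ?_
  have h1 := key (ε / (|h| + 1)) (by positivity)
  have h2 : |h| * (ε / (|h| + 1)) ≤ ε := by
    rw [mul_div_assoc', div_le_iff₀ (by positivity)]
    nlinarith [abs_nonneg h]
  linarith

end Pool.Agent.HdGas
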