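import Pool.Agent.Lib.NT.Rows4
import Pool.Agent.Lib.NT.MapG
import Pool.Agent.Lib.NT.Reg4

/-!
# Translations: row TRANS4
-/

set_option autoImplicit false

namespace Pool.Agent.HdGas

open MeasureTheory Filter Topology Pool.Agent.SquareWellGas Pool.Agent.KacGas Pool.Agent.VdwGas

theorem reg_cube {d : ℕ} {R : ℝ} (u : Fin d → ℝ) : Reg d (Cube d R u) := by
  refine ⟨?_, R + ‖u‖, fun x hx k => ?_⟩
  · have e : Cube d R u = ⋂ k, {x : Fin d → ℝ | |x k - u k| ≤ R} := by
      ext x
      simp [Cube]
    rw [e]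
    exact MeasurableSet.iInter fun k => measurableSet_le
      (((measurable_pi_apply k).sub_const _).abs) measurable_const
  · have h1 := hx k
    have h2 := norm_le_pi_norm u k
    rw [Real.norm_eq_abs] at h2
    have h3 := abs_add_le (x k - u k) (u k)
    rw [sub_add_cancel] at h3
    linarith

/-- **Row TRANS4.** -/
theorem trans4_of (hO : OKB) : TRANS4 := by
  intro d hd lam R hlam hR u
  refine ⟨reg_cube u, ?_⟩
  obtain ⟨hG, hS, -⟩ := reg4_of d hd (Cube d R u) (reg_cube u)
  obtain ⟨K, hS⟩ := hS lam hlam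
  have hf : Measurable fun x : Fin d → ℝ => x + u := measurable_id.add_const u
  have hmp : (volume : Measure (Fin d → ℝ)).map (fun x => x + u) = volume :=
    (measurePreserving_add_right volume u).map_eq
  have hsf : SigmaFinite ((volume : Measure (Fin d → ℝ)).map fun x => x + u) := by
    rw [hmp]
    infer_instance
  have hm : Measurable (chi (Cb d) (Al (Fin d → ℝ)) ((0 : Fin d → ℝ) + u)) :=
    ((hO _ volume (Cb d) (Cube d R u) lam (bv d) K hS).2.2.2.2.2.2.2 _).meas
  have key := MapG.ex_chi_map volume hf hG.meas lam hG.measL 0 hm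
  rw [hmp] at key
  have e1 : (fun x y : Fin d → ℝ => Cb d (x + u) (y + u)) = Cb d := by
    funext x y
    unfold Cb
    simp
  have e2 : (fun x : Fin d → ℝ => x + u) ⁻¹' Cube d R u = Cube d R 0 := by
    ext x
    simp [Cube]
  rw [e1, e2, zero_add] at key
  exact key

end Pool.Agent.HdGas
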