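import Pool.Agent.Lib.NT.Trip4a

/-!
# Row TRIP4: the lower bound for `D` from triples of places (helper40)
-/

set_option autoImplicit false

namespace Pool.Agent.HdGas

open MeasureTheory Metric

namespace Trip

/-- Expectations of functions between `0` and `1`. -/
theorem ex_nonneg' {S : Type} [MeasurableSpace S] (m : Measure S) (C : S → S → Prop) (lam : ℝ)
    (L : Set S) {f : Om S → ℝ} (h : ∀ ω, 0 ≤ f ω) : 0 ≤ ex m C lam L f :=
  div_nonneg (integral_nonneg h) ENNReal.toReal_nonneg

theorem ex_le_one' {S : Type} [MeasurableSpace S] (m : Measure S) (C : S → S → Prop) (lam : ℝ)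
    (L : Set S) {f : Om S → ℝ} (h0 : ∀ ω, 0 ≤ f ω) (h : ∀ ω, f ω ≤ 1) :
    ex m C lam L f ≤ 1 := by
  by_cases hf : IsFiniteMeasure (gib m C lam L)
  · have h1 : ∫ ω, f ω ∂gib m C lam L ≤ Xi m C lam L := by
      have h2 : ∫ ω, f ω ∂gib m C lam L ≤ ∫ _ω, (1 : ℝ) ∂gib m C lam L :=
        integral_mono_of_nonneg (Filter.Eventually.of_forall h0) (integrable_const 1)
          (Filter.Eventually.of_forall h)
      rw [integral_const, smul_eq_mul, mul_one] at h2
      exact h2
    unfold ex
    exact (div_le_div_of_nonneg_right h1 ENNReal.toReal_nonneg).trans (div_self_le_one _)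
  · have h1 : gib m C lam L Set.univ = ⊤ := by
      by_contra hne
      exact hf ⟨lt_top_iff_ne_top.2 hne⟩
    have h2 : Xi m C lam L = 0 := by
      unfold Xi
      rw [h1]
      rfl
    unfold ex
    rw [h2, div_zero]
    exact zero_le_one

theorem emv_mem {S : Type} (A : Set S) (ω : Om S) : 0 ≤ emv A ω ∧ emv A ω ≤ 1 := by
  unfold emv
  split_ifs <;> constructor <;> norm_num

theorem fp_nonneg (d : ℕ) (lam : ℝ) (L : Set (Pl d)) (u : Pl d) : 0 ≤ fp d lam L u :=
  ex_nonneg' _ _ _ _ fun ω => (chi_mem _ _ ω).1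

theorem fp_le_one (d : ℕ) (lam : ℝ) (L : Set (Pl d)) (u : Pl d) : fp d lam L u ≤ 1 :=
  ex_le_one' _ _ _ _ (fun ω => (chi_mem _ _ ω).1) fun ω => (chi_mem _ _ ω).2

theorem fp_em (d : ℕ) (lam : ℝ) (L : Set (Pl d)) (u : Pl d) :
    ex volume (Cb d) lam L (emv {z | Cb d u z}) = fp d lam L u := by
  unfold fp
  congr 1
  funext ω
  classical
  unfold chi emv nV
  congr 1
  rw [Finset.card_eq_zero, Finset.filter_eq_empty_iff]
  unfold fr Al
  simp

theorem fp_meas {d : ℕ} {lam : ℝ} (hlam : 0 ≤ lam) {L : Set (Pl d)} (hL : MeasurableSet L)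
    (hf : volume L ≠ ⊤) : Measurable (fp d lam L) := by
  obtain ⟨hM1, -⟩ := meas (Pl d) volume (Cb d) L lam (GeobR.measurable_Cb d) hL hf hlam
  obtain ⟨mchi, -, -, -, -⟩ := hM1 (Al (Pl d)) MeasurableSet.univ
  obtain ⟨-, -, hfin, -, -, -⟩ := bas (Pl d) volume (Cb d) L lam (GeobR.measurable_Cb d) hL hf hlam
  have h : Measurable fun z => ∫ ω, chi (Cb d) (Al (Pl d)) z ω ∂gib volume (Cb d) lam L :=
    (mchi.stronglyMeasurable.integral_prod_right
      (f := fun z ω => chi (Cb d) (Al (Pl d)) z ω)).measurable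
  unfold fp ex
  exact h.div_const _

/-- Lower bound for the mean number of points in `M`. -/
theorem low {d : ℕ} {lam : ℝ} (hlam : 0 ≤ lam) {L : Set (Pl d)} (hL : MeasurableSet L)
    (hf : volume L ≠ ⊤) {M : Set (Pl d)} (hM : MeasurableSet M) (hMf : volume M ≠ ⊤) {c : ℝ}
    (h : ∀ x ∈ M, c ≤ lam * bv d * fp d lam L x) :
    c / bv d * (volume M).toReal ≤ lam * ∫ z in M, fp d lam L z := by
  have hb := GeobR.bv_pos d
  have hfin : IsFiniteMeasure (volume.restrict M) :=
    ⟨by rw [Measure.restrict_apply_univ]; exact lt_top_iff_ne_top.2 hMf⟩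
  have hI : Integrable (fp d lam L) (volume.restrict M) := by
    refine Integrable.of_bound (fp_meas hlam hL hf).aestronglyMeasurable 1
      (Filter.Eventually.of_forall fun z => ?_)
    rw [Real.norm_eq_abs, abs_of_nonneg (fp_nonneg _ _ _ _)]
    exact fp_le_one _ _ _ _
  rw [← integral_const_mul]
  have h1 : ∫ _z in M, c / bv d = c / bv d * (volume M).toReal := by
    rw [integral_const, smul_eq_mul, mul_comm]
    congr 1
    simp [Measure.real]
  rw [← h1]
  refine setIntegral_mono_on (integrable_const _) (hI.const_mul lam) hM fun x hx => ?_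
  rw [div_le_iff₀ hb]
  have := h x hx
  linarith [this, mul_comm (lam * fp d lam L x) (bv d)]

/-- The mean number of points is not negative. -/
theorem low0 {d : ℕ} {lam : ℝ} (hlam : 0 ≤ lam) (L M : Set (Pl d)) :
    0 ≤ lam * ∫ z in M, fp d lam L z :=
  mul_nonneg hlam (integral_nonneg fun z => fp_nonneg _ _ _ _)

theorem dist3 {d : ℕ} {u x y z : Pl d} (h1 : Cb d x y) (h2 : Cb d y z) (h3 : Cb d z u) :
    ∑ k, (u k - x k) ^ 2 < 9 := by
  rw [GeobR.Cb_iff] at h1 h2 h3
  rw [← Ovl.dist_sq, dist_comm]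
  have h4 := dist_triangle4 (GeobR.e d x) (GeobR.e d y) (GeobR.e d z) (GeobR.e d u)
  have h5 : dist (GeobR.e d x) (GeobR.e d u) < 3 := by linarith
  nlinarith [dist_nonneg (x := GeobR.e d x) (y := GeobR.e d u)]

theorem Cb_refl {d : ℕ} (x : Pl d) : Cb d x x := by
  unfold Cb
  simp

theorem ovl {d : ℕ} {x y : Pl d} (h : ¬ Qr d (1 / 4) x y) :
    volume ({z | Cb d x z} ∩ {z | Cb d y z}) ≤ ENNReal.ofReal (ph d * bv d) := by
  unfold Qr at h
  rw [not_lt] at h
  exact Ovl.ovr x y h

/-- The volume of the union of three balls outside a fourth one. -/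
theorem vol_out {d : ℕ} {u x y z : Pl d} (h1 : ¬ Qr d (1 / 4) u x) (h2 : ¬ Qr d (1 / 4) u y)
    (h3 : ¬ Qr d (1 / 4) u z) (h4 : ¬ Qr d (1 / 4) x y) (h5 : ¬ Qr d (1 / 4) x z)
    (h6 : ¬ Qr d (1 / 4) y z) {T : Set (Pl d)}
    (hT : T = {w | Cb d x w} ∪ {w | Cb d y w} ∪ {w | Cb d z w})
    (hTf : volume (T \ {w | Cb d u w}) ≠ ⊤) :
    3 * bv d - 6 * (ph d * bv d) ≤ (volume (T \ {w | Cb d u w})).toReal := by
  have hb := (GeobR.bv_pos d).le
  have hp := (Ovl.ph_pos d).le
  obtain ⟨A, hA⟩ : ∃ A : Set (Pl d), A = {w | Cb d u w} := ⟨_, rfl⟩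
  obtain ⟨X, hX⟩ : ∃ X : Set (Pl d), X = {w | Cb d x w} := ⟨_, rfl⟩
  obtain ⟨Y, hY⟩ : ∃ Y : Set (Pl d), Y = {w | Cb d y w} := ⟨_, rfl⟩
  obtain ⟨Z, hZ⟩ : ∃ Z : Set (Pl d), Z = {w | Cb d z w} := ⟨_, rfl⟩
  have mA : MeasurableSet A := hA ▸ mball u
  have mX : MeasurableSet X := hX ▸ mball x
  have mY : MeasurableSet Y := hY ▸ mball y
  have mZ : MeasurableSet Z := hZ ▸ mball z
  have c1 : volume (A ∩ X) ≤ ENNReal.ofReal (ph d * bv d) := by rw [hA, hX]; exact ovl h1
  have c2 : volume (A ∩ Y) ≤ ENNReal.ofReal (ph d * bv d) := by rw [hA, hY]; exact ovl h2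
  have c3 : volume (A ∩ Z) ≤ ENNReal.ofReal (ph d * bv d) := by rw [hA, hZ]; exact ovl h3
  have c4 : volume (X ∩ Y) ≤ ENNReal.ofReal (ph d * bv d) := by rw [hX, hY]; exact ovl h4
  have c5 : volume (X ∩ Z) ≤ ENNReal.ofReal (ph d * bv d) := by rw [hX, hZ]; exact ovl h5
  have c6 : volume (Y ∩ Z) ≤ ENNReal.ofReal (ph d * bv d) := by rw [hY, hZ]; exact ovl h6
  have b1 : volume X = be d := by rw [hX]; exact v1 x
  have b2 : volume Y = be d := by rw [hY]; exact v1 y
  have b3 : volume Z = be d := by rw [hZ]; exact v1 z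
  obtain ⟨o, ho⟩ : ∃ o : ENNReal, o = ENNReal.ofReal (ph d * bv d) := ⟨_, rfl⟩
  rw [← ho] at c1 c2 c3 c4 c5 c6
  have s1 : be d ≤ volume (X \ A) + o := by
    rw [← b1]
    refine (measure_mono (t := (X \ A) ∪ (A ∩ X)) fun w hw => ?_).trans
      ((measure_union_le _ _).trans (add_le_add le_rfl c1))
    by_cases h : w ∈ A
    · exact Or.inr ⟨h, hw⟩
    · exact Or.inl ⟨hw, h⟩
  have s2 : be d ≤ volume (Y \ (A ∪ X)) + (o + o) := by
    rw [← b2]
    refine (measure_mono (t := (Y \ (A ∪ X)) ∪ ((A ∩ Y) ∪ (X ∩ Y))) fun w hw => ?_).trans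
      ((measure_union_le _ _).trans (add_le_add le_rfl
        ((measure_union_le _ _).trans (add_le_add c2 c4))))
    by_cases h : w ∈ A
    · exact Or.inr (Or.inl ⟨h, hw⟩)
    · by_cases h' : w ∈ X
      · exact Or.inr (Or.inr ⟨h', hw⟩)
      · exact Or.inl ⟨hw, fun h'' => h''.elim h h'⟩
  have s3 : be d ≤ volume (Z \ (A ∪ X ∪ Y)) + (o + o + o) := by
    rw [← b3]
    refine (measure_mono (t := (Z \ (A ∪ X ∪ Y)) ∪ ((A ∩ Z) ∪ (X ∩ Z) ∪ (Y ∩ Z)))
      fun w hw => ?_).trans
      ((measure_union_le _ _).trans (add_le_add le_rfl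
        ((measure_union_le _ _).trans (add_le_add ((measure_union_le _ _).trans
          (add_le_add c3 c5)) c6))))
    by_cases h : w ∈ A
    · exact Or.inr (Or.inl (Or.inl ⟨h, hw⟩))
    · by_cases h' : w ∈ X
      · exact Or.inr (Or.inl (Or.inr ⟨h', hw⟩))
      · by_cases h'' : w ∈ Y
        · exact Or.inr (Or.inr ⟨h'', hw⟩)
        · exact Or.inl ⟨hw, fun h3 => h3.elim (fun h4 => h4.elim h h') h''⟩
  have s4 : volume (X \ A) + volume (Y \ (A ∪ X)) + volume (Z \ (A ∪ X ∪ Y)) ≤
      volume (T \ A) := by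
    have d1 : Disjoint (X \ A) (Y \ (A ∪ X)) := by
      rw [Set.disjoint_left]
      exact fun w h h' => h'.2 (Or.inr h.1)
    have d2 : Disjoint ((X \ A) ∪ (Y \ (A ∪ X))) (Z \ (A ∪ X ∪ Y)) := by
      rw [Set.disjoint_left]
      exact fun w h h' => h.elim (fun h => h'.2 (Or.inl (Or.inr h.1)))
        (fun h => h'.2 (Or.inr h.1))
    rw [← measure_union d1 (mY.diff (mA.union mX)),
      ← measure_union d2 (mZ.diff ((mA.union mX).union mY))]
    refine measure_mono fun w hw => ?_
    rw [hT, ← hX, ← hY, ← hZ]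
    rcases hw with (h | h) | h
    · exact ⟨Or.inl (Or.inl h.1), h.2⟩
    · exact ⟨Or.inl (Or.inr h.1), fun h' => h.2 (Or.inl h')⟩
    · exact ⟨Or.inr h.1, fun h' => h.2 (Or.inl (Or.inl h'))⟩
  have s5 : be d + be d + be d ≤ volume (T \ A) + (o + (o + o) + (o + o + o)) := by
    calc be d + be d + be d ≤ (volume (X \ A) + o) + (volume (Y \ (A ∪ X)) + (o + o)) +
          (volume (Z \ (A ∪ X ∪ Y)) + (o + o + o)) := add_le_add (add_le_add s1 s2) s3
      _ = (volume (X \ A) + volume (Y \ (A ∪ X)) + volume (Z \ (A ∪ X ∪ Y))) +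
          (o + (o + o) + (o + o + o)) := by abel
      _ ≤ _ := add_le_add s4 le_rfl
  rw [← hA] at hTf ⊢
  rw [← ENNReal.ofReal_toReal hTf, ho, be, ← ENNReal.ofReal_add (by positivity) (by positivity),
    ← ENNReal.ofReal_add (by positivity) (by positivity),
    ← ENNReal.ofReal_add (by positivity) (by positivity),
    ← ENNReal.ofReal_add (by positivity) (by positivity),
    ← ENNReal.ofReal_add (by positivity) (by positivity),
    ← ENNReal.ofReal_add (by positivity) (by positivity),
    ← ENNReal.ofReal_add (by positivity) (by positivity),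
    ENNReal.ofReal_le_ofReal_iff (by positivity)] at s5
  linarith

end Trip

open Trip in
/-- Row TRIP4. -/
theorem trip4_of (hVL : VLOW) (hVY : VARY) (hPA : PA4) : TRIP4 := by
  classical
  intro d hd ε lam hε hFT hlam hτ2 L hL u η y D hη hy hD hx
  obtain ⟨hGeo, hSys', hPos'⟩ := reg4_of d hd L hL
  obtain ⟨K, hSys⟩ := hSys' lam hlam
  have hPos := hPos' ε hε hFT
  have hLm := hSys.measL
  have hLf := hSys.fin
  have hb := GeobR.bv_pos d
  have hph := (Ovl.ph_pos d).le
  have hkap : 0 ≤ kap d := (MF.Geo.kap_pos d).le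
  obtain ⟨A, hA⟩ : ∃ A : Set (Pl d), A = {z | Cb d u z} := ⟨_, rfl⟩
  have hAm : MeasurableSet A := hA ▸ mball u
  have hAvol : volume A = be d := by rw [hA]; exact v1 u
  have hAL : A ⊆ L := by
    intro z hz
    rw [hA] at hz
    exact (hx z (dist3 (Cb_refl z) (Cb_refl z) (GeobR.Cb_symm _ _ hz))).1
  obtain ⟨p, hp⟩ : ∃ p : ℝ, p = fp d lam L u := ⟨_, rfl⟩
  rw [← hp] at hy hD
  have hp0 : 0 ≤ p := hp ▸ fp_nonneg d lam L u
  rcases hp0.eq_or_lt with hp1 | hp1
  · rw [← hp1, mul_zero] at hy
    rw [← hp1, Real.log_zero, hy] at hD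
    rw [hD, hy]
    simp only [neg_zero, sub_zero]
    have : (0 : ℝ) ^ 3 = 0 := by norm_num
    rw [this, zero_mul, add_zero]
    linarith
  have hy0 : 0 ≤ y := by rw [hy]; positivity
  have hpe : p = Real.exp (-(y + D)) := by
    have : -(y + D) = Real.log p := by rw [hD]; ring
    rw [this, Real.exp_log hp1]
  have ht : lam * bv d = y * Real.exp (y + D) := by
    rw [hy, hpe]
    rw [mul_assoc, ← Real.exp_add]
    have : -(y + D) + (lam * bv d * Real.exp (-(y + D)) + D) = 0 := by
      rw [← hpe, ← hy]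
      ring
    rw [← hpe, ← hy, show -(y + D) + (y + D) = 0 by ring] 
    rw [Real.exp_zero, mul_one]
  obtain ⟨τ, hτ⟩ : ∃ τ : ℝ, τ = lam * bv d * ε := ⟨_, rfl⟩
  have hτ0 : 0 ≤ τ := by rw [hτ]; positivity
  rw [← hτ] at hτ2
  have hlt : lam * bv d * ε < 1 := by rw [← hτ]; linarith
  -- the mean number of points near `u`
  obtain ⟨nu, hnu⟩ : ∃ nu : ℝ, nu = lam * ∫ z in L ∩ A, fp d lam L z := ⟨_, rfl⟩
  have hLA : L ∩ A = A := Set.inter_eq_right.2 hAL
  have hn : y - η ≤ nu := by
    have h1 := low (c := y - η) hlam hLm hLf hAm (by rw [hAvol]; exact ENNReal.ofReal_ne_top)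
      (fun x hxA => by
        rw [hA] at hxA
        have := (hx x (dist3 (Cb_refl x) (Cb_refl x) (GeobR.Cb_symm _ _ hxA))).2
        linarith [(abs_le.1 this).1])
    rw [hAvol, be, ENNReal.toReal_ofReal hb.le, div_mul_cancel₀ _ hb.ne', ← hLA, ← hnu] at h1
    exact h1
  -- the constants
  obtain ⟨c1, hc1⟩ : ∃ c1 : ℝ, c1 = Real.exp (-(3 * y) + D + 5 * (τ * y) + 4 * η +
    6 * (y * ph d)) := ⟨_, rfl⟩
  have hc10 : 0 < c1 := hc1 ▸ Real.exp_pos _
  obtain ⟨q, hq⟩ : ∃ q : ℝ, q = c1 * (3 * kap d * bv d ^ 3) + 6 * (1 / 2) ^ d * bv d ^ 3 :=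
    ⟨_, rfl⟩
  have hq0 : 0 ≤ q := by rw [hq]; positivity
  have hV : ∀ a : ℝ, 0 < a → a ≤ 1 →
      ex (md volume (inA A a)) (Cb d) lam L (fun ω => YA volume (Cb d) lam L A ω ^ 2) -
      ex (md volume (inA A a)) (Cb d) lam L (YA volume (Cb d) lam L A) ^ 2 ≤
        2 * (lam ^ 3 * q) := by
    intro a ha0 ha1
    have h1 := hVY (Pl d) volume (Cb d) L (bv d) ε lam K hSys hε hPos hlt A hAm a ha0 ha1 q hq0 ?_
    · rw [← hτ] at h1
      have h2 : 0 ≤ lam ^ 3 * q := by positivity
      by_contra hcon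
      push Not at hcon
      nlinarith
    · have mset : MeasurableSet {p : Pl d × Pl d × Pl d | p.1 ∈ L ∧
          (p.2.1 ∈ L ∧ p.2.1 ∈ A ∧ Cb d p.1 p.2.1) ∧
          (p.2.2 ∈ L ∧ p.2.2 ∈ A ∧ Cb d p.1 p.2.2)} := by
        refine (measurable_fst hLm).inter (MeasurableSet.inter ?_ ?_)
        · exact (measurable_snd.fst hLm).inter ((measurable_snd.fst hAm).inter
            (mC (by fun_prop) (by fun_prop)))
        · exact (measurable_snd.snd hLm).inter ((measurable_snd.snd hAm).inter
            (mC (by fun_prop) (by fun_prop)))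
      have hsub : {p : Pl d × Pl d × Pl d | p.1 ∈ L ∧
          (p.2.1 ∈ L ∧ p.2.1 ∈ A ∧ Cb d p.1 p.2.1) ∧
          (p.2.2 ∈ L ∧ p.2.2 ∈ A ∧ Cb d p.1 p.2.2)} ⊆ Tri u := by
        rintro ⟨w', z, w⟩ ⟨-, ⟨-, h1, h2⟩, -, h3, h4⟩
        rw [hA] at h1 h3
        exact ⟨⟨h1, h2⟩, h3, h4⟩
      calc _ ≤ ∫⁻ t in {p : Pl d × Pl d × Pl d | p.1 ∈ L ∧
            (p.2.1 ∈ L ∧ p.2.1 ∈ A ∧ Cb d p.1 p.2.1) ∧
            (p.2.2 ∈ L ∧ p.2.2 ∈ A ∧ Cb d p.1 p.2.2)},
            (ENNReal.ofReal c1 + (Bad u).indicator (fun _ => 1) t) ∂v3 d := by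
            refine setLIntegral_mono' mset fun t ht' => ?_
            by_cases hbad : t ∈ Bad u
            · rw [Set.indicator_of_mem hbad]
              refine le_trans ?_ le_add_self
              rw [← ENNReal.ofReal_one]
              exact ENNReal.ofReal_le_ofReal (ex_le_one' _ _ _ _ (fun ω => (emv_mem _ ω).1)
                fun ω => (emv_mem _ ω).2)
            · rw [Set.indicator_of_notMem hbad, add_zero]
              refine ENNReal.ofReal_le_ofReal ?_
              obtain ⟨w', z, w⟩ := t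
              obtain ⟨-, ⟨-, h1, h2⟩, -, h3, h4⟩ := ht'
              simp only at h1 h2 h3 h4
              rw [hA] at h1 h3
              simp only [Set.mem_setOf_eq] at h1 h3
              have n1 : ¬ Qr d (1 / 4) u z := fun h => hbad
                (Or.inl (Or.inl (Or.inl (Or.inl (Or.inl h)))))
              have n2 : ¬ Qr d (1 / 4) u w := fun h => hbad
                (Or.inl (Or.inl (Or.inl (Or.inl (Or.inr h)))))
              have n3 : ¬ Qr d (1 / 4) w' z := fun h => hbad
                (Or.inl (Or.inl (Or.inl (Or.inr h))))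
              have n4 : ¬ Qr d (1 / 4) w' w := fun h => hbad (Or.inl (Or.inl (Or.inr h)))
              have n5 : ¬ Qr d (1 / 4) u w' := fun h => hbad (Or.inl (Or.inr h))
              have n6 : ¬ Qr d (1 / 4) z w := fun h => hbad (Or.inr h)
              obtain ⟨T, hT⟩ : ∃ T : Set (Pl d),
                T = {x | Cb d w' x} ∪ {x | Cb d z x} ∪ {x | Cb d w x} := ⟨_, rfl⟩
              have mT : MeasurableSet T := by
                rw [hT]
                exact ((mball w').union (mball z)).union (mball w)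
              have hTd : ∀ x ∈ T, ∑ k, (u k - x k) ^ 2 < 9 := by
                intro x hxT
                rw [hT] at hxT
                rcases hxT with (h | h) | h
                · exact dist3 (GeobR.Cb_symm _ _ h) h2 (GeobR.Cb_symm _ _ h1)
                · exact dist3 (Cb_refl x) (GeobR.Cb_symm _ _ h) (GeobR.Cb_symm _ _ h1)
                · exact dist3 (Cb_refl x) (GeobR.Cb_symm _ _ h) (GeobR.Cb_symm _ _ h3)
              have hTL : T \ A ⊆ L := fun x hxT => (hx x (hTd x hxT.1)).1
              have hTf : volume (T \ A) ≠ ⊤ := ne_top_of_le_ne_top hLf (measure_mono hTL)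
              have hout := vol_out n5 n1 n2 n3 n4 n6 hT (hA ▸ hTf)
              rw [← hA] at hout
              have hlow := low (c := y - η) hlam hLm hLf (mT.diff hAm) hTf
                (fun x hxT => by
                  have := (hx x (hTd x hxT.1)).2
                  linarith [(abs_le.1 this).1])
              have hlow0 := low0 hlam L (T \ A)
              obtain ⟨E1, hE1⟩ : ∃ E1 : ℝ, E1 = lam * ∫ z in T \ A, fp d lam L z := ⟨_, rfl⟩
              rw [← hE1] at hlow hlow0
              have hE : 3 * y - 3 * (τ * y) - 6 * (y * ph d) - 3 * η ≤ (1 - τ) * E1 := by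
                have hτy : 0 ≤ τ * y := mul_nonneg hτ0 hy0
                have hyp : 0 ≤ y * ph d := mul_nonneg hy0 hph
                rcases le_total y η with hle | hle
                · have : 0 ≤ (1 - τ) * E1 := mul_nonneg (by linarith) hlow0
                  linarith
                · have h5 : (3 - 6 * ph d) * (y - η) ≤ E1 := by
                    refine le_trans ?_ hlow
                    have h6 : (y - η) / bv d * (3 * bv d - 6 * (ph d * bv d)) =
                        (3 - 6 * ph d) * (y - η) := by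
                      field_simp
                    rw [← h6]
                    exact mul_le_mul_of_nonneg_left hout (div_nonneg (by linarith) hb.le)
                  have h7 := mul_le_mul_of_nonneg_left h5 (by linarith : 0 ≤ 1 - τ)
                  refine le_trans ?_ h7
                  nlinarith [mul_nonneg hτ0 (mul_nonneg hph hy0), mul_nonneg hτ0 hη,
                    mul_nonneg hph hη, mul_nonneg (mul_nonneg hτ0 hph) hη,
                    mul_nonneg (mul_nonneg hτ0 hph) (by linarith : 0 ≤ y - η),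
                    mul_nonneg hph (mul_nonneg (by linarith : 0 ≤ 1 - τ) hη)]
              have h8 := hPA (Pl d) volume (Cb d) L (bv d) ε lam K hSys hε hPos
                (by rw [← hτ]; exact hτ2) A T hAm mT a ha0 ha1
              have h9 : ex volume (Cb d) lam L (emv A) = p := by rw [hA, hp]; exact fp_em d lam L u
              have h10 : L ∩ (T \ A) = T \ A := Set.inter_eq_right.2 hTL
              have h11 : (lam * ∫ z in L ∩ (T \ A),
                  ex volume (Cb d) lam L (chi (Cb d) (Al (Pl d)) z)) = E1 := by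
                rw [h10, hE1]
                rfl
              have h12 : (lam * ∫ z in L ∩ A,
                  ex volume (Cb d) lam L (chi (Cb d) (Al (Pl d)) z)) = nu := by
                rw [hnu]
                rfl
              rw [h9, h11, h12, ← hτ] at h8
              show ex (md volume (inA A a)) (Cb d) lam L (emv ({x | Cb d w' x} ∪
                {x | Cb d z x} ∪ {x | Cb d w x})) ≤ c1
              rw [← hT]
              have h13 : ex (md volume (inA A a)) (Cb d) lam L (emv T) ≤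
                  Real.exp (-((1 - τ) * E1 + (1 - 2 * τ) * nu)) * Real.exp (y + D) := by
                have h14 : p * Real.exp (y + D) = 1 := by
                  rw [hpe, ← Real.exp_add]
                  simp
                calc ex (md volume (inA A a)) (Cb d) lam L (emv T)
                    = (ex (md volume (inA A a)) (Cb d) lam L (emv T) * p) *
                      Real.exp (y + D) := by rw [mul_assoc, h14, mul_one]
                  _ ≤ _ := mul_le_mul_of_nonneg_right h8 (Real.exp_pos _).le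
              refine h13.trans ?_
              rw [← Real.exp_add, hc1, Real.exp_le_exp]
              have h15 : (1 - 2 * τ) * y - η ≤ (1 - 2 * τ) * nu := by
                have := mul_le_mul_of_nonneg_left hn (by linarith : 0 ≤ 1 - 2 * τ)
                nlinarith [mul_nonneg hτ0 hη]
              linarith
        _ ≤ ∫⁻ t in Tri u, (ENNReal.ofReal c1 + (Bad u).indicator (fun _ => 1) t) ∂v3 d :=
            lintegral_mono_set hsub
        _ = ENNReal.ofReal c1 * v3 d (Tri u) + v3 d (Tri u ∩ Bad u) := by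
            rw [lintegral_add_left measurable_const, setLIntegral_const,
              lintegral_indicator (mBad u), setLIntegral_one, Measure.restrict_apply (mBad u),
              Set.inter_comm (Bad u)]
        _ ≤ ENNReal.ofReal c1 * ENNReal.ofReal (3 * kap d * bv d ^ 3) +
            ENNReal.ofReal (6 * (1 / 2) ^ d * bv d ^ 3) :=
            add_le_add (mul_le_mul_right (v3_Tri u) _) (v3_Bad u)
        _ = ENNReal.ofReal q := by
            rw [← ENNReal.ofReal_mul hc10.le, ← ENNReal.ofReal_add (by positivity)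
              (by positivity), hq]
  have h1 := hVL (Pl d) volume (Cb d) L (bv d) lam K hSys A hAm (2 * (lam ^ 3 * q)) hV
  have h2 : ex volume (Cb d) lam L (emv A) = p := by rw [hA, hp]; exact fp_em d lam L u
  have h3 : (lam * ∫ z in L ∩ A,
      ex volume (Cb d) lam L (chi (Cb d) (Al (Pl d)) z)) = nu := by
    rw [hnu]
    rfl
  rw [h2, h3, hpe, Real.exp_le_exp] at h1
  have h4 : lam ^ 3 * q = y ^ 3 * (3 * kap d *
      Real.exp (4 * D + 5 * (τ * y) + 4 * η + 6 * (y * ph d)) +
      6 * (1 / 2) ^ d * Real.exp (3 * y + 3 * D)) := by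
    have e1 : Real.exp (y + D) ^ 3 = Real.exp (3 * y + 3 * D) := by
      rw [← Real.exp_nat_mul]
      congr 1
      push_cast
      ring
    have e2 : Real.exp (3 * y + 3 * D) * c1 =
        Real.exp (4 * D + 5 * (τ * y) + 4 * η + 6 * (y * ph d)) := by
      rw [hc1, ← Real.exp_add]
      congr 1
      ring
    calc lam ^ 3 * q = (lam * bv d) ^ 3 * (c1 * (3 * kap d) + 6 * (1 / 2) ^ d) := by
          rw [hq]
          ring
      _ = y ^ 3 * (3 * kap d * (Real.exp (3 * y + 3 * D) * c1) +
          6 * (1 / 2) ^ d * Real.exp (3 * y + 3 * D)) := by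
          rw [ht, mul_pow, e1]
          ring
      _ = _ := by rw [e2]
  rw [← hτ, ← h4]
  linarith

end Pool.Agent.HdGas
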