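import Pool.Agent.Lib.NT.Trip4
import Pool.Agent.Lib.NT.Abulk

/-!
# Row VARY: bound for the variances of the free volume (helper40)
-/

set_option autoImplicit false

namespace Pool.Agent.HdGas

open MeasureTheory Filter Topology

namespace Vary

variable {S : Type} [MeasurableSpace S]

theorem u01_inA {A : Set S} (hA : MeasurableSet A) {a : ℝ} (h0 : 0 < a) (h1 : a ≤ 1) :
    U01 (inA A a) := by
  classical
  refine ⟨?_, fun x => ?_⟩
  · unfold inA
    exact Measurable.ite hA measurable_const measurable_const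
  · unfold inA
    split_ifs
    · exact ⟨h0.le, h1⟩
    · exact ⟨zero_le_one, le_rfl⟩

open Classical in
/-- The free indicator is multiplied. -/
theorem chi_ins_eq (C : S → S → Prop) (v p : S) (ω : Om S) :
    chi C (Al S) v (ins p ω) = if C v p then 0 else chi C (Al S) v ω := by
  by_cases h : C v p
  · rw [if_pos h]
    exact Ab59.chi_ins C v p ω h
  · rw [if_neg h]
    exact Ab59.chi_ins' C v p ω h

/-- The three places are free. -/
theorem emv_three (C : S → S → Prop) (p z w : S) (ω : Om S) :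
    emv ({x | C p x} ∪ {x | C z x} ∪ {x | C w x}) ω =
      chi C (Al S) p ω * (chi C (Al S) z ω * chi C (Al S) w ω) := by
  classical
  have h : nV ({x | C p x} ∪ {x | C z x} ∪ {x | C w x}) ω = 0 ↔
      fr C (Al S) p ω ∧ fr C (Al S) z ω ∧ fr C (Al S) w ω := by
    rw [Ab59.nV_zero]
    constructor
    · intro h
      exact ⟨fun i _ hc => h i (Or.inl (Or.inl hc)), fun i _ hc => h i (Or.inl (Or.inr hc)),
        fun i _ hc => h i (Or.inr hc)⟩
    · rintro ⟨h1, h2, h3⟩ i ((hc | hc) | hc)
      · exact h1 i trivial hc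
      · exact h2 i trivial hc
      · exact h3 i trivial hc
  unfold emv chi
  by_cases h1 : fr C (Al S) p ω
  · by_cases h2 : fr C (Al S) z ω
    · by_cases h3 : fr C (Al S) w ω
      · rw [if_pos (h.2 ⟨h1, h2, h3⟩), if_pos h1, if_pos h2, if_pos h3]
        norm_num
      · rw [if_neg (fun hh => h3 (h.1 hh).2.2), if_neg h3]
        ring
    · rw [if_neg (fun hh => h2 (h.1 hh).2.1), if_neg h2]
      ring
  · rw [if_neg (fun hh => h1 (h.1 hh).1), if_neg h1]
    ring

end Vary

open Vary in
/-- Row VARY. -/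
theorem vary_of (hD : DECAY) : VARY := by
  classical
  intro S _ m _ C L b ε lam K hS hε hP hlt A hA a ha0 ha1 q hq0 hq
  have hα := u01_inA hA ha0 ha1
  obtain ⟨m', hm'⟩ : ∃ m' : Measure S, m' = md m (inA A a) := ⟨_, rfl⟩
  obtain ⟨hsf, hS', hP''⟩ := sysa_of S m C L lam b K hS (inA A a) hα
  have hP' := hP'' ε hε hP
  have hle : m' ≤ m := hm' ▸ SysAx.le m hα
  rw [← hm'] at hsf hS' hP' hq ⊢
  obtain ⟨hM1, -⟩ := meas S m' C L lam hS'.meas hS'.measL hS'.fin hS'.lam_nonneg
  obtain ⟨mchi, -, -, -, hsy⟩ := hM1 (Al S) MeasurableSet.univ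
  obtain ⟨-, -, hfin, hXi1, -, -⟩ := bas S m' C L lam hS'.meas hS'.measL hS'.fin hS'.lam_nonneg
  have hlam := hS.lam_nonneg
  obtain ⟨G, hG⟩ : ∃ G : Measure (Om S), G = gib m' C lam L := ⟨_, rfl⟩
  obtain ⟨X, hX⟩ : ∃ X : ℝ, X = Xi m' C lam L := ⟨_, rfl⟩
  rw [← hG] at hfin
  rw [← hX] at hXi1
  have hX0 : 0 < X := by linarith
  have hLA : MeasurableSet (L ∩ A) := hS.measL.inter hA
  have hLAf : m (L ∩ A) ≠ ⊤ := ne_top_of_le_ne_top hS.fin (measure_mono Set.inter_subset_left)
  have hfLA : IsFiniteMeasure (m.restrict (L ∩ A)) :=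
    ⟨by rw [Measure.restrict_apply_univ]; exact lt_top_iff_ne_top.2 hLAf⟩
  have hc01 : ∀ v ω, 0 ≤ chi C (Al S) v ω ∧ chi C (Al S) v ω ≤ 1 := fun v ω => chi_mem _ _ _
  have hcI : ∀ (M : Set S) (ω : Om S), M ⊆ L ∩ A →
      Integrable (fun z => chi C (Al S) z ω) (m.restrict M) := by
    intro M ω hM
    have : IsFiniteMeasure (m.restrict M) :=
      ⟨by rw [Measure.restrict_apply_univ]; exact (measure_mono hM).trans_lt hLAf.lt_top⟩
    refine Integrable.of_bound (mchi.comp measurable_prodMk_right).aestronglyMeasurable 1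
      (Eventually.of_forall fun z => ?_)
    rw [Real.norm_eq_abs, abs_of_nonneg (hc01 z ω).1]
    exact (hc01 z ω).2
  -- the statistic
  have hFn : Fn C L (YA m C lam L A) := by
    refine ⟨?_, ?_, lam * (m (L ∩ A)).toReal, fun ω _ => ?_⟩
    · unfold YA
      exact ((mchi.stronglyMeasurable.integral_prod_left (μ := m.restrict (L ∩ A))
        (f := fun z ω => chi C (Al S) z ω)).measurable).const_mul lam
    · intro n x σ
      unfold YA
      congr 1
      refine integral_congr_ae (Eventually.of_forall fun z => ?_)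
      exact (hsy z).1 n x σ
    · unfold YA
      have h0 : 0 ≤ ∫ z in L ∩ A, chi C (Al S) z ω ∂m := integral_nonneg fun z => (hc01 z ω).1
      rw [abs_of_nonneg (mul_nonneg hlam h0)]
      refine mul_le_mul_of_nonneg_left ?_ hlam
      have h1 : ∫ z in L ∩ A, chi C (Al S) z ω ∂m ≤ ∫ _z in L ∩ A, (1 : ℝ) ∂m :=
        integral_mono (hcI _ ω le_rfl) (integrable_const 1) fun z => (hc01 z ω).2
      rw [integral_const, smul_eq_mul, mul_one] at h1
      simpa [Measure.real] using h1
  have hγ : 0 < 1 - lam * b * (ε + (Real.cosh 0 - 1)) := by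
    rw [Real.cosh_zero, sub_self, add_zero]
    linarith
  have h := hD S m' C L lam b ε K hS' hε hP' (fun _ => 0) 0 measurable_const ⟨0, fun x => by simp⟩
    (fun x y _ => by simp) hγ _ _ hFn hFn
  simp only [mul_zero, neg_zero, Real.exp_zero, Real.cosh_zero, sub_self, add_zero] at h
  -- the effect of a new point
  obtain ⟨Mp, hMp⟩ : ∃ Mp : S → Set S, Mp = fun p => {z | z ∈ L ∩ A ∧ C p z} := ⟨_, rfl⟩
  have hMpm : ∀ p, MeasurableSet (Mp p) := fun p => by
    rw [hMp]
    exact hLA.inter (hS.meas.preimage measurable_prodMk_left)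
  have hMps : ∀ p, Mp p ⊆ L ∩ A := fun p z hz => by
    rw [hMp] at hz
    exact hz.1
  obtain ⟨J, hJ⟩ : ∃ J : S → Om S → ℝ, J = fun p ω => ∫ z in Mp p, chi C (Al S) z ω ∂m :=
    ⟨_, rfl⟩
  have hDY : ∀ p ω, D (YA m C lam L A) p ω = -(lam * J p ω) := by
    intro p ω
    have e1 : ∫ z in L ∩ A, chi C (Al S) z (ins p ω) ∂m =
        ∫ z in (L ∩ A) \ Mp p, chi C (Al S) z ω ∂m := by
      have hcompl : ((L ∩ A) \ Mp p) = (L ∩ A) ∩ (Mp p)ᶜ := rfl
      rw [hcompl, ← setIntegral_indicator (hMpm p).compl]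
      refine setIntegral_congr_fun hLA fun z hz => ?_
      rw [chi_ins_eq]
      by_cases hc : C z p
      · rw [if_pos hc, Set.indicator_of_notMem]
        intro hz'
        exact hz' (by rw [hMp]; exact ⟨hz, hS.symm _ _ hc⟩)
      · rw [if_neg hc, Set.indicator_of_mem]
        intro hz'
        rw [hMp] at hz'
        exact hc (hS.symm _ _ hz'.2)
    have e2 := integral_inter_add_diff (s := L ∩ A) (t := Mp p) (μ := m)
      (f := fun z => chi C (Al S) z ω) (hMpm p) (hcI _ ω le_rfl)
    have e3 : (L ∩ A) ∩ Mp p = Mp p := Set.inter_eq_right.2 (hMps p)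
    rw [e3] at e2
    unfold D YA
    rw [e1, ← e2, hJ]
    ring
  have hJ0 : ∀ p ω, 0 ≤ J p ω := fun p ω => by
    rw [hJ]
    exact integral_nonneg fun z => (hc01 z ω).1
  -- measurability of `J`
  have mJ : Measurable fun t : S × Om S => J t.1 t.2 := by
    have e1 : (fun t : S × Om S => J t.1 t.2) = fun t : S × Om S =>
        ∫ z, (if z ∈ L ∩ A ∧ C t.1 z then chi C (Al S) z t.2 else 0) ∂m := by
      funext t
      rw [hJ]
      simp only
      rw [← integral_indicator (hMpm t.1)]
      refine integral_congr_ae (Eventually.of_forall fun z => ?_)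
      by_cases hz : z ∈ L ∩ A ∧ C t.1 z
      · rw [Set.indicator_of_mem (by rw [hMp]; exact hz)]
        exact (if_pos hz).symm
      · rw [Set.indicator_of_notMem (by rw [hMp]; exact hz)]
        exact (if_neg hz).symm
    rw [e1]
    have hm1 : Measurable fun r : (S × Om S) × S =>
        (if r.2 ∈ L ∩ A ∧ C r.1.1 r.2 then chi C (Al S) r.2 r.1.2 else 0) := by
      refine Measurable.ite ?_ ?_ measurable_const
      · exact (measurable_snd hLA).inter (hS.meas.preimage
          ((measurable_fst.comp measurable_fst).prodMk measurable_snd))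
      · exact mchi.comp (measurable_snd.prodMk (measurable_snd.comp measurable_fst))
    exact hm1.stronglyMeasurable.integral_prod_right'.measurable
  -- the energy
  obtain ⟨hh, hhh⟩ : ∃ hh : S → ℝ, hh = fun p => ex m' C lam L (fun ω =>
    chi C (Al S) p ω * D (YA m C lam L A) p ω * D (YA m C lam L A) p ω) := ⟨_, rfl⟩
  have hhe : ∀ p, hh p = (∫ ω, lam ^ 2 * (chi C (Al S) p ω * (J p ω * J p ω)) ∂G) / X := by
    intro p
    rw [hhh, hG, hX]
    simp only [ex]
    congr 1
    refine integral_congr_ae (Eventually.of_forall fun ω => ?_)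
    simp only
    rw [hDY]
    ring
  have mint : Measurable fun t : S × Om S =>
      lam ^ 2 * (chi C (Al S) t.1 t.2 * (J t.1 t.2 * J t.1 t.2)) :=
    (mchi.mul (mJ.mul mJ)).const_mul _
  have mhh : Measurable hh := by
    have : hh = fun p => (∫ ω, lam ^ 2 * (chi C (Al S) p ω * (J p ω * J p ω)) ∂G) / X := by
      funext p
      exact hhe p
    rw [this]
    exact (mint.stronglyMeasurable.integral_prod_right'.measurable).div_const X
  have hh0 : ∀ p, 0 ≤ hh p := by
    intro p
    rw [hhe]
    exact div_nonneg (integral_nonneg fun ω => mul_nonneg (sq_nonneg _)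
      (mul_nonneg (hc01 p ω).1 (mul_self_nonneg _))) hX0.le
  -- the three point function
  obtain ⟨F, hF⟩ : ∃ F : S × S × S → ENNReal, F = fun t => ENNReal.ofReal (ex m' C lam L
    (emv ({x | C t.1 x} ∪ {x | C t.2.1 x} ∪ {x | C t.2.2 x}))) := ⟨_, rfl⟩
  have hF' : ∀ t : S × S × S, F t = (∫⁻ ω, ENNReal.ofReal (chi C (Al S) t.1 ω) *
      (ENNReal.ofReal (chi C (Al S) t.2.1 ω) * ENNReal.ofReal (chi C (Al S) t.2.2 ω)) ∂G) /
        ENNReal.ofReal X := by
    intro t
    rw [hF]
    simp only [ex]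
    rw [← hG, ← hX, ENNReal.ofReal_div_of_pos hX0]
    congr 1
    rw [ofReal_integral_eq_lintegral_ofReal]
    · refine lintegral_congr fun ω => ?_
      rw [emv_three, ENNReal.ofReal_mul (hc01 _ ω).1, ENNReal.ofReal_mul (hc01 _ ω).1]
    · refine Integrable.of_bound ?_ 1 (Eventually.of_forall fun ω => ?_)
      · have : emv ({x | C t.1 x} ∪ {x | C t.2.1 x} ∪ {x | C t.2.2 x}) = fun ω =>
          chi C (Al S) t.1 ω * (chi C (Al S) t.2.1 ω * chi C (Al S) t.2.2 ω) := by
          funext ω
          exact emv_three C _ _ _ ω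
        rw [this]
        have m1 : ∀ v, Measurable (chi C (Al S) v) := fun v => mchi.comp measurable_prodMk_left
        exact ((m1 _).mul ((m1 _).mul (m1 _))).aestronglyMeasurable
      · rw [Real.norm_eq_abs, abs_of_nonneg (Trip.emv_mem _ ω).1]
        exact (Trip.emv_mem _ ω).2
    · exact Eventually.of_forall fun ω => (Trip.emv_mem _ ω).1
  have mF : Measurable F := by
    have : F = fun t : S × S × S => (∫⁻ ω, ENNReal.ofReal (chi C (Al S) t.1 ω) *
      (ENNReal.ofReal (chi C (Al S) t.2.1 ω) * ENNReal.ofReal (chi C (Al S) t.2.2 ω)) ∂G) /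
        ENNReal.ofReal X := by
      funext t
      exact hF' t
    rw [this]
    refine Measurable.div_const ?_ _
    refine Measurable.lintegral_prod_right' (f := fun r : (S × S × S) × Om S =>
      ENNReal.ofReal (chi C (Al S) r.1.1 r.2) * (ENNReal.ofReal (chi C (Al S) r.1.2.1 r.2) *
        ENNReal.ofReal (chi C (Al S) r.1.2.2 r.2))) ?_
    have k1 : Measurable fun r : (S × S × S) × Om S =>
        ENNReal.ofReal (chi C (Al S) r.1.1 r.2) :=
      (mchi.comp (f := fun r : (S × S × S) × Om S => (r.1.1, r.2)) (by fun_prop)).ennreal_ofReal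
    have k2 : Measurable fun r : (S × S × S) × Om S =>
        ENNReal.ofReal (chi C (Al S) r.1.2.1 r.2) :=
      (mchi.comp (f := fun r : (S × S × S) × Om S => (r.1.2.1, r.2))
        (by fun_prop)).ennreal_ofReal
    have k3 : Measurable fun r : (S × S × S) × Om S =>
        ENNReal.ofReal (chi C (Al S) r.1.2.2 r.2) :=
      (mchi.comp (f := fun r : (S × S × S) × Om S => (r.1.2.2, r.2))
        (by fun_prop)).ennreal_ofReal
    exact k1.mul (k2.mul k3)
  have hpt : ∀ p, ENNReal.ofReal (hh p) ≤ ENNReal.ofReal (lam ^ 2) *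
      ∫⁻ r in Mp p ×ˢ Mp p, F (p, r) ∂(m.prod m) := by
    intro p
    have hfp : IsFiniteMeasure (m.restrict (Mp p)) :=
      ⟨by rw [Measure.restrict_apply_univ]
          exact (measure_mono (hMps p)).trans_lt hLAf.lt_top⟩
    have mz : ∀ ω, Measurable fun z => ENNReal.ofReal (chi C (Al S) z ω) := fun ω =>
      (mchi.comp measurable_prodMk_right).ennreal_ofReal
    have i1 : ∀ ω, ENNReal.ofReal (lam ^ 2 * (chi C (Al S) p ω * (J p ω * J p ω))) =
        ENNReal.ofReal (lam ^ 2) * ∫⁻ r in Mp p ×ˢ Mp p, (ENNReal.ofReal (chi C (Al S) p ω) *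
          (ENNReal.ofReal (chi C (Al S) r.1 ω) * ENNReal.ofReal (chi C (Al S) r.2 ω)))
          ∂(m.prod m) := by
      intro ω
      have j1 : ENNReal.ofReal (J p ω) = ∫⁻ z in Mp p, ENNReal.ofReal (chi C (Al S) z ω) ∂m := by
        rw [hJ]
        exact ofReal_integral_eq_lintegral_ofReal (hcI _ ω (hMps p))
          (Eventually.of_forall fun z => (hc01 z ω).1)
      rw [ENNReal.ofReal_mul (sq_nonneg _), ENNReal.ofReal_mul (hc01 p ω).1,
        ENNReal.ofReal_mul (hJ0 p ω), j1, ← Measure.prod_restrict,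
        lintegral_const_mul' _ _ ENNReal.ofReal_ne_top,
        lintegral_prod_mul (mz ω).aemeasurable (mz ω).aemeasurable]
    have i2 : ENNReal.ofReal (hh p) = (∫⁻ ω, ENNReal.ofReal (lam ^ 2 * (chi C (Al S) p ω *
        (J p ω * J p ω))) ∂G) / ENNReal.ofReal X := by
      rw [hhe, ENNReal.ofReal_div_of_pos hX0]
      congr 1
      refine ofReal_integral_eq_lintegral_ofReal ?_ (Eventually.of_forall fun ω =>
        mul_nonneg (sq_nonneg _) (mul_nonneg (hc01 p ω).1 (mul_self_nonneg _)))
      have jb : ∀ ω, J p ω ≤ (m (L ∩ A)).toReal := by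
        intro ω
        rw [hJ]
        have h1 : ∫ z in Mp p, chi C (Al S) z ω ∂m ≤ ∫ _z in Mp p, (1 : ℝ) ∂m :=
          integral_mono (hcI _ ω (hMps p)) (integrable_const 1) fun z => (hc01 z ω).2
        rw [integral_const, smul_eq_mul, mul_one] at h1
        refine h1.trans ?_
        simp only [Measure.real, Measure.restrict_apply_univ]
        exact ENNReal.toReal_mono hLAf (measure_mono (hMps p))
      refine Integrable.of_bound (mint.comp measurable_prodMk_left).aestronglyMeasurable
        (lam ^ 2 * (1 * ((m (L ∩ A)).toReal * (m (L ∩ A)).toReal)))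
        (Eventually.of_forall fun ω => ?_)
      have h0 : 0 ≤ lam ^ 2 * (chi C (Al S) p ω * (J p ω * J p ω)) :=
        mul_nonneg (sq_nonneg _) (mul_nonneg (hc01 p ω).1 (mul_self_nonneg _))
      rw [Real.norm_eq_abs]
      refine (abs_of_nonneg h0).le.trans ?_
      refine mul_le_mul_of_nonneg_left ?_ (sq_nonneg _)
      exact mul_le_mul (hc01 p ω).2 (mul_le_mul (jb ω) (jb ω) (hJ0 p ω)
        ENNReal.toReal_nonneg) (mul_self_nonneg _) zero_le_one
    rw [i2]
    simp only [i1]
    rw [lintegral_const_mul' _ _ ENNReal.ofReal_ne_top]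
    have i3 : ∫⁻ ω, ∫⁻ r in Mp p ×ˢ Mp p, (ENNReal.ofReal (chi C (Al S) p ω) *
          (ENNReal.ofReal (chi C (Al S) r.1 ω) * ENNReal.ofReal (chi C (Al S) r.2 ω)))
          ∂(m.prod m) ∂G = ∫⁻ r in Mp p ×ˢ Mp p, ∫⁻ ω, (ENNReal.ofReal (chi C (Al S) p ω) *
          (ENNReal.ofReal (chi C (Al S) r.1 ω) * ENNReal.ofReal (chi C (Al S) r.2 ω)))
          ∂G ∂(m.prod m) := by
      refine lintegral_lintegral_swap ?_
      refine Measurable.aemeasurable ?_
      have k1 : Measurable fun r : Om S × S × S => ENNReal.ofReal (chi C (Al S) p r.1) :=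
        (mchi.comp (f := fun r : Om S × S × S => (p, r.1)) (by fun_prop)).ennreal_ofReal
      have k2 : Measurable fun r : Om S × S × S => ENNReal.ofReal (chi C (Al S) r.2.1 r.1) :=
        (mchi.comp (f := fun r : Om S × S × S => (r.2.1, r.1)) (by fun_prop)).ennreal_ofReal
      have k3 : Measurable fun r : Om S × S × S => ENNReal.ofReal (chi C (Al S) r.2.2 r.1) :=
        (mchi.comp (f := fun r : Om S × S × S => (r.2.2, r.1)) (by fun_prop)).ennreal_ofReal
      exact k1.mul (k2.mul k3)
    rw [i3]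
    have i4 : ∫⁻ r in Mp p ×ˢ Mp p, F (p, r) ∂(m.prod m) = (∫⁻ r in Mp p ×ˢ Mp p,
        ∫⁻ ω, (ENNReal.ofReal (chi C (Al S) p ω) *
          (ENNReal.ofReal (chi C (Al S) r.1 ω) * ENNReal.ofReal (chi C (Al S) r.2 ω)))
          ∂G ∂(m.prod m)) / ENNReal.ofReal X := by
      simp only [hF']
      simp only [div_eq_mul_inv]
      rw [lintegral_mul_const' _ _ (ENNReal.inv_ne_top.2 (ENNReal.ofReal_pos.2 hX0).ne')]
    rw [i4, mul_div_assoc]
  -- the total energy
  have hen : en m' C lam L (fun _ => 1) (YA m C lam L A) (YA m C lam L A) ≤ lam ^ 3 * q := by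
    have e1 : en m' C lam L (fun _ => 1) (YA m C lam L A) (YA m C lam L A) =
        lam * ∫ p in L, hh p ∂m' := by
      unfold en
      rw [hhh]
      simp only [one_mul]
    have e2 : ∫ p in L, hh p ∂m' ≤ lam ^ 2 * q := by
      rw [integral_eq_lintegral_of_nonneg_ae (Eventually.of_forall hh0)
        mhh.aestronglyMeasurable]
      refine ENNReal.toReal_le_of_le_ofReal (by positivity) ?_
      rw [ENNReal.ofReal_mul (sq_nonneg _)]
      calc ∫⁻ p in L, ENNReal.ofReal (hh p) ∂m' ≤ ∫⁻ p in L, ENNReal.ofReal (hh p) ∂m :=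
            lintegral_mono' (Measure.restrict_mono le_rfl hle) le_rfl
        _ ≤ ∫⁻ p in L, ENNReal.ofReal (lam ^ 2) *
            ∫⁻ r in Mp p ×ˢ Mp p, F (p, r) ∂(m.prod m) ∂m := lintegral_mono fun p => hpt p
        _ = ENNReal.ofReal (lam ^ 2) * ∫⁻ p in L,
            ∫⁻ r in Mp p ×ˢ Mp p, F (p, r) ∂(m.prod m) ∂m :=
            lintegral_const_mul' _ _ ENNReal.ofReal_ne_top
        _ ≤ ENNReal.ofReal (lam ^ 2) * ENNReal.ofReal q := by
            refine mul_le_mul_right ?_ _
            refine le_trans ?_ hq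
            have mset : MeasurableSet {p : S × S × S | p.1 ∈ L ∧
                (p.2.1 ∈ L ∧ p.2.1 ∈ A ∧ C p.1 p.2.1) ∧
                (p.2.2 ∈ L ∧ p.2.2 ∈ A ∧ C p.1 p.2.2)} := by
              refine (measurable_fst hS.measL).inter (MeasurableSet.inter ?_ ?_)
              · exact (measurable_snd.fst hS.measL).inter ((measurable_snd.fst hA).inter
                  (hS.meas.preimage (measurable_fst.prodMk measurable_snd.fst)))
              · exact (measurable_snd.snd hS.measL).inter ((measurable_snd.snd hA).inter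
                  (hS.meas.preimage (measurable_fst.prodMk measurable_snd.snd)))
            have hFe : ∀ t : S × S × S, ENNReal.ofReal (ex m' C lam L
                (emv ({x | C t.1 x} ∪ {x | C t.2.1 x} ∪ {x | C t.2.2 x}))) = F t := by
              intro t
              rw [hF]
            simp only [hFe]
            rw [← lintegral_indicator mset, lintegral_prod _ (mF.indicator mset).aemeasurable,
              ← lintegral_indicator hS.measL]
            refine lintegral_mono fun p => ?_
            by_cases hp : p ∈ L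
            · rw [Set.indicator_of_mem hp, ← lintegral_indicator ((hMpm p).prod (hMpm p))]
              refine lintegral_mono fun r => ?_
              by_cases hr : r ∈ Mp p ×ˢ Mp p
              · rw [Set.indicator_of_mem hr, Set.indicator_of_mem]
                rw [hMp] at hr
                obtain ⟨⟨⟨h1, h2⟩, h3⟩, ⟨h4, h5⟩, h6⟩ := hr
                exact ⟨hp, ⟨h1, h2, h3⟩, h4, h5, h6⟩
              · rw [Set.indicator_of_notMem hr]
                exact zero_le
            · rw [Set.indicator_of_notMem hp]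
              exact zero_le
    rw [e1]
    calc lam * ∫ p in L, hh p ∂m' ≤ lam * (lam ^ 2 * q) := mul_le_mul_of_nonneg_left e2 hlam
      _ = lam ^ 3 * q := by ring
  have hen0 : 0 ≤ en m' C lam L (fun _ => 1) (YA m C lam L A) (YA m C lam L A) := by
    have e1 : en m' C lam L (fun _ => 1) (YA m C lam L A) (YA m C lam L A) =
        lam * ∫ p in L, hh p ∂m' := by
      unfold en
      rw [hhh]
      simp only [one_mul]
    rw [e1]
    exact mul_nonneg hlam (integral_nonneg hh0)
  rw [Real.mul_self_sqrt hen0] at h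
  have hγ' : 0 < 1 - lam * b * ε := by linarith
  have h1 := (le_abs_self _).trans h
  have h2 := mul_le_mul_of_nonneg_left h1 hγ'.le
  rw [mul_inv_cancel_left₀ hγ'.ne'] at h2
  have e1 : ex m' C lam L (fun ω => YA m C lam L A ω ^ 2) =
      ex m' C lam L (fun ω => YA m C lam L A ω * YA m C lam L A ω) := by
    congr 1
    funext ω
    ring
  rw [e1, sq (ex m' C lam L (YA m C lam L A))]
  exact h2.trans hen

end Pool.Agent.HdGas
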