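import Pool.Agent.Lib.NT.Rows4
import Pool.Agent.Lib.NT.Varn
import Pool.Agent.Lib.NT.Emp
import Pool.Agent.Lib.NT.Dir
import Pool.Agent.Lib.NT.Okb
import Pool.Agent.Lib.NT.SysA

/-!
# Project NT (MP_09cbbd_mp), row VLOW (helper61)
-/

set_option autoImplicit false

namespace Pool.Agent.HdGas

open MeasureTheory Filter Topology

namespace Vl

/-- The statement for polynomials with nonnegative coefficients. -/
theorem poly (K : ℕ) (g : ℕ → ℝ) (hg : ∀ k, 0 ≤ g k) (V : ℝ)
    (h : ∀ τ : ℝ, 0 < τ → τ < 1 →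
      (∑ k ∈ Finset.range (K + 1), (k : ℝ) ^ 2 * (g k * τ ^ k)) /
          (∑ k ∈ Finset.range (K + 1), g k * τ ^ k) -
        (∑ k ∈ Finset.range (K + 1), (k : ℝ) * (g k * τ ^ k)) /
          (∑ k ∈ Finset.range (K + 1), g k * τ ^ k) -
        ((∑ k ∈ Finset.range (K + 1), (k : ℝ) * (g k * τ ^ k)) /
          (∑ k ∈ Finset.range (K + 1), g k * τ ^ k)) ^ 2 ≤ V * τ ^ 2) :
    g 0 / (∑ k ∈ Finset.range (K + 1), g k) ≤ Real.exp (-
      ((∑ k ∈ Finset.range (K + 1), (k : ℝ) * g k) / (∑ k ∈ Finset.range (K + 1), g k)) +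
        V / 2) := by
  rcases (hg 0).eq_or_lt with h0 | h0
  · rw [← h0, zero_div]
    exact (Real.exp_pos _).le
  set ξ : ℝ → ℝ := fun τ => ∑ k ∈ Finset.range (K + 1), g k * τ ^ k with hξ
  set η : ℝ → ℝ := fun τ => ∑ k ∈ Finset.range (K + 1), (k : ℝ) * (g k * τ ^ k) with hη
  set ζ : ℝ → ℝ := fun τ => ∑ k ∈ Finset.range (K + 1), (k : ℝ) ^ 2 * (g k * τ ^ k) with hζ
  have hξ0 : ξ 0 = g 0 := by
    simp only [hξ]
    rw [Finset.sum_eq_single 0]
    · simp
    · intro k _ hk
      rw [zero_pow hk, mul_zero]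
    · intro hk
      simp at hk
  have hη0 : η 0 = 0 := by
    simp only [hη]
    refine Finset.sum_eq_zero fun k _ => ?_
    rcases Nat.eq_zero_or_pos k with rfl | hk
    · simp
    · rw [zero_pow hk.ne', mul_zero, mul_zero]
  have hpos : ∀ τ, 0 ≤ τ → 0 < ξ τ := by
    intro τ hτ
    refine lt_of_lt_of_le h0 ?_
    have : g 0 * τ ^ 0 ≤ ξ τ := Finset.single_le_sum (f := fun k => g k * τ ^ k)
      (fun k _ => mul_nonneg (hg k) (pow_nonneg hτ k)) (Finset.mem_range.2 (Nat.succ_pos K))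
    simpa using this
  have dξ : ∀ τ, HasDerivAt ξ (∑ k ∈ Finset.range (K + 1), g k * (k * τ ^ (k - 1))) τ := by
    intro τ
    exact HasDerivAt.fun_sum fun k _ => (hasDerivAt_pow k τ).const_mul (g k)
  have dη : ∀ τ, HasDerivAt η
      (∑ k ∈ Finset.range (K + 1), (k : ℝ) * (g k * (k * τ ^ (k - 1)))) τ := by
    intro τ
    exact HasDerivAt.fun_sum fun k _ => ((hasDerivAt_pow k τ).const_mul (g k)).const_mul (k : ℝ)
  have e : ∀ (τ : ℝ) (k : ℕ), τ * ((k : ℝ) * τ ^ (k - 1)) = k * τ ^ k := by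
    intro τ k
    rcases Nat.eq_zero_or_pos k with rfl | hk
    · simp
    · obtain ⟨j, rfl⟩ := Nat.exists_eq_add_of_le' hk
      simp only [Nat.add_sub_cancel]
      rw [pow_succ]
      ring
  have e1 : ∀ τ, τ * (∑ k ∈ Finset.range (K + 1), g k * (k * τ ^ (k - 1))) = η τ := by
    intro τ
    rw [Finset.mul_sum]
    refine Finset.sum_congr rfl fun k _ => ?_
    have := e τ k
    linear_combination (g k) * this
  have e2 : ∀ τ, τ * (∑ k ∈ Finset.range (K + 1), (k : ℝ) * (g k * (k * τ ^ (k - 1)))) = ζ τ := by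
    intro τ
    rw [Finset.mul_sum]
    refine Finset.sum_congr rfl fun k _ => ?_
    have := e τ k
    linear_combination (k * g k) * this
  set F : ℝ → ℝ := fun τ => Real.log (ξ τ) - η τ / ξ τ + V / 2 * τ ^ 2 with hF
  have dF : ∀ τ, 0 ≤ τ → HasDerivAt F
      ((∑ k ∈ Finset.range (K + 1), g k * (k * τ ^ (k - 1))) / ξ τ -
        (((∑ k ∈ Finset.range (K + 1), (k : ℝ) * (g k * (k * τ ^ (k - 1)))) * ξ τ -
          η τ * (∑ k ∈ Finset.range (K + 1), g k * (k * τ ^ (k - 1)))) / ξ τ ^ 2) +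
        V / 2 * (((2 : ℕ) : ℝ) * τ ^ (2 - 1))) τ := by
    intro τ hτ
    exact (((dξ τ).log (hpos τ hτ).ne').sub
      ((dη τ).div (dξ τ) (hpos τ hτ).ne')).add ((hasDerivAt_pow 2 τ).const_mul (V / 2))
  have hmono : MonotoneOn F (Set.Icc 0 1) := by
    refine monotoneOn_of_deriv_nonneg (convex_Icc 0 1) ?_ ?_ ?_
    · intro τ hτ
      exact (dF τ hτ.1).continuousAt.continuousWithinAt
    · intro τ hτ
      rw [interior_Icc] at hτ
      exact (dF τ hτ.1.le).differentiableAt.differentiableWithinAt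
    · intro τ hτ
      rw [interior_Icc] at hτ
      rw [(dF τ hτ.1.le).deriv]
      have hx := hpos τ hτ.1.le
      have h1 := h τ hτ.1 hτ.2
      have h2 : τ * ((∑ k ∈ Finset.range (K + 1), g k * (k * τ ^ (k - 1))) / ξ τ -
        (((∑ k ∈ Finset.range (K + 1), (k : ℝ) * (g k * (k * τ ^ (k - 1)))) * ξ τ -
          η τ * (∑ k ∈ Finset.range (K + 1), g k * (k * τ ^ (k - 1)))) / ξ τ ^ 2) +
        V / 2 * (((2 : ℕ) : ℝ) * τ ^ (2 - 1))) =
          η τ / ξ τ - (ζ τ / ξ τ - (η τ / ξ τ) ^ 2) + V * τ ^ 2 := by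
        rw [← e1 τ, ← e2 τ]
        have hx' := hx.ne'
        push_cast
        field_simp
      have h3 : 0 ≤ η τ / ξ τ - (ζ τ / ξ τ - (η τ / ξ τ) ^ 2) + V * τ ^ 2 := by
        have : ζ τ / ξ τ - η τ / ξ τ - (η τ / ξ τ) ^ 2 ≤ V * τ ^ 2 := h1
        linarith
      rw [← h2] at h3
      exact nonneg_of_mul_nonneg_right h3 hτ.1
  have hle := hmono (Set.left_mem_Icc.2 zero_le_one) (Set.right_mem_Icc.2 zero_le_one) zero_le_one
  have hF0 : F 0 = Real.log (g 0) := by
    simp only [hF]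
    rw [hξ0, hη0]
    simp
  have hξ1 : ξ 1 = ∑ k ∈ Finset.range (K + 1), g k := by simp [hξ]
  have hη1 : η 1 = ∑ k ∈ Finset.range (K + 1), (k : ℝ) * g k := by simp [hη]
  have hF1 : F 1 = Real.log (∑ k ∈ Finset.range (K + 1), g k) -
      ((∑ k ∈ Finset.range (K + 1), (k : ℝ) * g k) / (∑ k ∈ Finset.range (K + 1), g k)) +
        V / 2 := by
    simp only [hF]
    rw [hξ1, hη1]
    ring
  rw [hF0, hF1] at hle
  have hX : 0 < ∑ k ∈ Finset.range (K + 1), g k := hξ1 ▸ hpos 1 zero_le_one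
  rw [← Real.log_le_iff_le_exp (div_pos h0 hX), Real.log_div h0.ne' hX.ne']
  linarith

section main

variable {S : Type} [MeasurableSpace S] {m : Measure S} [SigmaFinite m] {C : S → S → Prop}
  {L A : Set S} {lam b : ℝ} {K : ℕ}

theorem chi_ins_le (C : S → S → Prop) (z p : S) (ω : Om S) :
    chi C (Al S) z (ins p ω) ≤ chi C (Al S) z ω := by
  unfold chi
  by_cases h : fr C (Al S) z (ins p ω)
  · have h2 : fr C (Al S) z ω := fun i hi => h i.succ hi
    rw [if_pos h, if_pos h2]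
  · rw [if_neg h]
    split_ifs
    · exact zero_le_one
    · exact le_rfl

theorem chi_nonneg' (C : S → S → Prop) (z : S) (ω : Om S) : 0 ≤ chi C (Al S) z ω := by
  unfold chi
  split_ifs
  · exact zero_le_one
  · exact le_rfl

theorem chi_meas (hS : Sys m C L lam b K) :
    Measurable fun q : S × Om S => chi C (Al S) q.1 q.2 := by
  obtain ⟨hmeas, -⟩ := Ms.meas_row S m C L lam hS.meas hS.measL hS.fin hS.lam_nonneg
  exact (hmeas (Al S) (by simp [Al])).1

theorem fin_LA (hS : Sys m C L lam b K) : m (L ∩ A) ≠ ⊤ :=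
  ne_top_of_le_ne_top hS.fin (measure_mono Set.inter_subset_left)

theorem chi_intOn (hS : Sys m C L lam b K) (ω : Om S) :
    IntegrableOn (fun z => chi C (Al S) z ω) (L ∩ A) m := by
  refine Measure.integrableOn_of_bounded (M := 1) (fin_LA hS)
    ((chi_meas hS).comp measurable_prodMk_right).aestronglyMeasurable ?_
  exact Filter.Eventually.of_forall fun x => by
    rw [Real.norm_eq_abs]
    exact Rt33.abs_chi x ω

theorem YA_nonneg (hS : Sys m C L lam b K) (ω : Om S) : 0 ≤ YA m C lam L A ω :=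
  mul_nonneg hS.lam_nonneg (integral_nonneg fun z => chi_nonneg' C z ω)

theorem YA_ins (hS : Sys m C L lam b K) (p : S) (ω : Om S) :
    YA m C lam L A (ins p ω) ≤ YA m C lam L A ω := by
  unfold YA
  refine mul_le_mul_of_nonneg_left ?_ hS.lam_nonneg
  exact integral_mono (chi_intOn hS _) (chi_intOn hS _) fun z => chi_ins_le C z p ω

theorem YA_fn (hO : OKB) (hS : Sys m C L lam b K) : Fn C L (YA m C lam L A) := by
  obtain ⟨-, -, -, -, -, -, -, hchi⟩ := hO S m C L lam b K hS
  refine ⟨?_, ?_, lam * (m (L ∩ A)).toReal, fun ω _ => ?_⟩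
  · unfold YA
    refine Measurable.const_mul ?_ lam
    have h := ((chi_meas hS).comp measurable_swap).stronglyMeasurable
    exact (StronglyMeasurable.integral_prod_right (f := fun (ω : Om S) (z : S) => chi C (Al S) z ω)
      h).measurable
  · intro n x σ
    unfold YA
    congr 1
    refine integral_congr_ae (Filter.Eventually.of_forall fun z => ?_)
    exact (hchi z).sym n x σ
  · rw [abs_of_nonneg (YA_nonneg hS ω)]
    unfold YA
    refine mul_le_mul_of_nonneg_left ?_ hS.lam_nonneg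
    have h := norm_setIntegral_le_of_norm_le_const (μ := m) (s := L ∩ A)
      (f := fun z => chi C (Al S) z ω) (C := 1) (lt_top_iff_ne_top.2 (fin_LA hS))
      (fun z _ => by rw [Real.norm_eq_abs]; exact Rt33.abs_chi z ω)
    rw [one_mul] at h
    exact (le_abs_self _).trans h

variable {α : S → ℝ} {a : ℝ}

/-- Exchange of the integrals, in the system with the activity `α`, equal to `a` in `A`. -/
theorem K1 (hO : OKB) [SigmaFinite (md m α)] (hS : Sys m C L lam b K)
    (hS' : Sys (md m α) C L lam b K) (hα : U01 α) (hA : MeasurableSet A)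
    (ha : ∀ x ∈ A, α x = a) {H : Om S → ℝ} (hH : Fn C L H) :
    lam * ∫ p in L, ex (md m α) C lam L
      (fun ω => chi C (Al S) p ω * (Vn.iA A p * H ω)) ∂md m α =
        a * ex (md m α) C lam L (fun ω => YA m C lam L A ω * H ω) := by
  obtain ⟨hokm, hokae, -, -, -, -, -, -⟩ := hO S (md m α) C L lam b K hS'
  obtain ⟨B, hB⟩ := hH.bdd
  have hsw := Gn.swap hS' hokm hokae (G := fun p ω => Vn.iA A p * H ω) (B := B)
    (((Vn.meas_iA hA).comp measurable_fst).mul (hH.meas.comp measurable_snd))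
    (fun p ω _ hω _ => by
      rw [abs_mul]
      exact (mul_le_mul (Vn.iA_abs A p) (hB ω hω) (abs_nonneg _) zero_le_one).trans
        (by rw [one_mul]))
  have inner : ∀ ω, ∫ p in L, chi C (Al S) p ω * (Vn.iA A p * H ω) ∂md m α =
      (a * H ω) * ∫ z in L ∩ A, chi C (Al S) z ω ∂m := by
    intro ω
    rw [SysAx.int_md_restrict m hα hS.measL, ← setIntegral_indicator hA, ← integral_const_mul]
    refine integral_congr_ae (Filter.Eventually.of_forall fun p => ?_)
    by_cases hp : p ∈ A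
    · simp only [Vn.iA_mem hp, Set.indicator_of_mem hp, ha p hp]
      ring
    · simp only [Vn.iA_not hp, Set.indicator_of_notMem hp]
      ring
  unfold ex
  rw [integral_div, ← hsw.1]
  simp only [inner]
  rw [← mul_div_assoc, ← mul_div_assoc, ← integral_const_mul, ← integral_const_mul]
  congr 1
  refine integral_congr_ae (Filter.Eventually.of_forall fun ω => ?_)
  simp only [YA]
  ring

theorem nV_del (A : Set S) (ω : Om S) (i : Fin ω.1) :
    (nV A (del ω i) : ℝ) = nV A ω - Vn.iA A (ω.2 i) := by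
  have h1 := Vn.nV_ins A (ω.2 i) (del ω i)
  rw [Gn.ins_del (Rt33.nV_sym A) ω i] at h1
  linarith

theorem E1 (hG : GNZ) (hO : OKB) [SigmaFinite (md m α)] (hS : Sys m C L lam b K)
    (hS' : Sys (md m α) C L lam b K) (hα : U01 α) (hA : MeasurableSet A)
    (ha : ∀ x ∈ A, α x = a) :
    ex (md m α) C lam L (fun ω => (nV A ω : ℝ)) =
      a * ex (md m α) C lam L (YA m C lam L A) := by
  have h1 : Fn C L (fun _ : Om S => (1 : ℝ)) :=
    ⟨measurable_const, fun n x σ => rfl, 1, fun ω _ => by simp⟩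
  have h := K1 hO hS hS' hα hA ha h1
  simp only [mul_one] at h
  rw [← h, Vn.ex_nV hG hS' hA]

theorem E2 (hG : GNZ) (hO : OKB) [SigmaFinite (md m α)] (hS : Sys m C L lam b K)
    (hS' : Sys (md m α) C L lam b K) (hα : U01 α) (hA : MeasurableSet A)
    (ha : ∀ x ∈ A, α x = a) :
    ex (md m α) C lam L (fun ω => (nV A ω : ℝ) ^ 2 - nV A ω) =
      a * ex (md m α) C lam L (fun ω => YA m C lam L A ω * nV A ω) := by
  have hN := Vn.fn_nV hS' hA
  rw [← K1 hO hS hS' hα hA ha hN]
  obtain ⟨B, hB⟩ := hN.bdd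
  have h := hG S (md m α) C L lam b K hS' (fun p ω => Vn.iA A p * (nV A ω : ℝ))
    (((Vn.meas_iA hA).comp measurable_fst).mul (hN.meas.comp measurable_snd))
    (fun p n x σ => by
      show Vn.iA A p * (nV A (⟨n, x ∘ σ⟩ : Om S) : ℝ) = Vn.iA A p * (nV A (⟨n, x⟩ : Om S) : ℝ)
      rw [Rt33.nV_sym A n x σ])
    ⟨B, fun p ω _ hω _ => by
      rw [abs_mul]
      exact (mul_le_mul (Vn.iA_abs A p) (hB ω hω) (abs_nonneg _) zero_le_one).trans
        (by rw [one_mul])⟩
  rw [← h]
  congr 1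
  funext ω
  have e : ∀ i, Vn.iA A (ω.2 i) * (nV A (del ω i) : ℝ) =
      Vn.iA A (ω.2 i) * ((nV A ω : ℝ) - 1) := by
    intro i
    rw [nV_del, mul_sub, Vn.iA_sq]
    ring
  simp only [e]
  rw [← Finset.sum_mul, ← Vn.nV_real]
  ring

theorem E3 (hG : GNZ) (hO : OKB) [SigmaFinite (md m α)] (hS : Sys m C L lam b K)
    (hS' : Sys (md m α) C L lam b K) (hα : U01 α) (hA : MeasurableSet A)
    (ha : ∀ x ∈ A, α x = a) :
    ex (md m α) C lam L (fun ω => YA m C lam L A ω * nV A ω) ≤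
      a * ex (md m α) C lam L (fun ω => YA m C lam L A ω ^ 2) := by
  have hY : Fn C L (YA m C lam L A) := YA_fn hO hS
  obtain ⟨hokm, hokae, -, hokins, -, hFn, -, -⟩ := hO S (md m α) C L lam b K hS'
  obtain ⟨B, hB⟩ := hY.bdd
  have hsym : ∀ p, Sym fun ω => Vn.iA A p * YA m C lam L A (ins p ω) := by
    intro p n x σ
    have h1 := (hFn _ hY).2.2.2 p n x σ
    have h2 := hY.sym n x σ
    unfold D at h1
    show Vn.iA A p * YA m C lam L A (ins p ⟨n, x ∘ σ⟩) =
      Vn.iA A p * YA m C lam L A (ins p ⟨n, x⟩)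
    have h3 : YA m C lam L A (ins p ⟨n, x ∘ σ⟩) = YA m C lam L A (ins p ⟨n, x⟩) := by linarith
    rw [h3]
  have hms : Measurable fun q : S × Om S => Vn.iA A q.1 * YA m C lam L A (ins q.1 q.2) :=
    ((Vn.meas_iA hA).comp measurable_fst).mul (Ok.meas_ins hY.meas)
  have hbd : ∀ p ω, p ∈ L → ok C L ω → chi C (Al S) p ω = 1 →
      |Vn.iA A p * YA m C lam L A (ins p ω)| ≤ B := by
    intro p ω hp hω hc
    rw [abs_mul]
    exact (mul_le_mul (Vn.iA_abs A p) (hB _ (hokins ω hω p hp hc)) (abs_nonneg _)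
      zero_le_one).trans (by rw [one_mul])
  have hms2 : Measurable fun q : S × Om S => Vn.iA A q.1 * YA m C lam L A q.2 :=
    ((Vn.meas_iA hA).comp measurable_fst).mul (hY.meas.comp measurable_snd)
  have hbd2 : ∀ p ω, p ∈ L → ok C L ω → chi C (Al S) p ω = 1 →
      |Vn.iA A p * YA m C lam L A ω| ≤ B := by
    intro p ω _ hω _
    rw [abs_mul]
    exact (mul_le_mul (Vn.iA_abs A p) (hB _ hω) (abs_nonneg _) zero_le_one).trans
      (by rw [one_mul])
  have h := hG S (md m α) C L lam b K hS' (fun p ω => Vn.iA A p * YA m C lam L A (ins p ω))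
    hms hsym ⟨B, hbd⟩
  have e : ex (md m α) C lam L (fun ω => YA m C lam L A ω * nV A ω) =
      ex (md m α) C lam L (fun ω => ∑ i, Vn.iA A (ω.2 i) *
        YA m C lam L A (ins (ω.2 i) (del ω i))) := by
    congr 1
    funext ω
    simp only [Gn.ins_del hY.sym]
    rw [← Finset.sum_mul, ← Vn.nV_real]
    ring
  have e2 : ex (md m α) C lam L (fun ω => YA m C lam L A ω ^ 2) =
      ex (md m α) C lam L (fun ω => YA m C lam L A ω * YA m C lam L A ω) := by
    congr 1
    funext ω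
    ring
  rw [e, h, e2, ← K1 hO hS hS' hα hA ha hY]
  refine mul_le_mul_of_nonneg_left ?_ hS.lam_nonneg
  have s1 := Gn.swap hS' hokm hokae (G := fun p ω => Vn.iA A p * YA m C lam L A (ins p ω))
    hms hbd
  have s2 := Gn.swap hS' hokm hokae (G := fun p ω => Vn.iA A p * YA m C lam L A ω) hms2 hbd2
  unfold ex
  refine setIntegral_mono_on (s1.2.2.1.div_const _) (s2.2.2.1.div_const _) hS.measL
    fun p hp => ?_
  refine div_le_div_of_nonneg_right ?_ ENNReal.toReal_nonneg
  refine integral_mono (s1.2.2.2 p hp) (s2.2.2.2 p hp) fun ω => ?_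
  refine mul_le_mul_of_nonneg_left ?_ (chi_nonneg' C p ω)
  refine mul_le_mul_of_nonneg_left (YA_ins hS p ω) ?_
  by_cases hpA : p ∈ A
  · rw [Vn.iA_mem hpA]
    exact zero_le_one
  · rw [Vn.iA_not hpA]

end main

theorem inA_eq {S : Type} [MeasurableSpace S] (A : Set S) (a : ℝ) : inA A a = Rt33.fac A a := by
  funext x
  unfold inA
  by_cases h : x ∈ A
  · rw [if_pos h, Rt33.fac_mem h]
  · rw [if_neg h, Rt33.fac_not h]

theorem vlow_of (hG : GNZ) (hA : SYSA) (hO : OKB) (hB : BAS) : VLOW := by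
  intro S _ m _ C L b lam K hS A hAm V hV
  obtain ⟨hh, -, hfin, hXi, -, -⟩ := hB S m C L lam hS.meas hS.measL hS.fin hS.lam_nonneg
  set G := gib m C lam L with hGdef
  have hK : ∀ᵐ ω ∂G, nV A ω ≤ K := by
    filter_upwards [(hO S m C L lam b K hS).2.1] with ω hω
    exact (Rt33.nV_le A ω).trans (hS.card ω hω.1 hω.2)
  set g : ℕ → ℝ := fun k => G.real {ω | nV A ω = k} with hg
  have hsum : ∀ F : ℕ → ℝ, ∫ ω, F (nV A ω) ∂G = ∑ k ∈ Finset.range (K + 1), F k * g k :=
    fun F => Emp.sum_num hAm hK F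
  have hX : Xi m C lam L = ∑ k ∈ Finset.range (K + 1), g k := by
    have h := hsum fun _ => 1
    simp only [one_mul, integral_const, smul_eq_mul, mul_one] at h
    rw [← h]
    rfl
  have hex : ∀ F : ℕ → ℝ, ex m C lam L (fun ω => F (nV A ω)) =
      (∑ k ∈ Finset.range (K + 1), F k * g k) / ∑ k ∈ Finset.range (K + 1), g k := by
    intro F
    unfold ex
    rw [← hGdef, hsum F, hX]
  have key := poly K g (fun k => measureReal_nonneg) V ?_
  · have e0 : ex m C lam L (emv A) = g 0 / ∑ k ∈ Finset.range (K + 1), g k := by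
      have h1 := hex fun k => if k = 0 then 1 else 0
      have h2 : (fun ω : Om S => (if nV A ω = 0 then 1 else 0 : ℝ)) = emv A := by
        funext ω
        unfold emv
        rfl
      rw [← h2, h1]
      congr 1
      rw [Finset.sum_eq_single 0]
      · simp
      · intro k _ hk
        simp [hk]
      · intro h
        simp at h
    have e1 : ex m C lam L (fun ω => (nV A ω : ℝ)) =
        (∑ k ∈ Finset.range (K + 1), (k : ℝ) * g k) / ∑ k ∈ Finset.range (K + 1), g k :=
      hex fun k => (k : ℝ)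
    have e3 : ex m C lam L (fun ω => (nV A ω : ℝ)) =
        lam * ∫ z in L ∩ A, ex m C lam L (chi C (Al S) z) ∂m := by
      rw [Vn.ex_nV hG hS hAm, ← setIntegral_indicator hAm]
      congr 1
      refine integral_congr_ae (Filter.Eventually.of_forall fun p => ?_)
      by_cases hp : p ∈ A
      · simp only [Vn.iA_mem hp, mul_one, Set.indicator_of_mem hp]
      · simp only [Vn.iA_not hp, mul_zero, Set.indicator_of_notMem hp]
        unfold ex
        simp
    rw [e0, ← e3, e1]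
    exact key
  · intro τ h0 h1
    have hU : U01 (Rt33.fac A τ) := ⟨Rt33.measurable_fac hAm τ, fun x =>
      ⟨Rt33.fac_nonneg h0.le x, Rt33.fac_le h1.le x⟩⟩
    obtain ⟨hsf, hS', -⟩ := hA S m C L lam b K hS (Rt33.fac A τ) hU
    have := hsf
    have hw1 : ∀ x : S, ENNReal.ofReal (Rt33.fac A τ x) ≤ 1 := fun x => by
      rw [← ENNReal.ofReal_one]
      exact ENNReal.ofReal_le_ofReal (Rt33.fac_le h1.le x)
    have hw := (Rt33.measurable_fac hAm τ).ennreal_ofReal
    have hgib : gib (md m (Rt33.fac A τ)) C lam L =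
        G.withDensity (Wd.W fun x => ENNReal.ofReal (Rt33.fac A τ x)) :=
      Wd.gib_wd m hw hw1 C hh lam hS.measL
    have hint : ∀ F : ℕ → ℝ, ∫ ω, F (nV A ω) ∂gib (md m (Rt33.fac A τ)) C lam L =
        ∑ k ∈ Finset.range (K + 1), F k * (g k * τ ^ k) := by
      intro F
      rw [hgib, integral_withDensity_eq_integral_toReal_smul (Wd.measurable_W hw)]
      · have := hsum fun k => τ ^ k * F k
        simp only [Rt33.W_fac h0.le, smul_eq_mul]
        rw [this]
        exact Finset.sum_congr rfl fun k _ => by ring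
      · refine Filter.Eventually.of_forall fun ω => ?_
        unfold Wd.W
        exact ENNReal.prod_lt_top fun i _ => (hw1 _).trans_lt ENNReal.one_lt_top
    have hX' : Xi (md m (Rt33.fac A τ)) C lam L = ∑ k ∈ Finset.range (K + 1), g k * τ ^ k := by
      have h := hint fun _ => 1
      simp only [one_mul, integral_const, smul_eq_mul, mul_one] at h
      rw [← h]
      rfl
    have hex' : ∀ F : ℕ → ℝ, ex (md m (Rt33.fac A τ)) C lam L (fun ω => F (nV A ω)) =
        (∑ k ∈ Finset.range (K + 1), F k * (g k * τ ^ k)) /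
          ∑ k ∈ Finset.range (K + 1), g k * τ ^ k := by
      intro F
      unfold ex
      rw [hint F, hX']
    have hfa : ∀ x ∈ A, Rt33.fac A τ x = τ := fun x hx => Rt33.fac_mem hx
    have v1 := hex' fun k => (k : ℝ)
    have v2 := hex' fun k => (k : ℝ) ^ 2 - k
    have v3 := E1 hG hO hS hS' hU hAm hfa
    have v4 := E2 hG hO hS hS' hU hAm hfa
    have v5 := E3 hG hO hS hS' hU hAm hfa
    have v6 := hV τ h0 h1.le
    rw [inA_eq] at v6
    have v7 : (∑ k ∈ Finset.range (K + 1), ((k : ℝ) ^ 2 - k) * (g k * τ ^ k)) =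
        (∑ k ∈ Finset.range (K + 1), (k : ℝ) ^ 2 * (g k * τ ^ k)) -
          ∑ k ∈ Finset.range (K + 1), (k : ℝ) * (g k * τ ^ k) := by
      rw [← Finset.sum_sub_distrib]
      exact Finset.sum_congr rfl fun k _ => by ring
    rw [v7, sub_div] at v2
    rw [← v2, ← v1, v4, v3]
    have h2 := mul_le_mul_of_nonneg_left v5 h0.le
    have h3 := mul_le_mul_of_nonneg_left v6 (sq_nonneg τ)
    nlinarith

end Vl

theorem vlow_of (hG : GNZ) (hA : SYSA) (hO : OKB) (hB : BAS) : VLOW := Vl.vlow_of hG hA hO hB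

end Pool.Agent.HdGas
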