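import Pool.Agent.Lib.NT.Abulk
import Pool.Agent.Lib.NT.Boot4
import Pool.Agent.Lib.NT.Bulk
import Pool.Agent.Lib.NT.Cont4
import Pool.Agent.Lib.NT.Core4
import Pool.Agent.Lib.NT.Dens4
import Pool.Agent.Lib.NT.Empw
import Pool.Agent.Lib.NT.Fin4
import Pool.Agent.Lib.NT.Free4h39
import Pool.Agent.Lib.NT.Freev
import Pool.Agent.Lib.NT.Integ4
import Pool.Agent.Lib.NT.Loc4
import Pool.Agent.Lib.NT.Main3
import Pool.Agent.Lib.NT.Mean4
import Pool.Agent.Lib.NT.Meanz
import Pool.Agent.Lib.NT.Num4
import Pool.Agent.Lib.NT.Pa4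
import Pool.Agent.Lib.NT.Pairq40
import Pool.Agent.Lib.NT.Phi8
import Pool.Agent.Lib.NT.Reg4
import Pool.Agent.Lib.NT.Slope4
import Pool.Agent.Lib.NT.Trans39
import Pool.Agent.Lib.NT.Trip4
import Pool.Agent.Lib.NT.Vary40
import Pool.Agent.Lib.NT.Vlow

/-!
# Mean field theory up to the negative part of the Fourier transform: assembly of the rows
-/

set_option autoImplicit false

namespace Pool.Agent.HdGas

theorem varn_row : VARN := varn_of decay_row gnz_row

theorem emp_row : EMP := emp_of varn_row sysa_of okb bas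

theorem empw_row : EMPW := empw_of emp_row gnz_row okb

theorem bulk_row : BULK := bulk_of (abulk_of decay_row sysa_of okb) (trans4_of okb)

theorem pa4_row : PA4 := pa4_of emp_row empw_row varn_row gnz_row sysa_of okb

theorem freev_row : FREEV := freev_of (markov_of split bas meas) meas bas

theorem pairq_row : PAIRQ := pairq_of emp_row gnz_row

theorem vary_row : VARY := vary_of decay_row

theorem loc4_row : LOC4 :=
  loc4_of bulk_row (core4_of freev_row pairq_row pup_row reg4_of ovl_of) cont4_of boot4_of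
    (trans4_of okb) (trip4_of (vlow_of gnz_row sysa_of okb bas) vary_row pa4_row) phi8 num4_of
    ovl_of

/-- The theorem. -/
theorem mfthm4 : MFTHM4 :=
  fin4_of loc4_row (mean4_of int_row) slope4_of (free4_of integ4_of dens4_of) thermo_row unit_row
    phi8 num4_of (meanz_of int_row)

end Pool.Agent.HdGas
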