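import Pool.Agent.Lib.NT.RowsM
import Pool.Agent.Lib.MF.RowConv

/-!
# The local density is close to the mean field value
-/

set_option autoImplicit false

namespace Pool.Agent.HdGas

open MeasureTheory Real Set Cv

noncomputable section

namespace ProfM

/-- A quadratic inequality. -/
theorem quad {x p q r : ℝ} (hx : 0 ≤ x) (hp : 3 / 4 ≤ p) (hq : 0 ≤ q) (hr : 0 ≤ r)
    (h : p * x ^ 2 ≤ q * x + 2 * r) : x ≤ 4 / 3 * q + √(3 * r) := by
  by_contra hcon
  push Not at hcon
  have hs := Real.sqrt_nonneg (3 * r)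
  have hs2 : √(3 * r) ^ 2 = 3 * r := Real.sq_sqrt (by positivity)
  set s := √(3 * r) with hs'
  have h1 : 0 < x - 4 / 3 * q := by linarith
  have h2 : s < x - 4 / 3 * q := by linarith
  have h3 : s ^ 2 ≤ x * (x - 4 / 3 * q) := by nlinarith
  have h4 : 3 / 4 * x ^ 2 ≤ q * x + 2 * r := by nlinarith [sq_nonneg x]
  have h5 : s ^ 2 < x * (x - 4 / 3 * q) := by
    rcases hs.eq_or_lt with h | h
    · rw [← h] at h2 ⊢
      have : 0 < x := by linarith
      have := mul_pos this h1
      simpa using this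
    · nlinarith
  nlinarith

end ProfM

theorem prof2_of (hU : UNIQ) : PROF2 := by
  intro S _ m _ C L b κ ε lam c K hG hS hε0 hP hε hκ hc0 hc
  have hl := hS.lam_nonneg
  have hb0 := hG.b_pos
  have hκ0 := hG.kap_pos
  have hκ1 := hG.kap_le
  have ht : 0 ≤ lam * b := mul_nonneg hl hb0.le
  set t := lam * b with ht'
  have hτ0 : 0 ≤ t ^ 2 * κ := by positivity
  have hθ : t * κ ≤ 1 / 2 := by
    by_contra hcon
    push Not at hcon
    nlinarith
  have h := hU S m C L b κ ε lam c K hG hS hε0 hP hε (by linarith) hθ hc0 hc _ rfl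
  set N1 := ∫ v in L, |t * ex m C lam L (chi C (Al S) v) - c| ∂m with hN1
  have hN0 : 0 ≤ N1 := setIntegral_nonneg hG.measL fun v _ => abs_nonneg _
  have hB0 : 0 ≤ Bd m C L b c := by
    refine setIntegral_nonneg hG.measL fun v _ => mul_nonneg hc0 ?_
    rw [sub_nonneg, div_le_one hb0]
    exact LC_le hG v
  have hM0 : 0 ≤ (m L).toReal := ENNReal.toReal_nonneg
  set M := (m L).toReal with hM
  set B := Bd m C L b c with hB
  have h1 : (1 - 6 * (t ^ 2 * κ)) * N1 ^ 2 ≤
      (12 * (t ^ 2 * κ) * c * M + t * B) * N1 + 2 * (c * t * B * M) := by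
    nlinarith
  have h2 := ProfM.quad hN0 (by linarith : 3 / 4 ≤ 1 - 6 * (t ^ 2 * κ)) (by positivity)
    (by positivity) h1
  have e : 3 * (c * t * B * M) = 3 * c * t * B * M := by ring
  rw [e] at h2
  linarith

end

end Pool.Agent.HdGas
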