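import Pool.Agent.Lib.NT.ConcM

/-!
# Mean field theory with the sharp error, row PTW: the self-consistency equation for the local
density (helper27)
-/

set_option autoImplicit false

namespace Pool.Agent.HdGas

open MeasureTheory Filter Topology

namespace Ptw

variable {S : Type} [MeasurableSpace S] {m : Measure S} [SigmaFinite m] {C : S → S → Prop}
  {L : Set S} {b κ ε lam : ℝ} {K : ℕ}

/-- Fubini for the free volume near `v`. -/
theorem ex_free (hS : Sys m C L lam b K) (v : S) :
    ex m C lam L (fun ω => ∫ z in {z | z ∈ L ∧ C v z}, chi C (Al S) z ω ∂m) =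
      ∫ z in {z | z ∈ L ∧ C v z}, ex m C lam L (chi C (Al S) z) ∂m := by
  have hf := hS.finG
  have hB : IsFiniteMeasure (m.restrict {z | z ∈ L ∧ C v z}) := ⟨by
    rw [Measure.restrict_apply_univ]
    exact (measure_mono fun z hz => hz.1).trans_lt (lt_top_iff_ne_top.2 hS.fin)⟩
  have hI : Integrable (fun q : S × Om S => chi C (Al S) q.1 q.2)
      ((m.restrict {z | z ∈ L ∧ C v z}).prod (gib m C lam L)) := by
    refine Integrable.of_bound hS.meas_chi.aestronglyMeasurable 1 (ae_of_all _ fun q => ?_)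
    rcases cw_chi01 C q.1 q.2 with h | h <;> rw [h] <;> simp
  have hsw := integral_integral_swap (μ := m.restrict {z | z ∈ L ∧ C v z})
    (ν := gib m C lam L) (f := fun z ω => chi C (Al S) z ω) hI
  unfold ex
  rw [integral_div, ← hsw]

/-- Free volume and the functional `Y`. -/
theorem EY_le (hO : OKB) (hY : YCHI) (hS : Sys m C L lam b K) (hG : Geo m C L b κ) (v : S) :
    0 ≤ ex m C lam L (Yk m C lam L (Al S) v) -
        lam * ∫ z in {z | z ∈ L ∧ C v z}, ex m C lam L (chi C (Al S) z) ∂m ∧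
      ex m C lam L (Yk m C lam L (Al S) v) -
        lam * ∫ z in {z | z ∈ L ∧ C v z}, ex m C lam L (chi C (Al S) z) ∂m ≤
        2 * ((lam * b) ^ 2 * κ) := by
  obtain ⟨h1, h2⟩ := hY S m C L b κ lam hG hS.lam_nonneg v
  have hYf := Cnc.Y_fn hS v
  obtain ⟨-, -, -, -, -, h6, -, -⟩ := hO S m C L lam b K hS
  have hfin := hS.finG
  have hmchi : Measurable fun ω : Om S => ∫ z in {z | z ∈ L ∧ C v z}, chi C (Al S) z ω ∂m :=
    (hS.meas_chi.stronglyMeasurable.integral_prod_left (μ := m.restrict {z | z ∈ L ∧ C v z})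
      (f := fun z ω => chi C (Al S) z ω)).measurable
  have hI1 := (h6 _ hYf).1
  have hI2 : Integrable (fun ω : Om S => lam * ∫ z in {z | z ∈ L ∧ C v z},
      chi C (Al S) z ω ∂m) (gib m C lam L) := by
    refine Integrable.of_bound (hmchi.const_mul lam).aestronglyMeasurable (2 * (lam * b))
      (ae_of_all _ fun ω => ?_)
    obtain ⟨a1, a2⟩ := h1 ω
    have a3 := Cnc.Y_nonneg hS v ω
    have a4 := Cnc.Y_le hS v ω
    rw [Real.norm_eq_abs, abs_le]
    constructor <;> linarith
  have e : ex m C lam L (fun ω => Yk m C lam L (Al S) v ω -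
      lam * ∫ z in {z | z ∈ L ∧ C v z}, chi C (Al S) z ω ∂m) =
      ex m C lam L (Yk m C lam L (Al S) v) -
        lam * ∫ z in {z | z ∈ L ∧ C v z}, ex m C lam L (chi C (Al S) z) ∂m := by
    rw [← ex_free hS v]
    unfold ex
    rw [integral_sub hI1 hI2, integral_const_mul]
    ring
  rw [← e]
  refine ⟨?_, by linarith⟩
  unfold ex
  exact div_nonneg (integral_nonneg fun ω => (h1 ω).1) hS.xi_pos.le

/-- `1 / Ξ` of the free volume is admissible. -/
theorem X_fn (hS : Sys m C L lam b K) (v : S) :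
    Fn C L (fun ω => (1 : ℝ) / Xi m C lam (Tk C L (Al S) v ω)) := by
  have h2 := (_root_.Pool.Agent.HdGas.meas S m C L lam hS.meas hS.measL hS.fin
    hS.lam_nonneg).2 v
  refine ⟨measurable_const.div h2, fun n x σ => ?_, 1, fun ω _ => ?_⟩
  · have e : Tk C L (Al S) v ⟨n, x ∘ σ⟩ = Tk C L (Al S) v ⟨n, x⟩ := by
      ext z
      rw [Cnc.mem_Tk, Cnc.mem_Tk]
      exact and_congr Iff.rfl (and_congr Iff.rfl (σ.forall_congr fun i => Iff.rfl))
    show (1 : ℝ) / _ = 1 / _
    rw [e]
  · have h3 : 1 ≤ Xi m C lam (Tk C L (Al S) v ω) :=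
      (bas S m C _ lam hS.meas (Cnc.meas_Tk hS v ω) (Cnc.Tk_fin hS v ω)
        hS.lam_nonneg).2.2.2.1
    rw [abs_of_nonneg (by positivity), div_le_one (by linarith)]
    exact h3

theorem a_eq (hM : MARKOV) (hS : Sys m C L lam b K) (hG : Geo m C L b κ) (v : S) :
    ex m C lam L (chi C (Al S) v) =
      ex m C lam L (fun ω => (1 : ℝ) / Xi m C lam (Tk C L (Al S) v ω)) := by
  have h := hM S m C L b κ lam hG hS.lam_nonneg v (fun _ => 1) measurable_const
    (fun _ _ _ => rfl) ⟨1, fun _ => by simp⟩ (fun _ _ _ => rfl)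
  simp only [mul_one] at h
  exact h

end Ptw

open Ptw in
/-- Row PTW. -/
theorem ptw_of (hO : OKB) (hC : CONC) (hY : YCHI) (hI : IDEAL) (hM : MARKOV) : PTW := by
  intro S _ m _ C L b κ ε lam K hG hS h0 hP h1 h2 h3 v
  have hlb : 0 ≤ lam * b := mul_nonneg hS.lam_nonneg hS.b_pos.le
  have hk := hG.kap_pos
  have hth : 0 ≤ lam * b * κ := mul_nonneg hlb hk.le
  have hYf := Cnc.Y_fn hS v
  obtain ⟨e0, e1⟩ := EY_le hO hY hS hG v
  have hone : Fn C L (fun _ : Om S => (1 : ℝ)) :=
    ⟨measurable_const, fun _ _ _ => rfl, |1|, fun _ _ => le_rfl⟩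
  set A : ℝ := lam * ∫ z in {z | z ∈ L ∧ C v z}, ex m C lam L (chi C (Al S) z) ∂m with hA
  set E : ℝ := ex m C lam L (Yk m C lam L (Al S) v) with hE
  have hEt : E ≤ lam * b := by
    have := Cnc.ex_mono hO hS hYf (G := fun _ => lam * b)
      ⟨measurable_const, fun _ _ _ => rfl, |lam * b|, fun _ _ => le_rfl⟩
      fun ω _ => Cnc.Y_le hS v ω
    rwa [Cnc.ex_const hS] at this
  have hsub : ∀ ω, Tk C L (Al S) v ω ⊆ {z | C v z} := fun ω z hz => hz.2.1
  rw [a_eq hM hS hG v]
  constructor
  · -- lower bound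
    have hexp : Fn C L (fun ω => Real.exp (-(1 * Yk m C lam L (Al S) v ω))) :=
      Cnc.E_fn hS v zero_le_one
    have s1 : ex m C lam L (fun ω => Real.exp (-(1 * Yk m C lam L (Al S) v ω))) ≤
        ex m C lam L (fun ω => (1 : ℝ) / Xi m C lam (Tk C L (Al S) v ω)) := by
      refine Cnc.ex_mono hO hS hexp (X_fn hS v) fun ω _ => ?_
      have h4 := (hI S m C L b κ lam hG hS.lam_nonneg v _ (Cnc.meas_Tk hS v ω) (hsub ω)).2
      have h5 : 1 ≤ Xi m C lam (Tk C L (Al S) v ω) :=
        (bas S m C _ lam hS.meas (Cnc.meas_Tk hS v ω) (Cnc.Tk_fin hS v ω)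
          hS.lam_nonneg).2.2.2.1
      rw [one_mul, Real.exp_neg, inv_eq_one_div]
      exact one_div_le_one_div_of_le (by linarith) h4
    have s2 : Real.exp (-E) ≤
        ex m C lam L (fun ω => Real.exp (-(1 * Yk m C lam L (Al S) v ω))) := by
      have s3 : ex m C lam L (fun ω => (Real.exp (-E) * (1 + E)) * (fun _ : Om S => (1 : ℝ)) ω +
          (-Real.exp (-E)) * Yk m C lam L (Al S) v ω) ≤
          ex m C lam L (fun ω => Real.exp (-(1 * Yk m C lam L (Al S) v ω))) := by
        refine Cnc.ex_mono hO hS ?_ hexp fun ω _ => ?_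
        · refine ⟨(measurable_const.mul measurable_const).add (hYf.meas.const_mul _),
            fun n x σ => ?_, |Real.exp (-E) * (1 + E)| + Real.exp (-E) * (lam * b),
            fun ω _ => ?_⟩
          · show _ + _ = _ + _
            rw [hYf.sym n x σ]
          · refine (abs_add_le _ _).trans (add_le_add ?_ ?_)
            · rw [mul_one]
            · rw [abs_mul, abs_neg, abs_of_pos (Real.exp_pos _),
                abs_of_nonneg (Cnc.Y_nonneg hS v ω)]
              exact mul_le_mul_of_nonneg_left (Cnc.Y_le hS v ω) (Real.exp_pos _).le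
        · have h4 := Real.add_one_le_exp (E - Yk m C lam L (Al S) v ω)
          have h5 : Real.exp (-(1 * Yk m C lam L (Al S) v ω)) =
              Real.exp (-E) * Real.exp (E - Yk m C lam L (Al S) v ω) := by
            rw [← Real.exp_add]
            congr 1
            ring
          rw [h5]
          have h6 := mul_le_mul_of_nonneg_left h4 (Real.exp_pos (-E)).le
          linarith
      rw [Cnc.ex_lin hO hS hone hYf, Cnc.ex_const hS, ← hE] at s3
      have s4 : Real.exp (-E) * (1 + E) * 1 + -Real.exp (-E) * E = Real.exp (-E) := by ring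
      rwa [s4] at s3
    refine le_trans ?_ (s2.trans s1)
    rw [Real.exp_le_exp]
    linarith
  · -- upper bound
    have hc0 : 0 ≤ 1 - 2 * (lam * b * κ) := by linarith
    have s1 : ex m C lam L (fun ω => (1 : ℝ) / Xi m C lam (Tk C L (Al S) v ω)) ≤
        ex m C lam L (fun ω =>
          Real.exp (-((1 - 2 * (lam * b * κ)) * Yk m C lam L (Al S) v ω))) := by
      refine Cnc.ex_mono hO hS (X_fn hS v) (Cnc.E_fn hS v hc0) fun ω _ => ?_
      have h4 := (hI S m C L b κ lam hG hS.lam_nonneg v _ (Cnc.meas_Tk hS v ω) (hsub ω)).1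
      have y0 := Cnc.Y_nonneg hS v ω
      have y1 := Cnc.Y_le hS v ω
      have hYd : lam * (m (Tk C L (Al S) v ω)).toReal = Yk m C lam L (Al S) v ω := rfl
      rw [hYd] at h4
      have h5 : Yk m C lam L (Al S) v ω * (lam * b * κ) ≤ 1 / 2 := by
        have := mul_le_mul_of_nonneg_right y1 hth
        have e : lam * b * (lam * b * κ) = (lam * b) ^ 2 * κ := by ring
        linarith
      have h6 := Cnc.one_sub_ge (mul_nonneg y0 hth) h5
      have h7 : Real.exp ((1 - 2 * (lam * b * κ)) * Yk m C lam L (Al S) v ω) ≤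
          Xi m C lam (Tk C L (Al S) v ω) := by
        refine le_trans ?_ h4
        refine le_trans (le_of_eq ?_) (mul_le_mul_of_nonneg_left h6 (Real.exp_pos _).le)
        rw [← Real.exp_add]
        congr 1
        ring
      rw [Real.exp_neg, inv_eq_one_div]
      exact one_div_le_one_div_of_le (Real.exp_pos _) h7
    have s2 := hC S m C L b κ ε lam K hG hS h0 hP h1 h2 h3 v
    refine (s1.trans s2).trans ?_
    rw [Real.exp_le_exp, ← hE]
    have h8 : lam * b * κ * E ≤ (lam * b) ^ 2 * κ := by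
      have := mul_le_mul_of_nonneg_left hEt hth
      have e : lam * b * κ * (lam * b) = (lam * b) ^ 2 * κ := by ring
      linarith
    nlinarith

end Pool.Agent.HdGas
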