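import Pool.Agent.Lib.NT.RowsM
import Pool.Agent.Lib.NT.SysB
import Pool.Agent.Lib.MF.Slope
import Pool.Agent.Lib.MF.Bas
import Pool.Agent.Lib.MF.Jen

/-! # Project NT, row SLOPE2: the slopes of the pressure, sharp error.  helper61. -/

set_option autoImplicit false

namespace Pool.Agent.HdGas

open MeasureTheory Filter Topology Pool.Agent.SquareWellGas Pool.Agent.KacGas Pool.Agent.VdwGas

namespace SlopeM

variable {d : ℕ}

/-- the error in one box. -/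
noncomputable def G2 (τ t c δ : ℝ) : ℝ :=
  16 * τ * c + 4 / 3 * (t * (c * δ)) + √(3 * c * t * (c * δ))

theorem box_err2 {τ t c V B δ : ℝ} (hV : 0 ≤ V) (ht : 0 ≤ t) (hc : 0 ≤ c)
    (hB : B ≤ c * δ * V) :
    16 * τ * c * V + 4 / 3 * (t * B) + √(3 * c * t * B * V) ≤ V * G2 τ t c δ := by
  have h1 : √(3 * c * t * B * V) ≤ √(3 * c * t * (c * δ)) * V := by
    have e : √(3 * c * t * (c * δ)) * V = √(3 * c * t * (c * δ) * V ^ 2) := by
      rw [Real.sqrt_mul' _ (sq_nonneg V), Real.sqrt_sq hV]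
    rw [e]
    refine Real.sqrt_le_sqrt ?_
    have h2 : 3 * c * t * V * B ≤ 3 * c * t * V * (c * δ * V) :=
      mul_le_mul_of_nonneg_left hB (by positivity)
    nlinarith
  have h2 : t * B ≤ t * (c * δ * V) := mul_le_mul_of_nonneg_left hB ht
  unfold G2
  nlinarith

/-- the inequality in one box. -/
theorem box (hG : GAS2) (hS : SYSB) (hJ : JEN) (hd : 1 ≤ d) {μ c : ℝ} (hc : 0 ≤ c)
    (hμ : c * Real.exp c = Real.exp μ * bv d)
    (h1 : (Real.exp μ * bv d) ^ 2 * kap d ≤ 1 / 24) (h2 : Real.exp μ * bv d * epd d ≤ 1 / 2)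
    (h : ℝ) {ℓ : ℝ} (hℓ : 2 ≤ ℓ) :
    h * c - |h| * G2 ((Real.exp μ * bv d) ^ 2 * kap d) (Real.exp μ * bv d) c
        (1 - (1 - 2 / ℓ) ^ d) ≤
      bv d * (Real.log (Xi volume (Cb d) (Real.exp (μ + h)) (Box d ℓ)) / ℓ ^ d -
        Real.log (Xi volume (Cb d) (Real.exp μ) (Box d ℓ)) / ℓ ^ d) := by
  have hb : 0 < bv d := GeobR.bv_pos d
  have hgeo := geob_of d hd ℓ
  have hV : (volume (Box d ℓ)).toReal = ℓ ^ d := Bdr.vol_Box (by linarith)
  have hVpos : 0 < ℓ ^ d := pow_pos (by linarith) d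
  obtain ⟨K, hK⟩ := hS d hd (Real.exp μ) ℓ (Real.exp_pos μ).le (by linarith)
  have hgas := hG _ volume (Cb d) (Box d ℓ) (bv d) (kap d) (epd d) (Real.exp μ) c K hgeo hK
    (SlopeR.epd_nonneg d) (SlopeR.posi hd ℓ) h2 h1 hc hμ
  have hjen := hJ _ volume (Cb d) (Box d ℓ) hgeo.meas hgeo.measL hgeo.fin μ h
  obtain ⟨hB0, hB⟩ := bdry d hd c hc ℓ hℓ
  rw [hV] at hgas
  set t := Real.exp μ * bv d with ht
  have ht0 : 0 < t := mul_pos (Real.exp_pos _) hb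
  set N := ex volume (Cb d) (Real.exp μ) (Box d ℓ) (fun ω => (ω.1 : ℝ)) with hN
  set V := ℓ ^ d with hVd
  set B := Bd volume (Cb d) (Box d ℓ) (bv d) c with hBd
  have hδ : B ≤ c * (1 - (1 - 2 / ℓ) ^ d) * V := by
    refine hB.trans (le_of_eq ?_)
    have : (1 - 2 / ℓ) ^ d * ℓ ^ d = (ℓ - 2) ^ d := by
      rw [← mul_pow]
      congr 1
      have : ℓ ≠ 0 := by linarith
      field_simp
    rw [← this, hVd]
    ring
  have hgas' : |bv d * N - c * V| ≤ V * G2 (t ^ 2 * kap d) t c (1 - (1 - 2 / ℓ) ^ d) :=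
    hgas.trans (box_err2 hVpos.le ht0.le hc hδ)
  have hh : h * c * V - |h| * (V * G2 (t ^ 2 * kap d) t c (1 - (1 - 2 / ℓ) ^ d)) ≤
      h * (bv d * N) := by
    have k1 : |h * (bv d * N - c * V)| ≤
        |h| * (V * G2 (t ^ 2 * kap d) t c (1 - (1 - 2 / ℓ) ^ d)) := by
      rw [abs_mul]
      exact mul_le_mul_of_nonneg_left hgas' (abs_nonneg _)
    have k2 := (abs_le.1 k1).1
    linarith
  rw [← sub_div, mul_div_assoc', le_div_iff₀ hVpos]
  have k3 : bv d * (h * N) ≤ bv d * (Real.log (Xi volume (Cb d) (Real.exp (μ + h)) (Box d ℓ)) -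
      Real.log (Xi volume (Cb d) (Real.exp μ) (Box d ℓ))) := mul_le_mul_of_nonneg_left hjen hb.le
  linarith

theorem G2_lim (τ t c : ℝ) :
    Tendsto (fun ℓ : ℝ => G2 τ t c (1 - (1 - 2 / ℓ) ^ d)) atTop (𝓝 (G2 τ t c 0)) := by
  have h1 : Tendsto (fun ℓ : ℝ => 1 - (1 - 2 / ℓ) ^ d) atTop (𝓝 0) := by
    have h2 : Tendsto (fun ℓ : ℝ => 2 / ℓ) atTop (𝓝 0) :=
      tendsto_const_nhds.div_atTop tendsto_id
    have h3 : Tendsto (fun ℓ : ℝ => 1 - (1 - 2 / ℓ) ^ d) atTop (𝓝 (1 - (1 - 0) ^ d)) :=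
      tendsto_const_nhds.sub ((tendsto_const_nhds.sub h2).pow d)
    simpa using h3
  have hc : Continuous (G2 τ t c) := by
    unfold G2
    fun_prop
  exact (hc.tendsto 0).comp h1

theorem G2_zero (τ t c : ℝ) : G2 τ t c 0 = 16 * τ * c := by
  unfold G2
  simp

end SlopeM

open SlopeM in
/-- Row SLOPE2. -/
theorem slope2_of (hG : GAS2) : SLOPE2 := by
  intro d hd P hP μ c hc hμ h1 h2 h
  have l1 : Tendsto (fun ℓ : ℝ => h * c - |h| * G2 ((Real.exp μ * bv d) ^ 2 * kap d)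
      (Real.exp μ * bv d) c (1 - (1 - 2 / ℓ) ^ d)) atTop
      (𝓝 (h * c - |h| * G2 ((Real.exp μ * bv d) ^ 2 * kap d) (Real.exp μ * bv d) c 0)) :=
    tendsto_const_nhds.sub ((G2_lim _ _ c).const_mul _)
  have l2 : Tendsto (fun ℓ : ℝ => bv d *
      (Real.log (Xi volume (Cb d) (Real.exp (μ + h)) (Box d ℓ)) / ℓ ^ d -
        Real.log (Xi volume (Cb d) (Real.exp μ) (Box d ℓ)) / ℓ ^ d)) atTop
      (𝓝 (bv d * (P (μ + h) - P μ))) := ((hP (μ + h)).sub (hP μ)).const_mul _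
  rw [G2_zero] at l1
  have h3 := le_of_tendsto_of_tendsto l1 l2 (by
    filter_upwards [eventually_ge_atTop (2 : ℝ)] with ℓ hℓ
    exact box hG sysb (jen_of bas) hd hc hμ h1 h2 h hℓ)
  exact h3

end Pool.Agent.HdGas
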