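import Pool.Agent.Lib.NT.RowsM
import Pool.Agent.Lib.MF.RowConv
import Pool.Agent.Lib.MF.Meas
import Pool.Agent.Lib.MF.Bas

/-!
# Uniqueness for the self-consistency equation
-/

set_option autoImplicit false

namespace Pool.Agent.HdGas

open MeasureTheory Real Set Cv

noncomputable section

namespace UniqM

theorem key {n c : ℝ} (hn : 0 < n) (hc : 0 < c) (h : c ≤ n) :
    2 * ((n - c) / (n + c)) ≤ Real.log (n / c) := by
  set y : ℝ := (n - c) / (n + c) with hy
  have hp : 0 < n + c := by linarith
  have hy0 : 0 ≤ y := div_nonneg (by linarith) hp.le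
  have hy1 : y < 1 := by
    rw [hy, div_lt_one hp]
    linarith
  have hs := Real.hasSum_log_sub_log_of_abs_lt_one (x := y) (by rwa [abs_of_nonneg hy0])
  have h1 := le_hasSum hs 0 fun k _ => by positivity
  have h2 : Real.log (1 + y) - Real.log (1 - y) = Real.log (n / c) := by
    rw [← Real.log_div (by linarith) (by linarith)]
    congr 1
    have hc' := hc.ne'
    have hp' := hp.ne'
    have e : (1 : ℝ) - (n - c) / (n + c) = 2 * c / (n + c) := by
      field_simp
      ring
    have e' : (1 : ℝ) + (n - c) / (n + c) = 2 * n / (n + c) := by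
      field_simp
      ring
    rw [hy, e, e']
    field_simp
  rw [h2] at h1
  refine le_trans (le_of_eq ?_) h1
  norm_num

/-- `(n - c) log (n / c) ≥ 2 (n - c)^2 / (n + c)`. -/
theorem log_ineq {n c : ℝ} (hn : 0 < n) (hc : 0 < c) :
    2 * ((n - c) ^ 2 / (n + c)) ≤ (n - c) * Real.log (n / c) := by
  rcases le_total c n with h | h
  · have := key hn hc h
    have h2 : 0 ≤ n - c := by linarith
    have e : 2 * ((n - c) ^ 2 / (n + c)) = (n - c) * (2 * ((n - c) / (n + c))) := by ring
    rw [e]
    exact mul_le_mul_of_nonneg_left this h2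
  · have := key hc hn h
    have h2 : 0 ≤ c - n := by linarith
    have e : 2 * ((n - c) ^ 2 / (n + c)) = (c - n) * (2 * ((c - n) / (c + n))) := by
      rw [add_comm n c]
      ring
    have e2 : (n - c) * Real.log (n / c) = (c - n) * Real.log (c / n) := by
      rw [← inv_div c n, Real.log_inv]
      ring
    rw [e, e2]
    exact mul_le_mul_of_nonneg_left this h2

variable {S : Type} [MeasurableSpace S] {m : Measure S} [SigmaFinite m] {C : S → S → Prop}
  {L : Set S} {b κ ε lam c t A : ℝ}

/-- The deterministic inequality. -/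
theorem det (hG : Geo m C L b κ) (hP : Posi m C L b ε) (hε0 : 0 ≤ ε) (ht : 0 < t)
    (hε : t * ε ≤ 1 / 2) (hc0 : 0 < c) (hc : c * Real.exp c = t) {n : S → ℝ} (hn : Measurable n)
    (h0 : ∀ u, 0 < n u) (h1 : ∀ u, n u ≤ t) (_hA0 : 0 ≤ A)
    (hA : ∀ u, |Real.log (n u / c) - (c - b⁻¹ * ∫ z in {z | z ∈ L ∧ C u z}, n z ∂m)| ≤ A) :
    (∫ v in L, |n v - c| ∂m) ^ 2 ≤ (A * (∫ v in L, |n v - c| ∂m) + t * Bd m C L b c) *
      ((∫ v in L, |n v - c| ∂m) + 2 * c * (m L).toReal) := by
  have hL := hG.measL
  have hfin := hG.fin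
  have hb0 := hG.b_pos
  have hct : c ≤ t := by
    rw [← hc]
    have := Real.add_one_le_exp c
    nlinarith
  have habs : ∀ u, |n u - c| ≤ t := fun u => by
    rw [abs_le]
    constructor <;> linarith [h0 u, h1 u]
  set g : S → ℝ := L.indicator fun u => (n u - c) / t with hg
  have hgm : Measurable g := (by fun_prop : Measurable fun u => (n u - c) / t).indicator hL
  have hgL : ∀ u ∈ L, g u = (n u - c) / t := fun u hu => indicator_of_mem hu _
  have hgn : ∀ u, u ∉ L → g u = 0 := fun u hu => indicator_of_notMem hu _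
  have hg1 : ∀ u, |g u| ≤ 1 := by
    intro u
    by_cases hu : u ∈ L
    · rw [hgL u hu, abs_div, abs_of_pos ht, div_le_one ht]
      exact habs u
    · rw [hgn u hu]; simp
  set W : S → ℝ := fun u => ∫ y in {y | C u y}, g y ∂m with hW
  set V : S → ℝ := fun u => (m {z | z ∈ L ∧ C u z}).toReal with hV
  set β : S → ℝ := fun u => c * (1 - V u / b) with hβ
  have hWm : Measurable W := sec_int_meas hG hgm
  have hVm : Measurable V := by
    have e : V = fun u => ∫ y in {y | C u y}, L.indicator (fun _ => (1 : ℝ)) y ∂m := by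
      funext u
      rw [MeasureTheory.setIntegral_indicator hL, setIntegral_const, smul_eq_mul, mul_one]
      simp only [hV]
      rw [Measure.real]
      congr 2
      ext v
      simp [and_comm]
    rw [e]
    exact sec_int_meas hG (measurable_const.indicator hL)
  have hV0 : ∀ u, 0 ≤ V u := fun u => ENNReal.toReal_nonneg
  have hVb : ∀ u, V u ≤ b := fun u => LC_le hG u
  have hβ0 : ∀ u, 0 ≤ β u := fun u => by
    simp only [hβ]
    refine mul_nonneg hc0.le ?_
    rw [sub_nonneg, div_le_one hb0]
    exact hVb u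
  have hβ1 : ∀ u, |β u| ≤ c := fun u => by
    rw [abs_of_nonneg (hβ0 u)]
    simp only [hβ]
    have : 0 ≤ V u / b := div_nonneg (hV0 u) hb0.le
    nlinarith
  have hWt : ∀ u, t * W u = (∫ z in {z | z ∈ L ∧ C u z}, n z ∂m) - c * V u := by
    intro u
    have e1 : W u = ∫ v in {v | v ∈ L ∧ C u v}, ((n v - c) / t) ∂m := by
      simp only [hW, hg]
      rw [MeasureTheory.setIntegral_indicator hL]
      congr 2
      ext v
      simp [and_comm]
    have e2 : ∫ v in {v | v ∈ L ∧ C u v}, ((n v - c) / t) ∂m =
        (∫ v in {v | v ∈ L ∧ C u v}, (n v - c) ∂m) / t := integral_div _ _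
    have e3 : ∫ v in {v | v ∈ L ∧ C u v}, (n v - c) ∂m =
        (∫ z in {z | z ∈ L ∧ C u z}, n z ∂m) - c * V u := by
      rw [integral_sub]
      · rw [setIntegral_const, smul_eq_mul, mul_comm c]
        rfl
      · refine bdd (M := t) (LC_meas hG u) (LC_fin hG u) hn fun v _ => ?_
        rw [abs_of_pos (h0 v)]
        exact h1 v
      · exact integrableOn_const (LC_fin hG u)
    rw [e1, e2, e3]
    field_simp
  have hWb : ∀ u, |W u| ≤ b := by
    intro u
    simp only [hW]
    refine (norm_setIntegral_le_of_norm_le_const (C := 1) (sec_fin hG u).lt_top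
      (fun y _ => by rw [Real.norm_eq_abs]; exact hg1 y)).trans ?_
    rw [one_mul]
    exact ENNReal.toReal_le_of_le_ofReal hb0.le (hG.ball u)
  -- the pointwise inequality
  have hpt : ∀ u, 2 * ((n u - c) ^ 2 / (n u + c)) ≤
      t * β u - t / b * ((n u - c) * W u) + A * |n u - c| := by
    intro u
    have e1 := log_ineq (h0 u) hc0
    have e2 := hA u
    set r := Real.log (n u / c) - (c - b⁻¹ * ∫ z in {z | z ∈ L ∧ C u z}, n z ∂m) with hr
    have e3 : Real.log (n u / c) = β u - t / b * W u + r := by
      have : (∫ z in {z | z ∈ L ∧ C u z}, n z ∂m) = t * W u + c * V u := by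
        rw [hWt]
        ring
      rw [hr, this]
      simp only [hβ]
      field_simp
      ring
    rw [e3] at e1
    have e4 : (n u - c) * β u ≤ t * β u :=
      mul_le_mul_of_nonneg_right (by linarith [h1 u]) (hβ0 u)
    have e5 : (n u - c) * r ≤ A * |n u - c| := by
      refine (le_abs_self _).trans ?_
      rw [abs_mul, mul_comm]
      exact mul_le_mul_of_nonneg_right e2 (abs_nonneg _)
    have e6 : (n u - c) * (β u - t / b * W u + r) =
        (n u - c) * β u - t / b * ((n u - c) * W u) + (n u - c) * r := by ring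
    rw [e6] at e1
    linarith
  set N1 := ∫ v in L, |n v - c| ∂m with hN1
  set J := ∫ v in L, ((n v - c) ^ 2 / (n v + c)) ∂m with hJ
  set Q := ∫ v in L, (n v + c) ∂m with hQ
  have iN : IntegrableOn (fun v => |n v - c|) L m :=
    bdd (M := t) hL hfin (by fun_prop) fun v _ => by rw [abs_abs]; exact habs v
  have jle : ∀ v, (n v - c) ^ 2 / (n v + c) ≤ |n v - c| := by
    intro v
    have hp : 0 < n v + c := by linarith [h0 v]
    rw [div_le_iff₀ hp, ← sq_abs]
    have : |n v - c| ≤ n v + c := by
      rw [abs_le]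
      constructor <;> linarith [h0 v]
    nlinarith [abs_nonneg (n v - c)]
  have j0 : ∀ v, 0 ≤ (n v - c) ^ 2 / (n v + c) := fun v =>
    div_nonneg (sq_nonneg _) (by linarith [h0 v])
  have iJ : IntegrableOn (fun v => (n v - c) ^ 2 / (n v + c)) L m :=
    bdd (M := t) hL hfin (by fun_prop) fun v _ => by
      rw [abs_of_nonneg (j0 v)]
      exact (jle v).trans (habs v)
  have iQ : IntegrableOn (fun v => n v + c) L m :=
    bdd (M := 2 * t) hL hfin (by fun_prop) fun v _ => by
      rw [abs_of_pos (by linarith [h0 v])]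
      linarith [h1 v]
  have iβ : IntegrableOn β L m :=
    bdd (M := c) hL hfin (by fun_prop) fun v _ => hβ1 v
  have iW : IntegrableOn (fun v => (n v - c) * W v) L m :=
    bdd (M := t * b) hL hfin (by fun_prop) fun v _ => by
      rw [abs_mul]
      exact mul_le_mul (habs v) (hWb v) (abs_nonneg _) ht.le
  have iS : IntegrableOn (fun v => (n v - c) ^ 2) L m :=
    bdd (M := t ^ 2) hL hfin (by fun_prop) fun v _ => by
      rw [abs_pow]
      exact pow_le_pow_left₀ (abs_nonneg _) (habs v) 2
  have hBd : ∫ v in L, β v ∂m = Bd m C L b c := rfl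
  have hint : 2 * J ≤ t * Bd m C L b c - t / b * (∫ v in L, (n v - c) * W v ∂m) + A * N1 := by
    have e1 : 2 * J = ∫ v in L, 2 * ((n v - c) ^ 2 / (n v + c)) ∂m := by
      rw [integral_const_mul]
    have e2 : t * Bd m C L b c - t / b * (∫ v in L, (n v - c) * W v ∂m) + A * N1 =
        ∫ v in L, (t * β v - t / b * ((n v - c) * W v) + A * |n v - c|) ∂m := by
      have iA : IntegrableOn (fun v => t * β v - t / b * ((n v - c) * W v)) L m :=
        (iβ.const_mul t).sub (iW.const_mul (t / b))
      have h1 : ∫ v in L, t * β v ∂m = t * Bd m C L b c := integral_const_mul t β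
      have h2 : ∫ v in L, t / b * ((n v - c) * W v) ∂m =
          t / b * ∫ v in L, (n v - c) * W v ∂m := integral_const_mul _ _
      have h3 : ∫ v in L, A * |n v - c| ∂m = A * N1 := integral_const_mul _ _
      rw [integral_add iA (iN.const_mul A),
        integral_sub (iβ.const_mul t) (iW.const_mul (t / b)), h1, h2, h3]
    rw [e1, e2]
    exact setIntegral_mono_on (iJ.const_mul 2)
      (((iβ.const_mul t).sub (iW.const_mul (t / b))).add (iN.const_mul A)) hL fun v _ => hpt v
  -- positivity
  have hpos := hP g hgm hg1 hgn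
  have e1 : ∫ x, g x ^ 2 ∂m = (∫ v in L, (n v - c) ^ 2 ∂m) / t ^ 2 := by
    have : (fun x => g x ^ 2) = L.indicator fun x => (n x - c) ^ 2 / t ^ 2 := by
      funext x
      by_cases hx : x ∈ L
      · rw [indicator_of_mem hx, hgL x hx, div_pow]
      · rw [indicator_of_notMem hx, hgn x hx]
        simp
    rw [this, integral_indicator hL, integral_div]
  have e2 : ∫ x, g x * ∫ y in {y | C x y}, g y ∂m ∂m = (∫ v in L, (n v - c) * W v ∂m) / t := by
    have : (fun x => g x * ∫ y in {y | C x y}, g y ∂m) =
        L.indicator fun x => (n x - c) * W x / t := by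
      funext x
      by_cases hx : x ∈ L
      · rw [indicator_of_mem hx, hgL x hx]
        simp only [hW]
        ring
      · rw [indicator_of_notMem hx, hgn x hx]
        simp
    rw [this, integral_indicator hL, integral_div]
  rw [e1, e2] at hpos
  have hneg : -(t / b * (∫ v in L, (n v - c) * W v ∂m)) ≤ ε * ∫ v in L, (n v - c) ^ 2 ∂m := by
    have h3 := mul_le_mul_of_nonneg_left hpos (by positivity : 0 ≤ t ^ 2 / b)
    have e3 : t ^ 2 / b * ((∫ v in L, (n v - c) * W v ∂m) / t) =
        t / b * (∫ v in L, (n v - c) * W v ∂m) := by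
      field_simp
    have e4 : t ^ 2 / b * -(ε * b * ((∫ v in L, (n v - c) ^ 2 ∂m) / t ^ 2)) =
        -(ε * ∫ v in L, (n v - c) ^ 2 ∂m) := by
      field_simp
    rw [e3, e4] at h3
    linarith
  have hεJ : ε * (∫ v in L, (n v - c) ^ 2 ∂m) ≤ J := by
    rw [← integral_const_mul]
    refine setIntegral_mono_on (iS.const_mul ε) iJ hL fun v _ => ?_
    have hp : 0 < n v + c := by linarith [h0 v]
    rw [le_div_iff₀ hp]
    have : ε * (n v + c) ≤ 1 := by
      have := mul_le_mul_of_nonneg_left (by linarith [h1 v] : n v + c ≤ 2 * t) hε0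
      linarith
    nlinarith [sq_nonneg (n v - c)]
  have hJle : J ≤ A * N1 + t * Bd m C L b c := by linarith
  -- Cauchy-Schwarz
  have hN0 : 0 ≤ N1 := setIntegral_nonneg hL fun v _ => abs_nonneg _
  have hJ0 : 0 ≤ J := setIntegral_nonneg hL fun v _ => j0 v
  have hQ0 : 0 ≤ Q := setIntegral_nonneg hL fun v _ => by linarith [h0 v]
  have hQle : Q ≤ N1 + 2 * c * (m L).toReal := by
    have e5 : N1 + 2 * c * (m L).toReal = ∫ v in L, (|n v - c| + 2 * c) ∂m := by
      rw [integral_add iN (integrableOn_const hfin), setIntegral_const, smul_eq_mul]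
      simp only [Measure.real]
      ring
    rw [e5]
    refine setIntegral_mono_on iQ (iN.add (integrableOn_const hfin)) hL fun v _ => ?_
    linarith [le_abs_self (n v - c)]
  have hCS : N1 ^ 2 ≤ J * Q := by
    rcases hN0.eq_or_lt with h | h
    · rw [← h]
      simp only [ne_eq, OfNat.ofNat_ne_zero, not_false_eq_true, zero_pow]
      exact mul_nonneg hJ0 hQ0
    · have hNQ : N1 ≤ Q := by
        refine setIntegral_mono_on iN iQ hL fun v _ => ?_
        rw [abs_le]
        constructor <;> linarith [h0 v]
      have hQp : 0 < Q := h.trans_le hNQ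
      have h5 : 2 * N1 ≤ Q / N1 * J + N1 / Q * Q := by
        have e6 : 2 * N1 = ∫ v in L, 2 * |n v - c| ∂m := by rw [integral_const_mul]
        have e7 : Q / N1 * J + N1 / Q * Q =
            ∫ v in L, (Q / N1 * ((n v - c) ^ 2 / (n v + c)) + N1 / Q * (n v + c)) ∂m := by
          rw [integral_add (iJ.const_mul _) (iQ.const_mul _), integral_const_mul,
            integral_const_mul]
        rw [e6, e7]
        refine setIntegral_mono_on (iN.const_mul 2) ((iJ.const_mul _).add (iQ.const_mul _)) hL
          fun v _ => ?_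
        have hp : 0 < n v + c := by linarith [h0 v]
        set x := |n v - c| with hx
        have hx2 : (n v - c) ^ 2 = x ^ 2 := (sq_abs _).symm
        rw [hx2]
        have e8 : Q / N1 * (x ^ 2 / (n v + c)) + N1 / Q * (n v + c) - 2 * x =
            (Q * x - N1 * (n v + c)) ^ 2 / (N1 * Q * (n v + c)) := by
          field_simp
          ring
        have e9 : 0 ≤ (Q * x - N1 * (n v + c)) ^ 2 / (N1 * Q * (n v + c)) := by positivity
        linarith
      have h6 : N1 / Q * Q = N1 := by field_simp
      rw [h6] at h5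
      have h7 : N1 ≤ Q / N1 * J := by linarith
      have h8 := mul_le_mul_of_nonneg_left h7 hN0
      have h9 : N1 * (Q / N1 * J) = J * Q := by field_simp
      rw [h9] at h8
      nlinarith
  calc N1 ^ 2 ≤ J * Q := hCS
    _ ≤ (A * N1 + t * Bd m C L b c) * (N1 + 2 * c * (m L).toReal) :=
      mul_le_mul hJle hQle hQ0 (hJ0.trans hJle)

end UniqM

theorem uniq_of (hT : PTW) : UNIQ := by
  intro S _ m _ C L b κ ε lam c K hG hS hε0 hP hε hκ hθ hc0 hc N1 hN1
  have hl := hS.lam_nonneg
  have hb0 := hG.b_pos
  rcases hl.eq_or_lt with h | h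
  · have hc00 : c = 0 := by
      rw [← h, zero_mul] at hc
      rcases mul_eq_zero.1 hc with h | h
      · exact h
      · exact absurd h (Real.exp_pos _).ne'
    have : N1 = 0 := by
      rw [hN1, ← h, hc00]
      simp
    rw [this, ← h]
    simp
  · obtain ⟨-, -, hfinG, hX1, -, -⟩ := bas S m C L lam hG.meas hG.measL hG.fin hl
    obtain ⟨hmeas, -⟩ := meas S m C L lam hG.meas hG.measL hG.fin hl
    obtain ⟨hχm, -, -, -, -⟩ := hmeas (Al S) (by
      have : {x : S | Al S x} = univ := by ext; simp [Al]
      rw [this]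
      exact MeasurableSet.univ)
    have ht : 0 < lam * b := mul_pos h hb0
    have hcp : 0 < c := by
      rcases hc0.eq_or_lt with h' | h'
      · rw [← h', zero_mul] at hc
        exact absurd hc ht.ne
      · exact h'
    set a : S → ℝ := fun v => ex m C lam L (chi C (Al S) v) with ha
    have ham : Measurable a := by
      simp only [ha]
      unfold ex
      refine Measurable.div_const ?_ _
      exact (hχm.stronglyMeasurable.integral_prod_right').measurable
    have hTv := fun v => hT S m C L b κ ε lam K hG hS hε0 hP hε hκ hθ v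
    have ha0 : ∀ v, 0 < a v := fun v => (Real.exp_pos _).trans_le (hTv v).1
    have hX0 : 0 < Xi m C lam L := lt_of_lt_of_le one_pos hX1
    have ha1 : ∀ v, a v ≤ 1 := by
      intro v
      simp only [ha]
      unfold ex
      rw [div_le_one hX0]
      have hone : ∫ _ω : Om S, (1 : ℝ) ∂gib m C lam L = Xi m C lam L := by
        rw [integral_const, smul_eq_mul, mul_one]
        rfl
      rw [← hone]
      refine integral_mono ?_ (integrable_const _) fun ω => ?_
      · refine Integrable.of_bound (hχm.comp (measurable_const.prodMk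
          measurable_id)).aestronglyMeasurable 1 (Filter.Eventually.of_forall fun ω => ?_)
        show ‖chi C (Al S) v ω‖ ≤ 1
        unfold chi
        split <;> simp
      · show chi C (Al S) v ω ≤ 1
        unfold chi
        split <;> simp
    have hκ0 := hG.kap_pos
    have hτ : 0 ≤ (lam * b) ^ 2 * κ := by positivity
    have key := UniqM.det (A := 6 * ((lam * b) ^ 2 * κ)) (t := lam * b) (c := c)
      (n := fun v => lam * b * a v) hG hP hε0 ht hε hcp hc (by fun_prop)
      (fun u => mul_pos ht (ha0 u)) (fun u => mul_le_of_le_one_right ht.le (ha1 u))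
      (by positivity) (fun u => by
        have h1 := (hTv u).1
        have h2 := (hTv u).2
        have e1 : b⁻¹ * ∫ z in {z | z ∈ L ∧ C u z}, lam * b * a z ∂m =
            lam * ∫ z in {z | z ∈ L ∧ C u z}, a z ∂m := by
          rw [integral_const_mul]
          field_simp
        have e2 : Real.log (lam * b * a u / c) = c + Real.log (a u) := by
          rw [← hc]
          have : c * Real.exp c * a u / c = Real.exp c * a u := by field_simp
          rw [this, Real.log_mul (Real.exp_pos _).ne' (ha0 u).ne', Real.log_exp]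
        rw [e1, e2]
        have h3 := (Real.le_log_iff_exp_le (ha0 u)).2 h1
        have h4 := (Real.log_le_iff_le_exp (ha0 u)).2 h2
        rw [abs_le]
        constructor <;> linarith)
    rw [hN1]
    exact key

end

end Pool.Agent.HdGas
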