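import Pool.Agent.Lib.NT.Main
import Pool.Agent.Lib.NT.ConcM
import Pool.Agent.Lib.NT.DensM
import Pool.Agent.Lib.NT.FinM
import Pool.Agent.Lib.NT.FreeM
import Pool.Agent.Lib.NT.GasM
import Pool.Agent.Lib.NT.IntegM
import Pool.Agent.Lib.NT.LocalM
import Pool.Agent.Lib.NT.ProfM
import Pool.Agent.Lib.NT.PtwU
import Pool.Agent.Lib.NT.SlopeM
import Pool.Agent.Lib.NT.UniqM

/-!
# Mean field theory with the sharp error: assembly of the rows
-/

set_option autoImplicit false

namespace Pool.Agent.HdGas

theorem ptw_row : PTW :=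
  ptw_of okb (conc_of okb gnz_row decay_row) (ychi_of int_row) (ideal_of bas)
    (markov_of split bas meas)

theorem prof2_row : PROF2 := prof2_of (uniq_of ptw_row)

theorem slope2_row : SLOPE2 := slope2_of (gas2_of prof2_row int_row)

theorem dens2_row : DENS2 := dens2_of thermo_row slope2_row

theorem mfthm : MFTHM := finm dens2_row (free2_of thermo_row slope2_row integ2 dens2_row)

theorem local2_row : LOCAL2 :=
  local2_of geol_of posl_of (exchi_of bas meas) prof2_row scl sysb

end Pool.Agent.HdGas
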