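import Pool.Agent.Lib.NT.Rows4
import Pool.Agent.Lib.NT.Emp
import Pool.Agent.Lib.NT.SysA
import Pool.Agent.Lib.NT.Varn
import Pool.Agent.Lib.MF.Bas
import Pool.Agent.Lib.MF.Meas

/-!
# Probability of no point in `T` with a smaller activity in `A`: row PA4
-/

set_option autoImplicit false

namespace Pool.Agent.HdGas

open MeasureTheory Filter Topology

namespace Pa4

/-- The mean number as a function of the activity. -/
theorem poly2 (K : ℕ) (g : ℕ → ℝ) (hg : ∀ k, 0 ≤ g k) (h0 : 0 < g 0) (γ : ℝ) (hγ : 0 < γ)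
    (h : ∀ τ : ℝ, 0 < τ → τ < 1 →
      γ * ((∑ k ∈ Finset.range (K + 1), (k : ℝ) ^ 2 * (g k * τ ^ k)) /
          (∑ k ∈ Finset.range (K + 1), g k * τ ^ k) -
        ((∑ k ∈ Finset.range (K + 1), (k : ℝ) * (g k * τ ^ k)) /
          (∑ k ∈ Finset.range (K + 1), g k * τ ^ k)) ^ 2) ≤
        (∑ k ∈ Finset.range (K + 1), (k : ℝ) * (g k * τ ^ k)) /
          (∑ k ∈ Finset.range (K + 1), g k * τ ^ k)) {a : ℝ} (ha : 0 < a) (ha1 : a ≤ 1) :
    (∑ k ∈ Finset.range (K + 1), (k : ℝ) * g k) / (∑ k ∈ Finset.range (K + 1), g k) *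
      a ^ (1 / γ) ≤ (∑ k ∈ Finset.range (K + 1), (k : ℝ) * (g k * a ^ k)) /
          (∑ k ∈ Finset.range (K + 1), g k * a ^ k) := by
  set ξ : ℝ → ℝ := fun τ => ∑ k ∈ Finset.range (K + 1), g k * τ ^ k with hξ
  set η : ℝ → ℝ := fun τ => ∑ k ∈ Finset.range (K + 1), (k : ℝ) * (g k * τ ^ k) with hη
  set ζ : ℝ → ℝ := fun τ => ∑ k ∈ Finset.range (K + 1), (k : ℝ) ^ 2 * (g k * τ ^ k) with hζ
  have hpos : ∀ τ, 0 ≤ τ → 0 < ξ τ := by
    intro τ hτ
    refine lt_of_lt_of_le h0 ?_
    have : g 0 * τ ^ 0 ≤ ξ τ := Finset.single_le_sum (f := fun k => g k * τ ^ k)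
      (fun k _ => mul_nonneg (hg k) (pow_nonneg hτ k)) (Finset.mem_range.2 (Nat.succ_pos K))
    simpa using this
  have dξ : ∀ τ, HasDerivAt ξ (∑ k ∈ Finset.range (K + 1), g k * (k * τ ^ (k - 1))) τ := by
    intro τ
    exact HasDerivAt.fun_sum fun k _ => (hasDerivAt_pow k τ).const_mul (g k)
  have dη : ∀ τ, HasDerivAt η
      (∑ k ∈ Finset.range (K + 1), (k : ℝ) * (g k * (k * τ ^ (k - 1)))) τ := by
    intro τ
    exact HasDerivAt.fun_sum fun k _ => ((hasDerivAt_pow k τ).const_mul (g k)).const_mul (k : ℝ)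
  have e : ∀ (τ : ℝ) (k : ℕ), τ * ((k : ℝ) * τ ^ (k - 1)) = k * τ ^ k := by
    intro τ k
    rcases Nat.eq_zero_or_pos k with rfl | hk
    · simp
    · obtain ⟨j, rfl⟩ := Nat.exists_eq_add_of_le' hk
      simp only [Nat.add_sub_cancel]
      rw [pow_succ]
      ring
  have e1 : ∀ τ, τ * (∑ k ∈ Finset.range (K + 1), g k * (k * τ ^ (k - 1))) = η τ := by
    intro τ
    rw [Finset.mul_sum]
    refine Finset.sum_congr rfl fun k _ => ?_
    have := e τ k
    linear_combination (g k) * this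
  have e2 : ∀ τ, τ * (∑ k ∈ Finset.range (K + 1), (k : ℝ) * (g k * (k * τ ^ (k - 1)))) = ζ τ := by
    intro τ
    rw [Finset.mul_sum]
    refine Finset.sum_congr rfl fun k _ => ?_
    have := e τ k
    linear_combination (k * g k) * this
  set p : ℝ := -(1 / γ) with hp
  set F : ℝ → ℝ := fun τ => η τ / ξ τ * τ ^ p with hF
  have dF : ∀ τ, 0 < τ → HasDerivAt F
      ((((∑ k ∈ Finset.range (K + 1), (k : ℝ) * (g k * (k * τ ^ (k - 1)))) * ξ τ -
          η τ * (∑ k ∈ Finset.range (K + 1), g k * (k * τ ^ (k - 1)))) / ξ τ ^ 2) * τ ^ p +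
        η τ / ξ τ * (p * τ ^ (p - 1))) τ := by
    intro τ hτ
    exact ((dη τ).div (dξ τ) (hpos τ hτ.le).ne').mul (Real.hasDerivAt_rpow_const (Or.inl hτ.ne'))
  have hanti : AntitoneOn F (Set.Icc a 1) := by
    refine antitoneOn_of_deriv_nonpos (convex_Icc a 1) ?_ ?_ ?_
    · intro τ hτ
      exact (dF τ (ha.trans_le hτ.1)).continuousAt.continuousWithinAt
    · intro τ hτ
      rw [interior_Icc] at hτ
      exact (dF τ (ha.trans hτ.1)).differentiableAt.differentiableWithinAt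
    · intro τ hτ
      rw [interior_Icc] at hτ
      have hτ0 : 0 < τ := ha.trans hτ.1
      rw [(dF τ hτ0).deriv]
      have hx := hpos τ hτ0.le
      have h1 := h τ hτ0 hτ.2
      have h2 : τ * ((((∑ k ∈ Finset.range (K + 1), (k : ℝ) * (g k * (k * τ ^ (k - 1)))) * ξ τ -
          η τ * (∑ k ∈ Finset.range (K + 1), g k * (k * τ ^ (k - 1)))) / ξ τ ^ 2) * τ ^ p +
        η τ / ξ τ * (p * τ ^ (p - 1))) =
          τ ^ p * ((ζ τ / ξ τ - (η τ / ξ τ) ^ 2) + p * (η τ / ξ τ)) := by
        have h3 : τ * τ ^ (p - 1) = τ ^ p := by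
          rw [Real.rpow_sub_one hτ0.ne']
          field_simp
        rw [← e1 τ, ← e2 τ]
        have hx' := hx.ne'
        have h4 : ∀ X Y Z W : ℝ, τ * (X * τ ^ p + Y * (p * τ ^ (p - 1))) =
            X * τ * τ ^ p + Y * p * (τ * τ ^ (p - 1)) := by
          intro X Y Z W
          ring
        rw [h4 _ _ 0 0, h3]
        field_simp
      have h3 : ζ τ / ξ τ - (η τ / ξ τ) ^ 2 + p * (η τ / ξ τ) ≤ 0 := by
        have h5 : γ * (ζ τ / ξ τ - (η τ / ξ τ) ^ 2) ≤ η τ / ξ τ := h1
        have h6 : ζ τ / ξ τ - (η τ / ξ τ) ^ 2 ≤ η τ / ξ τ / γ := by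
          rw [le_div_iff₀ hγ]
          linarith
        have h7 : p * (η τ / ξ τ) = -(η τ / ξ τ / γ) := by
          rw [hp]
          field_simp
        linarith
      have h4 : τ * ((((∑ k ∈ Finset.range (K + 1), (k : ℝ) * (g k * (k * τ ^ (k - 1)))) * ξ τ -
          η τ * (∑ k ∈ Finset.range (K + 1), g k * (k * τ ^ (k - 1)))) / ξ τ ^ 2) * τ ^ p +
        η τ / ξ τ * (p * τ ^ (p - 1))) ≤ 0 := by
        rw [h2]
        exact mul_nonpos_of_nonneg_of_nonpos (Real.rpow_nonneg hτ0.le _) h3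
      exact nonpos_of_mul_nonpos_right h4 hτ0
  have hle := hanti (Set.left_mem_Icc.2 ha1) (Set.right_mem_Icc.2 ha1) ha1
  have hξ1 : ξ 1 = ∑ k ∈ Finset.range (K + 1), g k := by simp [hξ]
  have hη1 : η 1 = ∑ k ∈ Finset.range (K + 1), (k : ℝ) * g k := by simp [hη]
  rw [← hξ1, ← hη1]
  have h8 : F 1 = η 1 / ξ 1 := by simp [hF]
  have h9 : F a * a ^ (1 / γ) = η a / ξ a := by
    simp only [hF]
    rw [mul_assoc, ← Real.rpow_add ha, hp]
    simp
  rw [← h9, ← h8]
  exact mul_le_mul_of_nonneg_right hle (Real.rpow_nonneg ha.le _)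

section

variable {S : Type} [MeasurableSpace S]

theorem inA_eq (A : Set S) (a : ℝ) : inA A a = Rt33.fac A a := by
  funext x
  unfold inA
  by_cases h : x ∈ A
  · rw [if_pos h, Rt33.fac_mem h]
  · rw [if_neg h, Rt33.fac_not h]

/-- Zero in `T`, `a` in `A`, one elsewhere. -/
noncomputable def be (A T : Set S) (a : ℝ) (x : S) : ℝ := by
  classical exact if x ∈ T then 0 else Rt33.fac A a x

theorem meas_be {A T : Set S} (hA : MeasurableSet A) (hT : MeasurableSet T) (a : ℝ) :
    Measurable (be A T a) := by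
  classical
  exact Measurable.ite hT measurable_const (Rt33.measurable_fac hA a)

theorem U01_be {A T : Set S} (hA : MeasurableSet A) (hT : MeasurableSet T) {a : ℝ} (h0 : 0 ≤ a)
    (h1 : a ≤ 1) : U01 (be A T a) := by
  classical
  refine ⟨meas_be hA hT a, fun x => ?_⟩
  unfold be
  split_ifs
  · exact ⟨le_rfl, zero_le_one⟩
  · exact ⟨Rt33.fac_nonneg h0 x, Rt33.fac_le h1 x⟩

theorem prod_be {A : Set S} (T : Set S) {a : ℝ} (h0 : 0 ≤ a) (ω : Om S) :
    ∏ i, be A T a (ω.2 i) = emv T ω * a ^ nV A ω := by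
  classical
  by_cases h : ∀ i, ω.2 i ∉ T
  · have e1 : emv T ω = 1 := by
      unfold emv
      rw [if_pos]
      unfold nV
      rw [Finset.card_eq_zero, Finset.filter_eq_empty_iff]
      exact fun i _ => h i
    have e2 : ∀ i, be A T a (ω.2 i) = Rt33.fac A a (ω.2 i) := by
      intro i
      unfold be
      rw [if_neg (h i)]
    rw [e1, one_mul, ← Rt33.W_fac h0]
    unfold Wd.W
    rw [ENNReal.toReal_prod]
    refine Finset.prod_congr rfl fun i _ => ?_
    rw [e2, ENNReal.toReal_ofReal (Rt33.fac_nonneg h0 _)]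
  · have e1 : emv T ω = 0 := by
      unfold emv
      rw [if_neg]
      unfold nV
      rw [Finset.card_eq_zero, Finset.filter_eq_empty_iff]
      exact fun h' => h fun i => h' (Finset.mem_univ i)
    push Not at h
    obtain ⟨i, hi⟩ := h
    rw [e1, zero_mul]
    refine Finset.prod_eq_zero (Finset.mem_univ i) ?_
    unfold be
    rw [if_pos hi]

omit [MeasurableSpace S] in
theorem emv_abs (T : Set S) (ω : Om S) : |emv T ω| ≤ 1 := by
  unfold emv
  split_ifs <;> simp

theorem meas_emv {T : Set S} (hT : MeasurableSet T) : Measurable (emv T) := by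
  classical
  unfold emv
  exact Measurable.ite (Rt33.measurable_nV hT (measurableSet_singleton 0)) measurable_const
    measurable_const

end

end Pa4

open Pa4 in
/-- **Row PA4.** -/
theorem pa4_of (hE : EMP) (hW : EMPW) (hV : VARN) (hG : GNZ) (hA : SYSA) (hO : OKB) : PA4 := by
  classical
  intro S _ m _ C L b ε lam K hS hε hP h2τ A T hAm hTm a ha0 ha1
  have hlt : lam * b * ε < 1 := by linarith
  set γ : ℝ := 1 - lam * b * ε with hγ
  have hγ0 : 0 < γ := by
    rw [hγ]
    linarith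
  obtain ⟨hh, -, hfin, hXi, -, -⟩ := bas S m C L lam hS.meas hS.measL hS.fin hS.lam_nonneg
  set G := gib m C lam L with hGdef
  have hX0 : 0 < Xi m C lam L := lt_of_lt_of_le one_pos hXi
  have hK : ∀ᵐ ω ∂G, nV A ω ≤ K := by
    filter_upwards [(hO S m C L lam b K hS).2.1] with ω hω
    exact (Rt33.nV_le A ω).trans (hS.card ω hω.1 hω.2)
  set g : ℕ → ℝ := fun k => G.real {ω | nV A ω = k} with hg
  have hsum : ∀ F : ℕ → ℝ, ∫ ω, F (nV A ω) ∂G = ∑ k ∈ Finset.range (K + 1), F k * g k :=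
    fun F => Emp.sum_num hAm hK F
  have hX : Xi m C lam L = ∑ k ∈ Finset.range (K + 1), g k := by
    have h := hsum fun _ => 1
    simp only [one_mul, integral_const, smul_eq_mul, mul_one] at h
    rw [← h]
    rfl
  -- the system with the smaller activity
  have hint : ∀ τ : ℝ, 0 ≤ τ → τ ≤ 1 → ∀ f : Om S → ℝ,
      ∫ ω, f ω ∂gib (md m (Rt33.fac A τ)) C lam L = ∫ ω, τ ^ nV A ω * f ω ∂G := by
    intro τ h0 h1 f
    have hw1 : ∀ x : S, ENNReal.ofReal (Rt33.fac A τ x) ≤ 1 := fun x => by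
      rw [← ENNReal.ofReal_one]
      exact ENNReal.ofReal_le_ofReal (Rt33.fac_le h1 x)
    have hw := (Rt33.measurable_fac hAm τ).ennreal_ofReal
    have hgib : gib (md m (Rt33.fac A τ)) C lam L =
        G.withDensity (Wd.W fun x => ENNReal.ofReal (Rt33.fac A τ x)) :=
      Wd.gib_wd m hw hw1 C hh lam hS.measL
    rw [hgib, integral_withDensity_eq_integral_toReal_smul (Wd.measurable_W hw)]
    · simp only [Rt33.W_fac h0, smul_eq_mul]
    · refine Filter.Eventually.of_forall fun ω => ?_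
      unfold Wd.W
      exact ENNReal.prod_lt_top fun i _ => (hw1 _).trans_lt ENNReal.one_lt_top
  have hXa : ∀ τ : ℝ, 0 ≤ τ → τ ≤ 1 →
      Xi (md m (Rt33.fac A τ)) C lam L = ∫ ω, τ ^ nV A ω ∂G := by
    intro τ h0 h1
    have h := hint τ h0 h1 fun _ => 1
    simp only [mul_one, integral_const, smul_eq_mul] at h
    rw [← h]
    rfl
  have hXs : ∀ τ : ℝ, ∫ ω, τ ^ nV A ω ∂G = ∑ k ∈ Finset.range (K + 1), g k * τ ^ k := by
    intro τ
    rw [hsum fun k => τ ^ k]
    exact Finset.sum_congr rfl fun k _ => by ring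
  have hex' : ∀ τ : ℝ, 0 ≤ τ → τ ≤ 1 → ∀ F : ℕ → ℝ,
      ex (md m (Rt33.fac A τ)) C lam L (fun ω => F (nV A ω)) =
      (∑ k ∈ Finset.range (K + 1), F k * (g k * τ ^ k)) /
        ∑ k ∈ Finset.range (K + 1), g k * τ ^ k := by
    intro τ h0 h1 F
    unfold ex
    rw [hint τ h0 h1, hXa τ h0 h1, hXs, hsum fun k => τ ^ k * F k]
    congr 1
    exact Finset.sum_congr rfl fun k _ => by ring
  -- (a) EMP for the smaller activity
  have hUa : ∀ τ : ℝ, 0 ≤ τ → τ ≤ 1 → U01 (Rt33.fac A τ) := fun τ h0 h1 =>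
    ⟨Rt33.measurable_fac hAm τ, fun x => ⟨Rt33.fac_nonneg h0 x, Rt33.fac_le h1 x⟩⟩
  obtain ⟨hsf, hS', hP'⟩ := hA S m C L lam b K hS (Rt33.fac A a) (hUa a ha0.le ha1)
  have q1 := hE S (md m (Rt33.fac A a)) C L b ε lam K hS' hε (hP' ε hε hP) hlt A hAm
  have hg0 : 0 < g 0 := by
    obtain ⟨hsf, hS', -⟩ := hA S m C L lam b K hS (Rt33.fac A 0) (hUa 0 le_rfl zero_le_one)
    obtain ⟨-, -, -, h1, -, -⟩ := bas S (md m (Rt33.fac A 0)) C L lam hS'.meas hS'.measL hS'.fin
      hS'.lam_nonneg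
    rw [hXa 0 le_rfl zero_le_one, hXs, Finset.sum_eq_single 0] at h1
    · simp only [pow_zero, mul_one] at h1
      linarith
    · intro k _ hk
      rw [zero_pow hk, mul_zero]
    · intro hk
      simp at hk
  have q2 := poly2 K g (fun k => measureReal_nonneg) hg0 γ hγ0 (fun τ h0 h1 => by
    obtain ⟨hsf, hS', hP'⟩ := hA S m C L lam b K hS (Rt33.fac A τ) (hUa τ h0.le h1.le)
    have := hsf
    have hv := hV S (md m (Rt33.fac A τ)) C L b ε lam K hS' hε (hP' ε hε hP) hlt A hAm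
    have v1 := hex' τ h0.le h1.le fun k => (k : ℝ)
    have v2 := hex' τ h0.le h1.le fun k => (k : ℝ) ^ 2
    rw [v1, v2] at hv
    exact hv) ha0 ha1
  -- the local density
  set E : S → ℝ := fun z => ex m C lam L (chi C (Al S) z) with hEdef
  have e01 : ∀ z, 0 ≤ E z ∧ E z ≤ 1 := by
    intro z
    have hc0 : ∀ ω, 0 ≤ chi C (Al S) z ω ∧ chi C (Al S) z ω ≤ 1 := by
      intro ω
      unfold chi
      split_ifs <;> norm_num
    simp only [hEdef]
    unfold ex
    refine ⟨div_nonneg (integral_nonneg fun ω => (hc0 ω).1) hX0.le, ?_⟩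
    rw [div_le_one hX0]
    have h1 : ∫ ω, chi C (Al S) z ω ∂gib m C lam L ≤ ∫ _ω, (1 : ℝ) ∂gib m C lam L := by
      refine integral_mono_of_nonneg (ae_of_all _ fun ω => (hc0 ω).1) (integrable_const 1)
        (ae_of_all _ fun ω => (hc0 ω).2)
    refine h1.trans (le_of_eq ?_)
    rw [integral_const, smul_eq_mul, mul_one]
    rfl
  have mE : Measurable E := by
    obtain ⟨hM1, -⟩ := meas S m C L lam hS.meas hS.measL hS.fin hS.lam_nonneg
    obtain ⟨mc, -, -, -, -⟩ := hM1 (Al S) MeasurableSet.univ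
    simp only [hEdef]
    unfold ex
    exact (mc.stronglyMeasurable.integral_prod_right' (ν := gib m C lam L)).measurable.div_const _
  have hLf : IsFiniteMeasure (m.restrict L) := ⟨by
    rw [Measure.restrict_apply_univ]
    exact hS.fin.lt_top⟩
  have Iw : ∀ w : S → ℝ, Measurable w → (∀ z, |w z| ≤ 2) →
      Integrable (fun z => w z * E z) (m.restrict L) := by
    intro w hw hb
    refine Integrable.of_bound (hw.mul mE).aestronglyMeasurable 2 (ae_of_all _ fun z => ?_)
    rw [Real.norm_eq_abs, abs_mul, abs_of_nonneg (e01 z).1]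
    nlinarith [hb z, e01 z, abs_nonneg (w z)]
  have hsub : ∀ B : Set S, MeasurableSet B →
      ∫ z in L ∩ B, E z ∂m = ∫ z in L, Vn.iA B z * E z ∂m := by
    intro B hB
    rw [Set.inter_comm, ← Measure.restrict_restrict hB, ← integral_indicator hB]
    refine integral_congr_ae (ae_of_all _ fun z => ?_)
    simp only
    by_cases hz : z ∈ B
    · rw [Set.indicator_of_mem hz, Vn.iA_mem hz, one_mul]
    · rw [Set.indicator_of_notMem hz, Vn.iA_not hz, zero_mul]
  have hnA : ex m C lam L (fun ω => (nV A ω : ℝ)) = lam * ∫ z in L ∩ A, E z ∂m := by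
    rw [Vn.ex_nV hG hS hAm, hsub A hAm]
    congr 1
    refine integral_congr_ae (ae_of_all _ fun z => ?_)
    simp only [hEdef]
    unfold ex
    rw [integral_mul_const]
    ring
  have hex1 : ex m C lam L (fun ω => (nV A ω : ℝ)) =
      (∑ k ∈ Finset.range (K + 1), (k : ℝ) * g k) / (∑ k ∈ Finset.range (K + 1), g k) := by
    unfold ex
    rw [← hGdef, hsum fun k => (k : ℝ), hX]
  have v1 := hex' a ha0.le ha1 fun k => (k : ℝ)
  rw [← v1, ← hex1, hnA] at q2
  -- (b) EMPW
  have q3 := hW S m C L b ε lam K hS hε hP hlt (be A T a) (U01_be hAm hTm ha0.le ha1)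
  set nA : ℝ := lam * ∫ z in L ∩ A, E z ∂m with hnAdef
  set nT : ℝ := lam * ∫ z in L ∩ (T \ A), E z ∂m with hnTdef
  have hlam := hS.lam_nonneg
  have hnA0 : 0 ≤ nA := mul_nonneg hlam (integral_nonneg fun z => (e01 z).1)
  have q4 : nT + (1 - a) * nA ≤ lam * ∫ z in L, (1 - be A T a z) * E z ∂m := by
    have hTA := hTm.diff hAm
    have i1 := Iw (Vn.iA (T \ A)) (Vn.meas_iA hTA) fun z => (Vn.iA_abs _ z).trans one_le_two
    have i2 := Iw (Vn.iA A) (Vn.meas_iA hAm) fun z => (Vn.iA_abs _ z).trans one_le_two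
    have e1 : nT + (1 - a) * nA =
        lam * ∫ z in L, (Vn.iA (T \ A) z * E z + (1 - a) * (Vn.iA A z * E z)) ∂m := by
      rw [hnTdef, hnAdef, hsub _ hTA, hsub _ hAm, integral_add i1 (i2.const_mul _),
        integral_const_mul]
      ring
    rw [e1]
    refine mul_le_mul_of_nonneg_left (integral_mono (i1.add (i2.const_mul _)) ?_ fun z => ?_) hlam
    · refine Iw (fun z => 1 - be A T a z) ((meas_be hAm hTm a).const_sub 1) fun z => ?_
      have h1 := (U01_be hAm hTm ha0.le ha1 : U01 (be A T a)).2 z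
      rw [abs_le]
      constructor <;> linarith [h1.1, h1.2]
    · have hE0 := (e01 z).1
      simp only
      by_cases hzA : z ∈ A
      · rw [Vn.iA_mem hzA, Vn.iA_not (fun h => h.2 hzA)]
        by_cases hzT : z ∈ T
        · have : be A T a z = 0 := by
            unfold be
            rw [if_pos hzT]
          rw [this]
          nlinarith
        · have : be A T a z = a := by
            unfold be
            rw [if_neg hzT, Rt33.fac_mem hzA]
          rw [this]
          nlinarith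
      · rw [Vn.iA_not hzA]
        by_cases hzT : z ∈ T
        · have : be A T a z = 0 := by
            unfold be
            rw [if_pos hzT]
          rw [this, Vn.iA_mem (show z ∈ T \ A from ⟨hzT, hzA⟩)]
          nlinarith
        · have : be A T a z = 1 := by
            unfold be
            rw [if_neg hzT, Rt33.fac_not hzA]
          rw [this, Vn.iA_not (fun h => hzT h.1)]
          nlinarith
  -- (c) the identity
  have hPa : 0 < ∫ ω, a ^ nV A ω ∂G := by
    rw [hXs]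
    have h1 : g 0 * a ^ 0 ≤ ∑ k ∈ Finset.range (K + 1), g k * a ^ k :=
      Finset.single_le_sum (f := fun k => g k * a ^ k)
        (fun k _ => mul_nonneg measureReal_nonneg (pow_nonneg ha0.le k))
        (Finset.mem_range.2 (Nat.succ_pos K))
    rw [pow_zero, mul_one] at h1
    linarith
  have id1 : ex (md m (Rt33.fac A a)) C lam L (emv T) * ex m C lam L (emv A) =
      ex m C lam L (fun ω => ∏ i, be A T a (ω.2 i)) *
        ex (md m (Rt33.fac A a)) C lam L (emv A) := by
    have e1 : ∫ ω, a ^ nV A ω * emv A ω ∂G = ∫ ω, emv A ω ∂G := by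
      refine integral_congr_ae (ae_of_all _ fun ω => ?_)
      simp only
      unfold emv
      by_cases h : nV A ω = 0
      · rw [if_pos h, h, pow_zero, one_mul]
      · rw [if_neg h, mul_zero]
    have e2 : ∫ ω, ∏ i, be A T a (ω.2 i) ∂G = ∫ ω, a ^ nV A ω * emv T ω ∂G := by
      refine integral_congr_ae (ae_of_all _ fun ω => ?_)
      simp only
      rw [prod_be T ha0.le]
      ring
    unfold ex
    rw [hint a ha0.le ha1, hint a ha0.le ha1, hXa a ha0.le ha1, ← hGdef, e1, e2]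
    field_simp
  have q5 : ex (md m (Rt33.fac A a)) C lam L (emv A) ≤ Real.exp (-(γ * (nA * a ^ (1 / γ)))) := by
    refine (q1.trans (Real.exp_le_exp.2 ?_))
    have := mul_le_mul_of_nonneg_left q2 hγ0.le
    linarith
  have hex0 : 0 ≤ ex (md m (Rt33.fac A a)) C lam L (emv A) := by
    unfold ex
    refine div_nonneg (integral_nonneg fun ω => ?_) ENNReal.toReal_nonneg
    show 0 ≤ emv A ω
    unfold emv
    split_ifs <;> norm_num
  rw [inA_eq, id1]
  refine (mul_le_mul q3 q5 hex0 (Real.exp_pos _).le).trans ?_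
  rw [← Real.exp_add]
  refine Real.exp_le_exp.2 ?_
  have q6 : 1 + 1 / γ * (a - 1) ≤ a ^ (1 / γ) := by
    have h1 := one_add_mul_self_le_rpow_one_add (s := a - 1) (by linarith) (p := 1 / γ) (by
      rw [le_div_iff₀ hγ0, one_mul, hγ]
      have := mul_nonneg (mul_nonneg hlam hS.b_pos.le) hε
      linarith)
    rwa [add_sub_cancel] at h1
  have q7 := mul_le_mul_of_nonneg_left q6 (mul_nonneg hγ0.le hnA0)
  have q8 : γ * nA * (1 + 1 / γ * (a - 1)) = γ * nA + nA * (a - 1) := by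
    field_simp
  have q9 := mul_le_mul_of_nonneg_left q4 hγ0.le
  have hτ0 : 0 ≤ lam * b * ε := mul_nonneg (mul_nonneg hlam hS.b_pos.le) hε
  have q10 : (1 - 2 * (lam * b * ε)) * nA ≤ γ * ((1 - a) * nA) + (γ * nA + nA * (a - 1)) := by
    have : γ * ((1 - a) * nA) + (γ * nA + nA * (a - 1)) - (1 - 2 * (lam * b * ε)) * nA =
        nA * (lam * b * ε) * a := by
      rw [hγ]
      ring
    have h2 : 0 ≤ nA * (lam * b * ε) * a := by positivity
    linarith
  have q11 : γ * (nA * a ^ (1 / γ)) = γ * nA * a ^ (1 / γ) := by ring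
  rw [q11]
  nlinarith [q7, q8, q9, q10]

end Pool.Agent.HdGas
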