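import Pool.Agent.Lib.NT.Rows
import Pool.Agent.Lib.MF.Top2

/-!
# Mean field theory with the sharp error: rows
-/

set_option autoImplicit false

namespace Pool.Agent.HdGas

open MeasureTheory Filter Topology Pool.Agent.SquareWellGas Pool.Agent.KacGas Pool.Agent.VdwGas

noncomputable section

/-- Exponential concentration of the free volume near a place. -/
def CONC : Prop := ∀ (S : Type) [MeasurableSpace S] (m : Measure S) [SigmaFinite m]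
  (C : S → S → Prop) (L : Set S) (b κ ε lam : ℝ) (K : ℕ), Geo m C L b κ → Sys m C L lam b K →
  0 ≤ ε → Posi m C L b ε → lam * b * ε ≤ 1 / 2 → (lam * b) ^ 2 * κ ≤ 1 / 2 →
  lam * b * κ ≤ 1 / 2 → ∀ v : S,
    ex m C lam L (fun ω => Real.exp (-((1 - 2 * (lam * b * κ)) * Yk m C lam L (Al S) v ω))) ≤
      Real.exp (4 * ((lam * b) ^ 2 * κ) -
        (1 - 2 * (lam * b * κ)) * ex m C lam L (Yk m C lam L (Al S) v))

/-- The self-consistency equation for the local density, at every place. -/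
def PTW : Prop := ∀ (S : Type) [MeasurableSpace S] (m : Measure S) [SigmaFinite m]
  (C : S → S → Prop) (L : Set S) (b κ ε lam : ℝ) (K : ℕ), Geo m C L b κ → Sys m C L lam b K →
  0 ≤ ε → Posi m C L b ε → lam * b * ε ≤ 1 / 2 → (lam * b) ^ 2 * κ ≤ 1 / 2 →
  lam * b * κ ≤ 1 / 2 → ∀ v : S,
    Real.exp (-(lam * ∫ z in {z | z ∈ L ∧ C v z}, ex m C lam L (chi C (Al S) z) ∂m) -
      2 * ((lam * b) ^ 2 * κ)) ≤ ex m C lam L (chi C (Al S) v) ∧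
    ex m C lam L (chi C (Al S) v) ≤
      Real.exp (-(lam * ∫ z in {z | z ∈ L ∧ C v z}, ex m C lam L (chi C (Al S) z) ∂m) +
        6 * ((lam * b) ^ 2 * κ))

/-- Uniqueness for the self-consistency equation. -/
def UNIQ : Prop := ∀ (S : Type) [MeasurableSpace S] (m : Measure S) [SigmaFinite m]
  (C : S → S → Prop) (L : Set S) (b κ ε lam c : ℝ) (K : ℕ), Geo m C L b κ → Sys m C L lam b K →
  0 ≤ ε → Posi m C L b ε → lam * b * ε ≤ 1 / 2 → (lam * b) ^ 2 * κ ≤ 1 / 2 →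
  lam * b * κ ≤ 1 / 2 → 0 ≤ c → c * Real.exp c = lam * b → ∀ N1 : ℝ,
    N1 = ∫ v in L, |lam * b * ex m C lam L (chi C (Al S) v) - c| ∂m →
    N1 ^ 2 ≤ (6 * ((lam * b) ^ 2 * κ) * N1 + lam * b * Bd m C L b c) *
      (N1 + 2 * c * (m L).toReal)

/-- The local density is close to the mean field value. -/
def PROF2 : Prop := ∀ (S : Type) [MeasurableSpace S] (m : Measure S) [SigmaFinite m]
  (C : S → S → Prop) (L : Set S) (b κ ε lam c : ℝ) (K : ℕ), Geo m C L b κ → Sys m C L lam b K →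
  0 ≤ ε → Posi m C L b ε → lam * b * ε ≤ 1 / 2 → (lam * b) ^ 2 * κ ≤ 1 / 24 → 0 ≤ c →
  c * Real.exp c = lam * b →
    ∫ v in L, |lam * b * ex m C lam L (chi C (Al S) v) - c| ∂m ≤
      16 * ((lam * b) ^ 2 * κ) * c * (m L).toReal + 4 / 3 * (lam * b * Bd m C L b c) +
        √(3 * c * (lam * b) * Bd m C L b c * (m L).toReal)

/-- The mean number of points. -/
def GAS2 : Prop := ∀ (S : Type) [MeasurableSpace S] (m : Measure S) [SigmaFinite m]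
  (C : S → S → Prop) (L : Set S) (b κ ε lam c : ℝ) (K : ℕ), Geo m C L b κ → Sys m C L lam b K →
  0 ≤ ε → Posi m C L b ε → lam * b * ε ≤ 1 / 2 → (lam * b) ^ 2 * κ ≤ 1 / 24 → 0 ≤ c →
  c * Real.exp c = lam * b →
    |b * ex m C lam L (fun ω => (ω.1 : ℝ)) - c * (m L).toReal| ≤
      16 * ((lam * b) ^ 2 * κ) * c * (m L).toReal + 4 / 3 * (lam * b * Bd m C L b c) +
        √(3 * c * (lam * b) * Bd m C L b c * (m L).toReal)

/-- Slopes of the pressure. -/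
def SLOPE2 : Prop := ∀ d : ℕ, 1 ≤ d → ∀ P : ℝ → ℝ, IsPr d P → ∀ μ c : ℝ, 0 ≤ c →
  c * Real.exp c = Real.exp μ * bv d → (Real.exp μ * bv d) ^ 2 * kap d ≤ 1 / 24 →
  Real.exp μ * bv d * epd d ≤ 1 / 2 →
    ∀ h : ℝ, h * c - |h| * (16 * ((Real.exp μ * bv d) ^ 2 * kap d) * c) ≤
      bv d * (P (μ + h) - P μ)

/-- Integration of the slopes. -/
def INTEG2 : Prop := ∀ (b A T : ℝ) (P : ℝ → ℝ), 0 < b → 0 ≤ A →
  (∀ μ, 0 ≤ P μ ∧ P μ ≤ Real.exp μ) →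
  (∀ μ c : ℝ, 0 ≤ c → c * Real.exp c = Real.exp μ * b → Real.exp μ * b ≤ T → ∀ h : ℝ,
    h * c - |h| * (A * (Real.exp μ * b) ^ 2 * c) ≤ b * (P (μ + h) - P μ)) →
  ∀ μ c : ℝ, 0 ≤ c → c * Real.exp c = Real.exp μ * b → Real.exp μ * b ≤ T →
    |b * P μ - (c + c ^ 2 / 2)| ≤ A / 2 * (Real.exp μ * b) ^ 2 * c

/-- Densities at a chemical potential (diameter one). -/
def DENS2 : Prop := ∀ d : ℕ, 1 ≤ d → ∀ (f : ℝ → ℝ) (r : ℝ), IsF d (1 / 2) (fun _ => 0) f r →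
  ∀ μ c ρ : ℝ, 0 ≤ c → c * Real.exp c = Real.exp μ * bv d →
    24 * ((Real.exp μ * bv d) ^ 2 * kap d) < 1 → 2 * (Real.exp μ * bv d * epd d) < 1 →
    ρ ∈ Set.Ioo 0 r → (∀ x ∈ Set.Ioo 0 r, f x + μ * x ≤ f ρ + μ * ρ) →
      |ρ * bv d - c| ≤ 16 * ((Real.exp μ * bv d) ^ 2 * kap d) * c

/-- Free energy (diameter one). -/
def FREE2 : Prop := ∃ d0 : ℕ, ∀ d : ℕ, d0 ≤ d → ∀ (f : ℝ → ℝ) (r : ℝ),
  IsF d (1 / 2) (fun _ => 0) f r → ConcaveOn ℝ (Set.Ioo 0 r) f →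
    ∀ ρ x : ℝ, 0 < ρ → x = ρ * bv d → x ≤ d / 15 → ρ < r ∧
      |bv d * f ρ - (x - x * Real.log ρ - x ^ 2 / 2)| ≤
        16 * (x ^ 3 * Real.exp (2 * x) * kap d)

/-- The local density of hard spheres in a region of any shape. -/
def LOCAL2 : Prop := ∀ d : ℕ, 1 ≤ d → ∀ a lam c : ℝ, 0 < a → 0 ≤ lam → 0 ≤ c →
  c * Real.exp c = lam * ball d a →
  24 * ((lam * ball d a) ^ 2 * (√3 / 2) ^ d) ≤ 1 →
  2 * (lam * ball d a * (√2 * Real.exp (-(d : ℝ) / 8))) ≤ 1 →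
  ∀ L : Set (Fin d → ℝ), MeasurableSet L → (∃ ℓ : ℝ, ∀ x ∈ L, ∀ k, |x k| ≤ ℓ) → ∀ B : ℝ,
    B = ∫ v in L, c * (1 -
        (volume {z | z ∈ L ∧ ∑ k, (v k - z k) ^ 2 < (2 * a) ^ 2}).toReal / ball d a) →
    ∫ v in L, |ball d a * (lam * XiR d a lam {z | z ∈ L ∧ (2 * a) ^ 2 ≤ ∑ k, (v k - z k) ^ 2} /
      XiR d a lam L) - c| ≤
    16 * ((lam * ball d a) ^ 2 * (√3 / 2) ^ d) * c * (volume L).toReal +
      4 / 3 * (lam * ball d a * B) + √(3 * c * (lam * ball d a) * B * (volume L).toReal)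

/-- The theorem. -/
def MFTHM : Prop := ∃ d0 : ℕ, ∀ d : ℕ, 1 ≤ d → ∀ a : ℝ, 0 < a → ∃ (f : ℝ → ℝ) (ρ₀ : ℝ),
  IsF d a (fun _ => 0) f ρ₀ ∧
  (∀ μ c ρ : ℝ, 0 ≤ c → c * Real.exp c = Real.exp μ * ball d a →
    24 * ((Real.exp μ * ball d a) ^ 2 * (√3 / 2) ^ d) < 1 →
    2 * (Real.exp μ * ball d a * (√2 * Real.exp (-(d : ℝ) / 8))) < 1 → ρ ∈ Set.Ioo 0 ρ₀ →
    (∀ x ∈ Set.Ioo 0 ρ₀, f x + μ * x ≤ f ρ + μ * ρ) →
      |ρ * ball d a - c| ≤ 16 * ((Real.exp μ * ball d a) ^ 2 * (√3 / 2) ^ d) * c) ∧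
  (d0 ≤ d → ∀ ρ x : ℝ, 0 < ρ → x = ρ * ball d a → x ≤ d / 15 → ρ < ρ₀ ∧
    |ball d a * f ρ - (x - x * Real.log ρ - x ^ 2 / 2)| ≤
      16 * (x ^ 3 * Real.exp (2 * x) * (√3 / 2) ^ d))

end

end Pool.Agent.HdGas
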