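import Pool.Agent.Lib.NT.Top
import Pool.Agent.Lib.MF.Geob
import Pool.Agent.Lib.MF.RowBdry
import Pool.Agent.Lib.MF.Bas
import Pool.Agent.Lib.MF.Jen

/-!
# Hard spheres, row SLO: a lower bound on the density (helper63)
-/

set_option autoImplicit false

namespace Pool.Agent.HdGas

open MeasureTheory Filter Topology Pool.Agent.SquareWellGas Pool.Agent.KacGas Pool.Agent.VdwGas

/-- Row SLO. -/
theorem slo_of (hS : SYSB) (hG : GINI) : SLO := by
  intro d hd P hP μ h hh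
  have hb : 0 < bv d := GeobR.bv_pos d
  have l2 : Tendsto (fun ℓ : ℝ =>
      (Real.log (Xi volume (Cb d) (Real.exp (μ + h)) (Box d ℓ)) / ℓ ^ d -
        Real.log (Xi volume (Cb d) (Real.exp μ) (Box d ℓ)) / ℓ ^ d)) atTop
      (𝓝 (P (μ + h) - P μ)) := (hP (μ + h)).sub (hP μ)
  refine ge_of_tendsto l2 ?_
  filter_upwards [eventually_gt_atTop (0 : ℝ)] with ℓ hℓ
  have hgeo := geob_of d hd ℓ
  have hV : (volume (Box d ℓ)).toReal = ℓ ^ d := Bdr.vol_Box hℓ.le
  have hVpos : 0 < ℓ ^ d := pow_pos hℓ d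
  obtain ⟨K, hK⟩ := hS d hd (Real.exp μ) ℓ (Real.exp_pos μ).le hℓ.le
  have h1 := (hG _ volume (Cb d) (Box d ℓ) (Real.exp μ) (bv d) K hK).2
  have h2 := jen_of bas _ volume (Cb d) (Box d ℓ) hgeo.meas hgeo.measL hgeo.fin μ h
  rw [hV] at h1
  have ht : 0 < 1 + Real.exp μ * bv d := by positivity
  rw [← sub_div, le_div_iff₀ hVpos]
  refine le_trans ?_ h2
  rw [mul_assoc]
  refine mul_le_mul_of_nonneg_left ?_ hh
  rw [div_mul_eq_mul_div, div_le_iff₀ ht]
  linarith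

end Pool.Agent.HdGas
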