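import Pool.Agent.Lib.NT.Reg4
import Pool.Agent.Lib.NT.SysA
import Pool.Agent.Lib.MF.Meas
import Pool.Agent.Lib.MF.Bas
import Pool.Agent.Lib.MF.YChi

/-!
# Row TRIP4, first part: measures of sets of triples of places (helper40)
-/

set_option autoImplicit false

namespace Pool.Agent.HdGas

open MeasureTheory Metric

namespace Trip

/-- Places. -/
abbrev Pl (d : ℕ) := Fin d → ℝ

/-- The square of the distance is less than `r`. -/
def Qr (d : ℕ) (r : ℝ) (x z : Pl d) : Prop := ∑ k, (x k - z k) ^ 2 < r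

theorem Qr_symm {d : ℕ} {r : ℝ} {x z : Pl d} (h : Qr d r x z) : Qr d r z x := by
  unfold Qr at h ⊢
  have : ∑ k, (z k - x k) ^ 2 = ∑ k, (x k - z k) ^ 2 :=
    Finset.sum_congr rfl fun k _ => by ring
  rwa [this]

theorem Cb_eq {d : ℕ} {x z : Pl d} : Cb d x z ↔ Qr d 1 x z := Iff.rfl

theorem mQ {α : Type} [MeasurableSpace α] {d : ℕ} (r : ℝ) {f g : α → Pl d} (hf : Measurable f)
    (hg : Measurable g) : MeasurableSet {a | Qr d r (f a) (g a)} := by
  unfold Qr
  refine measurableSet_lt ?_ measurable_const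
  refine Finset.measurable_sum _ fun k _ => ?_
  exact (((measurable_pi_apply k).comp hf).sub ((measurable_pi_apply k).comp hg)).pow_const 2

theorem mC {α : Type} [MeasurableSpace α] {d : ℕ} {f g : α → Pl d} (hf : Measurable f)
    (hg : Measurable g) : MeasurableSet {a | Cb d (f a) (g a)} := mQ 1 hf hg

/-- The volume of the unit ball. -/
noncomputable def be (d : ℕ) : ENNReal := ENNReal.ofReal (bv d)

/-- The bound for the volume of the small ball. -/
noncomputable def he (d : ℕ) : ENNReal := ENNReal.ofReal ((1 / 2) ^ d * bv d)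

theorem v1 {d : ℕ} (x : Pl d) : volume {z | Cb d x z} = be d := GeobR.vol_ball x

theorem v1' {d : ℕ} (x : Pl d) : volume {z | Cb d z x} = be d := by
  rw [← v1 x]
  congr 1
  ext z
  exact ⟨fun h => Qr_symm h, fun h => Qr_symm h⟩

theorem v2 {d : ℕ} (x : Pl d) : volume {z | Qr d (1 / 4) x z} ≤ he d := Ovl.small x

theorem v2' {d : ℕ} (x : Pl d) : volume {z | Qr d (1 / 4) z x} ≤ he d := by
  refine le_trans (measure_mono fun z hz => ?_) (v2 x)
  exact Qr_symm hz

/-- Tonelli. -/
theorem ton {d : ℕ} {R : Pl d → Pl d → Prop} (hR : MeasurableSet {p : Pl d × Pl d | R p.1 p.2})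
    {Z : Set (Pl d)} (hZ : MeasurableSet Z) {c : ENNReal} (hc : ∀ z, volume {w | R w z} ≤ c) :
    ∫⁻ w, volume {z | z ∈ Z ∧ R w z} ≤ c * volume Z := by
  have hM : MeasurableSet {p : Pl d × Pl d | p.2 ∈ Z ∧ R p.1 p.2} := (measurable_snd hZ).inter hR
  have h1 : ∫⁻ w, volume {z | z ∈ Z ∧ R w z} =
      ((volume : Measure (Pl d)).prod volume) {p : Pl d × Pl d | p.2 ∈ Z ∧ R p.1 p.2} := by
    rw [Measure.prod_apply hM]
    rfl
  rw [h1, Measure.prod_apply_symm hM]
  calc ∫⁻ z, volume ((fun w => (w, z)) ⁻¹' {p : Pl d × Pl d | p.2 ∈ Z ∧ R p.1 p.2})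
      ≤ ∫⁻ z, Z.indicator (fun _ => c) z := by
        refine lintegral_mono fun z => ?_
        by_cases hz : z ∈ Z
        · rw [Set.indicator_of_mem hz]
          refine le_trans (measure_mono fun w hw => ?_) (hc z)
          exact hw.2
        · have : (fun w => (w, z)) ⁻¹' {p : Pl d × Pl d | p.2 ∈ Z ∧ R p.1 p.2} = ∅ := by
            ext w
            simp [hz]
          rw [this]
          simp
    _ = c * volume Z := by rw [lintegral_indicator hZ, setLIntegral_const]

/-- `volume` on triples. -/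
noncomputable abbrev v3 (d : ℕ) : Measure (Pl d × Pl d × Pl d) :=
  (volume : Measure (Pl d)).prod ((volume : Measure (Pl d)).prod volume)

theorem v3_le {d : ℕ} {M : Set (Pl d × Pl d × Pl d)} (hM : MeasurableSet M)
    {F : Pl d → ENNReal} (h : ∀ w, ((volume : Measure (Pl d)).prod volume) (Prod.mk w ⁻¹' M) ≤
      F w) : v3 d M ≤ ∫⁻ w, F w := by
  rw [v3, Measure.prod_apply hM]
  exact lintegral_mono h

/-- All triples. -/
def Tri {d : ℕ} (u : Pl d) : Set (Pl d × Pl d × Pl d) :=
  {p | (Cb d u p.2.1 ∧ Cb d p.1 p.2.1) ∧ (Cb d u p.2.2 ∧ Cb d p.1 p.2.2)}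

theorem mTri {d : ℕ} (u : Pl d) : MeasurableSet (Tri u) := by
  refine MeasurableSet.inter (MeasurableSet.inter ?_ ?_) (MeasurableSet.inter ?_ ?_)
  · exact mC measurable_const (by fun_prop)
  · exact mC (by fun_prop) (by fun_prop)
  · exact mC measurable_const (by fun_prop)
  · exact mC (by fun_prop) (by fun_prop)

/-- The volume of the overlap of two balls. -/
noncomputable def gg {d : ℕ} (u w : Pl d) : ENNReal := volume {z | z ∈ {z | Cb d u z} ∧ Cb d w z}

theorem gg_le {d : ℕ} (u w : Pl d) : gg u w ≤ be d := by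
  refine le_trans (measure_mono fun z hz => ?_) (v1 w).le
  exact hz.2

theorem gg_far {d : ℕ} (u w : Pl d) (h : ¬ Cb d u w) : gg u w ≤ ENNReal.ofReal (kap d) * be d := by
  have hk : 0 ≤ kap d := (MF.Geo.kap_pos d).le
  have := GeobR.vol_far u w h
  rw [ENNReal.ofReal_mul hk] at this
  exact this

theorem mball {d : ℕ} (u : Pl d) : MeasurableSet {z | Cb d u z} :=
  mC measurable_const measurable_id

theorem gg_int {d : ℕ} (u : Pl d) : ∫⁻ w, gg u w ≤ be d * be d := by
  have h := ton (R := Cb d) (GeobR.measurable_Cb d) (mball u) (fun z => (v1' z).le)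
  rw [v1 u] at h
  exact h

theorem gg_int_near {d : ℕ} (u : Pl d) : ∫⁻ w, {z | Cb d u z}.indicator (gg u) w ≤
    ENNReal.ofReal (2 * kap d) * be d * be d := by
  have hM : MeasurableSet {p : Pl d × Pl d | p.1 ∈ {z | Cb d u z} ∧ p.2 ∈ {z | Cb d u z} ∧
      Cb d p.1 p.2} :=
    (measurable_fst (mball u)).inter ((measurable_snd (mball u)).inter (GeobR.measurable_Cb d))
  have hk : 0 ≤ 2 * kap d := mul_nonneg two_pos.le (MF.Geo.kap_pos d).le
  have h := GeobR.vol_pair u {z | Cb d u z} (mball u) le_rfl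
  rw [Measure.prod_apply hM, v1 u, ENNReal.ofReal_mul hk] at h
  refine le_trans (lintegral_mono fun w => ?_) h
  by_cases hw : w ∈ {z | Cb d u z}
  · rw [Set.indicator_of_mem hw]
    refine measure_mono fun z hz => ?_
    exact ⟨hw, hz.1, hz.2⟩
  · rw [Set.indicator_of_notMem hw]
    exact zero_le

theorem mgg {d : ℕ} (u : Pl d) : Measurable (gg u) := by
  have hM : MeasurableSet {p : Pl d × Pl d | p.2 ∈ {z | Cb d u z} ∧ Cb d p.1 p.2} :=
    (measurable_snd (mball u)).inter (GeobR.measurable_Cb d)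
  exact measurable_measure_prodMk_left hM

theorem sec {d : ℕ} (u w : Pl d) :
    ((volume : Measure (Pl d)).prod volume) (Prod.mk w ⁻¹' Tri u) ≤ gg u w * gg u w := by
  rw [gg, ← Measure.prod_prod]
  refine measure_mono fun q hq => ?_
  exact ⟨hq.1, hq.2⟩

/-- The measure of all triples. -/
theorem v3_Tri {d : ℕ} (u : Pl d) : v3 d (Tri u) ≤ ENNReal.ofReal (3 * kap d * bv d ^ 3) := by
  refine (v3_le (mTri u) (sec u)).trans ?_
  have hk : (0 : ℝ) ≤ kap d := (MF.Geo.kap_pos d).le
  have hb := (GeobR.bv_pos d).le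
  have h1 : ∀ w, gg u w * gg u w ≤ be d * {z | Cb d u z}.indicator (gg u) w +
      ENNReal.ofReal (kap d) * be d * gg u w := by
    intro w
    by_cases hw : w ∈ {z | Cb d u z}
    · rw [Set.indicator_of_mem hw]
      exact (mul_le_mul_left (gg_le u w) _).trans le_self_add
    · rw [Set.indicator_of_notMem hw, mul_zero, zero_add]
      exact mul_le_mul_left (gg_far u w hw) _
  refine (lintegral_mono h1).trans ?_
  rw [lintegral_add_left (((mgg u).indicator (mball u)).const_mul _),
    lintegral_const_mul _ ((mgg u).indicator (mball u)), lintegral_const_mul _ (mgg u)]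
  calc be d * (∫⁻ w, {z | Cb d u z}.indicator (gg u) w) +
        ENNReal.ofReal (kap d) * be d * (∫⁻ w, gg u w)
      ≤ be d * (ENNReal.ofReal (2 * kap d) * be d * be d) +
        ENNReal.ofReal (kap d) * be d * (be d * be d) :=
        add_le_add (mul_le_mul_right (gg_int_near u) _) (mul_le_mul_right (gg_int u) _)
    _ = ENNReal.ofReal (3 * kap d * bv d ^ 3) := by
        unfold be
        rw [← ENNReal.ofReal_mul (by positivity), ← ENNReal.ofReal_mul (by positivity),
          ← ENNReal.ofReal_mul hb, ← ENNReal.ofReal_mul hk, ← ENNReal.ofReal_mul hb,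
          ← ENNReal.ofReal_mul (by positivity), ← ENNReal.ofReal_add (by positivity)
          (by positivity)]
        congr 1
        ring

/-- Triples with a small distance. -/
def Bad {d : ℕ} (u : Pl d) : Set (Pl d × Pl d × Pl d) :=
  {p | Qr d (1 / 4) u p.2.1} ∪ {p | Qr d (1 / 4) u p.2.2} ∪ {p | Qr d (1 / 4) p.1 p.2.1} ∪
    {p | Qr d (1 / 4) p.1 p.2.2} ∪ {p | Qr d (1 / 4) u p.1} ∪ {p | Qr d (1 / 4) p.2.1 p.2.2}

theorem mBad {d : ℕ} (u : Pl d) : MeasurableSet (Bad u) := by
  refine ((((MeasurableSet.union ?_ ?_).union ?_).union ?_).union ?_).union ?_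
  · exact mQ _ measurable_const (by fun_prop)
  · exact mQ _ measurable_const (by fun_prop)
  · exact mQ _ (by fun_prop) (by fun_prop)
  · exact mQ _ (by fun_prop) (by fun_prop)
  · exact mQ _ measurable_const (by fun_prop)
  · exact mQ _ (by fun_prop) (by fun_prop)

theorem mQ2 (d : ℕ) (r : ℝ) : MeasurableSet {p : Pl d × Pl d | Qr d r p.1 p.2} :=
  mQ r measurable_fst measurable_snd

theorem mcol {d : ℕ} {R : Pl d → Pl d → Prop} (hR : MeasurableSet {p : Pl d × Pl d | R p.1 p.2})
    {Z : Set (Pl d)} (hZ : MeasurableSet Z) : Measurable fun w => volume {z | z ∈ Z ∧ R w z} := by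
  have hM : MeasurableSet {p : Pl d × Pl d | p.2 ∈ Z ∧ R p.1 p.2} := (measurable_snd hZ).inter hR
  exact measurable_measure_prodMk_left hM

theorem bad1 {d : ℕ} (u : Pl d) : v3 d (Tri u ∩ {p | Qr d (1 / 4) u p.2.1}) ≤
    he d * be d * be d := by
  have hm : MeasurableSet {z | Qr d (1 / 4) u z} := mQ _ measurable_const measurable_id
  refine (v3_le ((mTri u).inter (mQ _ measurable_const (by fun_prop)))
    (F := fun w => volume {z | z ∈ {z | Qr d (1 / 4) u z} ∧ Cb d w z} * be d) fun w => ?_).trans ?_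
  · rw [← v1 w, ← Measure.prod_prod]
    refine measure_mono fun q hq => ?_
    exact ⟨⟨hq.2, hq.1.1.2⟩, hq.1.2.2⟩
  · rw [lintegral_mul_const _ (mcol (GeobR.measurable_Cb d) hm)]
    refine mul_le_mul_left ?_ _
    refine (ton (GeobR.measurable_Cb d) hm fun z => (v1' z).le).trans ?_
    rw [mul_comm]
    exact mul_le_mul_left (v2 u) _

theorem bad2 {d : ℕ} (u : Pl d) : v3 d (Tri u ∩ {p | Qr d (1 / 4) u p.2.2}) ≤
    he d * be d * be d := by
  have hm : MeasurableSet {z | Qr d (1 / 4) u z} := mQ _ measurable_const measurable_id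
  refine (v3_le ((mTri u).inter (mQ _ measurable_const (by fun_prop)))
    (F := fun w => volume {z | z ∈ {z | Qr d (1 / 4) u z} ∧ Cb d w z} * be d) fun w => ?_).trans ?_
  · rw [mul_comm, ← v1 w, ← Measure.prod_prod]
    refine measure_mono fun q hq => ?_
    exact ⟨hq.1.1.2, hq.2, hq.1.2.2⟩
  · rw [lintegral_mul_const _ (mcol (GeobR.measurable_Cb d) hm)]
    refine mul_le_mul_left ?_ _
    refine (ton (GeobR.measurable_Cb d) hm fun z => (v1' z).le).trans ?_
    rw [mul_comm]
    exact mul_le_mul_left (v2 u) _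

theorem bad3 {d : ℕ} (u : Pl d) : v3 d (Tri u ∩ {p | Qr d (1 / 4) p.1 p.2.1}) ≤
    he d * be d * be d := by
  refine (v3_le ((mTri u).inter (mQ _ (by fun_prop) (by fun_prop)))
    (F := fun w => volume {z | z ∈ {z | Cb d u z} ∧ Qr d (1 / 4) w z} * be d) fun w => ?_).trans ?_
  · rw [← v1 w, ← Measure.prod_prod]
    refine measure_mono fun q hq => ?_
    exact ⟨⟨hq.1.1.1, hq.2⟩, hq.1.2.2⟩
  · rw [lintegral_mul_const _ (mcol (mQ2 d _) (mball u))]
    refine mul_le_mul_left ?_ _
    refine (ton (mQ2 d _) (mball u) fun z => v2' z).trans ?_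
    rw [v1 u]

theorem bad4 {d : ℕ} (u : Pl d) : v3 d (Tri u ∩ {p | Qr d (1 / 4) p.1 p.2.2}) ≤
    he d * be d * be d := by
  refine (v3_le ((mTri u).inter (mQ _ (by fun_prop) (by fun_prop)))
    (F := fun w => volume {z | z ∈ {z | Cb d u z} ∧ Qr d (1 / 4) w z} * be d) fun w => ?_).trans ?_
  · rw [mul_comm, ← v1 w, ← Measure.prod_prod]
    refine measure_mono fun q hq => ?_
    exact ⟨hq.1.1.2, hq.1.2.1, hq.2⟩
  · rw [lintegral_mul_const _ (mcol (mQ2 d _) (mball u))]
    refine mul_le_mul_left ?_ _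
    refine (ton (mQ2 d _) (mball u) fun z => v2' z).trans ?_
    rw [v1 u]

theorem bad5 {d : ℕ} (u : Pl d) : v3 d (Tri u ∩ {p | Qr d (1 / 4) u p.1}) ≤
    he d * be d * be d := by
  have hm : MeasurableSet {z | Qr d (1 / 4) u z} := mQ _ measurable_const measurable_id
  refine (v3_le ((mTri u).inter (mQ _ measurable_const (by fun_prop)))
    (F := {z | Qr d (1 / 4) u z}.indicator fun _ => be d * be d) fun w => ?_).trans ?_
  · by_cases hw : w ∈ {z | Qr d (1 / 4) u z}
    · rw [Set.indicator_of_mem hw]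
      refine (measure_mono ?_).trans ((sec u w).trans (mul_le_mul' (gg_le u w) (gg_le u w)))
      exact fun q hq => hq.1
    · have : Prod.mk w ⁻¹' (Tri u ∩ {p | Qr d (1 / 4) u p.1}) = ∅ := by
        rw [Set.eq_empty_iff_forall_notMem]
        intro q hq
        exact hw hq.2
      rw [this]
      simp
  · rw [lintegral_indicator hm, setLIntegral_const, mul_comm, mul_assoc]
    exact mul_le_mul_left (v2 u) _

theorem bad6 {d : ℕ} (u : Pl d) : v3 d (Tri u ∩ {p | Qr d (1 / 4) p.2.1 p.2.2}) ≤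
    he d * be d * be d := by
  refine (v3_le ((mTri u).inter (mQ _ (by fun_prop) (by fun_prop)))
    (F := fun w => he d * gg u w) fun w => ?_).trans ?_
  · have hm : MeasurableSet {z | z ∈ {z | Cb d u z} ∧ Cb d w z} :=
      (mball u).inter (mball w)
    have hM : MeasurableSet {q : Pl d × Pl d | q.1 ∈ {z | z ∈ {z | Cb d u z} ∧ Cb d w z} ∧
        Qr d (1 / 4) q.1 q.2} := (measurable_fst hm).inter (mQ2 d _)
    have h1 : ((volume : Measure (Pl d)).prod volume) (Prod.mk w ⁻¹' (Tri u ∩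
        {p | Qr d (1 / 4) p.2.1 p.2.2})) ≤ ((volume : Measure (Pl d)).prod volume)
        {q : Pl d × Pl d | q.1 ∈ {z | z ∈ {z | Cb d u z} ∧ Cb d w z} ∧
        Qr d (1 / 4) q.1 q.2} := measure_mono fun q hq => ⟨hq.1.1, hq.2⟩
    refine h1.trans ?_
    rw [Measure.prod_apply hM]
    calc ∫⁻ z, volume (Prod.mk z ⁻¹' {q : Pl d × Pl d |
          q.1 ∈ {z | z ∈ {z | Cb d u z} ∧ Cb d w z} ∧ Qr d (1 / 4) q.1 q.2})
        ≤ ∫⁻ z, {z | z ∈ {z | Cb d u z} ∧ Cb d w z}.indicator (fun _ => he d) z := by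
          refine lintegral_mono fun z => ?_
          by_cases hz : z ∈ {z | z ∈ {z | Cb d u z} ∧ Cb d w z}
          · rw [Set.indicator_of_mem hz]
            refine le_trans (measure_mono fun q hq => ?_) (v2 z)
            exact hq.2
          · have : Prod.mk z ⁻¹' {q : Pl d × Pl d |
                q.1 ∈ {z | z ∈ {z | Cb d u z} ∧ Cb d w z} ∧ Qr d (1 / 4) q.1 q.2} = ∅ := by
              rw [Set.eq_empty_iff_forall_notMem]
              intro q hq
              exact hz hq.1
            rw [this]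
            simp
      _ = he d * gg u w := by rw [lintegral_indicator hm, setLIntegral_const]; rfl
  · rw [lintegral_const_mul _ (mgg u), mul_assoc]
    exact mul_le_mul_right (gg_int u) _

/-- The measure of the bad triples. -/
theorem v3_Bad {d : ℕ} (u : Pl d) : v3 d (Tri u ∩ Bad u) ≤
    ENNReal.ofReal (6 * (1 / 2) ^ d * bv d ^ 3) := by
  have hb := (GeobR.bv_pos d).le
  have h1 : Tri u ∩ Bad u ⊆ (Tri u ∩ {p | Qr d (1 / 4) u p.2.1}) ∪
      (Tri u ∩ {p | Qr d (1 / 4) u p.2.2}) ∪ (Tri u ∩ {p | Qr d (1 / 4) p.1 p.2.1}) ∪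
      (Tri u ∩ {p | Qr d (1 / 4) p.1 p.2.2}) ∪ (Tri u ∩ {p | Qr d (1 / 4) u p.1}) ∪
      (Tri u ∩ {p | Qr d (1 / 4) p.2.1 p.2.2}) := by
    rintro p ⟨hp, (((((h | h) | h) | h) | h) | h)⟩
    · exact Or.inl (Or.inl (Or.inl (Or.inl (Or.inl ⟨hp, h⟩))))
    · exact Or.inl (Or.inl (Or.inl (Or.inl (Or.inr ⟨hp, h⟩))))
    · exact Or.inl (Or.inl (Or.inl (Or.inr ⟨hp, h⟩)))
    · exact Or.inl (Or.inl (Or.inr ⟨hp, h⟩))
    · exact Or.inl (Or.inr ⟨hp, h⟩)
    · exact Or.inr ⟨hp, h⟩
  have h2 : v3 d (Tri u ∩ Bad u) ≤ he d * be d * be d + he d * be d * be d +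
      he d * be d * be d + he d * be d * be d + he d * be d * be d + he d * be d * be d := by
    refine (measure_mono h1).trans ?_
    refine (measure_union_le _ _).trans (add_le_add ?_ (bad6 u))
    refine (measure_union_le _ _).trans (add_le_add ?_ (bad5 u))
    refine (measure_union_le _ _).trans (add_le_add ?_ (bad4 u))
    refine (measure_union_le _ _).trans (add_le_add ?_ (bad3 u))
    exact (measure_union_le _ _).trans (add_le_add (bad1 u) (bad2 u))
  refine h2.trans (le_of_eq ?_)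
  have h3 : he d * be d * be d = ENNReal.ofReal ((1 / 2) ^ d * bv d ^ 3) := by
    unfold he be
    rw [← ENNReal.ofReal_mul (by positivity), ← ENNReal.ofReal_mul (by positivity)]
    congr 1
    ring
  rw [h3, ← ENNReal.ofReal_add (by positivity) (by positivity),
    ← ENNReal.ofReal_add (by positivity) (by positivity),
    ← ENNReal.ofReal_add (by positivity) (by positivity),
    ← ENNReal.ofReal_add (by positivity) (by positivity),
    ← ENNReal.ofReal_add (by positivity) (by positivity)]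
  congr 1
  ring

end Trip

end Pool.Agent.HdGas
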