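import Pool.Agent.Lib.NT.Top
import Pool.Agent.Lib.MF.Geob
import Pool.Agent.Lib.MF.Pars

/-!
# No zeros in a sector for hard spheres in a box
-/

set_option autoImplicit false

namespace Pool.Agent.HdGas

open MeasureTheory Filter Topology Pool.Agent.SquareWellGas

namespace Zfbx

/-- The volume of the places at distance at most `1 + (T + s) / s`. -/
noncomputable def w (d : ℕ) (s T : ℝ) : ℝ := bv d * |(T + 3 * s) / s| ^ d

/-- Distance from the unit ball at `x`, scaled. -/
noncomputable def φ (d : ℕ) (s : ℝ) (x y : Fin d → ℝ) : ℝ :=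
  s * max (dist (GeobR.e d x) (GeobR.e d y) - 1) 0

variable {d : ℕ}

theorem w_nonneg (s T : ℝ) : 0 ≤ w d s T :=
  mul_nonneg (GeobR.bv_pos d).le (pow_nonneg (abs_nonneg _) _)

theorem lim {s : ℝ} (hs : 0 < s) :
    Tendsto (fun T : ℝ => Real.exp (-T) * (w d s T * √(w d s T))) atTop (𝓝 0) := by
  have hy : Tendsto (fun T : ℝ => T + 3 * s) atTop atTop := tendsto_atTop_add_const_right _ _ tendsto_id
  have h1 := (Real.tendsto_pow_mul_exp_neg_atTop_nhds_zero d).comp hy
  have h2 := (Real.tendsto_pow_mul_exp_neg_atTop_nhds_zero (d * 2)).comp hy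
  have h3 : Tendsto (fun T : ℝ => Real.exp (3 * s) * ((bv d / s ^ d) *
      ((T + 3 * s) ^ d * Real.exp (-(T + 3 * s))) + (bv d / s ^ d) ^ 2 *
      ((T + 3 * s) ^ (d * 2) * Real.exp (-(T + 3 * s))))) atTop (𝓝 0) := by
    have := ((h1.const_mul (bv d / s ^ d)).add (h2.const_mul ((bv d / s ^ d) ^ 2))).const_mul
      (Real.exp (3 * s))
    simpa using this
  refine squeeze_zero' (Eventually.of_forall fun T => ?_) ?_ h3
  · exact mul_nonneg (Real.exp_pos _).le (mul_nonneg (w_nonneg _ _) (Real.sqrt_nonneg _))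
  · filter_upwards [eventually_ge_atTop 0] with T hT
    have hw : w d s T = (bv d / s ^ d) * (T + 3 * s) ^ d := by
      unfold w
      rw [abs_of_nonneg (by positivity), div_pow]
      ring
    have he : Real.exp (-T) = Real.exp (3 * s) * Real.exp (-(T + 3 * s)) := by
      rw [← Real.exp_add]
      congr 1
      ring
    have hq : √(w d s T) ≤ 1 + w d s T := by
      have h0 := w_nonneg (d := d) s T
      rw [Real.sqrt_le_left (by linarith)]
      nlinarith
    have h0 := w_nonneg (d := d) s T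
    calc Real.exp (-T) * (w d s T * √(w d s T))
        ≤ Real.exp (-T) * (w d s T * (1 + w d s T)) :=
          mul_le_mul_of_nonneg_left (mul_le_mul_of_nonneg_left hq h0) (Real.exp_pos _).le
      _ = _ := by
          rw [he, hw, pow_mul]
          ring

theorem vol {s : ℝ} (hs : 0 < s) (T : ℝ) (x : Fin d → ℝ) :
    volume {y | φ d s x y ≤ T + s} ≤ ENNReal.ofReal (w d s T) := by
  by_cases hT : 0 ≤ T + s
  · have hρ : 0 < (T + 3 * s) / s := by
      apply div_pos _ hs
      linarith
    have hsub : {y | φ d s x y ≤ T + s} ⊆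
        {y | GeobR.e d y ∈ Metric.ball (GeobR.e d x) ((T + 3 * s) / s)} := by
      intro y hy
      rw [Set.mem_ofPred_eq, Metric.mem_ball, dist_comm, lt_div_iff₀ hs]
      have h1 : s * max (dist (GeobR.e d x) (GeobR.e d y) - 1) 0 ≤ T + s := hy
      have h2 : s * (dist (GeobR.e d x) (GeobR.e d y) - 1) ≤ T + s :=
        (mul_le_mul_of_nonneg_left (le_max_left _ _) hs.le).trans h1
      nlinarith
    refine (measure_mono hsub).trans ?_
    rw [GeobR.vol_pre]
    have h := Measure.addHaar_ball_mul_of_pos (volume : Measure (EuclideanSpace ℝ (Fin d)))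
      (GeobR.e d x) hρ 1
    rw [mul_one, finrank_euclideanSpace_fin] at h
    rw [h]
    unfold w
    rw [abs_of_pos hρ, mul_comm (bv d), ENNReal.ofReal_mul (by positivity), GeobR.ofReal_bv]
    rfl
  · have : {y | φ d s x y ≤ T + s} = ∅ := by
      rw [Set.eq_empty_iff_forall_notMem]
      intro y hy
      apply hT
      have h1 : s * max (dist (GeobR.e d x) (GeobR.e d y) - 1) 0 ≤ T + s := hy
      exact (mul_nonneg hs.le (le_max_right _ _)).trans h1
    rw [this]
    simp

end Zfbx

open Zfbx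

theorem zfb_of (hZ : ZFALL) (hS : SYSB) : ZFB := by
  intro d hd ε lam hε hF hlam hlt
  have hb := GeobR.bv_pos d
  obtain ⟨s, hs, hs1⟩ : ∃ s : ℝ, 0 < s ∧ 0 < 1 - lam * bv d * (ε + (Real.cosh s - 1)) := by
    have hc : Tendsto (fun s : ℝ => 1 - lam * bv d * (ε + (Real.cosh s - 1))) (𝓝[>] 0)
        (𝓝 (1 - lam * bv d * (ε + (Real.cosh 0 - 1)))) := by
      refine Tendsto.mono_left ?_ nhdsWithin_le_nhds
      refine Continuous.tendsto ?_ 0
      fun_prop
    rw [Real.cosh_zero] at hc
    have h0 : 0 < 1 - lam * bv d * (ε + (1 - 1)) := by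
      rw [sub_self, add_zero]
      linarith
    obtain ⟨s, h1, h2⟩ := ((hc.eventually (lt_mem_nhds h0)).and self_mem_nhdsWithin).exists
    exact ⟨s, h2, h1⟩
  obtain ⟨θ0, h0, h⟩ := hZ (Fin d → ℝ) volume (Cb d) lam (bv d) ε hε (φ d s) s (w d s)
    (fun x => by
      unfold φ
      exact ((((measurable_const.dist (GeobR.e d).measurable).sub_const 1).max
        measurable_const).const_mul s))
    (fun x y => mul_nonneg hs.le (le_max_right _ _))
    (fun x y hxy => by
      have := (GeobR.Cb_iff x y).1 hxy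
      unfold φ
      rw [max_eq_right (by linarith), mul_zero])
    (fun x y z hyz => by
      have h1 := (GeobR.Cb_iff y z).1 hyz
      unfold φ
      rw [← mul_sub, abs_mul, abs_of_pos hs]
      have h2 : |max (dist (GeobR.e d x) (GeobR.e d y) - 1) 0 -
          max (dist (GeobR.e d x) (GeobR.e d z) - 1) 0| ≤ 1 := by
        refine (abs_max_sub_max_le_abs _ _ _).trans ?_
        have h3 := abs_dist_sub_le (GeobR.e d y) (GeobR.e d z) (GeobR.e d x)
        rw [dist_comm (GeobR.e d y) (GeobR.e d x), dist_comm (GeobR.e d z) (GeobR.e d x)] at h3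
        rw [sub_sub_sub_cancel_right]
        exact h3.trans h1.le
      nlinarith)
    (fun T => w_nonneg s T) (fun T x => vol hs T x) hs.le (lim hs) hlam hb hs1
  refine ⟨θ0, h0, fun ℓ hℓ θ hθ => ?_⟩
  obtain ⟨K, hK⟩ := hS d hd lam ℓ hlam hℓ
  exact h (Box d ℓ) K hK (pars_of d ε hd hε hF ℓ) θ hθ

end Pool.Agent.HdGas
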